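import Pool.Agent.H5.BinColDefs

set_option autoImplicit false

namespace Pool.Agent.H5.BinCol
open PowerSeries

abbrev S := PowerSeries ℤ

noncomputable def E : S →ₐ[ℤ] S := PowerSeries.expand 2 two_ne_zero

noncomputable def U (f : S) : S := PowerSeries.mk fun n => coeff (2 * n) f

noncomputable def sg : S →+* S := PowerSeries.rescale (-1)

theorem coeff_E (f : S) (n : ℕ) : coeff n (E f) = if 2 ∣ n then coeff (n / 2) f else 0 := by
  unfold E; exact PowerSeries.coeff_expand 2 two_ne_zero f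

theorem coeff_U (f : S) (n : ℕ) : coeff n (U f) = coeff (2 * n) f := by simp [U]

theorem coeff_sg (f : S) (n : ℕ) : coeff n (sg f) = (-1) ^ n * coeff n f := by
  simp [sg, coeff_rescale]

theorem coeff_two_mul (f : S) (n : ℕ) : coeff n (2 * f) = 2 * coeff n f := by
  rw [two_mul, map_add]; ring

theorem E_inj {f g : S} (h : 2 * E f = 2 * E g) : f = g := by
  ext n
  have := congrArg (coeff (2 * n)) h
  rw [coeff_two_mul, coeff_two_mul, coeff_E, coeff_E] at this
  simpa using this

theorem add_sg (f : S) : f + sg f = 2 * E (U f) := by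
  ext n
  rw [map_add, coeff_sg, coeff_two_mul, coeff_E]
  rcases Nat.even_or_odd' n with ⟨k, rfl | rfl⟩
  · simp [coeff_U, pow_mul]; ring
  · have : ¬ 2 ∣ 2 * k + 1 := by omega
    simp [this, pow_succ, pow_mul]

theorem sg_E (f : S) : sg (E f) = E f := by
  ext n
  rw [coeff_sg, coeff_E]
  rcases Nat.even_or_odd' n with ⟨k, rfl | rfl⟩
  · simp [pow_mul]
  · have : ¬ 2 ∣ 2 * k + 1 := by omega
    simp [this]

theorem U_mul_E (f h : S) : U (f * E h) = U f * h := by
  apply E_inj
  rw [← add_sg, map_mul, map_mul, sg_E, ← mul_assoc, ← add_sg]; ring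

theorem U_add (f g : S) : U (f + g) = U f + U g := by
  ext n; simp [coeff_U]

theorem U_sub (f g : S) : U (f - g) = U f - U g := by
  ext n; simp [coeff_U]

theorem U_int (a : ℤ) (f : S) : U ((a : S) * f) = (a : S) * U f := by
  have := U_mul_E f (a : S)
  rw [map_intCast] at this
  rw [mul_comm, this, mul_comm]

theorem U_two (f : S) : U (2 * f) = 2 * U f := by
  have := U_int 2 f
  simpa using this

theorem U_two_pow (k : ℕ) (f : S) : U (2 ^ k * f) = 2 ^ k * U f := by
  have := U_int (2 ^ k) f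
  simpa using this

theorem geo_one_mul : geo 1 * (1 - X) = 1 := by
  have : geo 1 = PowerSeries.mk (1 : ℕ → ℤ) := by
    ext n; simp [geo]
  rw [this]; exact PowerSeries.mk_one_mul_one_sub_eq_one ℤ

theorem E_geo (d : ℕ) : E (geo d) = geo (2 * d) := by
  ext n
  rw [coeff_E]
  rcases Nat.even_or_odd' n with ⟨k, rfl | rfl⟩
  · simp [geo, Nat.mul_dvd_mul_iff_left]
  · have h1 : ¬ 2 ∣ 2 * k + 1 := by omega
    have h2 : ¬ 2 * d ∣ 2 * k + 1 := fun h => h1 (dvd_trans (Dvd.intro d rfl) h)
    simp [geo, h1, h2]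

theorem E_X : E X = X ^ 2 := by unfold E; exact PowerSeries.expand_X 2 two_ne_zero

theorem sg_X : sg X = -X := by
  unfold sg; rw [PowerSeries.rescale_X]; simp

noncomputable def r : S := (1 + X) * geo 1

theorem geo_two_mul : geo 2 * (1 - X ^ 2) = 1 := by
  have := congrArg E geo_one_mul
  rwa [map_mul, map_sub, map_one, E_X, E_geo] at this

theorem sg_geo_mul : sg (geo 1) * (1 + X) = 1 := by
  have := congrArg sg geo_one_mul
  rw [map_mul, map_sub, map_one, sg_X] at this
  simpa using this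

theorem r_mul_sg : r * sg r = 1 := by
  unfold r
  rw [map_mul, map_add, map_one, sg_X]
  linear_combination (sg (geo 1) * (1 + X)) * geo_one_mul + sg_geo_mul

theorem r_geo_two : r * geo 2 = geo 1 ^ 2 := by
  unfold r
  linear_combination (-(1 + X) * geo 1 * geo 2) * geo_one_mul + geo 1 ^ 2 * geo_two_mul

theorem r_add_sg : r + sg r = 2 * E r := by
  unfold r
  rw [map_mul, map_add, map_one, sg_X, map_mul, map_add, map_one, E_X, E_geo]
  have h1 := geo_one_mul
  have h2 := sg_geo_mul
  have h3 := geo_two_mul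
  show (1 + X) * geo 1 + (1 + -X) * sg (geo 1) = 2 * ((1 + X ^ 2) * geo 2)
  linear_combination (geo 2 * (1 + X) ^ 2) * h1 + (geo 2 * (1 - X) ^ 2) * h2
    - ((1 + X) * geo 1 + (1 - X) * sg (geo 1)) * h3

/-- finite products -/
noncomputable def F (m N : ℕ) : S := geo 1 ^ m * ∏ i ∈ Finset.range N, geo (2 ^ i) ^ m

theorem F_succ (m N : ℕ) : F m (N + 1) = r ^ m * E (F m N) := by
  unfold F
  have : ∀ i ∈ Finset.range N, E (geo (2 ^ i) ^ m) = geo (2 ^ (i + 1)) ^ m := by
    intro i _
    rw [map_pow, E_geo, pow_succ, mul_comm]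
  rw [Finset.prod_range_succ', map_mul, map_pow, map_prod, E_geo, Finset.prod_congr rfl this,
    ← mul_assoc (r ^ m), ← mul_pow, mul_one, r_geo_two]
  simp only [pow_zero]
  ring

theorem geo_dvd (N : ℕ) : (X : S) ^ (N + 1) ∣ geo (2 ^ N) - 1 := by
  rw [PowerSeries.X_pow_dvd_iff]
  intro j hj
  have h : N < 2 ^ N := Nat.lt_two_pow_self
  rcases Nat.eq_zero_or_pos j with rfl | hp
  · simp [geo]
  · have : ¬ 2 ^ N ∣ j := fun hd => by have := Nat.le_of_dvd hp hd; omega
    simp [geo, this, coeff_one, hp.ne']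

theorem F_step (m N : ℕ) : (X : S) ^ (N + 1) ∣ F m (N + 1) - F m N := by
  have h1 : F m (N + 1) - F m N = F m N * (geo (2 ^ N) ^ m - 1) := by
    unfold F; rw [Finset.prod_range_succ]; ring
  rw [h1]
  apply Dvd.dvd.mul_left
  refine dvd_trans (geo_dvd N) ?_
  have := sub_dvd_pow_sub_pow (geo (2 ^ N)) 1 m
  rwa [one_pow] at this

theorem F_stab (m n d : ℕ) : coeff n (F m (n + 1 + d)) = coeff n (F m (n + 1)) := by
  induction d with
  | zero => rfl
  | succ d ih =>
    have := (PowerSeries.X_pow_dvd_iff.1 (F_step m (n + 1 + d))) n (by omega)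
    rw [map_sub, sub_eq_zero] at this
    rw [← ih, ← this]; rfl

noncomputable def CC (m : ℕ) : S := PowerSeries.mk (c m)

theorem CC_dvd (m N : ℕ) : (X : S) ^ N ∣ CC m - F m N := by
  rw [PowerSeries.X_pow_dvd_iff]
  intro j hj
  obtain ⟨d, rfl⟩ : ∃ d, N = j + 1 + d := ⟨N - (j + 1), by omega⟩
  rw [map_sub, F_stab]
  simp [CC, c, F]

theorem CC_eq (m : ℕ) : CC m = r ^ m * E (CC m) := by
  ext n
  have h1 : (X : S) ^ (n + 1) ∣ CC m - F m (n + 1 + 1) :=
    dvd_trans (pow_dvd_pow _ (by omega)) (CC_dvd m (n + 1 + 1))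
  have h2 : (X : S) ^ (n + 1) ∣ E (CC m) - E (F m (n + 1)) := by
    have := map_dvd E (CC_dvd m (n + 1))
    rw [map_pow, E_X, map_sub, ← pow_mul] at this
    exact dvd_trans (pow_dvd_pow _ (by omega)) this
  have h3 : (X : S) ^ (n + 1) ∣ CC m - r ^ m * E (CC m) := by
    have : CC m - r ^ m * E (CC m) =
        (CC m - F m (n + 1 + 1)) - r ^ m * (E (CC m) - E (F m (n + 1))) := by
      rw [F_succ m (n + 1)]; ring
    rw [this]
    exact dvd_sub h1 (Dvd.dvd.mul_left h2 _)
  have := (PowerSeries.X_pow_dvd_iff.1 h3) n (by omega)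
  rwa [map_sub, sub_eq_zero] at this

theorem r_eq : r = 1 + 2 * (X * geo 1) := by
  unfold r; linear_combination geo_one_mul

theorem CC_zero (m : ℕ) : coeff 0 (CC m) = 1 := by
  have : constantCoeff (geo 1) = 1 := by
    rw [← coeff_zero_eq_constantCoeff_apply]; simp [geo]
  simp [CC, c, this]

theorem CC_odd (m : ℕ) : ∃ G : S, CC m = 1 + 2 * G := by
  obtain ⟨h, hh⟩ : ∃ h : S, r ^ m = 1 + 2 * h := by
    have := sub_dvd_pow_sub_pow r 1 m
    obtain ⟨q, hq⟩ := this
    refine ⟨X * geo 1 * q, ?_⟩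
    rw [one_pow] at hq
    linear_combination hq + q * r_eq
  have key : ∀ n, 0 < n → 2 ∣ coeff n (CC m) := by
    intro n
    induction n using Nat.strong_induction_on with
    | _ n ih =>
      intro hn
      have e : CC m = E (CC m) + 2 * (h * E (CC m)) := by
        have := CC_eq m
        rw [hh] at this
        linear_combination this
      rw [e, map_add, coeff_two_mul, coeff_E]
      refine dvd_add ?_ (Dvd.intro _ rfl)
      split_ifs with h2
      · exact ih (n / 2) (by omega) (by omega)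
      · exact dvd_zero _
  refine ⟨PowerSeries.mk fun n => coeff n (CC m) / 2, ?_⟩
  ext n
  rw [map_add, coeff_two_mul, coeff_mk]
  rcases Nat.eq_zero_or_pos n with rfl | hn
  · rw [CC_zero]; simp
  · rw [Int.mul_ediv_cancel' (key n hn)]; simp [coeff_one, hn.ne']

theorem U_mul_CC (m : ℕ) (f : S) : U (f * CC m) = U (f * r ^ m) * CC m := by
  conv_lhs => rw [CC_eq m, ← mul_assoc]
  exact U_mul_E _ _

noncomputable def z : S := r ^ 2 - 1
noncomputable def y : S := X * geo 1 ^ 2

theorem z_eq : z = 4 * y := by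
  unfold z y r
  linear_combination (geo 1 * (1 - X) + 1) * geo_one_mul

theorem coeff_y (n : ℕ) : coeff n y = n := by
  unfold y
  rcases n with _ | n
  · simp
  · rw [coeff_succ_X_mul, sq, coeff_mul]
    simp [geo]

end Pool.Agent.H5.BinCol
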