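import Pool.Agent.H5.BinCol1

set_option autoImplicit false

namespace Pool.Agent.H5.BinCol
open PowerSeries

/-- Chebyshev pair: `(x + sqrt(x^2-1))^n = t + u sqrt(x^2-1)` -/
noncomputable def tu (x : S) : ℕ → S × S
  | 0 => (1, 0)
  | n + 1 => (x * (tu x n).1 + (x ^ 2 - 1) * (tu x n).2, (tu x n).1 + x * (tu x n).2)

theorem tu_E (x : S) (n : ℕ) : tu (E x) n = (E (tu x n).1, E (tu x n).2) := by
  induction n with
  | zero => simp [tu]
  | succ n ih => simp [tu, ih]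

theorem pow_add_pow (a b s : S) (h1 : a * b = 1) (h2 : a + b = 2 * s) (n : ℕ) :
    a ^ n + b ^ n = 2 * (tu s n).1 ∧ a ^ n - b ^ n = (a - b) * (tu s n).2 := by
  induction n with
  | zero => simp [tu]; norm_num
  | succ n ih =>
    obtain ⟨i1, i2⟩ := ih
    simp only [tu]
    have h4 : (2 : S) ≠ 0 := by
      intro h
      have := congrArg (coeff 0) h
      rw [show (2 : S) = 2 * 1 by ring, coeff_two_mul] at this
      simp at this
    have hd : (a - b) ^ 2 = 4 * (s ^ 2 - 1) := by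
      linear_combination (a + b + 2 * s) * h2 - 4 * h1
    constructor
    · apply mul_left_cancel₀ h4
      linear_combination (a + b) * i1 + (a - b) * i2 + (2 * (tu s n).1) * h2 + (tu s n).2 * hd
    · apply mul_left_cancel₀ h4
      linear_combination (a - b) * i1 + (a + b) * i2 + ((a - b) * (tu s n).2) * h2

noncomputable def t (n : ℕ) : S := (tu r n).1
noncomputable def u (n : ℕ) : S := (tu r n).2

theorem t_zero : t 0 = 1 := rfl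
theorem u_zero : u 0 = 0 := rfl
theorem t_succ (n : ℕ) : t (n + 1) = r * t n + z * u n := rfl
theorem u_succ (n : ℕ) : u (n + 1) = t n + r * u n := rfl
theorem z_def : z = r ^ 2 - 1 := rfl

theorem U_r_pow (n : ℕ) : U (r ^ n) = t n := by
  apply E_inj
  rw [← add_sg, map_pow, (pow_add_pow r (sg r) (E r) r_mul_sg r_add_sg n).1, tu_E]
  rfl

theorem tu_add (a b : ℕ) : t (a + b) = t a * t b + z * u a * u b ∧
    u (a + b) = t a * u b + u a * t b := by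
  induction b with
  | zero => simp [t_zero, u_zero]
  | succ b ih =>
    obtain ⟨i1, i2⟩ := ih
    rw [← add_assoc, t_succ, u_succ, t_succ, u_succ, i1, i2]
    constructor <;> ring

theorem t_sq (n : ℕ) : t n ^ 2 = 1 + z * u n ^ 2 := by
  induction n with
  | zero => simp [t_zero, u_zero]
  | succ n ih =>
    rw [t_succ, u_succ]
    linear_combination (r ^ 2 - z) * ih - (1 + 0 * u n) * z_def

theorem t_two_mul (k : ℕ) : t (2 * k) = 1 + 2 * z * u k ^ 2 := by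
  rw [two_mul, (tu_add k k).1]; linear_combination t_sq k

theorem u_two_mul (k : ℕ) : u (2 * k) = 2 * t k * u k := by
  rw [two_mul, (tu_add k k).2]; ring

theorem t_odd (b : ℕ) : t (2 * b + 1) = r + 2 * z * (u (b + 1) * u b) := by
  rw [show 2 * b + 1 = (b + 1) + b by ring, (tu_add (b + 1) b).1, t_succ, u_succ]
  linear_combination r * t_sq b

theorem U_z_pow (n : ℕ) : U (z * r ^ n) = 2 * z * u (n + 1) := by
  have : z * r ^ n = r ^ (n + 2) - r ^ n := by rw [z_def]; ring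
  rw [this, U_sub, U_r_pow, U_r_pow, t_succ, t_succ, u_succ]
  linear_combination (-t n) * z_def

theorem U_z2_pow (n : ℕ) : U (z ^ 2 * r ^ n) = 4 * z * t (n + 2) := by
  have : z ^ 2 * r ^ n = z * r ^ (n + 2) - z * r ^ n := by
    rw [sq]; nth_rewrite 2 [z_def]; ring
  rw [this, U_sub, U_z_pow, U_z_pow, u_succ (n + 2), t_succ (n + 1), u_succ (n + 1)]
  linear_combination (-2 * z * u (n + 1)) * z_def

noncomputable def A : Subalgebra ℤ S := (Polynomial.aeval r : Polynomial ℤ →ₐ[ℤ] S).range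

theorem r_mem : r ∈ A := ⟨Polynomial.X, by simp⟩
theorem z_mem : z ∈ A := A.sub_mem (A.pow_mem r_mem 2) A.one_mem
theorem two_mem : (2 : S) ∈ A := by
  rw [show (2 : S) = 1 + 1 by norm_num]; exact A.add_mem A.one_mem A.one_mem

theorem tu_mem (n : ℕ) : t n ∈ A ∧ u n ∈ A := by
  induction n with
  | zero => exact ⟨A.one_mem, A.zero_mem⟩
  | succ n ih =>
    rw [t_succ, u_succ]
    exact ⟨A.add_mem (A.mul_mem r_mem ih.1) (A.mul_mem z_mem ih.2),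
      A.add_mem ih.1 (A.mul_mem r_mem ih.2)⟩

theorem t_mem (n : ℕ) : t n ∈ A := (tu_mem n).1
theorem u_mem (n : ℕ) : u n ∈ A := (tu_mem n).2

theorem U_gen (w v : S) (h : ∀ n, ∃ q ∈ A, U (w * r ^ n) = v * q) (p : S) (hp : p ∈ A) :
    ∃ q ∈ A, U (w * p) = v * q := by
  obtain ⟨p, rfl⟩ := hp
  induction p using Polynomial.induction_on' with
  | add p1 p2 h1 h2 =>
    obtain ⟨q1, m1, e1⟩ := h1
    obtain ⟨q2, m2, e2⟩ := h2
    refine ⟨q1 + q2, A.add_mem m1 m2, ?_⟩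
    simp only [AlgHom.toRingHom_eq_coe, RingHom.coe_coe, map_add] at *
    rw [mul_add, U_add, e1, e2]; ring
  | monomial n a =>
    obtain ⟨q, m, e⟩ := h n
    refine ⟨(a : S) * q, A.mul_mem (A.intCast_mem a) m, ?_⟩
    simp only [AlgHom.toRingHom_eq_coe, RingHom.coe_coe, Polynomial.aeval_monomial, eq_intCast]
    rw [show w * ((a : S) * r ^ n) = (a : S) * (w * r ^ n) by ring, U_int, e]; ring

theorem hA (p : S) (hp : p ∈ A) : ∃ q ∈ A, U (z * p) = 2 * z * q :=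
  U_gen z (2 * z) (fun n => ⟨_, u_mem _, U_z_pow n⟩) p hp

theorem hB (p : S) (hp : p ∈ A) : ∃ q ∈ A, U (z ^ 2 * p) = 4 * z * q :=
  U_gen (z ^ 2) (4 * z) (fun n => ⟨_, t_mem _, U_z2_pow n⟩) p hp

theorem u_odd (b : ℕ) : ∃ B ∈ A, u (2 * b + 1) = 1 + 2 * B := by
  refine ⟨z * u b ^ 2 + r * t b * u b, A.add_mem (A.mul_mem z_mem (A.pow_mem (u_mem _) _))
    (A.mul_mem (A.mul_mem r_mem (t_mem _)) (u_mem _)), ?_⟩
  rw [u_succ, t_two_mul, u_two_mul]; ring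

/-- the three stable classes -/
def KZ (f : S) : Prop := ∃ B ∈ A, f = z * B
def KK (f : S) : Prop := ∃ B ∈ A, ∃ D ∈ A, f = z * (1 + 2 * B + z * D)
def KP (f : S) : Prop := ∃ B ∈ A, ∃ D ∈ A, f = 2 * z * B + z ^ 2 * D

theorem KZ_step (m : ℕ) (f : S) (h : KZ f) : ∃ g, KZ g ∧ U (f * r ^ m) = 2 * g := by
  obtain ⟨B, hB', rfl⟩ := h
  obtain ⟨q, mq, e⟩ := hA (B * r ^ m) (A.mul_mem hB' (A.pow_mem r_mem m))
  exact ⟨z * q, ⟨q, mq, rfl⟩, by rw [mul_assoc, e]; ring⟩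

theorem KP_step (m : ℕ) (f : S) (h : KP f) : ∃ g, KP g ∧ U (f * r ^ m) = 2 * g := by
  obtain ⟨B, hB', D, hD, rfl⟩ := h
  obtain ⟨q, mq, e⟩ := hA (B * r ^ m) (A.mul_mem hB' (A.pow_mem r_mem m))
  obtain ⟨q', mq', e'⟩ := hB (D * r ^ m) (A.mul_mem hD (A.pow_mem r_mem m))
  refine ⟨2 * z * (q + q'), ⟨q + q', A.add_mem mq mq', 0, A.zero_mem, by ring⟩, ?_⟩
  rw [show (2 * z * B + z ^ 2 * D) * r ^ m = 2 * (z * (B * r ^ m)) + z ^ 2 * (D * r ^ m) by ring,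
    U_add, U_two, e, e']
  ring

theorem KK_step (k : ℕ) (f : S) (h : KK f) : ∃ g, KK g ∧ U (f * r ^ (2 * k)) = 2 * g := by
  obtain ⟨B, hB', D, hD, rfl⟩ := h
  obtain ⟨q, mq, e⟩ := hA (B * r ^ (2 * k)) (A.mul_mem hB' (A.pow_mem r_mem _))
  obtain ⟨q', mq', e'⟩ := hB (D * r ^ (2 * k)) (A.mul_mem hD (A.pow_mem r_mem _))
  obtain ⟨B1, m1, e1⟩ := u_odd k
  refine ⟨z * (1 + 2 * (B1 + q + q') + z * 0),
    ⟨B1 + q + q', A.add_mem (A.add_mem m1 mq) mq', 0, A.zero_mem, rfl⟩, ?_⟩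
  rw [show z * (1 + 2 * B + z * D) * r ^ (2 * k) =
      z * r ^ (2 * k) + (2 * (z * (B * r ^ (2 * k))) + z ^ 2 * (D * r ^ (2 * k))) by ring,
    U_add, U_add, U_two, e, e', U_z_pow, e1]
  ring

theorem iter (m : ℕ) (P : S → Prop) (hP : ∀ f, P f → ∃ g, P g ∧ U (f * r ^ m) = 2 * g)
    (a : ℕ) : ∀ f, P f → ∃ g, P g ∧
      ∀ n, coeff (2 ^ a * n) (f * CC m) = 2 ^ a * coeff n (g * CC m) := by
  induction a with
  | zero => intro f hf; exact ⟨f, hf, fun n => by simp⟩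
  | succ a ih =>
    intro f hf
    obtain ⟨g, hg, e⟩ := hP f hf
    obtain ⟨g', hg', e'⟩ := ih g hg
    refine ⟨g', hg', fun n => ?_⟩
    rw [show 2 ^ (a + 1) * n = 2 * (2 ^ a * n) by ring, ← coeff_U, U_mul_CC, e, mul_assoc,
      coeff_two_mul, e']
    ring

theorem coeff_four_mul (f : S) (n : ℕ) : coeff n (4 * f) = 4 * coeff n f := by
  rw [show 4 * f = 2 * (2 * f) by ring, coeff_two_mul, coeff_two_mul]; ring

theorem coeff_two_pow_mul (k : ℕ) (f : S) (n : ℕ) : coeff n (2 ^ k * f) = 2 ^ k * coeff n f := by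
  induction k with
  | zero => simp
  | succ k ih => rw [pow_succ', mul_assoc, coeff_two_mul, ih]; ring

theorem KZ_coeff (m : ℕ) (g : S) (h : KZ g) (n : ℕ) : 4 ∣ coeff n (g * CC m) := by
  obtain ⟨B, _, rfl⟩ := h
  rw [z_eq, show 4 * y * B * CC m = 4 * (y * B * CC m) by ring, coeff_four_mul]
  exact Dvd.intro _ rfl

theorem KP_coeff (m : ℕ) (g : S) (h : KP g) (n : ℕ) : 8 ∣ coeff n (g * CC m) := by
  obtain ⟨B, _, D, _, rfl⟩ := h
  rw [z_eq, show (2 * (4 * y) * B + (4 * y) ^ 2 * D) * CC m =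
    2 * (4 * ((y * B + 2 * y ^ 2 * D) * CC m)) by ring, coeff_two_mul, coeff_four_mul]
  exact ⟨coeff n ((y * B + 2 * y ^ 2 * D) * CC m), by ring⟩

theorem KK_coeff (m : ℕ) (g : S) (h : KK g) (n : ℕ) (hn : Odd n) :
    ∃ w : ℤ, Odd w ∧ coeff n (g * CC m) = 4 * w := by
  obtain ⟨B, _, D, _, rfl⟩ := h
  obtain ⟨G, hG⟩ := CC_odd m
  rw [z_eq, hG, show 4 * y * (1 + 2 * B + 4 * y * D) * (1 + 2 * G) =
    4 * (y + 2 * (y * (G + (B + 2 * y * D) * (1 + 2 * G)))) by ring, coeff_four_mul, map_add,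
    coeff_two_mul, coeff_y]
  refine ⟨_, ?_, rfl⟩
  obtain ⟨j, rfl⟩ := hn
  exact ⟨j + coeff (2 * j + 1) (y * (G + (B + 2 * y * D) * (1 + 2 * G))), by push_cast; ring⟩

noncomputable def W (m : ℕ) : S := U (t m * r ^ m) - 1

theorem diff_eq (m n : ℕ) : c m (4 * n) - c m n = coeff n (W m * CC m) := by
  have h1 : U (CC m) = t m * CC m := by
    have := U_mul_CC m 1
    rwa [one_mul, one_mul, U_r_pow] at this
  have h2 : U (U (CC m)) = U (t m * r ^ m) * CC m := by rw [h1, U_mul_CC]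
  have h3 : coeff n (U (U (CC m))) = c m (4 * n) := by
    rw [coeff_U, coeff_U, show 2 * (2 * n) = 4 * n by ring]; simp [CC]
  rw [W, sub_mul, map_sub, ← h2, h3, one_mul]; simp [CC]

theorem u_pow (k : ℕ) (v : ℕ) : ∃ V ∈ A, ∃ B ∈ A, ∃ D ∈ A,
    u (2 ^ v * (2 * k + 1)) = 2 ^ v * V ∧ V ^ 2 = 1 + 2 * B + z * D := by
  induction v with
  | zero =>
    obtain ⟨B, mB, e⟩ := u_odd k
    refine ⟨u (2 * k + 1), u_mem _, 2 * B + 2 * B ^ 2,
      A.add_mem (A.mul_mem two_mem mB) (A.mul_mem two_mem (A.pow_mem mB _)), 0, A.zero_mem,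
      by simp, by rw [e]; ring⟩
  | succ v ih =>
    obtain ⟨V, mV, B, mB, D, mD, e1, e2⟩ := ih
    set j := 2 ^ v * (2 * k + 1)
    refine ⟨t j * V, A.mul_mem (t_mem _) mV, B, mB, D + u j ^ 2 * V ^ 2,
      A.add_mem mD (A.mul_mem (A.pow_mem (u_mem _) _) (A.pow_mem mV _)), ?_, ?_⟩
    · rw [show 2 ^ (v + 1) * (2 * k + 1) = 2 * j by simp only [j]; ring, u_two_mul, e1]; ring
    · linear_combination V ^ 2 * t_sq j + e2

theorem W_even (v k : ℕ) : ∃ g, KK g ∧ W (2 * (2 ^ v * (2 * k + 1))) = 2 ^ (2 * v + 1) * g := by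
  obtain ⟨V, mV, B, mB, D, mD, e1, e2⟩ := u_pow k v
  set j := 2 ^ v * (2 * k + 1)
  have hK : KK (z * V ^ 2) := ⟨B, mB, D, mD, by rw [e2]⟩
  obtain ⟨g, ⟨B', mB', D', mD', rfl⟩, e⟩ := KK_step j _ hK
  refine ⟨z * (1 + 2 * (B + (1 + 2 * B' + z * D')) + z * D),
    ⟨_, A.add_mem mB (A.add_mem (A.add_mem A.one_mem (A.mul_mem two_mem mB'))
      (A.mul_mem z_mem mD')), D, mD, rfl⟩, ?_⟩
  have ht : t (2 * j) = 1 + 2 ^ (2 * v + 1) * (z * V ^ 2) := by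
    rw [t_two_mul, e1]; ring
  rw [W, ht, show (1 + 2 ^ (2 * v + 1) * (z * V ^ 2)) * r ^ (2 * j) =
    r ^ (2 * j) + 2 ^ (2 * v + 1) * (z * V ^ 2 * r ^ (2 * j)) by ring, U_add, U_two_pow, e,
    U_r_pow, ht, e2]
  ring

theorem W_odd (b : ℕ) : W (2 * b + 1) =
    2 * z * u (b + 1) ^ 2 + 2 * U (z * (u (b + 1) * u b) * r ^ (2 * b + 1)) := by
  rw [W, t_odd, show (r + 2 * z * (u (b + 1) * u b)) * r ^ (2 * b + 1) =
    r ^ (2 * (b + 1)) + 2 * (z * (u (b + 1) * u b) * r ^ (2 * b + 1)) by ring, U_add, U_two,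
    U_r_pow, t_two_mul]
  ring

theorem W_one (k : ℕ) : ∃ g, KK g ∧ W (4 * k + 1) = 2 * g := by
  obtain ⟨B, mB, e⟩ := u_odd k
  obtain ⟨g, ⟨q, mq, rfl⟩, e'⟩ := KZ_step (2 * (2 * k) + 1) (z * (u (2 * k + 1) * u (2 * k)))
    ⟨_, A.mul_mem (u_mem _) (u_mem _), rfl⟩
  refine ⟨z * (1 + 2 * (2 * B + 2 * B ^ 2 + q) + z * 0),
    ⟨_, A.add_mem (A.add_mem (A.mul_mem two_mem mB) (A.mul_mem two_mem (A.pow_mem mB _))) mq,
      0, A.zero_mem, rfl⟩, ?_⟩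
  rw [show 4 * k + 1 = 2 * (2 * k) + 1 by ring, W_odd, e', e]; ring

theorem W_three_gen (k e : ℕ) (V : S) (mV : V ∈ A) (hV : u (k + 1) = 2 ^ e * V) :
    W (4 * k + 3) = 2 ^ (e + 2) * (2 ^ (e + 1) * z * (t (k + 1) * V) ^ 2 +
      U (z * (t (k + 1) * V * u (2 * k + 1)) * r ^ (4 * k + 3))) := by
  have h1 : u (2 * k + 1 + 1) = 2 ^ (e + 1) * (t (k + 1) * V) := by
    rw [show 2 * k + 1 + 1 = 2 * (k + 1) by ring, u_two_mul, hV]; ring
  have h2 := W_odd (2 * k + 1)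
  rw [show 2 * (2 * k + 1) + 1 = 4 * k + 3 by ring, h1,
    show z * (2 ^ (e + 1) * (t (k + 1) * V) * u (2 * k + 1)) * r ^ (4 * k + 3) =
      2 ^ (e + 1) * (z * (t (k + 1) * V * u (2 * k + 1)) * r ^ (4 * k + 3)) by ring,
    U_two_pow] at h2
  rw [h2]; ring

theorem W_three_Z (k e : ℕ) (V : S) (mV : V ∈ A) (hV : u (k + 1) = 2 ^ e * V) :
    ∃ g, KZ g ∧ W (4 * k + 3) = 2 ^ (e + 3) * g := by
  obtain ⟨g, ⟨q, mq, rfl⟩, e'⟩ := KZ_step (4 * k + 3) (z * (t (k + 1) * V * u (2 * k + 1)))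
    ⟨_, A.mul_mem (A.mul_mem (t_mem _) mV) (u_mem _), rfl⟩
  refine ⟨z * (2 ^ e * (t (k + 1) * V) ^ 2 + q), ⟨_, A.add_mem (A.mul_mem (A.pow_mem two_mem _)
    (A.pow_mem (A.mul_mem (t_mem _) mV) _)) mq, rfl⟩, ?_⟩
  rw [W_three_gen k e V mV hV, e']; ring

theorem W_three (k : ℕ) : ∃ g, KP g ∧ W (4 * k + 3) = 2 ^ 3 * g := by
  rcases Nat.even_or_odd' k with ⟨j, rfl | rfl⟩
  · obtain ⟨B2, m2, e2⟩ := u_odd j
    obtain ⟨B3, m3, e3⟩ := u_odd (2 * j)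
    obtain ⟨B4, m4, e4⟩ := u_odd (4 * j + 2)
    have e1 := t_odd j
    set B1 := z * (u (j + 1) * u j) with hB1
    have m1 : B1 ∈ A := A.mul_mem z_mem (A.mul_mem (u_mem _) (u_mem _))
    have h := W_three_gen (2 * j) 0 (u (2 * j + 1)) (u_mem _) (by simp)
    set B := B1 + (r + 2 * B1) * (B2 + B3 + 2 * B2 * B3) with hBd
    have mB : B ∈ A := A.add_mem m1 (A.mul_mem (A.add_mem r_mem (A.mul_mem two_mem m1))
      (A.add_mem (A.add_mem m2 m3) (A.mul_mem (A.mul_mem two_mem m2) m3)))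
    have hp : t (2 * j + 1) * u (2 * j + 1) * u (2 * (2 * j) + 1) = r + 2 * B := by
      rw [e1, e2, e3, hBd, hB1]; ring
    obtain ⟨q, mq, eq⟩ := hA (B * r ^ (4 * (2 * j) + 3)) (A.mul_mem mB (A.pow_mem r_mem _))
    rw [hp, show z * (r + 2 * B) * r ^ (4 * (2 * j) + 3) =
      z * r ^ (2 * (4 * j + 2)) + 2 * (z * (B * r ^ (4 * (2 * j) + 3))) by ring, U_add, U_two, eq,
      U_z_pow, e4, mul_pow, t_sq] at h
    refine ⟨2 * z * (1 + 2 * B2 + 2 * B2 ^ 2 + B4 + q) + z ^ 2 * u (2 * j + 1) ^ 4,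
      ⟨_, A.add_mem (A.add_mem (A.add_mem (A.add_mem A.one_mem (A.mul_mem two_mem m2))
        (A.mul_mem two_mem (A.pow_mem m2 _))) m4) mq, _, A.pow_mem (u_mem _) _, rfl⟩, ?_⟩
    rw [h]
    linear_combination (8 * z * (u (2 * j + 1) + 1 + 2 * B2)) * e2
  · obtain ⟨g, ⟨q, mq, rfl⟩, e⟩ := W_three_Z (2 * j + 1) 1 (t (j + 1) * u (j + 1))
      (A.mul_mem (t_mem _) (u_mem _))
      (by rw [show 2 * j + 1 + 1 = 2 * (j + 1) by ring, u_two_mul]; ring)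
    exact ⟨2 * z * q + z ^ 2 * 0, ⟨q, mq, 0, A.zero_mem, rfl⟩, by rw [e]; ring⟩

theorem W_fifteen (j : ℕ) : ∃ g, KZ g ∧ W (4 * (4 * j + 3) + 3) = 2 ^ 5 * g :=
  W_three_Z (4 * j + 3) 2 (t (2 * (j + 1)) * t (j + 1) * u (j + 1))
    (A.mul_mem (A.mul_mem (t_mem _) (t_mem _)) (u_mem _))
    (by rw [show 4 * j + 3 + 1 = 2 * (2 * (j + 1)) by ring, u_two_mul, u_two_mul]; ring)

theorem nu_eq (a : ℕ) (w : ℤ) (hw : Odd w) : nu (2 ^ a * w) = a := by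
  unfold nu
  rw [emultiplicity_eq_coe]
  refine ⟨Dvd.intro _ rfl, fun h => ?_⟩
  rw [pow_succ, mul_dvd_mul_iff_left (by positivity)] at h
  exact (Int.not_even_iff_odd.2 hw) (even_iff_two_dvd.2 h)

theorem nu_ge (a : ℕ) (x : ℤ) (h : 2 ^ a ∣ x) : (a : ℕ∞) ≤ nu x := by
  unfold nu
  exact pow_dvd_iff_le_emultiplicity.1 h

theorem nu_nat (a n : ℕ) (hn : Odd n) : nu ((2 ^ a * n : ℕ) : ℤ) = a := by
  push_cast
  exact nu_eq a n (by exact_mod_cast hn)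

theorem lower (m e d : ℕ) (P : S → Prop) (hP : ∀ f, P f → ∃ g, P g ∧ U (f * r ^ m) = 2 * g)
    (hc : ∀ g, P g → ∀ n, 2 ^ d ∣ coeff n (g * CC m)) (hW : ∃ g, P g ∧ W m = 2 ^ e * g)
    (n : ℕ) (hn : 0 < n) : nu n + (e + d : ℕ) ≤ nu (c m (4 * n) - c m n) := by
  obtain ⟨a, n', hodd, rfl⟩ := Nat.exists_eq_two_pow_mul_odd hn.ne'
  obtain ⟨g, hg, hw⟩ := hW
  obtain ⟨g', hg', h'⟩ := iter m P hP a g hg
  rw [nu_nat a n' hodd, diff_eq, hw, mul_assoc, coeff_two_pow_mul, h', ← Nat.cast_add]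
  apply nu_ge
  obtain ⟨x, hx⟩ := hc g' hg' n'
  exact ⟨x, by rw [hx]; ring⟩

theorem q1 (k n : ℕ) (hk : 0 < k) (hn : 0 < n) :
    nu (c (2 * k) (4 * n) - c (2 * k) n) = nu n + 2 * nu k + 3 := by
  obtain ⟨a, n', hodd, rfl⟩ := Nat.exists_eq_two_pow_mul_odd hn.ne'
  obtain ⟨v, k', ⟨j, rfl⟩, rfl⟩ := Nat.exists_eq_two_pow_mul_odd hk.ne'
  obtain ⟨g, hg, hw⟩ := W_even v j
  obtain ⟨g', hg', h'⟩ := iter _ KK (KK_step (2 ^ v * (2 * j + 1))) a g hg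
  obtain ⟨w, ow, ew⟩ := KK_coeff (2 * (2 ^ v * (2 * j + 1))) g' hg' n' hodd
  rw [nu_nat a n' hodd, nu_nat v _ ⟨j, rfl⟩, diff_eq, hw, mul_assoc, coeff_two_pow_mul, h', ew,
    show (2 : ℤ) ^ (2 * v + 1) * (2 ^ a * (4 * w)) = 2 ^ (a + 2 * v + 3) * w by ring,
    nu_eq _ w ow]
  push_cast; rfl

theorem q2a (k n : ℕ) (hn : 0 < n) : nu n + 3 ≤ nu (c (4 * k + 1) (4 * n) - c (4 * k + 1) n) := by
  obtain ⟨g, ⟨B, mB, D, mD, rfl⟩, hw⟩ := W_one k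
  exact lower (4 * k + 1) 1 2 KZ (KZ_step _) (fun g hg n => KZ_coeff _ g hg n)
    ⟨_, ⟨_, A.add_mem (A.add_mem A.one_mem (A.mul_mem two_mem mB)) (A.mul_mem z_mem mD), rfl⟩,
      by rw [hw]; ring⟩ n hn

theorem q2a_eq (k n : ℕ) (hn : Odd n) :
    nu (c (4 * k + 1) (4 * n) - c (4 * k + 1) n) = nu n + 3 := by
  obtain ⟨g, hg, hw⟩ := W_one k
  obtain ⟨w, ow, ew⟩ := KK_coeff (4 * k + 1) g hg n hn
  have := nu_nat 0 n hn
  rw [pow_zero, one_mul] at this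
  rw [this, diff_eq, hw, mul_assoc, coeff_two_mul, ew,
    show (2 : ℤ) * (4 * w) = 2 ^ 3 * w by ring, nu_eq _ w ow]
  rfl

theorem q2b (k n : ℕ) (hn : 0 < n) : nu n + 6 ≤ nu (c (4 * k + 3) (4 * n) - c (4 * k + 3) n) :=
  lower (4 * k + 3) 3 3 KP (KP_step _) (fun g hg n => KP_coeff _ g hg n) (W_three k) n hn

theorem q2c (k n : ℕ) (hk : k % 4 = 3) (hn : 0 < n) :
    nu n + 7 ≤ nu (c (4 * k + 3) (4 * n) - c (4 * k + 3) n) := by
  obtain ⟨j, rfl⟩ : ∃ j, k = 4 * j + 3 := ⟨k / 4, by omega⟩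
  exact lower _ 5 2 KZ (KZ_step _) (fun g hg n => KZ_coeff _ g hg n) (W_fifteen j) n hn

end Pool.Agent.H5.BinCol
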