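import Mathlib

set_option autoImplicit false

namespace Pool.Agent.H5.BinCol
open PowerSeries

/-- The power series `1 / (1 - x^d) = 1 + x^d + x^(2d) + ...` over the integers. -/
noncomputable def geo (d : ℕ) : PowerSeries ℤ :=
  PowerSeries.mk fun n => if d ∣ n then 1 else 0

/-- `c m n` is the coefficient of `x^n` in `(1-x)^(-m) * prod_i (1 - x^(2^i))^(-m)`; the factors
with `i > n` are `1 + O(x^(n+1))`, so they are left out. -/
noncomputable def c (m n : ℕ) : ℤ :=
  PowerSeries.coeff n (geo 1 ^ m * ∏ i ∈ Finset.range (n + 1), geo (2 ^ i) ^ m)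

/-- The 2-adic valuation of an integer, with value infinity at `0`. -/
noncomputable def nu (a : ℤ) : ℕ∞ := emultiplicity (2 : ℤ) a

end Pool.Agent.H5.BinCol
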