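import Mathlib

namespace Pool.Agent.H5.CNTV
open scoped ContDiff

/-- A spacetime of dimension `n + 1` whose manifold is a connected open subset `U` of a real
vector space `V` of dimension `n + 1`: a smooth field `g` of symmetric bilinear forms of signature
`(-,+,…,+)` and a smooth timelike vector field `T` giving the time orientation. -/
structure Spacetime (V : Type) [NormedAddCommGroup V] [NormedSpace ℝ V] (n : ℕ) where
  dim : Module.finrank ℝ V = n + 1
  U : Set V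
  isOpen : IsOpen U
  conn : IsConnected U
  g : V → V → V → ℝ
  lin : ∀ x v, IsLinearMap ℝ (g x v)
  symm : ∀ x v w, g x v w = g x w v
  smooth : ∀ v w, ContDiffOn ℝ ∞ (fun x => g x v w) U
  sig : ∀ x ∈ U, ∃ e : Fin (n + 1) → V, ∀ i j,
    g x (e i) (e j) = if i = j then (if i = 0 then -1 else 1) else 0
  T : V → V
  T_smooth : ContDiffOn ℝ ∞ T U
  T_time : ∀ x ∈ U, g x (T x) (T x) < 0

variable {V : Type} [NormedAddCommGroup V] [NormedSpace ℝ V] {n : ℕ}

/-- A smooth curve in `U` from `x` to `y` whose velocities are causal and future directed. -/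
def Spacetime.Seg (S : Spacetime V n) (x y : V) : Prop :=
  ∃ γ γ' : ℝ → V, ContDiffOn ℝ ∞ γ (Set.Icc 0 1) ∧ γ 0 = x ∧ γ 1 = y ∧
    ∀ s ∈ Set.Icc (0 : ℝ) 1, γ s ∈ S.U ∧ HasDerivWithinAt γ (γ' s) (Set.Icc 0 1) s ∧ γ' s ≠ 0 ∧
      S.g (γ s) (γ' s) (γ' s) ≤ 0 ∧ S.g (γ s) (γ' s) (S.T (γ s)) < 0

/-- The after relation: a piecewise smooth causal curve runs from `x` to `y`. -/
def Spacetime.After (S : Spacetime V n) (x y : S.U) : Prop :=
  Relation.TransGen S.Seg x.1 y.1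

/-- Causally non-totally vicious. -/
def Spacetime.CNTV (S : Spacetime V n) : Prop := ∃ x, ¬ S.After x x

/-- The truth set of the diamond. -/
def Spacetime.dia (S : Spacetime V n) (A : Set S.U) : Set S.U := {x | ∃ y ∈ A, S.After x y}

/-- The after-2 formula is valid on the frame `(U, After)`. -/
def Spacetime.After2 (S : Spacetime V n) : Prop :=
  ∀ p₁ p₂ q : Set S.U,
    S.dia (p₁ ∩ p₂ᶜ ∩ (S.dia p₂)ᶜ) ∩ S.dia (p₂ ∩ p₁ᶜ ∩ (S.dia p₁)ᶜ) ∩ S.dia q ⊆
      S.dia (S.dia p₁ ∩ S.dia q) ∪ S.dia (S.dia p₂ ∩ S.dia q)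

end Pool.Agent.H5.CNTV
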