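import Mathlib
import Pool.Agent.H5.CNTVDefs

namespace Pool.Agent.H5.CNTV
open scoped ContDiff
open Set

def bb (z w : ℂ) : ℝ := z.re * w.im - z.im * w.re
def cc (z w : ℂ) : ℝ := z.re * w.re + z.im * w.im
def rr (z : ℂ) : ℝ := z.re ^ 2 + z.im ^ 2

def gg (x v w : ℝ × ℂ) : ℝ :=
  -rr x.2 * (v.1 * bb x.2 w.2 + w.1 * bb x.2 v.2) - x.1 ^ 2 * (bb x.2 v.2 * bb x.2 w.2) +
    cc x.2 v.2 * cc x.2 w.2

def TT (x : ℝ × ℂ) : ℝ × ℂ := (1, x.2 * Complex.I)

def UU : Set (ℝ × ℂ) := {x | x.2 ≠ 0 ∧ (x.1 ≠ 0 ∨ -x.2 ∈ Complex.slitPlane)}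

lemma rr_pos {z : ℂ} (h : z ≠ 0) : 0 < rr z := by
  have := Complex.normSq_pos.2 h
  rw [Complex.normSq_apply] at this
  unfold rr; nlinarith

lemma bb_mul (z W : ℂ) : bb z (z * W) = rr z * W.im := by simp [bb, rr]; ring
lemma cc_mul (z W : ℂ) : cc z (z * W) = rr z * W.re := by simp [cc, rr]; ring

lemma gg_mul (x : ℝ × ℂ) (a a' : ℝ) (W W' : ℂ) : gg x (a, x.2 * W) (a', x.2 * W') =
    rr x.2 ^ 2 * (-(a * W'.im + a' * W.im) - x.1 ^ 2 * (W.im * W'.im) + W.re * W'.re) := by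
  simp only [gg, bb_mul, cc_mul]; ring

noncomputable def cv (x : ℝ × ℂ) (a : ℝ) (W : ℂ) (s : ℝ) : ℝ × ℂ :=
  (x.1 + s * a, x.2 * Complex.exp (s * W))

lemma cv_smooth (x : ℝ × ℂ) (a : ℝ) (W : ℂ) : ContDiff ℝ ∞ (cv x a W) := by
  unfold cv
  refine ContDiff.prodMk (by fun_prop) (contDiff_const.mul ?_)
  exact Complex.contDiff_exp.comp (Complex.ofRealCLM.contDiff.mul contDiff_const)

lemma cv_deriv (x : ℝ × ℂ) (a : ℝ) (W : ℂ) (s : ℝ) :
    HasDerivAt (cv x a W) (a, (cv x a W s).2 * W) s := by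
  unfold cv
  refine HasDerivAt.prodMk ?_ ?_
  · simpa using ((hasDerivAt_id s).mul_const a).const_add x.1
  · have h := (((hasDerivAt_id (s : ℂ)).mul_const W).cexp.const_mul x.2).comp_ofReal
    simpa [mul_assoc] using h

lemma cv_joined {x : ℝ × ℂ} {a : ℝ} {W : ℂ} (h : ∀ s ∈ Icc (0 : ℝ) 1, cv x a W s ∈ UU) :
    JoinedIn UU x (cv x a W 1) := by
  refine JoinedIn.ofLine (f := cv x a W) (cv_smooth x a W).continuous.continuousOn
    (by simp [cv]) rfl ?_
  rintro _ ⟨s, hs, rfl⟩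
  exact h s hs

lemma cv_ne {x : ℝ × ℂ} (hx : x.2 ≠ 0) (a : ℝ) (W : ℂ) (s : ℝ) : (cv x a W s).2 ≠ 0 :=
  mul_ne_zero hx (Complex.exp_ne_zero _)

lemma to_pt {z w : ℂ} (hz : z ≠ 0) (hw : w ≠ 0) (N : ℕ) :
    z * Complex.exp (((1 : ℝ) : ℂ) * (Complex.log (w / z) + N * (2 * Real.pi * Complex.I))) = w := by
  rw [Complex.ofReal_one, one_mul, Complex.exp_add, Complex.exp_log (div_ne_zero hw hz),
    Complex.exp_nat_mul_two_pi_mul_I]
  field_simp

lemma conn : IsConnected UU := by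
  refine IsPathConnected.isConnected ⟨(0, -1), ⟨by simp, Or.inr (by simp)⟩, fun {y} hy => ?_⟩
  have v : ∀ t : ℝ, JoinedIn UU (0, -1) (t, -1) := by
    intro t
    have := cv_joined (x := (0, -1)) (a := t) (W := 0)
      (fun s _ => ⟨by simp [cv], Or.inr (by simp [cv])⟩)
    simpa [cv] using this
  have hz : ∀ t : ℝ, t ≠ 0 → ∀ z : ℂ, z ≠ 0 → JoinedIn UU (0, -1) (t, z) := by
    intro t ht z hz
    refine (v t).trans ?_
    have := cv_joined (x := (t, -1)) (a := 0)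
      (W := Complex.log (z / (-1)) + (0 : ℕ) * (2 * Real.pi * Complex.I))
      (fun s _ => ⟨cv_ne (by simp) _ _ _, Or.inl (by simpa [cv] using ht)⟩)
    unfold cv at this
    rw [to_pt (by simp) hz] at this
    simpa using this
  by_cases ht : y.1 = 0
  · refine (hz 1 one_ne_zero y.2 hy.1).trans (JoinedIn.symm ?_)
    have := cv_joined (x := y) (a := 1) (W := 0)
      (fun s _ => ⟨cv_ne hy.1 _ _ _, Or.inr (by simpa [cv, ht] using hy.2)⟩)
    simpa [cv, ht] using this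
  · exact hz y.1 ht y.2 hy.1

lemma smooth_re : ContDiff ℝ ∞ fun x : ℝ × ℂ => x.2.re := Complex.reCLM.contDiff.comp contDiff_snd
lemma smooth_im : ContDiff ℝ ∞ fun x : ℝ × ℂ => x.2.im := Complex.imCLM.contDiff.comp contDiff_snd

noncomputable def ST : Spacetime (ℝ × ℂ) 2 where
  dim := by simp [Module.finrank_prod]
  U := UU
  isOpen := by
    refine IsOpen.inter (isOpen_ne_fun continuous_snd continuous_const) (IsOpen.union
      (isOpen_ne_fun continuous_fst continuous_const) ?_)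
    exact Complex.isOpen_slitPlane.preimage continuous_snd.neg
  conn := conn
  g := gg
  lin x v := ⟨fun a b => by simp [gg, bb, cc]; ring, fun c a => by simp [gg, bb, cc]; ring⟩
  symm x v w := by simp only [gg]; ring
  smooth v w := by
    have h1 := smooth_re
    have h2 := smooth_im
    refine ContDiff.contDiffOn ?_
    simp only [gg, bb, cc, rr]
    fun_prop
  sig x hx := by
    have h := (rr_pos hx.1).ne'
    refine ⟨![((1 - x.1 ^ 2) / (2 * rr x.2), x.2 * ⟨0, 1 / rr x.2⟩),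
      (-(1 + x.1 ^ 2) / (2 * rr x.2), x.2 * ⟨0, 1 / rr x.2⟩), (0, x.2 * ⟨1 / rr x.2, 0⟩)], ?_⟩
    intro i j
    fin_cases i <;> fin_cases j <;> simp [gg_mul]
    all_goals first | (right; field_simp; ring) | (field_simp; done) | (field_simp; ring)
  T := TT
  T_smooth := by unfold TT; fun_prop
  T_time x hx := by
    have h := rr_pos hx.1
    simp only [TT, gg_mul, Complex.I_im, Complex.I_re]
    have : 0 < rr x.2 ^ 2 := by positivity
    nlinarith [sq_nonneg x.1]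

lemma seg_cv {x : ℝ × ℂ} {a : ℝ} {W : ℂ} (h : ∀ s ∈ Icc (0 : ℝ) 1, cv x a W s ∈ UU ∧
    W.re ^ 2 ≤ 2 * a * W.im + (x.1 + s * a) ^ 2 * W.im ^ 2 ∧
    0 < a + W.im + (x.1 + s * a) ^ 2 * W.im) : ST.Seg x (cv x a W 1) := by
  refine ⟨cv x a W, fun s => (a, (cv x a W s).2 * W), (cv_smooth x a W).contDiffOn, by simp [cv],
    rfl, fun s hs => ⟨(h s hs).1, (cv_deriv x a W s).hasDerivWithinAt, ?_, ?_, ?_⟩⟩
  · intro h0
    have h1 : a = 0 := congrArg Prod.fst h0
    have h2 : (cv x a W s).2 * W = 0 := congrArg Prod.snd h0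
    have h3 : W = 0 := (mul_eq_zero.1 h2).resolve_left (h s hs).1.1
    have := (h s hs).2.2
    simp [h1, h3] at this
  · have h1 := (h s hs).2.1
    have h2 : 0 < rr (cv x a W s).2 ^ 2 := pow_pos (rr_pos (h s hs).1.1) 2
    change gg _ _ _ ≤ 0
    rw [gg_mul]
    have : (cv x a W s).1 = x.1 + s * a := rfl
    rw [this]; nlinarith
  · have h1 := (h s hs).2.2
    have h2 : 0 < rr (cv x a W s).2 ^ 2 := pow_pos (rr_pos (h s hs).1.1) 2
    change gg _ _ (1, _ * Complex.I) < 0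
    rw [gg_mul]
    have : (cv x a W s).1 = x.1 + s * a := rfl
    rw [this]
    simp only [Complex.I_im, Complex.I_re]
    nlinarith

lemma seg_loop {x : ℝ × ℂ} (hx : x.2 ≠ 0) (ht : x.1 ≠ 0) : ST.Seg x x := by
  have := seg_cv (x := x) (a := 0) (W := 2 * Real.pi * Complex.I) (fun s _ =>
    ⟨⟨cv_ne hx _ _ _, Or.inl (by simpa [cv] using ht)⟩, by simp; positivity, by
      have := Real.pi_pos
      simp; positivity⟩)
  simpa [cv] using this

lemma seg_pos {x y : ℝ × ℂ} (hx : x.2 ≠ 0) (hy : y.2 ≠ 0) (h1 : 0 < x.1) (h2 : 0 < y.1) :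
    ST.Seg x y := by
  set m := min x.1 y.1 with hm
  have m0 : 0 < m := lt_min h1 h2
  set a := y.1 - x.1
  set L := Complex.log (y.2 / x.2)
  obtain ⟨N, hN⟩ := exists_nat_ge (|L.im| + (2 * |a| + L.re ^ 2) / m ^ 2 + |a| + 1)
  have hΦ : (2 * |a| + L.re ^ 2) / m ^ 2 + |a| + 1 ≤ (L + N * (2 * Real.pi * Complex.I)).im := by
    have h3 := Real.pi_gt_three
    have h4 : (0 : ℝ) ≤ N := Nat.cast_nonneg N
    have h5 := neg_abs_le L.im
    simp; nlinarith
  have hρ : (L + N * (2 * Real.pi * Complex.I)).re = L.re := by simp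
  have := seg_cv (x := x) (a := a) (W := L + N * (2 * Real.pi * Complex.I)) (fun s hs => by
    have ht : m ≤ x.1 + s * a := by
      have a1 := min_le_left x.1 y.1
      have a2 := min_le_right x.1 y.1
      simp only [a]; nlinarith [hs.1, hs.2]
    refine ⟨⟨cv_ne hx _ _ _, Or.inl (m0.trans_le ht).ne'⟩, ?_, ?_⟩
    · rw [hρ]
      generalize (L + N * (2 * Real.pi * Complex.I)).im = Φ at hΦ
      have b0 : 0 ≤ (2 * |a| + L.re ^ 2) / m ^ 2 := by positivity
      have b1 : 1 ≤ Φ := by linarith [abs_nonneg a]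
      have b2 : 2 * |a| + L.re ^ 2 ≤ Φ * m ^ 2 := by
        rw [← div_le_iff₀ (by positivity)]; linarith [abs_nonneg a]
      have b3 : m ^ 2 ≤ (x.1 + s * a) ^ 2 := pow_le_pow_left₀ m0.le ht 2
      have b4 := neg_abs_le a
      have b5 : m ^ 2 * Φ ^ 2 ≤ (x.1 + s * a) ^ 2 * Φ ^ 2 :=
        mul_le_mul_of_nonneg_right b3 (sq_nonneg _)
      have b6 : (2 * |a| + L.re ^ 2) * Φ ≤ Φ * m ^ 2 * Φ :=
        mul_le_mul_of_nonneg_right b2 (by linarith)
      nlinarith [sq_nonneg L.re]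
    · generalize (L + N * (2 * Real.pi * Complex.I)).im = Φ at hΦ
      have b0 : 0 ≤ (2 * |a| + L.re ^ 2) / m ^ 2 := by positivity
      have b4 := neg_abs_le a
      have b1 : 0 ≤ Φ := by linarith [abs_nonneg a]
      have : 0 ≤ (x.1 + s * a) ^ 2 * Φ := by positivity
      linarith)
  unfold cv at this
  rw [to_pt hx hy] at this
  simpa [a] using this

lemma seg_up {x : ℝ × ℂ} (hx : x ∈ UU) (ht : x.1 = 0) : ST.Seg x (1, x.2) := by
  have := seg_cv (x := x) (a := 1) (W := 0) (fun s _ =>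
    ⟨⟨cv_ne hx.1 _ _ _, Or.inr (by simpa [cv, ht] using hx.2)⟩, by simp, by simp⟩)
  simpa [cv, ht] using this

noncomputable def Th (z : ℂ) : ℂ := Complex.log (-z)

lemma seg_arc {x y : ℝ × ℂ} (hx : x ∈ UU) (hy : y ∈ UU) (h1 : x.1 = 0) (h2 : y.1 = 0)
    (hr : (Th x.2).re = (Th y.2).re) (hi : (Th x.2).im < (Th y.2).im) : ST.Seg x y := by
  have sx : -x.2 ∈ Complex.slitPlane := hx.2.resolve_left (by simp [h1])
  have sy : -y.2 ∈ Complex.slitPlane := hy.2.resolve_left (by simp [h2])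
  have ex : x.2 = -Complex.exp (Th x.2) := by
    rw [Th, Complex.exp_log (neg_ne_zero.2 hx.1), neg_neg]
  have ey : y.2 = -Complex.exp (Th y.2) := by
    rw [Th, Complex.exp_log (neg_ne_zero.2 hy.1), neg_neg]
  have := seg_cv (x := x) (a := 0) (W := Th y.2 - Th x.2) (fun s hs => by
    refine ⟨⟨cv_ne hx.1 _ _ _, Or.inr ?_⟩, by simp [hr, h1], by simpa [h1] using hi⟩
    have e : -(cv x 0 (Th y.2 - Th x.2) s).2 = Complex.exp (Th x.2 + s * (Th y.2 - Th x.2)) := by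
      simp only [cv]
      rw [Complex.exp_add]
      nth_rewrite 1 [ex]
      ring
    rw [e, Complex.mem_slitPlane_iff_arg]
    refine ⟨?_, Complex.exp_ne_zero _⟩
    have c1 : -Real.pi < (Th x.2).im := Complex.neg_pi_lt_log_im _
    have c2 : (Th y.2).im < Real.pi := by
      rw [Th, Complex.log_im]
      exact lt_of_le_of_ne (Complex.arg_le_pi _) (Complex.mem_slitPlane_iff_arg.1 sy).1
    have c3 : (Th x.2 + s * (Th y.2 - Th x.2)).im = (Th x.2).im + s * ((Th y.2).im - (Th x.2).im) := by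
      simp
    rw [← Complex.log_im, Complex.log_exp (by rw [c3]; nlinarith [hs.1, hs.2])
      (by rw [c3]; nlinarith [hs.1, hs.2]), c3]
    nlinarith [hs.1, hs.2])
  have e : cv x 0 (Th y.2 - Th x.2) 1 = y := by
    refine Prod.ext (by simp [cv, h1, h2]) ?_
    simp only [cv, Complex.ofReal_one, one_mul]
    nth_rewrite 1 [ex]
    rw [neg_mul, ← Complex.exp_add, add_sub_cancel, ← ey]
  rwa [e] at this

end Pool.Agent.H5.CNTV
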