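import Mathlib
import Pool.Agent.H5.CNTV1

namespace Pool.Agent.H5.CNTV
open scoped ContDiff
open Set

lemma cone {r t a b c : ℝ} (hr : 0 < r) (h1 : -r * (a * b + a * b) - t ^ 2 * (b * b) + c * c ≤ 0)
    (h2 : -r * (a * r + 1 * b) - t ^ 2 * (b * r) + c * 0 < 0) :
    0 ≤ b ∧ 0 ≤ 2 * a * r + t ^ 2 * b := by
  have h3 : 0 < a * r + b + t ^ 2 * b := by
    by_contra h
    push Not at h
    nlinarith
  have h4 : 0 ≤ b * (2 * a * r + t ^ 2 * b) := by nlinarith [sq_nonneg c]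
  have hb : 0 ≤ b := by
    by_contra hb
    push Not at hb
    have h5 : 2 * a * r + t ^ 2 * b ≤ 0 := by
      by_contra h; push Not at h; nlinarith
    nlinarith [sq_nonneg t]
  refine ⟨hb, ?_⟩
  rcases hb.eq_or_lt with h | h
  · subst h; nlinarith
  · exact nonneg_of_mul_nonneg_right h4 h |> fun _ => by
      by_contra h5; push Not at h5; nlinarith

def Rel (x y : ℝ × ℂ) : Prop :=
  (0 ≤ x.1 → 0 ≤ y.1) ∧ (0 < x.1 → 0 < y.1) ∧
    (x.1 = 0 → y.1 = 0 → (Th x.2).re = (Th y.2).re ∧ (Th x.2).im < (Th y.2).im)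

lemma Rel.trans {x y z : ℝ × ℂ} (h : Rel x y) (h' : Rel y z) : Rel x z := by
  refine ⟨fun a => h'.1 (h.1 a), fun a => h'.2.1 (h.2.1 a), fun a c => ?_⟩
  have b : y.1 = 0 := by
    by_contra b
    exact (h'.2.1 (lt_of_le_of_ne (h.1 a.ge) (Ne.symm b))).ne' c
  exact ⟨(h.2.2 a b).1.trans (h'.2.2 b c).1, (h.2.2 a b).2.trans (h'.2.2 b c).2⟩

lemma mono_of {f f' : ℝ → ℝ} (h : ∀ s ∈ Icc (0 : ℝ) 1, HasDerivWithinAt f (f' s) (Icc 0 1) s)
    (h0 : ∀ s ∈ Icc (0 : ℝ) 1, 0 ≤ f' s) : MonotoneOn f (Icc 0 1) :=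
  monotoneOn_of_hasDerivWithinAt_nonneg (convex_Icc 0 1) (fun s hs => (h s hs).continuousWithinAt)
    (fun s hs => (h s (interior_subset hs)).mono interior_subset)
    (fun s hs => h0 s (interior_subset hs))

lemma seg_rel {x y : ℝ × ℂ} (h : ST.Seg x y) : Rel x y := by
  obtain ⟨γ, γ', hsm, rfl, rfl, H⟩ := h
  have hU : ∀ s ∈ Icc (0 : ℝ) 1, γ s ∈ UU := fun s hs => (H s hs).1
  have hd := fun s hs => (H s hs).2.1
  have hr : ∀ s ∈ Icc (0 : ℝ) 1, 0 < rr (γ s).2 := fun s hs => rr_pos (hU s hs).1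
  have g1 : ∀ s ∈ Icc (0 : ℝ) 1, gg (γ s) (γ' s) (γ' s) ≤ 0 := fun s hs => (H s hs).2.2.2.1
  have hc : ∀ s ∈ Icc (0 : ℝ) 1, 0 ≤ bb (γ s).2 (γ' s).2 ∧
      0 ≤ 2 * (γ' s).1 * rr (γ s).2 + (γ s).1 ^ 2 * bb (γ s).2 (γ' s).2 := by
    intro s hs
    have g2 : gg (γ s) (γ' s) (TT (γ s)) < 0 := (H s hs).2.2.2.2
    simp only [gg, TT, bb_mul, cc_mul, Complex.I_im, Complex.I_re, mul_one, mul_zero] at g2
    exact cone (c := cc (γ s).2 (γ' s).2) (hr s hs) (g1 s hs) (by simpa using g2)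
  have c0 : ContinuousOn γ (Icc 0 1) := hsm.continuousOn
  have c1 : ContinuousOn γ' (Icc 0 1) :=
    (hsm.continuousOn_derivWithin (uniqueDiffOn_Icc one_pos) (by simp)).congr
      fun s hs => ((hd s hs).derivWithin (uniqueDiffOn_Icc one_pos s hs)).symm
  let k : ℝ → ℝ := fun s => (γ s).1 * bb (γ s).2 (γ' s).2 / (2 * rr (γ s).2)
  have ck : ContinuousOn k (Icc 0 1) := by
    refine ContinuousOn.div ?_ ?_ fun s hs => by have := hr s hs; positivity
    · simp only [bb]; fun_prop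
    · simp only [rr]; fun_prop
  let k2 : ℝ → ℝ := IccExtend zero_le_one ((Icc (0 : ℝ) 1).restrict k)
  have ck2 : Continuous k2 := ck.restrict.Icc_extend'
  have hk2 : ∀ s ∈ Icc (0 : ℝ) 1, k2 s = k s := fun s hs => IccExtend_of_mem _ _ hs
  let I : ℝ → ℝ := fun s => ∫ u in (0 : ℝ)..s, k2 u
  have hI : ∀ s, HasDerivAt I (k2 s) s := fun s => (ck2.integral_hasStrictDerivAt 0 s).hasDerivAt
  have ht : ∀ s ∈ Icc (0 : ℝ) 1, HasDerivWithinAt (fun s => (γ s).1) (γ' s).1 (Icc 0 1) s :=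
    fun s hs => (hd s hs).fst
  have hm := mono_of (f := fun s => (γ s).1 * Real.exp (I s))
    (fun s hs => (ht s hs).mul (hI s).exp.hasDerivWithinAt) (fun s hs => by
      have e1 := Real.exp_pos (I s)
      have e2 : 0 ≤ (γ' s).1 + (γ s).1 * k s := by
        have r0 := hr s hs
        have : (γ' s).1 + (γ s).1 * k s = (2 * (γ' s).1 * rr (γ s).2 +
            (γ s).1 ^ 2 * bb (γ s).2 (γ' s).2) / (2 * rr (γ s).2) := by
          simp only [k]; field_simp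
        rw [this]; exact div_nonneg (hc s hs).2 (by positivity)
      rw [hk2 s hs]; nlinarith)
  have z0 : (0 : ℝ) ∈ Icc (0 : ℝ) 1 := left_mem_Icc.2 zero_le_one
  have z1 : (1 : ℝ) ∈ Icc (0 : ℝ) 1 := right_mem_Icc.2 zero_le_one
  have m01 := hm z0 z1 zero_le_one
  have p0 := Real.exp_pos (I 0)
  have p1 := Real.exp_pos (I 1)
  simp only at m01
  refine ⟨fun a => ?_, fun a => ?_, fun a b => ?_⟩
  · by_contra h; push Not at h; nlinarith
  · by_contra h; push Not at h; nlinarith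
  have t0 : ∀ s ∈ Icc (0 : ℝ) 1, (γ s).1 = 0 := by
    intro s hs
    have u1 := hm z0 hs hs.1
    have u2 := hm hs z1 hs.2
    simp only [a, b, zero_mul] at u1 u2
    exact (mul_eq_zero.1 (le_antisymm u2 u1)).resolve_right (Real.exp_pos _).ne'
  have a0 : ∀ s ∈ Icc (0 : ℝ) 1, (γ' s).1 = 0 := fun s hs =>
    (uniqueDiffOn_Icc one_pos s hs).eq_deriv _ (ht s hs)
      ((hasDerivWithinAt_const s _ (0 : ℝ)).congr t0 (t0 s hs))
  have cz : ∀ s ∈ Icc (0 : ℝ) 1, cc (γ s).2 (γ' s).2 = 0 := by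
    intro s hs
    have := g1 s hs
    simp only [gg, a0 s hs, t0 s hs] at this
    nlinarith
  have bp : ∀ s ∈ Icc (0 : ℝ) 1, 0 < bb (γ s).2 (γ' s).2 := by
    intro s hs
    have g2 : gg (γ s) (γ' s) (TT (γ s)) < 0 := (H s hs).2.2.2.2
    simp only [gg, TT, bb_mul, cc_mul, Complex.I_im, Complex.I_re, a0 s hs, t0 s hs] at g2
    have := hr s hs
    nlinarith
  have hL : ∀ s ∈ Icc (0 : ℝ) 1,
      HasDerivWithinAt (fun s => Th (γ s).2) ((-(γ' s).2) / (-(γ s).2)) (Icc 0 1) s := fun s hs =>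
    HasDerivWithinAt.clog_real (HasDerivWithinAt.neg (show HasDerivWithinAt (fun s => (γ s).2)
      (γ' s).2 (Icc 0 1) s from (ContinuousLinearMap.snd ℝ ℝ ℂ).hasFDerivAt.comp_hasDerivWithinAt s
        (hd s hs))) ((hU s hs).2.resolve_left (by simp [t0 s hs]))
  have dre : ∀ s ∈ Icc (0 : ℝ) 1, ((-(γ' s).2) / (-(γ s).2)).re = 0 := by
    intro s hs
    have := cz s hs
    rw [neg_div_neg_eq, Complex.div_re, ← add_div]
    unfold cc at this
    rw [div_eq_zero_iff]; left; linarith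
  have dim : ∀ s ∈ Icc (0 : ℝ) 1, 0 < ((-(γ' s).2) / (-(γ s).2)).im := by
    intro s hs
    have := bp s hs
    rw [neg_div_neg_eq, Complex.div_im, ← sub_div]
    unfold bb at this
    exact div_pos (by linarith) (Complex.normSq_pos.2 (hU s hs).1)
  have Hre : ∀ s ∈ Icc (0 : ℝ) 1, HasDerivWithinAt (fun s => (Th (γ s).2).re)
      ((-(γ' s).2) / (-(γ s).2)).re (Icc 0 1) s := fun s hs =>
    Complex.reCLM.hasFDerivAt.comp_hasDerivWithinAt s (hL s hs)
  have Him : ∀ s ∈ Icc (0 : ℝ) 1, HasDerivWithinAt (fun s => (Th (γ s).2).im)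
      ((-(γ' s).2) / (-(γ s).2)).im (Icc 0 1) s := fun s hs =>
    Complex.imCLM.hasFDerivAt.comp_hasDerivWithinAt s (hL s hs)
  constructor
  · have u1 := mono_of Hre (fun s hs => (dre s hs).ge) z0 z1 zero_le_one
    have u2 := mono_of (fun s hs => (Hre s hs).neg) (fun s hs => by rw [dre s hs]; simp) z0 z1
      zero_le_one
    simp only [Pi.neg_apply] at u1 u2
    linarith
  · exact strictMonoOn_of_hasDerivWithinAt_pos (convex_Icc 0 1)
      (fun s hs => (Him s hs).continuousWithinAt)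
      (fun s hs => (Him s (interior_subset hs)).mono interior_subset)
      (fun s hs => dim s (interior_subset hs)) z0 z1 one_pos

lemma after_rel {x y : ℝ × ℂ} (h : Relation.TransGen ST.Seg x y) : Rel x y := by
  induction h with
  | single h => exact seg_rel h
  | tail _ h ih => exact ih.trans (seg_rel h)

theorem cntv : ST.CNTV := by
  refine ⟨⟨(0, -1), by simp, Or.inr (by simp)⟩, fun h => ?_⟩
  exact lt_irrefl _ ((after_rel h).2.2 rfl rfl).2

lemma comparable {x y z : ST.U} (hx : x.1.1 = 0) (h1 : ST.After x y) (h2 : ST.After x z)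
    (hne : y ≠ z) : ST.After y z ∨ ST.After z y := by
  have r1 := after_rel h1
  have r2 := after_rel h2
  have up : ∀ a b : ST.U, a.1.1 = 0 → 0 < b.1.1 → ST.After a b := fun a b ha hb =>
    Relation.TransGen.tail (.single (seg_up a.2 ha)) (seg_pos a.2.1 b.2.1 one_pos hb)
  rcases (r1.1 hx.ge).eq_or_lt with a | a <;> rcases (r2.1 hx.ge).eq_or_lt with b | b
  · have e := (r1.2.2 hx a.symm).1.symm.trans (r2.2.2 hx b.symm).1
    rcases lt_trichotomy (Th y.1.2).im (Th z.1.2).im with c | c | c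
    · exact Or.inl (.single (seg_arc y.2 z.2 a.symm b.symm e c))
    · exfalso
      apply hne
      have e2 : Th y.1.2 = Th z.1.2 := Complex.ext e c
      have e3 := congrArg Complex.exp e2
      rw [Th, Th, Complex.exp_log (neg_ne_zero.2 y.2.1), Complex.exp_log (neg_ne_zero.2 z.2.1),
        neg_inj] at e3
      exact Subtype.ext (Prod.ext (a.symm.trans b) e3)
    · exact Or.inr (.single (seg_arc z.2 y.2 b.symm a.symm e.symm c))
  · exact Or.inl (up _ _ a.symm b)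
  · exact Or.inr (up _ _ b.symm a)
  · exact Or.inl (.single (seg_pos y.2.1 z.2.1 a b))

theorem after2 : ST.After2 := by
  rintro p₁ p₂ q x ⟨⟨⟨y, ⟨⟨y1, y2⟩, y3⟩, hy⟩, z, ⟨⟨z1, z2⟩, z3⟩, hz⟩, hq⟩
  by_cases hx : x.1.1 = 0
  · exfalso
    rcases comparable hx hy hz (fun h => y2 (h ▸ z1)) with h | h
    · exact y3 ⟨z, z1, h⟩
    · exact z3 ⟨y, y1, h⟩
  · exact Or.inl ⟨x, ⟨⟨y, y1, hy⟩, hq⟩, .single (seg_loop x.2.1 hx)⟩

end Pool.Agent.H5.CNTV
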