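import Mathlib

namespace Pool.Agent.H5.CW
open Finset Matrix

def ev (c : ℕ) : Bool := decide (c % 2 = 0)

def cnt (k : ℕ) : List Bool → Fin k → ℕ
  | [], _ => 1
  | s :: u, c => ∑ c' : Fin k, if c < c' ∨ (c = c' ∧ ev c.val = s) then cnt k u c' else 0

def tt : List Bool → ℕ
  | [] => 0
  | s :: u => if ev (tt u) = s then tt u else tt u + 1

lemma tt_le (u : List Bool) : tt u ≤ u.length := by
  induction u with
  | nil => simp [tt]
  | cons s u ih => simp only [tt, List.length_cons]; split_ifs <;> omega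

lemma ev_eq {a b : ℕ} : ev a = ev b ↔ a % 2 = b % 2 := by
  unfold ev; rw [decide_eq_decide]; omega

lemma cnt_pos (m : ℕ) (u : List Bool) (c : Fin (2 * m + 1)) :
    0 < cnt (2 * m + 1) u c ↔ c.val + tt u ≤ 2 * m := by
  induction u generalizing c with
  | nil => have := c.2; simp [cnt, tt]; omega
  | cons s u ih =>
    have key : 0 < cnt (2 * m + 1) (s :: u) c ↔
        ∃ c' : Fin (2 * m + 1), (c < c' ∨ (c = c' ∧ ev c.val = s)) ∧ c'.val + tt u ≤ 2 * m := by
      simp only [cnt]
      rw [Finset.sum_pos_iff]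
      constructor
      · rintro ⟨c', -, h⟩
        split_ifs at h with h1
        · exact ⟨c', h1, (ih c').1 h⟩
        · omega
      · rintro ⟨c', h1, h2⟩
        exact ⟨c', mem_univ _, by rw [if_pos h1]; exact (ih c').2 h2⟩
    rw [key]
    simp only [tt]
    split_ifs with hs
    · constructor
      · rintro ⟨c', h1 | h1, h2⟩
        · have := Fin.lt_def.1 h1; omega
        · rw [h1.1]; exact h2
      · intro h
        by_cases h' : c.val + tt u < 2 * m
        · exact ⟨⟨c.val + 1, by omega⟩, Or.inl (Fin.lt_def.2 (by simp)), by simp; omega⟩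
        · refine ⟨c, Or.inr ⟨rfl, ?_⟩, h⟩
          rw [← hs, ev_eq]; omega
    · constructor
      · rintro ⟨c', h1 | h1, h2⟩
        · have := Fin.lt_def.1 h1; omega
        · obtain ⟨rfl, h3⟩ := h1
          rw [← h3, ev_eq] at hs; omega
      · intro h
        exact ⟨⟨c.val + 1, by omega⟩, Or.inl (Fin.lt_def.2 (by simp)), by simp; omega⟩

def sg (c : ℕ) : ℚ := if c % 2 = 0 then 1 else -1
def pp (i j : ℕ) : ℚ := if i < j then 2 else if i = j then 1 else 0

lemma sg_succ (c : ℕ) : sg (c + 1) = - sg c := by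
  unfold sg; split_ifs <;> first | omega | simp

lemma sum1 (i j c : ℕ) : ∑ x ∈ range c, pp i x * sg x * pp x j =
    if i < c ∧ c ≤ j then -2 * sg c else if i = j ∧ i < c then sg i else 0 := by
  induction c with
  | zero => simp
  | succ c ih =>
    rw [sum_range_succ, ih, sg_succ]; unfold pp
    split_ifs <;> first | omega | (subst_vars; ring) | ring

lemma sum2 (j c : ℕ) : ∑ x ∈ range c, sg x * pp x j = if c ≤ j then 1 - sg c else 1 := by
  induction c with
  | zero => simp [sg]
  | succ c ih =>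
    rw [sum_range_succ, ih, sg_succ]; unfold pp
    split_ifs <;> first | omega | (subst_vars; ring) | ring

lemma sum3 (i c : ℕ) : ∑ x ∈ range c, pp i x * sg x = if c ≤ i then 0 else - sg c := by
  induction c with
  | zero => simp
  | succ c ih =>
    rw [sum_range_succ, ih, sg_succ]; unfold pp
    split_ifs <;> first | omega | (subst_vars; ring) | ring

def PM (k : ℕ) : Matrix (Fin k) (Fin k) ℚ := fun i j => pp i j
def JM (k : ℕ) : Matrix (Fin k) (Fin k) ℚ := diagonal fun i => sg i

lemma JJ (k : ℕ) : JM k * JM k = 1 := by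
  unfold JM; rw [diagonal_mul_diagonal, ← diagonal_one]; congr 1; funext i
  unfold sg; split_ifs <;> simp

lemma PJP (k : ℕ) : PM k * JM k * PM k = JM k := by
  ext i j
  rw [mul_apply]
  simp only [JM, mul_diagonal, PM]
  rw [Fin.sum_univ_eq_sum_range (fun x => pp i x * sg x * pp x j) k, sum1, diagonal_apply]
  have := i.2; have := j.2
  simp only [Fin.ext_iff]
  split_ifs <;> first | omega | rfl

lemma oneJP (k : ℕ) : (1 : Fin k → ℚ) ᵥ* (JM k * PM k) = 1 := by
  funext j
  simp only [vecMul, dotProduct, JM, diagonal_mul, PM, Pi.one_apply, one_mul]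
  rw [Fin.sum_univ_eq_sum_range (fun x => sg x * pp x j) k, sum2]
  have := j.2
  rw [if_neg (by omega)]

lemma PJone (m : ℕ) : (PM (2 * m + 1) * JM (2 * m + 1)) *ᵥ (1 : Fin (2 * m + 1) → ℚ) = 1 := by
  funext i
  simp only [mulVec, dotProduct, JM, mul_diagonal, PM, Pi.one_apply, mul_one]
  rw [Fin.sum_univ_eq_sum_range (fun x => pp i x * sg x) (2 * m + 1), sum3]
  have := i.2
  rw [if_neg (by omega)]; unfold sg; rw [if_neg (by omega)]; simp

def AM (k : ℕ) (s : Bool) : Matrix (Fin k) (Fin k) ℚ := if s = true then PM k + JM k else PM k - JM k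
def CM (k : ℕ) : Matrix (Fin k) (Fin k) ℚ := PM k + JM k * PM k * JM k

lemma ringA {R : Type*} [Ring R] (P J : R) (h1 : J * J = 1) (h2 : P * J * P = J) :
    (P + J) * (P + J) = (P + J * P * J) * (P + J) ∧ (P - J) * (P - J) = (P + J * P * J) * (P - J) ∧
    (P + J) * (P + J * P * J) = (P + J * P * J) * (P + J) ∧
    (P - J) * (P + J * P * J) = (P + J * P * J) * (P - J) := by
  have a1 : J * P * J * P = 1 := by
    calc J * P * J * P = J * (P * J * P) := by noncomm_ring
      _ = 1 := by rw [h2, h1]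
  have a2 : J * P * J * J = J * P := by rw [mul_assoc (J * P), h1, mul_one]
  have a3 : P * (J * P * J) = 1 := by
    calc P * (J * P * J) = (P * J * P) * J := by noncomm_ring
      _ = 1 := by rw [h2, h1]
  have a4 : J * (J * P * J) = P * J := by
    calc J * (J * P * J) = (J * J) * P * J := by noncomm_ring
      _ = P * J := by rw [h1, one_mul]
  simp only [mul_add, add_mul, mul_sub, sub_mul, a1, a2, a3, a4, h1]
  refine ⟨by abel, by abel, by abel, by abel⟩

lemma AA (k : ℕ) (s : Bool) : AM k s * AM k s = CM k * AM k s := by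
  have := ringA (PM k) (JM k) (JJ k) (PJP k)
  cases s
  · exact this.2.1
  · exact this.1

lemma AC (k : ℕ) (s : Bool) : Commute (AM k s) (CM k) := by
  have := ringA (PM k) (JM k) (JJ k) (PJP k)
  cases s
  · exact this.2.2.2
  · exact this.2.2.1

lemma Aone (m : ℕ) : AM (2 * m + 1) true *ᵥ (1 : Fin (2 * m + 1) → ℚ) = CM (2 * m + 1) *ᵥ 1 := by
  simp only [AM, CM, if_true, add_mulVec]
  rw [mul_assoc, ← mulVec_mulVec, PJone]

lemma oneA (k : ℕ) : (1 : Fin k → ℚ) ᵥ* AM k true = 1 ᵥ* CM k := by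
  simp only [AM, CM, if_true, vecMul_add]
  rw [← vecMul_vecMul, oneJP]

def ZM (k : ℕ) : ℕ → Matrix (Fin k) (Fin k) ℚ
  | 0 => 1
  | t + 1 => AM k (!ev t) * ZM k t

lemma AM_apply (k : ℕ) (s : Bool) (i j : Fin k) :
    AM k s i j = if i < j ∨ (i = j ∧ ev i.val = s) then 2 else 0 := by
  have h1 : PM k i j = pp i j := rfl
  have h2 : JM k i j = if i = j then sg i else 0 := diagonal_apply _ _ _
  unfold AM
  cases s <;> simp only [Bool.false_eq_true, if_false, if_true, Matrix.sub_apply, Matrix.add_apply, h1, h2,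
    pp, sg, ev, Fin.lt_def, Fin.ext_iff, decide_eq_false_iff_not, decide_eq_true_eq] <;>
    split_ifs <;> first | omega | norm_num

lemma ev_succ (t : ℕ) : ev (t + 1) = !ev t := by
  unfold ev; rcases Nat.mod_two_eq_zero_or_one t with h | h <;> simp [Nat.add_mod, h]

lemma cnt_vec (m : ℕ) (u : List Bool) :
    (fun c => (2 : ℚ) ^ u.length * cnt (2 * m + 1) u c) =
      (CM (2 * m + 1) ^ (u.length - tt u) * ZM (2 * m + 1) (tt u)) *ᵥ 1 := by
  induction u with
  | nil => funext c; simp [cnt, tt, ZM]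
  | cons s u ih =>
    have h1 : (fun c => (2 : ℚ) ^ (s :: u).length * cnt (2 * m + 1) (s :: u) c) =
        AM (2 * m + 1) s *ᵥ (fun c => (2 : ℚ) ^ u.length * cnt (2 * m + 1) u c) := by
      funext c
      simp only [cnt, mulVec, dotProduct, AM_apply, List.length_cons, Nat.cast_sum, Finset.mul_sum]
      refine sum_congr rfl fun c' _ => ?_
      split_ifs
      · ring
      · simp
    rw [h1, ih, mulVec_mulVec, ← mul_assoc, ((AC _ s).pow_right _).eq, mul_assoc]
    have hle := tt_le u
    simp only [tt, List.length_cons]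
    split_ifs with hs
    · rw [show u.length + 1 - tt u = (u.length - tt u) + 1 by omega, pow_succ, mul_assoc]
      rw [← mulVec_mulVec, ← mulVec_mulVec (1 : Fin (2 * m + 1) → ℚ) (CM (2 * m + 1) ^ (u.length - tt u))]
      congr 1
      cases h : tt u with
      | zero =>
        rw [h] at hs
        have : s = true := by rw [← hs]; rfl
        subst this
        simp only [ZM, mul_one]; exact Aone m
      | succ t =>
        rw [h, ev_succ] at hs
        simp only [ZM]; rw [hs, ← mul_assoc, AA, mul_assoc]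
    · rw [show u.length + 1 - (tt u + 1) = u.length - tt u by omega]
      have : s = !ev (tt u) := by cases s <;> cases h : ev (tt u) <;> simp_all
      simp only [ZM]; rw [← this]

/-- total count -/
def tot (k : ℕ) (u : List Bool) : ℕ := ∑ c, cnt k u c

noncomputable def Phi (m l r : ℕ) : ℚ :=
  ((1 : Fin (2 * m + 1) → ℚ) ⬝ᵥ
    ((CM (2 * m + 1) ^ (l - (2 * r - 1)) * ZM (2 * m + 1) (2 * r - 1)) *ᵥ 1)) / 2 ^ l

def rr (u : List Bool) : ℕ := (tt u + 1) / 2

lemma tot_eq (m : ℕ) (u : List Bool) : (tot (2 * m + 1) u : ℚ) = Phi m u.length (rr u) := by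
  unfold Phi
  rw [eq_div_iff (by positivity)]
  have h : (tot (2 * m + 1) u : ℚ) * 2 ^ u.length = (1 : Fin (2 * m + 1) → ℚ) ⬝ᵥ
      (fun c => (2 : ℚ) ^ u.length * cnt (2 * m + 1) u c) := by
    simp only [tot, dotProduct, Pi.one_apply, one_mul, Nat.cast_sum, Finset.sum_mul]
    exact sum_congr rfl fun c _ => by ring
  rw [h, cnt_vec]
  have hle := tt_le u
  by_cases h0 : 2 * rr u - 1 = tt u
  · rw [h0]
  · obtain ⟨t, ht, hev⟩ : ∃ t, tt u = t + 1 ∧ t % 2 = 1 := ⟨tt u - 1, by unfold rr at h0; omega⟩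
    have h2 : 2 * rr u - 1 = t := by unfold rr; omega
    rw [h2, ht]
    have h3 : (!ev t) = true := by unfold ev; simp; omega
    simp only [ZM]; rw [h3, ← mul_assoc, ← ((AC _ true).pow_right _).eq, mul_assoc,
      show u.length - t = (u.length - (t + 1)) + 1 by omega, pow_succ', mul_assoc,
      ← mulVec_mulVec, ← mulVec_mulVec (1 : Fin (2 * m + 1) → ℚ) (CM (2 * m + 1)),
      dotProduct_mulVec, dotProduct_mulVec (1 : Fin (2 * m + 1) → ℚ) (CM (2 * m + 1)), oneA]

lemma tot_pos (m : ℕ) (u : List Bool) : 0 < tot (2 * m + 1) u ↔ rr u ≤ m := by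
  unfold tot rr
  rw [Finset.sum_pos_iff]
  constructor
  · rintro ⟨c, -, h⟩
    have := (cnt_pos m u c).1 h; omega
  · intro h
    exact ⟨0, mem_univ _, (cnt_pos m u 0).2 (by simp; omega)⟩

end Pool.Agent.H5.CW
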