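import Mathlib

namespace Pool.Agent.H5.CW

/-- `π` lies in the `σ`-class (`true` is `+`, `false` is `-`): there are cut points
`0 = e 0 ≤ e 1 ≤ ... ≤ e k = n` such that the block of positions `e i ≤ a < e (i+1)` (positions counted from 0)
is increasing if `σ i = +` and decreasing if `σ i = -`. -/
def InClass {k n : ℕ} (σ : Fin k → Bool) (π : Equiv.Perm (Fin n)) : Prop :=
  ∃ e : Fin (k + 1) → ℕ, e 0 = 0 ∧ Monotone e ∧ e (Fin.last k) = n ∧
    ∀ (i : Fin k) (a b : Fin n), e i.castSucc ≤ a.val → a < b → b.val < e i.succ →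
      if σ i = true then π a < π b else π b < π a

/-- `π` consists of a single cycle through all points. -/
def Cyc {n : ℕ} (π : Equiv.Perm (Fin n)) : Prop := ∀ a b, π.SameCycle a b

/-- The alternating signature of size `k` starting with the sign `b`. -/
def alt (b : Bool) (k : ℕ) : Fin k → Bool := fun i => if i.val % 2 = 0 then b else !b

/-- The number of cyclic permutations of `[n]` in the `σ`-class. -/
noncomputable def cycCount {k : ℕ} (σ : Fin k → Bool) (n : ℕ) : ℕ :=
  Nat.card {π : Equiv.Perm (Fin n) // Cyc π ∧ InClass σ π}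

end Pool.Agent.H5.CW
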