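import Pool.Agent.H5.CW1
import Pool.Agent.H5.CWDefs

namespace Pool.Agent.H5.CW
open Finset

def Rel {k n : ℕ} (σ : Fin k → Bool) (π : Equiv.Perm (Fin n)) (f : Fin n → Fin k) (a b : Fin n) : Prop :=
  f a ≤ f b ∧ (f a = f b → if σ (f a) = true then π a < π b else π b < π a)

def Lab {k n : ℕ} (σ : Fin k → Bool) (π : Equiv.Perm (Fin n)) (f : Fin n → Fin k) : Prop :=
  ∀ a b, a < b → Rel σ π f a b

open Classical in
noncomputable def seg {k n : ℕ} (σ : Fin k → Bool) (π : Equiv.Perm (Fin n)) : ℕ :=
  ∑ f : Fin n → Fin k, if Lab σ π f then 1 else 0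

lemma ivt (k : ℕ) (e : Fin (k + 1) → ℕ) (h0 : e 0 = 0) (a : ℕ) (j : Fin (k + 1)) (hj : a < e j) :
    ∃ i : Fin k, e i.castSucc ≤ a ∧ a < e i.succ := by
  induction j using Fin.induction with
  | zero => omega
  | succ i ih =>
    by_cases h : a < e i.castSucc
    · exact ih h
    · exact ⟨i, by omega, hj⟩

lemma inClass_iff {k n : ℕ} (σ : Fin k → Bool) (π : Equiv.Perm (Fin n)) :
    InClass σ π ↔ ∃ f, Lab σ π f := by
  classical
  constructor
  · rintro ⟨e, h0, hm, hl, h⟩
    have : ∀ a : Fin n, ∃ i : Fin k, e i.castSucc ≤ a.val ∧ a.val < e i.succ :=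
      fun a => ivt k e h0 a (Fin.last k) (by rw [hl]; exact a.2)
    choose f hf using this
    refine ⟨f, fun a b hab => ⟨?_, fun he => h (f a) a b (hf a).1 hab (he ▸ (hf b).2)⟩⟩
    by_contra hc
    have h1 : (f b).succ ≤ (f a).castSucc := by
      rw [not_le, Fin.lt_def] at hc; rw [Fin.le_def]; simp; omega
    have := hm h1
    have h2 := (hf a).1; have h3 := (hf b).2; have := Fin.lt_def.1 hab
    omega
  · rintro ⟨f, hf⟩
    have mono : ∀ a b, a ≤ b → f a ≤ f b := fun a b hab => by
      rcases hab.lt_or_eq with h | h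
      · exact (hf a b h).1
      · rw [h]
    refine ⟨fun i => (univ.filter fun a : Fin n => (f a).val < i.val).card, by simp, ?_, ?_, ?_⟩
    · intro i j hij
      apply card_le_card
      intro a ha
      simp only [mem_filter, mem_univ, true_and] at ha ⊢
      have := Fin.le_def.1 hij; omega
    · have : (univ.filter fun a : Fin n => (f a).val < (Fin.last k).val) = univ := by
        apply filter_true_of_mem; intro a _; simp
      simp only [this]; simp
    · intro i a b h1 hab h2
      have ha : i ≤ f a := by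
        by_contra hc
        have : Iic a ⊆ univ.filter fun a : Fin n => (f a).val < i.castSucc.val := by
          intro x hx
          have := Fin.le_def.1 (mono x a (mem_Iic.1 hx))
          rw [not_le, Fin.lt_def] at hc
          simp; omega
        have := card_le_card this
        rw [Fin.card_Iic] at this
        simp only at h1; omega
      have hb : f b ≤ i := by
        by_contra hc
        have : (univ.filter fun a : Fin n => (f a).val < i.succ.val) ⊆ Iio b := by
          intro x hx
          simp only [mem_filter, mem_univ, true_and, Fin.val_succ] at hx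
          rw [mem_Iio]
          by_contra hx2
          have := Fin.le_def.1 (mono b x (not_lt.1 hx2))
          rw [not_le, Fin.lt_def] at hc
          omega
        have := card_le_card this
        rw [Fin.card_Iio] at this
        simp only at h2; omega
      have h3 := (hf a b hab).1
      have e1 : f a = i := le_antisymm (h3.trans hb) ha
      have e2 : f b = i := le_antisymm hb (ha.trans h3)
      have := (hf a b hab).2 (e1.trans e2.symm)
      rwa [e1] at this

lemma seg_pos {k n : ℕ} (σ : Fin k → Bool) (π : Equiv.Perm (Fin n)) : 0 < seg σ π ↔ InClass σ π := by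
  rw [inClass_iff]; unfold seg; rw [Finset.sum_pos_iff]
  constructor
  · rintro ⟨f, -, h⟩
    split_ifs at h with h1
    · exact ⟨f, h1⟩
    · omega
  · rintro ⟨f, h⟩; exact ⟨f, mem_univ _, by rw [if_pos h]; omega⟩

def Adj {k l : ℕ} (u : Fin l → Bool) (f : Fin (l + 1) → Fin k) : Prop :=
  ∀ i : Fin l, f i.castSucc < f i.succ ∨ (f i.castSucc = f i.succ ∧ ev (f i.castSucc).val = u i)

open Classical in
lemma adj_cnt (k l : ℕ) (u : Fin l → Bool) (c : Fin k) :
    (∑ g : Fin l → Fin k, if Adj u (Fin.cons c g : Fin (l + 1) → Fin k) then 1 else 0) =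
      cnt k (List.ofFn u) c := by
  induction l generalizing c with
  | zero => simp [cnt, Adj]
  | succ l ih =>
    rw [List.ofFn_succ, cnt, ← (Fin.consEquiv fun _ : Fin (l + 1) => Fin k).sum_comp, Fintype.sum_prod_type]
    refine sum_congr rfl fun c' _ => ?_
    rw [← ih]
    have key : ∀ g : Fin l → Fin k,
        Adj u (Fin.cons c (Fin.consEquiv (fun _ : Fin (l + 1) => Fin k) (c', g)) : Fin (l + 2) → Fin k) ↔
        (c < c' ∨ (c = c' ∧ ev c.val = u 0)) ∧
          Adj (fun i => u i.succ) (Fin.cons c' g : Fin (l + 1) → Fin k) := by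
      intro g
      unfold Adj
      rw [Fin.forall_fin_succ]
      simp only [Fin.consEquiv, Equiv.coe_fn_mk, Fin.castSucc_zero, Fin.cons_zero, Fin.cons_succ,
        ← Fin.succ_castSucc]
    simp only [key]
    split_ifs with h
    · simp [h]
    · simp [h]

def stp (b : Bool) {l : ℕ} (π : Equiv.Perm (Fin (l + 1))) : List Bool :=
  List.ofFn fun i : Fin l => decide (π i.castSucc < π i.succ) == b

lemma lab_iff (b : Bool) {k l : ℕ} (π : Equiv.Perm (Fin (l + 1))) (f : Fin (l + 1) → Fin k) :
    Lab (alt b k) π f ↔ Adj (fun i : Fin l => decide (π i.castSucc < π i.succ) == b) f := by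
  have : IsTrans (Fin (l + 1)) (Rel (alt b k) π f) := ⟨by
    rintro x y z ⟨h1, h2⟩ ⟨h3, h4⟩
    refine ⟨h1.trans h3, fun he => ?_⟩
    have e1 : f x = f y := le_antisymm h1 (he ▸ h3)
    have e2 : f y = f z := e1 ▸ he
    have h5 := h2 e1
    have h6 := h4 e2
    rw [← e1] at h6
    split_ifs at h5 h6 ⊢
    · exact h5.trans h6
    · exact h6.trans h5⟩
  have h := Fin.liftFun_iff_succ (Rel (alt b k) π f) (f := id)
  have h' : Lab (alt b k) π f ↔ ∀ i : Fin l, Rel (alt b k) π f i.castSucc i.succ :=
    ⟨fun hh => h.1 (fun a b hab => hh a b hab), fun hh a b hab => h.2 hh hab⟩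
  rw [h']
  refine forall_congr' fun i => ?_
  have hne : π i.castSucc ≠ π i.succ := fun he => by
    have := Fin.ext_iff.1 (π.injective he); simp at this
  have hlt : π i.succ < π i.castSucc ↔ ¬ π i.castSucc < π i.succ :=
    ⟨fun h => not_lt.2 h.le, fun h => lt_of_le_of_ne (not_lt.1 h) hne.symm⟩
  unfold Rel alt ev
  rw [hlt, le_iff_lt_or_eq]
  by_cases h1 : f i.castSucc = f i.succ
  · by_cases h2 : (f i.succ).val % 2 = 0 <;> by_cases h3 : π i.castSucc < π i.succ <;>
      cases b <;> simp [h1, h2, h3]
  · simp [h1]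

lemma seg_eq (b : Bool) (k : ℕ) {l : ℕ} (π : Equiv.Perm (Fin (l + 1))) :
    seg (alt b k) π = tot k (stp b π) := by
  classical
  unfold seg tot stp
  rw [← (Fin.consEquiv fun _ : Fin (l + 1) => Fin k).sum_comp, Fintype.sum_prod_type]
  refine sum_congr rfl fun c _ => ?_
  rw [← adj_cnt]
  refine sum_congr rfl fun g _ => ?_
  simp only [lab_iff]
  rfl

/-- triangular deduction -/
lemma deduce {T : Type*} (S : Finset T) (r r' : T → ℕ) (x x' : ℕ → T → ℕ) (F : ℕ → ℕ → ℚ)
    (h : ∀ m t, (x m t : ℚ) = F m (r t)) (h' : ∀ m t, (x' m t : ℚ) = F m (r' t))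
    (hp : ∀ m t, 0 < x m t ↔ r t ≤ m) (hp' : ∀ m t, 0 < x' m t ↔ r' t ≤ m)
    (hs : ∀ m, ∑ t ∈ S, x m t = ∑ t ∈ S, x' m t) (m : ℕ) :
    (S.filter fun t => r t ≤ m).card = (S.filter fun t => r' t ≤ m).card := by
  have dec : ∀ (r : T → ℕ) (x : ℕ → T → ℕ), (∀ m t, (x m t : ℚ) = F m (r t)) →
      (∀ m t, 0 < x m t ↔ r t ≤ m) → ∀ m, ((∑ t ∈ S, x m t : ℕ) : ℚ) =
        ∑ j ∈ range (m + 1), ((S.filter fun t => r t = j).card : ℚ) * F m j := by
    intro r x h hp m
    simp only [card_filter, Nat.cast_sum, Finset.sum_mul]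
    rw [sum_comm]
    refine sum_congr rfl fun t _ => ?_
    simp only [Nat.cast_ite, Nat.cast_one, Nat.cast_zero, ite_mul, one_mul, zero_mul, sum_ite_eq, mem_range]
    split_ifs with h1
    · exact h m t
    · have : ¬ 0 < x m t := fun hh => h1 (by have := (hp m t).1 hh; omega)
      have : x m t = 0 := by omega
      rw [this]; simp
  have fib : ∀ j, (S.filter fun t => r t = j).card = (S.filter fun t => r' t = j).card := by
    intro j
    induction j using Nat.strong_induction_on with
    | _ j ih =>
      have e1 := dec r x h hp j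
      have e2 := dec r' x' h' hp' j
      rw [hs j, e2, sum_range_succ, sum_range_succ,
        sum_congr rfl (fun i hi => by rw [← ih i (mem_range.1 hi)])] at e1
      have e3 := add_left_cancel e1
      by_cases hF : F j j = 0
      · have z : ∀ (r : T → ℕ) (x : ℕ → T → ℕ), (∀ m t, (x m t : ℚ) = F m (r t)) →
            (∀ m t, 0 < x m t ↔ r t ≤ m) → (S.filter fun t => r t = j).card = 0 := by
          intro r x h hp
          rw [card_eq_zero, filter_eq_empty_iff]
          intro t _ ht
          have h1 := h j t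
          rw [ht, hF] at h1
          have h2 := (hp j t).2 ht.le
          have : x j t = 0 := by exact_mod_cast h1
          omega
        rw [z r x h hp, z r' x' h' hp']
      · have := mul_right_cancel₀ hF e3
        exact_mod_cast this.symm
  have tot : ∀ r : T → ℕ, (S.filter fun t => r t ≤ m).card =
      ∑ j ∈ range (m + 1), (S.filter fun t => r t = j).card := by
    intro r
    simp only [card_filter]
    rw [sum_comm]
    refine sum_congr rfl fun t _ => ?_
    simp only [sum_ite_eq, mem_range, Nat.lt_succ_iff]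
  rw [tot, tot]
  exact sum_congr rfl fun j _ => fib j

end Pool.Agent.H5.CW
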