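import Mathlib

namespace Pool.Agent.H5.CW
open Finset

variable {N k : ℕ} (σ : Fin k → Bool) (w : ZMod N → Fin k)

def Comp {L : Type*} [LinearOrder L] (l : ZMod N → L) : Prop :=
  ∀ x y, l x < l y → w x ≤ w y ∧
    (w x = w y → if σ (w x) = true then l (x + 1) < l (y + 1) else l (y + 1) < l (x + 1))

def sgn (b : Bool) : ℤ := if b = true then 1 else -1

lemma sgn_ne (b : Bool) : sgn b ≠ 0 := by cases b <;> simp [sgn]
lemma sgn_sq (b : Bool) : sgn b * sgn b = 1 := by cases b <;> simp [sgn]

def kap : ℕ → ZMod N → ℤ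
  | 0, x => (w x).val
  | t + 1, x => sgn (σ (w x)) * kap t (x + 1)

def KK (x : ZMod N) : Lex (ℕ → ℤ) := toLex fun t => kap σ w t x

lemma KK_lt {x y : ZMod N} : KK σ w x < KK σ w y ↔
    ∃ t, (∀ j < t, kap σ w j x = kap σ w j y) ∧ kap σ w t x < kap σ w t y := Iff.rfl

lemma K1 : Comp σ w (KK σ w) := by
  intro x y h
  obtain ⟨t, h1, h2⟩ := (KK_lt σ w).1 h
  cases t with
  | zero =>
    have : w x < w y := by simp only [kap] at h2; exact Fin.lt_def.2 (by exact_mod_cast h2)
    exact ⟨this.le, fun he => absurd he this.ne⟩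
  | succ t =>
    have he : w x = w y := by
      have := h1 0 (by omega); simp only [kap] at this; exact Fin.ext (by exact_mod_cast this)
    refine ⟨he.le, fun _ => ?_⟩
    have h3 : ∀ j < t, kap σ w j (x + 1) = kap σ w j (y + 1) := fun j hj => by
      have := h1 (j + 1) (by omega)
      simp only [kap, ← he] at this
      exact mul_left_cancel₀ (sgn_ne _) this
    simp only [kap, ← he, sgn] at h2
    split_ifs at h2 ⊢
    · exact (KK_lt σ w).2 ⟨t, h3, by omega⟩
    · exact (KK_lt σ w).2 ⟨t, fun j hj => (h3 j hj).symm, by omega⟩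

lemma K2 {L : Type*} [LinearOrder L] (l : ZMod N → L) (hi : Function.Injective l) (hc : Comp σ w l)
    (x y : ZMod N) (h : KK σ w x < KK σ w y) : l x < l y := by
  obtain ⟨t, h1, h2⟩ := (KK_lt σ w).1 h
  clear h
  induction t generalizing x y with
  | zero =>
    have : w x < w y := by simp only [kap] at h2; exact Fin.lt_def.2 (by exact_mod_cast h2)
    rcases lt_trichotomy (l x) (l y) with h | h | h
    · exact h
    · rw [hi h] at this; exact absurd this (lt_irrefl _)
    · exact absurd (hc y x h).1 (not_le.2 this)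
  | succ t ih =>
    have he : w x = w y := by
      have := h1 0 (by omega); simp only [kap] at this; exact Fin.ext (by exact_mod_cast this)
    have h3 : ∀ j < t, kap σ w j (x + 1) = kap σ w j (y + 1) := fun j hj => by
      have := h1 (j + 1) (by omega)
      simp only [kap, ← he] at this
      exact mul_left_cancel₀ (sgn_ne _) this
    rcases lt_trichotomy (l x) (l y) with h | h | h
    · exact h
    · rw [hi h] at h2; exact absurd h2 (lt_irrefl _)
    · have h4 := (hc y x h).2 he.symm
      simp only [kap, ← he, sgn] at h2 h4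
      split_ifs at h2 h4
      · exact absurd (ih (x + 1) (y + 1) h3 (by omega)) (not_lt.2 h4.le)
      · exact absurd (ih (y + 1) (x + 1) (fun j hj => (h3 j hj).symm) (by omega)) (not_lt.2 h4.le)

def Per (e : ZMod N) : Prop := ∀ x, w (x + e) = w x

lemma kap_per {e : ZMod N} (he : Per w e) (t : ℕ) (x : ZMod N) : kap σ w t (x + e) = kap σ w t x := by
  induction t generalizing x with
  | zero => simp only [kap, he x]
  | succ t ih => simp only [kap, he x]; rw [add_right_comm, ih]

lemma kap_eq (t : ℕ) (x y : ZMod N) (h : ∀ j, kap σ w j x = kap σ w j y) : w (x + t) = w (y + t) := by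
  have h0 : ∀ x y : ZMod N, (∀ j, kap σ w j x = kap σ w j y) → w x = w y := fun x y h => by
    have := h 0; simp only [kap] at this; exact Fin.ext (by exact_mod_cast this)
  induction t generalizing x y with
  | zero => simpa using h0 x y h
  | succ t ih =>
    have := ih (x + 1) (y + 1) fun j => by
      have := h (j + 1)
      simp only [kap, ← h0 x y h] at this
      exact mul_left_cancel₀ (sgn_ne _) this
    push_cast
    rwa [add_comm (t : ZMod N), ← add_assoc, ← add_assoc]

variable [NeZero N]

lemma KK_eq {x y : ZMod N} : KK σ w x = KK σ w y ↔ Per w (y - x) := by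
  constructor
  · intro h z
    have := kap_eq σ w (z - x).val x y fun j => congrFun (toLex.injective h) j
    rw [ZMod.natCast_zmod_val] at this
    rw [show z + (y - x) = y + (z - x) by ring, ← this]; congr 1; ring
  · intro h
    have : y = x + (y - x) := by ring
    unfold KK; congr 1; funext t
    rw [this, kap_per σ w h]

lemma exu {L : Type*} [LinearOrder L] (l : ZMod N → L) (hi : Function.Injective l) :
    ∃! g : ZMod N ≃ Fin N, ∀ x y, g x < g y ↔ l x < l y := by
  classical
  have hc : (univ.image l).card = N := by rw [card_image_of_injective _ hi]; simp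
  let o := (univ.image l).orderIsoOfFin hc
  let f : ZMod N → Fin N := fun x => o.symm ⟨l x, by simp⟩
  have hf : ∀ x y, f x < f y ↔ l x < l y := fun x y => by
    simp only [f]; rw [o.symm.lt_iff_lt]; rfl
  have hfi : Function.Injective f := fun x y h => by
    have := o.symm.injective h
    exact hi (congrArg Subtype.val this)
  have hb : Function.Bijective f := (Fintype.bijective_iff_injective_and_card f).2 ⟨hfi, by simp⟩
  refine ⟨Equiv.ofBijective f hb, hf, fun g hg => ?_⟩
  have hm : StrictMono (fun i => f (g.symm i)) := fun i j hij => by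
    rw [hf, ← hg]; simpa using hij
  have := hm.eq_id
  ext x
  have := congrFun this (g x)
  simp only [Equiv.symm_apply_apply, id] at this
  simp [this]

omit [NeZero N] in
lemma comp_congr {L L' : Type*} [LinearOrder L] [LinearOrder L'] (l : ZMod N → L) (l' : ZMod N → L')
    (h : ∀ x y, l x < l y ↔ l' x < l' y) (hc : Comp σ w l') : Comp σ w l := by
  intro x y hxy
  simp only [h] at hxy ⊢
  exact hc x y hxy

omit [NeZero N] in
lemma iff_of_imp {L L' : Type*} [LinearOrder L] [LinearOrder L'] (l : ZMod N → L) (l' : ZMod N → L')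
    (hi : Function.Injective l') (h : ∀ x y, l' x < l' y → l x < l y) (x y : ZMod N) :
    l x < l y ↔ l' x < l' y := by
  refine ⟨fun hxy => ?_, h x y⟩
  rcases lt_trichotomy (l' x) (l' y) with h1 | h1 | h1
  · exact h1
  · rw [hi h1] at hxy; exact absurd hxy (lt_irrefl _)
  · exact absurd (h y x h1) (not_lt.2 hxy.le)

open Classical in
noncomputable def ord : ℕ := (univ.filter fun g : ZMod N ≃ Fin N => Comp σ w g).card

def Prim : Prop := ∀ e, Per w e → e = 0

lemma ord_prim (h : Prim w) : ord σ w = 1 := by
  have hi : Function.Injective (KK σ w) := fun x y hxy =>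
    (sub_eq_zero.1 (h _ ((KK_eq σ w).1 hxy))).symm
  obtain ⟨g, hg, hu⟩ := exu (KK σ w) hi
  unfold ord
  rw [card_eq_one]
  refine ⟨g, ?_⟩
  ext g'
  simp only [mem_filter, mem_univ, true_and, mem_singleton]
  constructor
  · intro hc
    exact hu g' (iff_of_imp _ _ hi (K2 σ w g' g'.injective hc))
  · rintro rfl
    exact comp_congr σ w _ _ hg (K1 σ w)

def ss (x : ZMod N) (t : ℕ) : ℤ := ∏ i ∈ range t, sgn (σ (w (x + i)))

omit [NeZero N] in
lemma ss_succ (x : ZMod N) (t : ℕ) : ss σ w x (t + 1) = ss σ w x t * sgn (σ (w (x + t))) :=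
  prod_range_succ _ _

omit [NeZero N] in
lemma ss_succ' (x : ZMod N) (t : ℕ) : ss σ w x (t + 1) = ss σ w (x + 1) t * sgn (σ (w x)) := by
  unfold ss; rw [prod_range_succ']
  simp only [Nat.cast_zero, add_zero, Nat.cast_add, Nat.cast_one]
  congr 1
  exact prod_congr rfl fun i _ => by rw [add_comm (i : ZMod N), add_assoc]

omit [NeZero N] in
lemma ss_sq (x : ZMod N) (t : ℕ) : ss σ w x t * ss σ w x t = 1 := by
  unfold ss; rw [← prod_mul_distrib]; simp [sgn_sq]

omit [NeZero N] in
lemma ss_add (x : ZMod N) (s t : ℕ) : ss σ w x (s + t) = ss σ w x s * ss σ w (x + s) t := by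
  unfold ss; rw [prod_range_add]
  congr 1
  exact prod_congr rfl fun i _ => by rw [Nat.cast_add, add_assoc]

lemma ss_per {e : ZMod N} (he : Per w e) (x : ZMod N) : ss σ w x e.val = ss σ w 0 e.val := by
  have h1 : ∀ x, ss σ w (x + 1) e.val = ss σ w x e.val := fun x => by
    have a := ss_succ σ w x e.val
    rw [ss_succ', ZMod.natCast_zmod_val, he x] at a
    exact mul_right_cancel₀ (sgn_ne _) a
  have h2 : ∀ t : ℕ, ss σ w t e.val = ss σ w 0 e.val := fun t => by
    induction t with
    | zero => simp
    | succ t ih => rw [Nat.cast_succ, h1, ih]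
  have := h2 x.val
  rwa [ZMod.natCast_zmod_val] at this

noncomputable def rho (g : ZMod N ≃ Fin N) (e x : ZMod N) : ℤ := if g x < g (x + e) then 1 else -1

omit [NeZero N] in
lemma rho_add (g : ZMod N ≃ Fin N) (hc : Comp σ w g) {e : ZMod N} (he : Per w e) (h0 : e ≠ 0)
    (x : ZMod N) (t : ℕ) : rho g e (x + t) = ss σ w x t * rho g e x := by
  have h1 : ∀ x, rho g e (x + 1) = sgn (σ (w x)) * rho g e x := fun x => by
    have hne : g x ≠ g (x + e) := fun h => h0 (by simpa using g.injective h)
    unfold rho sgn
    rw [add_right_comm]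
    rcases lt_or_gt_of_ne hne with h | h
    · have := (hc _ _ h).2 (he x).symm
      rw [if_pos h]
      split_ifs at this ⊢ <;> first | rfl | exact absurd this (by assumption) | exact absurd this (not_lt.2 (le_of_lt (by assumption)))
    · have := (hc _ _ h).2 (he x)
      rw [if_neg (not_lt.2 h.le)]
      rw [he x] at this
      split_ifs at this ⊢ <;> first | rfl | exact absurd this (by assumption) | exact absurd this (not_lt.2 (le_of_lt (by assumption)))
  induction t with
  | zero => simp [ss]
  | succ t ih => rw [Nat.cast_succ, ← add_assoc, h1, ih, ss_succ]; ring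

def HO : Prop := ∃ d : ZMod N, d ≠ 0 ∧ (∀ e, Per w e ↔ e = 0 ∨ e = d) ∧ ss σ w 0 d.val = -1

omit [NeZero N] in
lemma per_sub {a b : ZMod N} (ha : Per w a) (hb : Per w b) : Per w (a - b) := fun x => by
  have := hb (x + (a - b))
  rw [show x + (a - b) + b = x + a by ring, ha x] at this
  exact this.symm

omit [NeZero N] in
lemma per_zero : Per w 0 := fun x => by simp

lemma ho_of (g : ZMod N ≃ Fin N) (hc : Comp σ w g) (hp : ¬ Prim w) : HO σ w := by
  classical
  obtain ⟨d, hd, hd0⟩ : ∃ d, Per w d ∧ d ≠ 0 := by
    by_contra hh; push Not at hh; exact hp hh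
  obtain ⟨x, hx, hmin⟩ := exists_min_image (univ.filter fun e => Per w e) g ⟨d, by simpa using hd⟩
  simp only [mem_filter, mem_univ, true_and] at hx hmin
  have hadd : ∀ e, Per w e → Per w (x + e) := fun e he => by
    have := per_sub w hx (per_sub w (per_zero w) he); simpa using this
  have r1 : ∀ e, Per w e → e ≠ 0 → rho g e x = 1 := fun e he h0 => by
    have hne : g x ≠ g (x + e) := fun h => h0 (by simpa using g.injective h)
    unfold rho; rw [if_pos (lt_of_le_of_ne (hmin _ (hadd e he)) hne)]
  have r2 : ∀ e, Per w e → e ≠ 0 → ss σ w x e.val = -1 := fun e he h0 => by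
    have hn : Per w (0 - e) := per_sub w (per_zero w) he
    have hn0 : 0 - e ≠ 0 := by simpa using h0
    have := rho_add σ w g hc hn hn0 x e.val
    rw [r1 _ hn hn0, mul_one, ZMod.natCast_zmod_val] at this
    rw [← this]; unfold rho
    rw [if_neg]; rw [show x + e + (0 - e) = x by ring]
    exact not_lt.2 (hmin _ (hadd e he))
  have r3 : ∀ e e', Per w e → e ≠ 0 → Per w e' → e' ≠ e → ¬ g (x + e) < g (x + e') := fun e e' he h0 he' h1 => by
    have hn : Per w (e' - e) := per_sub w he' he
    have hn0 : e' - e ≠ 0 := sub_ne_zero.2 h1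
    have := rho_add σ w g hc hn hn0 x e.val
    rw [r1 _ hn hn0, mul_one, ZMod.natCast_zmod_val, r2 e he h0] at this
    unfold rho at this
    rw [show x + e + (e' - e) = x + e' by ring] at this
    intro hh; rw [if_pos hh] at this; omega
  refine ⟨d, hd0, fun e => ⟨fun he => ?_, ?_⟩, by rw [← ss_per σ w hd x]; exact r2 d hd hd0⟩
  · by_contra hh
    push Not at hh
    have a := r3 e d he hh.1 hd (Ne.symm hh.2)
    have b := r3 d e hd hd0 he hh.2
    have := g.injective (le_antisymm (not_lt.1 a) (not_lt.1 b))
    exact hh.2 (add_left_cancel this).symm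
  · rintro (rfl | rfl)
    · exact per_zero w
    · exact hd

lemma ord_ho (h : HO σ w) : ord σ w = 2 := by
  classical
  obtain ⟨d, hd0, hper, hs⟩ := h
  have hd : Per w d := (hper d).2 (Or.inr rfl)
  have hdd : d + d = 0 := by
    have := (hper _).1 (per_sub w (per_zero w) hd)
    rcases this with h | h
    · exact absurd (by simpa using h) hd0
    · rw [← h]; nth_rewrite 1 [h]; ring
  have sN : ∀ t : ℕ, (t : ZMod N) = 0 → ss σ w 0 t = 1 → ∀ s, ss σ w 0 (t + s) = ss σ w 0 s :=
    fun t ht h1 s => by rw [ss_add, h1, ht]; simp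
  have hv : d.val + d.val = N := by
    have h1 : ((d.val + d.val : ℕ) : ZMod N) = 0 := by push_cast; rw [ZMod.natCast_zmod_val, hdd]
    rw [ZMod.natCast_eq_zero_iff] at h1
    obtain ⟨c, hc⟩ := h1
    have h2 := ZMod.val_lt d
    have h3 : d.val ≠ 0 := by simpa using hd0
    rcases c with _ | _ | c
    · omega
    · omega
    · nlinarith
  have sN1 : ss σ w 0 N = 1 := by
    have := ss_add σ w 0 d.val d.val
    rw [hv, ss_per σ w hd (0 + _), hs] at this
    simpa using this
  let p : ZMod N → ℤ := fun x => ss σ w 0 x.val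
  have pn : ∀ t : ℕ, p t = ss σ w 0 t := fun t => by
    simp only [p, ZMod.val_natCast]
    conv_rhs => rw [← Nat.div_add_mod t N]
    generalize t / N = q
    induction q with
    | zero => simp
    | succ q ih => rw [ih, Nat.mul_succ, add_comm (N * q) N, add_assoc, sN N (by simp) sN1]
  have padd : ∀ (x : ZMod N) (t : ℕ), p (x + t) = p x * ss σ w x t := fun x t => by
    have := pn (x.val + t)
    rw [ss_add] at this
    simpa [p] using this
  have p1 : ∀ x, p (x + 1) = p x * sgn (σ (w x)) := fun x => by
    have := padd x 1; simpa [ss] using this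
  have pd : ∀ x, p (x + d) = - p x := fun x => by
    have := padd x d.val
    rw [ZMod.natCast_zmod_val, ss_per σ w hd, hs] at this
    simpa using this
  have psq : ∀ x, p x = 1 ∨ p x = -1 := fun x => mul_self_eq_one_iff.1 (ss_sq σ w 0 x.val)
  have p0 : p 0 = 1 := by simp [p, ss]
  let l : ℤ → ZMod N → Lex (Lex (ℕ → ℤ) × ℤ) := fun ε x => toLex (KK σ w x, ε * p x)
  have tie : ∀ x y, KK σ w x = KK σ w y → y = x ∨ y = x + d := fun x y h => by
    rcases (hper _).1 ((KK_eq σ w).1 h) with h | h
    · exact Or.inl (sub_eq_zero.1 h)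
    · exact Or.inr (by rw [← h]; ring)
  have linj : ∀ ε, ε ≠ 0 → Function.Injective (l ε) := fun ε hε x y h => by
    have h1 := toLex.injective h
    simp only [Prod.mk.injEq] at h1
    rcases tie x y h1.1 with h2 | h2
    · exact h2.symm
    · have := mul_left_cancel₀ hε h1.2
      rw [h2, pd] at this
      rcases psq x with h | h <;> omega
  have lcomp : ∀ ε, Comp σ w (l ε) := fun ε x y h => by
    simp only [l, Prod.Lex.toLex_lt_toLex] at h ⊢
    rcases h with h | ⟨h1, h2⟩
    · obtain ⟨a, b⟩ := K1 σ w x y h
      refine ⟨a, fun he => ?_⟩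
      have := b he
      split_ifs at this ⊢
      · exact Or.inl this
      · exact Or.inl this
    · have hp := (KK_eq σ w).1 h1
      have he : w x = w y := by rw [← hp x]; congr 1; ring
      have h3 : KK σ w (x + 1) = KK σ w (y + 1) := (KK_eq σ w).2 (by simpa using hp)
      refine ⟨he.le, fun _ => ?_⟩
      simp only [p1, ← he, sgn]
      split_ifs
      · exact Or.inr ⟨h3, by simpa using h2⟩
      · exact Or.inr ⟨h3.symm, by simpa using h2⟩
  have k0 : KK σ w 0 = KK σ w d := (KK_eq σ w).2 (by simpa using hd)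
  have pd0 : p d = -1 := by have := pd 0; rwa [zero_add, p0] at this
  obtain ⟨g1, hg1, hu1⟩ := exu (l 1) (linj 1 (by norm_num))
  obtain ⟨g2, hg2, hu2⟩ := exu (l (-1)) (linj (-1) (by norm_num))
  unfold ord
  rw [card_eq_two]
  refine ⟨g1, g2, ?_, ?_⟩
  · rintro rfl
    have a := (hg1 0 d).symm.trans (hg2 0 d)
    simp only [l, Prod.Lex.toLex_lt_toLex, k0, p0, pd0] at a
    simp at a
  · ext g
    simp only [mem_filter, mem_univ, true_and, mem_insert, mem_singleton]
    constructor
    · intro hc
      have hr : ∀ x, rho g d x = p x * rho g d 0 := fun x => by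
        have := rho_add σ w g hc hd hd0 0 x.val
        simpa [p] using this
      have main : ∀ ε, ε ≠ 0 → ε = - rho g d 0 → ∀ x y, g x < g y ↔ l ε x < l ε y := fun ε h0 hε => by
        refine iff_of_imp _ _ (linj ε h0) fun x y h => ?_
        simp only [l, Prod.Lex.toLex_lt_toLex] at h
        rcases h with h | ⟨h1, h2⟩
        · exact K2 σ w g g.injective hc x y h
        · rcases tie x y h1 with h3 | h3
          · rw [h3] at h2; exact absurd h2 (lt_irrefl _)
          · rw [h3, pd, hε] at h2
            have h4 := hr x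
            rw [h3]
            by_contra hh
            have h5 : rho g d x = -1 := by unfold rho; rw [if_neg hh]
            rw [h5] at h4
            nlinarith
      by_cases h5 : g 0 < g (0 + d)
      · exact Or.inr (hu2 g (main (-1) (by norm_num) (by unfold rho; rw [if_pos h5])))
      · exact Or.inl (hu1 g (main 1 (by norm_num) (by unfold rho; rw [if_neg h5]; norm_num)))
    · rintro (rfl | rfl)
      · exact comp_congr σ w _ _ hg1 (lcomp 1)
      · exact comp_congr σ w _ _ hg2 (lcomp (-1))

open Classical in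
lemma ord_eq : ord σ w = (if Prim w then 1 else 0) + 2 * (if HO σ w then 1 else 0) := by
  by_cases h1 : Prim w
  · have : ¬ HO σ w := by
      rintro ⟨d, hd0, hper, -⟩
      exact hd0 (h1 d ((hper d).2 (Or.inr rfl)))
    rw [if_pos h1, if_neg this, ord_prim σ w h1]
  · by_cases h2 : HO σ w
    · rw [if_neg h1, if_pos h2, ord_ho σ w h2]
    · rw [if_neg h1, if_neg h2]
      unfold ord
      rw [card_eq_zero.2]
      rw [filter_eq_empty_iff]
      exact fun g _ hc => h2 (ho_of σ w g hc h1)

end Pool.Agent.H5.CW
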