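import Pool.Agent.H5.CW2
import Pool.Agent.H5.CW3

namespace Pool.Agent.H5.CW
open Finset

variable {N m : ℕ}

def cl (c : Fin (2 * m + 1)) : ℕ := (c.val + 1) / 2

def tau (c : Fin (2 * m + 1)) : Fin (2 * m + 1) :=
  ⟨if c.val = 0 then 0 else if c.val % 2 = 1 then c.val + 1 else c.val - 1, by
    have := c.2; split_ifs <;> omega⟩

lemma tau_tau (c : Fin (2 * m + 1)) : tau (tau c) = c := by
  have h : ∀ a : ℕ, (if (if a = 0 then 0 else if a % 2 = 1 then a + 1 else a - 1) = 0 then 0 else
      if (if a = 0 then 0 else if a % 2 = 1 then a + 1 else a - 1) % 2 = 1 then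
        (if a = 0 then 0 else if a % 2 = 1 then a + 1 else a - 1) + 1 else
        (if a = 0 then 0 else if a % 2 = 1 then a + 1 else a - 1) - 1) = a := by
    intro a; split_ifs <;> first | omega | contradiction
  exact Fin.ext (h c.val)

lemma cl_tau (c : Fin (2 * m + 1)) : cl (tau c) = cl c := by
  simp only [tau, cl]; split_ifs <;> omega

lemma sgn_tau (b : Bool) (c : Fin (2 * m + 1)) (h : cl c ≠ 0) :
    sgn (alt b (2 * m + 1) (tau c)) = - sgn (alt b (2 * m + 1) c) := by
  have h1 : (tau c).val % 2 = 0 ↔ ¬ c.val % 2 = 0 := by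
    simp only [tau, cl] at h ⊢; split_ifs <;> omega
  unfold alt sgn
  by_cases h2 : c.val % 2 = 0 <;> cases b <;> simp [h1, h2]

def QQ (v : ZMod N → ℕ) : AddSubgroup (ZMod N) where
  carrier := {e | ∀ x, v (x + e) = v x}
  zero_mem' := fun x => by simp
  add_mem' := fun {a b} ha hb x => by rw [← add_assoc, hb, ha]
  neg_mem' := fun {a} ha x => by rw [← ha (x + -a)]; simp

noncomputable def x0 (v : ZMod N → ℕ) : ZMod N := Classical.epsilon fun x => v x ≠ 0

open Classical in
noncomputable def iota (w : ZMod N → Fin (2 * m + 1)) : ZMod N → Fin (2 * m + 1) := fun x =>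
  if x - x0 (fun y => cl (w y)) ∈ QQ (fun y => cl (w y)) then tau (w x) else w x

lemma cl_iota (w : ZMod N → Fin (2 * m + 1)) : (fun y => cl (iota w y)) = fun y => cl (w y) := by
  funext y; unfold iota; split_ifs
  · exact cl_tau _
  · rfl

lemma iota_inv : Function.Involutive (iota (N := N) (m := m)) := by
  intro w; funext x
  rw [iota, cl_iota, iota]
  split_ifs
  · exact tau_tau _
  · rfl

lemma per_Q {w : ZMod N → Fin (2 * m + 1)} {e : ZMod N} (h : Per w e) : e ∈ QQ (fun y => cl (w y)) :=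
  fun x => by simp only [h x]

lemma per_iota {w : ZMod N → Fin (2 * m + 1)} {e : ZMod N} (h : Per w e) : Per (iota w) e := by
  intro x
  unfold iota
  have : x + e - x0 (fun y => cl (w y)) ∈ QQ (fun y => cl (w y)) ↔
      x - x0 (fun y => cl (w y)) ∈ QQ (fun y => cl (w y)) := by
    rw [add_sub_right_comm]; exact (QQ _).add_mem_cancel_right (per_Q h)
  rw [h x]
  by_cases hh : x - x0 (fun y => cl (w y)) ∈ QQ (fun y => cl (w y))
  · rw [if_pos hh, if_pos (this.2 hh)]
  · rw [if_neg hh, if_neg (fun h => hh (this.1 h))]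

lemma per_iota_iff (w : ZMod N → Fin (2 * m + 1)) (e : ZMod N) : Per (iota w) e ↔ Per w e :=
  ⟨fun h => by have := per_iota h; rwa [iota_inv w] at this, per_iota⟩

variable [NeZero N]

lemma sum_zmod (f : ZMod N → ℕ) : ∑ x, f x = ∑ i ∈ range N, f i := by
  refine sum_nbij' (fun x => x.val) (fun i => (i : ZMod N)) ?_ ?_ ?_ ?_ ?_
  · intro x _; simpa using ZMod.val_lt x
  · intro i _; simp
  · intro x _; simp
  · intro i hi; simp only [ZMod.val_natCast]; exact Nat.mod_eq_of_lt (by simpa using hi)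
  · intro x _; simp

lemma half_val {k : ℕ} {w : ZMod N → Fin k} {d : ZMod N} (hd0 : d ≠ 0) (hper : ∀ e, Per w e ↔ e = 0 ∨ e = d) :
    d.val + d.val = N := by
  have hd : Per w d := (hper d).2 (Or.inr rfl)
  have hdd : d + d = 0 := by
    have := (hper _).1 (per_sub w (per_zero w) hd)
    rcases this with h | h
    · exact absurd (by simpa using h) hd0
    · rw [← h]; nth_rewrite 1 [h]; ring
  have h1 : ((d.val + d.val : ℕ) : ZMod N) = 0 := by push_cast; rw [ZMod.natCast_zmod_val, hdd]
  rw [ZMod.natCast_eq_zero_iff] at h1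
  obtain ⟨c, hc⟩ := h1
  have h2 := ZMod.val_lt d
  have h3 : d.val ≠ 0 := by simpa using hd0
  rcases c with _ | _ | c
  · omega
  · omega
  · nlinarith

lemma ss_iota (hN : 3 ≤ N) (b : Bool) {w : ZMod N → Fin (2 * m + 1)} {d : ZMod N} (hd0 : d ≠ 0)
    (hper : ∀ e, Per w e ↔ e = 0 ∨ e = d) (hodd : d.val % 2 = 1) :
    ss (alt b (2 * m + 1)) (iota w) 0 d.val = - ss (alt b (2 * m + 1)) w 0 d.val := by
  classical
  have hv := half_val hd0 hper
  set v : ZMod N → ℕ := fun y => cl (w y) with hvdef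
  have hex : ∃ x, v x ≠ 0 := by
    by_contra hh
    push Not at hh
    have h0 : ∀ x, w x = 0 := fun x => by
      have := hh x; simp only [hvdef, cl] at this; exact Fin.ext (by rw [Fin.val_zero]; omega)
    have h1 : (1 : ZMod N).val = 1 := by
      have : Fact (1 < N) := ⟨by omega⟩
      exact ZMod.val_one N
    rcases (hper 1).1 (fun x => by rw [h0, h0]) with h | h
    · rw [h] at h1; simp at h1
    · rw [← h, h1] at hv; omega
  have hx0 : v (x0 v) ≠ 0 := Classical.epsilon_spec hex
  have step : ss (alt b (2 * m + 1)) (iota w) 0 d.val =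
      (∏ i ∈ range d.val, if ((i : ZMod N) - x0 v ∈ QQ v) then (-1 : ℤ) else 1) *
        ss (alt b (2 * m + 1)) w 0 d.val := by
    unfold ss
    rw [← prod_mul_distrib]
    refine prod_congr rfl fun i _ => ?_
    simp only [zero_add, iota, ← hvdef]
    split_ifs with h
    · rw [sgn_tau]; · ring
      have := h (x0 v)
      rw [add_sub_cancel] at this
      exact fun hh => hx0 (this ▸ hh)
    · ring
  rw [step, prod_ite, prod_const, prod_const_one, mul_one]
  set a := ((range d.val).filter fun i : ℕ => (i : ZMod N) - x0 v ∈ QQ v).card with ha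
  have hcard : Nat.card (QQ v) = a + a := by
    have e1 : Nat.card (QQ v) = ∑ x : ZMod N, if x ∈ QQ v then 1 else 0 := by
      rw [← card_filter, Nat.card_eq_fintype_card, Fintype.card_subtype]
    have e2 : (∑ x : ZMod N, if x ∈ QQ v then 1 else 0) =
        ∑ x : ZMod N, if x - x0 v ∈ QQ v then 1 else 0 :=
      ((Equiv.subRight (x0 v)).sum_comp (fun x => if x ∈ QQ v then 1 else 0)).symm
    rw [e1, e2, sum_zmod]
    have e3 : range N = range (d.val + d.val) := by rw [hv]
    rw [e3, sum_range_add, ha, card_filter]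
    congr 1
    refine sum_congr rfl fun i _ => ?_
    have : ((d.val + i : ℕ) : ZMod N) - x0 v ∈ QQ v ↔ (i : ZMod N) - x0 v ∈ QQ v := by
      push_cast
      rw [ZMod.natCast_zmod_val, add_sub_assoc]
      exact (QQ v).add_mem_cancel_left (per_Q ((hper d).2 (Or.inr rfl)))
    simp only [this]
  have hdvd : Nat.card (QQ v) ∣ Nat.card (ZMod N) := AddSubgroup.card_addSubgroup_dvd_card _
  rw [hcard, Nat.card_zmod] at hdvd
  have h2 : a ∣ d.val := by
    have : 2 * a ∣ 2 * d.val := by rw [two_mul, two_mul, hv]; exact hdvd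
    exact Nat.dvd_of_mul_dvd_mul_left (by norm_num) this
  have h3 : Odd a := Odd.of_dvd_nat (Nat.odd_iff.2 hodd) h2
  rw [h3.neg_one_pow]; ring

omit [NeZero N] in
lemma ss_flip (b : Bool) (k : ℕ) (w : ZMod N → Fin k) (t : ℕ) :
    ss (alt (!b) k) w 0 t = (-1) ^ t * ss (alt b k) w 0 t := by
  induction t with
  | zero => simp [ss]
  | succ t ih =>
    rw [ss_succ, ss_succ, ih, pow_succ]
    have : ∀ c, sgn (alt (!b) k c) = - sgn (alt b k c) := fun c => by
      unfold alt sgn; split_ifs <;> cases b <;> simp_all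
    rw [this]; ring

lemma ho_even (hN : N % 4 ≠ 2) (b : Bool) (k : ℕ) (w : ZMod N → Fin k) (h : HO (alt b k) w) :
    HO (alt (!b) k) w := by
  obtain ⟨d, hd0, hper, hs⟩ := h
  have hv := half_val hd0 hper
  refine ⟨d, hd0, hper, ?_⟩
  rw [ss_flip, hs, (Nat.even_iff.2 (by omega) : Even d.val).neg_one_pow]; ring

lemma ho_odd (h3 : 3 ≤ N) (hN : N % 4 = 2) (b : Bool) (w : ZMod N → Fin (2 * m + 1))
    (h : HO (alt b (2 * m + 1)) w) : HO (alt (!b) (2 * m + 1)) (iota w) := by
  obtain ⟨d, hd0, hper, hs⟩ := h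
  have hv := half_val hd0 hper
  refine ⟨d, hd0, fun e => by rw [per_iota_iff, hper], ?_⟩
  rw [ss_iota h3 _ hd0 hper (by omega), ss_flip, hs,
    (Nat.odd_iff.2 (by omega) : Odd d.val).neg_one_pow]; ring

lemma sum_ord (h3 : 3 ≤ N) : ∑ w : ZMod N → Fin (2 * m + 1), ord (alt true (2 * m + 1)) w =
    ∑ w : ZMod N → Fin (2 * m + 1), ord (alt false (2 * m + 1)) w := by
  classical
  simp only [ord_eq, sum_add_distrib, ← mul_sum]
  congr 2
  by_cases hN : N % 4 = 2
  · rw [← Equiv.sum_comp (iota_inv.toPerm)]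
    refine sum_congr rfl fun w _ => ?_
    have : HO (alt true (2 * m + 1)) (iota w) ↔ HO (alt false (2 * m + 1)) w :=
      ⟨fun h => by have := ho_odd h3 hN true _ h; rwa [iota_inv w] at this,
        fun h => ho_odd h3 hN false _ h⟩
    simp only [Function.Involutive.coe_toPerm, this]
  · refine sum_congr rfl fun w _ => ?_
    have : HO (alt true (2 * m + 1)) w ↔ HO (alt false (2 * m + 1)) w :=
      ⟨ho_even hN true _ w, ho_even hN false _ w⟩
    simp only [this]

def pig (g : ZMod N ≃ Fin N) : Equiv.Perm (Fin N) := g.permCongr (Equiv.addRight 1)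

omit [NeZero N] in
lemma pig_apply (g : ZMod N ≃ Fin N) (x : ZMod N) : pig g (g x) = g (x + 1) := by simp [pig]

lemma pig_cyc (g : ZMod N ≃ Fin N) : Cyc (pig g) := by
  have h : ∀ (t : ℕ) (x : ZMod N), (pig g ^ t) (g x) = g (x + t) := by
    intro t
    induction t with
    | zero => simp
    | succ t ih => intro x; rw [pow_succ', Equiv.Perm.mul_apply, ih, pig_apply, Nat.cast_succ, add_assoc]
  intro a b
  refine ⟨((g.symm b - g.symm a).val : ℕ), ?_⟩
  have := h (g.symm b - g.symm a).val (g.symm a)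
  rw [zpow_natCast]
  simpa using this

omit [NeZero N] in
lemma cyc_facts (h3 : 3 ≤ N) (π : Equiv.Perm (Fin N)) (h : Cyc π) : π.IsCycle ∧ π.support = univ := by
  have nf : ∀ x, π x ≠ x := fun x hx => by
    have : Nontrivial (Fin N) := Fin.nontrivial_iff_two_le.2 (by omega)
    obtain ⟨y, hy⟩ := exists_ne x
    exact hy ((h x y).eq_of_left hx).symm
  exact ⟨⟨⟨0, by omega⟩, nf _, fun y _ => h _ y⟩, by ext x; simp [nf x]⟩

lemma exists_pig (h3 : 3 ≤ N) (π : Equiv.Perm (Fin N)) (h : Cyc π) : ∃ g, pig g = π := by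
  let g0 : ZMod N ≃ Fin N := Fintype.equivFinOfCardEq (ZMod.card N)
  obtain ⟨a1, a2⟩ := cyc_facts h3 _ (pig_cyc g0)
  obtain ⟨b1, b2⟩ := cyc_facts h3 _ h
  obtain ⟨c, hc⟩ := isConj_iff.1 (a1.isConj b1 (by rw [a2, b2]))
  refine ⟨g0.trans c, ?_⟩
  rw [← hc]; ext x; simp [pig]

open Classical in
lemma sum_seg (h3 : 3 ≤ N) {k : ℕ} (σ : Fin k → Bool) : ∑ w : ZMod N → Fin k, ord σ w =
    (univ.filter fun e : Equiv.Perm (ZMod N) => ∀ x, e (x + 1) = e x + 1).card *
      ∑ π ∈ univ.filter (fun π : Equiv.Perm (Fin N) => Cyc π), seg σ π := by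
  have h1 : ∑ w : ZMod N → Fin k, ord σ w = ∑ g : ZMod N ≃ Fin N, seg σ (pig g) := by
    simp only [ord, card_filter]
    rw [sum_comm]
    refine sum_congr rfl fun g _ => ?_
    unfold seg
    rw [← (Equiv.arrowCongr g.symm (Equiv.refl (Fin k))).sum_comp]
    refine sum_congr rfl fun f _ => ?_
    have : Comp σ (Equiv.arrowCongr g.symm (Equiv.refl (Fin k)) f) g ↔ Lab σ (pig g) f := by
      constructor
      · intro h a b hab
        have := h (g.symm a) (g.symm b) (by simpa using hab)
        simpa [Rel, pig] using this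
      · intro h x y hxy
        have := h (g x) (g y) hxy
        simpa [Rel, pig] using this
    simp only [this]
  rw [h1, sum_comp (seg σ) pig, mul_sum]
  have h2 : univ.image (pig (N := N)) = univ.filter (fun π : Equiv.Perm (Fin N) => Cyc π) := by
    ext π
    simp only [mem_image, mem_univ, true_and, mem_filter]
    exact ⟨fun ⟨g, hg⟩ => hg ▸ pig_cyc g, exists_pig h3 π⟩
  rw [← h2]
  refine sum_congr rfl fun π hπ => ?_
  obtain ⟨g1, -, rfl⟩ := mem_image.1 hπ
  rw [smul_eq_mul]
  congr 1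
  refine card_nbij' (fun g => g.trans g1.symm) (fun e => e.trans g1) ?_ ?_ ?_ ?_
  · intro g hg
    simp only [coe_filter, mem_univ, true_and, Set.mem_ofPred_eq] at hg ⊢
    intro x
    have := pig_apply g x
    rw [hg] at this
    simp only [Equiv.trans_apply, ← this]
    simp [pig]
  · intro e he
    simp only [coe_filter, mem_univ, true_and, Set.mem_ofPred_eq] at he ⊢
    ext y
    obtain ⟨x, rfl⟩ := (e.trans g1).surjective y
    rw [pig_apply]
    simp only [Equiv.trans_apply, pig_apply, he]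
  · intro g _; ext x; simp
  · intro e _; ext x; simp

open Classical in
lemma sum_seg_eq (h3 : 3 ≤ N) :
    ∑ π ∈ univ.filter (fun π : Equiv.Perm (Fin N) => Cyc π), seg (alt true (2 * m + 1)) π =
      ∑ π ∈ univ.filter (fun π : Equiv.Perm (Fin N) => Cyc π), seg (alt false (2 * m + 1)) π := by
  have h := sum_ord (N := N) (m := m) h3
  rw [sum_seg h3, sum_seg h3] at h
  refine Nat.eq_of_mul_eq_mul_left (card_pos.2 ⟨1, ?_⟩) h
  simp

omit [NeZero N] in
open Classical in
lemma cycCount_eq (b : Bool) (m l : ℕ) : cycCount (alt b (2 * m + 1)) (l + 1) =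
    ((univ.filter (fun π : Equiv.Perm (Fin (l + 1)) => Cyc π)).filter fun π => rr (stp b π) ≤ m).card := by
  unfold cycCount
  rw [Nat.card_eq_fintype_card, Fintype.card_subtype, filter_filter]
  congr 1
  ext π
  simp only [mem_filter, mem_univ, true_and, ← seg_pos, seg_eq, tot_pos]

omit [NeZero N] in
theorem main (k : ℕ) (hk : Odd k) (h5 : 5 ≤ k) (n : ℕ) (hn : 1 ≤ n) :
    cycCount (alt true k) n = cycCount (alt false k) n := by
  classical
  obtain ⟨m, rfl⟩ := hk
  obtain ⟨l, rfl⟩ : ∃ l, n = l + 1 := ⟨n - 1, by omega⟩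
  rw [cycCount_eq, cycCount_eq]
  have hlen : ∀ (b : Bool) (π : Equiv.Perm (Fin (l + 1))), (stp b π).length = l := fun b π => by simp [stp]
  by_cases h3 : 3 ≤ l + 1
  · refine deduce _ _ _ (fun m π => seg (alt true (2 * m + 1)) π) (fun m π => seg (alt false (2 * m + 1)) π)
      (fun m r => Phi m l r) ?_ ?_ ?_ ?_ (fun m => sum_seg_eq h3) m
    · intro m π; rw [seg_eq, tot_eq, hlen]
    · intro m π; rw [seg_eq, tot_eq, hlen]
    · intro m π; rw [seg_eq, tot_pos]
    · intro m π; rw [seg_eq, tot_pos]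
  · have : ∀ (b : Bool) (π : Equiv.Perm (Fin (l + 1))), rr (stp b π) ≤ m := fun b π => by
      have := tt_le (stp b π)
      rw [hlen] at this
      unfold rr; omega
    simp only [this]

end Pool.Agent.H5.CW
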