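import Mathlib

set_option autoImplicit false
set_option linter.unusedSectionVars false

namespace Pool.Agent.H5.Can1

/-- an equivalence relation on placed words that depends only on the order type of the pair -/
structure Sys (α : Type) where
  z : α
  T : List (α × α) → Prop
  refl : ∀ w : List α, T (w.map fun a => (a, a))
  symm : ∀ t, T t → T (t.map Prod.swap)
  trans : ∀ L : List (α × α × α), T (L.map fun c => (c.1, c.2.1)) →
    T (L.map fun c => (c.2.1, c.2.2)) → T (L.map fun c => (c.1, c.2.2))
  zero : ∀ A B, T (A ++ (z, z) :: B) ↔ T (A ++ B)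

variable {α : Type} [DecidableEq α] (S : Sys α)

def dg (w : List α) : List (α × α) := w.map fun a => (a, a)
def nz (z : α) (w : List α) : List α := w.filter (· ≠ z)
def w1 (z : α) (t : List (α × α)) : List α := nz z (t.map Prod.fst)
def w2 (z : α) (t : List (α × α)) : List α := nz z (t.map Prod.snd)
def cz (z : α) (t : List (α × α)) : List (α × α) := t.filter (· ≠ (z, z))

@[simp] theorem dg_nil : dg ([] : List α) = [] := rfl
@[simp] theorem dg_cons (a : α) (w : List α) : dg (a :: w) = (a, a) :: dg w := rfl
@[simp] theorem dg_append (u w : List α) : dg (u ++ w) = dg u ++ dg w := by simp [dg]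
@[simp] theorem nz_nil (z : α) : nz z [] = [] := rfl
@[simp] theorem nz_append (z : α) (u w : List α) : nz z (u ++ w) = nz z u ++ nz z w := by simp [nz]
theorem nz_cons (z a : α) (w : List α) : nz z (a :: w) = if a = z then nz z w else a :: nz z w := by
  unfold nz; rw [List.filter_cons]; by_cases h : a = z <;> simp [h]
@[simp] theorem nz_nz (z : α) (w : List α) : nz z (nz z w) = nz z w := by simp [nz]
@[simp] theorem cz_nil (z : α) : cz z [] = [] := rfl
@[simp] theorem cz_append (z : α) (u w : List (α × α)) : cz z (u ++ w) = cz z u ++ cz z w := by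
  simp [cz]
theorem cz_cons (z : α) (a : α × α) (w : List (α × α)) :
    cz z (a :: w) = if a = (z, z) then cz z w else a :: cz z w := by
  unfold cz; rw [List.filter_cons]; by_cases h : a = (z, z) <;> simp [h]
@[simp] theorem w1_nil (z : α) : w1 z [] = [] := rfl
@[simp] theorem w2_nil (z : α) : w2 z [] = [] := rfl
@[simp] theorem w1_append (z : α) (u w : List (α × α)) : w1 z (u ++ w) = w1 z u ++ w1 z w := by
  simp [w1]
@[simp] theorem w2_append (z : α) (u w : List (α × α)) : w2 z (u ++ w) = w2 z u ++ w2 z w := by
  simp [w2]
theorem w1_cons (z a b : α) (w : List (α × α)) :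
    w1 z ((a, b) :: w) = if a = z then w1 z w else a :: w1 z w := nz_cons _ _ _
theorem w2_cons (z a b : α) (w : List (α × α)) :
    w2 z ((a, b) :: w) = if b = z then w2 z w else b :: w2 z w := nz_cons _ _ _
@[simp] theorem w1_swap (z : α) (t : List (α × α)) : w1 z (t.map Prod.swap) = w2 z t := by
  simp [w1, w2, Function.comp_def]
@[simp] theorem w2_swap (z : α) (t : List (α × α)) : w2 z (t.map Prod.swap) = w1 z t := by
  simp [w1, w2, Function.comp_def]
@[simp] theorem nz_w1 (z : α) (t : List (α × α)) : nz z (w1 z t) = w1 z t := nz_nz _ _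
@[simp] theorem nz_w2 (z : α) (t : List (α × α)) : nz z (w2 z t) = w2 z t := nz_nz _ _
theorem cz_dg (z : α) (w : List α) : cz z (dg w) = dg (nz z w) := by
  induction w with
  | nil => rfl
  | cons a w ih => rw [dg_cons, cz_cons, nz_cons]; by_cases h : a = z <;> simp [h, ih]
theorem cz_zero {β : Type} (z : α) (l : List β) : cz z (l.map fun _ => (z, z)) = [] := by
  simp [cz]
theorem nz_zero {β : Type} (z : α) (l : List β) : nz z (l.map fun _ => z) = [] := by
  simp [nz]
@[simp] theorem dg_swap (w : List α) : (dg w).map Prod.swap = dg w := by simp [dg]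

theorem T_cz' (t : List (α × α)) : ∀ A, S.T (A ++ t) ↔ S.T (A ++ cz S.z t) := by
  induction t with
  | nil => simp
  | cons a t ih =>
    intro A
    rw [cz_cons]
    split_ifs with h
    · rw [h, S.zero, ih]
    · have := ih (A ++ [a]); simpa using this

theorem T_congr {t t' : List (α × α)} (h : cz S.z t = cz S.z t') (ht : S.T t) : S.T t' := by
  have a := T_cz' S t []
  have b := T_cz' S t' []
  simp only [List.nil_append] at a b
  rw [b, ← h, ← a]; exact ht

theorem trans' {β : Type} (L : List β) (f g h : β → α) (h1 : S.T (L.map fun c => (f c, g c)))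
    (h2 : S.T (L.map fun c => (g c, h c))) : S.T (L.map fun c => (f c, h c)) := by
  have := S.trans (L.map fun c => (f c, g c, h c)) (by simpa [Function.comp_def] using h1)
    (by simpa [Function.comp_def] using h2)
  simpa [Function.comp_def] using this

def Vis (A : List α) (a : α) (B : List α) : Prop :=
  ¬ S.T (dg A ++ (a, S.z) :: (S.z, a) :: dg B)

theorem vis_congr {A A' B B' : List α} {a : α} (hA : nz S.z A = nz S.z A')
    (hB : nz S.z B = nz S.z B') (h : Vis S A a B) : Vis S A' a B' := by
  intro h'
  apply h
  refine T_congr S ?_ h'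
  simp only [cz_append, cz_cons, cz_dg, hA, hB]

theorem vis_ne {A B : List α} {a : α} (h : Vis S A a B) : a ≠ S.z := by
  rintro rfl
  apply h
  have := S.refl (A ++ S.z :: S.z :: B)
  simpa [dg] using this

theorem first_col (z a : α) (w : List α) : ∀ t : List (α × α), w2 z t = a :: w →
    ∃ C a' D, t = C ++ (a', a) :: D ∧ (∀ c ∈ C, c.2 = z) ∧ w2 z D = w := by
  intro t
  induction t with
  | nil => simp
  | cons c t ih =>
    obtain ⟨p, q⟩ := c
    rw [w2_cons]
    split_ifs with h
    · intro e
      obtain ⟨C, a', D, e1, e2, e3⟩ := ih e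
      refine ⟨(p, q) :: C, a', D, by simp [e1], ?_, e3⟩
      intro c hc
      rcases List.mem_cons.1 hc with rfl | hc
      · exact h
      · exact e2 c hc
    · intro e
      obtain ⟨rfl, e'⟩ := List.cons.inj e
      exact ⟨[], p, t, rfl, by simp, e'⟩

theorem move (B : List α) (n : ℕ) : ∀ (t : List (α × α)) (A : List α), t.length ≤ n →
    w1 S.z t = w2 S.z t → (∀ u a v, w1 S.z t = u ++ a :: v → ¬ Vis S (A ++ u) a (v ++ B)) →
    S.T (dg A ++ t ++ dg B) := by
  induction n with
  | zero =>
    intro t A hl _ _
    have : t = [] := List.length_eq_zero_iff.1 (by omega)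
    subst this
    simpa [dg] using S.refl (A ++ B)
  | succ n ih =>
    have key : ∀ (a : α) (t : List (α × α)) (A : List α), a ≠ S.z → t.length ≤ n →
        a :: w1 S.z t = w2 S.z t →
        (∀ u b v, a :: w1 S.z t = u ++ b :: v → ¬ Vis S (A ++ u) b (v ++ B)) →
        S.T (dg A ++ (a, S.z) :: t ++ dg B) := by
      intro a t A ha hl e hv
      obtain ⟨C, a', D, rfl, hC, hD⟩ := first_col S.z a _ t e.symm
      have hC2 : w2 S.z C = [] := by
        simp only [w2, nz, List.filter_eq_nil_iff, List.mem_map]
        rintro x ⟨c, hc, rfl⟩; simp [hC c hc]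
      have h1 := ih (C ++ (a', S.z) :: D) (A ++ [a]) (by simpa using hl)
        (by rw [w2_append, w2_cons, hC2, hD]; simp [w1_cons])
        (by
          intro u b v huv
          have := hv (a :: u) b v (by rw [List.cons_append, ← huv]; simp [w1_cons])
          simpa using this)
      have h2 := hv [] a _ rfl
      rw [← hD] at h2
      have h3 : ¬ Vis S A a (D.map Prod.snd ++ B) := fun h => h2 (vis_congr S (by simp)
        (by simp [w2]) h)
      have := trans' S (A.map (fun x => (x, x, x)) ++ (a, a, S.z) :: C.map (fun c => (c.1, c.2, c.2)) ++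
        (a', S.z, a) :: D.map (fun c => (c.1, c.2, c.2)) ++ B.map (fun x => (x, x, x)))
        (fun c => c.1) (fun c => c.2.1) (fun c => c.2.2)
        (by simpa [Function.comp_def, dg] using h1)
        (by
          refine T_congr S ?_ (not_not.1 h3)
          have : C.map (fun c => (c.2, c.2)) = C.map (fun _ => (S.z, S.z)) :=
            List.map_congr_left (fun c hc => by rw [hC c hc])
          simp [Function.comp_def, dg, cz_cons, this, cz_zero, -List.map_const'])
      simpa [Function.comp_def, dg] using this
    intro t A hl e hv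
    rcases t with _ | ⟨⟨a, b⟩, t⟩
    · simpa [dg] using S.refl (A ++ B)
    have hl' : t.length ≤ n := by simpa using hl
    rw [w1_cons, w2_cons] at e
    simp only [w1_cons] at hv
    by_cases ha : a = S.z <;> by_cases hb : b = S.z
    · simp only [ha, hb, if_true] at e hv ⊢
      rw [List.append_assoc, List.cons_append, S.zero, ← List.append_assoc]
      exact ih t A hl' e hv
    · simp only [ha, hb, if_true, if_false] at e hv ⊢
      have := S.symm _ (key b (t.map Prod.swap) A hb (by simpa using hl') (by simp [e])
        (by simpa [e] using hv))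
      simpa [Function.comp_def] using this
    · simp only [ha, hb, if_true, if_false] at e hv ⊢
      exact key a t A ha hl' e hv
    · simp only [ha, hb, if_false] at e hv
      obtain ⟨rfl, e'⟩ := List.cons.inj e
      have := ih t (A ++ [a]) hl' e' (by
        intro u c v huv
        have := hv (a :: u) c v (by simp [huv])
        simpa using this)
      simpa using this

theorem vis_tr {t1 t2 : List (α × α)} {a b : α} (h : S.T (t1 ++ (a, b) :: t2))
    (hv : Vis S (w1 S.z t1) a (w1 S.z t2)) : Vis S (w2 S.z t1) b (w2 S.z t2) := by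
  by_contra hb
  have hb' : ¬ Vis S (t1.map Prod.snd) b (t2.map Prod.snd) := fun h' =>
    hb (vis_congr S (by simp [w2]) (by simp [w2]) h')
  apply vis_congr S (A' := t1.map Prod.fst) (B' := t2.map Prod.fst) (by simp [w1]) (by simp [w1]) hv
  set L := t1.map (fun p => (p.1, p.2, p.2, p.1)) ++ (a, b, S.z, S.z) :: (S.z, S.z, b, a) ::
    t2.map (fun p => (p.1, p.2, p.2, p.1)) with hL
  have e1 : S.T (L.map fun c => (c.1, c.2.1)) := by
    refine T_congr S ?_ h
    simp [hL, Function.comp_def, cz_cons]
  have e2 : S.T (L.map fun c => (c.2.1, c.2.2.1)) := by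
    simpa [hL, Function.comp_def, dg] using not_not.1 hb'
  have e3 : S.T (L.map fun c => (c.2.2.1, c.2.2.2)) := by
    refine T_congr S ?_ (S.symm _ h)
    have : (fun x : α × α => (x.2, x.1)) = Prod.swap := rfl
    simp [hL, Function.comp_def, cz_cons, this]
  have := trans' S L _ _ _ (trans' S L _ _ _ e1 e2) e3
  simpa [hL, Function.comp_def, dg] using this

end Pool.Agent.H5.Can1
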