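import Pool.Agent.H5.Can1

set_option autoImplicit false
set_option linter.unusedSectionVars false

namespace Pool.Agent.H5.Can1

variable {α : Type} [DecidableEq α] (S : Sys α)

def PV (w : List α) (j : ℕ) : Prop := ∃ A a B, w = A ++ a :: B ∧ A.length = j ∧ Vis S A a B
def Non (w : List α) : Prop := ∀ j, ¬ PV S w j
def Two (w : List α) : Prop := ∃ i j, i ≠ j ∧ PV S w i ∧ PV S w j
def Only (w : List α) (i : ℕ) : Prop := ∀ j, PV S w j → j = i
def Eqw (x y : List α) : Prop := ∃ t, w1 S.z t = x ∧ w2 S.z t = y ∧ S.T t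

theorem pv_iff {A B : List α} {a : α} : PV S (A ++ a :: B) A.length ↔ Vis S A a B := by
  constructor
  · rintro ⟨A', a', B', e, hl, hv⟩
    obtain ⟨rfl, e2⟩ := List.append_inj e hl.symm
    obtain ⟨rfl, rfl⟩ := List.cons.inj e2
    exact hv
  · intro h; exact ⟨A, a, B, rfl, rfl, h⟩

theorem eqw_symm {x y : List α} (h : Eqw S x y) : Eqw S y x := by
  obtain ⟨t, e1, e2, h⟩ := h
  exact ⟨t.map Prod.swap, by simpa using e2, by simpa using e1, S.symm _ h⟩

theorem split_col (z a : α) (B : List α) : ∀ (t : List (α × α)) (A : List α),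
    w1 z t = A ++ a :: B → ∃ t1 b t2, t = t1 ++ (a, b) :: t2 ∧ w1 z t1 = A ∧ w1 z t2 = B := by
  intro t
  induction t with
  | nil => simp
  | cons c t ih =>
    obtain ⟨p, q⟩ := c
    intro A
    rw [w1_cons]
    split_ifs with h
    · intro e
      obtain ⟨t1, b, t2, e1, e2, e3⟩ := ih A e
      exact ⟨(p, q) :: t1, b, t2, by simp [e1], by simp [w1_cons, h, e2], e3⟩
    · rcases A with _ | ⟨a', A⟩
      · intro e
        obtain ⟨rfl, e'⟩ := List.cons.inj e
        exact ⟨[], q, t, rfl, rfl, e'⟩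
      · intro e
        obtain ⟨rfl, e'⟩ := List.cons.inj e
        obtain ⟨t1, b, t2, e1, e2, e3⟩ := ih A e'
        exact ⟨(p, q) :: t1, b, t2, by simp [e1], by simp [w1_cons, h, e2], e3⟩

theorem pv_tr {t1 t2 : List (α × α)} {a b : α} (h : S.T (t1 ++ (a, b) :: t2)) (ha : a ≠ S.z)
    (hv : PV S (w1 S.z (t1 ++ (a, b) :: t2)) (w1 S.z t1).length) :
    b ≠ S.z ∧ PV S (w2 S.z (t1 ++ (a, b) :: t2)) (w2 S.z t1).length := by
  rw [w1_append, w1_cons, if_neg ha, pv_iff] at hv
  have := vis_tr S h hv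
  have hb := vis_ne S this
  refine ⟨hb, ?_⟩
  rw [w2_append, w2_cons, if_neg hb, pv_iff]
  exact this

theorem pv_split {t : List (α × α)} {i : ℕ} (h : S.T t) (hv : PV S (w1 S.z t) i) :
    ∃ t1 a b t2, t = t1 ++ (a, b) :: t2 ∧ (w1 S.z t1).length = i ∧ a ≠ S.z ∧ b ≠ S.z ∧
      PV S (w2 S.z t) (w2 S.z t1).length := by
  obtain ⟨A, a, B, e, rfl, hv'⟩ := id hv
  obtain ⟨t1, b, t2, rfl, rfl, rfl⟩ := split_col S.z a B t A e
  have := pv_tr S h (vis_ne S hv') hv
  exact ⟨t1, a, b, t2, rfl, rfl, vis_ne S hv', this.1, this.2⟩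

theorem non_tr {x y : List α} (h : Eqw S x y) (hy : Non S y) : Non S x := by
  obtain ⟨t, rfl, rfl, h⟩ := h
  intro i hi
  obtain ⟨t1, a, b, t2, -, -, -, -, hp⟩ := pv_split S h hi
  exact hy _ hp

theorem split_uniq (z : α) {t1 t2 s1 s2 : List (α × α)} {a b a' b' : α}
    (e : t1 ++ (a, b) :: t2 = s1 ++ (a', b') :: s2) (hb : b ≠ z) (hb' : b' ≠ z)
    (hl : (w2 z t1).length = (w2 z s1).length) : t1 = s1 := by
  rcases List.append_eq_append_iff.1 e with ⟨u, rfl, e2⟩ | ⟨u, rfl, e2⟩
  · rcases u with _ | ⟨c, u⟩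
    · simp
    · obtain ⟨rfl, -⟩ := List.cons.inj e2
      simp [w2_cons, hb] at hl
  · rcases u with _ | ⟨c, u⟩
    · simp
    · obtain ⟨rfl, -⟩ := List.cons.inj e2
      simp [w2_cons, hb'] at hl

theorem two_tr {x y : List α} (h : Eqw S x y) (hx : Two S x) : Two S y := by
  obtain ⟨t, rfl, rfl, h⟩ := h
  obtain ⟨i, j, hij, hi, hj⟩ := hx
  obtain ⟨t1, a, b, t2, e1, rfl, -, hb, hp⟩ := pv_split S h hi
  obtain ⟨s1, a', b', s2, e2, rfl, -, hb', hq⟩ := pv_split S h hj
  refine ⟨_, _, fun hl => hij ?_, hp, hq⟩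
  rw [split_uniq S.z (e1.symm.trans e2) hb hb' hl]

theorem only_of {x : List α} {i : ℕ} (h : ¬ Two S x) (hi : PV S x i) : Only S x i := by
  intro j hj
  by_contra hne
  exact h ⟨j, i, hne, hj, hi⟩

theorem same_none {t : List (α × α)} (e : w1 S.z t = w2 S.z t) (h : Non S (w1 S.z t)) :
    S.T t := by
  have := move S [] t.length t [] le_rfl e (by
    intro u a v huv hv
    apply h u.length
    rw [huv, pv_iff]
    simpa using hv)
  simpa using this

theorem same_ptr {t1 t2 : List (α × α)} {a : α} (e1 : w1 S.z t1 = w2 S.z t1)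
    (e2 : w1 S.z t2 = w2 S.z t2) (ha : a ≠ S.z)
    (h : Only S (w1 S.z t1 ++ a :: w1 S.z t2) (w1 S.z t1).length) : S.T (t1 ++ (a, a) :: t2) := by
  have h1 := move S (a :: t2.map Prod.snd) t1.length t1 [] le_rfl e1 (by
    intro u c v huv hv
    have hv' : Vis S u c (v ++ a :: w1 S.z t2) := by
      refine vis_congr S (by simp) ?_ hv
      simp only [nz_append, nz_cons, e2, nz_w2]; rfl
    have := h u.length (by rw [huv, List.append_assoc, List.cons_append, pv_iff]; exact hv')
    rw [huv] at this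
    simp at this)
  have h2 := move S [] t2.length t2 (t1.map Prod.fst ++ [a]) le_rfl e2 (by
    intro u c v huv hv
    have hv' : Vis S (w1 S.z t1 ++ a :: u) c v := by
      refine vis_congr S ?_ (by simp) hv
      simp only [nz_append, nz_cons, nz_w1, nz_nil, ha, if_false, List.append_assoc]; rfl
    have := h (w1 S.z t1 ++ a :: u).length (by
      rw [huv, ← List.cons_append, ← List.append_assoc, pv_iff]; exact hv')
    simp at this)
  have := trans' S (t1.map (fun p => (p.1, p.1, p.2)) ++ (a, a, a) ::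
      t2.map (fun p => (p.1, p.2, p.2))) (fun c => c.1) (fun c => c.2.1) (fun c => c.2.2)
    (by simpa [Function.comp_def, dg] using h2) (by simpa [Function.comp_def, dg] using h1)
  simpa [Function.comp_def] using this

theorem w1_l {β : Type} (z : α) (l : List β) (f g : β → α) :
    w1 z (l.map fun p => (f p, g p)) = nz z (l.map f) := by simp [w1, Function.comp_def]
theorem w2_l {β : Type} (z : α) (l : List β) (f g : β → α) :
    w2 z (l.map fun p => (f p, g p)) = nz z (l.map g) := by simp [w2, Function.comp_def]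
theorem nz_fst (z : α) (t : List (α × α)) : nz z (t.map fun p => p.1) = w1 z t := rfl
theorem nz_snd (z : α) (t : List (α × α)) : nz z (t.map fun p => p.2) = w2 z t := rfl

theorem e_none {t : List (α × α)} (h : Eqw S (w1 S.z t) (w2 S.z t)) (hx : Non S (w1 S.z t)) :
    S.T t := by
  have hy := non_tr S (eqw_symm S h) hx
  obtain ⟨s, e1, e2, hs⟩ := h
  set L := t.map (fun p => (p.1, S.z, S.z, p.2)) ++ s.map (fun p => (S.z, p.1, p.2, S.z)) with hL
  have a1 : S.T (L.map fun c => (c.1, c.2.1)) := by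
    apply same_none <;>
      simp [hL, Function.comp_def, w1_l, w2_l, nz_zero, nz_fst, nz_snd, e1, hx, -List.map_const']
  have a2 : S.T (L.map fun c => (c.2.1, c.2.2.1)) := by
    refine T_congr S ?_ hs
    simp [hL, Function.comp_def, cz_zero, -List.map_const']
  have a3 : S.T (L.map fun c => (c.2.2.1, c.2.2.2)) := by
    apply same_none <;>
      simp [hL, Function.comp_def, w1_l, w2_l, nz_zero, nz_fst, nz_snd, e2, hy, -List.map_const']
  refine T_congr S ?_ (trans' S L _ _ _ (trans' S L _ _ _ a1 a2) a3)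
  simp [hL, Function.comp_def, cz_zero, -List.map_const']

theorem e_ptr {t1 t2 : List (α × α)} {a b : α} (ha : a ≠ S.z) (hb : b ≠ S.z)
    (h : Eqw S (w1 S.z (t1 ++ (a, b) :: t2)) (w2 S.z (t1 ++ (a, b) :: t2)))
    (hx : PV S (w1 S.z (t1 ++ (a, b) :: t2)) (w1 S.z t1).length)
    (hy : PV S (w2 S.z (t1 ++ (a, b) :: t2)) (w2 S.z t1).length)
    (h2 : ¬ Two S (w1 S.z (t1 ++ (a, b) :: t2))) : S.T (t1 ++ (a, b) :: t2) := by
  have h2' : ¬ Two S (w2 S.z (t1 ++ (a, b) :: t2)) := fun h' => h2 (two_tr S (eqw_symm S h) h')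
  have ox := only_of S h2 hx
  have oy := only_of S h2' hy
  obtain ⟨s, e1, e2, hs⟩ := h
  obtain ⟨s1, a', b', s2, rfl, l1, ha', hb', hp⟩ := pv_split S hs (e1 ▸ hx)
  have l2 := oy _ (e2 ▸ hp)
  simp only [w1_append, w2_append, w1_cons, w2_cons, ha, hb, ha', hb', if_false] at e1 e2 ox oy
  obtain ⟨f1, f2⟩ := List.append_inj e1 l1
  obtain ⟨rfl, f3⟩ := List.cons.inj f2
  obtain ⟨g1, g2⟩ := List.append_inj e2 l2
  obtain ⟨rfl, g3⟩ := List.cons.inj g2
  set L := (t1.map (fun p => (p.1, S.z, S.z, p.2)) ++ s1.map (fun p => (S.z, p.1, p.2, S.z))) ++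
    (a', a', b', b') :: (t2.map (fun p => (p.1, S.z, S.z, p.2)) ++
      s2.map (fun p => (S.z, p.1, p.2, S.z))) with hL
  have a1 : S.T (L.map fun c => (c.1, c.2.1)) := by
    rw [hL, List.map_append, List.map_cons]
    apply same_ptr <;>
      simp [Function.comp_def, w1_l, w2_l, nz_zero, nz_fst, nz_snd, f1, f3, ox, ha,
        -List.map_const']
  have a2 : S.T (L.map fun c => (c.2.1, c.2.2.1)) := by
    refine T_congr S ?_ hs
    simp [hL, Function.comp_def, cz_zero, cz_cons, -List.map_const']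
  have a3 : S.T (L.map fun c => (c.2.2.1, c.2.2.2)) := by
    rw [hL, List.map_append, List.map_cons]
    apply same_ptr <;>
      simp [Function.comp_def, w1_l, w2_l, nz_zero, nz_fst, nz_snd, g1, g3, oy, hb,
        -List.map_const']
  refine T_congr S ?_ (trans' S L _ _ _ (trans' S L _ _ _ a1 a2) a3)
  simp [hL, Function.comp_def, cz_zero, cz_cons, -List.map_const']

theorem eqw_trans {x y w : List α} (h : Eqw S x y) (h' : Eqw S y w) (h2 : ¬ Two S y) :
    Eqw S x w := by
  obtain ⟨t, rfl, rfl, ht⟩ := h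
  obtain ⟨s, e, rfl, hs⟩ := h'
  by_cases hn : Non S (w2 S.z t)
  · set L := t.map (fun p => (p.1, p.2, S.z, S.z)) ++ s.map (fun p => (S.z, S.z, p.1, p.2)) with hL
    have a1 : S.T (L.map fun c => (c.1, c.2.1)) := by
      refine T_congr S ?_ ht
      simp [hL, Function.comp_def, cz_zero, -List.map_const']
    have a2 : S.T (L.map fun c => (c.2.1, c.2.2.1)) := by
      apply same_none <;>
        simp [hL, Function.comp_def, w1_l, w2_l, nz_zero, nz_fst, nz_snd, e, hn, -List.map_const']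
    have a3 : S.T (L.map fun c => (c.2.2.1, c.2.2.2)) := by
      refine T_congr S ?_ hs
      simp [hL, Function.comp_def, cz_zero, -List.map_const']
    refine ⟨_, ?_, ?_, trans' S L _ _ _ (trans' S L _ _ _ a1 a2) a3⟩ <;>
      simp [hL, Function.comp_def, w1_l, w2_l, nz_zero, nz_fst, nz_snd, -List.map_const']
  · obtain ⟨j, hj⟩ : ∃ j, PV S (w2 S.z t) j := by simpa [Non] using hn
    have oy := only_of S h2 hj
    obtain ⟨s1, b, c, s2, rfl, l1, hb, hc, -⟩ := pv_split S hs (e ▸ hj)
    obtain ⟨t1, b', a, t2, e', l2, hb', ha, -⟩ := pv_split S (S.symm _ ht) (by simpa using hj)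
    have e'' : t = t1.map Prod.swap ++ (a, b') :: t2.map Prod.swap := by
      have := congrArg (List.map Prod.swap) e'
      simpa [Function.comp_def] using this
    have l3 : (w2 S.z (t1.map Prod.swap)).length = (w1 S.z s1).length := by simp [l1, l2]
    rw [← l1, ← l3] at oy
    generalize t1.map Prod.swap = u1 at e'' l3 oy
    generalize t2.map Prod.swap = u2 at e''
    subst e''
    simp only [w1_append, w2_append, w1_cons, w2_cons, ha, hb, hc, hb', if_false] at e oy ⊢
    obtain ⟨f1, f2⟩ := List.append_inj e l3.symm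
    obtain ⟨rfl, f3⟩ := List.cons.inj f2
    set L := (u1.map (fun p => (p.1, p.2, S.z, S.z)) ++ s1.map (fun p => (S.z, S.z, p.1, p.2))) ++
      (a, b, b, c) :: (u2.map (fun p => (p.1, p.2, S.z, S.z)) ++
        s2.map (fun p => (S.z, S.z, p.1, p.2))) with hL
    have a1 : S.T (L.map fun c => (c.1, c.2.1)) := by
      refine T_congr S ?_ ht
      simp [hL, Function.comp_def, cz_zero, cz_cons, -List.map_const']
    have a2 : S.T (L.map fun c => (c.2.1, c.2.2.1)) := by
      rw [hL, List.map_append, List.map_cons]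
      apply same_ptr <;>
        simp [Function.comp_def, w1_l, w2_l, nz_zero, nz_fst, nz_snd, f1, f3, oy, hb,
          -List.map_const']
    have a3 : S.T (L.map fun c => (c.2.2.1, c.2.2.2)) := by
      refine T_congr S ?_ hs
      simp [hL, Function.comp_def, cz_zero, cz_cons, -List.map_const']
    refine ⟨_, ?_, ?_, trans' S L _ _ _ (trans' S L _ _ _ a1 a2) a3⟩ <;>
      simp [hL, Function.comp_def, w1_l, w2_l, nz_zero, nz_fst, nz_snd, w1_cons, w2_cons, ha, hc,
        -List.map_const']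

end Pool.Agent.H5.Can1
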