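import Mathlib

set_option autoImplicit false

/-! A checker for hinted reverse unit propagation; clauses are lists of 16 bit literals. -/

namespace Pool.Agent.H5.CanR

inductive Tr
  | leaf (d : ℕ) : Tr
  | node (l r : Tr) : Tr

noncomputable def Tr.get (t : Tr) : ℕ → ℕ :=
  Tr.rec (motive := fun _ => ℕ → ℕ) (fun d _ => d)
    (fun _ _ fl fr i => Bool.rec (fr (Nat.shiftRight i 1)) (fl (Nat.shiftRight i 1))
      (Nat.beq (Nat.land i 1) 0)) t

noncomputable def Tr.slot (t : Tr) (w m i : ℕ) : ℕ :=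
  Nat.land (Nat.shiftRight (t.get (Nat.shiftRight i 5)) (Nat.mul w (Nat.land i 31))) m

noncomputable def allT (f : ℕ → Bool) (d : ℕ) : ℕ → Bool :=
  Nat.rec (motive := fun _ => ℕ → Bool) f
    (fun d ih lo => Bool.rec false (ih (Nat.add lo (Nat.pow 2 d))) (ih lo)) d

theorem allT_sound (f : ℕ → Bool) (d : ℕ) : ∀ lo, allT f d lo = true →
    ∀ i, lo ≤ i → i < lo + 2 ^ d → f i = true := by
  induction d with
  | zero =>
    intro lo h i h1 h2
    obtain rfl : i = lo := by omega
    exact h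
  | succ d ih =>
    intro lo h i h1 h2
    have h' : Bool.rec false (allT f d (lo + 2 ^ d)) (allT f d lo) = true := h
    cases e : allT f d lo <;> rw [e] at h'
    · exact absurd h' (by simp)
    · by_cases hi : i < lo + 2 ^ d
      · exact ih lo e i h1 hi
      · exact ih _ h' i (by omega) (by rw [pow_succ] at h2; omega)

noncomputable def allR (f : ℕ → Bool) (d lo hi : ℕ) : Bool :=
  allT (fun i => Bool.rec true (f i) (Nat.blt i hi)) d lo

theorem allR_sound {f : ℕ → Bool} {d lo hi : ℕ} (h : allR f d lo hi = true)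
    (hd : hi ≤ lo + 2 ^ d) (i : ℕ) (h1 : lo ≤ i) (h2 : i < hi) : f i = true := by
  have := allT_sound _ d lo h i h1 (by omega)
  have e : Nat.blt i hi = true := by simpa [Nat.blt_eq] using h2
  simpa [e] using this

def Good (L : ℕ → Prop) : Prop := ¬ L 0 ∧ ¬ L 1 ∧ ∀ l, L l → ¬ L (l ^^^ 1)

def sl (c k : ℕ) : ℕ := Nat.land (Nat.shiftRight c (Nat.mul 16 k)) 65535

def Sat (L : ℕ → Prop) (c : ℕ) : Prop := ∃ k, L (sl c k)

def Inv (L : ℕ → Prop) (A : ℕ) : Prop := A ≠ 0 ∧ ∀ l, A.testBit l = true → ¬ L l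

theorem sl_zero (c : ℕ) : sl c 0 = Nat.land c 65535 := rfl
theorem sl_succ (c k : ℕ) : sl c (k + 1) = sl (Nat.shiftRight c 16) k := by
  show (c >>> (16 * (k + 1))) &&& 65535 = ((c >>> 16) >>> (16 * k)) &&& 65535
  rw [← Nat.shiftRight_add]; congr 2; ring

theorem sat_step {L : ℕ → Prop} {c : ℕ} :
    Sat L c ↔ L (Nat.land c 65535) ∨ Sat L (Nat.shiftRight c 16) := by
  constructor
  · rintro ⟨k, h⟩
    cases k with
    | zero => exact Or.inl h
    | succ k => exact Or.inr ⟨k, by rwa [sl_succ] at h⟩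
  · rintro (h | ⟨k, h⟩)
    · exact ⟨0, h⟩
    · exact ⟨k + 1, by rwa [sl_succ]⟩

theorem not_sat_zero {L : ℕ → Prop} (hG : Good L) : ¬ Sat L 0 := by
  rintro ⟨k, h⟩
  have : sl 0 k = 0 := by
    show (0 >>> (16 * k)) &&& 65535 = 0
    simp
  rw [this] at h
  exact hG.1 h

noncomputable def scan (A f : ℕ) : ℕ → ℕ → ℕ :=
  Nat.rec (motive := fun _ => ℕ → ℕ → ℕ) (fun _ _ => 1) (fun _ ih c u =>
    Bool.rec (Bool.rec (ih (Nat.shiftRight c 16) u)
      (Bool.rec 1 (ih (Nat.shiftRight c 16) (Nat.land c 65535)) (Nat.beq u 0))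
      (Nat.beq (Nat.land (Nat.shiftRight A (Nat.land c 65535)) 1) 0)) u (Nat.beq c 0)) f

theorem scan_sound {L : ℕ → Prop} (hG : Good L) {A : ℕ} (hI : Inv L A) (f : ℕ) :
    ∀ c u, (Sat L c ∨ L u) → scan A f c u = 1 ∨ L (scan A f c u) := by
  induction f with
  | zero => intro c u _; exact Or.inl rfl
  | succ f ih =>
    intro c u h
    have e : scan A (f + 1) c u = Bool.rec (Bool.rec (scan A f (Nat.shiftRight c 16) u)
      (Bool.rec 1 (scan A f (Nat.shiftRight c 16) (Nat.land c 65535)) (Nat.beq u 0))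
      (Nat.beq (Nat.land (Nat.shiftRight A (Nat.land c 65535)) 1) 0)) u (Nat.beq c 0) := rfl
    rw [e]
    cases h0 : Nat.beq c 0
    · cases h1 : Nat.beq (Nat.land (Nat.shiftRight A (Nat.land c 65535)) 1) 0
      · apply ih
        rcases h with h | h
        · rcases sat_step.1 h with h | h
          · exfalso
            refine hI.2 _ ?_ h
            have := Nat.ne_of_beq_eq_false h1
            show (1 &&& (A >>> (Nat.land c 65535)) != 0) = true
            rw [Nat.and_comm]
            simpa using this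
          · exact Or.inl h
        · exact Or.inr h
      · cases h2 : Nat.beq u 0
        · exact Or.inl rfl
        · apply ih
          rw [Nat.eq_of_beq_eq_true h2] at h
          rcases h with h | h
          · exact (sat_step.1 h).symm
          · exact absurd h hG.1
    · rw [Nat.eq_of_beq_eq_true h0] at h
      rcases h with h | h
      · exact absurd h (not_sat_zero hG)
      · exact Or.inr h

theorem inv_set {L : ℕ → Prop} {A l : ℕ} (hI : Inv L A) (h : ¬ L l) :
    Inv L (Nat.lor A (Nat.shiftLeft 1 l)) := by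
  have e : Nat.lor A (Nat.shiftLeft 1 l) = A ||| 2 ^ l := by
    show A ||| (1 <<< l) = _
    rw [Nat.one_shiftLeft]
  rw [e]
  refine ⟨fun h0 => hI.1 ?_, fun j hj => ?_⟩
  · have : A ≤ A ||| 2 ^ l := Nat.left_le_or
    omega
  · rw [Nat.testBit_or, Bool.or_eq_true, Nat.testBit_two_pow] at hj
    rcases hj with hj | hj
    · exact hI.2 j hj
    · obtain rfl : l = j := by simpa using hj
      exact h

noncomputable def step (db : ℕ → ℕ) (b A h : ℕ) : ℕ :=
  Bool.rec A ((fun r => Bool.rec (Bool.rec (Nat.lor A (Nat.shiftLeft 1 (Nat.xor r 1))) A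
    (Nat.beq r 1)) 0 (Nat.beq r 0)) (scan A 200 (db h) 0)) (Nat.blt h b)

theorem step_inv {L : ℕ → Prop} (hG : Good L) {db : ℕ → ℕ} {b : ℕ} (hb : ∀ i < b, Sat L (db i))
    {A : ℕ} (hI : Inv L A) (h : ℕ) : Inv L (step db b A h) := by
  unfold step
  cases h0 : Nat.blt h b
  · exact hI
  · have := scan_sound hG hI 200 (db h) 0 (Or.inl (hb h (by simpa [Nat.blt_eq] using h0)))
    generalize scan A 200 (db h) 0 = r at this
    show Inv L (Bool.rec (Bool.rec (Nat.lor A (Nat.shiftLeft 1 (Nat.xor r 1))) A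
      (Nat.beq r 1)) 0 (Nat.beq r 0))
    cases h1 : Nat.beq r 1
    · have hr := this.resolve_left (Nat.ne_of_beq_eq_false h1)
      cases h2 : Nat.beq r 0
      · exact inv_set hI (hG.2.2 r hr)
      · rw [Nat.eq_of_beq_eq_true h2] at hr
        exact absurd hr hG.1
    · rw [Nat.eq_of_beq_eq_true h1]
      exact hI

noncomputable def blk (db : ℕ → ℕ) (b f : ℕ) : ℕ → ℕ → ℕ :=
  Nat.rec (motive := fun _ => ℕ → ℕ → ℕ) (fun _ A => A) (fun _ ih H A =>
    (fun A' => Bool.rec (ih (Nat.shiftRight H 16) A') 0 (Nat.beq A' 0))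
      (step db b A (Nat.land H 65535))) f

theorem blk_inv {L : ℕ → Prop} (hG : Good L) {db : ℕ → ℕ} {b : ℕ} (hb : ∀ i < b, Sat L (db i))
    (f : ℕ) : ∀ H A, Inv L A → Inv L (blk db b f H A) := by
  induction f with
  | zero => intro H A h; exact h
  | succ f ih =>
    intro H A h
    have := step_inv hG hb h (Nat.land H 65535)
    show Inv L (Bool.rec (blk db b f (Nat.shiftRight H 16) (step db b A (Nat.land H 65535))) 0
      (Nat.beq (step db b A (Nat.land H 65535)) 0))
    cases h0 : Nat.beq (step db b A (Nat.land H 65535)) 0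
    · exact ih _ _ this
    · exact absurd (Nat.eq_of_beq_eq_true h0) this.1

noncomputable def run (db : ℕ → ℕ) (b f : ℕ) : ℕ → ℕ → Bool :=
  Nat.rec (motive := fun _ => ℕ → ℕ → Bool) (fun _ _ => false) (fun _ ih H A =>
    (fun A' => Bool.rec (ih (Nat.shiftRight H 1024) A') true (Nat.beq A' 0))
      (blk db b 64 (Nat.mod H (Nat.shiftLeft 1 1024)) A)) f

theorem run_sound {L : ℕ → Prop} (hG : Good L) {db : ℕ → ℕ} {b : ℕ} (hb : ∀ i < b, Sat L (db i))
    (f : ℕ) : ∀ H A, run db b f H A = true → ¬ Inv L A := by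
  induction f with
  | zero => intro H A h; exact absurd h (by simp [run])
  | succ f ih =>
    intro H A h hI
    have := blk_inv hG hb 64 (Nat.mod H (Nat.shiftLeft 1 1024)) A hI
    have h' : Bool.rec (run db b f (Nat.shiftRight H 1024)
      (blk db b 64 (Nat.mod H (Nat.shiftLeft 1 1024)) A)) true
      (Nat.beq (blk db b 64 (Nat.mod H (Nat.shiftLeft 1 1024)) A) 0) = true := h
    generalize blk db b 64 (Nat.mod H (Nat.shiftLeft 1 1024)) A = A' at this h'
    cases h0 : Nat.beq A' 0 <;> rw [h0] at h'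
    · exact ih _ _ h' this
    · exact this.1 (Nat.eq_of_beq_eq_true h0)

noncomputable def ini (f : ℕ) : ℕ → ℕ :=
  Nat.rec (motive := fun _ => ℕ → ℕ) (fun _ => 2) (fun _ ih c =>
    Bool.rec (Nat.lor (ih (Nat.shiftRight c 16)) (Nat.shiftLeft 1 (Nat.land c 65535))) 2
      (Nat.beq c 0)) f

theorem ini_inv {L : ℕ → Prop} (hG : Good L) (f : ℕ) : ∀ c, ¬ Sat L c → Inv L (ini f c) := by
  have two : Inv L 2 := by
    refine ⟨by norm_num, fun l hl => ?_⟩
    have : (2 ^ 1).testBit l = true := hl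
    rw [Nat.testBit_two_pow] at this
    obtain rfl : 1 = l := by simpa using this
    exact hG.2.1
  induction f with
  | zero => intro c _; exact two
  | succ f ih =>
    intro c hc
    rw [sat_step, not_or] at hc
    show Inv L (Bool.rec (Nat.lor (ini f (Nat.shiftRight c 16))
      (Nat.shiftLeft 1 (Nat.land c 65535))) 2 (Nat.beq c 0))
    cases Nat.beq c 0
    · exact inv_set (ih _ hc.2) hc.1
    · exact two

noncomputable def lem (db H : ℕ → ℕ) (b : ℕ) : Bool := run db b 100 (H b) (ini 200 (db b))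

theorem lem_all {L : ℕ → Prop} (hG : Good L) {db H : ℕ → ℕ} {b e : ℕ}
    (hb : ∀ i < b, Sat L (db i)) (h : ∀ i, b ≤ i → i < e → lem db H i = true) :
    ∀ i < e, Sat L (db i) := by
  intro i
  induction i using Nat.strong_induction_on with
  | _ i ih =>
    intro hi
    by_cases hib : i < b
    · exact hb i hib
    · by_contra hc
      exact run_sound hG (fun j hj => ih j hj (by omega)) 100 _ _ (h i (by omega) hi)
        (ini_inv hG 200 _ hc)

end Pool.Agent.H5.CanR
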