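import Pool.Agent.H5.Can2
import Pool.Agent.H5.CanR

set_option autoImplicit false

namespace Pool.Agent.H5.Can1
open Pool.Agent.H5.CanR

def sq (a b : ℕ) : ℕ :=
  Nat.add (Nat.mul (Nat.sub a b) (Nat.sub a b)) (Nat.mul (Nat.sub b a) (Nat.sub b a))

structure Nice (S : Sys ℕ) : Prop where
  z : S.z = 8
  amo : ∀ A a B b C, sq a 8 + sq b 8 ≤ 24 → Vis S A a (B ++ b :: C) → Vis S (A ++ a :: B) b C → False
  bad : ∀ L : List (ℕ × ℕ × ℕ), (∀ c ∈ L, c.1 + c.2.2 = 2 * c.2.1) →
    (L.map fun c => sq c.1 c.2.1).sum = 12 →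
    (S.T (L.map fun c => (c.1, c.2.1)) ∨ S.T (L.map fun c => (c.2.1, c.2.2)) ∨
      S.T (L.map fun c => (c.1, c.2.2))) ∧
    ¬ (S.T (L.map fun c => (c.1, c.2.1)) ∧ S.T (L.map fun c => (c.2.1, c.2.2)))

noncomputable def an (a b : Bool) : Bool := Bool.rec false b a
noncomputable def orr (a b : Bool) : Bool := Bool.rec b true a
noncomputable def ne8 (a : ℕ) : Bool := Bool.rec true false (Nat.beq a 8)
@[simp] theorem an_iff {a b : Bool} : an a b = true ↔ a = true ∧ b = true := by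
  cases a <;> simp [an]
@[simp] theorem orr_iff {a b : Bool} : orr a b = true ↔ a = true ∨ b = true := by
  cases a <;> simp [orr]
@[simp] theorem ne8_iff {a : ℕ} : ne8 a = true ↔ a ≠ 8 := by
  unfold ne8
  cases h : Nat.beq a 8
  · simpa using Nat.ne_of_beq_eq_false h
  · simpa using Nat.eq_of_beq_eq_true h

noncomputable def force (n : ℕ) (k : ℕ → Bool) : Bool :=
  Nat.rec (k 0) (fun m _ => k (Nat.succ m)) n
@[simp] theorem force_eq (n : ℕ) (k : ℕ → Bool) : force n k = k n := by cases n <;> rfl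

noncomputable def digs (n : ℕ) : List ℕ :=
  Nat.rec (motive := fun _ => ℕ → List ℕ) (fun _ => []) (fun _ ih n =>
    Bool.rec (Nat.land n 15 :: ih (Nat.shiftRight n 4)) [] (Nat.beq n 0)) 6 n
noncomputable def dig2 (n : ℕ) : List (ℕ × ℕ) :=
  Nat.rec (motive := fun _ => ℕ → List (ℕ × ℕ)) (fun _ => []) (fun _ ih n =>
    Bool.rec ((Nat.land n 15, Nat.land (Nat.shiftRight n 4) 15) :: ih (Nat.shiftRight n 8)) []
      (Nat.beq n 0)) 6 n
noncomputable def dig3 (n : ℕ) : List (ℕ × ℕ × ℕ) :=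
  Nat.rec (motive := fun _ => ℕ → List (ℕ × ℕ × ℕ)) (fun _ => []) (fun _ ih n =>
    Bool.rec ((Nat.land n 15, Nat.land (Nat.shiftRight n 4) 15, Nat.land (Nat.shiftRight n 8) 15) ::
      ih (Nat.shiftRight n 12)) [] (Nat.beq n 0)) 6 n
def lo (p : ℕ) : ℕ := Nat.land p 16777215
def hi (p : ℕ) : ℕ := Nat.shiftRight p 24

noncomputable def leq (x : List ℕ) : List ℕ → Bool :=
  List.rec (motive := fun _ => List ℕ → Bool) (fun y => List.rec true (fun _ _ _ => false) y)
    (fun a _ ih y => List.rec false (fun b y' _ => an (Nat.beq a b) (ih y')) y) x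
@[simp] theorem leq_iff {x : List ℕ} : ∀ {y : List ℕ}, leq x y = true ↔ x = y := by
  induction x with
  | nil => intro y; cases y <;> simp [leq]
  | cons a x ih =>
    intro y
    cases y with
    | nil => simp [leq]
    | cons b y =>
      show an (Nat.beq a b) (leq x y) = true ↔ _
      simp [ih]
noncomputable def leq2 (x : List (ℕ × ℕ)) : List (ℕ × ℕ) → Bool :=
  List.rec (motive := fun _ => List (ℕ × ℕ) → Bool)
    (fun y => List.rec true (fun _ _ _ => false) y)
    (fun a _ ih y => List.rec false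
      (fun b y' _ => an (Nat.beq a.1 b.1) (an (Nat.beq a.2 b.2) (ih y'))) y) x
@[simp] theorem leq2_iff {x : List (ℕ × ℕ)} : ∀ {y : List (ℕ × ℕ)}, leq2 x y = true ↔ x = y := by
  induction x with
  | nil => intro y; cases y <;> simp [leq2]
  | cons a x ih =>
    intro y
    cases y with
    | nil => simp [leq2]
    | cons b y =>
      show an (Nat.beq a.1 b.1) (an (Nat.beq a.2 b.2) (leq2 x y)) = true ↔ _
      simp [ih, Prod.ext_iff, and_assoc]

noncomputable def f1 (t : List (ℕ × ℕ)) : List ℕ :=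
  List.rec [] (fun c _ ih => Bool.rec (c.1 :: ih) ih (Nat.beq c.1 8)) t
noncomputable def f2 (t : List (ℕ × ℕ)) : List ℕ :=
  List.rec [] (fun c _ ih => Bool.rec (c.2 :: ih) ih (Nat.beq c.2 8)) t
noncomputable def swp (t : List (ℕ × ℕ)) : List (ℕ × ℕ) :=
  List.rec [] (fun c _ ih => (c.2, c.1) :: ih) t
theorem brec {β : Type} (a b : ℕ) (x y : β) :
    (Bool.rec x y (Nat.beq a b) : β) = if a = b then y else x := by
  cases h : Nat.beq a b
  · rw [if_neg (Nat.ne_of_beq_eq_false h)]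
  · rw [if_pos (Nat.eq_of_beq_eq_true h)]
@[simp] theorem f1_eq (t : List (ℕ × ℕ)) : f1 t = w1 8 t := by
  induction t with
  | nil => rfl
  | cons c t ih =>
    obtain ⟨a, b⟩ := c
    show (Bool.rec (a :: f1 t) (f1 t) (Nat.beq a 8) : List ℕ) = _
    rw [brec, ih, w1_cons]
@[simp] theorem f2_eq (t : List (ℕ × ℕ)) : f2 t = w2 8 t := by
  induction t with
  | nil => rfl
  | cons c t ih =>
    obtain ⟨a, b⟩ := c
    show (Bool.rec (b :: f2 t) (f2 t) (Nat.beq b 8) : List ℕ) = _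
    rw [brec, ih, w2_cons]
theorem swp_eq (t : List (ℕ × ℕ)) : swp t = t.map Prod.swap := by
  induction t with
  | nil => rfl
  | cons c t ih =>
    show (c.2, c.1) :: swp t = _
    rw [ih]; rfl

noncomputable def cols (f : ℕ → ℕ → ℕ → ℕ → Bool) (t : List (ℕ × ℕ)) : ℕ → ℕ → Bool :=
  List.rec (motive := fun _ => ℕ → ℕ → Bool) (fun _ _ => false)
    (fun c _ ih i j => orr (f c.1 c.2 i j)
      (ih (Bool.rec (Nat.succ i) i (Nat.beq c.1 8)) (Bool.rec (Nat.succ j) j (Nat.beq c.2 8)))) t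
theorem cols_sound (f : ℕ → ℕ → ℕ → ℕ → Bool) (t : List (ℕ × ℕ)) : ∀ i j, cols f t i j = true →
    ∃ t1 a b t2, t = t1 ++ (a, b) :: t2 ∧
      f a b (i + (w1 8 t1).length) (j + (w2 8 t1).length) = true := by
  induction t with
  | nil => intro i j h; exact absurd h (by simp [cols])
  | cons c t ih =>
    obtain ⟨a, b⟩ := c
    intro i j h
    have h' : orr (f a b i j) (cols f t (Bool.rec (Nat.succ i) i (Nat.beq a 8))
      (Bool.rec (Nat.succ j) j (Nat.beq b 8))) = true := h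
    rcases orr_iff.1 h' with h | h
    · exact ⟨[], a, b, t, rfl, h⟩
    · obtain ⟨t1, a', b', t2, rfl, g⟩ := ih _ _ h
      refine ⟨(a, b) :: t1, a', b', t2, rfl, ?_⟩
      clear h h' ih
      rw [brec, brec] at g
      rw [w1_cons, w2_cons]
      split_ifs at g ⊢ <;> simpa only [List.length_cons, Nat.succ_eq_add_one, add_assoc,
        add_comm 1] using g

noncomputable def nb1 (a : ℕ) (w : List ℕ) : Bool :=
  List.rec true (fun b _ ih => an (Nat.ble (Nat.add (sq a 8) (sq b 8)) 24) ih) w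
noncomputable def nb (w : List ℕ) : Bool := List.rec true (fun a w ih => an (nb1 a w) ih) w
theorem nb1_sound (a b : ℕ) (C B : List ℕ) (h : nb1 a (B ++ b :: C) = true) :
    sq a 8 + sq b 8 ≤ 24 := by
  induction B with
  | nil => exact Nat.le_of_ble_eq_true (an_iff.1 h).1
  | cons c B ih => exact ih (an_iff.1 h).2
theorem nb_sound (a b : ℕ) (C B A : List ℕ) (h : nb (A ++ a :: (B ++ b :: C)) = true) :
    sq a 8 + sq b 8 ≤ 24 := by
  induction A with
  | nil => exact nb1_sound a b C B (an_iff.1 h).1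
  | cons c A ih => exact ih (an_iff.1 h).2
noncomputable def nbw (x : ℕ) : Bool := force x fun x => nb (digs x)

variable {S : Sys ℕ} (hS : Nice S)
include hS

theorem two_split {w : List ℕ} {i j : ℕ} (hi : PV S w i) (hj : PV S w j) (hij : i < j) :
    ∃ A a B b C, w = A ++ a :: (B ++ b :: C) ∧ A.length = i ∧ (A ++ a :: B).length = j ∧
      ¬ sq a 8 + sq b 8 ≤ 24 := by
  obtain ⟨A, a, B, rfl, rfl, h1⟩ := hi
  obtain ⟨A', b, C, e, rfl, h2⟩ := hj
  rcases List.append_eq_append_iff.1 e with ⟨u, rfl, e2⟩ | ⟨u, rfl, e2⟩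
  · rcases u with _ | ⟨c, u⟩
    · simp at hij
    · obtain ⟨rfl, rfl⟩ := List.cons.inj e2
      exact ⟨A, a, u, b, C, rfl, rfl, rfl, fun h => hS.amo A a u b C h h1 h2⟩
  · simp at hij

theorem two_idx {w : List ℕ} (h : Two S w) : ∃ i j, i < j ∧ j < w.length ∧ PV S w i ∧ PV S w j ∧
    ¬ sq (w.getD i 0) 8 + sq (w.getD j 0) 8 ≤ 24 := by
  obtain ⟨i, j, hij, hi, hj⟩ := h
  wlog h : i < j generalizing i j
  · exact this j i hij.symm hj hi (by omega)
  obtain ⟨A, a, B, b, C, e, e1, e2, h3⟩ := two_split hS hi hj h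
  refine ⟨i, j, h, by rw [e, ← e2]; simp, hi, hj, ?_⟩
  have g1 : w.getD i 0 = a := by rw [e, ← e1]; simp
  have g2 : w.getD j 0 = b := by
    rw [e, ← e2, ← List.cons_append, ← List.append_assoc]; simp
  rwa [g1, g2]

theorem nbw_sound {x : ℕ} (h : nbw x = true) : ¬ Two S (digs x) := by
  rintro ⟨i, j, hij, hi, hj⟩
  wlog h' : i < j generalizing i j
  · exact this j i hij.symm hj hi (by omega)
  obtain ⟨A, a, B, b, C, e, -, -, h3⟩ := two_split hS hi hj h'
  rw [nbw, force_eq, e] at h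
  exact h3 (nb_sound _ _ _ _ _ h)

end Pool.Agent.H5.Can1
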