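import Pool.Agent.H5.Can3

set_option autoImplicit false

namespace Pool.Agent.H5.Can1
open Pool.Agent.H5.CanR

def V' (S : Sys ℕ) (tg p : ℕ) : Prop :=
  if tg = 0 then Non S (digs (lo p)) else if tg = 1 then PV S (digs (lo p)) (hi p)
  else if tg = 2 then Two S (digs (lo p)) else if tg = 3 then Eqw S (digs (lo p)) (digs (hi p))
  else S.T (dig2 p)

def V (S : Sys ℕ) (o : ℕ) : Prop := V' S (Nat.land o 15) (Nat.shiftRight o 4)

def LL (S : Sys ℕ) (ob : ℕ → ℕ) (l : ℕ) : Prop :=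
  2 ≤ l ∧ if Nat.land l 1 = 0 then V S (ob (Nat.shiftRight l 1)) else ¬ V S (ob (Nat.shiftRight l 1))

theorem good_LL (S : Sys ℕ) (ob : ℕ → ℕ) : Good (LL S ob) := by
  refine ⟨fun h => by have := h.1; omega, fun h => by have := h.1; omega, ?_⟩
  rintro l ⟨h1, h2⟩ ⟨h3, h4⟩
  have e1 : Nat.shiftRight (l ^^^ 1) 1 = Nat.shiftRight l 1 := by
    show (l ^^^ 1) >>> 1 = l >>> 1
    rw [Nat.shiftRight_xor_distrib]; simp
  have e2 : Nat.land l 1 = l % 2 := Nat.and_one_is_mod l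
  have e3 : Nat.land (l ^^^ 1) 1 = (l + 1) % 2 := by
    show (l ^^^ 1) &&& 1 = _
    rw [Nat.and_one_is_mod, Nat.xor_mod_two_eq]
  rw [e1, e3] at h4
  rw [e2] at h2
  split_ifs at h2 h4 <;> first | omega | contradiction

noncomputable def lit (ob : ℕ → ℕ) (c k s tg : ℕ) (f : ℕ → Bool) : Bool :=
  (fun l => an (Nat.beq (Nat.land l 1) s) (an (Nat.ble 2 l)
    ((fun o => an (Nat.beq (Nat.land o 15) tg) (f (Nat.shiftRight o 4)))
      (ob (Nat.shiftRight l 1))))) (sl c k)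

theorem lit_pos {S : Sys ℕ} {ob : ℕ → ℕ} {c k tg : ℕ} {f : ℕ → Bool} (hc : ¬ Sat (LL S ob) c)
    (h : lit ob c k 0 tg f = true) : ∃ p, f p = true ∧ ¬ V' S tg p := by
  simp only [lit, an_iff, Nat.beq_eq, Nat.ble_eq] at h
  obtain ⟨h1, h2, h3, h4⟩ := h
  refine ⟨_, h4, fun hv => hc ⟨k, h2, ?_⟩⟩
  rw [if_pos h1, V, h3]; exact hv

theorem lit_neg {S : Sys ℕ} {ob : ℕ → ℕ} {c k tg : ℕ} {f : ℕ → Bool} (hc : ¬ Sat (LL S ob) c)
    (h : lit ob c k 1 tg f = true) : ∃ p, f p = true ∧ V' S tg p := by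
  simp only [lit, an_iff, Nat.beq_eq, Nat.ble_eq] at h
  obtain ⟨h1, h2, h3, h4⟩ := h
  refine ⟨_, h4, by_contra fun hv => hc ⟨k, h2, ?_⟩⟩
  rw [if_neg (by omega), V, h3]; exact hv

noncomputable def orE (p : ℕ) (f : List (ℕ × ℕ) → Bool) : Bool :=
  orr (f (dig2 p)) (f (swp (dig2 p)))
noncomputable def orW (p : ℕ) (f : ℕ → ℕ → Bool) : Bool := orr (f (lo p) (hi p)) (f (hi p) (lo p))

theorem T_swap (S : Sys ℕ) (t : List (ℕ × ℕ)) : S.T (t.map Prod.swap) ↔ S.T t :=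
  ⟨fun h => by simpa [Function.comp_def] using S.symm _ h, S.symm _⟩

theorem orE_sound (S : Sys ℕ) {p : ℕ} {f : List (ℕ × ℕ) → Bool} (h : orE p f = true) :
    ∃ t, f t = true ∧ (V' S 4 p ↔ S.T t) := by
  rcases orr_iff.1 h with h | h
  · exact ⟨_, h, by simp [V']⟩
  · exact ⟨_, h, by simp [V', swp_eq, T_swap]⟩

theorem orW_sound (S : Sys ℕ) {p : ℕ} {f : ℕ → ℕ → Bool} (h : orW p f = true) :
    ∃ x y, f x y = true ∧ (V' S 3 p ↔ Eqw S (digs x) (digs y)) := by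
  rcases orr_iff.1 h with h | h
  · exact ⟨_, _, h, by simp [V']⟩
  · exact ⟨_, _, h, by simpa [V'] using ⟨eqw_symm S, eqw_symm S⟩⟩

theorem V0 (S : Sys ℕ) (p : ℕ) : V' S 0 p ↔ Non S (digs (lo p)) := by simp [V']
theorem V1 (S : Sys ℕ) (p : ℕ) : V' S 1 p ↔ PV S (digs (lo p)) (hi p) := by simp [V']
theorem V2 (S : Sys ℕ) (p : ℕ) : V' S 2 p ↔ Two S (digs (lo p)) := by simp [V']
theorem V4 (S : Sys ℕ) (p : ℕ) : V' S 4 p ↔ S.T (dig2 p) := by simp [V']

noncomputable def prj (f g : ℕ × ℕ × ℕ → ℕ) (L : List (ℕ × ℕ × ℕ)) : List (ℕ × ℕ) :=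
  List.rec [] (fun c _ ih => Bool.rec ((f c, g c) :: ih) ih
    (an (Nat.beq (f c) 8) (Nat.beq (g c) 8))) L
theorem prj_eq (f g : ℕ × ℕ × ℕ → ℕ) (L : List (ℕ × ℕ × ℕ)) :
    prj f g L = cz 8 (L.map fun c => (f c, g c)) := by
  induction L with
  | nil => rfl
  | cons c L ih =>
    show (Bool.rec ((f c, g c) :: prj f g L) (prj f g L)
      (an (Nat.beq (f c) 8) (Nat.beq (g c) 8)) : List (ℕ × ℕ)) = _
    rw [List.map_cons, cz_cons, ih]
    cases h : an (Nat.beq (f c) 8) (Nat.beq (g c) 8)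
    · rw [if_neg]
      intro e
      rw [an_iff.2 (by simpa using e)] at h
      exact absurd h (by simp)
    · rw [if_pos (by simpa using h)]
noncomputable def eqE (p : ℕ) (L : List (ℕ × ℕ × ℕ)) (f g : ℕ × ℕ × ℕ → ℕ) : Bool :=
  orr (leq2 (prj f g L) (dig2 p)) (leq2 (prj g f L) (dig2 p))
noncomputable def apc (L : List (ℕ × ℕ × ℕ)) : Bool :=
  List.rec true (fun c _ ih => an (Nat.beq (Nat.add c.1 c.2.2) (Nat.mul 2 c.2.1)) ih) L
noncomputable def aps (L : List (ℕ × ℕ × ℕ)) : ℕ :=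
  List.rec 0 (fun c _ ih => Nat.add (sq c.1 c.2.1) ih) L
theorem apc_sound (L : List (ℕ × ℕ × ℕ)) (h : apc L = true) :
    ∀ c ∈ L, c.1 + c.2.2 = 2 * c.2.1 := by
  induction L with
  | nil => simp
  | cons c L ih =>
    have := an_iff.1 h
    simp only [List.mem_cons, forall_eq_or_imp]
    exact ⟨Nat.eq_of_beq_eq_true this.1, ih this.2⟩
theorem aps_eq (L : List (ℕ × ℕ × ℕ)) : aps L = (L.map fun c => sq c.1 c.2.1).sum := by
  induction L with
  | nil => rfl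
  | cons c L ih =>
    show sq c.1 c.2.1 + aps L = _
    rw [ih]; simp
noncomputable def ap (L : List (ℕ × ℕ × ℕ)) : Bool := an (apc L) (Nat.beq (aps L) 12)
def r0 (c : ℕ × ℕ × ℕ) : ℕ := c.1
def r1 (c : ℕ × ℕ × ℕ) : ℕ := c.2.1
def r2 (c : ℕ × ℕ × ℕ) : ℕ := c.2.2

variable (ob : ℕ → ℕ) (c : ℕ)

noncomputable def k0 : Bool :=
  lit ob c 0 0 3 fun r => lit ob c 1 1 3 fun p => lit ob c 2 1 3 fun q =>
    orW p fun x y => orW q fun y' w => an (Nat.beq y y') (orW r fun x' w' =>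
      an (Nat.beq x x') (an (Nat.beq w w') (orr (nbw x) (orr (nbw y) (orr (nbw w)
        (lit ob c 3 0 2 fun s => Nat.beq (lo s) y))))))
noncomputable def k1 : Bool :=
  lit ob c 0 0 3 fun r => lit ob c 1 1 4 fun p => orW r fun x y =>
    an (leq (f1 (dig2 p)) (digs x)) (leq (f2 (dig2 p)) (digs y))
noncomputable def k2 (w : ℕ) : Bool :=
  lit ob c 0 0 4 fun p => lit ob c 1 0 4 fun q => lit ob c 2 0 4 fun r =>
    an (ap (dig3 w)) (an (eqE p (dig3 w) r0 r1) (an (eqE q (dig3 w) r1 r2) (eqE r (dig3 w) r0 r2)))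
noncomputable def k3 (w : ℕ) : Bool :=
  lit ob c 0 1 4 fun p => lit ob c 1 1 4 fun q =>
    an (ap (dig3 w)) (an (eqE q (dig3 w) r0 r2 || eqE q (dig3 w) r1 r2) (eqE p (dig3 w) r0 r1))
noncomputable def k4 : Bool :=
  lit ob c 0 1 4 fun p => lit ob c 1 1 1 fun x => lit ob c 2 0 1 fun y => orE p fun t =>
    an (leq (f1 t) (digs (lo x))) (an (leq (f2 t) (digs (lo y)))
      (cols (fun a _ i j => an (Nat.beq i (hi x)) (an (Nat.beq j (hi y)) (ne8 a))) t 0 0))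
noncomputable def k5 : Bool :=
  lit ob c 0 1 4 fun p => lit ob c 1 1 1 fun x => orE p fun t =>
    an (leq (f1 t) (digs (lo x)))
      (cols (fun a b i _ => an (Nat.beq i (hi x)) (an (Nat.beq b 8) (ne8 a))) t 0 0)
noncomputable def k6 : Bool :=
  lit ob c 0 0 4 fun p => lit ob c 1 1 0 fun x => lit ob c 2 1 3 fun r => orE p fun t =>
    an (leq (f1 t) (digs (lo x))) (orW r fun x' y => an (Nat.beq (lo x) x') (leq (f2 t) (digs y)))
noncomputable def k7 : Bool :=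
  lit ob c 0 0 4 fun p => lit ob c 1 1 0 fun x =>
    an (leq (f1 (dig2 p)) (digs (lo x))) (leq (f2 (dig2 p)) (digs (lo x)))
noncomputable def k8 : Bool :=
  lit ob c 0 0 0 fun y => lit ob c 1 1 0 fun x => lit ob c 2 1 3 fun r =>
    orW r fun a b => an (Nat.beq a (lo y)) (Nat.beq b (lo x))
noncomputable def k9 : Bool :=
  lit ob c 0 0 4 fun p => lit ob c 1 1 1 fun x => lit ob c 2 1 1 fun y => lit ob c 3 1 3 fun r =>
    orE p fun t => an (leq (f1 t) (digs (lo x))) (an (leq (f2 t) (digs (lo y)))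
      (an (orW r fun a b => an (Nat.beq a (lo x)) (Nat.beq b (lo y)))
      (an (cols (fun a b i j => an (Nat.beq i (hi x)) (an (Nat.beq j (hi y))
        (an (ne8 a) (ne8 b)))) t 0 0)
      (orr (nbw (lo x)) (orr (nbw (lo y)) (lit ob c 4 0 2 fun s => Nat.beq (lo s) (lo x)))))))
noncomputable def k10 : Bool :=
  lit ob c 0 1 1 fun x => lit ob c 1 1 0 fun y => Nat.beq (lo x) (lo y)
noncomputable def k11 : Bool :=
  lit ob c 0 1 1 fun x => lit ob c 1 1 1 fun y => an (Nat.beq (lo x) (lo y))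
    (an (Nat.blt (hi x) (hi y))
    (Nat.ble (sq ((digs (lo x)).getD (hi x) 0) 8 + sq ((digs (lo x)).getD (hi y) 0) 8) 24))
noncomputable def has (x i : ℕ) : Bool :=
  (List.range 6).any fun k => lit ob c k 0 1 fun y => an (Nat.beq (lo y) x) (Nat.beq (hi y) i)
noncomputable def k12 : Bool :=
  lit ob c 0 0 0 fun x => (List.range (digs (lo x)).length).all fun i => has ob c (lo x) i
noncomputable def k13 : Bool :=
  lit ob c 0 1 2 fun x => (List.range (digs (lo x)).length).all fun j => (List.range j).all fun i =>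
    orr (has ob c (lo x) i) (orr (has ob c (lo x) j)
      (Nat.ble (sq ((digs (lo x)).getD i 0) 8 + sq ((digs (lo x)).getD j 0) 8) 24))
noncomputable def kx : Bool :=
  orr (k9 ob c) (orr (k0 ob c) (orr (k12 ob c) (orr (k13 ob c) (orr (k10 ob c)
    (orr (k11 ob c) (k7 ob c))))))

variable {S : Sys ℕ} (hS : Nice S) {ob c}
include hS

theorem eqE_sound {p : ℕ} {L : List (ℕ × ℕ × ℕ)} {f g : ℕ × ℕ × ℕ → ℕ} (h : eqE p L f g = true) :
    V' S 4 p ↔ S.T (L.map fun c => (f c, g c)) := by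
  have key : ∀ t : List (ℕ × ℕ), S.T (cz 8 t) ↔ S.T t := fun t => by
    rw [← hS.z]; simpa using (T_cz' S t []).symm
  rw [V4]
  rcases orr_iff.1 h with h | h
  · rw [← leq2_iff.1 h, prj_eq, key]
  · rw [← leq2_iff.1 h, prj_eq, key, ← T_swap]; simp [Function.comp_def]

theorem k0_sound (h : k0 ob c = true) : Sat (LL S ob) c := by
  by_contra hc
  obtain ⟨r, h, hr⟩ := lit_pos hc h
  obtain ⟨p, h, hp⟩ := lit_neg hc h
  obtain ⟨q, h, hq⟩ := lit_neg hc h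
  obtain ⟨x, y, h, e1⟩ := orW_sound S h
  obtain ⟨y', w, h, e2⟩ := orW_sound S h
  rw [an_iff, Nat.beq_eq] at h
  obtain ⟨rfl, h⟩ := h
  obtain ⟨x', w', h, e3⟩ := orW_sound S h
  simp only [an_iff, Nat.beq_eq, orr_iff] at h
  obtain ⟨rfl, rfl, h⟩ := h
  rw [e1] at hp; rw [e2] at hq; rw [e3] at hr
  refine hr (eqw_trans S hp hq fun h2 => ?_)
  rcases h with h | h | h | h
  · exact nbw_sound hS h (two_tr S (eqw_symm S hp) h2)
  · exact nbw_sound hS h h2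
  · exact nbw_sound hS h (two_tr S hq h2)
  · obtain ⟨s, h, hs⟩ := lit_pos hc h
    rw [V2, Nat.eq_of_beq_eq_true h] at hs
    exact hs h2

theorem k1_sound (h : k1 ob c = true) : Sat (LL S ob) c := by
  by_contra hc
  obtain ⟨r, h, hr⟩ := lit_pos hc h
  obtain ⟨p, h, hp⟩ := lit_neg hc h
  obtain ⟨x, y, h, e1⟩ := orW_sound S h
  simp only [an_iff, leq_iff, f1_eq, f2_eq, ← hS.z] at h
  exact hr (e1.2 ⟨_, h.1, h.2, (V4 S p).1 hp⟩)

theorem ap_sound {L : List (ℕ × ℕ × ℕ)} (h : ap L = true) :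
    (S.T (L.map fun c => (r0 c, r1 c)) ∨ S.T (L.map fun c => (r1 c, r2 c)) ∨
      S.T (L.map fun c => (r0 c, r2 c))) ∧
    ¬ (S.T (L.map fun c => (r0 c, r1 c)) ∧ S.T (L.map fun c => (r1 c, r2 c))) :=
  hS.bad L (apc_sound L (an_iff.1 h).1) (by rw [← aps_eq]; simpa using (an_iff.1 h).2)

theorem k2_sound {w : ℕ} (h : k2 ob c w = true) : Sat (LL S ob) c := by
  by_contra hc
  obtain ⟨p, h, hp⟩ := lit_pos hc h
  obtain ⟨q, h, hq⟩ := lit_pos hc h
  obtain ⟨r, h, hr⟩ := lit_pos hc h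
  simp only [an_iff] at h
  obtain ⟨h0, h1, h2, h3⟩ := h
  rw [eqE_sound hS h1] at hp; rw [eqE_sound hS h2] at hq; rw [eqE_sound hS h3] at hr
  have := (ap_sound hS h0).1
  tauto

theorem k3_sound {w : ℕ} (h : k3 ob c w = true) : Sat (LL S ob) c := by
  by_contra hc
  obtain ⟨p, h, hp⟩ := lit_neg hc h
  obtain ⟨q, h, hq⟩ := lit_neg hc h
  simp only [an_iff, Bool.or_eq_true] at h
  obtain ⟨h0, h1, h2⟩ := h
  rw [eqE_sound hS h2] at hp
  refine (ap_sound hS h0).2 ⟨hp, ?_⟩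
  rcases h1 with h1 | h1 <;> rw [eqE_sound hS h1] at hq
  · exact trans' S _ _ _ _ (by simpa [Function.comp_def] using S.symm _ hp) hq
  · exact hq

theorem k4_sound (h : k4 ob c = true) : Sat (LL S ob) c := by
  by_contra hc
  obtain ⟨p, h, hp⟩ := lit_neg hc h
  obtain ⟨x, h, hx⟩ := lit_neg hc h
  obtain ⟨y, h, hy⟩ := lit_pos hc h
  obtain ⟨t, h, e⟩ := orE_sound S h
  simp only [an_iff, leq_iff, f1_eq, f2_eq] at h
  obtain ⟨h1, h2, h⟩ := h
  replace h := cols_sound _ _ _ _ h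
  obtain ⟨t1, a, b, t2, rfl, h⟩ := h
  simp only [an_iff, Nat.beq_eq, ne8_iff, zero_add] at h
  rw [V1, ← h1, ← h.1, ← hS.z] at hx
  rw [V1, ← h2, ← h.2.1, ← hS.z] at hy
  exact hy (pv_tr S (e.1 hp) (hS.z ▸ h.2.2) hx).2

theorem k5_sound (h : k5 ob c = true) : Sat (LL S ob) c := by
  by_contra hc
  obtain ⟨p, h, hp⟩ := lit_neg hc h
  obtain ⟨x, h, hx⟩ := lit_neg hc h
  obtain ⟨t, h, e⟩ := orE_sound S h
  simp only [an_iff, leq_iff, f1_eq, f2_eq] at h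
  obtain ⟨h1, h⟩ := h
  replace h := cols_sound _ _ _ _ h
  obtain ⟨t1, a, b, t2, rfl, h⟩ := h
  simp only [an_iff, Nat.beq_eq, ne8_iff, zero_add] at h
  rw [V1, ← h1, ← h.1, ← hS.z] at hx
  exact (pv_tr S (e.1 hp) (hS.z ▸ h.2.2) hx).1 (hS.z ▸ h.2.1)

theorem k6_sound (h : k6 ob c = true) : Sat (LL S ob) c := by
  by_contra hc
  obtain ⟨p, h, hp⟩ := lit_pos hc h
  obtain ⟨x, h, hx⟩ := lit_neg hc h
  obtain ⟨r, h, hr⟩ := lit_neg hc h
  obtain ⟨t, h, e⟩ := orE_sound S h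
  simp only [an_iff, leq_iff, f1_eq] at h
  obtain ⟨h1, h⟩ := h
  obtain ⟨x', y, h, e1⟩ := orW_sound S h
  simp only [an_iff, leq_iff, f2_eq, Nat.beq_eq] at h
  obtain ⟨rfl, h2⟩ := h
  rw [V0, ← h1, ← hS.z] at hx
  rw [e1, ← h1, ← h2, ← hS.z] at hr
  exact hp (e.2 (e_none S hr hx))

theorem k7_sound (h : k7 ob c = true) : Sat (LL S ob) c := by
  by_contra hc
  obtain ⟨p, h, hp⟩ := lit_pos hc h
  obtain ⟨x, h, hx⟩ := lit_neg hc h
  simp only [an_iff, leq_iff, f1_eq, f2_eq, ← hS.z] at h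
  rw [V0, ← h.1] at hx
  exact hp ((V4 S p).2 (same_none S (h.1.trans h.2.symm) hx))

omit hS in
theorem k8_sound (h : k8 ob c = true) : Sat (LL S ob) c := by
  by_contra hc
  obtain ⟨y, h, hy⟩ := lit_pos hc h
  obtain ⟨x, h, hx⟩ := lit_neg hc h
  obtain ⟨r, h, hr⟩ := lit_neg hc h
  obtain ⟨a, b, h, e1⟩ := orW_sound S h
  simp only [an_iff, Nat.beq_eq] at h
  obtain ⟨rfl, rfl⟩ := h
  exact hy ((V0 S y).2 (non_tr S (e1.1 hr) ((V0 S x).1 hx)))

theorem k9_sound (h : k9 ob c = true) : Sat (LL S ob) c := by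
  by_contra hc
  obtain ⟨p, h, hp⟩ := lit_pos hc h
  obtain ⟨x, h, hx⟩ := lit_neg hc h
  obtain ⟨y, h, hy⟩ := lit_neg hc h
  obtain ⟨r, h, hr⟩ := lit_neg hc h
  obtain ⟨t, h, e⟩ := orE_sound S h
  simp only [an_iff, leq_iff, f1_eq, f2_eq, orr_iff] at h
  obtain ⟨h1, h2, h3, h4, h5⟩ := h
  obtain ⟨a, b, h3, e1⟩ := orW_sound S h3
  simp only [an_iff, Nat.beq_eq] at h3
  obtain ⟨rfl, rfl⟩ := h3
  rw [e1] at hr
  have h6 : ¬ Two S (digs (lo x)) := by
    intro h2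
    rcases h5 with h | h | h
    · exact nbw_sound hS h h2
    · exact nbw_sound hS h (two_tr S hr h2)
    · obtain ⟨s, h, hs⟩ := lit_pos hc h
      rw [V2, Nat.eq_of_beq_eq_true h] at hs
      exact hs h2
  obtain ⟨t1, a, b, t2, rfl, h⟩ := cols_sound _ _ _ _ h4
  simp only [an_iff, Nat.beq_eq, ne8_iff, zero_add] at h
  rw [V1, ← h1, ← h.1, ← hS.z] at hx
  rw [V1, ← h2, ← h.2.1, ← hS.z] at hy
  rw [← h1, ← h2, ← hS.z] at hr
  rw [← h1, ← hS.z] at h6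
  exact hp (e.2 (e_ptr S (hS.z ▸ h.2.2.1) (hS.z ▸ h.2.2.2) hr hx hy h6))

omit hS in
theorem k10_sound (h : k10 ob c = true) : Sat (LL S ob) c := by
  by_contra hc
  obtain ⟨x, h, hx⟩ := lit_neg hc h
  obtain ⟨y, h, hy⟩ := lit_neg hc h
  rw [V0, ← Nat.eq_of_beq_eq_true h] at hy
  exact hy _ ((V1 S x).1 hx)

theorem k11_sound (h : k11 ob c = true) : Sat (LL S ob) c := by
  by_contra hc
  obtain ⟨x, h, hx⟩ := lit_neg hc h
  obtain ⟨y, h, hy⟩ := lit_neg hc h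
  simp only [an_iff, Nat.beq_eq, Nat.blt_eq, Nat.ble_eq] at h
  rw [V1] at hx hy
  rw [← h.1] at hy
  obtain ⟨A, a, B, b, C, e, e1, e2, h3⟩ := two_split hS hx hy h.2.1
  have g1 : (digs (lo x)).getD (hi x) 0 = a := by rw [e, ← e1]; simp
  have g2 : (digs (lo x)).getD (hi y) 0 = b := by
    rw [e, ← e2, ← List.cons_append, ← List.append_assoc]; simp
  rw [g1, g2] at h
  exact h3 h.2.2

omit hS in
theorem has_sound (hc : ¬ Sat (LL S ob) c) {x i : ℕ} (h : has ob c x i = true) :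
    ¬ PV S (digs x) i := by
  obtain ⟨k, -, h⟩ := List.any_eq_true.1 h
  obtain ⟨y, h, hy⟩ := lit_pos hc h
  simp only [an_iff, Nat.beq_eq] at h
  rwa [V1, h.1, h.2] at hy

omit hS in
theorem k12_sound (h : k12 ob c = true) : Sat (LL S ob) c := by
  by_contra hc
  obtain ⟨x, h, hx⟩ := lit_pos hc h
  refine hx ((V0 S x).2 fun j hj => ?_)
  refine has_sound hc (List.all_eq_true.1 h j ?_) hj
  obtain ⟨A, a, B, e, rfl, -⟩ := hj
  simp [e]

theorem k13_sound (h : k13 ob c = true) : Sat (LL S ob) c := by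
  by_contra hc
  obtain ⟨x, h, hx⟩ := lit_neg hc h
  obtain ⟨i, j, hij, hj, p1, p2, h3⟩ := two_idx hS ((V2 S x).1 hx)
  have := List.all_eq_true.1 (List.all_eq_true.1 h j (by simpa using hj)) i (by simpa using hij)
  simp only [orr_iff, Nat.ble_eq] at this
  rcases this with h | h | h
  · exact has_sound hc h p1
  · exact has_sound hc h p2
  · exact h3 h

theorem kx_sound (h : kx ob c = true) : Sat (LL S ob) c := by
  simp only [kx, orr_iff] at h
  rcases h with h | h | h | h | h | h | h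
  exacts [k9_sound hS h, k0_sound hS h, k12_sound h, k13_sound hS h, k10_sound h,
    k11_sound hS h, k7_sound hS h]

end Pool.Agent.H5.Can1
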