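import Pool.Agent.H5.Can3

set_option autoImplicit false

namespace Pool.Agent.H5.Can1

structure Bad (S : Sys ℤ) : Prop where
  z : S.z = 0
  bad : ∀ L : List (ℤ × ℤ × ℤ), (∀ c ∈ L, c.1 + c.2.2 = 2 * c.2.1) →
    (L.map fun c => (c.2.1 - c.1) ^ 2).sum = 48 →
    (S.T (L.map fun c => (c.1, c.2.1)) ∨ S.T (L.map fun c => (c.2.1, c.2.2)) ∨
      S.T (L.map fun c => (c.1, c.2.2))) ∧
    ¬ (S.T (L.map fun c => (c.1, c.2.1)) ∧ S.T (L.map fun c => (c.2.1, c.2.2)))

theorem no_T {α : Type} [DecidableEq α] (S : Sys α) {t1 t2 : List (α × α)} {a : α} {A B : List α}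
    (hv : Vis S A a B) (h : S.T (t1 ++ (a, S.z) :: t2)) (e1 : nz S.z A = w1 S.z t1)
    (e2 : nz S.z B = w1 S.z t2) : False :=
  vis_ne S (vis_tr S h (vis_congr S (by simp [e1]) (by simp [e2]) hv)) rfl

theorem bad' {S : Sys ℤ} (hS : Bad S) {β : Type} (L : List β) (f g h : β → ℤ)
    (h1 : ∀ c ∈ L, f c + h c = 2 * g c) (h2 : (L.map fun c => (g c - f c) ^ 2).sum = 48) :
    (S.T (L.map fun c => (f c, g c)) ∨ S.T (L.map fun c => (g c, h c)) ∨
      S.T (L.map fun c => (f c, h c))) ∧
    ¬ (S.T (L.map fun c => (f c, g c)) ∧ S.T (L.map fun c => (g c, h c))) := by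
  have := hS.bad (L.map fun c => (f c, g c, h c)) (by simpa using h1)
    (by simpa [Function.comp_def] using h2)
  simpa [Function.comp_def] using this

theorem symm' {α β : Type} (S : Sys α) (L : List β) (f g : β → α)
    (h : S.T (L.map fun c => (f c, g c))) : S.T (L.map fun c => (g c, f c)) := by
  simpa [Function.comp_def] using S.symm _ h

def pd : ℕ → List (ℤ × ℤ × ℤ × ℤ × ℤ)
  | 0 => []
  | r + 1 => (2, 0, 2, 0, 1) :: (0, 2, 0, 2, 1) :: pd r

theorem pd_nz (r : ℕ) : nz 0 ((pd r).map fun c => c.1) = List.replicate r 2 ∧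
    nz 0 ((pd r).map fun c => c.2.1) = List.replicate r 2 ∧
    nz 0 ((pd r).map fun c => c.2.2.1) = List.replicate r 2 ∧
    nz 0 ((pd r).map fun c => c.2.2.2.1) = List.replicate r 2 := by
  induction r with
  | zero => simp [pd]
  | succ r ih => simp [pd, nz_cons, ih, List.replicate_succ]

theorem pd_mem (r : ℕ) : ∀ c ∈ pd r, c.1 + c.2.1 = 2 * c.2.2.2.2 ∧
    c.2.2.1 + c.2.2.2.1 = 2 * c.2.2.2.2 := by
  induction r with
  | zero => simp [pd]
  | succ r ih => simpa [pd] using ih

theorem pd_sum (r : ℕ) : ((pd r).map fun c => (c.2.2.2.2 - c.1) ^ 2).sum = 2 * (r : ℤ) ∧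
    ((pd r).map fun c => (c.2.2.2.2 - c.2.2.1) ^ 2).sum = 2 * (r : ℤ) := by
  induction r with
  | zero => simp [pd]
  | succ r ih => simp [pd, ih]; ring

theorem nz_rep (r : ℕ) : nz (0 : ℤ) (List.replicate r 2) = List.replicate r 2 := by simp [nz]

theorem amo0 {S : Sys ℤ} (hS : Bad S) (r : ℕ) (A B C : List ℤ) (a b : ℤ)
    (hr : r + a ^ 2 + b ^ 2 = 24)
    (ha : Vis S (List.replicate r 2 ++ A) (2 * a) (B ++ (2 * b) :: C))
    (hb : Vis S (List.replicate r 2 ++ A ++ (2 * a) :: B) (2 * b) C) : False := by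
  have a0 := vis_ne S ha
  have b0 := vis_ne S hb
  have hz := hS.z
  rw [hz] at a0 b0
  obtain ⟨n1, n2, n3, n4⟩ := pd_nz r
  set L := pd r ++ A.map (fun x => (x, x, x, x, x)) ++ (2 * a, 0, 2 * a, 0, a) ::
    (0, 2 * a, 0, 2 * a, a) :: (B.map (fun x => (x, x, x, x, x)) ++ (2 * b, 0, 0, 2 * b, b) ::
    (0, 2 * b, 2 * b, 0, b) :: C.map (fun x => (x, x, x, x, x))) with hL
  have m : ∀ c ∈ L, c.1 + c.2.1 = 2 * c.2.2.2.2 ∧ c.2.2.1 + c.2.2.2.1 = 2 * c.2.2.2.2 := by
    intro c hc
    simp only [hL, List.mem_append, List.mem_cons, List.mem_map] at hc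
    rcases hc with (hc | ⟨x, -, rfl⟩) | rfl | rfl | ⟨x, -, rfl⟩ | rfl | rfl | ⟨x, -, rfl⟩
    · exact pd_mem r c hc
    all_goals simp [two_mul]
  have t1 := (bad' hS L (fun c => c.1) (fun c => c.2.2.2.2) (fun c => c.2.1) (fun c hc => (m c hc).1)
    (by simp [hL, Function.comp_def, pd_sum]; linarith)).1
  have t2 := (bad' hS L (fun c => c.2.2.1) (fun c => c.2.2.2.2) (fun c => c.2.2.2.1)
    (fun c hc => (m c hc).2) (by simp [hL, Function.comp_def, pd_sum]; linarith)).1
  have x12 : ¬ S.T (L.map fun c => (c.1, c.2.1)) := by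
    intro h
    rw [hL, List.map_append, List.map_cons, ← hz] at h
    refine no_T S ha h ?_ ?_ <;>
      simp [hz, w1_l, w1_cons, nz_cons, Function.comp_def, n1, nz_rep, a0, b0]
  have x14 : ¬ S.T (L.map fun c => (c.1, c.2.2.2.1)) := by
    intro h
    rw [hL, List.map_append, List.map_cons, ← hz] at h
    refine no_T S ha h ?_ ?_ <;>
      simp [hz, w1_l, w1_cons, nz_cons, Function.comp_def, n1, nz_rep, a0, b0]
  have x32 : ¬ S.T (L.map fun c => (c.2.2.1, c.2.1)) := by
    intro h
    rw [hL, List.map_append, List.map_cons, ← hz] at h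
    refine no_T S ha h ?_ ?_ <;>
      simp [hz, w1_l, w1_cons, nz_cons, Function.comp_def, n3, nz_rep, a0, b0]
  have x34 : ¬ S.T (L.map fun c => (c.2.2.1, c.2.2.2.1)) := by
    intro h
    rw [hL, List.map_append, List.map_cons, ← hz] at h
    refine no_T S ha h ?_ ?_ <;>
      simp [hz, w1_l, w1_cons, nz_cons, Function.comp_def, n3, nz_rep, a0, b0]
  have x13 : ¬ S.T (L.map fun c => (c.1, c.2.2.1)) := by
    intro h
    rw [hL, ← List.cons_append, ← List.cons_append, ← List.append_assoc, List.map_append,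
      List.map_cons, ← hz] at h
    refine no_T S hb h ?_ ?_ <;>
      simp [hz, w1_l, w1_cons, nz_cons, Function.comp_def, n1, nz_rep, a0, b0]
  have x42 : ¬ S.T (L.map fun c => (c.2.2.2.1, c.2.1)) := by
    intro h
    rw [hL, ← List.cons_append, ← List.cons_append, ← List.append_assoc, List.map_append,
      List.map_cons, ← hz] at h
    refine no_T S hb h ?_ ?_ <;>
      simp [hz, w1_l, w1_cons, nz_cons, Function.comp_def, n4, nz_rep, a0, b0]
  rcases t1 with t1 | t1 | t1
  · rcases t2 with t2 | t2 | t2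
    · exact x13 (trans' S L _ _ _ t1 (symm' S L _ _ t2))
    · exact x14 (trans' S L _ _ _ t1 t2)
    · exact x34 t2
  · rcases t2 with t2 | t2 | t2
    · exact x32 (trans' S L _ _ _ t2 t1)
    · exact x42 (trans' S L _ _ _ (symm' S L _ _ t2) t1)
    · exact x34 t2
  · exact x12 t1

def em (n : ℕ) : ℤ := 2 * ((n : ℤ) - 8)

def padT (S : Sys ℤ) (P : List ℤ) (t : List (ℕ × ℕ)) : Prop :=
  S.T (dg P ++ t.map fun c => (em c.1, em c.2))

def pad (S : Sys ℤ) (hz : S.z = 0) (P : List ℤ) : Sys ℕ where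
  z := 8
  T := padT S P
  refl w := by
    simpa [padT, dg, Function.comp_def] using S.refl (P ++ w.map em)
  symm t h := by
    simpa [padT, Function.comp_def] using S.symm _ h
  trans L h1 h2 := by
    have := S.trans (P.map (fun x => (x, x, x)) ++ L.map fun c => (em c.1, em c.2.1, em c.2.2))
      (by simpa [padT, dg, Function.comp_def] using h1)
      (by simpa [padT, dg, Function.comp_def] using h2)
    simpa [padT, dg, Function.comp_def] using this
  zero A B := by
    have := S.zero (dg P ++ A.map fun c => (em c.1, em c.2)) (B.map fun c => (em c.1, em c.2))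
    simpa [padT, hz, em] using this

theorem sq_cast (a b : ℕ) : ((sq a b : ℕ) : ℤ) = ((b : ℤ) - a) ^ 2 := by
  show (((a - b) * (a - b) + (b - a) * (b - a) : ℕ) : ℤ) = _
  rcases le_total a b with h | h
  · rw [Nat.sub_eq_zero_of_le h]; push_cast [h]; ring
  · rw [Nat.sub_eq_zero_of_le h]; push_cast [h]; ring

theorem vis_pad {S : Sys ℤ} (hz : S.z = 0) {P : List ℤ} {A B : List ℕ} {a : ℕ}
    (h : Vis (pad S hz P) A a B) : Vis S (P ++ A.map em) (em a) (B.map em) := by
  intro h'
  apply h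
  show padT S P _
  have e : em (pad S hz P).z = 0 := rfl
  simpa [padT, dg, Function.comp_def, hz, e] using h'

theorem nice_pad {S : Sys ℤ} (hS : Bad S) : Nice (pad S hS.z (List.replicate 22 2)) where
  z := rfl
  amo A a B b C h h1 h2 := by
    have a0 : a ≠ 8 := vis_ne _ h1
    have b0 : b ≠ 8 := vis_ne _ h2
    have e1 := sq_cast a 8
    have e2 := sq_cast b 8
    have p1 : 1 ≤ sq a 8 := by
      have : ((8 : ℕ) : ℤ) - a ≠ 0 := by omega
      have := sq_pos_of_ne_zero this
      omega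
    have p2 : 1 ≤ sq b 8 := by
      have : ((8 : ℕ) : ℤ) - b ≠ 0 := by omega
      have := sq_pos_of_ne_zero this
      omega
    obtain ⟨r, hr⟩ : ∃ r, r + sq a 8 + sq b 8 = 24 := ⟨24 - (sq a 8 + sq b 8), by omega⟩
    obtain ⟨s, hs⟩ : ∃ s, 22 = r + s := ⟨22 - r, by omega⟩
    have v1 := vis_pad hS.z h1
    have v2 := vis_pad hS.z h2
    rw [hs, List.replicate_add] at v1 v2
    refine amo0 hS r (List.replicate s 2 ++ A.map em) (B.map em) (C.map em) (a - 8) (b - 8) ?_
      (by simpa [em, ← List.append_assoc] using v1) (by simpa [em, ← List.append_assoc] using v2)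
    have : (r : ℤ) + sq a 8 + sq b 8 = 24 := by exact_mod_cast hr
    rw [e1, e2] at this
    push_cast at this
    linarith
  bad L h1 h2 := by
    generalize List.replicate 22 (2 : ℤ) = P
    have := hS.bad (P.map (fun x => (x, x, x)) ++
      L.map fun c => (em c.1, em c.2.1, em c.2.2)) (by
        intro c hc
        simp only [List.mem_append, List.mem_map] at hc
        rcases hc with ⟨x, -, rfl⟩ | ⟨x, hx, rfl⟩
        · simp [two_mul]
        · have := h1 x hx
          simp only [em]; omega) (by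
        have e : (L.map fun c => (em c.2.1 - em c.1) ^ 2).sum =
            4 * ((L.map fun c => sq c.1 c.2.1).sum : ℕ) := by
          clear h1 h2
          induction L with
          | nil => simp
          | cons c L ih =>
            simp only [List.map_cons, List.sum_cons, ih, Nat.cast_add, sq_cast]
            simp only [em]; ring
        simp [Function.comp_def, e, h2])
    simpa [pad, padT, dg, Function.comp_def] using this

end Pool.Agent.H5.Can1
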