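import Pool.Agent.H5.CanV0

set_option autoImplicit false

namespace Pool.Agent.H5.CanD
open Pool.Agent.H5.CanR Pool.Agent.H5.Can1

theorem l0 : allR (lem db hs) 8 28090 28282 = true := by decide +kernel
theorem l3 : allR (lem db hs) 8 28482 28738 = true := by decide +kernel
theorem l6 : allR (lem db hs) 8 28865 28910 = true := by decide +kernel
theorem l9 : allR (lem db hs) 8 29026 29063 = true := by decide +kernel
theorem l12 : allR (lem db hs) 8 29144 29169 = true := by decide +kernel

end Pool.Agent.H5.CanD
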