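import Pool.Agent.H5.CanV0

set_option autoImplicit false

namespace Pool.Agent.H5.CanD
open Pool.Agent.H5.CanR Pool.Agent.H5.Can1

theorem l1 : allR (lem db hs) 8 28282 28379 = true := by decide +kernel
theorem l4 : allR (lem db hs) 8 28738 28797 = true := by decide +kernel
theorem l7 : allR (lem db hs) 8 28910 28965 = true := by decide +kernel
theorem l10 : allR (lem db hs) 8 29063 29100 = true := by decide +kernel
theorem l13 : allR (lem db hs) 8 29169 29188 = true := by decide +kernel

end Pool.Agent.H5.CanD
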