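import Pool.Agent.H5.CanV0

set_option autoImplicit false

namespace Pool.Agent.H5.CanD
open Pool.Agent.H5.CanR Pool.Agent.H5.Can1

theorem l2 : allR (lem db hs) 8 28379 28482 = true := by decide +kernel
theorem l5 : allR (lem db hs) 8 28797 28865 = true := by decide +kernel
theorem l8 : allR (lem db hs) 8 28965 29026 = true := by decide +kernel
theorem l11 : allR (lem db hs) 8 29100 29144 = true := by decide +kernel

end Pool.Agent.H5.CanD
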