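import Pool.Agent.H5.CanV0

set_option autoImplicit false

namespace Pool.Agent.H5.CanD
open Pool.Agent.H5.CanR Pool.Agent.H5.Can1

theorem v6 : allR (fun i => k0 ob (db i)) 10 4858 5882 = true := by decide +kernel
theorem v7 : allR (fun i => k0 ob (db i)) 10 5882 6906 = true := by decide +kernel
theorem v8 : allR (fun i => k0 ob (db i)) 10 6906 7930 = true := by decide +kernel
theorem v9 : allR (fun i => k0 ob (db i)) 10 7930 8954 = true := by decide +kernel
theorem v10 : allR (fun i => k0 ob (db i)) 10 8954 9978 = true := by decide +kernel
theorem v11 : allR (fun i => k0 ob (db i)) 10 9978 11002 = true := by decide +kernel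
theorem v12 : allR (fun i => k0 ob (db i)) 10 11002 12026 = true := by decide +kernel
theorem v13 : allR (fun i => k0 ob (db i)) 10 12026 12369 = true := by decide +kernel
theorem v14 : allR (fun i => k1 ob (db i)) 10 12369 13393 = true := by decide +kernel
theorem v15 : allR (fun i => k1 ob (db i)) 10 13393 14417 = true := by decide +kernel
theorem v16 : allR (fun i => k1 ob (db i)) 10 14417 15441 = true := by decide +kernel
theorem v17 : allR (fun i => k1 ob (db i)) 10 15441 16465 = true := by decide +kernel
theorem v18 : allR (fun i => k1 ob (db i)) 10 16465 17489 = true := by decide +kernel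
theorem v19 : allR (fun i => k1 ob (db i)) 10 17489 18420 = true := by decide +kernel

end Pool.Agent.H5.CanD
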