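import Pool.Agent.H5.CanV0

set_option autoImplicit false

namespace Pool.Agent.H5.CanD
open Pool.Agent.H5.CanR Pool.Agent.H5.Can1

theorem v20 : allR (fun i => k4 ob (db i)) 10 18420 19444 = true := by decide +kernel
theorem v21 : allR (fun i => k4 ob (db i)) 10 19444 20468 = true := by decide +kernel
theorem v22 : allR (fun i => k4 ob (db i)) 10 20468 21492 = true := by decide +kernel
theorem v23 : allR (fun i => k4 ob (db i)) 10 21492 21672 = true := by decide +kernel
theorem v24 : allR (fun i => k5 ob (db i)) 10 21672 22696 = true := by decide +kernel
theorem v25 : allR (fun i => k5 ob (db i)) 10 22696 23720 = true := by decide +kernel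
theorem v26 : allR (fun i => k5 ob (db i)) 10 23720 24501 = true := by decide +kernel
theorem v27 : allR (fun i => k6 ob (db i)) 10 24501 25525 = true := by decide +kernel
theorem v28 : allR (fun i => k6 ob (db i)) 10 25525 26549 = true := by decide +kernel
theorem v29 : allR (fun i => k6 ob (db i)) 10 26549 26971 = true := by decide +kernel
theorem v30 : allR (fun i => k8 ob (db i)) 10 26971 27686 = true := by decide +kernel
theorem v31 : allR (fun i => kx ob (db i)) 10 27686 28090 = true := by decide +kernel

end Pool.Agent.H5.CanD
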