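import Pool.Agent.H5.CanV1
import Pool.Agent.H5.CanV2
import Pool.Agent.H5.CanV3
import Pool.Agent.H5.CanL1
import Pool.Agent.H5.CanL2
import Pool.Agent.H5.CanL3

set_option autoImplicit false

namespace Pool.Agent.H5.CanD
open Pool.Agent.H5.CanR Pool.Agent.H5.Can1

theorem base {S : Sys ℕ} (hS : Nice S) : ∀ i < 28090, Sat (LL S ob) (db i) := by
  intro i hi
  by_cases h0 : i < 1024
  · exact k2_sound hS (allR_sound v0 (by norm_num) i (by omega) h0)
  by_cases h1 : i < 2048
  · exact k2_sound hS (allR_sound v1 (by norm_num) i (by omega) h1)
  by_cases h2 : i < 3072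
  · exact k2_sound hS (allR_sound v2 (by norm_num) i (by omega) h2)
  by_cases h3 : i < 3319
  · exact k2_sound hS (allR_sound v3 (by norm_num) i (by omega) h3)
  by_cases h4 : i < 4343
  · exact k3_sound hS (allR_sound v4 (by norm_num) i (by omega) h4)
  by_cases h5 : i < 4858
  · exact k3_sound hS (allR_sound v5 (by norm_num) i (by omega) h5)
  by_cases h6 : i < 5882
  · exact k0_sound hS (allR_sound v6 (by norm_num) i (by omega) h6)
  by_cases h7 : i < 6906
  · exact k0_sound hS (allR_sound v7 (by norm_num) i (by omega) h7)
  by_cases h8 : i < 7930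
  · exact k0_sound hS (allR_sound v8 (by norm_num) i (by omega) h8)
  by_cases h9 : i < 8954
  · exact k0_sound hS (allR_sound v9 (by norm_num) i (by omega) h9)
  by_cases h10 : i < 9978
  · exact k0_sound hS (allR_sound v10 (by norm_num) i (by omega) h10)
  by_cases h11 : i < 11002
  · exact k0_sound hS (allR_sound v11 (by norm_num) i (by omega) h11)
  by_cases h12 : i < 12026
  · exact k0_sound hS (allR_sound v12 (by norm_num) i (by omega) h12)
  by_cases h13 : i < 12369
  · exact k0_sound hS (allR_sound v13 (by norm_num) i (by omega) h13)
  by_cases h14 : i < 13393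
  · exact k1_sound hS (allR_sound v14 (by norm_num) i (by omega) h14)
  by_cases h15 : i < 14417
  · exact k1_sound hS (allR_sound v15 (by norm_num) i (by omega) h15)
  by_cases h16 : i < 15441
  · exact k1_sound hS (allR_sound v16 (by norm_num) i (by omega) h16)
  by_cases h17 : i < 16465
  · exact k1_sound hS (allR_sound v17 (by norm_num) i (by omega) h17)
  by_cases h18 : i < 17489
  · exact k1_sound hS (allR_sound v18 (by norm_num) i (by omega) h18)
  by_cases h19 : i < 18420
  · exact k1_sound hS (allR_sound v19 (by norm_num) i (by omega) h19)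
  by_cases h20 : i < 19444
  · exact k4_sound hS (allR_sound v20 (by norm_num) i (by omega) h20)
  by_cases h21 : i < 20468
  · exact k4_sound hS (allR_sound v21 (by norm_num) i (by omega) h21)
  by_cases h22 : i < 21492
  · exact k4_sound hS (allR_sound v22 (by norm_num) i (by omega) h22)
  by_cases h23 : i < 21672
  · exact k4_sound hS (allR_sound v23 (by norm_num) i (by omega) h23)
  by_cases h24 : i < 22696
  · exact k5_sound hS (allR_sound v24 (by norm_num) i (by omega) h24)
  by_cases h25 : i < 23720
  · exact k5_sound hS (allR_sound v25 (by norm_num) i (by omega) h25)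
  by_cases h26 : i < 24501
  · exact k5_sound hS (allR_sound v26 (by norm_num) i (by omega) h26)
  by_cases h27 : i < 25525
  · exact k6_sound hS (allR_sound v27 (by norm_num) i (by omega) h27)
  by_cases h28 : i < 26549
  · exact k6_sound hS (allR_sound v28 (by norm_num) i (by omega) h28)
  by_cases h29 : i < 26971
  · exact k6_sound hS (allR_sound v29 (by norm_num) i (by omega) h29)
  by_cases h30 : i < 27686
  · exact k8_sound (allR_sound v30 (by norm_num) i (by omega) h30)
  by_cases h31 : i < 28090
  · exact kx_sound hS (allR_sound v31 (by norm_num) i (by omega) h31)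
  omega

theorem lems : ∀ i, 28090 ≤ i → i < 29188 → lem db hs i = true := by
  intro i h hi
  by_cases h0 : i < 28282
  · exact allR_sound l0 (by norm_num) i (by omega) h0
  by_cases h1 : i < 28379
  · exact allR_sound l1 (by norm_num) i (by omega) h1
  by_cases h2 : i < 28482
  · exact allR_sound l2 (by norm_num) i (by omega) h2
  by_cases h3 : i < 28738
  · exact allR_sound l3 (by norm_num) i (by omega) h3
  by_cases h4 : i < 28797
  · exact allR_sound l4 (by norm_num) i (by omega) h4
  by_cases h5 : i < 28865
  · exact allR_sound l5 (by norm_num) i (by omega) h5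
  by_cases h6 : i < 28910
  · exact allR_sound l6 (by norm_num) i (by omega) h6
  by_cases h7 : i < 28965
  · exact allR_sound l7 (by norm_num) i (by omega) h7
  by_cases h8 : i < 29026
  · exact allR_sound l8 (by norm_num) i (by omega) h8
  by_cases h9 : i < 29063
  · exact allR_sound l9 (by norm_num) i (by omega) h9
  by_cases h10 : i < 29100
  · exact allR_sound l10 (by norm_num) i (by omega) h10
  by_cases h11 : i < 29144
  · exact allR_sound l11 (by norm_num) i (by omega) h11
  by_cases h12 : i < 29169
  · exact allR_sound l12 (by norm_num) i (by omega) h12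
  by_cases h13 : i < 29188
  · exact allR_sound l13 (by norm_num) i (by omega) h13
  omega

theorem last : db 29187 = 0 := by decide +kernel

theorem not_nice (S : Sys ℕ) : ¬ Nice S := fun hS =>
  not_sat_zero (good_LL S ob) (last ▸ lem_all (good_LL S ob) (base hS) lems 29187 (by norm_num))

end Pool.Agent.H5.CanD
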