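import Pool.Agent.H5.Can5
import Pool.Agent.H5.CanV9

set_option autoImplicit false

namespace Pool.Agent.H5.Can1
open Filter

noncomputable def pt (n : ℕ) (x : ℕ → ℤ) : EuclideanSpace ℝ (Fin n) :=
  WithLp.toLp 2 fun i => (x i : ℝ) / √48

theorem dist_pt (n : ℕ) (x y : ℕ → ℤ) (k : ℕ)
    (h : ∑ i ∈ Finset.range n, (y i - x i) ^ 2 = 48 * k ^ 2) : dist (pt n x) (pt n y) = k := by
  rw [EuclideanSpace.dist_eq]
  have e : ∑ i : Fin n, dist (pt n x i) (pt n y i) ^ 2 = (k : ℝ) ^ 2 := by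
    have : ∀ i : Fin n, dist (pt n x i) (pt n y i) ^ 2 = (((y i - x i) ^ 2 : ℤ) : ℝ) / 48 := by
      intro i
      simp only [pt, Real.dist_eq, sq_abs, ← sub_div, div_pow]
      rw [Real.sq_sqrt (by norm_num)]
      push_cast; ring
    simp only [this]
    rw [← Finset.sum_div, ← Int.cast_sum, Fin.sum_univ_eq_sum_range (fun i => (y i - x i) ^ 2), h]
    push_cast; ring
  rw [e, Real.sqrt_sq (by positivity)]

variable (χ : ∀ n : ℕ, EuclideanSpace ℝ (Fin n) → ℝ)

def Tk : List (ℤ × ℤ) → (ℕ → ℤ) → (ℕ → ℤ) → Prop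
  | [], x, y => ∀ᶠ n in hyperfilter ℕ, χ n (pt n x) = χ n (pt n y)
  | c :: t, x, y => ∀ᶠ p in hyperfilter ℕ, Tk t (x + Pi.single p c.1) (y + Pi.single p c.2)

theorem Tk_refl (w : List ℤ) : ∀ x, Tk χ (w.map fun a => (a, a)) x x := by
  induction w with
  | nil => intro x; exact Eventually.of_forall fun _ => rfl
  | cons a w ih => intro x; exact Eventually.of_forall fun _ => ih _

theorem Tk_symm (t : List (ℤ × ℤ)) : ∀ x y, Tk χ t x y → Tk χ (t.map Prod.swap) y x := by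
  induction t with
  | nil => intro x y h; exact h.mono fun _ h => h.symm
  | cons a w ih => intro x y h; exact h.mono fun _ h => ih _ _ h

theorem Tk_trans (L : List (ℤ × ℤ × ℤ)) : ∀ x y z, Tk χ (L.map fun c => (c.1, c.2.1)) x y →
    Tk χ (L.map fun c => (c.2.1, c.2.2)) y z → Tk χ (L.map fun c => (c.1, c.2.2)) x z := by
  induction L with
  | nil => intro x y z h h'; exact (Eventually.and h h').mono fun _ h => h.1.trans h.2
  | cons a w ih => intro x y z h h'; exact (Eventually.and h h').mono fun _ h => ih _ _ _ h.1 h.2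

theorem Tk_zero (B A : List (ℤ × ℤ)) : ∀ x y, Tk χ (A ++ (0, 0) :: B) x y ↔ Tk χ (A ++ B) x y := by
  induction A with
  | nil => intro x y; simp [Tk]
  | cons a w ih => intro x y; simp only [List.cons_append, Tk, ih]

def sys : Sys ℤ where
  z := 0
  T t := Tk χ t 0 0
  refl w := Tk_refl χ w 0
  symm t := Tk_symm χ t 0 0
  trans L := Tk_trans χ L 0 0 0
  zero A B := Tk_zero χ B A 0 0

theorem ev_ge (N : ℕ) : ∀ᶠ n in hyperfilter ℕ, N ≤ n :=
  Nat.hyperfilter_le_atTop (eventually_ge_atTop N)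

theorem ev3 {P Q R : ℕ → Prop} (h : ∀ᶠ n in hyperfilter ℕ, (P n ∨ Q n ∨ R n) ∧ ¬ (P n ∧ Q n)) :
    ((∀ᶠ n in hyperfilter ℕ, P n) ∨ (∀ᶠ n in hyperfilter ℕ, Q n) ∨ (∀ᶠ n in hyperfilter ℕ, R n)) ∧
      ¬ ((∀ᶠ n in hyperfilter ℕ, P n) ∧ (∀ᶠ n in hyperfilter ℕ, Q n)) := by
  rw [eventually_and] at h
  refine ⟨by simpa only [Ultrafilter.eventually_or] using h.1, fun h' => ?_⟩
  obtain ⟨n, h1, h2⟩ := (h.2.and (h'.1.and h'.2)).exists
  exact h1 h2

variable (hχ : ∀ n, ∀ a b c : EuclideanSpace ℝ (Fin n), dist a b = 1 → dist b c = 1 → dist a c = 2 →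
  ¬ ((χ n a = χ n b ∧ χ n b = χ n c) ∨ (χ n a ≠ χ n b ∧ χ n b ≠ χ n c ∧ χ n a ≠ χ n c)))
include hχ

theorem Tk_bad (L : List (ℤ × ℤ × ℤ)) (hL : ∀ c ∈ L, c.1 + c.2.2 = 2 * c.2.1) :
    ∀ (x y z : ℕ → ℤ) (N : ℕ) (s : ℤ), (∀ i, x i + z i = 2 * y i) → (∀ i, N ≤ i → x i = y i) →
    (∀ n, N ≤ n → ∑ i ∈ Finset.range n, (y i - x i) ^ 2 = s) →
    s + (L.map fun c => (c.2.1 - c.1) ^ 2).sum = 48 →
    (Tk χ (L.map fun c => (c.1, c.2.1)) x y ∨ Tk χ (L.map fun c => (c.2.1, c.2.2)) y z ∨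
      Tk χ (L.map fun c => (c.1, c.2.2)) x z) ∧
    ¬ (Tk χ (L.map fun c => (c.1, c.2.1)) x y ∧ Tk χ (L.map fun c => (c.2.1, c.2.2)) y z) := by
  induction L with
  | nil =>
    intro x y z N s h1 h2 h3 h4
    refine ev3 ((ev_ge N).mono fun n hn => ?_)
    have e := h3 n hn
    simp only [List.map_nil, List.sum_nil, add_zero] at h4
    rw [h4] at e
    have := hχ n (pt n x) (pt n y) (pt n z)
      (by simpa using dist_pt n x y 1 (by simpa using e))
      (by
        simpa using dist_pt n y z 1 (by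
          rw [Finset.sum_congr rfl (g := fun i => (y i - x i) ^ 2) (fun i _ => by
            rw [show z i - y i = y i - x i by linarith [h1 i]]), e]; simp))
      (by
        simpa using dist_pt n x z 2 (by
          rw [Finset.sum_congr rfl (g := fun i => 4 * (y i - x i) ^ 2) (fun i _ => by
            rw [show z i - x i = 2 * (y i - x i) by linarith [h1 i]]; ring), ← Finset.mul_sum, e]
          simp))
    tauto
  | cons c L ih =>
    intro x y z N s h1 h2 h3 h4
    refine ev3 ((ev_ge N).mono fun p hp => ?_)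
    have hc := hL c (by simp)
    refine ih (fun d hd => hL d (by simp [hd])) _ _ _ (p + 1) (s + (c.2.1 - c.1) ^ 2) ?_ ?_ ?_
      (by simpa [add_assoc] using h4)
    · intro i
      by_cases hi : i = p
      · subst hi; simp; linarith [h1 i]
      · simp [hi, h1]
    · intro i hi
      simp [show i ≠ p by omega, h2 i (by omega)]
    · intro n hn
      rw [← h3 n (by omega)]
      have : (c.2.1 - c.1) ^ 2 = ∑ i ∈ Finset.range n, if i = p then (c.2.1 - c.1) ^ 2 else 0 := by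
        simp [show p < n by omega]
      rw [this, ← Finset.sum_add_distrib]
      refine Finset.sum_congr rfl fun i _ => ?_
      by_cases hi : i = p
      · subst hi; simp [h2 i hp]
      · simp [hi]

theorem bad_sys : Bad (sys χ) where
  z := rfl
  bad L h1 h2 := Tk_bad χ hχ L h1 0 0 0 0 0 (by simp) (by simp) (by simp) (by simpa using h2)

omit hχ in
theorem canon : ∃ n : ℕ, ∀ χ : EuclideanSpace ℝ (Fin n) → ℝ,
    ∃ a b c : EuclideanSpace ℝ (Fin n), dist a b = 1 ∧ dist b c = 1 ∧ dist a c = 2 ∧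
      ((χ a = χ b ∧ χ b = χ c) ∨ (χ a ≠ χ b ∧ χ b ≠ χ c ∧ χ a ≠ χ c)) := by
  by_contra h
  simp only [not_exists, not_forall, not_and] at h
  choose χ hχ using h
  exact CanD.not_nice _ (nice_pad (bad_sys χ hχ))

end Pool.Agent.H5.Can1
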