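import Pool.Agent.H5.Can6

set_option autoImplicit false

namespace Pool.Agent.H5.Can1

noncomputable def q (k : ℝ) : EuclideanSpace ℝ (Fin 1) := WithLp.toLp 2 fun _ => k

theorem dist_q (a b : ℝ) : dist (q a) (q b) = |a - b| := by
  simp [EuclideanSpace.dist_eq, q, Real.dist_eq, Real.sqrt_sq_eq_abs]

theorem q_inj {a b : ℝ} : q a = q b ↔ a = b := by
  refine ⟨fun h => ?_, fun h => by rw [h]⟩
  have := dist_q a b
  rw [h, dist_self] at this
  linarith [abs_eq_zero.1 this.symm]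

theorem mid {n : ℕ} (a b c : EuclideanSpace ℝ (Fin n)) (h1 : dist a b = 1) (h2 : dist b c = 1)
    (h3 : dist a c = 2) : ‖a‖ ^ 2 + ‖c‖ ^ 2 = 2 * ‖b‖ ^ 2 + 2 := by
  rw [dist_eq_norm] at h1 h2 h3
  have p := parallelogram_law_with_norm ℝ (a - b) (b - c)
  rw [sub_add_sub_cancel, h1, h2, h3] at p
  have e : a - b - (b - c) = 0 := by
    rw [← norm_eq_zero]; nlinarith [norm_nonneg (a - b - (b - c))]
  have p2 := parallelogram_law_with_norm ℝ b (a - b)
  have e2 : b - (a - b) = c := by rw [sub_eq_zero.1 e]; simp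
  rw [add_sub_cancel, e2, h1] at p2
  linarith

open Classical in
theorem not_ramsey :
    ¬ (∀ (d : ℕ) (K : Finset (EuclideanSpace ℝ (Fin d))),
      (∃ n : ℕ, ∀ χ : EuclideanSpace ℝ (Fin n) → ℝ,
        ∃ f : EuclideanSpace ℝ (Fin d) → EuclideanSpace ℝ (Fin n),
          (∀ x ∈ K, ∀ y ∈ K, dist (f x) (f y) = dist x y) ∧
          ((∀ x ∈ K, ∀ y ∈ K, χ (f x) = χ (f y)) ∨
           (∀ x ∈ K, ∀ y ∈ K, x ≠ y → χ (f x) ≠ χ (f y)))) →
      (∀ r : ℕ, ∃ n : ℕ, ∀ χ : EuclideanSpace ℝ (Fin n) → Fin r,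
        ∃ f : EuclideanSpace ℝ (Fin d) → EuclideanSpace ℝ (Fin n),
          (∀ x ∈ K, ∀ y ∈ K, dist (f x) (f y) = dist x y) ∧
          (∀ x ∈ K, ∀ y ∈ K, χ (f x) = χ (f y)))) := by
  intro h
  obtain ⟨n, hn⟩ := h 1 {q 0, q 1, q 2} (by
    obtain ⟨n, hn⟩ := canon
    refine ⟨n, fun χ => ?_⟩
    obtain ⟨a, b, c, h1, h2, h3, h4⟩ := hn χ
    have h1' : dist b a = 1 := by rwa [dist_comm]
    have h2' : dist c b = 1 := by rwa [dist_comm]
    have h3' : dist c a = 2 := by rwa [dist_comm]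
    refine ⟨fun x => if x = q 0 then a else if x = q 1 then b else c, ?_, ?_⟩
    · simp only [Finset.mem_insert, Finset.mem_singleton, forall_eq_or_imp, forall_eq, q_inj, dist_q]
      norm_num [h1, h2, h3, h1', h2', h3']
    · simp only [Finset.mem_insert, Finset.mem_singleton, forall_eq_or_imp, forall_eq, q_inj, ne_eq]
      norm_num
      rcases h4 with ⟨e1, e2⟩ | ⟨e1, e2, e3⟩
      · left; simp [e1, e2]
      · right; exact ⟨⟨e1, e3⟩, ⟨e1.symm, e2⟩, e3.symm, e2.symm⟩) 4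
  obtain ⟨f, h1, h2⟩ := hn fun x => ⟨⌊‖x‖ ^ 2⌋₊ % 4, Nat.mod_lt _ (by norm_num)⟩
  have m := mid (f (q 0)) (f (q 1)) (f (q 2))
    (by rw [h1 _ (by simp) _ (by simp), dist_q]; norm_num)
    (by rw [h1 _ (by simp) _ (by simp), dist_q]; norm_num)
    (by rw [h1 _ (by simp) _ (by simp), dist_q]; norm_num)
  have c1 := Fin.mk.inj (h2 (q 0) (by simp) (q 1) (by simp))
  have c2 := Fin.mk.inj (h2 (q 1) (by simp) (q 2) (by simp))
  have u := fun x : EuclideanSpace ℝ (Fin n) => Nat.floor_le (sq_nonneg ‖x‖)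
  have v := fun x : EuclideanSpace ℝ (Fin n) => Nat.lt_floor_add_one (‖x‖ ^ 2)
  have u0 := u (f (q 0)); have u1 := u (f (q 1)); have u2 := u (f (q 2))
  have v0 := v (f (q 0)); have v1 := v (f (q 1)); have v2 := v (f (q 2))
  generalize ⌊‖f (q 0)‖ ^ 2⌋₊ = a at *
  generalize ⌊‖f (q 1)‖ ^ 2⌋₊ = b at *
  generalize ⌊‖f (q 2)‖ ^ 2⌋₊ = c at *
  have l1 : a + c < 2 * b + 4 := by
    have : (a : ℝ) + c < 2 * b + 4 := by linarith
    exact_mod_cast this
  have l2 : 2 * b < a + c := by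
    have : 2 * (b : ℝ) < a + c := by linarith
    exact_mod_cast this
  omega

end Pool.Agent.H5.Can1
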