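import Pool.Agent.H5.Can4
import Pool.Agent.H5.CanD1
import Pool.Agent.H5.CanD2
import Pool.Agent.H5.CanD3

set_option autoImplicit false

namespace Pool.Agent.H5.CanD
open Pool.Agent.H5.CanR Pool.Agent.H5.Can1

noncomputable def ob (i : ℕ) : ℕ := obT.slot 52 4503599627370495 i
noncomputable def wt (i : ℕ) : ℕ := wT.slot 72 4722366482869645213695 i
noncomputable def db (i : ℕ) : ℕ :=
  Bool.rec (lgT.get (Nat.sub i 27686)) (shT.slot 48 281474976710655 i) (Nat.blt i 27686)
noncomputable def hs (i : ℕ) : ℕ := hT.get (Nat.sub i 28090)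

end Pool.Agent.H5.CanD
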