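import Pool.Agent.H5.CanV0

set_option autoImplicit false

namespace Pool.Agent.H5.CanD
open Pool.Agent.H5.CanR Pool.Agent.H5.Can1

theorem v0 : allR (fun i => k2 ob (db i) (wt i)) 10 0 1024 = true := by decide +kernel
theorem v1 : allR (fun i => k2 ob (db i) (wt i)) 10 1024 2048 = true := by decide +kernel
theorem v2 : allR (fun i => k2 ob (db i) (wt i)) 10 2048 3072 = true := by decide +kernel
theorem v3 : allR (fun i => k2 ob (db i) (wt i)) 10 3072 3319 = true := by decide +kernel
theorem v4 : allR (fun i => k3 ob (db i) (wt i)) 10 3319 4343 = true := by decide +kernel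
theorem v5 : allR (fun i => k3 ob (db i) (wt i)) 10 4343 4858 = true := by decide +kernel

end Pool.Agent.H5.CanD
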