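import Pool.Agent.H5.ClosedDefs

set_option autoImplicit false

namespace Pool.Agent.H5.Closed

open Pool.Agent.H5.ClosedDefs

open Classical in
noncomputable def x (i : ℕ) : Bool := decide (∃ k, i = 5 ^ k)

lemma x_true {i : ℕ} : x i = true ↔ ∃ k, i = 5 ^ k := by simp [x]

lemma two {i p q n k : ℕ} (hk : 1 ≤ k) (h3 : 3 * 5 ^ k ≤ n) (h4 : n ≤ 4 * 5 ^ k) (hpq : p < q)
    (hq : q < n) (hp : x (i + p) = true) (hq' : x (i + q) = true) : 2 * q + 2 ≤ n := by
  obtain ⟨r, hr⟩ := x_true.1 hp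
  obtain ⟨s, hs⟩ := x_true.1 hq'
  have hrs : r < s := (Nat.pow_lt_pow_iff_right (by norm_num : 1 < 5)).1 (by omega)
  obtain ⟨s, rfl⟩ : ∃ t, s = t + 1 := ⟨s - 1, by omega⟩
  have h1 : 5 ^ r ≤ 5 ^ s := Nat.pow_le_pow_right (by norm_num) (by omega)
  rw [pow_succ] at hs
  have h2 : s < k := (Nat.pow_lt_pow_iff_right (by norm_num : 1 < 5)).1 (by omega)
  have h5 : 5 ^ (s + 1) ≤ 5 ^ k := Nat.pow_le_pow_right (by norm_num) (by omega)
  have h6 : 5 ^ 1 ≤ 5 ^ k := Nat.pow_le_pow_right (by norm_num) hk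
  rw [pow_succ] at h5
  omega

lemma key {i n k m : ℕ} (hk : 1 ≤ k) (h3 : 3 * 5 ^ k ≤ n) (h4 : n ≤ 4 * 5 ^ k) (hm : m < n)
    (hb : ∀ j < m, x (i + j) = x (i + (n - m + j)))
    (ho : ∀ t, 0 < t → t < n - m → ¬ ∀ j < m, x (i + j) = x (i + (t + j))) :
    ∀ j < n, x (i + j) = true → 2 * j + 1 = n := by
  intro j hj hx
  classical
  let P : ℕ → Prop := fun j => x (i + j) = true
  have hq : P (Nat.findGreatest P (n - 1)) := Nat.findGreatest_spec (m := j) (by omega) hx
  have hq1 : Nat.findGreatest P (n - 1) ≤ n - 1 := Nat.findGreatest_le _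
  have hjq : j ≤ Nat.findGreatest P (n - 1) := Nat.le_findGreatest (by omega) hx
  have hz : ∀ t, Nat.findGreatest P (n - 1) < t → t < n → x (i + t) = false := by
    intro t h1 h2
    simpa [P] using Nat.findGreatest_is_greatest h1 (by omega)
  generalize Nat.findGreatest P (n - 1) = q at hq hq1 hjq hz
  have hq : x (i + q) = true := hq
  have T := fun p (hp : p < q) (h : x (i + p) = true) => two hk h3 h4 hp (by omega) h hq
  by_cases c1 : n - m ≤ q
  · exfalso
    have e1 := hb (q - (n - m)) (by omega)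
    rw [show n - m + (q - (n - m)) = q by omega, hq] at e1
    have e2 := T _ (by omega) e1
    have e3 := hb q (by omega)
    rw [hq, hz _ (by omega) (by omega)] at e3
    simp at e3
  have z0 : ∀ j < m, x (i + j) = false := fun j hj => by
    rw [hb j hj, hz _ (by omega) (by omega)]
  have c2 : n - m = q + 1 := by
    by_contra c2
    refine ho (n - m - 1) (by omega) (by omega) fun j hj => ?_
    rw [z0 j hj, hz _ (by omega) (by omega)]
  have c3 : m ≤ q := by
    by_contra c3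
    rw [z0 q (by omega)] at hq
    simp at hq
  have z1 : ∀ p < q, x (i + p) = false := fun p hp => by
    by_contra h
    have := T p hp (by simpa using h)
    omega
  have c4 : j = q := by
    by_contra c4
    rw [z1 j (by omega)] at hx
    simp at hx
  have c5 : m = q := by
    by_contra c5
    refine ho 1 (by omega) (by omega) fun j hj => ?_
    rw [z0 j hj, z1 _ (by omega)]
  omega

lemma pre {A : Type} (y : ℕ → A) (i n t : ℕ) (u : List A) (h : t + u.length ≤ n) :
    u <+: (factor y i n).drop t ↔ ∀ j (hj : j < u.length), u[j] = y (i + (t + j)) := by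
  rw [List.prefix_iff_getElem]
  constructor
  · rintro ⟨h1, h2⟩ j hj
    rw [h2 j hj]
    simp [factor]
  · intro h1
    refine ⟨by simp [factor]; omega, fun j hj => ?_⟩
    rw [h1 j hj]
    simp [factor]

lemma sub {n k : ℕ} (hk : 1 ≤ k) (h3 : 3 * 5 ^ k ≤ n) (h4 : n ≤ 4 * 5 ^ k) :
    closedFactors x n ⊆ {factor (fun _ => false) 0 n,
      factor (fun j => decide (2 * j + 1 = n)) 0 n} := by
  rintro w ⟨⟨i, rfl⟩, hc⟩
  have hl : (factor x i n).length = n := by simp [factor]
  have h6 : 5 ^ 1 ≤ 5 ^ k := Nat.pow_le_pow_right (by norm_num) hk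
  rcases hc with hc | ⟨u, h1, -, -, h2⟩
  · omega
  rw [hl] at h1 h2
  have o : ∀ t, t + u.length ≤ n → ((∀ j (hj : j < u.length), u[j] = x (i + (t + j))) ↔
      t = 0 ∨ t = n - u.length) := by
    intro t ht
    rw [← pre x i n t u ht]
    have := Set.ext_iff.1 h2 t
    simp only [occ, hl, Set.mem_ofPred_eq, Set.mem_insert_iff, Set.mem_singleton_iff] at this
    rw [← this]
    exact ⟨fun h => ⟨ht, h⟩, fun h => h.2⟩
  have o0 := (o 0 (by omega)).2 (Or.inl rfl)
  have o1 := (o (n - u.length) (by omega)).2 (Or.inr rfl)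
  simp only [Nat.zero_add] at o0
  have K := key (i := i) hk h3 h4 h1 (fun j hj => by rw [← o0 j hj, o1 j hj]) (by
    intro t t0 t1 h
    have := (o t (by omega)).1 fun j hj => by rw [o0 j hj, h j hj]
    omega)
  by_cases hz : ∀ j < n, x (i + j) = false
  · left
    exact List.map_congr_left fun j hj => hz j (List.mem_range.1 hj)
  · right
    push Not at hz
    obtain ⟨j0, hj0, hx0⟩ := hz
    have e0 := K j0 hj0 (by simpa using hx0)
    refine List.map_congr_left fun j hj => ?_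
    by_cases e : 2 * j + 1 = n
    · have : j = j0 := by omega
      subst this
      simpa [e] using hx0
    · have := mt (K j (List.mem_range.1 hj)) e
      simpa [e] using this

lemma aper : Aperiodic x := by
  rintro ⟨p, N, hp, h⟩
  have h1 : N + p < 5 ^ (N + p) := Nat.lt_pow_self (by norm_num)
  have h2 := h (5 ^ (N + p)) (by omega)
  rw [x_true.2 ⟨_, rfl⟩] at h2
  obtain ⟨s, hs⟩ := x_true.1 h2
  have h3 : N + p < s := (Nat.pow_lt_pow_iff_right (by norm_num : 1 < 5)).1 (by omega)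
  have h4 : 5 ^ (N + p + 1) ≤ 5 ^ s := Nat.pow_le_pow_right (by norm_num) h3
  rw [pow_succ] at h4
  omega

theorem main : ∃ (x : ℕ → Bool) (S T : Set ℕ), Aperiodic x ∧ Syndetic S ∧ Thick T ∧
    ∀ n ∈ S ∩ T, (closedFactors x n).encard ≤ 2 := by
  refine ⟨x, Set.univ, {n | ∃ k, 1 ≤ k ∧ 3 * 5 ^ k ≤ n ∧ n ≤ 4 * 5 ^ k}, aper,
    ⟨1, fun a => ⟨a, trivial, le_rfl, by omega⟩⟩, fun l => ⟨3 * 5 ^ (l + 1), fun s h1 h2 => ?_⟩, ?_⟩
  · have : l + 1 < 5 ^ (l + 1) := Nat.lt_pow_self (by norm_num)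
    exact ⟨l + 1, by omega, h1, by omega⟩
  · rintro n ⟨-, k, hk, h3, h4⟩
    refine (Set.encard_le_encard (sub hk h3 h4)).trans ?_
    refine (Set.encard_insert_le _ _).trans ?_
    simp
    rfl

end Pool.Agent.H5.Closed
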