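import Mathlib

set_option autoImplicit false

namespace Pool.Agent.H5.ClosedDefs

variable {A : Type}

/-- The factor of length `n` of `x` starting at position `i`. -/
def factor (x : ℕ → A) (i n : ℕ) : List A := (List.range n).map fun j => x (i + j)

/-- The positions at which `u` occurs in `w`. -/
def occ (u w : List A) : Set ℕ := {t | t + u.length ≤ w.length ∧ u <+: w.drop t}

/-- Closed finite words. -/
def IsClosedWord (w : List A) : Prop :=
  w.length ≤ 1 ∨ ∃ u : List A, u.length < w.length ∧ u <+: w ∧ u <:+ w ∧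
    occ u w = {0, w.length - u.length}

/-- The set of closed factors of `x` of length `n`. -/
def closedFactors (x : ℕ → A) (n : ℕ) : Set (List A) :=
  {w | (∃ i, w = factor x i n) ∧ IsClosedWord w}

def Aperiodic (x : ℕ → A) : Prop := ¬ ∃ p N, 0 < p ∧ ∀ i ≥ N, x (i + p) = x i

def Syndetic (S : Set ℕ) : Prop := ∃ g, ∀ a, ∃ s ∈ S, a ≤ s ∧ s < a + g

def Thick (T : Set ℕ) : Prop := ∀ l, ∃ a, ∀ s, a ≤ s → s < a + l → s ∈ T

end Pool.Agent.H5.ClosedDefs
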