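import Mathlib

set_option autoImplicit false
open Polynomial

namespace Pool.Agent.H5.CycCrit

noncomputable def T (r : ℕ) (A : List ℕ) (x : ℝ) : ℝ :=
  (A.map fun e : ℕ => (e : ℝ) ^ r * x ^ (e - 1) / (1 - x ^ e) ^ r).sum

theorem T_append (r : ℕ) (A B : List ℕ) (x : ℝ) : T r (A ++ B) x = T r A x + T r B x := by
  simp [T]

theorem T_cons (r e : ℕ) (A : List ℕ) (x : ℝ) :
    T r (e :: A) x = (e : ℝ) ^ r * x ^ (e - 1) / (1 - x ^ e) ^ r + T r A x := by
  simp [T]

theorem T_map (p : ℕ) (hp : 0 < p) (A : List ℕ) (hA : ∀ e ∈ A, 0 < e) (x : ℝ) :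
    T 1 (A.map (· * p)) x = p * x ^ (p - 1) * T 1 A (x ^ p) := by
  induction A with
  | nil => simp [T]
  | cons e A ih =>
    rw [List.map_cons, T_cons, T_cons, ih fun e he => hA e (List.mem_cons_of_mem _ he)]
    have he := hA e List.mem_cons_self
    have h1 : e * p - 1 = (p - 1) + p * (e - 1) := by
      obtain ⟨e, rfl⟩ := Nat.exists_eq_succ_of_ne_zero he.ne'
      obtain ⟨p, rfl⟩ := Nat.exists_eq_succ_of_ne_zero hp.ne'
      simp only [Nat.succ_eq_add_one, Nat.add_sub_cancel]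
      rw [Nat.sub_eq_iff_eq_add (Nat.mul_pos (by omega) (by omega))]
      ring
    rw [h1, pow_add, pow_mul, mul_comm e p, pow_mul]
    push_cast
    ring

def Rep (n : ℕ) (A B : List ℕ) : Prop :=
  (∀ e ∈ A, 0 < e) ∧ (∀ e ∈ B, 0 < e) ∧ ∀ x : ℝ, |x| < 1 →
    eval x (cyclotomic n ℝ) ≠ 0 ∧
    eval x (derivative (cyclotomic n ℝ)) = eval x (cyclotomic n ℝ) * (T 1 B x - T 1 A x)

theorem rep_one : Rep 1 [1] [] := by
  refine ⟨by simp, by simp, fun x hx => ?_⟩
  have h : x - 1 ≠ 0 := by have := (abs_lt.1 hx).2; linarith [this]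
  have h' : 1 - x ≠ 0 := fun h2 => h (by linarith)
  refine ⟨by simpa using h, ?_⟩
  simp [T]
  field_simp
  ring

theorem Rep.step {n p : ℕ} {A B : List ℕ} (h : Rep n A B) (hn : 0 < n) (hp : p.Prime) (hp2 : 2 < p)
    (hd : ¬ p ∣ n) : Rep (n * p) (A.map (· * p) ++ B) (B.map (· * p) ++ A) := by
  obtain ⟨hA, hB, h⟩ := h
  have hm : ∀ C : List ℕ, (∀ e ∈ C, 0 < e) → ∀ e ∈ C.map (· * p), 0 < e := by
    intro C hC e he
    obtain ⟨a, ha, rfl⟩ := List.mem_map.1 he
    exact Nat.mul_pos (hC a ha) hp.pos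
  refine ⟨fun e he => (List.mem_append.1 he).elim (hm A hA e) (hB e),
    fun e he => (List.mem_append.1 he).elim (hm B hB e) (hA e), fun x hx => ⟨?_, ?_⟩⟩
  · exact (cyclotomic_pos (by nlinarith) x).ne'
  have hx' : |x ^ p| < 1 := by rw [abs_pow]; exact pow_lt_one₀ (abs_nonneg _) hx hp.pos.ne'
  have e1 := cyclotomic_expand_eq_cyclotomic_mul hp hd ℝ
  have e2 := congrArg (fun q => eval x (derivative q)) e1
  have e3 := congrArg (eval x) e1
  simp only [derivative_expand, derivative_mul, eval_mul, eval_add, expand_eval, eval_natCast,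
    eval_pow, eval_X] at e2 e3
  rw [(h _ hx').2, (h _ hx).2, e3] at e2
  rw [T_append, T_append, T_map p hp.pos A hA, T_map p hp.pos B hB]
  apply mul_left_cancel₀ (h _ hx).1
  linear_combination -e2

theorem one_sub_pos {x : ℝ} (hx : |x| < 1) {e : ℕ} (he : 0 < e) : 0 < 1 - x ^ e := by
  have : |x ^ e| < 1 := by rw [abs_pow]; exact pow_lt_one₀ (abs_nonneg _) hx he.ne'
  linarith [(abs_lt.1 this).2]

theorem hasDeriv_T (A : List ℕ) (hA : ∀ e ∈ A, 0 < e) (x : ℝ) (hx : |x| < 1) :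
    HasDerivAt (fun x => x * T 1 A x) (T 2 A x) x := by
  induction A with
  | nil => simpa [T] using hasDerivAt_const x (0 : ℝ)
  | cons e A ih =>
    have he := hA e List.mem_cons_self
    have h0 := (one_sub_pos hx he).ne'
    have h1 : HasDerivAt (fun x : ℝ => (e : ℝ) * x ^ e / (1 - x ^ e))
        ((e : ℝ) ^ 2 * x ^ (e - 1) / (1 - x ^ e) ^ 2) x := by
      refine (((hasDerivAt_pow e x).const_mul (e : ℝ)).div
        ((hasDerivAt_pow e x).const_sub 1) h0).congr_deriv ?_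
      field_simp
      ring
    have h2 := h1.add (ih fun e he => hA e (List.mem_cons_of_mem _ he))
    rw [T_cons]
    refine h2.congr_of_eventuallyEq (Filter.Eventually.of_forall fun y => ?_)
    obtain ⟨e, rfl⟩ := Nat.exists_eq_succ_of_ne_zero he.ne'
    simp only [T_cons, Pi.add_apply, Nat.succ_eq_add_one, Nat.add_sub_cancel, pow_one, pow_succ y e]
    ring

theorem root_abs {n : ℕ} (hn : 2 < n) {x : ℝ} (hx : (derivative (cyclotomic n ℝ)).IsRoot x) :
    |x| < 1 := by
  have : NeZero (n : ℂ) := ⟨Nat.cast_ne_zero.2 (by omega)⟩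
  have hdeg : 0 < (cyclotomic n ℂ).degree := degree_cyclotomic_pos n ℂ (by omega)
  have hd : derivative (cyclotomic n ℂ) ≠ 0 := fun h => by
    have := derivative_eq_zero.1 h
    rw [← natDegree_pos_iff_degree_pos] at hdeg
    omega
  have h1 : (x : ℂ) ∈ (derivative (cyclotomic n ℂ)).rootSet ℂ := by
    rw [mem_rootSet]
    refine ⟨hd, ?_⟩
    rw [← map_cyclotomic n (algebraMap ℝ ℂ), derivative_map, coe_aeval_eq_eval]
    have := hx.map (f := algebraMap ℝ ℂ)
    exact this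
  have h2 := rootSet_derivative_subset_convexHull_rootSet hdeg h1
  have h3 : (cyclotomic n ℂ).rootSet ℂ ⊆ {z : ℂ | -1 < z.re} ∩ {z : ℂ | z.re < 1} := by
    intro z hz
    rw [mem_rootSet, coe_aeval_eq_eval] at hz
    have hz' : IsPrimitiveRoot z n := isRoot_cyclotomic_iff.1 hz.2
    have h4 : ‖z‖ = 1 := hz'.norm'_eq_one (by omega)
    have h5 : z.re ^ 2 + z.im ^ 2 = 1 := by
      have := Complex.sq_norm z
      rw [h4, Complex.normSq_apply] at this
      nlinarith
    have h6 : z.im ≠ 0 := by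
      intro h7
      have h8 : z ^ 2 = 1 := by
        apply Complex.ext <;> simp [pow_two, h7]
        nlinarith
      have := Nat.le_of_dvd (by norm_num) (hz'.dvd_of_pow_eq_one 2 h8)
      omega
    have h7 : 0 < z.im ^ 2 := by positivity
    constructor
    · show -1 < z.re
      nlinarith
    · show z.re < 1
      nlinarith
  have h4 := convexHull_min h3 ((convex_halfSpace_re_gt _).inter (convex_halfSpace_re_lt _)) h2
  exact abs_lt.2 ⟨by simpa using h4.1, by simpa using h4.2⟩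

theorem near_lo {x t : ℝ} (ht : 0 < t) (hx : x = Real.exp (-t)) (A : List ℕ)
    (hA : ∀ e ∈ A, 0 < e ∧ e * t ≤ 1) :
    (A.map fun e : ℕ => 1 / t - 3 / 4 * (e : ℝ)).sum ≤ x * T 1 A x := by
  induction A with
  | nil => simp [T]
  | cons e A ih =>
    rw [List.map_cons, List.sum_cons, T_cons, mul_add]
    refine add_le_add ?_ (ih fun e he => hA e (List.mem_cons_of_mem _ he))
    obtain ⟨he, het⟩ := hA e List.mem_cons_self
    have he' : (0 : ℝ) < e := Nat.cast_pos.2 he
    have hu : 0 < e * t := mul_pos he' ht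
    have h1 := Real.exp_bound' hu.le het (n := 2) (by norm_num)
    have h2 := Real.add_one_lt_exp hu.ne'
    norm_num [Finset.sum_range_succ, Nat.factorial] at h1
    have h3 : x ^ e = (Real.exp (e * t))⁻¹ := by
      rw [hx, ← Real.exp_nat_mul, ← Real.exp_neg]; congr 1; ring
    have h4 : x * ((e : ℝ) ^ 1 * x ^ (e - 1) / (1 - x ^ e) ^ 1) = e / (Real.exp (e * t) - 1) := by
      have : x * x ^ (e - 1) = x ^ e := by rw [← pow_succ']; congr 1; omega
      rw [pow_one, pow_one, ← mul_div_assoc, mul_left_comm, this, h3]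
      have : Real.exp (e * t) - 1 ≠ 0 := by linarith
      field_simp
    rw [h4, le_div_iff₀ (by linarith)]
    have h5 : 0 ≤ 1 / t - 3 / 4 * (e : ℝ) := by
      rw [sub_nonneg, le_div_iff₀ ht]; nlinarith
    refine le_trans (mul_le_mul_of_nonneg_left
      (show Real.exp (e * t) - 1 ≤ e * t + (e * t) ^ 2 * (3 / 4) by linarith) h5) ?_
    have : (1 / t - 3 / 4 * (e : ℝ)) * (e * t + (e * t) ^ 2 * (3 / 4)) =
      e - 9 / 16 * (e * (e * t) ^ 2) := by field_simp; ring
    rw [this]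
    have : 0 ≤ (e : ℝ) * (e * t) ^ 2 := by positivity
    linarith

theorem near_hi {x t : ℝ} (ht : 0 < t) (hx : x = Real.exp (-t)) (A : List ℕ)
    (hA : ∀ e ∈ A, 0 < e) :
    x * T 1 A x ≤ (A.map fun e : ℕ => 1 / t - 1 / 2 * (e : ℝ) + t / 4 * (e : ℝ) ^ 2).sum := by
  induction A with
  | nil => simp [T]
  | cons e A ih =>
    rw [List.map_cons, List.sum_cons, T_cons, mul_add]
    refine add_le_add ?_ (ih fun e he => hA e (List.mem_cons_of_mem _ he))
    have he := hA e List.mem_cons_self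
    have he' : (0 : ℝ) < e := Nat.cast_pos.2 he
    have hu : 0 < e * t := mul_pos he' ht
    have h1 := Real.quadratic_le_exp_of_nonneg hu.le
    have h2 := Real.add_one_lt_exp hu.ne'
    have h3 : x ^ e = (Real.exp (e * t))⁻¹ := by
      rw [hx, ← Real.exp_nat_mul, ← Real.exp_neg]; congr 1; ring
    have h4 : x * ((e : ℝ) ^ 1 * x ^ (e - 1) / (1 - x ^ e) ^ 1) = e / (Real.exp (e * t) - 1) := by
      have : x * x ^ (e - 1) = x ^ e := by rw [← pow_succ']; congr 1; omega
      rw [pow_one, pow_one, ← mul_div_assoc, mul_left_comm, this, h3]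
      have : Real.exp (e * t) - 1 ≠ 0 := by linarith
      field_simp
    rw [h4, div_le_iff₀ (by linarith)]
    have h5 : 0 ≤ 1 / t - 1 / 2 * (e : ℝ) + t / 4 * (e : ℝ) ^ 2 := by
      have : 1 / t - 1 / 2 * (e : ℝ) + t / 4 * (e : ℝ) ^ 2 =
        ((e * t - 1) ^ 2 + 3) / (4 * t) := by field_simp; ring
      rw [this]; positivity
    refine le_trans ?_ (mul_le_mul_of_nonneg_left
      (show e * t + (e * t) ^ 2 / 2 ≤ Real.exp (e * t) - 1 by linarith) h5)
    have : (1 / t - 1 / 2 * (e : ℝ) + t / 4 * (e : ℝ) ^ 2) * (e * t + (e * t) ^ 2 / 2) =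
      e + e * (e * t) ^ 3 / 8 := by field_simp; ring
    rw [this]
    have : 0 ≤ (e : ℝ) * (e * t) ^ 3 := by positivity
    linarith

theorem alt (P : ℝ[X]) (hP : P ≠ 0) (l : List ℝ) : ∀ a : ℝ,
    List.IsChain (fun u v => u < v ∧ eval u P * eval v P < 0) (a :: l) →
    l.length ≤ (P.roots.toFinset.filter (a < ·)).card := by
  induction l with
  | nil => intro a _; exact Nat.zero_le _
  | cons b l ih =>
    intro a h
    rw [List.isChain_cons_cons] at h
    obtain ⟨⟨hab, hs⟩, h⟩ := h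
    obtain ⟨r, hr, hr0⟩ : ∃ r ∈ Set.Ioo a b, eval r P = 0 := by
      rcases mul_neg_iff.1 hs with ⟨h1, h2⟩ | ⟨h1, h2⟩
      · exact intermediate_value_Ioo' hab.le P.continuous.continuousOn ⟨h2, h1⟩
      · exact intermediate_value_Ioo hab.le P.continuous.continuousOn ⟨h1, h2⟩
    refine lt_of_le_of_lt (ih b h) (Finset.card_lt_card ⟨fun y hy => ?_, fun h2 => ?_⟩)
    · simp only [Finset.mem_filter] at hy ⊢
      exact ⟨hy.1, hab.trans hy.2⟩
    · have := h2 (Finset.mem_filter.2 ⟨Multiset.mem_toFinset.2 ((mem_roots hP).2 hr0), hr.1⟩)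
      exact absurd (Finset.mem_filter.1 this).2 (not_lt.2 hr.2.le)

theorem card_le_len (I : List (Set ℝ)) : ∀ S : Finset ℝ, (∀ r ∈ S, ∃ J ∈ I, r ∈ J) →
    (∀ J ∈ I, ∀ r ∈ S, ∀ s ∈ S, r ∈ J → s ∈ J → r = s) → S.card ≤ I.length := by
  classical
  induction I with
  | nil =>
    intro S h _
    rw [Finset.eq_empty_of_forall_notMem (s := S) fun r hr => by simpa using h r hr]
    simp
  | cons J I ih =>
    intro S h1 h2
    rw [← Finset.card_filter_add_card_filter_not (s := S) (· ∈ J), List.length_cons, add_comm]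
    refine add_le_add (ih _ (fun r hr => ?_) fun K hK r hr s hs => ?_) ?_
    · obtain ⟨K, hK, hr'⟩ := h1 r (Finset.mem_filter.1 hr).1
      rcases List.mem_cons.1 hK with rfl | hK
      · exact absurd hr' (Finset.mem_filter.1 hr).2
      · exact ⟨K, hK, hr'⟩
    · exact h2 K (List.mem_cons_of_mem _ hK) r (Finset.mem_filter.1 hr).1 s
        (Finset.mem_filter.1 hs).1
    · rw [Finset.card_le_one]
      intro r hr s hs
      exact h2 J List.mem_cons_self r (Finset.mem_filter.1 hr).1 s (Finset.mem_filter.1 hs).1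
        (Finset.mem_filter.1 hr).2 (Finset.mem_filter.1 hs).2

theorem upper {n : ℕ} (hn : 2 < n) {A B : List ℕ} (h : Rep n A B) (I : List (ℝ × ℝ))
    (hI : ∀ J ∈ I, -1 < J.1 ∧ J.2 < 1 ∧ ∀ x ∈ Set.Icc J.1 J.2, T 2 A x ≠ T 2 B x)
    (hc : ∀ x : ℝ, |x| < 1 → T 1 A x = T 1 B x → ∃ J ∈ I, x ∈ Set.Icc J.1 J.2) :
    (derivative (cyclotomic n ℝ)).roots.card ≤ I.length := by
  by_cases hP : derivative (cyclotomic n ℝ) = 0
  · simp [hP]
  obtain ⟨hA, hB, h⟩ := h
  have hG : ∀ x : ℝ, |x| < 1 → HasDerivAt (fun x => x * T 1 B x - x * T 1 A x)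
      (T 2 B x - T 2 A x) x := fun x hx => (hasDeriv_T B hB x hx).sub (hasDeriv_T A hA x hx)
  have hr : ∀ x, (derivative (cyclotomic n ℝ)).IsRoot x → T 1 A x = T 1 B x := by
    intro x hx
    have h1 := h x (root_abs hn hx)
    have h2 := (mul_eq_zero.1 (h1.2.symm.trans hx)).resolve_left h1.1
    linarith
  have hnd : (derivative (cyclotomic n ℝ)).roots.Nodup := by
    rw [Multiset.nodup_iff_count_le_one]
    intro x
    rw [count_roots]
    by_contra hc'
    obtain ⟨h1, h2⟩ := (one_lt_rootMultiplicity_iff_isRoot hP).1 (not_le.1 hc')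
    have hx := root_abs hn h1
    obtain ⟨J, hJ, hxJ⟩ := hc x hx (hr x h1)
    have d1 := (hasDerivAt_id x).mul ((derivative (cyclotomic n ℝ)).hasDerivAt x)
    have d2 := ((cyclotomic n ℝ).hasDerivAt x).mul (hG x hx)
    have d3 := d2.congr_of_eventuallyEq (f₁ := id * fun x => eval x (derivative (cyclotomic n ℝ))) (by
      filter_upwards [(isOpen_lt continuous_abs continuous_const).mem_nhds hx] with y hy
      simp only [Pi.mul_apply, id, (h y hy).2]
      ring)
    have d4 := d1.unique d3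
    rw [h1.eq_zero, h2.eq_zero] at d4
    refine (hI J hJ).2.2 x hxJ ?_
    have : eval x (cyclotomic n ℝ) * (T 2 B x - T 2 A x) = 0 := by linarith
    have := (mul_eq_zero.1 this).resolve_left (h x hx).1
    linarith
  rw [← Multiset.toFinset_card_of_nodup hnd, ← List.length_map fun J : ℝ × ℝ => Set.Icc J.1 J.2]
  have hm : ∀ r ∈ (derivative (cyclotomic n ℝ)).roots.toFinset,
      (derivative (cyclotomic n ℝ)).IsRoot r := fun r hr =>
    (mem_roots hP).1 (Multiset.mem_toFinset.1 hr)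
  refine card_le_len _ _ (fun r hr' => ?_) ?_
  · obtain ⟨J, hJ, h1⟩ := hc r (root_abs hn (hm r hr')) (hr r (hm r hr'))
    exact ⟨_, List.mem_map.2 ⟨J, hJ, rfl⟩, h1⟩
  · have key : ∀ J ∈ I, ∀ r s, r ∈ Set.Icc J.1 J.2 → s ∈ Set.Icc J.1 J.2 → T 1 A r = T 1 B r →
        T 1 A s = T 1 B s → ¬ r < s := by
      intro J hJ r s h1 h2 h3 h4 hlt
      obtain ⟨a1, a2, a3⟩ := hI J hJ
      have hin : ∀ y ∈ Set.Icc r s, |y| < 1 := fun y hy =>
        abs_lt.2 ⟨by linarith [hy.1, h1.1], by linarith [hy.2, h2.2]⟩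
      obtain ⟨c, hc1, hc2⟩ := exists_hasDerivAt_eq_zero hlt
        (fun y hy => (hG y (hin y hy)).continuousAt.continuousWithinAt)
        (by simp only [h3, h4, sub_self]) (fun y hy => hG y (hin y ⟨hy.1.le, hy.2.le⟩))
      exact a3 c ⟨h1.1.trans hc1.1.le, hc1.2.le.trans h2.2⟩ (by linarith)
    intro K hK r hr1 s hs1 h1 h2
    obtain ⟨J, hJ, rfl⟩ := List.mem_map.1 hK
    exact le_antisymm (not_lt.1 (key J hJ s r h2 h1 (hr s (hm s hs1)) (hr r (hm r hr1))))
      (not_lt.1 (key J hJ r s h1 h2 (hr r (hm r hr1)) (hr s (hm s hs1))))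

end Pool.Agent.H5.CycCrit
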