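import Pool.Agent.H5.CycCrit1

set_option autoImplicit false
open Polynomial

namespace Pool.Agent.H5.CycCrit

def O : ℕ := 1208925819614629174706176

theorem O_pos : 0 < O := by unfold O; norm_num
theorem O_pos' : (0 : ℝ) < O := Nat.cast_pos.2 O_pos

def st {β : Type} (n : ℕ) (k : ℕ → β) : β :=
  match n with
  | 0 => k 0
  | m + 1 => k (Nat.succ m)

theorem st_eq {β : Type} (n : ℕ) (k : ℕ → β) : st n k = k n := by cases n <;> rfl

def lo (a : ℕ) : ℕ → ℕ → ℕ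
  | 0, _ => 0
  | f + 1, e => cond (Nat.beq e 0) O
      (lo a f (e / 2) ^ 2 / O * cond (Nat.beq (e % 2) 0) O a / O)

def hi (b : ℕ) : ℕ → ℕ → ℕ
  | 0, _ => O
  | f + 1, e => cond (Nat.beq e 0) O
      ((hi b f (e / 2) ^ 2 / O + 1) * cond (Nat.beq (e % 2) 0) O b / O + 1)

theorem div_lo (m : ℕ) : ((m / O : ℕ) : ℝ) ≤ m / O := Nat.cast_div_le

theorem div_hi (m d : ℕ) (hd : 0 < d) : (m : ℝ) / d ≤ ((m / d + 1 : ℕ) : ℝ) := by
  rw [div_le_iff₀ (Nat.cast_pos.2 hd)]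
  exact_mod_cast ((Nat.div_lt_iff_lt_mul hd).1 (Nat.lt_succ_self _)).le

theorem mul_lo {m k : ℕ} {u v : ℝ} (hu : 0 ≤ u) (h1 : (m : ℝ) ≤ u * O) (h2 : (k : ℝ) ≤ v * O) :
    ((m * k / O : ℕ) : ℝ) ≤ u * v * O := by
  refine (div_lo _).trans ?_
  rw [div_le_iff₀ O_pos', Nat.cast_mul]
  calc (m : ℝ) * k ≤ (u * O) * (v * O) :=
        mul_le_mul h1 h2 (Nat.cast_nonneg _) (mul_nonneg hu O_pos'.le)
    _ = _ := by ring

theorem mul_hi {m k : ℕ} {u v : ℝ} (hv : 0 ≤ v) (h1 : u * O ≤ m) (h2 : v * O ≤ k) :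
    u * v * O ≤ ((m * k / O + 1 : ℕ) : ℝ) := by
  refine le_trans ?_ (div_hi _ _ O_pos)
  rw [le_div_iff₀ O_pos', Nat.cast_mul]
  calc u * v * O * O = (u * O) * (v * O) := by ring
    _ ≤ _ := mul_le_mul h1 h2 (mul_nonneg hv O_pos'.le) (Nat.cast_nonneg _)

theorem pow_split (y : ℝ) (e : ℕ) : y ^ e = y ^ (e / 2) * y ^ (e / 2) * y ^ (e % 2) := by
  rw [← pow_add, ← pow_add]; congr 1; omega

theorem lo_le {a : ℕ} {y : ℝ} (hy : 0 ≤ y) (ha : (a : ℝ) ≤ y * O) (f : ℕ) :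
    ∀ e, (lo a f e : ℝ) ≤ y ^ e * O := by
  induction f with
  | zero => intro e; simp only [lo, Nat.cast_zero]; exact mul_nonneg (pow_nonneg hy _) O_pos'.le
  | succ f ih =>
    intro e
    unfold lo
    cases h : Nat.beq e 0
    · rw [cond_false, pow_split y e, pow_two]
      refine mul_lo (by positivity) (mul_lo (by positivity) (ih _) (ih _)) ?_
      rcases Nat.mod_two_eq_zero_or_one e with h2 | h2 <;> rw [h2] <;> simp [ha, Nat.beq]
    · rw [Nat.eq_of_beq_eq_true h]; simp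

theorem le_hi {b : ℕ} {y : ℝ} (hy : 0 ≤ y) (hy1 : y ≤ 1) (hb : y * O ≤ b) (f : ℕ) :
    ∀ e, y ^ e * O ≤ (hi b f e : ℝ) := by
  induction f with
  | zero => intro e; exact mul_le_of_le_one_left O_pos'.le (pow_le_one₀ hy hy1)
  | succ f ih =>
    intro e
    unfold hi
    cases h : Nat.beq e 0
    · rw [cond_false, pow_split y e, pow_two]
      refine mul_hi (by positivity) (mul_hi (by positivity) (ih _) (ih _)) ?_
      rcases Nat.mod_two_eq_zero_or_one e with h2 | h2 <;> rw [h2] <;> simp [hb, Nat.beq]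
    · rw [Nat.eq_of_beq_eq_true h]; simp

def dlo (s : Bool) (a b e : ℕ) : ℕ :=
  cond s (O - (hi b 19 (e - 1) * b / O + 1)) (O + lo a 19 (e - 1) * a / O)

def dhi (s : Bool) (a b e : ℕ) : ℕ :=
  cond s (O - lo a 19 (e - 1) * a / O) (O + (hi b 19 (e - 1) * b / O + 1))

def tlo (r : ℕ) (s : Bool) (a b e : ℕ) : ℕ := e ^ r * lo a 19 (e - 1) * O ^ r / dhi s a b e ^ r

def thi (r : ℕ) (s : Bool) (a b e : ℕ) : ℕ := e ^ r * hi b 19 (e - 1) * O ^ r / dlo s a b e ^ r + 1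

def sg (s : Bool) (y : ℝ) : ℝ := cond s y (-y)

theorem sg_abs (s : Bool) {y : ℝ} (hy : 0 ≤ y) : |sg s y| = y := by
  cases s <;> simp [sg, abs_of_nonneg hy]

section
variable {a b e : ℕ} {y : ℝ} (s : Bool) (he : e % 2 = 1) (hy : 0 ≤ y) (hy1 : y < 1)
  (ha : (a : ℝ) ≤ y * O) (hb : y * O ≤ b)
include he

theorem sg_pow : sg s y ^ (e - 1) = y ^ (e - 1) := by
  cases s
  · exact Even.neg_pow (Nat.even_iff.2 (by omega)) y
  · rfl

theorem sg_pow' : sg s y ^ e = sg s (y ^ (e - 1) * y) := by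
  rw [← pow_succ, show e - 1 + 1 = e by omega]
  cases s
  · exact Odd.neg_pow (Nat.odd_iff.2 he) y
  · rfl

include hy hy1 ha hb

theorem le_dhi : (1 - sg s y ^ e) * O ≤ dhi s a b e := by
  rw [sg_pow' s he]
  have h1 := mul_lo (pow_nonneg hy _) (lo_le hy ha 19 (e - 1)) ha
  have h2 := mul_hi hy (le_hi hy hy1.le hb 19 (e - 1)) hb
  cases s
  · simp only [sg, dhi, cond_false]
    rw [Nat.cast_add]
    linarith
  · simp only [sg, dhi, cond_true]
    have : ((O : ℝ) - (lo a 19 (e - 1) * a / O : ℕ)) ≤ ((O - lo a 19 (e - 1) * a / O : ℕ) : ℝ) := by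
      rw [sub_le_iff_le_add]
      exact_mod_cast le_tsub_add
    linarith

theorem dlo_le (h0 : dlo s a b e ≠ 0) : (dlo s a b e : ℝ) ≤ (1 - sg s y ^ e) * O := by
  rw [sg_pow' s he]
  have h1 := mul_lo (pow_nonneg hy _) (lo_le hy ha 19 (e - 1)) ha
  have h2 := mul_hi hy (le_hi hy hy1.le hb 19 (e - 1)) hb
  cases s
  · simp only [sg, dlo, cond_false]
    rw [Nat.cast_add]
    linarith
  · simp only [sg, dlo, cond_true] at h0 ⊢
    rw [Nat.cast_sub (by omega)]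
    linarith

theorem tlo_le (r : ℕ) :
    (tlo r s a b e : ℝ) ≤ (e : ℝ) ^ r * sg s y ^ (e - 1) / (1 - sg s y ^ e) ^ r * O := by
  have h0 := one_sub_pos (x := sg s y) (e := e) (by rwa [sg_abs s hy]) (by omega)
  have h1 := le_dhi s he hy hy1 ha hb
  have h2 := lo_le hy ha 19 (e - 1)
  have hO := O_pos'
  refine Nat.cast_div_le.trans ?_
  rw [sg_pow s he]
  push_cast
  calc _ ≤ (e : ℝ) ^ r * (y ^ (e - 1) * O) * O ^ r / ((1 - sg s y ^ e) * O) ^ r := by
        gcongr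
    _ = _ := by rw [mul_pow]; field_simp

theorem le_thi (r : ℕ) (h0 : dlo s a b e ≠ 0) :
    (e : ℝ) ^ r * sg s y ^ (e - 1) / (1 - sg s y ^ e) ^ r * O ≤ thi r s a b e := by
  have h00 := one_sub_pos (x := sg s y) (e := e) (by rwa [sg_abs s hy]) (by omega)
  have h1 := dlo_le s he hy hy1 ha hb h0
  have h2 := le_hi hy hy1.le hb 19 (e - 1)
  have hO := O_pos'
  have h3 : (0 : ℝ) < dlo s a b e := Nat.cast_pos.2 (Nat.pos_of_ne_zero h0)
  refine le_trans ?_ (div_hi _ _ (pow_pos (Nat.pos_of_ne_zero h0) _))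
  rw [sg_pow s he]
  push_cast
  calc _ = (e : ℝ) ^ r * (y ^ (e - 1) * O) * O ^ r / ((1 - sg s y ^ e) * O) ^ r := by
        rw [mul_pow]; field_simp
    _ ≤ _ := by gcongr

end

def test (r : ℕ) (s : Bool) (A B : List ℕ) (a b : ℕ) : Bool :=
  A.all (fun e => !Nat.beq (dlo s a b e) 0) &&
    Nat.blt (A.map (thi r s a b)).sum (B.map (tlo r s a b)).sum

theorem test_ok {r : ℕ} {s : Bool} {A B : List ℕ} {a b : ℕ} (h : test r s A B a b = true)
    (hA : ∀ e ∈ A, e % 2 = 1) (hB : ∀ e ∈ B, e % 2 = 1) {y : ℝ} (hy : 0 ≤ y) (hy1 : y < 1)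
    (ha : (a : ℝ) ≤ y * O) (hb : y * O ≤ b) : T r A (sg s y) < T r B (sg s y) := by
  simp only [test, Bool.and_eq_true, List.all_eq_true, Nat.blt_eq] at h
  obtain ⟨h1, h2⟩ := h
  have h3 : T r A (sg s y) * O ≤ ((A.map (thi r s a b)).sum : ℕ) := by
    clear h2
    induction A with
    | nil => simp [T]
    | cons e A ih =>
      rw [T_cons, List.map_cons, List.sum_cons, Nat.cast_add, add_mul]
      refine add_le_add (le_thi s (hA e List.mem_cons_self) hy hy1 ha hb r fun h0 => ?_)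
        (ih (fun e he => hA e (List.mem_cons_of_mem _ he))
          fun e he => h1 e (List.mem_cons_of_mem _ he))
      have := h1 e List.mem_cons_self
      rw [h0] at this
      simp at this
  have h4 : (((B.map (tlo r s a b)).sum : ℕ) : ℝ) ≤ T r B (sg s y) * O := by
    clear h2
    induction B with
    | nil => simp [T]
    | cons e B ih =>
      rw [T_cons, List.map_cons, List.sum_cons, Nat.cast_add, add_mul]
      exact add_le_add (tlo_le s (hB e List.mem_cons_self) hy hy1 ha hb r)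
        (ih fun e he => hB e (List.mem_cons_of_mem _ he))
  have h5 : (((A.map (thi r s a b)).sum : ℕ) : ℝ) < ((B.map (tlo r s a b)).sum : ℕ) := by
    exact_mod_cast h2
  exact lt_of_mul_lt_mul_right (h3.trans_lt (h5.trans_le h4)) O_pos'.le

def bis (r : ℕ) (s : Bool) (A B : List ℕ) : ℕ → ℕ → ℕ → Bool
  | 0, a, b => test r s A B a b
  | f + 1, a, b => test r s A B a b ||
      st ((a + b) / 2) fun m => bis r s A B f a m && bis r s A B f m b

theorem bis_ok {r : ℕ} {s : Bool} {A B : List ℕ} (hA : ∀ e ∈ A, e % 2 = 1)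
    (hB : ∀ e ∈ B, e % 2 = 1) {y : ℝ} (hy : 0 ≤ y) (hy1 : y < 1) (f : ℕ) : ∀ a b : ℕ,
    bis r s A B f a b = true → (a : ℝ) ≤ y * O → y * O ≤ b → T r A (sg s y) < T r B (sg s y) := by
  induction f with
  | zero => exact fun a b h ha hb => test_ok h hA hB hy hy1 ha hb
  | succ f ih =>
    intro a b h ha hb
    simp only [bis, st_eq, Bool.or_eq_true, Bool.and_eq_true] at h
    rcases h with h | ⟨h1, h2⟩
    · exact test_ok h hA hB hy hy1 ha hb
    · rcases le_total (y * O) ((a + b) / 2 : ℕ) with h3 | h3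
      · exact ih _ _ h1 ha h3
      · exact ih _ _ h2 h3 hb

def W : ℕ := 1125899906842624

def seg (r : ℕ) (s : Bool) (A B : List ℕ) (a b : ℕ) : Bool :=
  st (a * W) fun a' => st (b * W) fun b' => bis r s A B 40 a' b'

theorem seg_ok {r : ℕ} {s : Bool} {A B : List ℕ} {a b : ℕ} (h : seg r s A B a b = true)
    (hA : ∀ e ∈ A, e % 2 = 1) (hB : ∀ e ∈ B, e % 2 = 1) {y : ℝ} (hy1 : y < 1)
    (ha : (a : ℝ) / 2 ^ 30 ≤ y) (hb : y ≤ b / 2 ^ 30) : T r A (sg s y) < T r B (sg s y) := by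
  simp only [seg, st_eq] at h
  have hy : 0 ≤ y := le_trans (by positivity) ha
  refine bis_ok hA hB hy hy1 40 _ _ h ?_ ?_ <;> simp only [W, O] <;> push_cast <;> linarith

end Pool.Agent.H5.CycCrit
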