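import Pool.Agent.H5.CycCrit2

set_option autoImplicit false
open Polynomial

namespace Pool.Agent.H5.CycCrit

def A1 : List ℕ := [161745, 10783, 1315, 789, 205, 123, 15, 1]
def B1 : List ℕ := [53915, 32349, 3945, 263, 615, 41, 5, 3]
def A2 : List ℕ := [111315, 7421, 905, 543, 205, 123, 15, 1]
def B2 : List ℕ := [37105, 22263, 2715, 181, 615, 41, 5, 3]

theorem rep615 : Rep 615 [615, 41, 5, 3] [205, 123, 15, 1] :=
  ((rep_one.step (p := 3) (by norm_num) (by norm_num) (by norm_num) (by norm_num)).step (p := 5)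
    (by norm_num) (by norm_num) (by norm_num) (by norm_num)).step (p := 41)
    (by norm_num) (by norm_num) (by norm_num) (by norm_num)

theorem rep1 : Rep (615 * 263) A1 B1 :=
  rep615.step (p := 263) (by norm_num) (by norm_num) (by norm_num) (by norm_num)

theorem rep2 : Rep (615 * 181) A2 B2 :=
  rep615.step (p := 181) (by norm_num) (by norm_num) (by norm_num) (by norm_num)

theorem oA1 : ∀ e ∈ A1, e % 2 = 1 := by decide
theorem oB1 : ∀ e ∈ B1, e % 2 = 1 := by decide
theorem oA2 : ∀ e ∈ A2, e % 2 = 1 := by decide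
theorem oB2 : ∀ e ∈ B2, e % 2 = 1 := by decide

theorem p0 {y : ℝ} (h : y < 1) (ha : ((0 : ℕ) : ℝ) / 2 ^ 30 ≤ y)
    (hb : y ≤ (637027712 : ℕ) / 2 ^ 30) : T 1 B1 (sg true y) < T 1 A1 (sg true y) :=
  seg_ok (by decide +kernel) oB1 oA1 h ha hb

theorem p1 {y : ℝ} (h : y < 1) (ha : ((637027712 : ℕ) : ℝ) / 2 ^ 30 ≤ y)
    (hb : y ≤ (788375783 : ℕ) / 2 ^ 30) : T 2 A1 (sg true y) < T 2 B1 (sg true y) :=
  seg_ok (by decide +kernel) oA1 oB1 h ha hb

theorem p2 {y : ℝ} (h : y < 1) (ha : ((788375783 : ℕ) : ℝ) / 2 ^ 30 ≤ y)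
    (hb : y ≤ (1070454873 : ℕ) / 2 ^ 30) : T 1 A1 (sg true y) < T 1 B1 (sg true y) :=
  seg_ok (by decide +kernel) oA1 oB1 h ha hb

theorem p3 {y : ℝ} (h : y < 1) (ha : ((1070454873 : ℕ) : ℝ) / 2 ^ 30 ≤ y)
    (hb : y ≤ (1071795665 : ℕ) / 2 ^ 30) : T 2 B1 (sg true y) < T 2 A1 (sg true y) :=
  seg_ok (by decide +kernel) oB1 oA1 h ha hb

theorem p4 {y : ℝ} (h : y < 1) (ha : ((1071795665 : ℕ) : ℝ) / 2 ^ 30 ≤ y)
    (hb : y ≤ (1073693702 : ℕ) / 2 ^ 30) : T 1 B1 (sg true y) < T 1 A1 (sg true y) :=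
  seg_ok (by decide +kernel) oB1 oA1 h ha hb

theorem p5 {y : ℝ} (h : y < 1) (ha : ((1073693702 : ℕ) : ℝ) / 2 ^ 30 ≤ y)
    (hb : y ≤ (1073713349 : ℕ) / 2 ^ 30) : T 2 A1 (sg true y) < T 2 B1 (sg true y) :=
  seg_ok (by decide +kernel) oA1 oB1 h ha hb

theorem p6 {y : ℝ} (h : y < 1) (ha : ((1073713349 : ℕ) : ℝ) / 2 ^ 30 ≤ y)
    (hb : y ≤ (1073739776 : ℕ) / 2 ^ 30) : T 1 A1 (sg true y) < T 1 B1 (sg true y) :=
  seg_ok (by decide +kernel) oA1 oB1 h ha hb

theorem n0 {y : ℝ} (h : y < 1) (ha : ((0 : ℕ) : ℝ) / 2 ^ 30 ≤ y)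
    (hb : y ≤ (362816140 : ℕ) / 2 ^ 30) : T 1 B1 (sg false y) < T 1 A1 (sg false y) :=
  seg_ok (by decide +kernel) oB1 oA1 h ha hb

theorem n1 {y : ℝ} (h : y < 1) (ha : ((362816140 : ℕ) : ℝ) / 2 ^ 30 ≤ y)
    (hb : y ≤ (565035129 : ℕ) / 2 ^ 30) : T 2 A1 (sg false y) < T 2 B1 (sg false y) :=
  seg_ok (by decide +kernel) oA1 oB1 h ha hb

theorem n2 {y : ℝ} (h : y < 1) (ha : ((565035129 : ℕ) : ℝ) / 2 ^ 30 ≤ y)
    (hb : y ≤ (1043049052 : ℕ) / 2 ^ 30) : T 1 A1 (sg false y) < T 1 B1 (sg false y) :=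
  seg_ok (by decide +kernel) oA1 oB1 h ha hb

theorem n3 {y : ℝ} (h : y < 1) (ha : ((1043049052 : ℕ) : ℝ) / 2 ^ 30 ≤ y)
    (hb : y ≤ (1055472994 : ℕ) / 2 ^ 30) : T 2 B1 (sg false y) < T 2 A1 (sg false y) :=
  seg_ok (by decide +kernel) oB1 oA1 h ha hb

theorem n4 {y : ℝ} (h : y < 1) (ha : ((1055472994 : ℕ) : ℝ) / 2 ^ 30 ≤ y)
    (hb : y ≤ (1073615267 : ℕ) / 2 ^ 30) : T 1 B1 (sg false y) < T 1 A1 (sg false y) :=
  seg_ok (by decide +kernel) oB1 oA1 h ha hb

theorem n5 {y : ℝ} (h : y < 1) (ha : ((1073615267 : ℕ) : ℝ) / 2 ^ 30 ≤ y)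
    (hb : y ≤ (1073666936 : ℕ) / 2 ^ 30) : T 2 A1 (sg false y) < T 2 B1 (sg false y) :=
  seg_ok (by decide +kernel) oA1 oB1 h ha hb

theorem n6 {y : ℝ} (h : y < 1) (ha : ((1073666936 : ℕ) : ℝ) / 2 ^ 30 ≤ y)
    (hb : y ≤ (1073729185 : ℕ) / 2 ^ 30) : T 1 A1 (sg false y) < T 1 B1 (sg false y) :=
  seg_ok (by decide +kernel) oA1 oB1 h ha hb

theorem n7 {y : ℝ} (h : y < 1) (ha : ((1073729185 : ℕ) : ℝ) / 2 ^ 30 ≤ y)
    (hb : y ≤ (1073734345 : ℕ) / 2 ^ 30) : T 2 B1 (sg false y) < T 2 A1 (sg false y) :=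
  seg_ok (by decide +kernel) oB1 oA1 h ha hb

theorem n8 {y : ℝ} (h : y < 1) (ha : ((1073734345 : ℕ) : ℝ) / 2 ^ 30 ≤ y)
    (hb : y ≤ (1073741824 : ℕ) / 2 ^ 30) : T 1 B1 (sg false y) < T 1 A1 (sg false y) :=
  seg_ok (by decide +kernel) oB1 oA1 h ha hb

theorem near {y : ℝ} (h : y < 1) (ha : ((1073739776 : ℕ) : ℝ) / 2 ^ 30 ≤ y) :
    T 1 A1 y < T 1 B1 y := by
  push_cast at ha
  have hy : 0 < y := by linarith
  have ht : 0 < -Real.log y := neg_pos.2 (Real.log_neg hy h)
  have ht2 : -Real.log y ≤ 191 / 100000000 := by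
    have h1 := Real.one_sub_inv_le_log_of_pos hy
    have h2 : y⁻¹ ≤ 1 + 191 / 100000000 := by
      rw [inv_le_comm₀ hy (by norm_num)]
      exact le_trans (by norm_num) ha
    linarith
  have hx : y = Real.exp (-(-Real.log y)) := by rw [neg_neg, Real.exp_log hy]
  generalize -Real.log y = t at ht ht2 hx
  have h1 := near_hi ht hx A1 (by decide)
  have h2 := near_lo ht hx B1 (by
    intro e he
    simp only [B1, List.mem_cons, List.not_mem_nil, or_false] at he
    rcases he with rfl | rfl | rfl | rfl | rfl | rfl | rfl | rfl <;>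
      exact ⟨by norm_num, by push_cast; linarith⟩)
  refine lt_of_mul_lt_mul_left (h1.trans_lt (lt_of_lt_of_le ?_ h2)) hy.le
  simp only [A1, B1, List.map_cons, List.map_nil, List.sum_cons, List.sum_nil]
  push_cast
  linarith

noncomputable def II : List (ℝ × ℝ) :=
  [(637027712 / 2 ^ 30, 788375783 / 2 ^ 30),
   (1070454873 / 2 ^ 30, 1071795665 / 2 ^ 30),
   (1073693702 / 2 ^ 30, 1073713349 / 2 ^ 30),
   (-(565035129 / 2 ^ 30), -(362816140 / 2 ^ 30)),
   (-(1055472994 / 2 ^ 30), -(1043049052 / 2 ^ 30)),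
   (-(1073666936 / 2 ^ 30), -(1073615267 / 2 ^ 30)),
   (-(1073734345 / 2 ^ 30), -(1073729185 / 2 ^ 30))]

theorem up : (derivative (cyclotomic (615 * 263) ℝ)).roots.card ≤ 7 := by
  refine upper (by norm_num) rep1 II ?_ ?_
  · intro J hJ
    simp only [II, List.mem_cons, List.not_mem_nil, or_false] at hJ
    rcases hJ with rfl | rfl | rfl | rfl | rfl | rfl | rfl <;>
      refine ⟨by norm_num, by norm_num, fun x ⟨h1, h2⟩ => ?_⟩ <;> simp only at h1 h2
    · exact (p1 (y := x) (by linarith) (by push_cast; linarith) (by push_cast; linarith)).ne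
    · exact (p3 (y := x) (by linarith) (by push_cast; linarith) (by push_cast; linarith)).ne'
    · exact (p5 (y := x) (by linarith) (by push_cast; linarith) (by push_cast; linarith)).ne
    · have := (n1 (y := -x) (by linarith) (by push_cast; linarith) (by push_cast; linarith)).ne
      simpa only [sg, cond_false, neg_neg] using this
    · have := (n3 (y := -x) (by linarith) (by push_cast; linarith) (by push_cast; linarith)).ne'
      simpa only [sg, cond_false, neg_neg] using this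
    · have := (n5 (y := -x) (by linarith) (by push_cast; linarith) (by push_cast; linarith)).ne
      simpa only [sg, cond_false, neg_neg] using this
    · have := (n7 (y := -x) (by linarith) (by push_cast; linarith) (by push_cast; linarith)).ne'
      simpa only [sg, cond_false, neg_neg] using this
  · intro x hx he
    obtain ⟨hx1, hx2⟩ := abs_lt.1 hx
    simp only [II, List.mem_cons, List.not_mem_nil, or_false, exists_eq_or_imp, exists_eq_left,
      Set.mem_Icc]
    by_contra hc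
    simp only [not_or, not_and_or, not_le] at hc
    obtain ⟨c1, c2, c3, c4, c5, c6, c7⟩ := hc
    rcases le_total 0 x with h0 | h0
    · rcases c1 with c1 | c1
      · exact (p0 (y := x) hx2 (by push_cast; linarith) (by push_cast; linarith)).ne' he
      rcases c2 with c2 | c2
      · exact (p2 (y := x) hx2 (by push_cast; linarith) (by push_cast; linarith)).ne he
      rcases c3 with c3 | c3
      · exact (p4 (y := x) hx2 (by push_cast; linarith) (by push_cast; linarith)).ne' he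
      rcases le_total x (1073739776 / 2 ^ 30) with c | c
      · exact (p6 (y := x) hx2 (by push_cast; linarith) (by push_cast; linarith)).ne he
      exact (near hx2 (by push_cast; linarith)).ne he
    · rcases c4 with c4 | c4
      swap
      · exact (n0 (y := -x) (by linarith) (by push_cast; linarith) (by push_cast; linarith)).ne'
          (by simpa only [sg, cond_false, neg_neg] using he)
      rcases c5 with c5 | c5
      swap
      · exact (n2 (y := -x) (by linarith) (by push_cast; linarith) (by push_cast; linarith)).ne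
          (by simpa only [sg, cond_false, neg_neg] using he)
      rcases c6 with c6 | c6
      swap
      · exact (n4 (y := -x) (by linarith) (by push_cast; linarith) (by push_cast; linarith)).ne'
          (by simpa only [sg, cond_false, neg_neg] using he)
      rcases c7 with c7 | c7
      swap
      · exact (n6 (y := -x) (by linarith) (by push_cast; linarith) (by push_cast; linarith)).ne
          (by simpa only [sg, cond_false, neg_neg] using he)
      exact (n8 (y := -x) (by linarith) (by push_cast; linarith) (by push_cast; linarith)).ne'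
          (by simpa only [sg, cond_false, neg_neg] using he)

theorem sgn_pos {s : Bool} {a : ℕ} (h : seg 1 s A2 B2 a a = true) (ha : a < 2 ^ 30) :
    0 < eval (sg s (a / 2 ^ 30)) (derivative (cyclotomic (615 * 181) ℝ)) := by
  have h1 : (a : ℝ) / 2 ^ 30 < 1 := by
    rw [div_lt_one (by positivity)]; exact_mod_cast ha
  rw [(rep2.2.2 _ (by rwa [sg_abs s (by positivity)])).2]
  exact mul_pos (cyclotomic_pos (by norm_num) _) (sub_pos.2 (seg_ok h oA2 oB2 h1 le_rfl le_rfl))

theorem sgn_neg {s : Bool} {a : ℕ} (h : seg 1 s B2 A2 a a = true) (ha : a < 2 ^ 30) :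
    eval (sg s (a / 2 ^ 30)) (derivative (cyclotomic (615 * 181) ℝ)) < 0 := by
  have h1 : (a : ℝ) / 2 ^ 30 < 1 := by
    rw [div_lt_one (by positivity)]; exact_mod_cast ha
  rw [(rep2.2.2 _ (by rwa [sg_abs s (by positivity)])).2]
  exact mul_neg_of_pos_of_neg (cyclotomic_pos (by norm_num) _)
    (sub_neg.2 (seg_ok h oB2 oA2 h1 le_rfl le_rfl))

theorem low : 9 ≤ (derivative (cyclotomic (615 * 181) ℝ)).roots.card := by
  have q0 := sgn_neg (s := false) (a := 1073740750) (by decide +kernel) (by norm_num)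
  have q1 := sgn_pos (s := false) (a := 1073709612) (by decide +kernel) (by norm_num)
  have q2 := sgn_neg (s := false) (a := 1073527097) (by decide +kernel) (by norm_num)
  have q3 := sgn_pos (s := false) (a := 1073157867) (by decide +kernel) (by norm_num)
  have q4 := sgn_neg (s := false) (a := 1072132418) (by decide +kernel) (by norm_num)
  have q5 := sgn_pos (s := false) (a := 1042007957) (by decide +kernel) (by norm_num)
  have q6 := sgn_neg (s := false) (a := 264781473) (by decide +kernel) (by norm_num)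
  have q7 := sgn_pos (s := true) (a := 1065186157) (by decide +kernel) (by norm_num)
  have q8 := sgn_neg (s := true) (a := 1073634455) (by decide +kernel) (by norm_num)
  have q9 := sgn_pos (s := true) (a := 1073731086) (by decide +kernel) (by norm_num)
  have hP : derivative (cyclotomic (615 * 181) ℝ) ≠ 0 := fun h => by rw [h] at q0; simp at q0
  refine le_trans (alt _ hP
    [sg false (((1073709612 : ℕ) : ℝ) / 2 ^ 30),
     sg false (((1073527097 : ℕ) : ℝ) / 2 ^ 30),
     sg false (((1073157867 : ℕ) : ℝ) / 2 ^ 30),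
     sg false (((1072132418 : ℕ) : ℝ) / 2 ^ 30),
     sg false (((1042007957 : ℕ) : ℝ) / 2 ^ 30),
     sg false (((264781473 : ℕ) : ℝ) / 2 ^ 30),
     sg true (((1065186157 : ℕ) : ℝ) / 2 ^ 30),
     sg true (((1073634455 : ℕ) : ℝ) / 2 ^ 30),
     sg true (((1073731086 : ℕ) : ℝ) / 2 ^ 30)]
    (sg false (((1073740750 : ℕ) : ℝ) / 2 ^ 30)) ?_)
    ((Finset.card_filter_le _ _).trans (Multiset.toFinset_card_le _))
  simp only [List.isChain_cons_cons, List.isChain_singleton, and_true]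
  refine ⟨⟨?_, mul_neg_of_neg_of_pos q0 q1⟩, ⟨?_, mul_neg_of_pos_of_neg q1 q2⟩, ⟨?_, mul_neg_of_neg_of_pos q2 q3⟩, ⟨?_, mul_neg_of_pos_of_neg q3 q4⟩, ⟨?_, mul_neg_of_neg_of_pos q4 q5⟩, ⟨?_, mul_neg_of_pos_of_neg q5 q6⟩, ⟨?_, mul_neg_of_neg_of_pos q6 q7⟩, ⟨?_, mul_neg_of_pos_of_neg q7 q8⟩, ⟨?_, mul_neg_of_neg_of_pos q8 q9⟩⟩ <;> norm_num [sg]

end Pool.Agent.H5.CycCrit
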