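import Mathlib

namespace Pool.Agent.H5.CycDes

open Finset

/-- the translate `B + t` -/
def shift {v : ℕ} (B : Finset (ZMod v)) (t : ZMod v) : Finset (ZMod v) :=
  B.image fun x => x + t

/-- `m B` is the multiplicity of the set `B` in the multiset of blocks of a cyclic
`(v, k, lam)`-design -/
def IsCyclicDesign (v : ℕ) [NeZero v] (k lam : ℕ) (m : Finset (ZMod v) → ℕ) : Prop :=
  (∀ B, m B ≠ 0 → B.card = k) ∧
  (∀ x y : ZMod v, x ≠ y → ∑ B ∈ univ.filter (fun B : Finset (ZMod v) => x ∈ B ∧ y ∈ B), m B = lam) ∧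
  (∀ B t, m (shift B t) = m B)

/-- A system of disjoint representatives: `f B i` is the block chosen from the `i`-th copy
(`i < m B`) of the translation orbit of `B`. -/
def HasSDR {v : ℕ} (m : Finset (ZMod v) → ℕ) : Prop :=
  ∃ f : Finset (ZMod v) → ℕ → Finset (ZMod v),
    (∀ B t, f (shift B t) = f B) ∧
    (∀ B i, i < m B → ∃ t, f B i = shift B t) ∧
    (∀ B B' i i', i < m B → i' < m B' → ((¬ ∃ t, B' = shift B t) ∨ i ≠ i') →
      Disjoint (f B i) (f B' i'))

end Pool.Agent.H5.CycDes
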