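import Mathlib

set_option autoImplicit false
open Polynomial

namespace Pool.Agent.H5.CycHeight

noncomputable def bin (L : List ℕ) : ℤ[X] := (L.map fun e => (X : ℤ[X]) ^ e - 1).prod

theorem bin_cons (e : ℕ) (L : List ℕ) : bin (e :: L) = (X ^ e - 1) * bin L := by simp [bin]

theorem bin_eq (n : ℕ) (hn : n ≠ 0) (L : List ℕ) (hL : ∀ e ∈ L, e ∣ n) :
    bin L = ∏ d ∈ n.divisors, cyclotomic d ℤ ^ L.countP (fun e => decide (d ∣ e)) := by
  induction L with
  | nil => simp [bin]
  | cons e L ih =>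
    have he := hL e List.mem_cons_self
    rw [bin_cons, ih fun e he => hL e (List.mem_cons_of_mem _ he),
      ← prod_cyclotomic_eq_X_pow_sub_one (Nat.pos_of_dvd_of_pos he (Nat.pos_of_ne_zero hn)),
      ← Nat.divisors_filter_dvd_of_dvd hn he, Finset.prod_filter, ← Finset.prod_mul_distrib]
    refine Finset.prod_congr rfl fun d _ => ?_
    rw [List.countP_cons]
    by_cases h : d ∣ e <;> simp [h, pow_succ']

theorem bin_ne (L : List ℕ) (hL : ∀ e ∈ L, e ≠ 0) : bin L ≠ 0 := by
  induction L with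
  | nil => simp [bin]
  | cons e L ih =>
    rw [bin_cons]
    exact mul_ne_zero (X_pow_sub_C_ne_zero (Nat.pos_of_ne_zero (hL e List.mem_cons_self)) 1)
      (ih fun e he => hL e (List.mem_cons_of_mem _ he))

theorem bd_bin (P : ℤ[X]) (M : ℤ) (hP : ∀ i, |P.coeff i| ≤ M) (L : List ℕ) :
    ∀ i, |(P * bin L).coeff i| ≤ 2 ^ L.length * M := by
  induction L with
  | nil => simpa [bin] using hP
  | cons e L ih =>
    intro i
    have : P * bin (e :: L) = P * bin L * X ^ e - P * bin L := by rw [bin_cons]; ring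
    rw [this, coeff_sub, coeff_mul_X_pow', List.length_cons, pow_succ]
    have h1 := abs_le.1 (ih i)
    have h2 := abs_le.1 (ih (i - e))
    rw [abs_le]
    split_ifs <;> constructor <;> linarith [h1.1, h1.2, h2.1, h2.2]

theorem zero_of_eval (B : ℤ) (hB : 0 < B) (n : ℕ) : ∀ Q : ℤ[X], Q.natDegree ≤ n →
    (∀ i, |Q.coeff i| < B) → Q.eval B = 0 → Q = 0 := by
  induction n with
  | zero =>
    intro Q h _ h2
    rw [eq_C_of_natDegree_eq_zero (Nat.le_zero.1 h)] at h2 ⊢
    rw [eval_C] at h2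
    rw [h2, C_0]
  | succ n ih =>
    intro Q h h1 h2
    rw [← X_mul_divX_add Q, eval_add, eval_mul, eval_X, eval_C] at h2
    have h3 : Q.coeff 0 = 0 := Int.eq_zero_of_abs_lt_dvd ⟨-(eval B Q.divX), by linarith⟩ (h1 0)
    rw [h3, add_zero] at h2
    have h4 := ih Q.divX (by rw [natDegree_divX_eq_natDegree_tsub_one]; omega)
      (fun i => by rw [coeff_divX]; exact h1 _) ((mul_eq_zero.1 h2).resolve_left hB.ne')
    rw [← X_mul_divX_add Q, h4, h3]
    simp

def B : ℕ := 340282366920938463463374607431768211456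
def h : ℕ := 170141183460469231731687303715884105728

noncomputable def pol : ℕ → ℕ → ℤ[X]
  | 0, _ => 0
  | f + 1, V => C (((V % B : ℕ) : ℤ) - h) + X * pol f (V / B)

theorem eval_pol (f : ℕ) : ∀ V : ℕ, V < B ^ f →
    ((B : ℤ) - 1) * (pol f V).eval (B : ℤ) = (B - 1) * V - h * (B ^ f - 1) := by
  induction f with
  | zero => intro V hV; simp [pol, Nat.lt_one_iff.1 (by simpa using hV)]
  | succ f ih =>
    intro V hV
    have h1 := ih (V / B) (Nat.div_lt_of_lt_mul (by rwa [pow_succ'] at hV))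
    have h2 : ((V % B : ℕ) : ℤ) + B * (V / B : ℕ) = V := by exact_mod_cast Nat.mod_add_div V B
    simp only [pol, eval_add, eval_mul, eval_X, eval_C, pow_succ]
    linear_combination (B : ℤ) * h1 + ((B : ℤ) - 1) * h2

theorem coeff_pol (f : ℕ) : ∀ V i : ℕ, i < f →
    (pol f V).coeff i = ((V / B ^ i % B : ℕ) : ℤ) - h := by
  induction f with
  | zero => intro V i hi; omega
  | succ f ih =>
    intro V i hi
    cases i with
    | zero => simp [pol]
    | succ i =>
      rw [pol, coeff_add, coeff_X_mul, ih _ _ (by omega), Nat.div_div_eq_div_mul, ← pow_succ',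
        coeff_C_succ, zero_add]

def st {β : Type} (n : ℕ) (k : ℕ → β) : β :=
  match n with
  | 0 => k 0
  | m + 1 => k (Nat.succ m)

theorem st_eq {β : Type} (n : ℕ) (k : ℕ → β) : st n k = k n := by cases n <;> rfl

def chk (M : ℕ) : ℕ → ℕ → Bool
  | 0, _ => true
  | f + 1, V => Nat.ble h (V % B + M) && Nat.ble (V % B) (h + M) && st (V / B) fun W => chk M f W

theorem chk_ok (M f : ℕ) : ∀ V, chk M f V = true → ∀ i, |(pol f V).coeff i| ≤ M := by
  induction f with
  | zero => intro V _ i; simp [pol]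
  | succ f ih =>
    intro V hc i
    simp only [chk, st_eq, Bool.and_eq_true, Nat.ble_eq] at hc
    cases i with
    | zero =>
      simp only [pol, coeff_add, coeff_C_zero, mul_coeff_zero, coeff_X_zero, zero_mul, add_zero]
      rw [abs_le]
      omega
    | succ i =>
      rw [pol, coeff_add, coeff_X_mul, coeff_C_succ, zero_add]
      exact ih _ hc.2 i

def ev (L : List ℕ) : ℕ := (L.map fun e => B ^ e - 1).prod

theorem eval_bin (L : List ℕ) : (bin L).eval (B : ℤ) = ev L := by
  induction L with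
  | nil => simp [bin, ev]
  | cons e L ih =>
    rw [bin_cons, eval_mul, ih]
    simp only [ev, List.map_cons, List.prod_cons]
    have : 1 ≤ B ^ e := Nat.one_le_pow _ _ (by unfold B; norm_num)
    push_cast [Nat.cast_sub this]
    simp

def ok (N D : List ℕ) (M f V : ℕ) : Bool :=
  Nat.blt V (B ^ f) && chk M f V && Nat.blt (2 ^ D.length * M + 2 ^ N.length) B &&
    Nat.beq ((B - 1) * V * ev D) ((B - 1) * ev N + h * (B ^ f - 1) * ev D)

theorem ok_eq {N D : List ℕ} {M f V : ℕ} (hk : ok N D M f V = true) (hD : ∀ e ∈ D, e ≠ 0)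
    {P : ℤ[X]} (hP : P * bin D = bin N) : P = pol f V ∧ ∀ i, |P.coeff i| ≤ M := by
  simp only [ok, Bool.and_eq_true, Nat.blt_eq, Nat.beq_eq] at hk
  obtain ⟨⟨⟨h1, h2⟩, h3⟩, h4⟩ := hk
  have hb := chk_ok M f V h2
  have hB1 : 1 < B := by unfold B; norm_num
  have key : pol f V * bin D - bin N = 0 := by
    refine zero_of_eval B (by exact_mod_cast (by omega : 0 < B)) _ _ le_rfl (fun i => ?_) ?_
    · have a1 := abs_le.1 (bd_bin _ _ hb D i)
      have a2 := abs_le.1 (bd_bin 1 1 (fun i => by rw [coeff_one]; split_ifs <;> simp) N i)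
      rw [one_mul] at a2
      have a3 : (2 : ℤ) ^ D.length * M + 2 ^ N.length < B := by exact_mod_cast h3
      rw [coeff_sub, abs_lt]
      constructor <;> linarith [a1.1, a1.2, a2.1, a2.2]
    · have a1 := eval_pol f V h1
      have a2 : 1 ≤ B ^ f := Nat.one_le_pow _ _ (by omega)
      zify [hB1.le, a2] at h4
      rw [eval_sub, eval_mul, eval_bin, eval_bin]
      apply mul_left_cancel₀ (show (B : ℤ) - 1 ≠ 0 by omega)
      linear_combination (ev D : ℤ) * a1 + h4
  have : P = pol f V := mul_right_cancel₀ (bin_ne D hD) (by rw [hP]; linear_combination -key)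
  exact ⟨this, this ▸ hb⟩

def val (N D : List ℕ) (f : ℕ) : ℕ := h * ((B ^ f - 1) / (B - 1)) + ev N / ev D

theorem prod_id (n : ℕ) (hn : n ≠ 0) (p : ℕ → Prop) [DecidablePred p] (N D : List ℕ)
    (hN : ∀ e ∈ N, e ∣ n) (hD : ∀ e ∈ D, e ∣ n)
    (hc : ∀ d ∈ n.divisors, (if p d then 1 else 0) + D.countP (fun e => decide (d ∣ e)) =
      N.countP (fun e => decide (d ∣ e))) :
    (∏ d ∈ n.divisors with p d, cyclotomic d ℤ) * bin D = bin N := by
  rw [bin_eq n hn D hD, bin_eq n hn N hN, Finset.prod_filter, ← Finset.prod_mul_distrib]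
  refine Finset.prod_congr rfl fun d hd => ?_
  rw [← hc d hd]
  split_ifs <;> simp [pow_add]

end Pool.Agent.H5.CycHeight
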