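import Pool.Agent.H5.DKDefs

namespace Pool.Agent.H5.DK
open Finset Function

variable {M : Type*} [MetricSpace M] {k : ℕ}

noncomputable def dd (X Y : Fin k → M) : ℝ := ∑ i, dist (X i) (Y i)

lemma sum_upd (f g : Fin k → ℝ) (i : Fin k) (h : ∀ j, j ≠ i → f j = g j) :
    ∑ j, f j + g i = ∑ j, g j + f i := by
  rw [← add_sum_erase _ f (mem_univ i), ← add_sum_erase _ g (mem_univ i),
    sum_congr rfl fun j hj => h j (ne_of_mem_erase hj)]
  ring

lemma dd_tri (X Y Z : Fin k → M) : dd X Z ≤ dd X Y + dd Y Z := by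
  unfold dd; rw [← sum_add_distrib]; exact sum_le_sum fun i _ => dist_triangle _ _ _

lemma dd_upd (X : Fin k → M) (i : Fin k) (r : M) : dd X (update X i r) = dist (X i) r := by
  unfold dd
  rw [sum_eq_single i]
  · simp
  · intro j _ hj; simp [update_of_ne hj]
  · simp

lemma dd_comm (X Y : Fin k → M) : dd X Y = dd Y X := sum_congr rfl fun _ _ => dist_comm _ _

structure Good (w : (Fin k → M) → ℝ) : Prop where
  nn : ∀ X, 0 ≤ w X
  sym : ∀ X (π : Equiv.Perm (Fin k)), w (X ∘ π) = w X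
  lip : ∀ X Y, w X ≤ w Y + dd X Y
  qc : ∀ X Y, ∃ π : Equiv.Perm (Fin k), ∀ S : Finset (Fin k),
    w (S.piecewise X (Y ∘ π)) + w (S.piecewise (Y ∘ π) X) ≤ w X + w Y

noncomputable def mn {α : Type*} (P : Finset α) (f : α → ℝ) : ℝ := sInf (f '' P)

lemma mn_le {α : Type*} {P : Finset α} (f : α → ℝ) {a : α} (h : a ∈ P) : mn P f ≤ f a :=
  csInf_le (P.finite_toSet.image f).bddBelow ⟨a, h, rfl⟩

lemma mn_ex {α : Type*} {P : Finset α} (f : α → ℝ) (h : P.Nonempty) : ∃ a ∈ P, mn P f = f a := by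
  obtain ⟨a, ha, he⟩ := Set.Nonempty.csInf_mem (h.to_set.image f) (P.finite_toSet.image f)
  exact ⟨a, ha, he.symm⟩

noncomputable def w0 (X0 X : Fin k → M) : ℝ := mn univ fun π : Equiv.Perm (Fin k) => dd (X0 ∘ π) X

lemma w0_le (X0 X : Fin k → M) (π : Equiv.Perm (Fin k)) : w0 X0 X ≤ dd (X0 ∘ π) X :=
  mn_le (fun π : Equiv.Perm (Fin k) => dd (X0 ∘ π) X) (mem_univ π)

lemma w0_ex (X0 X : Fin k → M) : ∃ π : Equiv.Perm (Fin k), w0 X0 X = dd (X0 ∘ π) X := by
  obtain ⟨a, -, h⟩ := mn_ex (P := univ) (fun π : Equiv.Perm (Fin k) => dd (X0 ∘ π) X) univ_nonempty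
  exact ⟨a, h⟩

lemma dd_perm (X Y : Fin k → M) (π : Equiv.Perm (Fin k)) : dd (X ∘ π) (Y ∘ π) = dd X Y :=
  Equiv.sum_comp π fun i => dist (X i) (Y i)

omit [MetricSpace M] in
lemma sym_of_le (w : (Fin k → M) → ℝ) (h : ∀ X (π : Equiv.Perm (Fin k)), w (X ∘ π) ≤ w X)
    (X : Fin k → M) (π : Equiv.Perm (Fin k)) : w (X ∘ π) = w X := by
  refine le_antisymm (h X π) ?_
  have := h (X ∘ π) π.symm
  rwa [comp_assoc, Equiv.self_comp_symm, comp_id] at this

lemma good_w0 (X0 : Fin k → M) : Good (w0 X0) where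
  nn X := by obtain ⟨π, h⟩ := w0_ex X0 X; rw [h]; exact sum_nonneg fun _ _ => dist_nonneg
  sym := sym_of_le _ fun X π => by
    obtain ⟨a, h⟩ := w0_ex X0 X
    rw [h, ← dd_perm _ _ π]
    exact w0_le X0 (X ∘ π) (π.trans a)
  lip X Y := by
    obtain ⟨a, h⟩ := w0_ex X0 Y
    rw [h, dd_comm X Y]; exact (w0_le X0 X a).trans (dd_tri _ _ _)
  qc X Y := by
    obtain ⟨a, ha⟩ := w0_ex X0 X
    obtain ⟨b, hb⟩ := w0_ex X0 Y
    refine ⟨a.trans b.symm, fun S => ?_⟩
    have e : dd (X0 ∘ b) Y = dd (X0 ∘ a) (Y ∘ a.trans b.symm) := by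
      rw [← dd_perm _ _ (a.trans b.symm)]; congr 1; funext i; simp
    rw [ha, hb, e]
    refine (add_le_add (w0_le X0 _ a) (w0_le X0 _ a)).trans (le_of_eq ?_)
    unfold dd
    rw [← sum_add_distrib, ← sum_add_distrib]
    refine sum_congr rfl fun i _ => ?_
    by_cases h : i ∈ S
    · simp [h]
    · simp [h, add_comm]

noncomputable def upd (w : (Fin k → M) → ℝ) (r : M) (X : Fin k → M) : ℝ :=
  mn univ fun i => w (update X i r) + dist r (X i)

lemma upd_le (w : (Fin k → M) → ℝ) (r : M) (X : Fin k → M) (i : Fin k) :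
    upd w r X ≤ w (update X i r) + dist r (X i) :=
  mn_le (fun i => w (update X i r) + dist r (X i)) (mem_univ i)

variable [NeZero k]

lemma upd_ex (w : (Fin k → M) → ℝ) (r : M) (X : Fin k → M) :
    ∃ i, upd w r X = w (update X i r) + dist r (X i) := by
  obtain ⟨a, -, h⟩ := mn_ex (P := univ) (fun i => w (update X i r) + dist r (X i)) univ_nonempty
  exact ⟨a, h⟩

lemma le_upd {w : (Fin k → M) → ℝ} (hw : Good w) (r : M) (X : Fin k → M) : w X ≤ upd w r X := by
  obtain ⟨i, h⟩ := upd_ex w r X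
  rw [h, dist_comm, ← dd_upd]; exact hw.lip _ _

omit [NeZero k] in
lemma upd_cov (w : (Fin k → M) → ℝ) {r : M} {X : Fin k → M} {i : Fin k} (h : X i = r) :
    upd w r X ≤ w X := by
  have := upd_le w r X i
  rw [← h, update_eq_self, dist_self, add_zero] at this
  rwa [← h]

omit [NeZero k] in
lemma qc_fix {w : (Fin k → M) → ℝ} (hw : Good w) (X Y : Fin k → M) {i j : Fin k} (h : X i = Y j) :
    ∃ π : Equiv.Perm (Fin k), π i = j ∧ ∀ S : Finset (Fin k),
      w (S.piecewise X (Y ∘ π)) + w (S.piecewise (Y ∘ π) X) ≤ w X + w Y := by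
  obtain ⟨π, hπ⟩ := hw.qc X Y
  set i' := π.symm j with hi'
  have hj : π i' = j := by simp [hi']
  have key : ∀ S : Finset (Fin k), i' ∈ S →
      w (S.piecewise X (Y ∘ (Equiv.swap i i').trans π)) +
        w (S.piecewise (Y ∘ (Equiv.swap i i').trans π) X) ≤ w X + w Y := by
    intro S hS
    have e1 : S.piecewise X (Y ∘ (Equiv.swap i i').trans π) = (insert i S).piecewise X (Y ∘ π) := by
      funext x
      by_cases h1 : x ∈ S
      · simp [h1]
      · by_cases h2 : x = i
        · subst h2; simp [h1, hj, h]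
        · have h3 : x ≠ i' := fun hh => h1 (hh ▸ hS)
          simp [h1, h2, Equiv.swap_apply_of_ne_of_ne h2 h3]
    have e2 : S.piecewise (Y ∘ (Equiv.swap i i').trans π) X =
        (insert i S).piecewise (Y ∘ π) X ∘ Equiv.swap i i' := by
      funext x
      by_cases h2 : x = i
      · subst h2
        by_cases h1 : x ∈ S
        · simp [h1, hS]
        · simp [h1, hS, hj, h]
      · by_cases h3 : x = i'
        · subst h3; simp [hS]
        · by_cases h1 : x ∈ S <;> simp [h1, h2, Equiv.swap_apply_of_ne_of_ne h2 h3]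
    rw [e1, e2, hw.sym]; exact hπ _
  refine ⟨(Equiv.swap i i').trans π, by simp [hj], fun S => ?_⟩
  by_cases hS : i' ∈ S
  · exact key S hS
  · have := key Sᶜ (mem_compl.2 hS)
    rw [piecewise_compl, piecewise_compl, add_comm] at this
    exact this

lemma good_upd {w : (Fin k → M) → ℝ} (hw : Good w) (r : M) : Good (upd w r) where
  nn X := (hw.nn X).trans (le_upd hw r X)
  sym := sym_of_le _ fun X π => by
    obtain ⟨i, h⟩ := upd_ex w r X
    have := upd_le w r (X ∘ π) (π.symm i)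
    rw [← update_comp_equiv, hw.sym] at this
    rw [h]; simpa using this
  lip X Y := by
    obtain ⟨i, h⟩ := upd_ex w r Y
    have h1 := upd_le w r X i
    have h2 := hw.lip (update X i r) (update Y i r)
    have h3 := sum_upd (fun j => dist (update X i r j) (update Y i r j)) (fun j => dist (X j) (Y j)) i
      fun j hj => by simp [update_of_ne hj]
    simp only [update_self, dist_self] at h3
    have h4 := dist_triangle_right r (X i) (Y i)
    unfold dd at h2 ⊢
    linarith
  qc X Y := by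
    obtain ⟨i, hi⟩ := upd_ex w r X
    obtain ⟨j, hj⟩ := upd_ex w r Y
    obtain ⟨π, h1, h2⟩ := qc_fix hw (update X i r) (update Y j r) (i := i) (j := j) (by simp)
    refine ⟨π, fun S => ?_⟩
    have e0 : update Y j r ∘ π = update (Y ∘ π) i r := by
      rw [update_comp_equiv, ← h1]; simp
    have e : ∀ A B : Fin k → M, S.piecewise (update A i r) (update B i r) = update (S.piecewise A B) i r := by
      intro A B; funext x
      by_cases h3 : x = i
      · subst h3; by_cases h4 : x ∈ S <;> simp [h4]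
      · by_cases h4 : x ∈ S <;> simp [h4, update_of_ne h3]
    have h3 := h2 S
    rw [e0, e, e] at h3
    have h4 := upd_le w r (S.piecewise X (Y ∘ π)) i
    have h5 := upd_le w r (S.piecewise (Y ∘ π) X) i
    have h6 : dist r (S.piecewise X (Y ∘ π) i) + dist r (S.piecewise (Y ∘ π) X i) =
        dist r (X i) + dist r (Y j) := by
      by_cases h4 : i ∈ S <;> simp [h4, h1, add_comm]
    linarith

end Pool.Agent.H5.DK
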