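import Pool.Agent.H5.DK1

namespace Pool.Agent.H5.DK
open Finset Function

variable {M : Type*} [MetricSpace M] {k : ℕ}

noncomputable def PP (k : ℕ) (F : Finset M) : Finset (Fin k → M) := Fintype.piFinset fun _ => F

omit [MetricSpace M] in
lemma mem_PP {F : Finset M} {X : Fin k → M} : X ∈ PP k F ↔ ∀ i, X i ∈ F := Fintype.mem_piFinset

omit [MetricSpace M] in
lemma upd_PP {F : Finset M} {X : Fin k → M} (h : X ∈ PP k F) (i : Fin k) {r : M} (hr : r ∈ F) :
    update X i r ∈ PP k F := by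
  rw [mem_PP] at h ⊢
  intro j
  by_cases hj : j = i
  · subst hj; simpa using hr
  · rw [update_of_ne hj]; exact h j

omit [MetricSpace M] in
lemma perm_PP {F : Finset M} {X : Fin k → M} (h : X ∈ PP k F) (π : Equiv.Perm (Fin k)) :
    X ∘ π ∈ PP k F := mem_PP.2 fun i => mem_PP.1 h (π i)

noncomputable def sd (X : Fin k → M) (x : M) : ℝ := ∑ j, dist (X j) x

lemma sd_upd (X : Fin k → M) (i : Fin k) (a x : M) : sd (update X i a) x + dist (X i) x = sd X x + dist a x := by
  have := sum_upd (fun j => dist (update X i a j) x) (fun j => dist (X j) x) i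
    fun j hj => by simp [update_of_ne hj]
  simpa [sd] using this

lemma sd_perm (X : Fin k → M) (π : Equiv.Perm (Fin k)) (x : M) : sd (X ∘ π) x = sd X x :=
  Equiv.sum_comp π fun i => dist (X i) x

lemma sd_lip (X : Fin k → M) (x y : M) : sd X x ≤ sd X y + k * dist y x := by
  have : (k : ℝ) * dist y x = ∑ _j : Fin k, dist y x := by simp
  rw [this]; unfold sd; rw [← sum_add_distrib]
  exact sum_le_sum fun i _ => dist_triangle _ _ _

noncomputable def mm (F : Finset M) (w : (Fin k → M) → ℝ) (x : M) : ℝ := mn (PP k F) fun B => w B - sd B x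

noncomputable def Phi (F : Finset M) (w : (Fin k → M) → ℝ) : ℝ :=
  mn (PP k F) fun X => k * w X + ∑ i, mm F w (X i)

lemma mm_le {F : Finset M} (w : (Fin k → M) → ℝ) (x : M) {B : Fin k → M} (h : B ∈ PP k F) :
    mm F w x ≤ w B - sd B x := mn_le (fun B => w B - sd B x) h

lemma mm_ex {F : Finset M} (w : (Fin k → M) → ℝ) (x : M) (h : (PP k F).Nonempty) :
    ∃ B ∈ PP k F, mm F w x = w B - sd B x := mn_ex _ h

lemma Phi_le {F : Finset M} (w : (Fin k → M) → ℝ) {X : Fin k → M} (h : X ∈ PP k F) :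
    Phi F w ≤ k * w X + ∑ i, mm F w (X i) := mn_le (fun X => k * w X + ∑ i, mm F w (X i)) h

lemma Phi_ex {F : Finset M} (w : (Fin k → M) → ℝ) (h : (PP k F).Nonempty) :
    ∃ X ∈ PP k F, Phi F w = k * w X + ∑ i, mm F w (X i) := mn_ex _ h

omit [MetricSpace M] in
lemma qc_one {w : (Fin k → M) → ℝ} {X Z : Fin k → M} {c : ℝ} (i : Fin k)
    (h : ∀ S : Finset (Fin k), w (S.piecewise X Z) + w (S.piecewise Z X) ≤ c) :
    w (update Z i (X i)) + w (update X i (Z i)) ≤ c := by
  have := h {i}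
  rwa [piecewise_singleton, piecewise_singleton] at this

variable [NeZero k]

lemma ext_le {F : Finset M} {w : (Fin k → M) → ℝ} (hw : Good w) {r : M} {B : Fin k → M}
    (hB : B ∈ PP k F) : upd w r B - w B ≤ mm F (upd w r) r - mm F w r := by
  obtain ⟨A, hA, hAe⟩ := mm_ex w r ⟨B, hB⟩
  have hmin : ∀ B ∈ PP k F, w A - sd A r ≤ w B - sd B r := fun B hB => hAe ▸ mm_le w r hB
  have h2 : upd w r B - w B ≤ upd w r A - w A := by
    obtain ⟨i, hi⟩ := upd_ex w r A
    obtain ⟨π, hπ⟩ := hw.qc (update A i r) B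
    have a1 := qc_one i hπ
    rw [update_self, update_idem] at a1
    have a2 := upd_le w r (B ∘ π) i
    rw [(good_upd hw r).sym] at a2
    have a3 := hmin _ (upd_PP hA i (mem_PP.1 (perm_PP hB π) i))
    have a4 := sd_upd A i ((B ∘ π) i) r
    rw [dist_comm r] at hi a2
    linarith
  obtain ⟨D, hD, hDe⟩ := mm_ex (upd w r) r ⟨B, hB⟩
  have h1 : upd w r A - sd A r ≤ upd w r D - sd D r := by
    obtain ⟨j, hj⟩ := upd_ex w r D
    obtain ⟨π, hπ⟩ := hw.qc A (update D j r)
    have a1 := qc_one (π.symm j) hπ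
    rw [update_comp_equiv, update_self, update_idem] at a1
    have a2 := upd_le w r A (π.symm j)
    have a3 := hmin _ (upd_PP (perm_PP hD π) (π.symm j) (mem_PP.1 hA (π.symm j)))
    have a4 := sd_upd (D ∘ π) (π.symm j) (A (π.symm j)) r
    rw [sd_perm] at a4
    simp only [comp_apply, Equiv.apply_symm_apply] at a4
    rw [dist_comm r] at hj a2
    linarith
  linarith

lemma Phi_step {F : Finset M} {w : (Fin k → M) → ℝ} (hw : Good w) {r : M} (hr : r ∈ F) :
    mm F (upd w r) r - mm F w r ≤ Phi F (upd w r) - Phi F w := by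
  have hne : (PP k F).Nonempty := ⟨fun _ => r, mem_PP.2 fun _ => hr⟩
  obtain ⟨X, hX, hXe⟩ := Phi_ex (upd w r) hne
  obtain ⟨i, hi⟩ := upd_ex w r X
  have mono : ∀ x, mm F w x ≤ mm F (upd w r) x := fun x => by
    obtain ⟨D, hD, hDe⟩ := mm_ex (upd w r) x hne
    have := mm_le w x hD
    have := le_upd hw r D
    linarith
  have lip : mm F (upd w r) r ≤ mm F (upd w r) (X i) + k * dist r (X i) := by
    obtain ⟨D, hD, hDe⟩ := mm_ex (upd w r) (X i) hne
    have := mm_le (upd w r) r hD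
    have := sd_lip D (X i) r
    linarith
  have a1 := Phi_le w (upd_PP hX i hr)
  have a2 := sum_upd (fun j => mm F w (update X i r j)) (fun j => mm F w (X j)) i
    fun j hj => by simp [update_of_ne hj]
  simp only [update_self] at a2
  have a3 : ∑ j, mm F w (X j) + mm F (upd w r) (X i) ≤ ∑ j, mm F (upd w r) (X j) + mm F w (X i) := by
    rw [← add_sum_erase _ (fun j => mm F w (X j)) (mem_univ i),
      ← add_sum_erase _ (fun j => mm F (upd w r) (X j)) (mem_univ i)]
    have := sum_le_sum (s := univ.erase i) fun j _ => mono (X j)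
    linarith
  rw [hi, mul_add] at hXe
  linarith

lemma one_step {w : (Fin k → M) → ℝ} (hw : Good w) (r : M) (C : Fin k → M) : ∃ i, ∀ F : Finset M,
    r ∈ F → C ∈ PP k F →
      dist (C i) r + upd w r (update C i r) - w C ≤ Phi F (upd w r) - Phi F w := by
  obtain ⟨i, hi⟩ := upd_ex w r C
  refine ⟨i, fun F hr hC => ?_⟩
  have a1 := ext_le hw (r := r) hC
  have a2 := Phi_step hw hr
  have a3 := upd_cov w (r := r) (X := update C i r) (i := i) (by simp)
  rw [dist_comm r] at hi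
  linarith

omit [NeZero k] in
lemma Phi_up {F : Finset M} (w : (Fin k → M) → ℝ) {X : Fin k → M} (h : X ∈ PP k F) :
    Phi F w ≤ 2 * k * w X := by
  have a1 := Phi_le w h
  have a2 : ∑ i, mm F w (X i) ≤ ∑ _i : Fin k, w X := sum_le_sum fun i _ => by
    have := mm_le w (X i) h
    have : 0 ≤ sd X (X i) := sum_nonneg fun _ _ => dist_nonneg
    linarith
  simp only [sum_const, card_univ, Fintype.card_fin, nsmul_eq_mul] at a2
  linarith

omit [NeZero k] in
lemma Phi_low {F : Finset M} {X0 : Fin k → M} (h : X0 ∈ PP k F) :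
    - ∑ i, sd X0 (X0 i) ≤ Phi F (w0 X0) := by
  obtain ⟨X, hX, hXe⟩ := Phi_ex (w0 X0) ⟨X0, h⟩
  obtain ⟨a, ha⟩ := w0_ex X0 X
  have a1 : ∀ x, - sd X0 x ≤ mm F (w0 X0) x := fun x => by
    obtain ⟨D, hD, hDe⟩ := mm_ex (w0 X0) x ⟨X0, h⟩
    obtain ⟨b, hb⟩ := w0_ex X0 D
    have : sd D x ≤ dd (X0 ∘ b) D + sd (X0 ∘ b) x := by
      unfold sd dd; rw [← sum_add_distrib]
      exact sum_le_sum fun i _ => dist_triangle_left _ _ _
    rw [sd_perm] at this
    linarith
  have a2 : ∑ i, - (sd X0 (X0 (a i)) + k * dist (X0 (a i)) (X i)) ≤ ∑ i, mm F (w0 X0) (X i) :=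
    sum_le_sum fun i _ => by
      have := a1 (X i)
      have := sd_lip X0 (X i) (X0 (a i))
      linarith
  rw [sum_neg_distrib, sum_add_distrib, ← mul_sum, Equiv.sum_comp a fun i => sd X0 (X0 i)] at a2
  rw [hXe, ha]
  simp only [dd, comp_apply]
  linarith

def Adv (w : (Fin k → M) → ℝ) (C : Fin k → M) (p r : M) (w' : (Fin k → M) → ℝ) (C' : Fin k → M) (c : ℝ) : Prop :=
  Good w' ∧ dd C C' ≤ c ∧
    (∀ F : Finset M, p ∈ F → r ∈ F → C ∈ PP k F → C' ∈ PP k F ∧ c + w' C' - w C ≤ Phi F w' - Phi F w) ∧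
    ∀ Y : Fin k → M, (∃ i, Y i = p) → (∃ j, Y j = r) → w' Y ≤ w Y

lemma adv_step {w w' : (Fin k → M) → ℝ} {C C' : Fin k → M} {p r q : M} {c : ℝ}
    (h : Adv w C p r w' C' c) (hq : q = p ∨ q = r) :
    ∃ i, Adv w C p r (upd w' q) (update C' i q) (c + dist (C' i) q) := by
  obtain ⟨h1, h2, h3, h4⟩ := h
  obtain ⟨i, hi⟩ := one_step h1 q C'
  refine ⟨i, good_upd h1 q, ?_, fun F hp hr hC => ?_, fun Y hp hr => ?_⟩
  · have := dd_tri C C' (update C' i q)
    rw [dd_upd] at this; linarith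
  · obtain ⟨a, b⟩ := h3 F hp hr hC
    have hqF : q ∈ F := by rcases hq with rfl | rfl <;> assumption
    have := hi F hqF a
    exact ⟨upd_PP a i hqF, by linarith⟩
  · obtain ⟨j, hj⟩ : ∃ j, Y j = q := by rcases hq with rfl | rfl <;> assumption
    exact (upd_cov w' hj).trans (h4 Y hp hr)

lemma adv_both (hk : 2 ≤ k) {w : (Fin k → M) → ℝ} (hw : Good w) (C : Fin k → M) (f : Fin k) (r : M) :
    ∃ w' C' c, Adv w C (C f) r w' C' c ∧ (∃ i, C' i = C f) ∧ ∃ j, C' j = r := by
  classical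
  by_contra hh
  push Not at hh
  set p := C f with hp
  have h0 : Adv w C p r w C 0 :=
    ⟨hw, by simp [dd], fun F _ _ hC => ⟨hC, by simp⟩, fun _ _ _ => le_rfl⟩
  have hδ : 0 < dist p r := dist_pos.2 (hh w C 0 h0 ⟨f, rfl⟩ f)
  have ind : ∀ n : ℕ, ∃ w' C' c, Adv w C p r w' C' c ∧ n * dist p r ≤ c ∧
      ((∃ i, C' i = p) ∨ ∃ j, C' j = r) := by
    intro n
    induction n with
    | zero => exact ⟨w, C, 0, h0, by simp, Or.inl ⟨f, rfl⟩⟩
    | succ n ih =>
      obtain ⟨w', C', c, h1, h2, ⟨j, hj⟩ | ⟨j, hj⟩⟩ := ih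
      · obtain ⟨i, hi⟩ := adv_step h1 (Or.inr rfl)
        refine ⟨_, _, _, hi, ?_, Or.inr ⟨i, by simp⟩⟩
        have : j = i := by
          by_contra hne
          exact hh _ _ _ hi ⟨j, by rw [update_of_ne hne, hj]⟩ i (by simp)
        rw [← this, hj]; push_cast; linarith
      · obtain ⟨i, hi⟩ := adv_step h1 (Or.inl rfl)
        refine ⟨_, _, _, hi, ?_, Or.inl ⟨i, by simp⟩⟩
        have : j = i := by
          by_contra hne
          exact hh _ _ _ hi ⟨i, by simp⟩ j (by rw [update_of_ne hne, hj])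
        rw [← this, hj, dist_comm r p]; push_cast; linarith
  have : Nontrivial (Fin k) := Fin.nontrivial_iff_two_le.2 hk
  obtain ⟨g, hg⟩ := exists_ne f
  let F : Finset M := insert r (univ.image C)
  have hC : C ∈ PP k F := mem_PP.2 fun i => by simp [F]
  have hr : r ∈ F := by simp [F]
  obtain ⟨n, hn⟩ := exists_nat_gt ((2 * k * w (update C g r) - Phi F w + w C) / dist p r)
  rw [div_lt_iff₀ hδ] at hn
  obtain ⟨w', C', c, ⟨h1, -, h3, h4⟩, h5, -⟩ := ind n
  obtain ⟨a, b⟩ := h3 F (mem_PP.1 hC f) hr hC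
  have a1 := Phi_up w' (upd_PP hC g hr)
  have a2 := h4 (update C g r) ⟨f, by rw [update_of_ne hg.symm]⟩ ⟨g, by simp⟩
  have a3 := h1.nn C'
  have a4 : 2 * k * w' (update C g r) ≤ 2 * k * w (update C g r) :=
    mul_le_mul_of_nonneg_left a2 (by positivity)
  linarith

lemma block (hk : 2 ≤ k) {w : (Fin k → M) → ℝ} (hw : Good w) (s : St M k) (r : M) :
    ∃ (w' : (Fin k → M) → ℝ) (s' : St M k), Step s s' r ∧
      Adv w s.pos (s.pos s.fr) r w' s'.pos (mv s s') := by
  obtain ⟨w', C', c, ⟨h1, h2, h3, h4⟩, ⟨i, hi⟩, ⟨j, hj⟩⟩ := adv_both hk hw s.pos s.fr r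
  have hc : dd s.pos (C' ∘ Equiv.swap s.fr i) ≤ dd s.pos C' := by
    by_cases he : i = s.fr
    · rw [he]; simp
    · have b1 := sum_upd (fun x => dist (s.pos x) ((C' ∘ Equiv.swap s.fr i) x))
        (fun x => dist (s.pos x) (update C' s.fr (C' i) x)) i fun x hx => by
          by_cases h5 : x = s.fr
          · subst h5; simp
          · simp [update_of_ne h5, Equiv.swap_apply_of_ne_of_ne h5 hx]
      have b2 := sum_upd (fun x => dist (s.pos x) (update C' s.fr (C' i) x))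
        (fun x => dist (s.pos x) (C' x)) s.fr fun x hx => by simp [update_of_ne hx]
      simp only [update_self, update_of_ne he, comp_apply, Equiv.swap_apply_right, hi, dist_self] at b1 b2
      have b3 := dist_triangle (s.pos i) (s.pos s.fr) (C' s.fr)
      unfold dd
      simp only [comp_apply]
      linarith
  refine ⟨w', ⟨C' ∘ Equiv.swap s.fr i, Equiv.swap s.fr i j⟩, ⟨by simp [hi], by simp [hj]⟩,
    h1, le_rfl, fun F hp hr hC => ?_, h4⟩
  obtain ⟨a, b⟩ := h3 F hp hr hC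
  refine ⟨perm_PP a _, ?_⟩
  rw [h1.sym]
  have : mv s ⟨C' ∘ Equiv.swap s.fr i, Equiv.swap s.fr i j⟩ = dd s.pos (C' ∘ Equiv.swap s.fr i) := rfl
  linarith

end Pool.Agent.H5.DK
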