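import Pool.Agent.H5.DK2

namespace Pool.Agent.H5.DK
open Finset Function

variable {M : Type*} [MetricSpace M] {k : ℕ}

omit [MetricSpace M] in
lemma legal_ex (s0 : St M k) (A : List M → St M k) (hA : Online s0 A) (ρ : ℕ → M) (T : ℕ) :
    Legal s0 ρ T (run A ρ) := by
  refine ⟨by simpa [run] using hA.1, fun t _ => ?_⟩
  simp only [run, List.range_succ, List.map_append, List.map_cons, List.map_nil]
  exact hA.2 _ _

theorem main (hk : 2 ≤ k) (s0 : St M k) :
    ∃ A : List M → St M k, Online s0 A ∧ Competitive s0 A (2 * k - 1) := by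
  classical
  have : NeZero k := ⟨by omega⟩
  choose nw ns hstep hadv using fun (w : (Fin k → M) → ℝ) (hw : Good w) (s : St M k) (r : M) =>
    block hk hw s r
  let Z := {z : ((Fin k → M) → ℝ) × St M k // Good z.1}
  let step : Z → M → Z := fun z r =>
    ⟨(nw z.1.1 z.2 z.1.2 r, ns z.1.1 z.2 z.1.2 r), (hadv z.1.1 z.2 z.1.2 r).1⟩
  let z0 : Z := ⟨(w0 s0.pos, s0), good_w0 _⟩
  let A : List M → St M k := fun h => (h.foldl step z0).1.2
  have hA : Online s0 A := by
    refine ⟨rfl, fun h r => ?_⟩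
    simp only [A, List.foldl_append, List.foldl_cons, List.foldl_nil]
    exact hstep _ _ _ _
  refine ⟨A, hA, ∑ i, sd s0.pos (s0.pos i), fun ρ T => ?_⟩
  have hk1 : (0 : ℝ) < 2 * k - 1 := by
    have : (2 : ℝ) ≤ k := by exact_mod_cast hk
    linarith
  suffices h : ∀ S, Legal s0 ρ T S →
      cost (run A ρ) T ≤ (2 * k - 1) * cost S T + ∑ i, sd s0.pos (s0.pos i) by
    have : (cost (run A ρ) T - ∑ i, sd s0.pos (s0.pos i)) / (2 * k - 1) ≤ opt s0 ρ T := by
      refine le_csInf ⟨_, _, legal_ex s0 A hA ρ T, rfl⟩ ?_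
      rintro c ⟨S, hS, rfl⟩
      rw [div_le_iff₀ hk1]
      have := h S hS
      linarith
    rw [div_le_iff₀ hk1] at this
    linarith
  intro S hS
  let z : ℕ → Z := fun t => ((List.range t).map ρ).foldl step z0
  have hz : ∀ t, z (t + 1) = step (z t) (ρ t) := fun t => by
    simp only [z, List.range_succ, List.map_append, List.map_cons, List.map_nil, List.foldl_append,
      List.foldl_cons, List.foldl_nil]
  have hrun : ∀ t, run A ρ t = (z t).1.2 := fun t => rfl
  let F : Finset M := univ.image s0.pos ∪ (range T).image ρ ∪ univ.image (S T).pos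
  have h0 : s0.pos ∈ PP k F := mem_PP.2 fun i => by simp [F]
  have hT : (S T).pos ∈ PP k F := mem_PP.2 fun i => by simp [F]
  have hw0 : w0 s0.pos s0.pos ≤ 0 := by
    have := w0_le s0.pos s0.pos 1
    simpa [dd] using this
  have ind : ∀ t ≤ T, (z t).1.2.pos ∈ PP k F ∧
      cost (run A ρ) t + (z t).1.1 (z t).1.2.pos ≤ Phi F (z t).1.1 - Phi F (w0 s0.pos) ∧
      (z t).1.1 (S t).pos ≤ cost S t ∧ (z t).1.2.pos (z t).1.2.fr = (S t).pos (S t).fr := by
    intro t
    induction t with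
    | zero =>
      intro _
      have e : z 0 = z0 := rfl
      rw [e, hS.1]
      simp only [z0, cost, range_zero, sum_empty, sub_self, zero_add]
      exact ⟨h0, hw0, hw0, trivial⟩
    | succ t ih =>
      intro ht
      obtain ⟨a1, a2, a3, a4⟩ := ih (by omega)
      obtain ⟨-, -, b3, b4⟩ := hadv (z t).1.1 (z t).2 (z t).1.2 (ρ t)
      obtain ⟨-, c2⟩ := hstep (z t).1.1 (z t).2 (z t).1.2 (ρ t)
      obtain ⟨d1, d2⟩ := hS.2 t (by omega)
      have hr : ρ t ∈ F := by
        simp only [F, mem_union, mem_image, mem_range]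
        exact Or.inl (Or.inr ⟨t, by omega, rfl⟩)
      obtain ⟨e1, e2⟩ := b3 F (mem_PP.1 a1 _) hr a1
      have e3 := b4 (S (t + 1)).pos ⟨_, d1.trans a4.symm⟩ ⟨_, d2⟩
      have e4 := (z t).2.lip (S (t + 1)).pos (S t).pos
      rw [dd_comm] at e4
      have e5 : mv (S t) (S (t + 1)) = dd (S t).pos (S (t + 1)).pos := rfl
      simp only [cost, sum_range_succ, hrun, hz] at a2 a3 ⊢
      exact ⟨e1, by linarith, by linarith, c2.trans d2.symm⟩
  obtain ⟨a1, a2, a3, -⟩ := ind T le_rfl
  have b1 := Phi_low h0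
  have b2 := Phi_up (z T).1.1 a1
  have b3 := Phi_up (z T).1.1 hT
  have b4 := mul_le_mul_of_nonneg_left a3 hk1.le
  rcases le_total ((z T).1.1 (z T).1.2.pos) ((z T).1.1 (S T).pos) with h | h
  · have := mul_le_mul_of_nonneg_left h hk1.le
    linarith
  · linarith

end Pool.Agent.H5.DK
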