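import Mathlib

namespace Pool.Agent.H5.DK

/-- A state of the delayed `k`-server problem: the positions of the `k` servers and the frozen server. -/
structure St (M : Type*) (k : ℕ) where
  pos : Fin k → M
  fr : Fin k

variable {M : Type*} [MetricSpace M] {k : ℕ}

/-- A legal step serving the request `r`: the frozen server does not move, and the new frozen server
(the one that serves) stands at `r`. -/
def Step (s s' : St M k) (r : M) : Prop := s'.pos s.fr = s.pos s.fr ∧ s'.pos s'.fr = r

/-- Total distance moved in a step. -/
noncomputable def mv (s s' : St M k) : ℝ := ∑ i, dist (s.pos i) (s'.pos i)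

/-- Cost of the first `T` steps of a schedule. -/
noncomputable def cost (S : ℕ → St M k) (T : ℕ) : ℝ := ∑ t ∈ Finset.range T, mv (S t) (S (t + 1))

/-- `S` is a legal schedule from `s0` for the requests `ρ 0, ..., ρ (T-1)`. -/
def Legal (s0 : St M k) (ρ : ℕ → M) (T : ℕ) (S : ℕ → St M k) : Prop :=
  S 0 = s0 ∧ ∀ t < T, Step (S t) (S (t + 1)) (ρ t)

/-- The optimal offline cost of the requests `ρ 0, ..., ρ (T-1)`. -/
noncomputable def opt (s0 : St M k) (ρ : ℕ → M) (T : ℕ) : ℝ :=
  sInf {c | ∃ S, Legal s0 ρ T S ∧ c = cost S T}

/-- A deterministic online algorithm: its state is a function of the list of requests seen so far. -/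
def Online (s0 : St M k) (A : List M → St M k) : Prop :=
  A [] = s0 ∧ ∀ (h : List M) (r : M), Step (A h) (A (h ++ [r])) r

/-- The schedule an online algorithm produces on the requests `ρ 0, ρ 1, ...`. -/
def run (A : List M → St M k) (ρ : ℕ → M) : ℕ → St M k := fun t => A ((List.range t).map ρ)

/-- `A` is `C`-competitive from the initial state `s0`. -/
def Competitive (s0 : St M k) (A : List M → St M k) (C : ℝ) : Prop :=
  ∃ K : ℝ, ∀ (ρ : ℕ → M) (T : ℕ), cost (run A ρ) T ≤ C * opt s0 ρ T + K

end Pool.Agent.H5.DK
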