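import Pool.Agent.H5.DK3

namespace Pool.Agent.H5.DK
open Finset Function

section gen
variable {M : Type*} [MetricSpace M] {k : ℕ}

lemma ext_legal {s0 s' : St M k} {ρ : ℕ → M} {T : ℕ} {S : ℕ → St M k} {r : M} (h : Legal s0 ρ T S)
    (hs : Step (S T) s' r) : Legal s0 (update ρ T r) (T + 1) (update S (T + 1) s') ∧
      cost (update S (T + 1) s') (T + 1) = cost S T + mv (S T) s' := by
  refine ⟨⟨by rw [update_of_ne (by omega)]; exact h.1, fun t ht => ?_⟩, ?_⟩
  · by_cases h1 : t = T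
    · subst h1; rw [update_of_ne (by omega), update_self, update_self]; exact hs
    · rw [update_of_ne (by omega), update_of_ne (by omega), update_of_ne h1]
      exact h.2 t (by omega)
  · unfold cost
    rw [sum_range_succ, update_of_ne (by omega), update_self]
    congr 1
    refine sum_congr rfl fun t ht => ?_
    have := mem_range.1 ht
    rw [update_of_ne (by omega), update_of_ne (by omega)]

omit [MetricSpace M] in
lemma run_upd (A : List M → St M k) (ρ : ℕ → M) (T : ℕ) (r : M) {t : ℕ} (ht : t ≤ T) :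
    run A (update ρ T r) t = run A ρ t := by
  unfold run
  congr 1
  refine List.map_congr_left fun a ha => ?_
  have := List.mem_range.1 ha
  rw [update_of_ne (by omega)]

lemma ext_run {s0 : St M k} {A : List M → St M k} (hA : Online s0 A) (ρ : ℕ → M) (T : ℕ) (r : M) :
    Step (run A ρ T) (run A (update ρ T r) (T + 1)) r ∧
      cost (run A (update ρ T r)) (T + 1) =
        cost (run A ρ) T + mv (run A ρ T) (run A (update ρ T r) (T + 1)) := by
  have := (legal_ex s0 A hA (update ρ T r) (T + 1)).2 T (by omega)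
  rw [run_upd A ρ T r le_rfl, update_self] at this
  refine ⟨this, ?_⟩
  unfold cost
  rw [sum_range_succ, run_upd A ρ T r le_rfl]
  congr 1
  refine sum_congr rfl fun t ht => ?_
  have := mem_range.1 ht
  rw [run_upd A ρ T r (by omega), run_upd A ρ T r (by omega)]

lemma cost_nn (S : ℕ → St M k) (T : ℕ) : 0 ≤ cost S T :=
  sum_nonneg fun _ _ => sum_nonneg fun _ _ => dist_nonneg

lemma opt_le {s0 : St M k} {ρ : ℕ → M} {T : ℕ} {S : ℕ → St M k} (h : Legal s0 ρ T S) :
    opt s0 ρ T ≤ cost S T :=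
  csInf_le ⟨0, by rintro c ⟨S, -, rfl⟩; exact cost_nn S T⟩ ⟨S, h, rfl⟩

lemma opt_nn (s0 : St M k) (ρ : ℕ → M) (T : ℕ) : 0 ≤ opt s0 ρ T :=
  Real.sInf_nonneg (by rintro c ⟨S, -, rfl⟩; exact cost_nn S T)

end gen

variable {k : ℕ}

def pt (h : Fin (k + 1)) : ℝ := (h.val : ℝ)

def cf (e : Option (Fin k) ≃ Fin (k + 1)) : Fin k → ℝ := fun i => pt (e (some i))

lemma cf_swap (e : Option (Fin k) ≃ Fin (k + 1)) (i : Fin k) :
    cf ((Equiv.swap none (some i)).trans e) = update (cf e) i (pt (e none)) := by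
  funext j
  by_cases h : j = i
  · subst h; simp [cf]
  · rw [update_of_ne h]
    simp only [cf, Equiv.trans_apply]
    rw [Equiv.swap_apply_of_ne_of_ne (by simp) (by simpa using h)]

def Ach (s0 : St ℝ k) (ρ : ℕ → ℝ) (T : ℕ) (l h : Fin (k + 1)) (c : ℝ) : Prop :=
  ∃ (S : ℕ → St ℝ k) (e : Option (Fin k) ≃ Fin (k + 1)), Legal s0 ρ T S ∧ (S T).pos = cf e ∧
    e (some (S T).fr) = l ∧ cost S T + dist (pt (e none)) (pt h) ≤ c

lemma ach_move {s0 : St ℝ k} {ρ : ℕ → ℝ} {T : ℕ} {l h h' : Fin (k + 1)} {c c' : ℝ}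
    (H : Ach s0 ρ T l h c) (hc : c + dist (pt h) (pt h') ≤ c') : Ach s0 ρ T l h' c' := by
  obtain ⟨S, e, a, b, d, f⟩ := H
  refine ⟨S, e, a, b, d, ?_⟩
  have := dist_triangle (pt (e none)) (pt h) (pt h')
  linarith

lemma ach_step {s0 : St ℝ k} {ρ : ℕ → ℝ} {T : ℕ} {l h r : Fin (k + 1)} {c : ℝ}
    (H : Ach s0 ρ T l h c) (h1 : h ≠ l) (h2 : h ≠ r) :
    Ach s0 (update ρ T (pt r)) (T + 1) r h c := by
  obtain ⟨S, e, a, b, d, f⟩ := H
  obtain ⟨e', e1, e2, e3⟩ : ∃ e' : Option (Fin k) ≃ Fin (k + 1), e' none = h ∧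
      cf e' (S T).fr = cf e (S T).fr ∧ dd (cf e) (cf e') ≤ dist (pt (e none)) (pt h) := by
    cases hh : e.symm h with
    | none =>
      have : e none = h := by rw [← hh]; simp
      exact ⟨e, this, rfl, by simp [dd]⟩
    | some i =>
      have : e (some i) = h := by rw [← hh]; simp
      refine ⟨(Equiv.swap none (some i)).trans e, by simp [this], ?_, ?_⟩
      · rw [cf_swap, update_of_ne]
        rintro h3; rw [h3, this] at d; exact h1 d
      · rw [cf_swap, dd_upd, dist_comm]; simp [cf, this]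
  obtain ⟨j, hj⟩ : ∃ j, e' (some j) = r := by
    cases hh : e'.symm r with
    | none =>
      have : e' none = r := by rw [← hh]; simp
      exact absurd (e1.symm.trans this) h2
    | some j => exact ⟨j, by rw [← hh]; simp⟩
  have hs : Step (S T) ⟨cf e', j⟩ (pt r) := ⟨by rw [b]; exact e2, by simp [cf, hj]⟩
  obtain ⟨g1, g2⟩ := ext_legal a hs
  refine ⟨_, e', g1, by simp, by simp [hj], ?_⟩
  have : mv (S T) ⟨cf e', j⟩ = dd (cf e) (cf e') := by rw [← b]; rfl
  rw [g2, e1, dist_self, this]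
  linarith

def Dom (w : ℕ → ℤ) (z y : Fin (k + 1)) : Prop :=
  (z.val + 1 = y.val ∨ y.val + 1 = z.val) ∧ w z + 1 = w y

lemma ach_dom {s0 : St ℝ k} {ρ : ℕ → ℝ} {T : ℕ} {l z y : Fin (k + 1)} {c : ℝ} {w : ℕ → ℤ}
    (H : Ach s0 ρ T l z (c + w z)) (hd : Dom w z y) : Ach s0 ρ T l y (c + w y) := by
  refine ach_move H ?_
  have h1 : dist (pt z) (pt y) = 1 := by
    unfold pt
    rcases hd.1 with h | h <;> rw [← h, Real.dist_eq] <;> simp
  rw [h1, ← hd.2]; push_cast; linarith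

def AdjW (k : ℕ) (w : ℕ → ℤ) : Prop := ∀ i < k, w (i + 1) = w i + 1 ∨ w i = w (i + 1) + 1

lemma lipW {w : ℕ → ℤ} (hw : AdjW k w) (a b : Fin (k + 1)) : (w a : ℝ) - w b ≤ dist (pt a) (pt b) := by
  have h : ∀ d a : ℕ, a + d ≤ k → w (a + d) - w a ≤ d ∧ w a - w (a + d) ≤ d := by
    intro d
    induction d with
    | zero => simp
    | succ d ih =>
      intro a ha
      have h1 := ih a (by omega)
      have h2 := hw (a + d) (by omega)
      rw [← add_assoc]; push_cast; omega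
  unfold pt
  rw [Real.dist_eq]
  have := a.2; have := b.2
  rcases le_total a.val b.val with h1 | h1
  · obtain ⟨d, hd⟩ := Nat.exists_eq_add_of_le h1
    have h2 : ((w a - w (a + d) : ℤ) : ℝ) ≤ ((d : ℤ) : ℝ) := by exact_mod_cast (h d a (by omega)).2
    rw [hd]; push_cast at h2 ⊢
    rw [abs_sub_comm]; simpa using h2
  · obtain ⟨d, hd⟩ := Nat.exists_eq_add_of_le h1
    have h2 : ((w (b + d) - w b : ℤ) : ℝ) ≤ ((d : ℤ) : ℝ) := by exact_mod_cast (h d b (by omega)).1
    rw [hd]; push_cast at h2 ⊢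
    simpa using h2

lemma edge_ex (hk : 3 ≤ k) {w : ℕ → ℤ} (hw : AdjW k w) (x : Fin (k + 1)) :
    ∃ z y : Fin (k + 1), z ≠ x ∧ y ≠ x ∧ Dom w z y := by
  obtain ⟨i, hi, h1, h2⟩ : ∃ i < k, i ≠ x.val ∧ i + 1 ≠ x.val := by
    by_cases h : x.val ≤ 1
    · exact ⟨2, by omega, by omega, by omega⟩
    · exact ⟨0, by omega, by omega, by omega⟩
  rcases hw i hi with h | h
  · exact ⟨⟨i, by omega⟩, ⟨i + 1, by omega⟩, fun hh => h1 (congrArg Fin.val hh),
      fun hh => h2 (congrArg Fin.val hh), Or.inl rfl, h.symm⟩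
  · exact ⟨⟨i + 1, by omega⟩, ⟨i, by omega⟩, fun hh => h2 (congrArg Fin.val hh),
      fun hh => h1 (congrArg Fin.val hh), Or.inr rfl, h.symm⟩

lemma raise (hk : 3 ≤ k) {w : ℕ → ℤ} (hw : AdjW k w) (x : Fin (k + 1)) :
    ∃ (v : ℤ) (z : Fin (k + 1)), AdjW k (update w x.val v) ∧ Dom (update w x.val v) z x := by
  by_cases h : ∃ z : Fin (k + 1), Dom w z x
  · obtain ⟨z, hz⟩ := h
    exact ⟨w x, z, by rwa [update_eq_self], by rwa [update_eq_self]⟩
  · push Not at h
    have hx := x.2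
    have up : x.val < k → w (x.val + 1) = w x + 1 := fun h1 => by
      rcases hw x h1 with h2 | h2
      · exact h2
      · exact absurd ⟨Or.inr rfl, h2.symm⟩ (h ⟨x.val + 1, by omega⟩)
    have dn : ∀ i, i + 1 = x.val → w i = w x + 1 := fun i h1 => by
      rcases hw i (by omega) with h2 | h2
      · exact absurd ⟨Or.inl h1, by rw [← h1]; exact h2.symm⟩ (h ⟨i, by omega⟩)
      · rw [← h1]; exact h2
    have adj : AdjW k (update w x.val (w x + 2)) := by
      intro i hi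
      by_cases h1 : i = x.val
      · subst h1; rw [update_self, update_of_ne (by omega), up hi]; omega
      · by_cases h2 : i + 1 = x.val
        · rw [update_of_ne h1, h2, update_self, dn i h2]; omega
        · rw [update_of_ne h1, update_of_ne h2]; exact hw i hi
    by_cases h1 : x.val < k
    · refine ⟨_, ⟨x.val + 1, by omega⟩, adj, Or.inr rfl, ?_⟩
      simp only [update_self]
      rw [update_of_ne (by omega), up h1]; ring
    · refine ⟨_, ⟨x.val - 1, by omega⟩, adj, Or.inl (by simp only; omega), ?_⟩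
      simp only [update_self]
      rw [update_of_ne (by omega), dn _ (by omega)]; ring

def Inv (s0 : St ℝ k) (A : List ℝ → St ℝ k) (c0 K : ℝ) (n : ℕ) : Prop :=
  ∃ (ρ : ℕ → ℝ) (T : ℕ) (l : Fin (k + 1)) (w : ℕ → ℤ) (e : Option (Fin k) ≃ Fin (k + 1)) (L : ℝ),
    AdjW k w ∧ (∃ z, Dom w z l) ∧ (∀ h, Ach s0 ρ T l h (c0 + w h)) ∧
    L + dd (cf e) (run A ρ T).pos ≤ cost (run A ρ) T + K ∧ n ≤ L ∧
    ∑ h : Fin (k + 1), (w h : ℝ) - w (e none) ≤ L + K

lemma dom_ne {w : ℕ → ℤ} {z y : Fin (k + 1)} (h : Dom w z y) : z ≠ y := by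
  rintro rfl; have := h.2; omega

lemma inv_step (hk : 3 ≤ k) {s0 : St ℝ k} {A : List ℝ → St ℝ k} (hA : Online s0 A) {c0 K : ℝ} {n : ℕ}
    (H : Inv s0 A c0 K n) : Inv s0 A c0 K (n + 1) := by
  obtain ⟨ρ, T, l, w, e, L, hw, ⟨d0, hd0⟩, hach, hL, hn, hs⟩ := H
  obtain ⟨z, y, hz, hy, hzy⟩ := edge_ex hk hw (e none)
  obtain ⟨v, u, hw', hu⟩ := raise hk hw (e none)
  set x := e none with hx
  set ρ1 := update ρ T (pt y)
  set ρ2 := update ρ1 (T + 1) (pt x)
  have a1 : ∀ h, Ach s0 ρ1 (T + 1) y h (c0 + w h) := by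
    have b : ∀ h, h ≠ l → h ≠ y → Ach s0 ρ1 (T + 1) y h (c0 + w h) :=
      fun h h1 h2 => ach_step (hach h) h1 h2
    have n1 := dom_ne hd0
    have n2 := dom_ne hzy
    have by' : Ach s0 ρ1 (T + 1) y y (c0 + w y) := by
      by_cases h1 : z = l
      · have : d0 ≠ y := by
          rintro rfl
          have := hd0.2; have := hzy.2; rw [h1] at this; omega
        exact ach_dom (h1 ▸ ach_dom (b d0 n1 this) hd0) hzy
      · exact ach_dom (b z h1 n2) hzy
    intro h
    by_cases h2 : h = y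
    · rw [h2]; exact by'
    · by_cases h1 : h = l
      · rw [h1]
        by_cases h3 : d0 = y
        · exact ach_dom (h3 ▸ by') hd0
        · exact ach_dom (b d0 n1 h3) hd0
      · exact b h h1 h2
  have a2 : ∀ h, h ≠ x → Ach s0 ρ2 (T + 1 + 1) x h (c0 + w h) := by
    intro h h1
    by_cases h2 : h = y
    · rw [h2]; exact ach_dom (ach_step (a1 z) (dom_ne hzy) hz) hzy
    · exact ach_step (a1 h) h2 h1
  have wne : ∀ h : Fin (k + 1), h ≠ x → update w x.val v h = w h := fun h h1 =>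
    update_of_ne (fun hh => h1 (Fin.ext hh)) _ _
  have a3 : ∀ h, Ach s0 ρ2 (T + 1 + 1) x h (c0 + update w x.val v h) := by
    intro h
    by_cases h1 : h = x
    · rw [h1]
      refine ach_dom ?_ hu
      rw [wne u (dom_ne hu)]; exact a2 u (dom_ne hu)
    · rw [wne h h1]; exact a2 h h1
  obtain ⟨-, c1⟩ := ext_run hA ρ T (pt y)
  obtain ⟨⟨-, s2⟩, c2⟩ := ext_run hA ρ1 (T + 1) (pt x)
  set X2 := run A ρ2 (T + 1 + 1)
  set i := X2.fr
  have hne : e (some i) ≠ x := fun hh => by simpa using e.injective hh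
  have hd1 : 1 ≤ dist (pt (e (some i))) (pt x) := by
    unfold pt
    rw [Real.dist_eq]
    have : (1 : ℤ) ≤ |((e (some i)).val : ℤ) - (x.val : ℤ)| :=
      Int.one_le_abs (sub_ne_zero.2 fun hh => hne (Fin.ext (by exact_mod_cast hh)))
    exact_mod_cast this
  refine ⟨ρ2, T + 1 + 1, x, update w x.val v, (Equiv.swap none (some i)).trans e,
    L + dist (pt (e (some i))) (pt x), hw', ⟨u, hu⟩, a3, ?_, by push_cast; linarith, ?_⟩
  · rw [cf_swap]
    have t1 := dd_tri (cf e) (run A ρ T).pos (run A ρ1 (T + 1)).pos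
    have t2 := dd_tri (cf e) (run A ρ1 (T + 1)).pos X2.pos
    have t3 := sum_upd (fun j => dist (update (cf e) i (pt x) j) (X2.pos j))
      (fun j => dist (cf e j) (X2.pos j)) i fun j hj => by simp [update_of_ne hj]
    simp only [update_self, s2, dist_self] at t3
    have e1 : mv (run A ρ T) (run A ρ1 (T + 1)) = dd (run A ρ T).pos (run A ρ1 (T + 1)).pos := rfl
    have e2 : mv (run A ρ1 (T + 1)) X2 = dd (run A ρ1 (T + 1)).pos X2.pos := rfl
    have e3 : cf e i = pt (e (some i)) := rfl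
    rw [e3] at t3
    unfold dd at *
    linarith
  · have t1 := sum_upd (fun h : Fin (k + 1) => ((update w x.val v h : ℤ) : ℝ)) (fun h => (w h : ℝ)) x
      fun h h1 => by rw [wne h h1]
    have t2 := lipW hw' x (e (some i))
    rw [dist_comm] at t2
    simp only [Equiv.trans_apply, Equiv.swap_apply_left]
    linarith

lemma inv_zero (hk : 3 ≤ k) (s0 : St ℝ k) (A : List ℝ → St ℝ k) : ∃ c0 K, Inv s0 A c0 K 0 := by
  have : Nontrivial (Fin k) := Fin.nontrivial_iff_two_le.2 (by omega)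
  obtain ⟨g, hg⟩ := exists_ne s0.fr
  let e : Option (Fin k) ≃ Fin (k + 1) := (finSuccEquiv k).symm
  have h0 : Legal s0 (fun _ => 0) 0 (fun _ => s0) := ⟨rfl, fun t ht => by omega⟩
  have s1 : Step s0 ⟨update (cf e) s0.fr (s0.pos s0.fr), g⟩ (cf e g) :=
    ⟨by simp, by simp [update_of_ne hg]⟩
  obtain ⟨h1, -⟩ := ext_legal h0 s1
  have s2 : Step (update (fun _ : ℕ => s0) (0 + 1) ⟨update (cf e) s0.fr (s0.pos s0.fr), g⟩ (0 + 1))
      ⟨cf e, s0.fr⟩ (cf e s0.fr) := by
    rw [update_self]; exact ⟨by simp [update_of_ne hg], rfl⟩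
  obtain ⟨h2, -⟩ := ext_legal h1 s2
  generalize update (update (fun _ : ℕ => (0 : ℝ)) 0 (cf e g)) (0 + 1) (cf e s0.fr) = ρ at h2
  obtain ⟨S, h2, hS⟩ : ∃ S, Legal s0 ρ (0 + 1 + 1) S ∧ S (0 + 1 + 1) = ⟨cf e, s0.fr⟩ := ⟨_, h2, by simp⟩
  refine ⟨cost S (0 + 1 + 1), dd (cf e) (run A ρ (0 + 1 + 1)).pos + ∑ h : Fin (k + 1), (h.val : ℝ),
    ρ, 0 + 1 + 1, s0.fr.succ, fun i => i, e, 0, fun i _ => Or.inl (by push_cast; ring),
    ⟨s0.fr.castSucc, Or.inl (by simp), by simp⟩, fun h => ⟨S, e, h2, by rw [hS], by simp [hS, e], ?_⟩, ?_, by simp, ?_⟩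
  · simp [e, pt, Real.dist_eq]
  · have := cost_nn (run A ρ) (0 + 1 + 1)
    have : 0 ≤ ∑ h : Fin (k + 1), (h.val : ℝ) := by positivity
    linarith
  · have : 0 ≤ dd (cf e) (run A ρ (0 + 1 + 1)).pos := sum_nonneg fun _ _ => dist_nonneg
    simp [e]; linarith

theorem lower (hk : 3 ≤ k) (s0 : St ℝ k) (A : List ℝ → St ℝ k) (hA : Online s0 A) (C : ℝ)
    (hC : Competitive s0 A C) : (k : ℝ) ≤ C := by
  by_contra hh
  push Not at hh
  obtain ⟨K', hK'⟩ := hC
  obtain ⟨c0, K, h0⟩ := inv_zero hk s0 A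
  have hall : ∀ n, Inv s0 A c0 K n := fun n => by
    induction n with
    | zero => exact h0
    | succ n ih => exact inv_step hk hA ih
  have hk0 : (0 : ℝ) < k := by have : (3 : ℝ) ≤ k := by exact_mod_cast hk
                               linarith
  set D := max C 0
  have hD : D < k := max_lt hh hk0
  have hD0 : 0 ≤ D := le_max_right _ _
  obtain ⟨n, hn⟩ := exists_nat_gt ((D * (k * c0 + 2 * K) + k * K') / (k - D) + K)
  obtain ⟨ρ, T, l, w, e, L, -, -, hach, hL, hn', hs⟩ := hall n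
  have b1 : ∀ h : Fin (k + 1), opt s0 ρ T ≤ c0 + w h := fun h => by
    obtain ⟨S, e', a, -, -, f⟩ := hach h
    have := opt_le a
    have := dist_nonneg (x := pt (e' none)) (y := pt h)
    linarith
  have b2 : k * opt s0 ρ T ≤ k * c0 + (∑ h : Fin (k + 1), (w h : ℝ) - w (e none)) := by
    have := sum_le_sum (s := univ.erase (e none)) fun h _ => b1 h
    rw [sum_add_distrib, sum_const, sum_const, card_erase_of_mem (mem_univ _), sum_erase_eq_sub (mem_univ _)] at this
    simpa using this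
  have b3 : 0 ≤ dd (cf e) (run A ρ T).pos := sum_nonneg fun _ _ => dist_nonneg
  have b4 := hK' ρ T
  have b5 : C * opt s0 ρ T ≤ D * opt s0 ρ T := mul_le_mul_of_nonneg_right (le_max_left _ _) (opt_nn _ _ _)
  have b6 : D * (k * opt s0 ρ T) ≤ D * (k * c0 + 2 * K + cost (run A ρ) T) :=
    mul_le_mul_of_nonneg_left (by linarith) hD0
  have b7 : k * cost (run A ρ) T ≤ k * (D * opt s0 ρ T + K') := mul_le_mul_of_nonneg_left (by linarith) hk0.le
  have b8 : (D * (k * c0 + 2 * K) + k * K') / (k - D) < cost (run A ρ) T := by linarith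
  rw [div_lt_iff₀ (by linarith)] at b8
  nlinarith

end Pool.Agent.H5.DK
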