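import Mathlib

set_option autoImplicit false

namespace Pool.Agent.H5.DetCount

open Matrix

def H : Matrix (Fin 13) (Fin 13) ℤ :=
  !![1, 0, 0, 0, 1, 1, 0, 0, 1, 1, 1, 1, 0;
    1, 1, 0, 0, 0, 1, 1, 1, 1, 1, 0, 0, 0;
    0, 1, 1, 1, 0, 0, 1, 0, 1, 1, 0, 1, 0;
    1, 1, 1, 1, 0, 1, 0, 0, 0, 1, 1, 0, 1;
    0, 1, 0, 0, 0, 0, 0, 1, 1, 0, 1, 0, 1;
    0, 0, 0, 1, 1, 0, 1, 1, 0, 1, 0, 1, 1;
    1, 0, 1, 0, 0, 1, 1, 1, 0, 0, 1, 1, 0;
    0, 0, 1, 1, 0, 1, 0, 1, 1, 0, 1, 0, 0;
    0, 1, 1, 0, 1, 1, 0, 0, 1, 0, 0, 1, 1;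
    0, 0, 1, 0, 1, 0, 0, 1, 0, 1, 0, 0, 0;
    1, 0, 1, 0, 1, 0, 1, 0, 1, 0, 1, 0, 1;
    1, 0, 0, 1, 1, 1, 0, 0, 1, 0, 0, 0, 1;
    1, 1, 1, 1, 1, 0, 0, 1, 0, 0, 0, 1, 0]

def K : Matrix (Fin 13) (Fin 13) ℤ :=
  !![-43, -276, 425, -61, 420, -505, 631, -672, -450, 460, -275, 871, -58;
    65, 564, -514, 239, -378, 323, -752, 447, 405, -677, 379, -968, 473;
    -222, -324, 396, -3, 150, -387, 432, -240, -48, 540, -117, 405, -171;
    -13, 45, -55, 110, -240, 251, -323, 384, -81, -338, 82, -122, 221;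
    249, 534, -828, 78, -744, 594, -975, 717, 459, -627, 675, -1062, 501;
    46, 387, -473, 157, -486, 265, -253, 462, 408, -382, 74, -418, 7;
    -56, 558, -419, 49, -609, 535, -481, 501, 258, -667, 596, -829, 163;
    -137, -72, 88, -176, 384, -86, 359, -141, -186, 383, -289, 353, -38;
    15, -234, 549, -309, 459, -411, 312, -261, -210, 390, -216, 687, -255;
    110, -138, 344, 101, 210, -121, 184, -336, -225, 493, -269, 304, -292;
    311, 198, -505, 221, -267, 368, -527, 585, 117, -593, 466, -905, 236;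
    101, -471, 488, -187, 408, -190, 628, -495, -99, 259, -455, 523, -139;
    -254, -456, 382, 25, 591, -194, 608, -630, -126, 497, -340, 833, -416]

def h : Fin 13 → ℤ := ![1, 0, 1, 0, 1, 0, 1, 0, 0, 1, 0, 1, 0]

def W0 : Fin 13 → ℤ := ![-2764, 3224, -1701, 1091, 3987, 1966, 3061, -1430, -2412, -1645, 2486, -2407, -2657]

def sel : Fin 13 → ℤ := ![0, 1, 0, 1, 1, 1, 1, 0, 0, 0, 1, 0, 0]

lemma HK : H * K = (789 : ℤ) • (1 : Matrix (Fin 13) (Fin 13) ℤ) := by decide +kernel

lemma H01 : ∀ i j, H i j = 0 ∨ H i j = 1 := by decide +kernel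
lemma h01 : ∀ i, h i = 0 ∨ h i = 1 := by decide +kernel
lemma sel01 : ∀ i, sel i = 0 ∨ sel i = 1 := by decide +kernel
lemma HW : ∀ i, ∑ j, H i j * W0 j + 789 * h i = 0 := by decide +kernel
lemma selW : ∑ j, sel j * W0 j + 789 = 16604 := by decide +kernel

lemma detH : H.det ≠ 0 := by
  intro e
  have := congrArg Matrix.det HK
  rw [Matrix.det_mul, e, Matrix.det_smul] at this
  simp at this

lemma det_block {α β : Type} [Fintype α] [Fintype β] [DecidableEq α] [DecidableEq β]
    (A : Matrix α α ℤ) (b W : Matrix α β ℤ) (R : Matrix β α ℤ) (S : Matrix β β ℤ) (c : ℤ)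
    (hW : A * W + c • b = 0) :
    (fromBlocks A b R S).det * c ^ Fintype.card β = A.det * (R * W + c • S).det := by
  have h1 : (fromBlocks (1 : Matrix α α ℤ) W 0 (c • (1 : Matrix β β ℤ))).det =
      c ^ Fintype.card β := by
    rw [Matrix.det_fromBlocks_zero₂₁, Matrix.det_smul, Matrix.det_one, Matrix.det_one, one_mul,
      mul_one]
  rw [← h1, ← Matrix.det_mul, Matrix.fromBlocks_multiply]
  simp only [Matrix.mul_one, Matrix.mul_zero, add_zero, Matrix.mul_smul, hW]
  rw [Matrix.det_fromBlocks_zero₁₂]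

abbrev Al (P d : ℕ) := Fin P ⊕ (Fin 13 × Fin d)

def HH (P d : ℕ) : Matrix (Al P d) (Al P d) ℤ :=
  fromBlocks 1 0 0 (blockDiagonal fun _ => H)

def hh (P d : ℕ) : Matrix (Al P d) (Fin (d + 1)) ℤ := fun x j =>
  Sum.elim (fun _ => if j.val = 0 then 1 else 0)
    (fun rk => if j.val = rk.2.val + 1 then h rk.1 else 0) x

def WW (P d : ℕ) : Matrix (Al P d) (Fin (d + 1)) ℤ := fun x j =>
  Sum.elim (fun _ => if j.val = 0 then -789 else 0)
    (fun rk => if j.val = rk.2.val + 1 then W0 rk.1 else 0) x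

def RR (P d : ℕ) (a : Fin (d + 1) → ℕ) : Matrix (Fin (d + 1)) (Al P d) ℤ := fun i x =>
  Sum.elim (fun y => if y.val < a i then 1 else 0)
    (fun rk => if i.val = rk.2.val then sel rk.1 else 0) x

def SS (d : ℕ) : Matrix (Fin (d + 1)) (Fin (d + 1)) ℤ := fun i j =>
  if j.val ≠ 0 ∧ (i.val + 1 = j.val ∨ i.val = j.val) then 1 else 0

def B0 (d : ℕ) : Matrix (Fin (d + 1)) (Fin (d + 1)) ℤ := fun i j =>
  (if i.val + 1 = j.val then 16604 else 0) + (if i.val = j.val then 789 else 0)

lemma detHH (P d : ℕ) : (HH P d).det ≠ 0 := by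
  rw [HH, Matrix.det_fromBlocks_zero₁₂, Matrix.det_blockDiagonal]
  simp [detH]

lemma HHW (P d : ℕ) : HH P d * WW P d + (789 : ℤ) • hh P d = 0 := by
  ext x j
  rcases x with y | ⟨r, k⟩
  · simp [HH, WW, hh, Matrix.mul_apply, Fintype.sum_sum_type, Matrix.one_apply]
    split_ifs <;> simp
  · simp only [HH, WW, hh, Matrix.mul_apply, Fintype.sum_sum_type, Matrix.add_apply,
      fromBlocks_apply₂₁, fromBlocks_apply₂₂, Matrix.zero_apply, zero_mul, Finset.sum_const_zero,
      zero_add, Sum.elim_inr, Matrix.smul_apply, smul_eq_mul, Fintype.sum_prod_type,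
      blockDiagonal_apply, ite_mul, Finset.sum_ite_eq, Finset.mem_univ, if_true]
    split_ifs
    · exact HW r
    · simp

lemma sum_lt (P a : ℕ) (ha : a ≤ P) : ∑ y : Fin P, (if y.val < a then (1 : ℤ) else 0) = a := by
  rw [Fin.sum_univ_eq_sum_range (fun y => if y < a then (1 : ℤ) else 0), Finset.sum_boole]
  have : (Finset.range P).filter (fun y => y < a) = Finset.range a := by
    ext y; simp; omega
  rw [this, Finset.card_range]

lemma RW (P d : ℕ) (a : Fin (d + 1) → ℕ) (ha : ∀ i, a i ≤ P) :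
    RR P d a * WW P d + (789 : ℤ) • SS d = (B0 d).updateCol 0 (fun i => -789 * (a i : ℤ)) := by
  ext i j
  refine Fin.cases ?_ (fun k => ?_) j
  · simp only [RR, WW, SS, Matrix.mul_apply, Fintype.sum_sum_type, Matrix.add_apply, Sum.elim_inl,
      Sum.elim_inr, Matrix.smul_apply, smul_eq_mul, updateCol_self, Fin.val_zero, if_true,
      ← Finset.sum_mul, sum_lt P _ (ha i)]
    simp [mul_comm]
  · rw [updateCol_ne (Fin.succ_ne_zero k)]
    simp only [RR, WW, SS, B0, Matrix.mul_apply, Fintype.sum_sum_type, Matrix.add_apply,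
      Sum.elim_inl, Sum.elim_inr, Matrix.smul_apply, smul_eq_mul, Fin.val_succ,
      Fintype.sum_prod_type, Nat.add_right_cancel_iff, Fin.val_inj, mul_ite, mul_zero,
      Finset.sum_ite_eq, Finset.mem_univ, if_true]
    have := selW
    by_cases h1 : i.val = k.val
    · have h2 : ¬ i.val = k.val + 1 := by omega
      simp only [h1, if_true]
      simp
      linarith
    · by_cases h2 : i.val = k.val + 1 <;> simp [h1, h2]

lemma digits_zero {p q : ℤ} (hp : 0 < p) (hpq : IsCoprime p q) (d : ℕ) (x : ℕ → ℤ)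
    (hx : ∀ i, |x i| < p) (T : ℕ → ℤ) (h0 : T 0 = 0)
    (hT : ∀ i, T (i + 1) = q * T i + (-p) ^ i * x i) (hd : T (d + 1) = 0) :
    ∀ i, i ≤ d → x i = 0 := by
  have h1 : ∀ k i, i + k = d + 1 → p ^ i ∣ T i := by
    intro k
    induction k with
    | zero => intro i hi; rw [show i = d + 1 by omega, hd]; exact dvd_zero _
    | succ k ih =>
      intro i hi
      have h2 := ih (i + 1) (by omega)
      have h3 : p ^ i ∣ T (i + 1) := (pow_dvd_pow p (Nat.le_succ i)).trans h2
      rw [hT] at h3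
      have h4 : p ^ i ∣ (-p) ^ i * x i := by
        rw [neg_pow]
        exact Dvd.dvd.mul_right (Dvd.intro_left _ rfl) _
      exact (hpq.pow_left).dvd_of_dvd_mul_left ((dvd_add_left h4).1 h3)
  have h5 : ∀ i, i ≤ d → T i = 0 → x i = 0 := by
    intro i hi h
    have h2 := h1 (d - i) (i + 1) (by omega)
    rw [hT, h, mul_zero, zero_add, neg_pow, pow_succ, mul_comm ((-1 : ℤ) ^ i), mul_assoc] at h2
    have h3 := (mul_dvd_mul_iff_left (pow_ne_zero i hp.ne')).1 h2
    have h4 : p ∣ x i := by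
      rcases neg_one_pow_eq_or ℤ i with e | e <;> rw [e] at h3 <;> simpa using h3
    exact Int.eq_zero_of_abs_lt_dvd h4 (hx i)
  have h6 : ∀ i, i ≤ d → T i = 0 := by
    intro i
    induction i with
    | zero => intro _; exact h0
    | succ i ih =>
      intro hi
      have := ih (by omega)
      rw [hT, this, h5 i (by omega) this]
      simp
  exact fun i hi => h5 i hi (h6 i hi)

lemma inj_core (d : ℕ) (x : Fin (d + 1) → ℤ) (hx : ∀ i, |x i| < 16604)
    (hdet : ((B0 d).updateCol 0 (fun i => -789 * x i)).det = 0) : x = 0 := by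
  obtain ⟨u, hu0, hu⟩ := Matrix.exists_mulVec_eq_zero_iff.2 hdet
  let U : ℕ → ℤ := fun n => if h : n < d then u (Fin.succ ⟨n, h⟩) else 0
  let V : ℕ → ℤ := fun n => if n = 0 then 0 else U (n - 1)
  let X : ℕ → ℤ := fun n => if h : n < d + 1 then x ⟨n, h⟩ else 0
  have row : ∀ i, i ≤ d → 789 * V i + 16604 * V (i + 1) = 789 * u 0 * X i := by
    intro i hi
    have h1 := congrFun hu ⟨i, by omega⟩
    simp only [Matrix.mulVec, dotProduct, Fin.sum_univ_succ, updateCol_self, Pi.zero_apply,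
      updateCol_ne (Fin.succ_ne_zero _), B0, Fin.val_succ] at h1
    have h2 : ∑ k : Fin d, ((if i + 1 = k.val + 1 then (16604 : ℤ) else 0) +
        (if i = k.val + 1 then 789 else 0)) * u k.succ = 789 * V i + 16604 * V (i + 1) := by
      have h3 : ∀ k : Fin d, u k.succ = U k.val := fun k => by simp only [U, k.2, dif_pos]
      simp only [h3]
      rw [Fin.sum_univ_eq_sum_range (fun k => ((if i + 1 = k + 1 then (16604 : ℤ) else 0) +
        (if i = k + 1 then 789 else 0)) * U k)]
      simp only [add_mul, Finset.sum_add_distrib, ite_mul, zero_mul, Nat.add_right_cancel_iff,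
        Finset.sum_ite_eq, Finset.mem_range]
      rcases i with _ | i
      · simp only [V, U]
        by_cases hd : 0 < d <;> simp [hd]
      · simp only [Nat.add_right_cancel_iff, Finset.sum_ite_eq, Finset.mem_range, V, U]
        have h4 : i < d := by omega
        by_cases hd : i + 1 < d <;> simp [hd, h4, add_comm]
    rw [h2] at h1
    have h5 : X i = x ⟨i, by omega⟩ := by simp only [X, Nat.lt_succ_of_le hi, dif_pos]
    rw [h5]
    linarith
  have hV0 : V 0 = 0 := by simp [V]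
  have hVd : V (d + 1) = 0 := by simp [V, U]
  by_cases h0 : u 0 = 0
  · exfalso
    have hV : ∀ i, i ≤ d → V i = 0 := by
      intro i
      induction i with
      | zero => intro _; exact hV0
      | succ i ih =>
        intro hi
        have := row i (by omega)
        rw [ih (by omega), h0] at this
        linarith
    apply hu0
    ext j
    refine Fin.cases h0 (fun k => ?_) j
    have := hV (k.val + 1) (by omega)
    simpa only [V, U, Nat.add_one_ne_zero, if_false, Nat.add_sub_cancel, k.2, dif_pos,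
      Pi.zero_apply] using this
  · let T : ℕ → ℤ := fun n => Nat.rec 0 (fun i t => 789 * t + (-16604) ^ i * X i) n
    have hT : ∀ i, T (i + 1) = 789 * T i + (-16604) ^ i * X i := fun i => rfl
    have hTV : ∀ i, i ≤ d + 1 → -(-16604) ^ i * V i = 789 * u 0 * T i := by
      intro i
      induction i with
      | zero => intro _; simp [hV0, T]
      | succ i ih =>
        intro hi
        rw [hT, pow_succ]
        linear_combination (-16604) ^ i * row i (by omega) + 789 * ih (by omega)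
    have hTd : T (d + 1) = 0 := by
      have := hTV (d + 1) le_rfl
      rw [hVd, mul_zero] at this
      rcases mul_eq_zero.1 this.symm with h | h
      · exfalso
        apply h0
        linarith
      · exact h
    have := digits_zero (p := 16604) (q := 789) (by norm_num) (by norm_num) d X
      (fun i => by
        simp only [X]
        split_ifs
        · exact hx _
        · norm_num) T rfl hT hTd
    ext i
    simpa only [X, i.2, dif_pos, Pi.zero_apply] using this i.val (by omega)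

def MM (P d : ℕ) (a : Fin (d + 1) → ℕ) :
    Matrix (Al P d ⊕ Fin (d + 1)) (Al P d ⊕ Fin (d + 1)) ℤ :=
  fromBlocks (HH P d) (hh P d) (RR P d a) (SS d)

lemma MM01 (P d : ℕ) (a : Fin (d + 1) → ℕ) : ∀ i j, MM P d a i j = 0 ∨ MM P d a i j = 1 := by
  rintro ((y | ⟨r, k⟩) | i) ((z | ⟨s, l⟩) | j) <;>
    simp only [MM, HH, hh, RR, SS, fromBlocks_apply₁₁, fromBlocks_apply₁₂, fromBlocks_apply₂₁,
      fromBlocks_apply₂₂, Sum.elim_inl, Sum.elim_inr, Matrix.one_apply, blockDiagonal_apply,
      Matrix.zero_apply, true_or] <;>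
    split_ifs <;> simp [H01, h01, sel01]

lemma MM_inj (P d : ℕ) (hP : 16604 ≤ P) :
    Function.Injective (fun a : Fin (d + 1) → Fin 16604 => (MM P d (fun i => (a i).val)).det) := by
  intro a b hab
  have ha := det_block _ _ _ (RR P d (fun i => (a i).val)) (SS d) _ (HHW P d)
  have hb := det_block _ _ _ (RR P d (fun i => (b i).val)) (SS d) _ (HHW P d)
  rw [RW _ _ _ (fun i => by have := (a i).2; omega)] at ha
  rw [RW _ _ _ (fun i => by have := (b i).2; omega)] at hb
  have hab' : (fromBlocks (HH P d) (hh P d) (RR P d (fun i => (a i).val)) (SS d)).det =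
    (fromBlocks (HH P d) (hh P d) (RR P d (fun i => (b i).val)) (SS d)).det := hab
  rw [hab', hb] at ha
  have h1 := mul_left_cancel₀ (detHH P d) ha
  rw [← Matrix.cramer_apply, ← Matrix.cramer_apply] at h1
  have h2 := inj_core d (fun i => ((a i).val : ℤ) - (b i).val)
    (fun i => by
      have := (a i).2
      have := (b i).2
      rw [abs_lt]
      constructor <;> omega)
    (by
      rw [← Matrix.cramer_apply]
      have : (fun i => -789 * (((a i).val : ℤ) - (b i).val)) =
          (fun i => -789 * ((a i).val : ℤ)) - (fun i => -789 * ((b i).val : ℤ)) := by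
        ext i; simp; ring
      rw [this, map_sub, Pi.sub_apply, h1, sub_self])
  ext i
  have := congrFun h2 i
  simp only [Pi.zero_apply] at this
  omega

def D (n : ℕ) : Set ℤ := {d : ℤ | ∃ M : Matrix (Fin n) (Fin n) ℤ,
  (∀ i j, M i j = 1 ∨ M i j = -1) ∧ M.det = 2 ^ (n - 1) * d}

lemma mem_D {ι : Type} [Fintype ι] [DecidableEq ι] (A : Matrix ι ι ℤ)
    (hA : ∀ i j, A i j = 0 ∨ A i j = 1) (n : ℕ) (hn : Fintype.card ι + 1 = n) :
    (-1) ^ (n - 1) * A.det ∈ D n := by
  let e : Unit ⊕ ι ≃ Fin n := Fintype.equivFinOfCardEq (by simp; omega)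
  let N : Matrix (Unit ⊕ ι) (Unit ⊕ ι) ℤ :=
    fromBlocks 1 (Matrix.of fun _ _ => 1) (Matrix.of fun _ _ => 1) (Matrix.of fun i j => 1 - 2 * A i j)
  refine ⟨Matrix.reindex e e N, ?_, ?_⟩
  · intro i j
    simp only [reindex_apply, submatrix_apply]
    rcases e.symm i with i | i <;> rcases e.symm j with j | j
    · simp [N]
    · simp [N]
    · simp [N]
    · rcases hA i j with h | h <;> simp [N, h]
  · rw [Matrix.det_reindex_self, Matrix.det_fromBlocks_one₁₁]
    have : (Matrix.of fun i j => 1 - 2 * A i j) -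
        (Matrix.of fun (_ : ι) (_ : Unit) => (1 : ℤ)) * (Matrix.of fun (_ : Unit) (_ : ι) => (1 : ℤ))
        = (-2 : ℤ) • A := by
      ext i j
      simp [Matrix.mul_apply]
    rw [this, Matrix.det_smul, ← hn, Nat.add_sub_cancel, neg_pow]
    ring

lemma D_finite (n : ℕ) : (D n).Finite := by
  have h1 : {M : Matrix (Fin n) (Fin n) ℤ | ∀ i j, M i j = 1 ∨ M i j = -1}.Finite := by
    have := Set.Finite.pi' (fun _ : Fin n => Set.Finite.pi'
      (fun _ : Fin n => Set.toFinite ({1, -1} : Set ℤ)))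
    exact this
  refine Set.Finite.subset (h1.image (fun M => M.det / 2 ^ (n - 1))) ?_
  rintro d ⟨M, hM, hd⟩
  refine ⟨M, hM, ?_⟩
  simp only [hd]
  exact Int.mul_ediv_cancel_left _ (by positivity)

lemma card_D (n : ℕ) (hn : 1 ≤ n) : 2 ^ (n - 16606) ≤ (D n).ncard := by
  by_cases h : n < 16606
  · rw [show n - 16606 = 0 by omega, pow_zero]
    refine (Set.ncard_pos (D_finite n)).2 ⟨_, mem_D (1 : Matrix (Fin (n - 1)) (Fin (n - 1)) ℤ)
      (fun i j => by rw [Matrix.one_apply]; split_ifs <;> simp) n (by simp; omega)⟩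
  · set d := (n - 16606) / 14 with hd
    set P := n - 2 - 14 * d with hP
    have hinj : Function.Injective (fun a : Fin (d + 1) → Fin 16604 =>
        (-1) ^ (n - 1) * (MM P d (fun i => (a i).val)).det) := by
      intro a b hab
      exact MM_inj P d (by omega) (mul_left_cancel₀ (pow_ne_zero _ (by norm_num)) hab)
    have h1 := Set.ncard_le_ncard (s := Set.range _) (t := D n)
      (by
        rintro _ ⟨a, rfl⟩
        exact mem_D (MM P d (fun i => ((a : Fin (d + 1) → Fin 16604) i).val)) (MM01 _ _ _) n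
          (by simp; omega)) (D_finite n)
    rw [Set.ncard_range_of_injective hinj] at h1
    refine le_trans ?_ h1
    simp only [Nat.card_eq_fintype_card, Fintype.card_pi, Fintype.card_fin, Finset.prod_const,
      Finset.card_univ]
    calc 2 ^ (n - 16606) ≤ 2 ^ (14 * (d + 1)) := Nat.pow_le_pow_right (by norm_num) (by omega)
      _ = (2 ^ 14) ^ (d + 1) := by rw [pow_mul]
      _ ≤ 16604 ^ (d + 1) := Nat.pow_le_pow_left (by norm_num) _

lemma aux (k n : ℕ) : ((2 : ℝ) ^ k)⁻¹ * 2 ^ n ≤ ((2 ^ (n - k) : ℕ) : ℝ) := by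
  rw [inv_mul_le_iff₀ (by positivity)]
  push_cast
  rw [← pow_add]
  exact pow_le_pow_right₀ (by norm_num) (by omega)

theorem main : ∃ c : ℝ, 0 < c ∧ ∀ n : ℕ, 1 ≤ n → c * (2 : ℝ) ^ n ≤ ((D n).ncard : ℝ) := by
  obtain ⟨k, hk⟩ : ∃ k, ∀ n, 1 ≤ n → 2 ^ (n - k) ≤ (D n).ncard := ⟨16606, card_D⟩
  exact ⟨((2 : ℝ) ^ k)⁻¹, by positivity, fun n hn => (aux k n).trans (by exact_mod_cast hk n hn)⟩

end Pool.Agent.H5.DetCount
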