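import Mathlib

namespace Pool.Agent.H5.EPat

abbrev Vc := ℕ × ℕ × ℕ
abbrev St := Vc × List Vc × ℕ × ℕ

def tb0 : List St := [
  ((0,0,0),[],3,0),
  ((0,1,0),[(0,0,0)],1,1),
  ((0,2,0),[(0,0,0),(0,1,0)],1,100),
  ((0,2,0),[(0,0,0),(0,1,0),(0,2,0)],1,100),
  ((0,0,1),[],2,1),
  ((1,0,1),[],0,2),
  ((2,0,1),[],0,2),
  ((0,1,1),[(0,0,0)],1,2),
  ((0,1,1),[(0,0,1)],2,2),
  ((1,1,1),[(0,0,0)],1,3),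
  ((1,1,1),[(1,0,1)],0,3),
  ((2,1,1),[(0,0,0)],1,3),
  ((2,1,1),[(2,0,1)],0,3),
  ((0,2,1),[(0,0,0),(0,1,0)],1,2),
  ((0,2,1),[(0,0,0),(0,1,0),(0,2,0)],1,2),
  ((0,2,1),[(0,0,0),(0,1,0),(0,2,0),(0,2,1)],1,100),
  ((0,2,1),[(0,0,0),(0,1,0),(0,2,1)],1,100),
  ((0,2,1),[(0,0,0),(0,1,1)],1,3),
  ((0,2,1),[(0,0,0),(0,1,1),(0,2,1)],1,100),
  ((0,2,1),[(0,0,1),(0,1,1)],2,100),
  ((0,2,1),[(0,0,1),(0,1,1),(0,2,1)],2,100),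
  ((1,2,1),[(0,0,0),(0,1,0)],1,3),
  ((1,2,1),[(0,0,0),(0,1,0),(0,2,0)],1,3),
  ((1,2,1),[(0,0,0),(0,1,0),(0,2,0),(1,2,1)],1,100),
  ((1,2,1),[(0,0,0),(0,1,0),(1,2,1)],1,100)]

def tb1 : List St := [
  ((1,2,1),[(0,0,0),(1,1,1)],1,4),
  ((1,2,1),[(0,0,0),(1,1,1),(1,2,1)],1,100),
  ((1,2,1),[(1,0,1),(1,1,1)],0,100),
  ((1,2,1),[(1,0,1),(1,1,1),(1,2,1)],0,100),
  ((2,2,1),[(0,0,0),(0,1,0)],1,3),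
  ((2,2,1),[(0,0,0),(0,1,0),(0,2,0)],1,3),
  ((2,2,1),[(0,0,0),(0,1,0),(0,2,0),(2,2,1)],1,100),
  ((2,2,1),[(0,0,0),(0,1,0),(2,2,1)],1,100),
  ((2,2,1),[(0,0,0),(2,1,1)],1,4),
  ((2,2,1),[(0,0,0),(2,1,1),(2,2,1)],1,100),
  ((2,2,1),[(2,0,1),(2,1,1)],0,100),
  ((2,2,1),[(2,0,1),(2,1,1),(2,2,1)],0,100),
  ((0,0,2),[],2,1),
  ((1,0,2),[],2,3),
  ((2,0,2),[],0,4),
  ((2,0,2),[],2,5),
  ((0,1,2),[(0,0,0)],1,2),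
  ((0,1,2),[(0,0,1)],2,3),
  ((0,1,2),[(0,0,2)],2,3),
  ((1,1,2),[(0,0,0)],1,4),
  ((1,1,2),[(0,0,1)],2,5),
  ((1,1,2),[(1,0,1)],0,4),
  ((1,1,2),[(0,0,2)],2,5),
  ((1,1,2),[(1,0,2)],2,5),
  ((2,1,2),[(0,0,0)],1,6)]

def tb2 : List St := [
  ((2,1,2),[(0,0,1)],2,7),
  ((2,1,2),[(1,0,1)],0,8),
  ((2,1,2),[(2,0,1)],0,8),
  ((2,1,2),[(0,0,2)],2,7),
  ((2,1,2),[(1,0,2)],2,9),
  ((2,1,2),[(2,0,2)],0,10),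
  ((2,1,2),[(2,0,2)],2,11),
  ((0,2,2),[(0,0,0),(0,1,0)],1,2),
  ((0,2,2),[(0,0,0),(0,1,0),(0,2,0)],1,2),
  ((0,2,2),[(0,0,0),(0,1,0),(0,2,0),(0,2,1)],1,100),
  ((0,2,2),[(0,0,0),(0,1,0),(0,2,0),(0,2,1),(0,2,2)],1,100),
  ((0,2,2),[(0,0,0),(0,1,0),(0,2,0),(0,2,2)],1,100),
  ((0,2,2),[(0,0,0),(0,1,0),(0,2,1)],1,100),
  ((0,2,2),[(0,0,0),(0,1,0),(0,2,1),(0,2,2)],1,100),
  ((0,2,2),[(0,0,0),(0,1,0),(0,2,2)],1,100),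
  ((0,2,2),[(0,0,0),(0,1,1)],1,4),
  ((0,2,2),[(0,0,0),(0,1,1),(0,2,1)],1,100),
  ((0,2,2),[(0,0,0),(0,1,1),(0,2,1),(0,2,2)],1,100),
  ((0,2,2),[(0,0,0),(0,1,1),(0,2,2)],1,100),
  ((0,2,2),[(0,0,0),(0,1,2)],1,4),
  ((0,2,2),[(0,0,0),(0,1,2),(0,2,2)],1,100),
  ((0,2,2),[(0,0,1),(0,1,1)],2,3),
  ((0,2,2),[(0,0,1),(0,1,1),(0,2,1)],2,3),
  ((0,2,2),[(0,0,1),(0,1,1),(0,2,1),(0,2,2)],2,100),
  ((0,2,2),[(0,0,1),(0,1,1),(0,2,2)],2,100)]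

def tb3 : List St := [
  ((0,2,2),[(0,0,1),(0,1,2)],2,5),
  ((0,2,2),[(0,0,1),(0,1,2),(0,2,2)],2,100),
  ((0,2,2),[(0,0,2),(0,1,2)],2,100),
  ((0,2,2),[(0,0,2),(0,1,2),(0,2,2)],2,100),
  ((1,2,2),[(0,0,0),(0,1,0)],1,4),
  ((1,2,2),[(0,0,0),(0,1,0),(0,2,0)],1,4),
  ((1,2,2),[(0,0,0),(0,1,0),(0,2,0),(0,2,1)],1,100),
  ((1,2,2),[(0,0,0),(0,1,0),(0,2,0),(0,2,1),(0,2,2)],1,100),
  ((1,2,2),[(0,0,0),(0,1,0),(0,2,0),(0,2,1),(0,2,2),(1,2,2)],1,100),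
  ((1,2,2),[(0,0,0),(0,1,0),(0,2,0),(0,2,1),(1,2,2)],1,100),
  ((1,2,2),[(0,0,0),(0,1,0),(0,2,0),(1,2,1)],1,100),
  ((1,2,2),[(0,0,0),(0,1,0),(0,2,0),(0,2,2)],1,100),
  ((1,2,2),[(0,0,0),(0,1,0),(0,2,0),(0,2,2),(1,2,2)],1,100),
  ((1,2,2),[(0,0,0),(0,1,0),(0,2,0),(1,2,2)],1,100),
  ((1,2,2),[(0,0,0),(0,1,0),(0,2,1)],1,100),
  ((1,2,2),[(0,0,0),(0,1,0),(0,2,1),(0,2,2)],1,100),
  ((1,2,2),[(0,0,0),(0,1,0),(0,2,1),(0,2,2),(1,2,2)],1,100),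
  ((1,2,2),[(0,0,0),(0,1,0),(0,2,1),(1,2,2)],1,100),
  ((1,2,2),[(0,0,0),(0,1,0),(1,2,1)],1,100),
  ((1,2,2),[(0,0,0),(0,1,0),(0,2,2)],1,100),
  ((1,2,2),[(0,0,0),(0,1,0),(0,2,2),(1,2,2)],1,100),
  ((1,2,2),[(0,0,0),(0,1,0),(1,2,2)],1,100),
  ((1,2,2),[(0,0,0),(0,1,1)],1,6),
  ((1,2,2),[(0,0,0),(0,1,1),(0,2,1)],1,100),
  ((1,2,2),[(0,0,0),(0,1,1),(0,2,1),(0,2,2)],1,100)]

def tb4 : List St := [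
  ((1,2,2),[(0,0,0),(0,1,1),(0,2,1),(0,2,2),(1,2,2)],1,100),
  ((1,2,2),[(0,0,0),(0,1,1),(0,2,1),(1,2,2)],1,100),
  ((1,2,2),[(0,0,0),(0,1,1),(0,2,2)],1,100),
  ((1,2,2),[(0,0,0),(0,1,1),(0,2,2),(1,2,2)],1,100),
  ((1,2,2),[(0,0,0),(0,1,1),(1,2,2)],1,100),
  ((1,2,2),[(0,0,0),(1,1,1)],1,5),
  ((1,2,2),[(0,0,0),(0,1,2)],1,6),
  ((1,2,2),[(0,0,0),(0,1,2),(0,2,2)],1,100),
  ((1,2,2),[(0,0,0),(0,1,2),(0,2,2),(1,2,2)],1,100),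
  ((1,2,2),[(0,0,0),(0,1,2),(1,2,2)],1,100),
  ((1,2,2),[(0,0,0),(1,1,2)],1,6),
  ((1,2,2),[(0,0,0),(1,1,2),(1,2,2)],1,100),
  ((1,2,2),[(0,0,1),(0,1,1)],2,5),
  ((1,2,2),[(0,0,1),(0,1,1),(0,2,1)],2,5),
  ((1,2,2),[(0,0,1),(0,1,1),(0,2,1),(0,2,2)],2,100),
  ((1,2,2),[(0,0,1),(0,1,1),(0,2,1),(0,2,2),(1,2,2)],2,100),
  ((1,2,2),[(0,0,1),(0,1,1),(0,2,1),(1,2,2)],2,100),
  ((1,2,2),[(0,0,1),(0,1,1),(0,2,2)],2,100),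
  ((1,2,2),[(0,0,1),(0,1,1),(0,2,2),(1,2,2)],2,100),
  ((1,2,2),[(0,0,1),(0,1,1),(1,2,2)],2,100),
  ((1,2,2),[(0,0,1),(0,1,2)],2,7),
  ((1,2,2),[(0,0,1),(0,1,2),(0,2,2)],2,100),
  ((1,2,2),[(0,0,1),(0,1,2),(0,2,2),(1,2,2)],2,100),
  ((1,2,2),[(0,0,1),(0,1,2),(1,2,2)],2,100),
  ((1,2,2),[(0,0,1),(1,1,2)],2,7)]

def tb5 : List St := [
  ((1,2,2),[(0,0,1),(1,1,2),(1,2,2)],2,100),
  ((1,2,2),[(0,0,2),(0,1,2)],2,100),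
  ((1,2,2),[(0,0,2),(0,1,2),(0,2,2)],2,100),
  ((1,2,2),[(0,0,2),(0,1,2),(0,2,2),(1,2,2)],2,100),
  ((1,2,2),[(0,0,2),(0,1,2),(1,2,2)],2,100),
  ((1,2,2),[(0,0,2),(1,1,2)],2,100),
  ((1,2,2),[(0,0,2),(1,1,2),(1,2,2)],2,100),
  ((1,2,2),[(1,0,2),(1,1,2)],2,100),
  ((1,2,2),[(1,0,2),(1,1,2),(1,2,2)],2,100),
  ((2,2,2),[(0,0,0),(0,1,0)],1,6),
  ((2,2,2),[(0,0,0),(0,1,0),(0,2,0)],1,6),
  ((2,2,2),[(0,0,0),(0,1,0),(0,2,0),(0,2,1)],1,100),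
  ((2,2,2),[(0,0,0),(0,1,0),(0,2,0),(0,2,1),(0,2,2)],1,100),
  ((2,2,2),[(0,0,0),(0,1,0),(0,2,0),(0,2,1),(0,2,2),(1,2,2)],1,100),
  ((2,2,2),[(0,0,0),(0,1,0),(0,2,0),(0,2,1),(0,2,2),(1,2,2),(2,2,2)],1,100),
  ((2,2,2),[(0,0,0),(0,1,0),(0,2,0),(0,2,1),(0,2,2),(2,2,2)],1,100),
  ((2,2,2),[(0,0,0),(0,1,0),(0,2,0),(0,2,1),(1,2,2)],1,100),
  ((2,2,2),[(0,0,0),(0,1,0),(0,2,0),(0,2,1),(1,2,2),(2,2,2)],1,100),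
  ((2,2,2),[(0,0,0),(0,1,0),(0,2,0),(0,2,1),(2,2,2)],1,100),
  ((2,2,2),[(0,0,0),(0,1,0),(0,2,0),(1,2,1)],1,9),
  ((2,2,2),[(0,0,0),(0,1,0),(0,2,0),(1,2,1),(1,2,2)],1,9),
  ((2,2,2),[(0,0,0),(0,1,0),(0,2,0),(1,2,1),(1,2,2),(2,2,2)],1,100),
  ((2,2,2),[(0,0,0),(0,1,0),(0,2,0),(1,2,1),(2,2,2)],1,100),
  ((2,2,2),[(0,0,0),(0,1,0),(0,2,0),(2,2,1)],1,100),
  ((2,2,2),[(0,0,0),(0,1,0),(0,2,0),(0,2,2)],1,100)]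

def tb6 : List St := [
  ((2,2,2),[(0,0,0),(0,1,0),(0,2,0),(0,2,2),(1,2,2)],1,100),
  ((2,2,2),[(0,0,0),(0,1,0),(0,2,0),(0,2,2),(1,2,2),(2,2,2)],1,100),
  ((2,2,2),[(0,0,0),(0,1,0),(0,2,0),(0,2,2),(2,2,2)],1,100),
  ((2,2,2),[(0,0,0),(0,1,0),(0,2,0),(1,2,2)],1,10),
  ((2,2,2),[(0,0,0),(0,1,0),(0,2,0),(1,2,2),(2,2,2)],1,100),
  ((2,2,2),[(0,0,0),(0,1,0),(0,2,0),(2,2,2)],1,100),
  ((2,2,2),[(0,0,0),(0,1,0),(0,2,1)],1,100),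
  ((2,2,2),[(0,0,0),(0,1,0),(0,2,1),(0,2,2)],1,100),
  ((2,2,2),[(0,0,0),(0,1,0),(0,2,1),(0,2,2),(1,2,2)],1,100),
  ((2,2,2),[(0,0,0),(0,1,0),(0,2,1),(0,2,2),(1,2,2),(2,2,2)],1,100),
  ((2,2,2),[(0,0,0),(0,1,0),(0,2,1),(0,2,2),(2,2,2)],1,100),
  ((2,2,2),[(0,0,0),(0,1,0),(0,2,1),(1,2,2)],1,100),
  ((2,2,2),[(0,0,0),(0,1,0),(0,2,1),(1,2,2),(2,2,2)],1,100),
  ((2,2,2),[(0,0,0),(0,1,0),(0,2,1),(2,2,2)],1,100),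
  ((2,2,2),[(0,0,0),(0,1,0),(1,2,1)],1,9),
  ((2,2,2),[(0,0,0),(0,1,0),(1,2,1),(1,2,2)],1,9),
  ((2,2,2),[(0,0,0),(0,1,0),(1,2,1),(1,2,2),(2,2,2)],1,100),
  ((2,2,2),[(0,0,0),(0,1,0),(1,2,1),(2,2,2)],1,100),
  ((2,2,2),[(0,0,0),(0,1,0),(2,2,1)],1,100),
  ((2,2,2),[(0,0,0),(0,1,0),(0,2,2)],1,100),
  ((2,2,2),[(0,0,0),(0,1,0),(0,2,2),(1,2,2)],1,100),
  ((2,2,2),[(0,0,0),(0,1,0),(0,2,2),(1,2,2),(2,2,2)],1,100),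
  ((2,2,2),[(0,0,0),(0,1,0),(0,2,2),(2,2,2)],1,100),
  ((2,2,2),[(0,0,0),(0,1,0),(1,2,2)],1,10),
  ((2,2,2),[(0,0,0),(0,1,0),(1,2,2),(2,2,2)],1,100)]

def tb7 : List St := [
  ((2,2,2),[(0,0,0),(0,1,0),(2,2,2)],1,100),
  ((2,2,2),[(0,0,0),(0,1,1)],1,8),
  ((2,2,2),[(0,0,0),(0,1,1),(0,2,1)],1,100),
  ((2,2,2),[(0,0,0),(0,1,1),(0,2,1),(0,2,2)],1,100),
  ((2,2,2),[(0,0,0),(0,1,1),(0,2,1),(0,2,2),(1,2,2)],1,100),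
  ((2,2,2),[(0,0,0),(0,1,1),(0,2,1),(0,2,2),(1,2,2),(2,2,2)],1,100),
  ((2,2,2),[(0,0,0),(0,1,1),(0,2,1),(0,2,2),(2,2,2)],1,100),
  ((2,2,2),[(0,0,0),(0,1,1),(0,2,1),(1,2,2)],1,100),
  ((2,2,2),[(0,0,0),(0,1,1),(0,2,1),(1,2,2),(2,2,2)],1,100),
  ((2,2,2),[(0,0,0),(0,1,1),(0,2,1),(2,2,2)],1,100),
  ((2,2,2),[(0,0,0),(0,1,1),(0,2,2)],1,100),
  ((2,2,2),[(0,0,0),(0,1,1),(0,2,2),(1,2,2)],1,100),
  ((2,2,2),[(0,0,0),(0,1,1),(0,2,2),(1,2,2),(2,2,2)],1,100),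
  ((2,2,2),[(0,0,0),(0,1,1),(0,2,2),(2,2,2)],1,100),
  ((2,2,2),[(0,0,0),(0,1,1),(1,2,2)],1,12),
  ((2,2,2),[(0,0,0),(0,1,1),(1,2,2),(2,2,2)],1,100),
  ((2,2,2),[(0,0,0),(0,1,1),(2,2,2)],1,100),
  ((2,2,2),[(0,0,0),(1,1,1)],1,9),
  ((2,2,2),[(0,0,0),(1,1,1),(1,2,1)],1,7),
  ((2,2,2),[(0,0,0),(1,1,1),(1,2,1),(2,2,2)],1,100),
  ((2,2,2),[(0,0,0),(1,1,1),(1,2,2)],1,9),
  ((2,2,2),[(0,0,0),(1,1,1),(1,2,2),(2,2,2)],1,100),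
  ((2,2,2),[(0,0,0),(1,1,1),(2,2,2)],1,100),
  ((2,2,2),[(0,0,0),(2,1,1)],1,9),
  ((2,2,2),[(0,0,0),(0,1,2)],1,8)]

def tb8 : List St := [
  ((2,2,2),[(0,0,0),(0,1,2),(0,2,2)],1,100),
  ((2,2,2),[(0,0,0),(0,1,2),(0,2,2),(1,2,2)],1,100),
  ((2,2,2),[(0,0,0),(0,1,2),(0,2,2),(1,2,2),(2,2,2)],1,100),
  ((2,2,2),[(0,0,0),(0,1,2),(0,2,2),(2,2,2)],1,100),
  ((2,2,2),[(0,0,0),(0,1,2),(1,2,2)],1,12),
  ((2,2,2),[(0,0,0),(0,1,2),(1,2,2),(2,2,2)],1,100),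
  ((2,2,2),[(0,0,0),(0,1,2),(2,2,2)],1,100),
  ((2,2,2),[(0,0,0),(1,1,2)],1,10),
  ((2,2,2),[(0,0,0),(1,1,2),(1,2,2)],1,10),
  ((2,2,2),[(0,0,0),(1,1,2),(1,2,2),(2,2,2)],1,100),
  ((2,2,2),[(0,0,0),(1,1,2),(2,2,2)],1,100),
  ((2,2,2),[(0,0,0),(2,1,2)],1,12),
  ((2,2,2),[(0,0,0),(2,1,2),(2,2,2)],1,100),
  ((2,2,2),[(0,0,1),(0,1,1)],2,7),
  ((2,2,2),[(0,0,1),(0,1,1),(0,2,1)],2,7),
  ((2,2,2),[(0,0,1),(0,1,1),(0,2,1),(0,2,2)],2,100),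
  ((2,2,2),[(0,0,1),(0,1,1),(0,2,1),(0,2,2),(1,2,2)],2,100),
  ((2,2,2),[(0,0,1),(0,1,1),(0,2,1),(0,2,2),(1,2,2),(2,2,2)],2,100),
  ((2,2,2),[(0,0,1),(0,1,1),(0,2,1),(0,2,2),(2,2,2)],2,100),
  ((2,2,2),[(0,0,1),(0,1,1),(0,2,1),(1,2,2)],2,11),
  ((2,2,2),[(0,0,1),(0,1,1),(0,2,1),(1,2,2),(2,2,2)],2,100),
  ((2,2,2),[(0,0,1),(0,1,1),(0,2,1),(2,2,2)],2,100),
  ((2,2,2),[(0,0,1),(0,1,1),(0,2,2)],2,100),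
  ((2,2,2),[(0,0,1),(0,1,1),(0,2,2),(1,2,2)],2,100),
  ((2,2,2),[(0,0,1),(0,1,1),(0,2,2),(1,2,2),(2,2,2)],2,100)]

def tb9 : List St := [
  ((2,2,2),[(0,0,1),(0,1,1),(0,2,2),(2,2,2)],2,100),
  ((2,2,2),[(0,0,1),(0,1,1),(1,2,2)],2,11),
  ((2,2,2),[(0,0,1),(0,1,1),(1,2,2),(2,2,2)],2,100),
  ((2,2,2),[(0,0,1),(0,1,1),(2,2,2)],2,100),
  ((2,2,2),[(0,0,1),(0,1,2)],2,9),
  ((2,2,2),[(0,0,1),(0,1,2),(0,2,2)],2,100),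
  ((2,2,2),[(0,0,1),(0,1,2),(0,2,2),(1,2,2)],2,100),
  ((2,2,2),[(0,0,1),(0,1,2),(0,2,2),(1,2,2),(2,2,2)],2,100),
  ((2,2,2),[(0,0,1),(0,1,2),(0,2,2),(2,2,2)],2,100),
  ((2,2,2),[(0,0,1),(0,1,2),(1,2,2)],2,13),
  ((2,2,2),[(0,0,1),(0,1,2),(1,2,2),(2,2,2)],2,100),
  ((2,2,2),[(0,0,1),(0,1,2),(2,2,2)],2,100),
  ((2,2,2),[(0,0,1),(1,1,2)],2,11),
  ((2,2,2),[(0,0,1),(1,1,2),(1,2,2)],2,11),
  ((2,2,2),[(0,0,1),(1,1,2),(1,2,2),(2,2,2)],2,100),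
  ((2,2,2),[(0,0,1),(1,1,2),(2,2,2)],2,100),
  ((2,2,2),[(0,0,1),(2,1,2)],2,13),
  ((2,2,2),[(0,0,1),(2,1,2),(2,2,2)],2,100),
  ((2,2,2),[(1,0,1),(1,1,1)],0,6),
  ((2,2,2),[(1,0,1),(1,1,1),(1,2,1)],0,6),
  ((2,2,2),[(1,0,1),(1,1,1),(1,2,1),(2,2,2)],0,100),
  ((2,2,2),[(1,0,1),(1,1,1),(2,2,2)],0,100),
  ((2,2,2),[(1,0,1),(1,1,2)],0,8),
  ((2,2,2),[(1,0,1),(1,1,2),(2,2,2)],0,100),
  ((2,2,2),[(1,0,1),(2,1,2)],0,8)]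

def tb10 : List St := [
  ((2,2,2),[(1,0,1),(2,1,2),(2,2,2)],0,100),
  ((2,2,2),[(0,0,2),(0,1,2)],2,100),
  ((2,2,2),[(0,0,2),(0,1,2),(0,2,2)],2,100),
  ((2,2,2),[(0,0,2),(0,1,2),(0,2,2),(1,2,2)],2,100),
  ((2,2,2),[(0,0,2),(0,1,2),(0,2,2),(1,2,2),(2,2,2)],2,100),
  ((2,2,2),[(0,0,2),(0,1,2),(0,2,2),(2,2,2)],2,100),
  ((2,2,2),[(0,0,2),(0,1,2),(1,2,2)],2,100),
  ((2,2,2),[(0,0,2),(0,1,2),(1,2,2),(2,2,2)],2,100),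
  ((2,2,2),[(0,0,2),(0,1,2),(2,2,2)],2,100),
  ((2,2,2),[(0,0,2),(1,1,2)],2,11),
  ((2,2,2),[(0,0,2),(1,1,2),(1,2,2)],2,11),
  ((2,2,2),[(0,0,2),(1,1,2),(1,2,2),(2,2,2)],2,100),
  ((2,2,2),[(0,0,2),(1,1,2),(2,2,2)],2,100),
  ((2,2,2),[(0,0,2),(2,1,2)],2,100),
  ((2,2,2),[(0,0,2),(2,1,2),(2,2,2)],2,100),
  ((2,2,2),[(1,0,2),(1,1,2)],2,9),
  ((2,2,2),[(1,0,2),(1,1,2),(1,2,2)],2,7),
  ((2,2,2),[(1,0,2),(1,1,2),(1,2,2),(2,2,2)],2,100),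
  ((2,2,2),[(1,0,2),(1,1,2),(2,2,2)],2,100),
  ((2,2,2),[(1,0,2),(2,1,2)],2,9),
  ((2,2,2),[(1,0,2),(2,1,2),(2,2,2)],2,100),
  ((2,2,2),[(2,0,2),(2,1,2)],0,100),
  ((2,2,2),[(2,0,2),(2,1,2)],2,100),
  ((2,2,2),[(2,0,2),(2,1,2),(2,2,2)],0,100),
  ((2,2,2),[(2,0,2),(2,1,2),(2,2,2)],2,100)]

def tb : List St := tb0 ++ tb1 ++ tb2 ++ tb3 ++ tb4 ++ tb5 ++ tb6 ++ tb7 ++ tb8 ++ tb9 ++ tb10

def inc (x : Fin 3) (s : Vc) : Vc :=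
  if x = 0 then (min 2 (s.1 + 1), s.2.1, s.2.2)
  else if x = 1 then (s.1, min 2 (s.2.1 + 1), s.2.2) else (s.1, s.2.1, min 2 (s.2.2 + 1))

def inD (s : Vc) : Bool := s.1 != 1 && s.2.1 != 1 && s.2.2 != 1

def nxt (x : Fin 3) (e e' : St) : Bool :=
  e'.1 == inc x e.1 && e'.2.2.1 == x.val &&
    e'.2.1.all (fun t => (x == 1 && t == (0, 0, 0)) || e.2.1.any (fun s => t == inc x s)) &&
    (e'.2.2.2 == 100 || (e.2.2.2 != 100 &&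
      decide (e.2.2.2 + (if e.2.2.1 = x.val then 0 else 1) ≤ e'.2.2.2)))

def okStep (e : St) (x : Fin 3) : Bool :=
  (x == 0 && (inD e.1 || e.2.1.any inD)) || tb.any (nxt x e)

def okFin (e : St) : Bool := !inD e.1 || e.2.1.any inD || decide (e.2.2.2 ≤ 13)

theorem tb_step : tb.all (fun e => okStep e 0 && okStep e 1 && okStep e 2 && okFin e) = true := by
  decide +kernel

theorem tb_init : (((0, 0, 0), [], 3, 0) : St) ∈ tb := by decide +kernel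

def cap (w : List (Fin 3)) : Vc := (min 2 (w.count 0), min 2 (w.count 1), min 2 (w.count 2))

def D (w : List (Fin 3)) : Prop := ∀ x, w.count x ≠ 1

theorem cap_cons (x : Fin 3) (w : List (Fin 3)) : cap (x :: w) = inc x (cap w) := by
  fin_cases x <;> simp [cap, inc, List.count_cons] <;> omega

theorem inD_cap (w : List (Fin 3)) : inD (cap w) = true ↔ D w := by
  simp only [inD, cap, D, Bool.and_eq_true, bne_iff_ne, ne_eq, Fin.forall_fin_succ]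
  simp
  omega

def blk (L : List (Fin 3 × ℕ)) : List (Fin 3) := L.flatMap (fun e => List.replicate e.2 e.1)

def Inv (w : List (Fin 3)) (e : St) : Prop :=
  e.1 = cap w ∧ (∀ t ∈ e.2.1, ∃ p q, w = p ++ 1 :: q ∧ cap p = t) ∧
    (e.2.2.2 = 100 ∨ ∃ L, L.length ≤ e.2.2.2 ∧ w = blk L ∧
      ∀ x : Fin 3, e.2.2.1 = x.val → ∃ k L', L = (x, k) :: L')

def NoFac (w : List (Fin 3)) : Prop :=
  ∀ p w' q, w ++ [1] = p ++ 0 :: (w' ++ 1 :: q) → ¬ D w'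

theorem inv (w : List (Fin 3)) (h : NoFac w) : ∃ e ∈ tb, Inv w e := by
  induction w with
  | nil =>
    refine ⟨_, tb_init, rfl, by simp, Or.inr ⟨[], le_rfl, rfl, ?_⟩⟩
    intro x hx
    have := x.2
    simp at hx
    omega
  | cons x w ih =>
    obtain ⟨e, he, h1, h2, h3⟩ := ih (fun p w' q hh => h (x :: p) w' q (by simp [hh]))
    have hs : okStep e x = true := by
      have := List.all_eq_true.1 tb_step e he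
      simp only [Bool.and_eq_true] at this
      fin_cases x
      · exact this.1.1.1
      · exact this.1.1.2
      · exact this.1.2
    simp only [okStep, Bool.or_eq_true, Bool.and_eq_true, beq_iff_eq, List.any_eq_true] at hs
    rcases hs with ⟨rfl, hd | ⟨t, ht, hd⟩⟩ | ⟨e', he', hn⟩
    · rw [h1, inD_cap] at hd
      exact absurd hd (h [] w [] (by simp))
    · obtain ⟨p, q, rfl, rfl⟩ := h2 t ht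
      rw [inD_cap] at hd
      exact absurd hd (h [] p (q ++ [1]) (by simp))
    · simp only [nxt, Bool.or_eq_true, Bool.and_eq_true, beq_iff_eq, List.any_eq_true,
        List.all_eq_true, bne_iff_ne, decide_eq_true_eq] at hn
      obtain ⟨⟨⟨n1, n2⟩, n3⟩, n4⟩ := hn
      refine ⟨e', he', by rw [n1, h1, cap_cons], ?_, ?_⟩
      · intro t ht
        rcases n3 t ht with ⟨rfl, rfl⟩ | ⟨s, hs, rfl⟩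
        · exact ⟨[], w, rfl, rfl⟩
        · obtain ⟨p, q, rfl, rfl⟩ := h2 s hs
          exact ⟨x :: p, q, rfl, cap_cons _ _⟩
      · rcases n4 with n4 | ⟨n4, n5⟩
        · exact Or.inl n4
        · right
          rcases h3 with h3 | ⟨L, hL, rfl, hh⟩
          · exact absurd h3 n4
          · by_cases hx : e.2.2.1 = x.val
            · obtain ⟨k, L', rfl⟩ := hh x hx
              rw [if_pos hx] at n5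
              refine ⟨(x, k + 1) :: L', by simp at hL ⊢; omega,
                by simp [blk, List.replicate_succ], ?_⟩
              intro y hy
              have : x = y := Fin.ext (by omega)
              subst this
              exact ⟨_, _, rfl⟩
            · rw [if_neg hx] at n5
              refine ⟨(x, 1) :: L, by simp; omega, by simp [blk], ?_⟩
              intro y hy
              have : x = y := Fin.ext (by omega)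
              subst this
              exact ⟨_, _, rfl⟩

theorem short_factor (n : ℕ) : ∀ w : List (Fin 3), w.length = n → D w →
    ∃ X Y L, L.length ≤ 13 ∧ D (blk L) ∧ 0 :: (w ++ [1]) = X ++ 0 :: (blk L ++ 1 :: Y) := by
  induction n using Nat.strong_induction_on with
  | _ n ih =>
    intro w hw hD
    by_cases h : NoFac w
    · obtain ⟨e, he, h1, h2, h3⟩ := inv w h
      have hf : okFin e = true := by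
        have := List.all_eq_true.1 tb_step e he
        simp only [Bool.and_eq_true] at this
        exact this.2
      simp only [okFin, Bool.or_eq_true, List.any_eq_true, decide_eq_true_eq,
        Bool.not_eq_true'] at hf
      rcases hf with (hf | ⟨t, ht, hd⟩) | hf
      · rw [h1, (inD_cap w).2 hD] at hf
        exact absurd hf (by simp)
      · obtain ⟨p, q, rfl, rfl⟩ := h2 t ht
        rw [inD_cap] at hd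
        obtain ⟨X, Y, L, hL, hDL, hE⟩ := ih p.length (by simp at hw; omega) p rfl hd
        refine ⟨X, Y ++ (q ++ [1]), L, hL, hDL, ?_⟩
        have : 0 :: (p ++ 1 :: q ++ [1]) = (0 :: (p ++ [1])) ++ (q ++ [1]) := by simp
        rw [this, hE]
        simp
      · rcases h3 with h3 | ⟨L, hL, rfl, -⟩
        · omega
        · exact ⟨[], [], L, by omega, hD, by simp⟩
    · simp only [NoFac, not_forall, not_not] at h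
      obtain ⟨p, w', q, hh, hd⟩ := h
      have hl := congrArg List.length hh
      simp at hl
      obtain ⟨X, Y, L, hL, hDL, hE⟩ := ih w'.length (by omega) w' rfl hd
      refine ⟨0 :: (p ++ X), Y ++ q, L, hL, hDL, ?_⟩
      have : p ++ 0 :: (w' ++ 1 :: q) = p ++ ((0 :: (w' ++ [1])) ++ q) := by simp
      rw [hh, this, hE]
      simp

end Pool.Agent.H5.EPat
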