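import Mathlib

namespace Pool.Agent.H5.EPat

variable {S : Type}

/-- A substitution (a monoid morphism fixing the terminals, given by the images `σ` of the
variables, which may be empty) applied to a word over variables `ℕ` and terminals `S`. -/
def subst (σ : ℕ → List S) (w : List (ℕ ⊕ S)) : List S :=
  w.flatMap (Sum.elim σ (fun a => [a]))

/-- The E-pattern language of a word over variables and terminals. -/
def lang (w : List (ℕ ⊕ S)) : Set (List S) := {u | ∃ σ : ℕ → List S, u = subst σ w}

/-- A word of variables, read as a word over variables and terminals. -/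
def vars (p : List ℕ) : List (ℕ ⊕ S) := p.map Sum.inl

/-- A word of terminals, read as a word over variables and terminals. -/
def terms (u : List S) : List (ℕ ⊕ S) := u.map Sum.inr

/-- `α = α₀ u₁ α₁ ⋯ u_m α_m` and `β = β₀ u₁ β₁ ⋯ u_m β_m` (the list `l` holds the triples
`(u_i, α_i, β_i)`, `1 ≤ i ≤ m`), all `u_i` nonempty terminal words, `α_i, β_i` words of variables
that are nonempty for `1 ≤ i < m`, and `L(α_i) = L(β_i)` for every `0 ≤ i ≤ m`. -/
def SimilarEq (α β : List (ℕ ⊕ S)) : Prop :=
  ∃ (a0 b0 : List ℕ) (l : List (List S × List ℕ × List ℕ)),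
    α = vars a0 ++ l.flatMap (fun t => terms t.1 ++ vars t.2.1) ∧
    β = vars b0 ++ l.flatMap (fun t => terms t.1 ++ vars t.2.2) ∧
    (∀ t ∈ l, t.1 ≠ []) ∧ (∀ t ∈ l.dropLast, t.2.1 ≠ [] ∧ t.2.2 ≠ []) ∧
    lang (vars a0 : List (ℕ ⊕ S)) = lang (vars b0) ∧
    ∀ t ∈ l, lang (vars t.2.1 : List (ℕ ⊕ S)) = lang (vars t.2.2)

end Pool.Agent.H5.EPat
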