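import Mathlib
import Pool.Agent.H5.EPatDefs
import Pool.Agent.H5.EPat1

namespace Pool.Agent.H5.EPat

open Finset

abbrev V := Fin 13 × Fin 13 × Option (Fin 13)

def mult (v : V) (i : Fin 13) : ℕ :=
  (if v.1 = i then 1 else 0) + (if v.2.1 = i then 1 else 0) + (if v.2.2 = some i then 1 else 0)

noncomputable def B (i : Fin 13) : List V :=
  (univ : Finset V).toList.flatMap (fun v => List.replicate (mult v i) v)

noncomputable def rich : List V := (List.finRange 13).flatMap B

theorem count_B (v : V) (i : Fin 13) : (B i).count v = mult v i := by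
  rw [B, List.count_flatMap]
  have : (List.count v ∘ fun w => List.replicate (mult w i) w) =
      fun w => if w = v then mult v i else 0 := by
    funext w
    by_cases h : w = v
    · subst h
      simp
    · simp [List.count_replicate, h]
  rw [this, Finset.sum_map_toList]
  simp

theorem count_rich (v : V) : 2 ≤ rich.count v := by
  rw [rich, List.count_flatMap]
  have : (List.count v ∘ B) = fun i => mult v i := funext (count_B v)
  rw [this, ← Fin.sum_univ_def]
  simp only [mult, Finset.sum_add_distrib]
  simp

def tot (d : Fin 13 → Fin 3) (k : Fin 13 → ℕ) (x : Fin 3) : ℕ := ∑ i, if d i = x then k i else 0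

theorem pick (d : Fin 13 → Fin 3) (k : Fin 13 → ℕ) (x : Fin 3) (h : 1 ≤ tot d k x) :
    ∃ (i : Fin 13) (k' : Fin 13 → ℕ), d i = x ∧ (∀ l, k l = k' l + if i = l then 1 else 0) ∧
      (∀ y, tot d k y = tot d k' y + if x = y then 1 else 0) ∧ ∑ l, k l = ∑ l, k' l + 1 := by
  obtain ⟨i, -, hi⟩ := Finset.exists_ne_zero_of_sum_ne_zero (s := univ)
    (f := fun i => if d i = x then k i else 0) (by unfold tot at h; omega)
  have h1 : d i = x := by
    by_contra hh
    simp [hh] at hi
  have h2 : k i ≠ 0 := by simpa [h1] using hi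
  have h3 : ∀ l, k l = (k l - if i = l then 1 else 0) + if i = l then 1 else 0 := by
    intro l
    by_cases hl : i = l
    · subst hl
      simp
      omega
    · simp [hl]
  refine ⟨i, fun l => k l - if i = l then 1 else 0, h1, h3, ?_, ?_⟩
  · intro y
    have : ∀ l, (if d l = y then k l else 0) =
        (if d l = y then (k l - if i = l then 1 else 0) else 0) +
          if i = l then (if x = y then 1 else 0) else 0 := by
      intro l
      by_cases hl : i = l
      · subst hl
        by_cases hy : x = y
        · simp [h1, hy]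
          omega
        · simp [h1, hy]
      · simp [hl]
    unfold tot
    rw [Finset.sum_congr rfl (fun l _ => this l), Finset.sum_add_distrib]
    simp
  · rw [Finset.sum_congr rfl (fun l _ => h3 l), Finset.sum_add_distrib]
    simp

def Compat (d : Fin 13 → Fin 3) (v : V) : Prop :=
  d v.2.1 = d v.1 ∧ ∀ j, v.2.2 = some j → d j = d v.1

theorem bump (d : Fin 13 → Fin 3) (k k' : Fin 13 → ℕ) (v : V) (hv : Compat d v)
    (hk : ∀ l, k l = k' l + mult v l) (n : V → ℕ) (h1 : ∀ w, n w ≠ 0 → Compat d w)
    (h2 : ∀ i, ∑ w, mult w i * n w = k' i) :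
    ∃ n : V → ℕ, (∀ w, n w ≠ 0 → Compat d w) ∧ ∀ i, ∑ w, mult w i * n w = k i := by
  refine ⟨fun w => n w + if w = v then 1 else 0, ?_, ?_⟩
  · intro w hw
    by_cases h : w = v
    · exact h ▸ hv
    · exact h1 w (by simpa [h] using hw)
  · intro i
    simp only [mul_add, Finset.sum_add_distrib, h2, hk]
    simp

theorem cover (d : Fin 13 → Fin 3) (N : ℕ) : ∀ k : Fin 13 → ℕ, ∑ l, k l = N →
    (∀ x, tot d k x ≠ 1) →
    ∃ n : V → ℕ, (∀ w, n w ≠ 0 → Compat d w) ∧ ∀ i, ∑ w, mult w i * n w = k i := by
  induction N using Nat.strong_induction_on with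
  | _ N ih =>
    intro k hN hk
    by_cases h0 : ∀ x, tot d k x = 0
    · refine ⟨fun _ => 0, by simp, fun i => ?_⟩
      have := (Finset.sum_eq_zero_iff.1 (h0 (d i))) i (mem_univ _)
      simp at this
      simp [this]
    · obtain ⟨x, hx⟩ := not_forall.1 h0
      have hx1 := hk x
      obtain ⟨i1, k1, a1, b1, c1, e1⟩ := pick d k x (by omega)
      have t1 := c1 x
      simp only [if_true] at t1
      obtain ⟨i2, k2, a2, b2, c2, e2⟩ := pick d k1 x (by omega)
      have t2 := c2 x
      simp only [if_true] at t2
      by_cases h3 : tot d k x = 3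
      · obtain ⟨i3, k3, a3, b3, c3, e3⟩ := pick d k2 x (by omega)
        have t3 := c3 x
        simp only [if_true] at t3
        obtain ⟨n, n1, n2⟩ := ih (∑ l, k3 l) (by omega) k3 rfl (by
          intro y
          by_cases hy : x = y
          · subst hy
            omega
          · have := hk y
            have := c1 y
            have := c2 y
            have := c3 y
            simp only [hy, if_false] at *
            omega)
        refine bump d k k3 (i1, i2, some i3) ⟨by simp [a1, a2], by simp [a1, a3]⟩ ?_ n n1 n2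
        intro l
        rw [b1, b2, b3]
        simp only [mult, Option.some.injEq]
        omega
      · obtain ⟨n, n1, n2⟩ := ih (∑ l, k2 l) (by omega) k2 rfl (by
          intro y
          by_cases hy : x = y
          · subst hy
            omega
          · have := hk y
            have := c1 y
            have := c2 y
            simp only [hy, if_false] at *
            omega)
        refine bump d k k2 (i1, i2, none) ⟨by simp [a1, a2], by simp⟩ ?_ n n1 n2
        intro l
        rw [b1, b2]
        simp only [mult, reduceCtorEq, if_false]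
        omega

theorem rich_blk (L : List (Fin 3 × ℕ)) (hL : L.length ≤ 13) (hD : D (blk L)) :
    ∃ τ : V → List (Fin 3), rich.flatMap τ = blk L := by
  obtain ⟨L, hL, hD, hE⟩ : ∃ L' : List (Fin 3 × ℕ), L'.length = 13 ∧ D (blk L') ∧
      blk L' = blk L := by
    have : blk (L ++ List.replicate (13 - L.length) (0, 0)) = blk L := by
      simp [blk, List.flatMap_append]
    exact ⟨L ++ List.replicate (13 - L.length) (0, 0), by simp; omega, this ▸ hD, this⟩
  rw [← hE]
  obtain ⟨f, rfl⟩ : ∃ f : Fin 13 → Fin 3 × ℕ, L = List.ofFn f :=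
    ⟨fun i => L[i.val]'(by omega), by
      apply List.ext_getElem (by simp [hL])
      intro i h1 h2
      rw [List.getElem_ofFn]⟩
  have hb : blk (List.ofFn f) =
      (List.finRange 13).flatMap (fun i => List.replicate (f i).2 (f i).1) := by
    rw [blk, List.ofFn_eq_map, List.flatMap_map]
  obtain ⟨n, n1, n2⟩ := cover (fun i => (f i).1) _ (fun i => (f i).2) rfl (by
    intro x
    have := hD x
    rw [hb, List.count_flatMap, ← Fin.sum_univ_def] at this
    convert this using 1
    unfold tot
    refine Finset.sum_congr rfl fun i _ => ?_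
    simp [List.count_replicate])
  refine ⟨fun v => List.replicate (n v) (f v.1).1, ?_⟩
  rw [hb, rich, List.flatMap_assoc]
  refine List.flatMap_congr fun i _ => ?_
  rw [List.eq_replicate_iff]
  constructor
  · rw [← n2 i, B, List.flatMap_assoc, List.length_flatMap, Finset.sum_map_toList]
    refine Finset.sum_congr rfl fun v _ => ?_
    simp [List.length_flatMap]
  · intro x hx
    simp only [B, List.mem_flatMap, List.mem_replicate] at hx
    obtain ⟨v, ⟨w, -, hm, rfl⟩, hn, rfl⟩ := hx
    obtain ⟨c1, c2⟩ := n1 v hn
    by_cases h1 : v.1 = i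
    · rw [h1]
    · by_cases h2 : v.2.1 = i
      · rw [← h2]
        exact c1.symm
      · by_cases h3 : v.2.2 = some i
        · exact (c2 i h3).symm
        · simp [mult, h1, h2, h3] at hm

theorem doubled_D {W : Type} [DecidableEq W] (p : List W) (hp : ∀ v ∈ p, 2 ≤ p.count v)
    (σ : W → List (Fin 3)) : D (p.flatMap σ) := by
  intro x hx
  have hm : x ∈ p.flatMap σ := List.count_pos_iff.1 (by omega)
  obtain ⟨v, hv, hxv⟩ := List.mem_flatMap.1 hm
  have h1 : List.Sublist (List.replicate 2 v) p := List.replicate_sublist_iff.2 (hp v hv)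
  have h2 := (h1.flatMap σ).count_le x
  have h3 := List.count_pos_iff.2 hxv
  simp [List.replicate_succ] at h2
  omega

def gaps : ℕ → List (Fin 3) → List ℕ
  | _, [] => []
  | n, x :: u => if x = 0 then n :: gaps 0 u else gaps (n + 1) u

theorem gaps_app (A C : List (Fin 3)) : ∀ n, gaps n (A ++ 0 :: C) = gaps n (A ++ [0]) ++ gaps 0 C := by
  induction A with
  | nil => intro n; simp [gaps]
  | cons x A ih =>
    intro n
    by_cases h : x = 0 <;> simp [gaps, h, ih]

theorem gaps_free (y C : List (Fin 3)) (hy : (0 : Fin 3) ∉ y) :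
    ∀ n, gaps n (y ++ 0 :: C) = (n + y.length) :: gaps 0 C := by
  induction y with
  | nil => intro n; simp [gaps]
  | cons x y ih =>
    intro n
    have h : x ≠ 0 := fun h => hy (by simp [h])
    simp [gaps, h, ih (fun hh => hy (by simp [hh]))]
    omega

def seg (j : ℕ) : List (Fin 3) := List.replicate j 2 ++ [0]

theorem gaps_z (l : List ℕ) :
    gaps 0 (l.flatMap (fun j => seg j ++ seg j)) = l.flatMap (fun j => [j, j]) := by
  induction l with
  | nil => simp [gaps]
  | cons j l ih =>
    have hj : (0 : Fin 3) ∉ List.replicate j (2 : Fin 3) := by simp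
    simp only [List.flatMap_cons, seg, List.append_assoc, List.cons_append, List.nil_append] at ih ⊢
    rw [gaps_free _ _ hj, gaps_free _ _ hj, ih]
    simp

theorem split_first (y : List (Fin 3)) (h : 1 ≤ y.count 0) :
    ∃ y0 y1, y = y0 ++ 0 :: y1 ∧ (0 : Fin 3) ∉ y0 ∧ y.count 0 = y1.count 0 + 1 := by
  obtain ⟨y0, y1, h1, h2⟩ := List.eq_append_cons_of_mem (List.count_pos_iff.1 h)
  refine ⟨y0, y1, h1, h2, ?_⟩
  rw [h1]
  simp [List.count_eq_zero.2 h2]

theorem twice (N : ℕ) (A y Bm C : List (Fin 3))
    (h : (List.range N).flatMap (fun j => seg j ++ seg j) = A ++ y ++ Bm ++ y ++ C) :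
    y.count 0 ≤ 2 := by
  by_contra hc
  obtain ⟨y0, r1, rfl, -, e1⟩ := split_first y (by omega)
  obtain ⟨y1, r2, rfl, f1, e2⟩ := split_first r1 (by omega)
  obtain ⟨y2, y3, rfl, f2, -⟩ := split_first r2 (by omega)
  have hg := congrArg (gaps 0) h
  have e : A ++ (y0 ++ 0 :: (y1 ++ 0 :: (y2 ++ 0 :: y3))) ++ Bm ++
      (y0 ++ 0 :: (y1 ++ 0 :: (y2 ++ 0 :: y3))) ++ C =
      (A ++ y0) ++ 0 :: (y1 ++ 0 :: (y2 ++ 0 :: ((y3 ++ Bm ++ y0) ++
        0 :: (y1 ++ 0 :: (y2 ++ 0 :: (y3 ++ C)))))) := by simp
  rw [gaps_z, e, gaps_app, gaps_free _ _ f1, gaps_free _ _ f2, gaps_app (y3 ++ Bm ++ y0), gaps_free _ _ f1,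
    gaps_free _ _ f2] at hg
  simp only [zero_add] at hg
  have hs : ((List.range N).flatMap (fun j => [j, j])).Pairwise (· ≤ ·) := by
    rw [List.pairwise_flatMap]
    refine ⟨by simp, List.pairwise_lt_range.imp ?_⟩
    intro a b hab
    simp
    omega
  have hcnt : ∀ p, ((List.range N).flatMap (fun j => [j, j])).count p ≤ 2 := by
    intro p
    clear * -
    induction N with
    | zero => simp
    | succ N ih =>
      rw [List.range_succ, List.flatMap_append, List.count_append]
      by_cases hp : N = p
      · have : ((List.range N).flatMap (fun j => [j, j])).count p = 0 := by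
          rw [List.count_eq_zero]
          simp
          omega
        rw [this]
        simp [hp]
      · simpa [hp] using ih
  rw [hg] at hs hcnt
  simp only [List.pairwise_append, List.pairwise_cons, List.mem_cons, List.mem_append] at hs
  have q1 := hs.2.1.1 y2.length (by simp)
  have q2 := hs.2.1.2.1 y1.length (by simp)
  have q3 : y1.length = y2.length := by omega
  have := hcnt y1.length
  simp [← q3] at this
  omega

theorem not_doubled {W : Type} [DecidableEq W] (p : List W) (hp : ∀ v ∈ p, 2 ≤ p.count v)
    (σ : W → List (Fin 3)) (N : ℕ) (hN : p.length < N) :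
    (List.range N).flatMap (fun j => seg j ++ seg j) ≠ p.flatMap σ := by
  intro h
  have h1 : ∀ v ∈ p, (σ v).count 0 ≤ 2 := by
    intro v hv
    obtain ⟨p1, r, e1, f1⟩ := List.eq_append_cons_of_mem hv
    have h2 := hp v hv
    have : v ∈ r := by
      rw [e1] at h2
      simp [List.count_eq_zero.2 f1] at h2
      exact h2
    obtain ⟨p2, p3, e2⟩ := List.append_of_mem this
    apply twice N (p1.flatMap σ) (σ v) (p2.flatMap σ) (p3.flatMap σ)
    rw [h, e1, e2]
    simp
  have h2 : (p.flatMap σ).count 0 ≤ p.length * 2 := by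
    rw [List.count_flatMap]
    have := List.sum_le_card_nsmul (p.map (List.count 0 ∘ σ)) 2 (by
      intro x hx
      obtain ⟨v, hv, rfl⟩ := List.mem_map.1 hx
      exact h1 v hv)
    simpa using this
  have h3 : ∀ l : List ℕ, (l.flatMap (fun j => seg j ++ seg j)).count 0 = l.length * 2 := by
    intro l
    induction l with
    | nil => simp
    | cons j l ih =>
      rw [List.flatMap_cons, List.count_append, ih]
      simp [seg, List.count_replicate]
      omega
  rw [← h, h3] at h2
  simp at h2
  omega

end Pool.Agent.H5.EPat
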