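import Mathlib
import Pool.Agent.H5.EPatDefs
import Pool.Agent.H5.EPat2

namespace Pool.Agent.H5.EPat

attribute [-instance] Sum.instBEq

abbrev W := Bool ⊕ V ⊕ ℕ

noncomputable def ι : W → ℕ := Encodable.encode

theorem ι_inj : Function.Injective ι := Encodable.encode_injective

theorem subst_vars (σ : ℕ → List (Fin 3)) (p : List W) :
    subst σ (vars (p.map ι)) = p.flatMap (fun w => σ (ι w)) := by
  simp [subst, vars, List.flatMap_map]

theorem exists_σ (f : W → List (Fin 3)) : ∃ σ : ℕ → List (Fin 3), ∀ w, σ (ι w) = f w :=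
  ⟨Function.extend ι f (fun _ => []), fun w => ι_inj.extend_apply f _ w⟩

noncomputable def pat (p : List W) : List (ℕ ⊕ Fin 3) :=
  Sum.inl (ι (Sum.inl false)) :: Sum.inr 0 ::
    (vars (p.map ι) ++ [Sum.inr 1, Sum.inl (ι (Sum.inl true))])

theorem subst_pat (σ : ℕ → List (Fin 3)) (p : List W) :
    subst σ (pat p) = σ (ι (Sum.inl false)) ++ 0 ::
      (p.flatMap (fun w => σ (ι w)) ++ 1 :: σ (ι (Sum.inl true))) := by
  rw [← subst_vars]
  simp [subst, pat]

noncomputable def R : List W := rich.map (fun v => Sum.inr (Sum.inl v))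

def G (N : ℕ) : List W :=
  (List.range N).flatMap (fun j => [Sum.inr (Sum.inr j), Sum.inr (Sum.inr j)])

theorem R_dbl : ∀ v ∈ R, 2 ≤ R.count v := by
  intro v hv
  obtain ⟨w, -, rfl⟩ := List.mem_map.1 hv
  have hi : Function.Injective (fun v : V => (Sum.inr (Sum.inl v) : W)) := by
    intro a b h
    simpa using h
  have := List.count_map_of_injective rich _ hi w
  rw [R, this]
  exact count_rich w

theorem G_dbl (N : ℕ) : ∀ v ∈ G N, 2 ≤ (G N).count v := by
  intro v hv
  obtain ⟨j, hj, hv⟩ := List.mem_flatMap.1 hv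
  have hv' : v = Sum.inr (Sum.inr j) := by simpa using hv
  subst hv'
  obtain ⟨l1, l2, e⟩ := List.append_of_mem hj
  rw [G, e]
  simp
  omega

theorem RG_dbl (N : ℕ) : ∀ v ∈ R ++ G N, 2 ≤ (R ++ G N).count v := by
  intro v hv
  rw [List.count_append]
  rcases List.mem_append.1 hv with h | h
  · have := R_dbl v h
    omega
  · have := G_dbl N v h
    omega

theorem lang_pat (N : ℕ) :
    lang (pat (R ++ G N)) = {u | ∃ X w Y, D w ∧ u = X ++ 0 :: (w ++ 1 :: Y)} := by
  ext u
  constructor
  · rintro ⟨σ, rfl⟩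
    exact ⟨_, _, _, doubled_D _ (RG_dbl N) _, subst_pat σ _⟩
  · rintro ⟨X, w, Y, hD, rfl⟩
    obtain ⟨X', Y', L, hL, hDL, hE⟩ := short_factor _ w rfl hD
    obtain ⟨τ, hτ⟩ := rich_blk L hL hDL
    obtain ⟨σ, hσ⟩ := exists_σ (Sum.elim (fun b => if b then Y' ++ Y else X ++ X')
      (Sum.elim τ (fun _ => [])))
    refine ⟨σ, ?_⟩
    rw [subst_pat]
    simp only [hσ]
    have e1 : X ++ 0 :: (w ++ 1 :: Y) = X ++ ((0 :: (w ++ [1])) ++ Y) := by simp
    rw [e1, hE, ← hτ]
    simp [R, G, List.flatMap_append, List.flatMap_map, List.flatMap_assoc]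

theorem lang_ne : lang (vars ((R ++ G (R.length + 1)).map ι) : List (ℕ ⊕ Fin 3)) ≠
    lang (vars ((R ++ G 0).map ι)) := by
  intro h
  obtain ⟨σ, hσ⟩ := exists_σ (Sum.elim (fun _ => []) (Sum.elim (fun _ => []) seg))
  have : subst σ (vars ((R ++ G (R.length + 1)).map ι)) ∈
      lang (vars ((R ++ G 0).map ι) : List (ℕ ⊕ Fin 3)) := h ▸ ⟨σ, rfl⟩
  obtain ⟨σ', h'⟩ := this
  rw [subst_vars, subst_vars] at h'
  simp only [hσ] at h'
  apply not_doubled (R ++ G 0) (RG_dbl 0) (fun w => σ' (ι w)) (R.length + 1) (by simp [G])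
  rw [← h']
  simp [R, G, List.flatMap_append, List.flatMap_map, List.flatMap_assoc]

theorem vars_inj {S : Type} (p q : List ℕ) (r r' : List (ℕ ⊕ S))
    (hr : ∀ v r0, r ≠ Sum.inl v :: r0) (hr' : ∀ v r0, r' ≠ Sum.inl v :: r0)
    (h : vars p ++ r = vars q ++ r') : p = q ∧ r = r' := by
  induction p generalizing q with
  | nil =>
    cases q with
    | nil => simpa [vars] using h
    | cons v q => exact absurd (by simpa [vars] using h) (hr v (vars q ++ r'))
  | cons u p ih =>
    cases q with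
    | nil => exact absurd (by simpa [vars] using h.symm) (hr' u (vars p ++ r))
    | cons v q =>
      simp only [vars, List.map_cons, List.cons_append, List.cons.injEq, Sum.inl.injEq] at h
      obtain ⟨h1, h2⟩ := ih q h.2
      simp [h.1, h1, h2]

theorem head_term {S : Type} (l : List (List S × List ℕ)) (hl : ∀ t ∈ l, t.1 ≠ []) :
    ∀ v r0, l.flatMap (fun t => terms t.1 ++ vars t.2) ≠ Sum.inl v :: r0 := by
  intro v r0
  cases l with
  | nil => simp
  | cons t l =>
    obtain ⟨u, p⟩ := t
    cases u with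
    | nil => exact absurd rfl (hl ([], p) (by simp))
    | cons a u => simp [terms]

theorem decomp (p : List W) (hp : p ≠ []) (a0 : List ℕ) (l : List (List (Fin 3) × List ℕ))
    (hl : ∀ t ∈ l, t.1 ≠ [])
    (h : pat p = vars a0 ++ l.flatMap (fun t => terms t.1 ++ vars t.2)) :
    ∃ t l', l = t :: l' ∧ t.2 = p.map ι := by
  have h1 := vars_inj [ι (Sum.inl false)] a0 _ _ (by simp) (head_term l hl) h
  obtain ⟨-, h2⟩ := h1
  cases l with
  | nil => simp at h2
  | cons t l =>
    refine ⟨t, l, rfl, ?_⟩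
    obtain ⟨u, q⟩ := t
    cases u with
    | nil => exact absurd rfl (hl ([], q) (by simp))
    | cons a u =>
      cases u with
      | nil =>
        simp only [terms, List.flatMap_cons, List.map_cons, List.map_nil, List.cons_append,
          List.nil_append, List.cons.injEq] at h2
        exact (vars_inj _ _ _ _ (by simp)
          (head_term l (fun t ht => hl t (by simp [ht]))) h2.2).1.symm
      | cons b u =>
        cases p with
        | nil => exact absurd rfl hp
        | cons w p => simp [terms, vars] at h2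

theorem R_ne (N : ℕ) : R ++ G N ≠ [] := by
  intro h
  have h1 : rich = [] := by
    have := (List.append_eq_nil_iff.1 h).1
    simpa [R] using this
  have := count_rich (0, 0, none)
  simp [h1] at this

theorem main : ∃ α β : List (ℕ ⊕ Fin 3), α ≠ [] ∧ β ≠ [] ∧ lang α = lang β ∧ ¬ SimilarEq α β := by
  refine ⟨pat (R ++ G (R.length + 1)), pat (R ++ G 0), by simp [pat], by simp [pat],
    by rw [lang_pat, lang_pat], ?_⟩
  rintro ⟨a0, b0, l, h1, h2, h3, -, -, h4⟩
  obtain ⟨t, l1, e1, f1⟩ := decomp _ (R_ne _) a0 (l.map fun t => (t.1, t.2.1))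
    (by
      intro t ht
      obtain ⟨s, hs, rfl⟩ := List.mem_map.1 ht
      exact h3 s hs) (by rw [h1, List.flatMap_map])
  obtain ⟨t', l2, e2, f2⟩ := decomp _ (R_ne _) b0 (l.map fun t => (t.1, t.2.2))
    (by
      intro t ht
      obtain ⟨s, hs, rfl⟩ := List.mem_map.1 ht
      exact h3 s hs) (by rw [h2, List.flatMap_map])
  cases l with
  | nil => simp at e1
  | cons s l =>
    simp only [List.map_cons, List.cons.injEq] at e1 e2
    have := h4 s (by simp)
    rw [← e1.1] at f1
    rw [← e2.1] at f2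
    simp only at f1 f2
    rw [f1, f2] at this
    exact lang_ne this

end Pool.Agent.H5.EPat
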