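import Pool.Agent.H5.EtaDefs

set_option autoImplicit false

namespace Pool.Agent.H5.Eta

open Classical Finset Pool.Agent.H5.EtaDefs

variable {V : Type} {G : SimpleGraph V}

noncomputable def K (G : SimpleGraph V) (s : Finset V) : Finset (Finset V) :=
  s.powerset.filter fun c : Finset V => G.IsClique (c : Set V)

noncomputable def E (G : SimpleGraph V) (s : Finset V) : ℚ := ∑ c ∈ K G s, (-1) ^ c.card

noncomputable def lk (G : SimpleGraph V) (s c : Finset V) : Finset V :=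
  s.filter fun y => ∀ x ∈ c, G.Adj x y

lemma mem_K {s c : Finset V} :
    c ∈ K G s ↔ c ⊆ s ∧ ∀ x ∈ c, ∀ y ∈ c, x ≠ y → G.Adj x y := by
  simp only [K, mem_filter, mem_powerset, SimpleGraph.isClique_iff, Set.Pairwise, mem_coe]

lemma mem_sph {s : Finset V} {x y : V} : y ∈ sph G s x ↔ y ∈ s ∧ G.Adj x y := mem_filter

lemma mem_lk {s c : Finset V} {y : V} : y ∈ lk G s c ↔ y ∈ s ∧ ∀ x ∈ c, G.Adj x y := mem_filter

lemma empty_mem (s : Finset V) : ∅ ∈ K G s := by simp [mem_K]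

lemma E_empty : E G ∅ = 1 := by
  have : K G ∅ = {∅} := by
    ext c
    simp only [mem_K, subset_empty, mem_singleton]
    exact ⟨fun h => h.1, fun h => ⟨h, by simp [h]⟩⟩
  simp [E, this]

lemma above {s c : Finset V} (hc : c ∈ K G s) :
    ∑ t ∈ (K G s).filter (fun t => c ⊆ t), (-1 : ℚ) ^ t.card = (-1) ^ c.card * E G (lk G s c) := by
  obtain ⟨c1, c2⟩ := mem_K.1 hc
  rw [E, mul_sum]
  symm
  have dj : ∀ r ∈ K G (lk G s c), Disjoint c r := fun r hr =>
    disjoint_left.2 fun x hx hxr => G.irrefl ((mem_lk.1 ((mem_K.1 hr).1 hxr)).2 x hx)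
  refine sum_bij' (fun r _ => c ∪ r) (fun t _ => t \ c) ?_ ?_ ?_ ?_ ?_
  · intro r hr
    obtain ⟨r1, r2⟩ := mem_K.1 hr
    refine mem_filter.2 ⟨mem_K.2 ⟨union_subset c1 fun y hy => (mem_lk.1 (r1 hy)).1, ?_⟩,
      subset_union_left⟩
    intro x hx y hy hxy
    rcases mem_union.1 hx with hx | hx <;> rcases mem_union.1 hy with hy | hy
    · exact c2 x hx y hy hxy
    · exact (mem_lk.1 (r1 hy)).2 x hx
    · exact ((mem_lk.1 (r1 hx)).2 y hy).symm
    · exact r2 x hx y hy hxy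
  · intro t ht
    obtain ⟨ht, hct⟩ := mem_filter.1 ht
    obtain ⟨t1, t2⟩ := mem_K.1 ht
    refine mem_K.2 ⟨fun y hy => ?_, fun x hx y hy => t2 x (mem_sdiff.1 hx).1 y (mem_sdiff.1 hy).1⟩
    obtain ⟨y1, y2⟩ := mem_sdiff.1 hy
    exact mem_lk.2 ⟨t1 y1, fun x hx => t2 x (hct hx) y y1 fun e => y2 (e ▸ hx)⟩
  · intro r hr
    exact union_sdiff_cancel_left (dj r hr)
  · intro t ht
    exact union_sdiff_of_subset (mem_filter.1 ht).2
  · intro r hr
    rw [card_union_of_disjoint (dj r hr), pow_add]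

lemma E_del {s t u : Finset V} {x : V} (hx : x ∈ s) (ht : ∀ y, y ∈ t ↔ y ∈ s ∧ y ≠ x)
    (hu : ∀ y, y ∈ u ↔ y ∈ s ∧ G.Adj x y) : E G s = E G t - E G u := by
  have h1 := above (G := G) (s := s) (c := {x}) (by simp [mem_K, hx])
  have e1 : lk G s {x} = u := by ext y; simp [mem_lk, hu]
  have e2 : (K G s).filter (fun c => ¬ {x} ⊆ c) = K G t := by
    ext c
    simp only [mem_filter, mem_K, singleton_subset_iff]
    constructor
    · rintro ⟨⟨a, b⟩, d⟩
      exact ⟨fun y hy => (ht y).2 ⟨a hy, fun e => d (e ▸ hy)⟩, b⟩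
    · rintro ⟨a, b⟩
      exact ⟨⟨fun y hy => ((ht y).1 (a hy)).1, b⟩, fun h => ((ht x).1 (a h)).2 rfl⟩
  rw [E, ← sum_filter_add_sum_filter_not (K G s) (fun c => {x} ⊆ c), h1, e1, e2]
  simp [E]
  ring

lemma double (s : Finset V) (g : ℕ → ℚ) :
    ∑ t ∈ K G s, (-1) ^ t.card * ∑ c ∈ t.powerset, g c.card =
      ∑ c ∈ K G s, g c.card * ((-1) ^ c.card * E G (lk G s c)) := by
  rw [sum_congr rfl (s₁ := K G s) (f := fun c => g c.card * ((-1) ^ c.card * E G (lk G s c)))
    fun c hc => by rw [← above hc]]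
  simp only [mul_sum]
  refine (sum_comm' fun t c => ?_).trans (sum_congr rfl fun _ _ => sum_congr rfl fun _ _ =>
    mul_comm _ _)
  simp only [mem_filter, mem_powerset, mem_K]
  exact ⟨fun ⟨a, b⟩ => ⟨⟨a, b⟩, b.trans a.1, fun x hx y hy => a.2 x (b hx) y (b hy)⟩,
    fun ⟨a, _⟩ => a⟩

lemma coll {s : Finset V} (h : Collapsible G s) : E G s = 0 := by
  induction h with
  | single x =>
    rw [E_del (x := x) (t := ∅) (u := ∅) (by simp) (by simp) (by simp)]
    simp
  | step s x hx _ _ h1 h2 =>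
    rw [E_del hx (t := s.erase x) (fun y => by simp [and_comm]) (fun y => mem_sph), h1, h2]
    simp

lemma lk_empty (s : Finset V) : lk G s ∅ = s := by simp [lk]

lemma lk_erase {s c : Finset V} {x : V} (hx : x ∈ c) :
    lk G s c = lk G (sph G s x) (c.erase x) := by
  ext y
  simp only [mem_lk, mem_sph, mem_erase]
  exact ⟨fun ⟨a, b⟩ => ⟨⟨a, b x hx⟩, fun z hz => b z hz.2⟩, fun ⟨⟨a, b⟩, d⟩ =>
    ⟨a, fun z hz => if e : z = x then e ▸ b else d z ⟨e, hz⟩⟩⟩

lemma erase_mem {s c : Finset V} {x : V} (hc : c ∈ K G s) (hx : x ∈ c) :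
    c.erase x ∈ K G (sph G s x) := by
  obtain ⟨c1, c2⟩ := mem_K.1 hc
  refine mem_K.2 ⟨fun y hy => ?_, fun a ha b hb => c2 a (mem_of_mem_erase ha) b
    (mem_of_mem_erase hb)⟩
  obtain ⟨y1, y2⟩ := mem_erase.1 hy
  exact mem_sph.2 ⟨c1 y2, c2 x hx y y2 y1.symm⟩

/-- All faces with at least `m` vertices have Eulerian links. -/
def Eu (G : SimpleGraph V) (n m : ℕ) (s : Finset V) : Prop :=
  ∀ c ∈ K G s, m ≤ c.card → (-1) ^ c.card * E G (lk G s c) = (-1) ^ n

lemma up {n m : ℕ} {s c : Finset V} {x : V} (hc : c ∈ K G s) (hx : x ∈ c)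
    (h : Eu G n m (sph G s x)) (hm : m + 1 ≤ c.card) :
    (-1) ^ c.card * E G (lk G s c) = (-1) ^ (n + 1) := by
  have h1 := h _ (erase_mem hc hx) (by rw [card_erase_of_mem hx]; omega)
  rw [lk_erase hx, ← card_erase_add_one hx, pow_succ, pow_succ, ← h1]
  ring

lemma eu_empty (n m : ℕ) (h : m = 0 → n = 0) : Eu G n m ∅ := by
  intro c hc hm
  obtain rfl := subset_empty.1 (mem_K.1 hc).1
  obtain rfl := h (by simpa using hm)
  simp [lk_empty, E_empty]

lemma sphere : ∀ (n : ℕ) (s : Finset V), IsSphere G n s → Eu G n 0 s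
  | 0, s, h => by rw [show s = ∅ from h]; exact eu_empty 0 0 id
  | n + 1, s, ⟨h1, x, hx, h2⟩ => by
    intro c hc _
    rcases c.eq_empty_or_nonempty with rfl | ⟨y, hy⟩
    · have := sphere n _ (h1 x hx) ∅ (empty_mem _) le_rfl
      rw [lk_empty] at this ⊢
      rw [E_del hx (t := s.erase x) (fun y => by simp [and_comm]) (fun y => mem_sph), coll h2,
        pow_succ, ← this]
      simp
    · exact up hc hy (sphere n _ (h1 y ((mem_K.1 hc).1 hy))) (card_pos.2 ⟨y, hy⟩)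

lemma graph : ∀ (n : ℕ) (s : Finset V), IsGraph G n s → Eu G n 1 s
  | 0, s, h => by rw [show s = ∅ from h]; exact eu_empty 0 1 (by simp)
  | n + 1, s, h => fun c hc h1 => by
    obtain ⟨y, hy⟩ := card_pos.1 h1
    exact up hc hy (sphere n _ (h y ((mem_K.1 hc).1 hy))) h1

lemma variety {n : ℕ} {s : Finset V} (h : IsVariety G (n + 1) s) : Eu G (n + 1) 2 s := by
  obtain ⟨Z, -, h1, h2, -⟩ := h
  intro c hc h3
  obtain ⟨x, hx, y, hy, hxy⟩ := one_lt_card.1 h3
  obtain ⟨c1, c2⟩ := mem_K.1 hc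
  by_cases e : x ∈ Z
  · exact up hc hy (graph n _ (h2 y (c1 hy) fun e' => h1 x e y e' (c2 x hx y hy hxy))) h3
  · exact up hc hx (graph n _ (h2 x (c1 hx) e)) h3

lemma join (a : Finset V) : ∀ b u : Finset V, (∀ y, y ∈ u ↔ y ∈ a ∨ y ∈ b) →
    (∀ x ∈ a, ∀ y ∈ b, G.Adj x y) → E G u = E G a * E G b := by
  induction a using Finset.strongInduction with
  | H a ih =>
    intro b u hu h
    rcases a.eq_empty_or_nonempty with rfl | ⟨x, hx⟩
    · rw [E_empty, one_mul, show u = b by ext y; simp [hu]]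
    have hb : x ∉ b := fun e => G.irrefl (h x hx x e)
    rw [E_del (s := u) (t := a.erase x ∪ b) (u := sph G a x ∪ b) ((hu x).2 (Or.inl hx)),
      E_del (s := a) hx (t := a.erase x) (fun y => by simp [and_comm]) (fun y => mem_sph),
      ih (a.erase x) (erase_ssubset hx) b _ (fun y => mem_union)
        (fun y hy => h y (mem_of_mem_erase hy)),
      ih (sph G a x) (filter_ssubset.2 ⟨x, hx, G.irrefl⟩) b _ (fun y => mem_union)
        (fun y hy => h y (mem_sph.1 hy).1), sub_mul]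
    · intro y
      rw [hu, mem_union, mem_erase]
      exact ⟨fun e => e.elim (fun e => ⟨Or.inl e.2, e.1⟩) fun e => ⟨Or.inr e, fun f => hb (f ▸ e)⟩,
        fun ⟨e, f⟩ => e.imp (fun e => ⟨f, e⟩) id⟩
    · intro y
      rw [hu, mem_union, mem_sph]
      exact ⟨fun e => e.elim (fun e => ⟨Or.inl e.1, e.2⟩) fun e => ⟨Or.inr e, h x hx y e⟩,
        fun ⟨e, f⟩ => e.imp (fun e => ⟨e, f⟩) id⟩

lemma alt {c t : Finset V} (h : c ⊂ t) (F : Finset (Finset V))
    (hF : ∀ r, r ∈ F ↔ c ⊂ r ∧ r ⊂ t) :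
    (-1 : ℚ) ^ c.card + ∑ r ∈ F, (-1 : ℚ) ^ r.card = -(-1) ^ t.card := by
  obtain ⟨y, hy, hc⟩ := exists_of_ssubset h
  have h1 := above (G := (⊤ : SimpleGraph V)) (s := t) (c := c) (mem_K.2 ⟨h.1, by simp⟩)
  have h2 : E (⊤ : SimpleGraph V) (lk ⊤ t c) = 0 := by
    rw [E_del (x := y) (t := (lk ⊤ t c).erase y) (u := (lk ⊤ t c).erase y)
      (mem_lk.2 ⟨hy, fun x hx (e : x = y) => hc (e ▸ hx)⟩) (fun z => by simp [and_comm])
      (fun z => by simp [and_comm, eq_comm]), sub_self]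
  have h3 : (K ⊤ t).filter (fun r => c ⊆ r) = insert c (insert t F) := by
    ext r
    simp only [mem_filter, mem_K, mem_insert, hF, Finset.ssubset_iff_subset_ne]
    constructor
    · rintro ⟨⟨a, -⟩, b⟩
      by_cases e : r = c
      · exact Or.inl e
      · by_cases f : r = t
        · exact Or.inr (Or.inl f)
        · exact Or.inr (Or.inr ⟨⟨b, Ne.symm e⟩, a, f⟩)
    · rintro (rfl | rfl | ⟨⟨a, -⟩, b, -⟩)
      · exact ⟨⟨h.1, by simp⟩, subset_rfl⟩
      · exact ⟨⟨subset_rfl, by simp⟩, h.1⟩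
      · exact ⟨⟨b, by simp⟩, a⟩
  rw [h2, h3, sum_insert (by simp [hF, h.ne]), sum_insert (by simp [hF])] at h1
  linarith

lemma chain (c : Finset V) (F : Finset (Finset V)) : (∀ t ∈ F, c ⊂ t) →
    (∀ t ∈ F, ∀ r, c ⊂ r → r ⊆ t → r ∈ F) →
    (-1) ^ c.card * E (bary V) F = (-1) ^ c.card + ∑ r ∈ F, (-1 : ℚ) ^ r.card := by
  induction F using Finset.strongInduction with
  | H F ih =>
    intro h1 h2
    rcases F.eq_empty_or_nonempty with rfl | hF
    · simp [E_empty]
    obtain ⟨t, ht, hm⟩ := F.exists_max_image card hF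
    have hA : ∀ r, r ∈ F.filter (· ⊂ t) ↔ c ⊂ r ∧ r ⊂ t := fun r => by
      rw [mem_filter]
      exact ⟨fun e => ⟨h1 r e.1, e.2⟩, fun e => ⟨h2 t ht r e.1 e.2.1, e.2⟩⟩
    rw [E_del ht (t := F.erase t) (u := F.filter (· ⊂ t)) (fun y => by simp [and_comm]), mul_sub,
      ih _ (erase_ssubset ht) (fun r hr => h1 r (mem_of_mem_erase hr)),
      ih (F.filter (· ⊂ t)) (filter_ssubset.2 ⟨t, ht, ssubset_irrefl t⟩) (fun r hr => ((hA r).1 hr).1),
      alt (h1 t ht) _ hA, ← add_sum_erase F _ ht]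
    · ring
    · intro r hr q q1 q2
      exact (hA q).2 ⟨q1, Finset.ssubset_of_subset_of_ssubset q2 ((hA r).1 hr).2⟩
    · intro r hr q q1 q2
      obtain ⟨r1, r2⟩ := mem_erase.1 hr
      refine mem_erase.2 ⟨?_, h2 r r2 q q1 q2⟩
      rintro rfl
      exact r1 (eq_of_subset_of_card_le q2 (hm r r2)).symm
    · intro y
      rw [mem_filter]
      refine and_congr_right fun hy => ⟨Or.inr, fun e => e.resolve_left fun f => ?_⟩
      exact absurd (card_lt_card f) (not_lt.2 (hm y hy))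

lemma mem_faces {s c : Finset V} : c ∈ faces G s ↔ c.Nonempty ∧ c ∈ K G s := by
  simp only [faces, K, mem_filter]
  exact ⟨fun ⟨a, b, d⟩ => ⟨b, a, d⟩, fun ⟨b, a, d⟩ => ⟨a, b, d⟩⟩

lemma K_sub {s c r : Finset V} (hc : c ∈ K G s) (h : r ⊆ c) : r ∈ K G s :=
  mem_K.2 ⟨h.trans (mem_K.1 hc).1, fun x hx y hy => (mem_K.1 hc).2 x (h hx) y (h hy)⟩

lemma E_bary {s c : Finset V} (hc : c ∈ faces G s) :
    E (bary V) (sph (bary V) (faces G s) c) = -((-1) ^ c.card * E G (lk G s c)) := by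
  obtain ⟨c1, c2⟩ := mem_faces.1 hc
  have hA : ∀ r, r ∈ (faces G s).filter (· ⊂ c) ↔ ∅ ⊂ r ∧ r ⊂ c := fun r => by
    rw [mem_filter, mem_faces, empty_ssubset]
    exact ⟨fun e => ⟨e.1.1, e.2⟩, fun e => ⟨⟨e.1, K_sub c2 e.2.1⟩, e.2⟩⟩
  have h1 := chain ∅ ((faces G s).filter (· ⊂ c)) (fun r hr => ((hA r).1 hr).1)
    fun r hr q q1 q2 => (hA q).2 ⟨q1, Finset.ssubset_of_subset_of_ssubset q2 ((hA r).1 hr).2⟩
  rw [alt (empty_ssubset.2 c1) _ hA] at h1
  have h2 := chain c ((faces G s).filter (c ⊂ ·)) (fun r hr => (mem_filter.1 hr).2)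
    fun r hr q q1 q2 => mem_filter.2 ⟨mem_faces.2 ⟨c1.mono q1.1,
      K_sub (mem_faces.1 (mem_filter.1 hr).1).2 q2⟩, q1⟩
  have h3 : (K G s).filter (fun r => c ⊆ r) = insert c ((faces G s).filter (c ⊂ ·)) := by
    ext r
    simp only [mem_filter, mem_insert, mem_faces, Finset.ssubset_iff_subset_ne]
    constructor
    · rintro ⟨a, b⟩
      by_cases e : r = c
      · exact Or.inl e
      · exact Or.inr ⟨⟨c1.mono b, a⟩, b, Ne.symm e⟩
    · rintro (rfl | ⟨⟨-, a⟩, b, -⟩)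
      · exact ⟨c2, subset_rfl⟩
      · exact ⟨a, b⟩
  have h4 := above c2
  rw [h3, sum_insert (by simp), ← h2] at h4
  rw [join ((faces G s).filter (· ⊂ c)) ((faces G s).filter (c ⊂ ·)), ← h4]
  · simp only [card_empty, pow_zero, one_mul] at h1
    rw [h1, neg_mul]
  · intro y
    rw [mem_sph, mem_filter, mem_filter]
    exact ⟨fun ⟨a, b⟩ => b.elim (fun b => Or.inr ⟨a, b⟩) fun b => Or.inl ⟨a, b⟩,
      fun e => e.elim (fun ⟨a, b⟩ => ⟨a, Or.inr b⟩) fun ⟨a, b⟩ => ⟨a, Or.inl b⟩⟩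
  · exact fun x hx y hy => Or.inl ((mem_filter.1 hx).2.trans (mem_filter.1 hy).2)

lemma by_card (s : Finset V) (f : ℕ → ℚ) :
    ∑ c ∈ K G s, f c.card = f 0 + ∑ k ∈ range s.card, f (k + 1) * v G s k := by
  rw [← sum_fiberwise_of_maps_to (g := card) (t := range (s.card + 1))
    (fun c hc => mem_range.2 (Nat.lt_succ_of_le (card_le_card (mem_K.1 hc).1))),
    sum_range_succ', add_comm]
  congr 1
  · have : (K G s).filter (fun c => c.card = 0) = {∅} := by
      ext c
      simp only [mem_filter, card_eq_zero, mem_singleton]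
      exact ⟨fun h => h.2, fun h => ⟨h ▸ empty_mem s, h⟩⟩
    rw [this]
    simp
  · refine sum_congr rfl fun k _ => ?_
    rw [sum_congr rfl (g := fun _ => f (k + 1)) fun c hc => by rw [(mem_filter.1 hc).2],
      sum_const, nsmul_eq_mul, mul_comm, v]
    congr 3
    ext c
    simp only [K, mem_filter, mem_powerset, mem_powersetCard]
    exact ⟨fun ⟨⟨a, b⟩, d⟩ => ⟨⟨a, d⟩, b⟩, fun ⟨⟨a, d⟩, b⟩ => ⟨⟨a, b⟩, d⟩⟩

lemma chi_eq (s : Finset V) : (chi G s : ℚ) = 1 - E G s := by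
  rw [E, by_card s fun k => (-1) ^ k, chi]
  push_cast
  simp only [pow_succ, mul_neg, mul_one, neg_mul, sum_neg_distrib]
  ring

lemma gb (s : Finset V) : ((∑ x ∈ s, chi G (sph G s x) : ℤ) : ℚ) =
    ((∑ k ∈ Ico 1 s.card, (-1) ^ (k + 1) * ((k + 1 : ℕ) : ℤ) * v G s k : ℤ) : ℚ) := by
  have h := double (G := G) s fun k => if k = 1 then 1 else 0
  have e1 : ∀ t : Finset V, ∑ c ∈ t.powerset, (if c.card = 1 then (1 : ℚ) else 0) = t.card := by
    intro t
    rw [sum_boole, ← powersetCard_eq_filter, card_powersetCard, Nat.choose_one_right]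
  have e2 : (K G s).filter (fun c => c.card = 1) = s.image fun x => {x} := by
    ext c
    simp only [mem_filter, card_eq_one, mem_image]
    constructor
    · rintro ⟨a, x, rfl⟩
      exact ⟨x, (mem_K.1 a).1 (mem_singleton_self x), rfl⟩
    · rintro ⟨x, a, rfl⟩
      exact ⟨by simp [mem_K, a], x, rfl⟩
  have e3 : ∀ x, lk G s {x} = sph G s x := fun x => by ext y; simp [mem_lk, mem_sph]
  have e4 : v G s 0 = s.card := by
    rw [← card_image_of_injective s singleton_injective, ← e2, v]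
    congr 1
    ext c
    simp only [K, mem_filter, mem_powerset, mem_powersetCard]
    exact ⟨fun ⟨⟨a, d⟩, b⟩ => ⟨⟨a, b⟩, d⟩, fun ⟨⟨a, b⟩, d⟩ => ⟨⟨a, d⟩, b⟩⟩
  simp only [e1, ite_mul, one_mul, zero_mul] at h
  rw [← sum_filter, e2, sum_image fun _ _ _ _ e => singleton_injective e,
    by_card s fun k => (-1) ^ k * (k : ℚ)] at h
  simp only [e3, card_singleton, pow_one, neg_mul, one_mul, sum_neg_distrib] at h
  push_cast at h ⊢
  simp only [chi_eq, sum_sub_distrib, sum_const, nsmul_eq_mul, mul_one]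
  rcases Nat.eq_zero_or_pos s.card with h0 | h0
  · simp [card_eq_zero.1 h0]
  rw [range_eq_Ico, sum_eq_sum_Ico_succ_bot h0, e4] at h
  simp only [zero_add, pow_one, Nat.cast_zero, mul_one, mul_zero] at h
  linarith

lemma eta_eq (s : Finset V) : eta G s = etaSum G s := by
  have := gb (G := bary V) (faces G s)
  exact_mod_cast this.symm

lemma binom (t : Finset V) : ∑ c ∈ t.powerset, (-1 / 2 : ℚ) ^ c.card = (1 / 2) ^ t.card ∧
    ∑ c ∈ t.powerset, c.card * (-1 / 2 : ℚ) ^ c.card = -t.card * (1 / 2) ^ t.card := by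
  induction t using Finset.induction_on with
  | empty => simp
  | insert x t hx ih =>
    have e : ∀ f : ℕ → ℚ, ∑ c ∈ (insert x t).powerset, f c.card =
        ∑ c ∈ t.powerset, f c.card + ∑ c ∈ t.powerset, f (c.card + 1) := fun f => by
      rw [sum_powerset_insert hx]
      congr 1
      exact sum_congr rfl fun c hc => by
        rw [card_insert_of_notMem fun h => hx (mem_powerset.1 hc h)]
    rw [e fun k => (-1 / 2 : ℚ) ^ k, e fun k => k * (-1 / 2 : ℚ) ^ k, card_insert_of_notMem hx]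
    simp only [pow_succ, Nat.cast_add, Nat.cast_one, add_mul, one_mul, ← mul_assoc,
      sum_add_distrib, ← sum_mul, ih.1, ih.2]
    constructor <;> ring

lemma sgn (k : ℕ) : (-1 : ℚ) ^ k * (1 / 2) ^ k = (-1 / 2) ^ k := by
  rw [← mul_pow]; norm_num

lemma wpos {k : ℕ} (h : 2 ≤ k) : 0 < 1 + 2 * (k * (-1 / 2 : ℚ) ^ k) := by
  rcases k.even_or_odd with e | e
  · have := e.pow_nonneg (-1 / 2 : ℚ)
    positivity
  · have h3 : ∀ j : ℕ, 2 * ((j + 3 : ℕ) : ℚ) * (1 / 2) ^ (j + 3) < 1 := by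
      intro j
      induction j with
      | zero => norm_num
      | succ j ih =>
        have : (0 : ℚ) < (1 / 2) ^ (j + 3) := by positivity
        have h0 : (0 : ℚ) ≤ j := j.cast_nonneg
        rw [show j + 1 + 3 = j + 3 + 1 by ring, pow_succ]
        push_cast at ih ⊢
        nlinarith
    obtain ⟨j, rfl⟩ : ∃ j, k = j + 3 := ⟨k - 3, by obtain ⟨i, rfl⟩ := e; omega⟩
    have := h3 j
    rw [← sgn, e.neg_one_pow]
    linarith

lemma chi_bary {s c : Finset V} (hc : c ∈ faces G s) :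
    (chi (bary V) (sph (bary V) (faces G s) c) : ℚ) = 1 + (-1) ^ c.card * E G (lk G s c) := by
  rw [chi_eq, E_bary hc, sub_neg_eq_add]

lemma formula {n : ℕ} {s : Finset V} (h : Eu G n 2 s) : (etaSum G s : ℚ) =
    ∑ c ∈ (faces G s).filter (fun c => 2 ≤ c.card),
      (1 + 2 * (c.card * (-1 / 2 : ℚ) ^ c.card)) * (1 + (-1) ^ n) := by
  have h1 := double (G := G) s fun k => k * (-1 / 2 : ℚ) ^ k
  simp only [(binom _).2] at h1
  have h2 : ∑ c ∈ K G s,
      c.card * (-1 / 2 : ℚ) ^ c.card * (1 + (-1) ^ c.card * E G (lk G s c)) = 0 := by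
    simp only [mul_add, sum_add_distrib, ← h1]
    rw [← sum_add_distrib]
    exact sum_eq_zero fun c _ => by rw [← sgn]; ring
  rw [← sum_subset (s₁ := faces G s) (fun c hc => (mem_faces.1 hc).2) (fun c h1 h2 => by
    rw [mem_faces, not_and', not_nonempty_iff_eq_empty] at h2
    simp [h2 h1])] at h2
  rw [etaSum]
  push_cast
  rw [sum_congr rfl fun c hc => chi_bary hc, sum_filter]
  refine (show ∀ a b : ℚ, b = 0 → a = a + 2 * b from fun a b h => by simp [h]) _ _ h2 |>.trans ?_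
  rw [mul_sum, ← sum_add_distrib]
  refine sum_congr rfl fun c hc => ?_
  obtain ⟨c1, c2⟩ := mem_faces.1 hc
  split_ifs with e
  · rw [h c c2 e]
    ring
  · rw [show c.card = 1 by have := card_pos.2 c1; omega]
    ring

theorem nonneg {n : ℕ} {s : Finset V} (h : IsVariety G (n + 1) s) : 0 ≤ eta G s := by
  rw [eta_eq]
  have : (0 : ℚ) ≤ etaSum G s := by
    rw [formula (variety h)]
    refine sum_nonneg fun c hc => mul_nonneg (wpos (mem_filter.1 hc).2).le ?_
    rcases neg_one_pow_eq_or ℚ (n + 1) with e | e <;> rw [e] <;> norm_num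
  exact_mod_cast this

theorem zero_iff {n : ℕ} {s : Finset V} (h : IsVariety G (n + 1) s) : etaSum G s = 0 ↔
    ∀ x ∈ faces G s, chi (bary V) (sph (bary V) (faces G s) x) = 0 := by
  refine ⟨fun h0 c hc => ?_, fun h0 => sum_eq_zero h0⟩
  have hv := variety h
  obtain ⟨c1, c2⟩ := mem_faces.1 hc
  suffices (chi (bary V) (sph (bary V) (faces G s) c) : ℚ) = 0 by exact_mod_cast this
  rw [chi_bary hc]
  have hf := formula hv
  rw [h0] at hf
  rcases neg_one_pow_eq_or ℚ (n + 1) with e | e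
  · have h2 : ∀ r ∈ K G s, r.card < 2 := by
      intro r hr
      by_contra h3
      have h4 : r ∈ (faces G s).filter (fun c => 2 ≤ c.card) :=
        mem_filter.2 ⟨mem_faces.2 ⟨card_pos.1 (by omega), hr⟩, by omega⟩
      have := (sum_eq_zero_iff_of_nonneg fun c hc => mul_nonneg (wpos (mem_filter.1 hc).2).le
        (by rw [e]; norm_num)).1 hf.symm r h4
      have h5 := wpos (mem_filter.1 h4).2
      rw [e] at this
      linarith
    obtain ⟨x, rfl⟩ := card_eq_one.1 (show c.card = 1 by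
      have := card_pos.2 c1; have := h2 c c2; omega)
    have h3 : lk G s {x} = ∅ := by
      refine eq_empty_of_forall_notMem fun y hy => ?_
      obtain ⟨y1, y2⟩ := mem_lk.1 hy
      have a := y2 x (mem_singleton_self x)
      have := h2 {x, y} (mem_K.2 ⟨insert_subset ((mem_K.1 c2).1 (mem_singleton_self x))
        (singleton_subset_iff.2 y1), by simp [a, a.symm]⟩)
      rw [card_pair a.ne] at this
      omega
    simp [h3, E_empty]
  by_cases h2 : 2 ≤ c.card
  · rw [hv c c2 h2, e]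
    norm_num
  obtain ⟨x, rfl⟩ := card_eq_one.1 (show c.card = 1 by have := card_pos.2 c1; omega)
  have hx := (mem_K.1 c2).1 (mem_singleton_self x)
  have e3 : lk G s {x} = sph G s x := by ext y; simp [mem_lk, mem_sph]
  have h1 := double (G := G) (sph G s x) fun k => (-1 / 2 : ℚ) ^ k
  simp only [(binom _).1, sgn] at h1
  rw [← sub_eq_zero, ← sum_sub_distrib, sum_eq_single ∅] at h1
  · rw [lk_empty] at h1
    rw [e3]
    simp only [card_empty, pow_zero, one_mul, card_singleton, pow_one] at h1 ⊢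
    linarith
  · intro r hr h3
    obtain ⟨r1, r2⟩ := mem_K.1 hr
    have h4 : x ∉ r := fun f => G.irrefl (mem_sph.1 (r1 f)).2
    have h5 : insert x r ∈ K G s := by
      refine mem_K.2 ⟨insert_subset hx fun y hy => (mem_sph.1 (r1 hy)).1, fun a ha b hb hab => ?_⟩
      rcases mem_insert.1 ha with f | ha <;> rcases mem_insert.1 hb with f' | hb
      · exact absurd (f.trans f'.symm) hab
      · exact f ▸ (mem_sph.1 (r1 hb)).2
      · exact f' ▸ (mem_sph.1 (r1 ha)).2.symm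
      · exact r2 a ha b hb hab
    have h6 := hv _ h5 (by
      have := card_pos.2 (nonempty_iff_ne_empty.2 h3)
      rw [card_insert_of_notMem h4]; omega)
    rw [lk_erase (mem_insert_self x r), erase_insert h4, card_insert_of_notMem h4, pow_succ,
      e] at h6
    rw [show (-1 : ℚ) ^ r.card * E G (lk G (sph G s x) r) = 1 by linarith]
    ring
  · exact fun f => absurd (empty_mem _) f

end Pool.Agent.H5.Eta
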