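import Mathlib

set_option autoImplicit false

namespace Pool.Agent.H5.EtaDefs

open Classical

/- A pair `(G, s)` stands for the finite graph induced by `G` on the finite vertex set `s`. -/
variable {V : Type} (G : SimpleGraph V)

/-- The unit sphere of `x` in the graph induced on `s`. -/
noncomputable def sph (s : Finset V) (x : V) : Finset V := s.filter (G.Adj x)

/-- The number of complete subgraphs with `k + 1` vertices of the graph induced on `s`. -/
noncomputable def v (s : Finset V) (k : ℕ) : ℕ :=
  ((s.powersetCard (k + 1)).filter fun c : Finset V => G.IsClique (c : Set V)).card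

/-- The Euler characteristic of the graph induced on `s`. -/
noncomputable def chi (s : Finset V) : ℤ := ∑ k ∈ Finset.range s.card, (-1) ^ k * (v G s k : ℤ)

inductive Collapsible : Finset V → Prop
  | single (x : V) : Collapsible {x}
  | step (s : Finset V) (x : V) : x ∈ s → Collapsible (s.erase x) → Collapsible (sph G s x) →
      Collapsible s

/-- `IsSphere G n s`: the graph induced on `s` is an `(n-1)`-sphere. -/
def IsSphere : ℕ → Finset V → Prop
  | 0, s => s = ∅
  | n + 1, s => (∀ x ∈ s, IsSphere n (sph G s x)) ∧ ∃ x ∈ s, Collapsible G (s.erase x)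

/-- `IsGraph G n s`: the graph induced on `s` is an `(n-1)`-graph. -/
def IsGraph : ℕ → Finset V → Prop
  | 0, s => s = ∅
  | n + 1, s => ∀ x ∈ s, IsSphere G n (sph G s x)

/-- `IsVariety G n s`: the graph induced on `s` is an `(n-1)`-variety. -/
def IsVariety : ℕ → Finset V → Prop
  | 0, s => s = ∅
  | n + 1, s => ∃ Z ⊆ s, (∀ x ∈ Z, ∀ y ∈ Z, ¬ G.Adj x y) ∧
      (∀ x ∈ s, x ∉ Z → IsGraph G n (sph G s x)) ∧ ∀ x ∈ Z, IsVariety n (sph G s x)

/-- The vertex set of the Barycentric refinement: the nonempty complete subgraphs. -/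
noncomputable def faces (s : Finset V) : Finset (Finset V) :=
  s.powerset.filter fun c : Finset V => c.Nonempty ∧ G.IsClique (c : Set V)

/-- Strict containment graph; the Barycentric refinement is the graph it induces on `faces`. -/
def bary (V : Type) : SimpleGraph (Finset V) where
  Adj a b := a ⊂ b ∨ b ⊂ a
  symm := ⟨fun _ _ h => h.symm⟩
  loopless := ⟨fun a h => h.elim (ssubset_irrefl a) (ssubset_irrefl a)⟩

/-- `2 v_1(G_1) - 3 v_2(G_1) + 4 v_3(G_1) - ...` -/
noncomputable def eta (s : Finset V) : ℤ :=
  ∑ k ∈ Finset.Ico 1 (faces G s).card, (-1) ^ (k + 1) * ((k + 1 : ℕ) : ℤ) * v (bary V) (faces G s) k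

/-- The sum over the vertices `x` of `G_1` of the Euler characteristic of `S(x)`. -/
noncomputable def etaSum (s : Finset V) : ℤ :=
  ∑ x ∈ faces G s, chi (bary V) (sph (bary V) (faces G s) x)

end Pool.Agent.H5.EtaDefs
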