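import Mathlib

set_option autoImplicit false

namespace Pool.Agent.H5.FlowLow
open Finset Polynomial Module Submodule

def NN (p : ℤ[X]) : Prop := ∀ i, 0 ≤ p.coeff i
def Le (p q : ℤ[X]) : Prop := NN (q - p)

theorem NN.add {p q : ℤ[X]} (hp : NN p) (hq : NN q) : NN (p + q) := fun i => by
  rw [coeff_add]; exact add_nonneg (hp i) (hq i)
theorem NN.mul {p q : ℤ[X]} (hp : NN p) (hq : NN q) : NN (p * q) := fun i => by
  rw [coeff_mul]; exact sum_nonneg fun x _ => mul_nonneg (hp _) (hq _)
theorem NN_zero : NN 0 := fun i => by simp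
theorem NN_one : NN 1 := fun i => by rw [coeff_one]; split_ifs <;> simp
theorem NN_X : NN X := fun i => by rw [coeff_X]; split_ifs <;> simp
theorem NN.pow {p : ℤ[X]} (hp : NN p) (k : ℕ) : NN (p ^ k) := by
  induction k with
  | zero => simpa using NN_one
  | succ k ih => rw [pow_succ]; exact ih.mul hp
theorem NN2 : NN (X + 2) := by
  rw [show (X + 2 : ℤ[X]) = X + 1 + 1 by ring]; exact (NN_X.add NN_one).add NN_one
theorem NN3 : NN (X + 3) := by
  rw [show (X + 3 : ℤ[X]) = X + 2 + 1 by ring]; exact NN2.add NN_one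
theorem Le.refl (p : ℤ[X]) : Le p p := by unfold Le; rw [sub_self]; exact NN_zero
theorem Le.trans {p q s : ℤ[X]} (h1 : Le p q) (h2 : Le q s) : Le p s := by
  unfold Le at *; rw [show s - p = (q - p) + (s - q) by ring]; exact h1.add h2
theorem Le.add {p q p' q' : ℤ[X]} (h1 : Le p q) (h2 : Le p' q') : Le (p + p') (q + q') := by
  unfold Le at *; rw [show q + q' - (p + p') = (q - p) + (q' - p') by ring]; exact h1.add h2
theorem Le.mul {p q s : ℤ[X]} (hs : NN s) (h : Le p q) : Le (s * p) (s * q) := by
  unfold Le at *; rw [← mul_sub]; exact hs.mul h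
theorem Le.of_eq {p q p' q' : ℤ[X]} (h : Le p q) (e1 : p' = p) (e2 : q' = q) : Le p' q' := by
  rw [e1, e2]; exact h
theorem Le_add_right {p q : ℤ[X]} (hq : NN q) : Le p (p + q) := by
  unfold Le; rw [add_sub_cancel_left]; exact hq

abbrev K := ZMod 2

theorem K01 : ∀ a : K, a = 0 ∨ a = 1 := by decide

variable {ι W : Type} [DecidableEq ι] [AddCommGroup W] [Module K W] [FiniteDimensional K W]
variable (v : ι → W)

def T (D : Submodule K W) (A : Finset ι) : Submodule K W := D ⊔ span K (v '' A)
def cn (D : Submodule K W) (w : W) : Submodule K W := D ⊔ span K {w}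

omit [FiniteDimensional K W] in
theorem add_self (w : W) : w + w = 0 := by
  rw [← two_smul K w, show (2 : K) = 0 from rfl, zero_smul]

omit [FiniteDimensional K W] in
theorem mem_cn {D : Submodule K W} {w x : W} : x ∈ cn D w ↔ x ∈ D ∨ x + w ∈ D := by
  unfold cn
  constructor
  · intro h
    obtain ⟨y, hy, z, hz, rfl⟩ := Submodule.mem_sup.1 h
    obtain ⟨a, rfl⟩ := mem_span_singleton.1 hz
    have : a = 0 ∨ a = 1 := K01 a
    rcases this with rfl | rfl
    · left; simpa using hy
    · right; rw [one_smul, add_assoc, add_self, add_zero]; exact hy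
  · rintro (h | h)
    · exact mem_sup_left h
    · have : x = (x + w) + w := by rw [add_assoc, add_self, add_zero]
      rw [this]
      exact add_mem_sup h (mem_span_singleton_self w)

omit [FiniteDimensional K W] in
theorem cn_of_mem {D : Submodule K W} {w : W} (h : w ∈ D) : cn D w = D :=
  sup_eq_left.2 ((span_singleton_le_iff_mem _ _).2 h)

theorem rk_cn {D : Submodule K W} {w : W} (h : w ∉ D) : finrank K (cn D w) = finrank K D + 1 := by
  have h0 : w ≠ 0 := fun e => h (e ▸ D.zero_mem)
  have h1 := finrank_sup_add_finrank_inf_eq D (span K {w})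
  rw [(disjoint_span_singleton' h0).2 h |>.eq_bot, finrank_bot, finrank_span_singleton h0] at h1
  exact h1

omit [FiniteDimensional K W] in
theorem T_insert (D : Submodule K W) (e : ι) (A : Finset ι) :
    T v D (insert e A) = T v (cn D (v e)) A := by
  unfold T cn
  rw [coe_insert, Set.image_insert_eq, span_insert, sup_assoc]

omit [FiniteDimensional K W] [DecidableEq ι] in
theorem T_cn (D : Submodule K W) (w : W) (A : Finset ι) : T v (cn D w) A = cn (T v D A) w := by
  unfold T cn; rw [sup_right_comm]

omit [FiniteDimensional K W] in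
theorem T_insert' (D : Submodule K W) (e : ι) (A : Finset ι) :
    T v D (insert e A) = cn (T v D A) (v e) := by rw [T_insert, T_cn]

omit [FiniteDimensional K W] [DecidableEq ι] in
theorem T_mono (D : Submodule K W) {A B : Finset ι} (h : A ⊆ B) : T v D A ≤ T v D B :=
  sup_le_sup_left (span_mono (Set.image_mono (coe_subset.2 h))) _

omit [FiniteDimensional K W] [DecidableEq ι] in
theorem le_T (D : Submodule K W) (A : Finset ι) : D ≤ T v D A := le_sup_left

omit [FiniteDimensional K W] [DecidableEq ι] in
theorem mem_T (D : Submodule K W) {A : Finset ι} {e : ι} (h : e ∈ A) : v e ∈ T v D A :=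
  mem_sup_right (subset_span ⟨e, h, rfl⟩)

omit [FiniteDimensional K W] [DecidableEq ι] in
theorem T_empty (D : Submodule K W) : T v D ∅ = D := by simp [T]

omit [FiniteDimensional K W] [DecidableEq ι] in
theorem T_le {D U : Submodule K W} {A : Finset ι} (h1 : D ≤ U) (h2 : ∀ e ∈ A, v e ∈ U) :
    T v D A ≤ U := sup_le h1 (span_le.2 (by rintro _ ⟨e, he, rfl⟩; exact h2 e he))

/-- characteristic polynomial with absolute coefficients -/
noncomputable def P (D : Submodule K W) (S : Finset ι) : ℤ[X] :=
  ∑ A ∈ S.powerset, (-1) ^ (A.card + finrank K (T v D A) + finrank K D) *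
    X ^ (finrank K (T v D S) - finrank K (T v D A))

omit [FiniteDimensional K W] in
theorem P_ins (D : Submodule K W) {e : ι} {S : Finset ι} (he : e ∉ S) :
    P v D (insert e S) =
      ∑ A ∈ S.powerset, (-1) ^ (A.card + finrank K (T v D A) + finrank K D) *
        X ^ (finrank K (T v (cn D (v e)) S) - finrank K (T v D A)) -
      ∑ A ∈ S.powerset, (-1) ^ (A.card + finrank K (T v (cn D (v e)) A) + finrank K D) *
        X ^ (finrank K (T v (cn D (v e)) S) - finrank K (T v (cn D (v e)) A)) := by
  unfold P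
  rw [sum_powerset_insert he, sub_eq_add_neg, ← sum_neg_distrib, T_insert]
  congr 1
  refine sum_congr rfl fun A hA => ?_
  rw [card_insert_of_notMem (fun h => he (mem_powerset.1 hA h)), T_insert]
  ring

omit [FiniteDimensional K W] in
theorem P_loop (D : Submodule K W) {e : ι} {S : Finset ι} (he : e ∉ S) (h : v e ∈ D) :
    P v D (insert e S) = 0 := by
  rw [P_ins v D he, cn_of_mem h, sub_self]

theorem P_ins2 (D : Submodule K W) {e : ι} {S : Finset ι} (he : e ∉ S) (h : v e ∉ D) :
    P v D (insert e S) =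
      ∑ A ∈ S.powerset, (-1) ^ (A.card + finrank K (T v D A) + finrank K D) *
        X ^ (finrank K (T v (cn D (v e)) S) - finrank K (T v D A)) + P v (cn D (v e)) S := by
  rw [P_ins v D he, sub_eq_add_neg, ← sum_neg_distrib]
  congr 1
  unfold P
  refine sum_congr rfl fun A _ => ?_
  rw [rk_cn h]; ring

theorem P_dep (D : Submodule K W) {e : ι} {S : Finset ι} (he : e ∉ S) (h : v e ∉ D)
    (h2 : v e ∈ T v D S) : P v D (insert e S) = P v D S + P v (cn D (v e)) S := by
  rw [P_ins2 v D he h, T_cn, cn_of_mem h2]; rfl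

theorem P_cn (D : Submodule K W) {w : W} {S : Finset ι} (h2 : w ∉ T v D S) :
    P v (cn D w) S = P v D S := by
  unfold P
  refine sum_congr rfl fun A hA => ?_
  have hA' : w ∉ T v D A := fun h => h2 (T_mono v D (mem_powerset.1 hA) h)
  rw [T_cn, T_cn, rk_cn h2, rk_cn hA', rk_cn (fun h => h2 (le_T v D S h)), Nat.add_sub_add_right]
  ring

theorem P_free (D : Submodule K W) {e : ι} {S : Finset ι} (h2 : v e ∉ T v D S) :
    P v D (insert e S) = (X + 1) * P v D S := by
  have he : e ∉ S := fun h => h2 (mem_T v D h)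
  rw [P_ins2 v D he (fun h => h2 (le_T v D S h)), P_cn v D h2, add_mul, one_mul]
  congr 1
  unfold P
  rw [mul_sum]
  refine sum_congr rfl fun A hA => ?_
  have := Submodule.finrank_mono (T_mono v D (mem_powerset.1 hA))
  rw [T_cn, rk_cn h2, Nat.sub_add_comm this]; ring

theorem P_NN (S : Finset ι) : ∀ D : Submodule K W, NN (P v D S) := by
  induction S using Finset.induction_on with
  | empty =>
    intro D
    have : P v D ∅ = 1 := by
      unfold P; rw [powerset_empty, sum_singleton, T_empty]; simp [← two_mul]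
    rw [this]; exact NN_one
  | insert e S he ih =>
    intro D
    by_cases h : v e ∈ D
    · rw [P_loop v D he h]; exact NN_zero
    · by_cases h2 : v e ∈ T v D S
      · rw [P_dep v D he h h2]; exact (ih _).add (ih _)
      · rw [P_free v D h2]; exact (NN_X.add NN_one).mul (ih _)

theorem P_mono1 (D : Submodule K W) {e : ι} {S : Finset ι} (h : v e ∉ D)
    (h2 : v e ∈ T v D S) : Le (P v D S) (P v D (insert e S)) := by
  by_cases he : e ∈ S
  · rw [insert_eq_of_mem he]; exact Le.refl _
  · rw [P_dep v D he h h2]; exact Le_add_right (P_NN v S _)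

theorem P_mono (D : Submodule K W) (S B : Finset ι) (h : ∀ e ∈ B, v e ∉ D ∧ v e ∈ T v D S) :
    Le (P v D S) (P v D (B ∪ S)) := by
  induction B using Finset.induction_on with
  | empty => simpa using Le.refl _
  | insert e B he ih =>
    rw [insert_union]
    refine (ih fun x hx => h x (mem_insert_of_mem hx)).trans (P_mono1 v D (h e (by simp)).1 ?_)
    exact T_mono v D subset_union_right (h e (by simp)).2

/-- adding one more element of the new coset -/
theorem P_more (S B : Finset ι) (x e : ι) (hx : x ∈ B) (he : v e ∉ T v ⊥ S)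
    (hB : ∀ b ∈ B, v b + v e ∈ T v ⊥ S ∧ v b ≠ v e) :
    Le (P v ⊥ (B ∪ S) + P v ⊥ S) (P v ⊥ (insert e (B ∪ S))) := by
  have h0 : v e ∉ (⊥ : Submodule K W) := fun h => he (le_T v ⊥ S h)
  have heB : e ∉ B ∪ S := by
    rw [mem_union]; rintro (h | h)
    · exact (hB e h).2 rfl
    · exact he (mem_T v ⊥ h)
  have h1 : v e ∈ T v ⊥ (B ∪ S) := by
    have : v e = v x + (v x + v e) := by rw [← add_assoc, add_self, zero_add]
    rw [this]
    exact add_mem (mem_T v ⊥ (mem_union_left _ hx)) (T_mono v ⊥ subset_union_right (hB x hx).1)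
  rw [P_dep v ⊥ heB h0 h1]
  refine (Le.refl _).add ?_
  rw [← P_cn v ⊥ he]
  refine P_mono v _ S B fun b hb => ⟨?_, ?_⟩
  · rw [mem_cn]; rintro (h | h)
    · rw [mem_bot] at h
      have := (hB b hb).1
      rw [h, zero_add] at this
      exact he this
    · rw [mem_bot] at h
      apply (hB b hb).2
      rw [← add_zero (v b), ← add_self (v e), ← add_assoc, h, zero_add]
  · rw [T_cn, mem_cn]; exact Or.inr (hB b hb).1

theorem step2 (S : Finset ι) (a b : ι) (hb : v b ∉ T v ⊥ S) (hab : v a + v b ∈ T v ⊥ S)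
    (hne : v a ≠ v b) : Le ((X + 2) * P v ⊥ S) (P v ⊥ (insert b (insert a S))) := by
  have ha : v a ∉ T v ⊥ S := fun h => hb (by
    have := add_mem h hab; rwa [← add_assoc, add_self, zero_add] at this)
  have := P_more v S {a} a b (by simp) hb (by simp [hab, hne])
  rw [← insert_eq, P_free v ⊥ ha] at this
  exact this.of_eq (by ring) rfl

theorem step3 (S : Finset ι) (a b c : ι) (hc : v c ∉ T v ⊥ S) (hac : v a + v c ∈ T v ⊥ S)
    (hbc : v b + v c ∈ T v ⊥ S) (h1 : v a ≠ v b) (h2 : v a ≠ v c) (h3 : v b ≠ v c) :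
    Le ((X + 3) * P v ⊥ S) (P v ⊥ (insert c (insert b (insert a S)))) := by
  have hb : v b ∉ T v ⊥ S := fun h => hc (by
    have := add_mem h hbc; rwa [← add_assoc, add_self, zero_add] at this)
  have hab : v a + v b ∈ T v ⊥ S := by
    have := add_mem hac hbc
    rwa [show v a + v c + (v b + v c) = v a + v b + (v c + v c) by abel, add_self, add_zero] at this
  have k1 := step2 v S a b hb hab h1
  have k2 := P_more v S {b, a} a c (by simp) hc (by simp [hac, hbc, h2, h3])
  rw [insert_union, ← insert_eq] at k2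
  exact ((k1.add (Le.refl _)).trans k2).of_eq (by ring) rfl

end Pool.Agent.H5.FlowLow
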