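import Mathlib

set_option autoImplicit false

namespace Pool.Agent.H5.FlowLow

open Classical in
/-- The flow polynomial `∑_{Z ⊆ E} (-1)^(m-|Z|) t^(|Z|+c(Z)-n)` of a finite simple graph, where
`c(Z)` is the number of connected components of the spanning subgraph with edge set `Z`. -/
noncomputable def flowPoly {V : Type} [Fintype V] (G : SimpleGraph V) : Polynomial ℤ :=
  ∑ Z ∈ G.edgeFinset.powerset, (-1) ^ (G.edgeFinset.card - Z.card) *
    Polynomial.X ^ (Z.card +
      Nat.card (SimpleGraph.fromEdgeSet (Z : Set (Sym2 V))).ConnectedComponent - Fintype.card V)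

end Pool.Agent.H5.FlowLow
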