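import Pool.Agent.H5.FlowLow1
import Pool.Agent.H5.FlowLowDefs

set_option autoImplicit false
set_option linter.unusedSectionVars false

namespace Pool.Agent.H5.FlowLow
open Finset Polynomial Module Submodule

section
variable {ι W : Type} [DecidableEq ι] [AddCommGroup W] [Module K W] [FiniteDimensional K W]
variable (v : ι → W)

theorem two_z (w : W) : (2 : ℕ) • w = 0 := by rw [two_nsmul, add_self]

theorem mem_of_add {U : Submodule K W} {a b : W} (h1 : a ∈ U) (h2 : a + b ∈ U) : b ∈ U := by
  have := add_mem h1 h2; rwa [← add_assoc, add_self, zero_add] at this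

theorem add3 {U : Submodule K W} {a b c : W} (h1 : a + b ∈ U) (h2 : b + c ∈ U) : a + c ∈ U := by
  have := add_mem h1 h2
  rwa [show a + b + (b + c) = a + c + (b + b) by abel, add_self, add_zero] at this

theorem eq_of_add {a b : W} (h : a + b = 0) : a = b := by
  rw [← add_zero a, ← add_self b, ← add_assoc, h, zero_add]

theorem special (A : Finset ι) (x1 x2 y1 y2 z1 z2 : ι) (hA : ∀ a ∈ A, v a ≠ 0)
    (hx : v x1 ∉ T v ⊥ A) (hx2 : v x1 + v x2 ∈ T v ⊥ A) (hx3 : v x1 ≠ v x2)
    (hy : v y1 ∉ T v ⊥ A) (hy1 : v y1 + v x1 ∉ T v ⊥ A)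
    (hy2 : v y1 + v y2 ∈ T v ⊥ A) (hy3 : v y1 ≠ v y2)
    (hz : v z1 + v y1 + v x1 ∈ T v ⊥ A) (hz2 : v z1 + v z2 ∈ T v ⊥ A) (hz3 : v z1 ≠ v z2)
    (h1 : v x1 + v y1 + v z1 ≠ 0) (h2 : v x2 + v y1 + v z1 ≠ 0) :
    Le ((X + 3) ^ 2 * P v ⊥ A)
      (P v ⊥ (insert z2 (insert z1 (insert y2 (insert y1 (insert x2 (insert x1 A))))))) := by
  set U := T v ⊥ A with hU
  set H := insert x2 (insert x1 A) with hH
  have hx' : v x2 ∉ U := fun h => hx (mem_of_add h (by rwa [add_comm]))
  have TH : T v ⊥ H = cn U (v x1) := by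
    rw [hH, T_insert', T_insert', ← hU, cn_of_mem]
    rw [mem_cn]; right; rwa [add_comm]
  have k1 : Le ((X + 2) * P v ⊥ A) (P v ⊥ H) := step2 v A x1 x2 hx' hx2 hx3
  have yH : v y1 ∉ T v ⊥ H := by rw [TH, mem_cn]; tauto
  have UH : U ≤ T v ⊥ H := by rw [TH]; exact le_sup_left
  have zyH : v y1 + v z1 ∈ T v ⊥ H := by
    rw [TH, mem_cn]; right; rwa [add_comm (v y1)]
  have y2H : v y2 ∉ T v ⊥ H := fun h => yH (mem_of_add h (by rw [add_comm]; exact UH hy2))
  have z1H : v z1 ∉ T v ⊥ H := fun h => yH (mem_of_add h (by rwa [add_comm]))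
  have z2H : v z2 ∉ T v ⊥ H := fun h => z1H (mem_of_add h (by rw [add_comm]; exact UH hz2))
  have k2 : Le ((X + 2) * P v ⊥ H) (P v ⊥ (insert y2 (insert y1 H))) :=
    step2 v H y1 y2 y2H (UH hy2) hy3
  have zy : v z1 + v y1 ∉ U := fun h => hx (mem_of_add h hz)
  have zy2 : v z1 + v y2 ∉ U := fun h => zy (add3 h (by rwa [add_comm]))
  have ne1 : ∀ a b : W, a + b ∉ U → a ≠ b := by
    intro a b h e; apply h; rw [e, add_self]; exact U.zero_mem
  have z1U : v z1 ∉ U := fun h => z1H (UH h)
  have n0 : v z1 ∉ (⊥ : Submodule K W) := fun h => z1U (le_T v ⊥ A h)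
  have yD : ∀ y : W, y ∉ T v ⊥ H → v z1 + y ∉ U → y ∉ cn ⊥ (v z1) := by
    intro y a b
    rw [mem_cn]; rintro (h | h)
    · exact a (le_T v ⊥ H h)
    · rw [mem_bot] at h; apply b; rw [add_comm, h]; exact U.zero_mem
  have k3 : Le (P v ⊥ H + P v ⊥ A) (P v (cn ⊥ (v z1)) (insert y2 (insert y1 H))) := by
    refine Le.trans ?_ (P_mono1 v _ (yD _ y2H zy2) ?_)
    · rw [P_dep v _ (fun h => yH (mem_T v ⊥ h)) (yD _ yH zy)
        (by rw [T_cn, mem_cn]; exact Or.inr zyH), P_cn v ⊥ z1H]
      refine (Le.refl _).add ?_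
      have e1 : P v (cn (cn ⊥ (v z1)) (v y1)) A = P v ⊥ A := by
        rw [P_cn, P_cn v ⊥ z1U]
        rw [T_cn, mem_cn]; rintro (h | h)
        · exact hy h
        · exact zy (by rwa [add_comm])
      have := P_mono v (cn (cn ⊥ (v z1)) (v y1)) A {x2, x1} (by
        have key : ∀ x, v x + v x1 ∈ U → v x + v y1 + v z1 ≠ 0 →
            v x ∉ cn (cn ⊥ (v z1)) (v y1) ∧ v x ∈ T v (cn (cn ⊥ (v z1)) (v y1)) A := by
          intro x a b
          have xH : v x ∈ T v ⊥ H := by rw [TH, mem_cn]; exact Or.inr a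
          constructor
          · simp only [mem_cn, mem_bot]
            rintro ((h | h) | (h | h))
            · rw [h, zero_add] at a; exact hx a
            · exact z1H (eq_of_add h ▸ xH)
            · exact yH (eq_of_add h ▸ xH)
            · exact b h
          · rw [T_cn, T_cn, mem_cn, mem_cn, mem_cn]
            right; right
            have := add3 a (show v x1 + (v y1 + v z1) ∈ U by
              rwa [show v x1 + (v y1 + v z1) = v z1 + v y1 + v x1 by abel])
            rwa [add_assoc]
        intro e he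
        rcases mem_insert.1 he with rfl | he
        · exact key _ (by rwa [add_comm]) h2
        · rw [mem_singleton.1 he]; exact key _ (by rw [add_self]; exact U.zero_mem) h1)
      rw [e1, insert_union, ← insert_eq] at this
      exact this
    · rw [T_insert', T_cn, mem_cn, mem_cn, mem_cn]
      right; left; rw [add_comm]; exact UH hy2
  have k4 : P v ⊥ (insert z1 (insert y2 (insert y1 H))) = P v ⊥ (insert y2 (insert y1 H)) +
      P v (cn ⊥ (v z1)) (insert y2 (insert y1 H)) := by
    refine P_dep v ⊥ ?_ n0 ?_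
    · simp only [mem_insert (b := y2), mem_insert (b := y1)]
      rintro (h | h | h)
      · exact ne1 _ _ zy2 (by rw [h])
      · exact ne1 _ _ zy (by rw [h])
      · exact z1H (mem_T v ⊥ h)
    · refine T_mono v ⊥ (subset_insert _ _) ?_
      rw [T_insert', mem_cn]; right; rwa [add_comm]
  have k5 := P_more v H {z1, y2, y1} z1 z2 (by simp) z2H (by
    intro b hb
    simp only [mem_insert, mem_singleton] at hb
    rcases hb with rfl | rfl | rfl
    · exact ⟨UH hz2, hz3⟩
    · exact ⟨add3 (by rw [add_comm]; exact UH hy2) (add3 zyH (UH hz2)),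
        (ne1 _ _ (fun h => zy2 (add3 hz2 h))).symm⟩
    · exact ⟨add3 zyH (UH hz2), (ne1 _ _ (fun h => zy (add3 hz2 h))).symm⟩)
  rw [insert_union, insert_union, ← insert_eq, k4] at k5
  refine Le.trans ?_ k5
  refine Le.trans ?_ ((k2.add k3).add (Le.refl _))
  have n4 : NN (X + 4) := by
    rw [show (X + 4 : ℤ[X]) = X + 3 + 1 by ring]; exact NN3.add NN_one
  exact ((k1.mul n4).add (Le.refl (P v ⊥ A))).of_eq (by ring) (by ring)

end

section
open Classical
variable {V : Type} [Fintype V] (G : SimpleGraph V)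

/-- functions that agree with a coboundary on the edges outside `A` -/
def NA (A : Finset (Sym2 V)) : Submodule K (Sym2 V → K) where
  carrier := {c | ∃ g : V → K, ∀ a b, G.Adj a b → s(a, b) ∉ A → c s(a, b) = g a + g b}
  add_mem' := by
    rintro c d ⟨g, hg⟩ ⟨h, hh⟩
    exact ⟨g + h, fun a b x y => by simp only [Pi.add_apply, hg a b x y, hh a b x y]; ring⟩
  zero_mem' := ⟨0, fun a b _ _ => by simp⟩
  smul_mem' := by
    rintro r c ⟨g, hg⟩
    exact ⟨r • g, fun a b x y => by simp only [Pi.smul_apply, hg a b x y, smul_eq_mul]; ring⟩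

abbrev WW := (Sym2 V → K) ⧸ NA G ∅

noncomputable def vv (e : Sym2 V) : WW G := (NA G ∅).mkQ (Pi.single e 1)

def dl (g : V → K) : Sym2 V → K := Sym2.lift ⟨fun a b => g a + g b, fun a b => add_comm _ _⟩

theorem NA_le (A : Finset (Sym2 V)) : NA G ∅ ≤ NA G A := by
  rintro c ⟨g, hg⟩; exact ⟨g, fun a b x _ => hg a b x (by simp)⟩

theorem T_eq (A : Finset (Sym2 V)) : T (vv G) ⊥ A = (NA G A).map (NA G ∅).mkQ := by
  apply le_antisymm
  · refine T_le _ bot_le fun e he => ⟨Pi.single e 1, ⟨0, fun a b _ y => ?_⟩, rfl⟩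
    rw [Pi.single_eq_of_ne (by rintro rfl; exact y he)]; simp
  · rintro _ ⟨c, ⟨g, hg⟩, rfl⟩
    have h1 : (NA G ∅).mkQ c = ∑ e ∈ A, (c e - dl g e) • vv G e := by
      simp only [vv, ← map_smul, ← map_sum]
      rw [mkQ_apply, mkQ_apply, Submodule.Quotient.eq]
      refine ⟨g, fun a b x _ => ?_⟩
      simp only [Pi.sub_apply, Finset.sum_apply, Pi.smul_apply, Pi.single_apply, smul_eq_mul,
        mul_ite, mul_one, mul_zero, sum_ite_eq]
      split_ifs with h
      · simp [dl]
      · rw [hg a b x h, sub_zero]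
    rw [h1]
    exact Submodule.sum_mem _ fun e he => smul_mem _ _ (mem_T _ ⊥ he)

theorem memT (A : Finset (Sym2 V)) (c : Sym2 V → K) :
    (NA G ∅).mkQ c ∈ T (vv G) ⊥ A ↔
      ∃ g : V → K, ∀ a b, G.Adj a b → s(a, b) ∉ A → c s(a, b) = g a + g b := by
  rw [T_eq, ← mem_comap, comap_map_mkQ, sup_eq_right.2 (NA_le G A)]; rfl

theorem rank_NA (Z : Finset (Sym2 V)) (hZ : Z ⊆ G.edgeFinset) :
    finrank K (NA G (G.edgeFinset \ Z)) +
      Nat.card (SimpleGraph.fromEdgeSet (Z : Set (Sym2 V))).ConnectedComponent + Z.card =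
      Fintype.card V + Fintype.card (Sym2 V) := by
  set H := SimpleGraph.fromEdgeSet (Z : Set (Sym2 V)) with hH
  let Θ : ((V → K) × ({e // e ∉ Z} → K)) →ₗ[K] (Sym2 V → K) :=
    { toFun := fun p e => if h : e ∈ Z then dl p.1 e else p.2 ⟨e, h⟩
      map_add' := by
        intro p q; ext e
        induction e using Sym2.ind with
        | h a b => simp only [Pi.add_apply]; split_ifs <;> simp [dl]; ring
      map_smul' := by
        intro r p; ext e
        induction e using Sym2.ind with
        | h a b => simp only [Pi.smul_apply]; split_ifs <;> simp [dl]; ring }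
  let Ψ : (H.ConnectedComponent → K) →ₗ[K] ((V → K) × ({e // e ∉ Z} → K)) :=
    { toFun := fun h => (fun a => h (H.connectedComponentMk a), 0)
      map_add' := by intro p q; ext <;> simp
      map_smul' := by intro r p; ext <;> simp }
  have adjZ : ∀ a b, s(a, b) ∈ Z → G.Adj a b := fun a b h => by simpa using hZ h
  have hr : LinearMap.range Θ = NA G (G.edgeFinset \ Z) := by
    ext c
    constructor
    · rintro ⟨p, rfl⟩
      refine ⟨p.1, fun a b x y => ?_⟩
      have : s(a, b) ∈ Z := by
        by_contra hc; exact y (mem_sdiff.2 ⟨by simpa using x, hc⟩)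
      simp [Θ, this, dl]
    · rintro ⟨g, hg⟩
      refine ⟨(g, fun e => c e.1), ?_⟩
      ext e
      induction e using Sym2.ind with
      | h a b =>
        simp only [Θ, LinearMap.coe_mk, AddHom.coe_mk]
        split_ifs with h
        · rw [hg a b (adjZ a b h) (by simp [h])]; rfl
        · rfl
  have hk : LinearMap.range Ψ = LinearMap.ker Θ := by
    ext p
    constructor
    · rintro ⟨h, rfl⟩
      rw [LinearMap.mem_ker]
      ext e
      induction e using Sym2.ind with
      | h a b =>
        simp only [Θ, Ψ, LinearMap.coe_mk, AddHom.coe_mk, Pi.zero_apply]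
        split_ifs with h'
        · have : H.connectedComponentMk a = H.connectedComponentMk b :=
            SimpleGraph.ConnectedComponent.connectedComponentMk_eq_of_adj
              (by simp [hH, h', (adjZ a b h').ne])
          simp only [dl, Sym2.lift_mk, this]; exact add_self _
        · rfl
    · intro hp
      rw [LinearMap.mem_ker] at hp
      have h1 : ∀ a b, H.Adj a b → p.1 a = p.1 b := by
        intro a b h
        have h' : s(a, b) ∈ Z := by simp [hH] at h; exact h.1
        have := congrFun hp s(a, b)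
        simp only [Θ, LinearMap.coe_mk, AddHom.coe_mk, h', dif_pos, dl, Sym2.lift_mk] at this
        exact eq_of_add this
      have h2 : ∀ a b, H.Reachable a b → p.1 a = p.1 b := by
        rintro a b ⟨w⟩
        induction w with
        | nil => rfl
        | cons h _ ih => rw [h1 _ _ h, ih]
      refine ⟨fun c => Quot.lift p.1 h2 c, ?_⟩
      ext e
      · rfl
      · have := congrFun hp e.1
        simp only [Θ, LinearMap.coe_mk, AddHom.coe_mk, e.2, dif_neg, not_false_eq_true] at this
        simpa [Ψ] using this.symm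
  have hi : Function.Injective Ψ := by
    intro h h' e
    ext c
    induction c using SimpleGraph.ConnectedComponent.ind with
    | _ a => exact congrFun (congrArg Prod.fst e) a
  have f1 := Θ.finrank_range_add_finrank_ker
  rw [hr, ← hk, LinearMap.finrank_range_of_inj hi, finrank_prod, finrank_fintype_fun_eq_card,
    finrank_fintype_fun_eq_card, finrank_fintype_fun_eq_card, Fintype.card_subtype_compl,
    Fintype.card_coe] at f1
  have := card_le_univ Z
  rw [Nat.card_eq_fintype_card]
  omega

theorem rank_T (A : Finset (Sym2 V)) :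
    finrank K (T (vv G) ⊥ A) + finrank K (NA G ∅) = finrank K (NA G A) := by
  rw [T_eq]
  have h1 := (quotientQuotientEquivQuotient (NA G ∅) (NA G A) (NA_le G A)).finrank_eq
  have h2 := finrank_quotient_add_finrank ((NA G A).map (NA G ∅).mkQ)
  have h3 := finrank_quotient_add_finrank (NA G A)
  have h4 := finrank_quotient_add_finrank (NA G ∅)
  have key : finrank K ((Sym2 V → K) ⧸ NA G A) + finrank K ((NA G A).map (NA G ∅).mkQ) =
      finrank K ((Sym2 V → K) ⧸ NA G ∅) := by rw [← h1]; exact h2
  have k2 : finrank K ((Sym2 V → K) ⧸ NA G A) + finrank K (NA G A) = finrank K (Sym2 V → K) := h3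
  have k3 : finrank K ((Sym2 V → K) ⧸ NA G ∅) + finrank K (NA G ∅) = finrank K (Sym2 V → K) := h4
  have : finrank K ((NA G A).map (NA G ∅).mkQ) + finrank K (NA G ∅) = finrank K (NA G A) := by
    omega
  exact this

theorem rank_formula (hc : G.Connected) (Z : Finset (Sym2 V)) (hZ : Z ⊆ G.edgeFinset) :
    finrank K (T (vv G) ⊥ (G.edgeFinset \ Z)) +
      Nat.card (SimpleGraph.fromEdgeSet (Z : Set (Sym2 V))).ConnectedComponent + Z.card =
      G.edgeFinset.card + 1 := by
  have h1 := rank_NA G Z hZ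
  have h2 := rank_NA G G.edgeFinset subset_rfl
  have h3 := rank_T G (G.edgeFinset \ Z)
  rw [sdiff_self, SimpleGraph.coe_edgeFinset, SimpleGraph.fromEdgeSet_edgeSet] at h2
  have h4 : Nat.card G.ConnectedComponent = 1 := by
    have := hc.preconnected.subsingleton_connectedComponent
    have := hc.nonempty
    exact Nat.card_unique
  rw [h4] at h2
  change finrank K (NA G ∅) + 1 + _ = _ at h2
  omega

theorem rank_E (hc : G.Connected) :
    finrank K (T (vv G) ⊥ G.edgeFinset) + Fintype.card V = G.edgeFinset.card + 1 := by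
  have h := rank_formula G hc ∅ (empty_subset _)
  rw [sdiff_empty, coe_empty, SimpleGraph.fromEdgeSet_empty, card_empty] at h
  have : Nat.card (⊥ : SimpleGraph V).ConnectedComponent = Fintype.card V := by
    rw [← Nat.card_eq_fintype_card]
    refine (Nat.card_eq_of_bijective (⊥ : SimpleGraph V).connectedComponentMk ⟨?_, ?_⟩).symm
    · intro a b h
      exact (SimpleGraph.reachable_bot).1 (SimpleGraph.ConnectedComponent.exact h)
    · exact Quot.mk_surjective
  omega

theorem coeff_flow (hc : G.Connected) (i : ℕ) :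
    |(flowPoly G).coeff i| = (P (vv G) ⊥ G.edgeFinset).coeff i := by
  set r := finrank K (T (vv G) ⊥ G.edgeFinset) with hr
  have : (flowPoly G).coeff i = (-1) ^ (r + i) * (P (vv G) ⊥ G.edgeFinset).coeff i := by
    unfold flowPoly P
    rw [finsetSum_coeff, finsetSum_coeff, mul_sum]
    refine sum_nbij' (fun Z => G.edgeFinset \ Z) (fun Z => G.edgeFinset \ Z) ?_ ?_ ?_ ?_ ?_
    · intro Z _; simp
    · intro Z _; simp
    · intro Z hZ; exact Finset.sdiff_sdiff_eq_self (mem_powerset.1 hZ)
    · intro Z hZ; exact Finset.sdiff_sdiff_eq_self (mem_powerset.1 hZ)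
    · intro Z hZ
      have hZ' := mem_powerset.1 hZ
      have h1 := rank_formula G hc Z hZ'
      have h2 := rank_E G hc
      have h3 := Submodule.finrank_mono (T_mono (vv G) ⊥ (sdiff_subset (s := G.edgeFinset) (t := Z)))
      rw [finrank_bot, ← hr, card_sdiff_of_subset hZ']
      rw [← hr] at h2 h3
      set ρ := finrank K (T (vv G) ⊥ (G.edgeFinset \ Z))
      rw [show Z.card + Nat.card (SimpleGraph.fromEdgeSet (Z : Set (Sym2 V))).ConnectedComponent
        - Fintype.card V = r - ρ by omega]
      have e : ∀ k : ℕ, ((-1 : ℤ[X]) ^ k) = C ((-1) ^ k) := by intro k; simp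
      rw [e, e, coeff_C_mul, coeff_C_mul, coeff_X_pow]
      split_ifs with h
      · obtain ⟨d, hd⟩ : ∃ d, r = ρ + d := ⟨r - ρ, by omega⟩
        have : i = d := by omega
        rw [this, hd, mul_one, mul_one, ← pow_add,
          show ρ + d + d + (G.edgeFinset.card - Z.card + ρ + 0) =
            G.edgeFinset.card - Z.card + 2 * (ρ + d) by ring, pow_add, pow_mul]
        simp
      · simp
  rw [this, abs_mul, abs_pow, abs_neg, abs_one, one_pow, one_mul, abs_of_nonneg (P_NN _ _ _ i)]

end

end Pool.Agent.H5.FlowLow
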