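import Pool.Agent.H5.FlowLow2

set_option autoImplicit false
set_option linter.unusedSectionVars false

namespace Pool.Agent.H5.FlowLow
open Finset Polynomial Module Submodule
open Classical

variable {V : Type} [Fintype V] {G : SimpleGraph V}

theorem eqv {e e' : Sym2 V} (h : vv G e = vv G e') : ∃ g : V → K, ∀ a b, G.Adj a b →
    g a + g b = (if s(a, b) = e then 1 else 0) + (if s(a, b) = e' then 1 else 0) := by
  have : (NA G ∅).mkQ (Pi.single e 1 + Pi.single e' 1) ∈ T (vv G) ⊥ ∅ := by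
    rw [map_add]
    change vv G e + vv G e' ∈ _
    rw [h, add_self]; exact zero_mem _
  obtain ⟨g, hg⟩ := (memT G ∅ _).1 this
  exact ⟨g, fun a b x => by rw [← hg a b x (by simp)]; simp [Pi.single_apply]⟩

theorem eqv' {e e' : Sym2 V} (g : V → K) (hg : ∀ a b, G.Adj a b →
    g a + g b = (if s(a, b) = e then 1 else 0) + (if s(a, b) = e' then 1 else 0)) :
    vv G e = vv G e' := by
  have := (memT G ∅ (Pi.single e 1 + Pi.single e' 1)).2
    ⟨g, fun a b x _ => by rw [hg a b x]; simp [Pi.single_apply]⟩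
  rw [T_empty, mem_bot, map_add] at this
  exact eq_of_add this

structure Cub (G : SimpleGraph V) : Prop where
  conn : G.Connected
  br : ∀ e ∈ G.edgeSet, ¬ G.IsBridge e
  deg : ∀ u, G.degree u = 3

theorem Cub.ne0 (h : Cub G) {a b : V} (hab : G.Adj a b) : vv G s(a, b) ≠ 0 := by
  intro h0
  obtain ⟨g, hg⟩ := (memT G ∅ (Pi.single s(a, b) 1)).1 (by
    change vv G _ ∈ _; rw [h0]; exact zero_mem _)
  apply h.br s(a, b) hab
  rw [SimpleGraph.isBridge_iff]
  intro hr
  have h2 : ∀ x y, (G.deleteEdges {s(a, b)}).Reachable x y → g x = g y := by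
    rintro x y ⟨w⟩
    induction w with
    | nil => rfl
    | cons h _ ih =>
      rw [← ih]
      rw [SimpleGraph.deleteEdges_adj] at h
      have := hg _ _ h.1 (by simp)
      rw [Pi.single_eq_of_ne (by simpa using h.2)] at this
      exact eq_of_add this.symm
  have := hg a b hab (by simp)
  rw [h2 a b hr, add_self, Pi.single_eq_same] at this
  exact one_ne_zero this

theorem Cub.star (h : Cub G) {u x : V} (hx : G.Adj u x) : ∃ y z, G.Adj u y ∧ G.Adj u z ∧
    x ≠ y ∧ x ≠ z ∧ y ≠ z ∧ (∀ t, G.Adj u t → t = x ∨ t = y ∨ t = z) ∧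
    vv G s(u, y) + vv G s(u, z) = vv G s(u, x) := by
  have h1 : ((G.neighborFinset u).erase x).card = 2 := by
    rw [card_erase_of_mem (by simpa using hx), SimpleGraph.card_neighborFinset_eq_degree, h.deg]
  obtain ⟨y, z, hyz, e⟩ := card_eq_two.1 h1
  have hy : y ∈ (G.neighborFinset u).erase x := by rw [e]; simp
  have hz : z ∈ (G.neighborFinset u).erase x := by rw [e]; simp
  simp only [mem_erase, SimpleGraph.mem_neighborFinset] at hy hz
  have all : ∀ t, G.Adj u t → t = x ∨ t = y ∨ t = z := by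
    intro t ht
    by_cases htx : t = x
    · exact Or.inl htx
    · have : t ∈ (G.neighborFinset u).erase x := by simp [htx, ht]
      rw [e] at this
      right; simpa using this
  refine ⟨y, z, hy.2, hz.2, hy.1.symm, hz.1.symm, hyz, all, ?_⟩
  apply eq_of_add
  have := (memT G ∅ (Pi.single s(u, y) 1 + Pi.single s(u, z) 1 + Pi.single s(u, x) 1)).2
    ⟨fun t => if t = u then 1 else 0, fun a b hab _ => ?_⟩
  · rwa [T_empty, mem_bot, map_add, map_add] at this
  · have n1 := hx.ne; have n2 := hy.2.ne; have n3 := hz.2.ne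
    have n4 := hy.1; have n5 := hz.1; have n6 := hab.ne
    simp only [Pi.add_apply, Pi.single_apply, Sym2.eq_iff]
    by_cases ha : a = u
    · subst ha
      rcases all b hab with rfl | rfl | rfl <;> simp [*, Ne.symm]
    · by_cases hb : b = u
      · subst hb
        rcases all a hab.symm with rfl | rfl | rfl <;> simp [*, Ne.symm]
      · simp [ha, hb]

theorem Cub.ne (h : Cub G) {u x y : V} (hx : G.Adj u x) (hy : G.Adj u y) (hxy : x ≠ y) :
    vv G s(u, x) ≠ vv G s(u, y) := by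
  obtain ⟨y', z', a1, a2, a3, a4, a5, a6, a7⟩ := h.star hx
  intro e
  rcases a6 y hy with rfl | rfl | rfl
  · exact hxy rfl
  · rw [e, add_eq_left] at a7; exact h.ne0 a2 a7
  · rw [e, add_eq_right] at a7; exact h.ne0 a1 a7

theorem Cub.boundary (h : Cub G) (U : Submodule K (WW G)) (S : Set V)
    (hcut : ∀ a b, G.Adj a b → a ∈ S → b ∉ S → vv G s(a, b) ∈ U)
    (hin : ∃ a b, G.Adj a b ∧ vv G s(a, b) ∈ U)
    (hout : ∃ a b, G.Adj a b ∧ a ∈ S ∧ vv G s(a, b) ∉ U) :
    ∃ u y z, u ∈ S ∧ G.Adj u y ∧ G.Adj u z ∧ y ≠ z ∧ vv G s(u, z) ∉ U ∧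
      vv G s(u, y) + vv G s(u, z) ∈ U := by
  by_contra hc
  have step : ∀ u x, G.Adj u x → (u ∈ S ∧ ∃ y, G.Adj u y ∧ vv G s(u, y) ∉ U) →
      vv G s(u, x) ∉ U := by
    rintro u x hx ⟨hu, t, ht, ht'⟩ hxU
    obtain ⟨y, z, a1, a2, a3, a4, a5, a6, a7⟩ := h.star hx
    apply hc
    rcases a6 t ht with rfl | rfl | rfl
    · exact absurd hxU ht'
    · exact ⟨u, z, t, hu, a2, a1, a5.symm, ht', by rwa [add_comm, a7]⟩
    · exact ⟨u, y, t, hu, a1, a2, a5, ht', by rwa [a7]⟩
  have all : ∀ u x, G.Reachable u x → (u ∈ S ∧ ∃ y, G.Adj u y ∧ vv G s(u, y) ∉ U) →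
      (x ∈ S ∧ ∃ y, G.Adj x y ∧ vv G s(x, y) ∉ U) := by
    rintro u x ⟨w⟩
    induction w with
    | nil => exact id
    | @cons a b c hab _ ih =>
      intro ha
      have := step a b hab ha
      refine ih ⟨?_, a, hab.symm, by rwa [Sym2.eq_swap]⟩
      by_contra hb
      exact this (hcut a b hab ha.1 hb)
  obtain ⟨a, b, hab, ha, ha'⟩ := hout
  obtain ⟨c, d, hcd, hc'⟩ := hin
  exact step c d hcd (all a c (h.conn.preconnected a c) ⟨ha, b, hab, ha'⟩) hc'

theorem Cub.next (h : Cub G) (U : Submodule K (WW G)) {u y : V} {p : WW G} (hy : G.Adj u y)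
    (hp : vv G s(u, y) + p ∈ U) (hn : p ∉ U) (hall : ∀ t, G.Adj y t → vv G s(y, t) ∈ cn U p) :
    ∃ y', G.Adj y y' ∧ y' ≠ u ∧ vv G s(y, y') + p ∈ U := by
  obtain ⟨a, b, a1, a2, a3, a4, a5, a6, a7⟩ := h.star hy.symm
  rcases mem_cn.1 (hall a a1) with h1 | h1
  · rcases mem_cn.1 (hall b a2) with h2 | h2
    · have := add_mem h1 h2
      rw [a7, Sym2.eq_swap] at this
      exact absurd (mem_of_add this hp) hn
    · exact ⟨b, a2, a4.symm, h2⟩
  · exact ⟨a, a1, a3.symm, h1⟩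

theorem Cub.path (h : Cub G) {u y z y' z' : V} (hy : G.Adj u y) (hz : G.Adj u z) (hyz : y ≠ z)
    (hy' : y' ≠ u) (hz' : z' ≠ u)
    (e1 : vv G s(u, z) = vv G s(y, y')) (e2 : vv G s(u, y) = vv G s(z, z'))
    (a1 : G.Adj y y') (a2 : G.Adj z z') : False := by
  obtain ⟨g1, h1⟩ := eqv e1
  obtain ⟨g2, h2⟩ := eqv e2
  have n1 := hy.ne; have n2 := hz.ne
  have b1 := h1 u y hy
  have b2 := h1 u z hz
  have b3 := h1 y y' a1
  have c1 := h2 u y hy
  have c2 := h2 u z hz
  have c3 := h2 z z' a2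
  have d1 : s(u, y) ≠ s(u, z) := by simp [hyz, n2]
  have d2 : s(u, y) ≠ s(y, y') := by simp [n1, hy'.symm]
  have d3 : s(u, z) ≠ s(y, y') := by simp [n1, hyz.symm]
  have d4 : s(u, y) ≠ s(z, z') := by simp [n2, hyz]
  have d5 : s(u, z) ≠ s(z, z') := by simp [n2, hz'.symm]
  simp only [d1, d2, d3, d4, d5, d1.symm, d3.symm, d4.symm, if_true, if_false] at b1 b2 b3 c1 c2 c3
  apply h.ne hy hz hyz
  apply eqv' (fun t => (g1 t + g1 u + 1) * (g2 t + g2 u + 1))
  have key : ∀ a b, G.Adj a b → s(a, b) = s(u, y) ∨ s(a, b) = s(u, z) ∨ s(a, b) = s(y, y') ∨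
      s(a, b) = s(z, z') →
      (g1 a + g1 u + 1) * (g2 a + g2 u + 1) + (g1 b + g1 u + 1) * (g2 b + g2 u + 1) =
      (if s(a, b) = s(u, y) then 1 else 0) + (if s(a, b) = s(u, z) then 1 else 0) := by
    intro a b _ hab
    have sw : ∀ p q, s(a, b) = s(p, q) →
        (g1 a + g1 u + 1) * (g2 a + g2 u + 1) + (g1 b + g1 u + 1) * (g2 b + g2 u + 1) =
        (g1 p + g1 u + 1) * (g2 p + g2 u + 1) + (g1 q + g1 u + 1) * (g2 q + g2 u + 1) := by
      intro p q e
      rcases Sym2.eq_iff.1 e with ⟨rfl, rfl⟩ | ⟨rfl, rfl⟩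
      · rfl
      · exact add_comm _ _
    rcases hab with e | e | e | e <;> rw [sw _ _ e, e] <;>
      simp only [d1, d2, d3, d4, d5, d1.symm, d2.symm, d3.symm, d4.symm, d5.symm, if_true,
        if_false] <;>
      revert b1 b2 b3 c1 c2 c3 <;>
      generalize g1 u = x1 <;> generalize g1 y = x2 <;> generalize g1 z = x3 <;>
      generalize g1 y' = x4 <;> generalize g2 u = x5 <;> generalize g2 y = x6 <;>
      generalize g2 z = x7 <;> generalize g2 z' = x8
    · revert x1 x2 x3 x4 x5 x6 x7 x8; decide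
    · revert x1 x2 x3 x4 x5 x6 x7 x8; decide
    · generalize g2 y' = x9; revert x1 x2 x3 x4 x5 x6 x7 x8 x9; decide
    · generalize g1 z' = x9; revert x1 x2 x3 x4 x5 x6 x7 x8 x9; decide
  intro a b hab
  by_cases hc : s(a, b) = s(u, y) ∨ s(a, b) = s(u, z) ∨ s(a, b) = s(y, y') ∨ s(a, b) = s(z, z')
  · exact key a b hab hc
  · push Not at hc
    have f1 := h1 a b hab
    have f2 := h2 a b hab
    simp only [hc.1, hc.2.1, hc.2.2.1, hc.2.2.2, if_false, add_zero] at f1 f2 ⊢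
    rw [eq_of_add f1, eq_of_add f2]; exact add_self _

theorem rk_ins (A : Finset (Sym2 V)) {e : Sym2 V} (he : vv G e ∉ T (vv G) ⊥ A) :
    finrank K (T (vv G) ⊥ (insert e A)) = finrank K (T (vv G) ⊥ A) + 1 := by
  rw [T_insert', rk_cn he]

theorem T_ins2 (A : Finset (Sym2 V)) {a b : Sym2 V} (h : vv G a + vv G b ∈ T (vv G) ⊥ A) :
    T (vv G) ⊥ (insert b (insert a A)) = cn (T (vv G) ⊥ A) (vv G a) := by
  rw [T_insert', T_insert', cn_of_mem]
  rw [mem_cn]; right; rwa [add_comm]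

theorem cn_congr {U : Submodule K (WW G)} {a b : WW G} (h : a + b ∈ U) : cn U a = cn U b := by
  ext x; rw [mem_cn, mem_cn]
  exact or_congr Iff.rfl ⟨fun k => add3 k h, fun k => add3 k (by rwa [add_comm])⟩

theorem Cub.grow (h : Cub G) (S : Set V) : ∀ (k : ℕ) (A : Finset (Sym2 V)),
    finrank K (WW G) - finrank K (T (vv G) ⊥ A) = k →
    (∀ a b, G.Adj a b → a ∈ S → b ∉ S → vv G s(a, b) ∈ T (vv G) ⊥ A) →
    (∃ a b, G.Adj a b ∧ vv G s(a, b) ∈ T (vv G) ⊥ A) →
    (∃ a b, G.Adj a b ∧ a ∈ S ∧ vv G s(a, b) ∉ T (vv G) ⊥ A) →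
    ∃ (A' : Finset (Sym2 V)) (j : ℕ),
      (∀ e ∈ A', e ∈ A ∨ ∃ a b, G.Adj a b ∧ a ∈ S ∧ e = s(a, b)) ∧
      T (vv G) ⊥ A ≤ T (vv G) ⊥ A' ∧
      finrank K (T (vv G) ⊥ A') = finrank K (T (vv G) ⊥ A) + j + 1 ∧
      (∀ a b, G.Adj a b → a ∈ S → vv G s(a, b) ∈ T (vv G) ⊥ A') ∧
      Le ((X + 2) ^ j * (X + 3) * P (vv G) ⊥ A) (P (vv G) ⊥ A') := by
  intro k
  induction k using Nat.strong_induction_on with
  | _ k ih =>
    intro A hk hcut hin hout
    obtain ⟨u, y, z, hu, hy, hz, hyz, hzU, hs⟩ := h.boundary _ S hcut hin hout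
    set U := T (vv G) ⊥ A with hU
    have hyU : vv G s(u, y) ∉ U := fun k => hzU (mem_of_add k hs)
    have hne := h.ne hy hz hyz
    have T1 := T_ins2 A hs
    by_cases hall : ∀ a b, G.Adj a b → a ∈ S → vv G s(a, b) ∈ cn U (vv G s(u, y))
    · have fin : ∀ a b, G.Adj a b → a ∈ S → vv G s(a, b) + vv G s(u, y) ∈ U →
          vv G s(a, b) ≠ vv G s(u, y) → vv G s(a, b) ≠ vv G s(u, z) →
          ∃ (A' : Finset (Sym2 V)) (j : ℕ),
          (∀ e ∈ A', e ∈ A ∨ ∃ a b, G.Adj a b ∧ a ∈ S ∧ e = s(a, b)) ∧ U ≤ T (vv G) ⊥ A' ∧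
          finrank K (T (vv G) ⊥ A') = finrank K U + j + 1 ∧
          (∀ a b, G.Adj a b → a ∈ S → vv G s(a, b) ∈ T (vv G) ⊥ A') ∧
          Le ((X + 2) ^ j * (X + 3) * P (vv G) ⊥ A) (P (vv G) ⊥ A') := by
        intro a b hab ha k1 k2 k3
        have T2 : T (vv G) ⊥ (insert s(a, b) (insert s(u, z) (insert s(u, y) A))) =
            cn U (vv G s(u, y)) := by rw [T_insert', T1, cn_of_mem (hall a b hab ha)]
        refine ⟨insert s(a, b) (insert s(u, z) (insert s(u, y) A)), 0, ?_, ?_, ?_, ?_, ?_⟩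
        · intro e he
          simp only [mem_insert] at he
          rcases he with rfl | rfl | rfl | he
          · exact Or.inr ⟨a, b, hab, ha, rfl⟩
          · exact Or.inr ⟨u, z, hz, hu, rfl⟩
          · exact Or.inr ⟨u, y, hy, hu, rfl⟩
          · exact Or.inl he
        · rw [T2]; exact le_sup_left
        · rw [T2, rk_cn hyU]
        · rw [T2]; exact hall
        · rw [pow_zero, one_mul]
          exact step3 _ A _ _ _ (fun k => hyU (mem_of_add k k1)) (by rwa [add_comm])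
            (add3 (by rwa [add_comm]) (by rwa [add_comm])) hne k2.symm k3.symm
      have yS : y ∈ S := by by_contra k; exact hyU (hcut u y hy hu k)
      have zS : z ∈ S := by by_contra k; exact hzU (hcut u z hz hu k)
      obtain ⟨y', a1, a2, a3⟩ := h.next U hy (p := vv G s(u, y))
        (by rw [add_self]; exact U.zero_mem) hyU (fun t ht => hall y t ht yS)
      obtain ⟨z', b1, b2, b3⟩ := h.next U hz (p := vv G s(u, y))
        (by rwa [add_comm]) hyU (fun t ht => hall z t ht zS)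
      by_cases c1 : vv G s(y, y') = vv G s(u, z)
      · by_cases c2 : vv G s(z, z') = vv G s(u, y)
        · exact (h.path hy hz hyz a2 b2 c1.symm c2.symm a1 b1).elim
        · refine fin z z' b1 zS b3 c2 ?_
          rw [Sym2.eq_swap (a := u)]; exact h.ne b1 hz.symm b2
      · refine fin y y' a1 yS a3 ?_ c1
        rw [Sym2.eq_swap (a := u)]; exact h.ne a1 hy.symm a2
    · push Not at hall
      have r1 : finrank K (T (vv G) ⊥ (insert s(u, z) (insert s(u, y) A))) = finrank K U + 1 := by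
        rw [T1, rk_cn hyU]
      have r2 := Submodule.finrank_le (T (vv G) ⊥ (insert s(u, z) (insert s(u, y) A)))
      have le1 : U ≤ T (vv G) ⊥ (insert s(u, z) (insert s(u, y) A)) := by
        rw [T1]; exact le_sup_left
      obtain ⟨A', j, k1, k2, k3, k4, k5⟩ := ih _ (by omega) (insert s(u, z) (insert s(u, y) A)) rfl
        (fun a b x1 x2 x3 => le1 (hcut a b x1 x2 x3))
        (by obtain ⟨a, b, x1, x2⟩ := hin; exact ⟨a, b, x1, le1 x2⟩) (by rw [T1]; exact hall)
      refine ⟨A', j + 1, ?_, le1.trans k2, by omega, k4, ?_⟩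
      · intro e he
        rcases k1 e he with he | he
        · simp only [mem_insert] at he
          rcases he with rfl | rfl | he
          · exact Or.inr ⟨u, z, hz, hu, rfl⟩
          · exact Or.inr ⟨u, y, hy, hu, rfl⟩
          · exact Or.inl he
        · exact Or.inr he
      · refine Le.trans ?_ k5
        exact ((step2 _ A _ _ hzU hs hne).mul ((NN2.pow j).mul NN3)).of_eq (by ring) rfl

end Pool.Agent.H5.FlowLow
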