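import Pool.Agent.H5.FlowLow3

set_option autoImplicit false
set_option linter.unusedSectionVars false

namespace Pool.Agent.H5.FlowLow
open Finset Polynomial Module Submodule
open Classical

variable {V : Type} [Fintype V] {G : SimpleGraph V}

theorem memE {a b : V} (h : G.Adj a b) : s(a, b) ∈ G.edgeFinset := by simpa using h

theorem ofE {e : Sym2 V} (h : e ∈ G.edgeFinset) : ∃ a b, G.Adj a b ∧ e = s(a, b) := by
  induction e using Sym2.ind with
  | h a b => exact ⟨a, b, by simpa using h, rfl⟩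

def Goal (G : SimpleGraph V) : Prop :=
  Le ((X + 1) * (X + 2) ^ (finrank K (T (vv G) ⊥ G.edgeFinset) - 3) * (X + 3) ^ 2)
    (P (vv G) ⊥ G.edgeFinset)

theorem Cub.top (h : Cub G) {A : Finset (Sym2 V)} (hA : A ⊆ G.edgeFinset)
    (hall : ∀ a b, G.Adj a b → vv G s(a, b) ∈ T (vv G) ⊥ A) :
    T (vv G) ⊥ A = T (vv G) ⊥ G.edgeFinset ∧ Le (P (vv G) ⊥ A) (P (vv G) ⊥ G.edgeFinset) := by
  constructor
  · refine le_antisymm (T_mono _ _ hA) (T_le _ bot_le fun e he => ?_)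
    obtain ⟨a, b, x, rfl⟩ := ofE he; exact hall a b x
  · have := P_mono (vv G) ⊥ A G.edgeFinset (fun e he => by
      obtain ⟨a, b, x, rfl⟩ := ofE he; exact ⟨h.ne0 x, hall a b x⟩)
    rwa [union_eq_left.2 hA] at this

theorem out_of_rank {A : Finset (Sym2 V)}
    (hr : finrank K (T (vv G) ⊥ A) < finrank K (T (vv G) ⊥ G.edgeFinset)) :
    ∃ a b, G.Adj a b ∧ vv G s(a, b) ∉ T (vv G) ⊥ A := by
  by_contra hc
  push Not at hc
  have : T (vv G) ⊥ G.edgeFinset ≤ T (vv G) ⊥ A := T_le _ bot_le fun e he => by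
    obtain ⟨a, b, x, rfl⟩ := ofE he; exact hc a b x
  have := Submodule.finrank_mono this
  omega

theorem Cub.finish (h : Cub G) {A : Finset (Sym2 V)} (hA : A ⊆ G.edgeFinset) (i : ℕ)
    (hr : finrank K (T (vv G) ⊥ A) = i + 2)
    (hin : ∃ a b, G.Adj a b ∧ vv G s(a, b) ∈ T (vv G) ⊥ A)
    (hout : ∃ a b, G.Adj a b ∧ vv G s(a, b) ∉ T (vv G) ⊥ A)
    (hP : Le ((X + 1) * (X + 2) ^ i * (X + 3)) (P (vv G) ⊥ A)) : Goal G := by
  obtain ⟨A', j, k1, k2, k3, k4, k5⟩ := h.grow Set.univ _ A rfl (fun a b _ _ x => absurd trivial x)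
    hin (by obtain ⟨a, b, x, y⟩ := hout; exact ⟨a, b, x, trivial, y⟩)
  obtain ⟨t1, t2⟩ := h.top (A := A') (fun e he => by
    rcases k1 e he with x | ⟨a, b, x, _, rfl⟩
    · exact hA x
    · exact memE x) (fun a b x => k4 a b x trivial)
  unfold Goal
  rw [← t1, k3, hr, show i + 2 + j + 1 - 3 = i + j by omega]
  refine Le.trans ?_ (k5.trans t2)
  exact (hP.mul ((NN2.pow j).mul NN3)).of_eq (by ring) rfl

theorem P_empty : P (vv G) ⊥ ∅ = 1 := by
  unfold P; rw [powerset_empty, sum_singleton, T_empty]; simp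

theorem Cub.one (h : Cub G) {a b : V} (hab : G.Adj a b) :
    T (vv G) ⊥ {s(a, b)} = cn ⊥ (vv G s(a, b)) ∧ finrank K (T (vv G) ⊥ {s(a, b)}) = 1 ∧
      P (vv G) ⊥ {s(a, b)} = X + 1 := by
  have h0 : vv G s(a, b) ∉ T (vv G) ⊥ ∅ := by rw [T_empty]; exact h.ne0 hab
  rw [← insert_empty_eq]
  refine ⟨by rw [T_insert', T_empty], ?_, by rw [P_free _ _ h0, P_empty, mul_one]⟩
  rw [rk_ins _ h0, T_empty, finrank_bot]

theorem Cub.notcn (h : Cub G) {u x y : V} (hx : G.Adj u x) (hy : G.Adj u y) (hxy : x ≠ y) :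
    vv G s(u, y) ∉ cn ⊥ (vv G s(u, x)) := by
  rw [mem_cn]; rintro (k | k)
  · exact h.ne0 hy k
  · exact h.ne hy hx hxy.symm (eq_of_add k)

theorem Cub.nonsimple (h : Cub G) {a a' : V} (ha : G.Adj a a') {e' : Sym2 V} (hne : s(a, a') ≠ e')
    (he : vv G s(a, a') = vv G e') : Goal G := by
  obtain ⟨g, hg⟩ := eqv he
  obtain ⟨t1, t2, t3⟩ := h.one ha
  have ga : g a + g a' = 1 := by simpa [hne] using hg a a' ha
  have cut : ∀ x y, G.Adj x y → g x = g a → g y ≠ g a → s(x, y) = s(a, a') ∨ s(x, y) = e' := by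
    intro x y k k1 k2
    by_contra hc
    push Not at hc
    have := hg x y k
    simp only [hc.1, hc.2, if_false, add_zero] at this
    exact k2 (by rw [← k1, eq_of_add this])
  have cutv : ∀ x y, G.Adj x y → g x = g a → g y ≠ g a → vv G s(x, y) = vv G s(a, a') := by
    intro x y k k1 k2
    rcases cut x y k k1 k2 with e | e <;> rw [e]
    exact he.symm
  have ga' : g a' ≠ g a := by intro e; rw [e, add_self] at ga; exact zero_ne_one ga
  obtain ⟨A, j, k1, k2, k3, k4, k5⟩ := h.grow {x | g x = g a} _ {s(a, a')} rfl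
    (fun x y k k1 k2 => by rw [cutv x y k k1 k2]; exact mem_T _ _ (by simp))
    ⟨a, a', ha, mem_T _ _ (by simp)⟩ (by
      obtain ⟨y, z, a1, a2, a3, -⟩ := h.star ha
      exact ⟨a, y, a1, rfl, by rw [t1]; exact h.notcn ha a1 a3⟩)
  refine h.finish (A := A) (fun e he => ?_) j (by omega) ⟨a, a', ha, k4 a a' ha rfl⟩ ?_
    (k5.of_eq (by rw [t3]; ring) rfl)
  · rcases k1 e he with x | ⟨a, b, x, _, rfl⟩
    · rw [mem_singleton.1 x]; exact memE ha
    · exact memE x
  · obtain ⟨y, z, a1, a2, a3, -⟩ := h.star ha.symm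
    refine ⟨a', y, a1, fun hm => ?_⟩
    have nc := h.notcn ha.symm a1 a3
    rw [Sym2.eq_swap (a := a') (b := a)] at nc
    have gy : g y ≠ g a := by
      intro e
      have := cutv y a' a1.symm e ga'
      rw [Sym2.eq_swap] at this
      apply nc; rw [this]; exact mem_cn.2 (Or.inr (by rw [add_self]; exact zero_mem _))
    obtain ⟨f, hf⟩ := (memT G A (Pi.single s(a', y) 1)).1 hm
    have := (memT G {s(a, a'), e'} (Pi.single s(a', y) 1)).2
      ⟨fun t => f t * (g t + g a), fun p q k hk => ?_⟩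
    · apply nc
      refine T_le (vv G) le_sup_left ?_ this
      intro e he'
      simp only [mem_insert, mem_singleton] at he'
      rcases he' with rfl | rfl
      · exact mem_cn.2 (Or.inr (by rw [add_self]; exact zero_mem _))
      · exact mem_cn.2 (Or.inr (by rw [← he, add_self]; exact zero_mem _))
    · simp only [mem_insert, mem_singleton, not_or] at hk
      have gpq : g p = g q := by
        have := hg p q k
        simp only [hk.1, hk.2, if_false, add_zero] at this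
        exact eq_of_add this
      beta_reduce
      by_cases hp : g p = g a
      · rw [← gpq, hp, add_self, mul_zero, mul_zero, add_zero, Pi.single_eq_of_ne]
        intro e
        rcases Sym2.eq_iff.1 e with ⟨rfl, rfl⟩ | ⟨rfl, rfl⟩
        · exact ga' hp
        · exact gy hp
      · have one : g p + g a = 1 := by
          rcases K01 (g p + g a) with k | k
          · exact absurd (eq_of_add k) hp
          · exact k
        rw [← gpq, one, mul_one, mul_one]
        refine hf p q k fun hA => ?_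
        rcases k1 _ hA with x | ⟨c, d, _, x, e⟩
        · exact hk.1 (mem_singleton.1 x)
        · rcases Sym2.eq_iff.1 e with ⟨rfl, rfl⟩ | ⟨rfl, rfl⟩
          · exact hp x
          · exact hp (gpq.trans x)

noncomputable def co (G : SimpleGraph V) (A : Finset (Sym2 V)) (w : WW G) : Finset (Sym2 V) :=
  G.edgeFinset.filter fun e => vv G e + w ∈ T (vv G) ⊥ A

theorem Cub.big (h : Cub G) (inj : ∀ e ∈ G.edgeFinset, ∀ e' ∈ G.edgeFinset, vv G e = vv G e' → e = e')
    {A : Finset (Sym2 V)} (hA : A ⊆ G.edgeFinset) (i : ℕ)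
    (hr : finrank K (T (vv G) ⊥ A) = i + 1)
    (hr2 : i + 2 < finrank K (T (vv G) ⊥ G.edgeFinset))
    (hP : Le ((X + 1) * (X + 2) ^ i) (P (vv G) ⊥ A)) {w : WW G} (hw : w ∉ T (vv G) ⊥ A)
    (hc : 2 < (co G A w).card) : Goal G := by
  obtain ⟨a, b, c, ha, hb, hc, n1, n2, n3⟩ := two_lt_card_iff.1 hc
  obtain ⟨a1, a2⟩ := mem_filter.1 ha
  obtain ⟨b1, b2⟩ := mem_filter.1 hb
  obtain ⟨c1, c2⟩ := mem_filter.1 hc
  have aU : vv G a ∉ T (vv G) ⊥ A := fun k => hw (mem_of_add k a2)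
  have cU : vv G c ∉ T (vv G) ⊥ A := fun k => hw (mem_of_add k c2)
  have ab : vv G a + vv G b ∈ T (vv G) ⊥ A := add3 a2 (by rwa [add_comm])
  have ac : vv G a + vv G c ∈ T (vv G) ⊥ A := add3 a2 (by rwa [add_comm])
  have bc : vv G b + vv G c ∈ T (vv G) ⊥ A := add3 b2 (by rwa [add_comm])
  have rk : finrank K (T (vv G) ⊥ (insert c (insert b (insert a A)))) = i + 2 := by
    rw [T_insert', T_ins2 A ab, cn_of_mem (mem_cn.2 (Or.inr (by rwa [add_comm]))), rk_cn aU, hr]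
  refine h.finish (A := insert c (insert b (insert a A)))
    (insert_subset c1 (insert_subset b1 (insert_subset a1 hA))) i rk ?_
    (out_of_rank (by omega)) ?_
  · obtain ⟨x, y, k, rfl⟩ := ofE c1
    exact ⟨x, y, k, mem_T _ _ (by simp)⟩
  · refine Le.trans ?_ (step3 _ A a b c cU ac bc (fun e => n1 (inj _ a1 _ b1 e))
      (fun e => n2 (inj _ a1 _ c1 e)) (fun e => n3 (inj _ b1 _ c1 e)))
    exact (hP.mul NN3).of_eq (by ring) rfl

theorem Cub.iter (h : Cub G) (inj : ∀ e ∈ G.edgeFinset, ∀ e' ∈ G.edgeFinset, vv G e = vv G e' → e = e')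
    (i : ℕ) (hi : i + 2 < finrank K (T (vv G) ⊥ G.edgeFinset)) :
    Goal G ∨ ∃ A ⊆ G.edgeFinset, finrank K (T (vv G) ⊥ A) = i + 1 ∧
      (co G A 0).card ≤ 2 * i + 2 ∧ (i = 0 → (co G A 0).card ≤ 1) ∧ (co G A 0).card ≤ 2 * i + 1 ∧
      (∃ a b, G.Adj a b ∧ vv G s(a, b) ∈ T (vv G) ⊥ A) ∧
      Le ((X + 1) * (X + 2) ^ i) (P (vv G) ⊥ A) := by
  induction i with
  | zero =>
    right
    obtain ⟨a, b, hab, -⟩ := out_of_rank (G := G) (A := ∅) (by rw [T_empty, finrank_bot]; omega)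
    obtain ⟨t1, t2, t3⟩ := h.one hab
    have : (co G {s(a, b)} 0).card ≤ 1 := by
      rw [← card_singleton s(a, b)]
      refine card_le_card fun e he => ?_
      obtain ⟨e1, e2⟩ := mem_filter.1 he
      rw [add_zero, t1, mem_cn] at e2
      rcases e2 with k | k
      · obtain ⟨x, y, k', rfl⟩ := ofE e1; exact absurd k (h.ne0 k')
      · exact mem_singleton.2 (inj _ e1 _ (memE hab) (eq_of_add k))
    exact ⟨{s(a, b)}, by simpa using hab, t2, by omega, fun _ => this, this,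
      ⟨a, b, hab, mem_T _ _ (by simp)⟩, by rw [t3]; simpa using Le.refl _⟩
  | succ i ih =>
    rcases ih (by omega) with g | ⟨A, hA, r1, -, -, c1, hin, hP⟩
    · exact Or.inl g
    obtain ⟨u, y, z, -, hy, hz, hyz, hzU, hs⟩ := h.boundary (T (vv G) ⊥ A) Set.univ
      (fun a b _ _ x => absurd trivial x) hin (by
        obtain ⟨a, b, x, y⟩ := out_of_rank (G := G) (A := A) (by omega)
        exact ⟨a, b, x, trivial, y⟩)
    have hyU : vv G s(u, y) ∉ T (vv G) ⊥ A := fun k => hzU (mem_of_add k hs)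
    by_cases hb : 2 < (co G A (vv G s(u, y))).card
    · exact Or.inl (h.big inj hA i r1 (by omega) hP hyU hb)
    right
    have T1 := T_ins2 A hs
    have sub : co G (insert s(u, z) (insert s(u, y) A)) 0 ⊆ co G A 0 ∪ co G A (vv G s(u, y)) := by
      intro e he
      obtain ⟨e1, e2⟩ := mem_filter.1 he
      rw [T1, add_zero, mem_cn] at e2
      simp only [co, mem_union, mem_filter, add_zero]
      tauto
    have := (card_le_card sub).trans (card_union_le _ _)
    refine ⟨insert s(u, z) (insert s(u, y) A),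
      insert_subset (memE hz) (insert_subset (memE hy) hA), by rw [T1, rk_cn hyU, r1],
      by omega, by omega, by omega, ⟨u, z, hz, mem_T _ _ (by simp)⟩, ?_⟩
    refine Le.trans ?_ (step2 _ A _ _ hzU hs (h.ne hy hz hyz))
    exact (hP.mul NN2).of_eq (by ring) rfl

theorem top_cover {A : Finset (Sym2 V)} {b c : WW G} (hb : b ∉ T (vv G) ⊥ A)
    (hc : c ∉ cn (T (vv G) ⊥ A) b) (hA : A ⊆ G.edgeFinset) (hb' : b ∈ T (vv G) ⊥ G.edgeFinset)
    (hc' : c ∈ T (vv G) ⊥ G.edgeFinset)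
    (hr : finrank K (T (vv G) ⊥ G.edgeFinset) = finrank K (T (vv G) ⊥ A) + 2) :
    cn (cn (T (vv G) ⊥ A) b) c = T (vv G) ⊥ G.edgeFinset := by
  apply Submodule.eq_of_le_of_finrank_eq
  · exact sup_le (sup_le (T_mono _ _ hA) ((span_singleton_le_iff_mem _ _).2 hb'))
      ((span_singleton_le_iff_mem _ _).2 hc')
  · rw [rk_cn hc, rk_cn hb, hr]

theorem Cub.large (h : Cub G)
    (inj : ∀ e ∈ G.edgeFinset, ∀ e' ∈ G.edgeFinset, vv G e = vv G e' → e = e')
    (i : ℕ) (hi : finrank K (T (vv G) ⊥ G.edgeFinset) = i + 3)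
    (hm : 2 * i + 7 < G.edgeFinset.card) : Goal G := by
  rcases h.iter inj i (by omega) with g | ⟨A, hA, r1, -, -, c1, hin, hP⟩
  · exact g
  obtain ⟨a, b, x1, x2⟩ := out_of_rank (G := G) (A := A) (by omega)
  obtain ⟨c, d, y1, y2⟩ := out_of_rank (G := G) (A := insert s(a, b) A) (by rw [rk_ins _ x2]; omega)
  rw [T_insert'] at y2
  have tc := top_cover x2 y2 hA (mem_T _ _ (memE x1)) (mem_T _ _ (memE y1)) (by omega)
  rw [mem_cn, not_or] at y2
  have sub : G.edgeFinset ⊆ co G A 0 ∪ co G A (vv G s(a, b)) ∪ co G A (vv G s(c, d)) ∪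
      co G A (vv G s(c, d) + vv G s(a, b)) := by
    intro e he
    have := mem_T (vv G) ⊥ he
    rw [← tc, mem_cn, mem_cn, mem_cn, add_assoc] at this
    simp only [co, mem_union, mem_filter, add_zero]
    tauto
  have k1 := card_le_card sub
  have k2 := card_union_le (co G A 0 ∪ co G A (vv G s(a, b)) ∪ co G A (vv G s(c, d)))
    (co G A (vv G s(c, d) + vv G s(a, b)))
  have k3 := card_union_le (co G A 0 ∪ co G A (vv G s(a, b))) (co G A (vv G s(c, d)))
  have k4 := card_union_le (co G A 0) (co G A (vv G s(a, b)))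
  by_cases b1 : 2 < (co G A (vv G s(a, b))).card
  · exact h.big inj hA i r1 (by omega) hP x2 b1
  by_cases b2 : 2 < (co G A (vv G s(c, d))).card
  · exact h.big inj hA i r1 (by omega) hP y2.1 b2
  exact h.big inj hA i r1 (by omega) hP y2.2 (by omega)

theorem Cub.six (h : Cub G)
    (inj : ∀ e ∈ G.edgeFinset, ∀ e' ∈ G.edgeFinset, vv G e = vv G e' → e = e')
    (hi : finrank K (T (vv G) ⊥ G.edgeFinset) = 4) : Goal G := by
  obtain ⟨w, p1, h1, -⟩ := out_of_rank (G := G) (A := ∅) (by rw [T_empty, finrank_bot]; omega)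
  obtain ⟨p2, p3, h2, h3, n12, n13, n23, -, hs⟩ := h.star h1
  obtain ⟨t1, t2, t3⟩ := h.one h1
  set A : Finset (Sym2 V) := insert s(w, p3) (insert s(w, p2) {s(w, p1)}) with hAd
  have u2 : vv G s(w, p2) ∉ T (vv G) ⊥ {s(w, p1)} := by rw [t1]; exact h.notcn h1 h2 n12
  have u3 : vv G s(w, p3) ∉ T (vv G) ⊥ {s(w, p1)} := by rw [t1]; exact h.notcn h1 h3 n13
  have u4 : vv G s(w, p2) + vv G s(w, p3) ∈ T (vv G) ⊥ {s(w, p1)} := by
    rw [hs]; exact mem_T _ _ (by simp)
  have TA := T_ins2 _ u4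
  rw [← hAd] at TA
  have rA : finrank K (T (vv G) ⊥ A) = 1 + 1 := by rw [TA, rk_cn u2, t2]
  have hA : A ⊆ G.edgeFinset :=
    insert_subset (memE h3) (insert_subset (memE h2) (by simpa using h1))
  have PA : Le ((X + 1) * (X + 2) ^ 1) (P (vv G) ⊥ A) :=
    (step2 _ _ _ _ u3 u4 (h.ne h2 h3 n23)).of_eq (by rw [t3]; ring) rfl
  set U := T (vv G) ⊥ A with hU
  have notU : ∀ p t, G.Adj w p → G.Adj p t → w ≠ t → vv G s(p, t) ∉ U := by
    intro p t k1 k2 k3 hm
    have : ∀ q, G.Adj w q → vv G s(p, t) ≠ vv G s(w, q) := by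
      intro q k e
      have := inj _ (memE k2) _ (memE k) e
      rcases Sym2.eq_iff.1 this with ⟨rfl, rfl⟩ | ⟨rfl, rfl⟩
      · exact k1.ne rfl
      · exact k3 rfl
    rw [TA, t1, mem_cn, mem_cn, mem_cn] at hm
    rcases hm with (k | k) | (k | k)
    · exact h.ne0 k2 k
    · exact this _ h1 (eq_of_add k)
    · exact this _ h2 (eq_of_add k)
    · rw [mem_bot, ← hs, add_assoc, ← add_assoc (vv G s(w, p2)), add_self, zero_add] at k
      exact this _ h3 (eq_of_add k)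
  by_cases hbig : ∃ x, x ∉ U ∧ 2 < (co G A x).card
  · obtain ⟨x, k1, k2⟩ := hbig
    exact h.big inj hA 1 rA (by omega) PA k1 k2
  push Not at hbig
  have pair : ∀ p, G.Adj w p → ∃ x1 x2, x1 ∈ G.edgeFinset ∧ x2 ∈ G.edgeFinset ∧
      vv G x1 ∉ U ∧ vv G x1 ≠ vv G x2 ∧ vv G x1 + vv G x2 = vv G s(w, p) := by
    intro p k
    obtain ⟨a, b, a1, a2, a3, a4, a5, -, a7⟩ := h.star k.symm
    exact ⟨s(p, a), s(p, b), memE a1, memE a2, notU p a k a1 a3, h.ne a1 a2 a5,
      by rw [a7, Sym2.eq_swap]⟩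
  obtain ⟨x1, x2, X1, X2, X3, X4, X5⟩ := pair p1 h1
  obtain ⟨y1, y2, Y1, Y2, Y3, Y4, Y5⟩ := pair p2 h2
  obtain ⟨z1, z2, Z1, Z2, Z3, Z4, Z5⟩ := pair p3 h3
  have m1 : vv G s(w, p1) ∈ U := mem_T _ _ (by simp [hAd])
  have m2 : vv G s(w, p2) ∈ U := mem_T _ _ (by simp [hAd])
  have m3 : vv G s(w, p3) ∈ U := mem_T _ _ (by simp [hAd])
  have diff : ∀ a1 a2 b1 b2 : Sym2 V, a1 ∈ G.edgeFinset → a2 ∈ G.edgeFinset →
      b1 ∈ G.edgeFinset → b2 ∈ G.edgeFinset → vv G a1 ∉ U → vv G a1 ≠ vv G a2 →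
      vv G b1 ≠ vv G b2 → vv G a1 + vv G a2 ∈ U → vv G b1 + vv G b2 ∈ U →
      vv G a1 + vv G a2 ≠ vv G b1 + vv G b2 → vv G b1 + vv G a1 ∉ U := by
    intro a1 a2 b1 b2 e1 e2 e3 e4 f1 f2 f3 f4 f5 f6 hm
    have c := hbig _ f1
    have q1 : a1 ∈ co G A (vv G a1) := mem_filter.2 ⟨e1, by rw [add_self]; exact zero_mem _⟩
    have q2 : a2 ∈ co G A (vv G a1) := mem_filter.2 ⟨e2, by rwa [add_comm]⟩
    have q3 : b1 ∈ co G A (vv G a1) := mem_filter.2 ⟨e3, hm⟩
    have q4 : b2 ∈ co G A (vv G a1) := mem_filter.2 ⟨e4, add3 (by rwa [add_comm]) hm⟩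
    have na : a1 ≠ a2 := fun e => f2 (by rw [e])
    have two : ∀ b ∈ co G A (vv G a1), b = a1 ∨ b = a2 := by
      intro b hb
      by_contra hc
      push Not at hc
      have := two_lt_card_iff.2 ⟨a1, a2, b, q1, q2, hb, na, hc.1.symm, hc.2.symm⟩
      omega
    rcases two b1 q3 with rfl | rfl <;> rcases two b2 q4 with rfl | rfl
    · exact f3 rfl
    · exact f6 rfl
    · exact f6 (add_comm _ _)
    · exact f3 rfl
  have d12 := diff x1 x2 y1 y2 X1 X2 Y1 Y2 X3 X4 Y4 (X5 ▸ m1) (Y5 ▸ m2)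
    (by rw [X5, Y5]; exact h.ne h1 h2 n12)
  have d13 := diff x1 x2 z1 z2 X1 X2 Z1 Z2 X3 X4 Z4 (X5 ▸ m1) (Z5 ▸ m3)
    (by rw [X5, Z5]; exact h.ne h1 h3 n13)
  have d23 := diff y1 y2 z1 z2 Y1 Y2 Z1 Z2 Y3 Y4 Z4 (Y5 ▸ m2) (Z5 ▸ m3)
    (by rw [Y5, Z5]; exact h.ne h2 h3 n23)
  have tc := top_cover X3 (c := vv G y1) (by rw [mem_cn]; tauto) hA (mem_T _ _ X1) (mem_T _ _ Y1)
    (by rw [hi]; exact (congrArg (· + 2) rA).symm)
  have hz : vv G z1 + vv G y1 + vv G x1 ∈ U := by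
    have := mem_T (vv G) ⊥ Z1
    rw [← tc, mem_cn, mem_cn, mem_cn] at this
    tauto
  have A0 : ∀ a ∈ A, vv G a ≠ 0 := fun a ha => by
    obtain ⟨x, y, k, rfl⟩ := ofE (hA ha); exact h.ne0 k
  have fin : ∀ y1 y2, y1 ∈ G.edgeFinset → y2 ∈ G.edgeFinset → vv G y1 ∉ U →
      vv G y1 + vv G x1 ∉ U → vv G y1 + vv G y2 ∈ U → vv G y1 ≠ vv G y2 →
      vv G z1 + vv G y1 + vv G x1 ∈ U → vv G x1 + vv G y1 + vv G z1 ≠ 0 →
      vv G x2 + vv G y1 + vv G z1 ≠ 0 → Goal G := by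
    intro y1 y2 Y1 Y2 Y3 d Y5 Y4 hz k1 k2
    have sp := special (vv G) A x1 x2 y1 y2 z1 z2 A0 X3 (X5 ▸ m1) X4 Y3 d Y5 Y4 hz (Z5 ▸ m3) Z4
      k1 k2
    set B := insert z2 (insert z1 (insert y2 (insert y1 (insert x2 (insert x1 A))))) with hB
    have tc := top_cover X3 (c := vv G y1) (by rw [mem_cn]; tauto) hA (mem_T _ _ X1)
      (mem_T _ _ Y1) (by rw [hi]; exact (congrArg (· + 2) rA).symm)
    obtain ⟨-, t⟩ := h.top (A := B) (insert_subset Z2 (insert_subset Z1 (insert_subset Y2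
      (insert_subset Y1 (insert_subset X2 (insert_subset X1 hA)))))) (fun a b k => by
        have := mem_T (vv G) ⊥ (memE k)
        rw [← tc] at this
        refine (sup_le (sup_le (T_mono _ _ ?_) ((span_singleton_le_iff_mem _ _).2 ?_))
          ((span_singleton_le_iff_mem _ _).2 ?_) : cn (cn U (vv G x1)) (vv G y1) ≤ _) this
        · intro e he; simp [hB, he]
        · exact mem_T _ _ (by simp [hB])
        · exact mem_T _ _ (by simp [hB]))
    unfold Goal
    rw [hi]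
    refine Le.trans ?_ (sp.trans t)
    exact (PA.mul (NN3.pow 2)).of_eq (by ring) rfl
  have Ym : vv G y1 + vv G y2 ∈ U := Y5 ▸ m2
  by_cases c1 : vv G x1 + vv G y1 + vv G z1 ≠ 0 ∧ vv G x2 + vv G y1 + vv G z1 ≠ 0
  · exact fin y1 y2 Y1 Y2 Y3 d12 Ym Y4 hz c1.1 c1.2
  · have canc : ∀ a b c d z : WW G, a + b + z = 0 → c + d + z = 0 → a + c = b + d := by
      intro a b c d z k1 k2
      apply eq_of_add
      rw [show a + c + (b + d) = (a + b + z) + (c + d + z) - (z + z) by abel, k1, k2, add_self z]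
      simp
    have y0 : vv G y1 + vv G y2 ≠ 0 := fun k => Y4 (eq_of_add k)
    have xy : vv G x1 + vv G x2 ≠ vv G y1 + vv G y2 := by rw [X5, Y5]; exact h.ne h1 h2 n12
    refine fin y2 y1 Y2 Y1 (fun k => Y3 (mem_of_add k (by rwa [add_comm])))
      (fun k => d12 (add3 Ym k)) (by rwa [add_comm]) Y4.symm ?_ ?_ ?_
    · have := add_mem hz Ym
      rwa [show vv G z1 + vv G y1 + vv G x1 + (vv G y1 + vv G y2) =
        vv G z1 + vv G y2 + vv G x1 + (vv G y1 + vv G y1) by abel, add_self, add_zero] at this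
    · intro k
      rcases not_and_or.1 c1 with k' | k' <;> rw [not_not] at k'
      · have := canc _ _ _ _ _ k' k
        rw [add_self] at this; exact y0 this.symm
      · have := canc _ _ _ _ _ k' k
        exact xy (by rwa [add_comm (vv G x1)])
    · intro k
      rcases not_and_or.1 c1 with k' | k' <;> rw [not_not] at k'
      · exact xy (canc _ _ _ _ _ k' k)
      · have := canc _ _ _ _ _ k' k
        rw [add_self] at this; exact y0 this.symm

theorem Cub.main (h : Cub G) (hn : 6 ≤ Fintype.card V) (i : ℕ) :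
    ((X + 1) * (X + 2) ^ (Fintype.card V / 2 - 2) * (X + 3) ^ 2 : ℤ[X]).coeff i ≤
      |(flowPoly G).coeff i| := by
  have e1 := rank_E G h.conn
  have e2 := G.sum_degrees_eq_twice_card_edges
  simp only [h.deg, sum_const, card_univ, smul_eq_mul] at e2
  have g : Goal G := by
    by_cases inj : ∀ e ∈ G.edgeFinset, ∀ e' ∈ G.edgeFinset, vv G e = vv G e' → e = e'
    · by_cases h6 : Fintype.card V = 6
      · exact h.six inj (by omega)
      · exact h.large inj (Fintype.card V / 2 - 2) (by omega) (by omega)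
    · push Not at inj
      obtain ⟨e, he, e', _, k1, k2⟩ := inj
      obtain ⟨a, b, k, rfl⟩ := ofE he
      exact h.nonsimple k k2 k1
  unfold Goal at g
  rw [show finrank K (T (vv G) ⊥ G.edgeFinset) - 3 = Fintype.card V / 2 - 2 by omega] at g
  have := g i
  rw [coeff_sub] at this
  rw [coeff_flow G h.conn]
  omega

end Pool.Agent.H5.FlowLow
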