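import Mathlib

namespace Pool.Agent.H5.Gob

def I (r : ℚ) : Prop := ∃ a b : ℤ, Odd b ∧ r * b = a

theorem I.add {r s : ℚ} (hr : I r) (hs : I s) : I (r + s) := by
  obtain ⟨a, b, hb, h⟩ := hr
  obtain ⟨c, d, hd, h'⟩ := hs
  refine ⟨a * d + c * b, b * d, hb.mul hd, ?_⟩
  push_cast
  rw [← h, ← h']
  ring

theorem I.mul {r s : ℚ} (hr : I r) (hs : I s) : I (r * s) := by
  obtain ⟨a, b, hb, h⟩ := hr
  obtain ⟨c, d, hd, h'⟩ := hs
  refine ⟨a * c, b * d, hb.mul hd, ?_⟩
  push_cast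
  rw [← h, ← h']
  ring

theorem I_int (a : ℤ) : I a := ⟨a, 1, odd_one, by simp⟩

theorem I_of_den {r : ℚ} (h : r.den % 2 = 1) : I r :=
  ⟨r.num, r.den, by exact_mod_cast Nat.odd_iff.2 h, by exact_mod_cast Rat.mul_den_eq_num r⟩

theorem I.den {r : ℚ} (h : I r) : Odd r.den := by
  obtain ⟨a, b, hb, h⟩ := h
  have hb0 : (b : ℚ) ≠ 0 := by
    have : b ≠ 0 := by
      rintro rfl
      simp at hb
    exact_mod_cast this
  have e : r = Rat.divInt a b := by
    rw [Rat.divInt_eq_div, ← h]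
    field_simp
  have := Rat.den_dvd a b
  rw [← e] at this
  obtain ⟨c, hc⟩ := this
  rw [hc] at hb
  exact_mod_cast (Int.odd_mul.1 hb).1

theorem I.split {r : ℚ} (h : I r) : ∃ t, I t ∧ (r = 2 * t ∨ r = 2 * t + 1) := by
  obtain ⟨a, b, hb, h⟩ := h
  rcases Int.even_or_odd' a with ⟨c, rfl | rfl⟩
  · refine ⟨r / 2, ⟨c, b, hb, ?_⟩, Or.inl (by ring)⟩
    push_cast at h
    linarith
  · obtain ⟨d, rfl⟩ := hb
    refine ⟨(r - 1) / 2, ⟨c - d, 2 * d + 1, ⟨d, rfl⟩, ?_⟩, Or.inr (by ring)⟩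
    push_cast at h ⊢
    linarith

theorem I_pow_div (e n : ℕ) (h : ¬ 2 ^ (e + 1) ∣ n) : I ((2 : ℚ) ^ e / n) := by
  have hn : n ≠ 0 := by
    rintro rfl
    simp at h
  obtain ⟨i, m, hm, rfl⟩ := Nat.exists_eq_two_pow_mul_odd hn
  have hi : i ≤ e := by
    by_contra hi
    exact h (Dvd.dvd.mul_right (pow_dvd_pow 2 (by omega)) m)
  obtain ⟨d, rfl⟩ := Nat.exists_eq_add_of_le hi
  have hm0 : (m : ℚ) ≠ 0 := by
    have : m ≠ 0 := by
      rintro rfl
      simp at hm
    exact_mod_cast this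
  refine ⟨2 ^ d, m, by exact_mod_cast hm, ?_⟩
  push_cast
  field_simp
  ring

def C (w k : ℚ) : Prop := I ((w - k) / 16)

theorem C.step {w k : ℚ} (h : C w k) (κ k' : ℚ) (h1 : ((k + κ * k ^ 2 - k') / 16).den % 2 = 1)
    (h2 : (1 + 2 * κ * k).den % 2 = 1) (h3 : (16 * κ).den % 2 = 1) : C (w + κ * w ^ 2) k' := by
  have := (I_of_den h1).add (((I_of_den h2).mul h).add ((I_of_den h3).mul (h.mul h)))
  unfold C
  convert this using 1
  ring

theorem C.int {w : ℚ} {k : ℤ} (h : C w k) : I w := by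
  have := (I_int k).add ((I_int 16).mul h)
  convert this using 1
  push_cast
  ring

theorem first {u : ℚ} (h : I u) : C (4 * u + u ^ 2) 0 ∨ C (4 * u + u ^ 2) 5 ∨
    C (4 * u + u ^ 2) 12 ∨ C (4 * u + u ^ 2) 13 := by
  have key : ∀ (j k s : ℚ), I s → ((4 * j + j ^ 2 - k) / 16).den % 2 = 1 → (2 + j).den % 2 = 1 →
      C (4 * (j + 8 * s) + (j + 8 * s) ^ 2) k := by
    intro j k s hs h1 h2
    have := (I_of_den h1).add (((I_of_den h2).mul hs).add ((I_int 4).mul (hs.mul hs)))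
    unfold C
    convert this using 1
    push_cast
    ring
  obtain ⟨t, ht, h1⟩ := h.split
  obtain ⟨t', ht', h2⟩ := ht.split
  obtain ⟨s, hs, h3⟩ := ht'.split
  rcases h1 with h1 | h1 <;> rcases h2 with h2 | h2 <;> rcases h3 with h3 | h3
  · rw [show u = 0 + 8 * s by linarith]
    exact Or.inl (key _ _ _ hs (by norm_num) (by norm_num))
  · rw [show u = 4 + 8 * s by linarith]
    exact Or.inl (key _ _ _ hs (by norm_num) (by norm_num))
  · rw [show u = 2 + 8 * s by linarith]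
    exact Or.inr (Or.inr (Or.inl (key _ _ _ hs (by norm_num) (by norm_num))))
  · rw [show u = 6 + 8 * s by linarith]
    exact Or.inr (Or.inr (Or.inl (key _ _ _ hs (by norm_num) (by norm_num))))
  · rw [show u = 1 + 8 * s by linarith]
    exact Or.inr (Or.inl (key _ _ _ hs (by norm_num) (by norm_num)))
  · rw [show u = 5 + 8 * s by linarith]
    exact Or.inr (Or.inr (Or.inr (key _ _ _ hs (by norm_num) (by norm_num))))
  · rw [show u = 3 + 8 * s by linarith]
    exact Or.inr (Or.inl (key _ _ _ hs (by norm_num) (by norm_num)))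
  · rw [show u = 7 + 8 * s by linarith]
    exact Or.inr (Or.inr (Or.inr (key _ _ _ hs (by norm_num) (by norm_num))))

section block

variable (q : ℕ) (W : ℕ → ℚ)
  (hW : ∀ n, 1 ≤ n → W (n + 1) = W n + (4 * (2 ^ q) ^ 2 / (n : ℚ) ^ 2) * W n ^ 2)

include hW

theorem run (i : ℕ) (k : ℤ) (h : C (W (i * 2 ^ q + 1)) k) :
    ∀ r, 1 ≤ r → r ≤ 2 ^ q → C (W (i * 2 ^ q + r)) k := by
  intro r hr
  induction r, hr using Nat.le_induction with
  | base => exact fun _ => h
  | succ r hr ih =>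
    intro hle
    have ih := ih (by omega)
    have hnd : ¬ 2 ^ q ∣ i * 2 ^ q + r := by
      intro hd
      have := Nat.le_of_dvd (by omega) ((Nat.dvd_add_right (Dvd.intro_left i rfl)).1 hd)
      omega
    obtain ⟨e, rfl⟩ : ∃ e, q = e + 1 := by
      cases q with
      | zero => simp at hnd
      | succ e => exact ⟨e, rfl⟩
    have ht := I_pow_div e _ hnd
    rw [← add_assoc, hW _ (by omega)]
    have := ih.add ((ht.mul ht).mul (ih.int.mul ih.int))
    unfold C
    convert this using 1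
    ring

def Blk (i : ℕ) (k : ℤ) : Prop := ∀ r, 1 ≤ r → r ≤ 2 ^ q → C (W (i * 2 ^ q + r)) k

theorem next (i : ℕ) (k k' : ℤ) (h : Blk q W i k)
    (h1 : (((k : ℚ) + 4 / ((i : ℚ) + 1) ^ 2 * k ^ 2 - k') / 16).den % 2 = 1)
    (h2 : (1 + 2 * (4 / ((i : ℚ) + 1) ^ 2) * k).den % 2 = 1)
    (h3 : (16 * (4 / ((i : ℚ) + 1) ^ 2)).den % 2 = 1) : Blk q W (i + 1) k' := by
  apply run q W hW
  have h0 := h (2 ^ q) Nat.one_le_two_pow le_rfl
  have e : i * 2 ^ q + 2 ^ q = (i + 1) * 2 ^ q := by ring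
  rw [e] at h0
  rw [hW _ (Nat.mul_pos (by omega) (by positivity))]
  have := h0.step _ _ h1 h2 h3
  convert this using 3
  push_cast
  field_simp

theorem block (h : I (W (8 * 2 ^ q) / 4)) :
    (∀ i, 8 ≤ i → i ≤ 15 → ∃ k, Blk q W i k) ∧ Blk q W 15 0 := by
  have h8 : W (8 * 2 ^ q + 1) = 4 * (W (8 * 2 ^ q) / 4) + (W (8 * 2 ^ q) / 4) ^ 2 := by
    rw [hW _ (Nat.mul_pos (by omega) (by positivity))]
    push_cast
    field_simp
    ring
  have fin : ∀ k8 k9 k10 k12 k13 : ℤ, Blk q W 8 k8 → Blk q W 9 k9 → Blk q W 10 k10 →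
      Blk q W 11 k10 → Blk q W 12 k12 → Blk q W 13 k13 → Blk q W 14 0 →
      (∀ i, 8 ≤ i → i ≤ 15 → ∃ k, Blk q W i k) ∧ Blk q W 15 0 := by
    intro k8 k9 k10 k12 k13 b8 b9 b10 b11 b12 b13 b14
    have b15 : Blk q W 15 0 := next q W hW 14 0 0 b14 (by norm_num) (by norm_num) (by norm_num)
    refine ⟨fun i h1 h2 => ?_, b15⟩
    interval_cases i
    exacts [⟨_, b8⟩, ⟨_, b9⟩, ⟨_, b10⟩, ⟨_, b11⟩, ⟨_, b12⟩, ⟨_, b13⟩, ⟨_, b14⟩, ⟨_, b15⟩]
  have hf := first h
  rw [← h8] at hf
  rcases hf with hf | hf | hf | hf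
  · have b8 : Blk q W 8 0 := run q W hW 8 0 (by exact_mod_cast hf)
    have b9 := next q W hW 8 0 0 b8 (by norm_num) (by norm_num) (by norm_num)
    have b10 := next q W hW 9 0 0 b9 (by norm_num) (by norm_num) (by norm_num)
    have b11 := next q W hW 10 0 0 b10 (by norm_num) (by norm_num) (by norm_num)
    have b12 := next q W hW 11 0 0 b11 (by norm_num) (by norm_num) (by norm_num)
    have b13 := next q W hW 12 0 0 b12 (by norm_num) (by norm_num) (by norm_num)
    have b14 := next q W hW 13 0 0 b13 (by norm_num) (by norm_num) (by norm_num)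
    exact fin _ _ _ _ _ b8 b9 b10 b11 b12 b13 b14
  · have b8 : Blk q W 8 5 := run q W hW 8 5 (by exact_mod_cast hf)
    have b9 := next q W hW 8 5 9 b8 (by norm_num) (by norm_num) (by norm_num)
    have b10 := next q W hW 9 9 2 b9 (by norm_num) (by norm_num) (by norm_num)
    have b11 := next q W hW 10 2 2 b10 (by norm_num) (by norm_num) (by norm_num)
    have b12 := next q W hW 11 2 11 b11 (by norm_num) (by norm_num) (by norm_num)
    have b13 := next q W hW 12 11 15 b12 (by norm_num) (by norm_num) (by norm_num)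
    have b14 := next q W hW 13 15 0 b13 (by norm_num) (by norm_num) (by norm_num)
    exact fin _ _ _ _ _ b8 b9 b10 b11 b12 b13 b14
  · have b8 : Blk q W 8 12 := run q W hW 8 12 (by exact_mod_cast hf)
    have b9 := next q W hW 8 12 12 b8 (by norm_num) (by norm_num) (by norm_num)
    have b10 := next q W hW 9 12 12 b9 (by norm_num) (by norm_num) (by norm_num)
    have b11 := next q W hW 10 12 12 b10 (by norm_num) (by norm_num) (by norm_num)
    have b12 := next q W hW 11 12 0 b11 (by norm_num) (by norm_num) (by norm_num)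
    have b13 := next q W hW 12 0 0 b12 (by norm_num) (by norm_num) (by norm_num)
    have b14 := next q W hW 13 0 0 b13 (by norm_num) (by norm_num) (by norm_num)
    exact fin _ _ _ _ _ b8 b9 b10 b11 b12 b13 b14
  · have b8 : Blk q W 8 13 := run q W hW 8 13 (by exact_mod_cast hf)
    have b9 := next q W hW 8 13 1 b8 (by norm_num) (by norm_num) (by norm_num)
    have b10 := next q W hW 9 1 10 b9 (by norm_num) (by norm_num) (by norm_num)
    have b11 := next q W hW 10 10 10 b10 (by norm_num) (by norm_num) (by norm_num)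
    have b12 := next q W hW 11 10 11 b11 (by norm_num) (by norm_num) (by norm_num)
    have b13 := next q W hW 12 11 15 b12 (by norm_num) (by norm_num) (by norm_num)
    have b14 := next q W hW 13 15 0 b13 (by norm_num) (by norm_num) (by norm_num)
    exact fin _ _ _ _ _ b8 b9 b10 b11 b12 b13 b14

end block

theorem main (x : ℕ → ℚ) (h0 : x 0 = 1)
    (hx : ∀ n, 1 ≤ n → x n = (1 + ∑ k ∈ Finset.range n, x k ^ 2) / n) (n : ℕ) :
    Odd (x n).den := by
  have hr : ∀ n : ℕ, 1 ≤ n → x (n + 1) = x n * (x n + n) / (n + 1) := by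
    intro n hn
    have h1 := hx n hn
    have hn0 : (n : ℚ) ≠ 0 := by exact_mod_cast (by omega : n ≠ 0)
    rw [hx (n + 1) (by omega), Finset.sum_range_succ]
    have : 1 + ∑ k ∈ Finset.range n, x k ^ 2 = n * x n := by
      rw [h1]
      field_simp
    rw [← add_assoc, this]
    push_cast
    ring
  have x1 : x 1 = 2 := by
    rw [hx 1 le_rfl]
    simp [h0]
    norm_num
  have x2 : x 2 = 3 := by rw [hr 1 le_rfl, x1]; norm_num
  have x3 : x 3 = 5 := by rw [hr 2 (by omega), x2]; norm_num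
  have x4 : x 4 = 10 := by rw [hr 3 (by omega), x3]; norm_num
  have x5 : x 5 = 28 := by rw [hr 4 (by omega), x4]; norm_num
  have x6 : x 6 = 154 := by rw [hr 5 (by omega), x5]; norm_num
  have x7 : x 7 = 3520 := by rw [hr 6 (by omega), x6]; norm_num
  have x8 : x 8 = 1551880 := by rw [hr 7 (by omega), x7]; norm_num
  have hW : ∀ q n : ℕ, 1 ≤ n → (fun m : ℕ => (m : ℚ) * x m / (4 * (2 ^ q) ^ 2)) (n + 1) =
      (fun m : ℕ => (m : ℚ) * x m / (4 * (2 ^ q) ^ 2)) n + (4 * (2 ^ q) ^ 2 / (n : ℚ) ^ 2) *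
        (fun m : ℕ => (m : ℚ) * x m / (4 * (2 ^ q) ^ 2)) n ^ 2 := by
    intro q n hn
    have hn0 : (n : ℚ) ≠ 0 := by exact_mod_cast (by omega : n ≠ 0)
    have hn1 : (n : ℚ) + 1 ≠ 0 := by positivity
    simp only [hr n hn]
    push_cast
    field_simp
    ring
  have hq : ∀ q : ℕ, I ((((8 * 2 ^ q : ℕ) : ℚ) * x (8 * 2 ^ q) / (4 * (2 ^ q) ^ 2)) / 4) := by
    intro q
    induction q with
    | zero =>
      apply I_of_den
      norm_num [x8]
    | succ q ih =>
      have := (block q (fun m : ℕ => (m : ℚ) * x m / (4 * (2 ^ q) ^ 2)) (hW q) ih).2 (2 ^ q) Nat.one_le_two_pow le_rfl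
      have e : 15 * 2 ^ q + 2 ^ q = 8 * 2 ^ (q + 1) := by ring
      rw [e] at this
      unfold C at this
      convert this using 1
      push_cast
      field_simp
      ring
  apply I.den
  by_cases hn : n < 8
  · apply I_of_den
    interval_cases n <;> norm_num [h0, x1, x2, x3, x4, x5, x6, x7]
  · obtain ⟨q, hq1, hq2⟩ : ∃ q, 8 * 2 ^ q ≤ n ∧ n < 16 * 2 ^ q := by
      have h1 := Nat.pow_log_le_self 2 (by omega : n / 8 ≠ 0)
      have h2 := Nat.lt_pow_succ_log_self (by norm_num : 1 < 2) (n / 8)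
      refine ⟨Nat.log 2 (n / 8), by omega, ?_⟩
      rw [pow_succ] at h2
      omega
    rcases hq1.eq_or_lt with rfl | hq1
    · have := ((I_int 2).mul (I_int (2 ^ q))).mul (hq q)
      convert this using 1
      push_cast
      field_simp
      ring
    · have hp : 0 < 2 ^ q := by positivity
      have hd := Nat.div_add_mod (n - 1) (2 ^ q)
      have hm := Nat.mod_lt (n - 1) hp
      obtain ⟨k, hk⟩ := (block q (fun m : ℕ => (m : ℚ) * x m / (4 * (2 ^ q) ^ 2)) (hW q)
        (hq q)).1 ((n - 1) / 2 ^ q)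
        ((Nat.le_div_iff_mul_le hp).2 (by omega))
        (Nat.le_of_lt_succ ((Nat.div_lt_iff_lt_mul hp).2 (by omega)))
      have hc := (hk ((n - 1) % 2 ^ q + 1) (by omega) (by omega)).int
      have e : (n - 1) / 2 ^ q * 2 ^ q + ((n - 1) % 2 ^ q + 1) = n := by
        rw [mul_comm]
        omega
      rw [e] at hc
      have hnd : ¬ 2 ^ (q + 2 + 1) ∣ n := by
        rintro ⟨c, rfl⟩
        have e2 : 2 ^ (q + 2 + 1) * c = (8 * c) * 2 ^ q := by ring
        rw [e2] at hq1 hq2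
        have a1 := Nat.lt_of_mul_lt_mul_right hq1
        have a2 := Nat.lt_of_mul_lt_mul_right hq2
        omega
      have := ((I_pow_div _ _ hnd).mul (I_int (2 ^ q))).mul hc
      have hn0 : (n : ℚ) ≠ 0 := by exact_mod_cast (by omega : n ≠ 0)
      convert this using 1
      push_cast
      field_simp
      ring

end Pool.Agent.H5.Gob
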