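import Mathlib

set_option autoImplicit false

namespace Pool.Agent.H5.GridDist

abbrev Ix := Unit ⊕ (Fin 3 × Fin 3) × Bool × Fin 4

def dg (R x : ℤ) : Fin 3 → ℤ := ![x % R, x / R % R, x / R / R]

lemma dg_sum (R x : ℤ) : ∑ a : Fin 3, R ^ a.val * dg R x a = x := by
  have h1 := Int.emod_add_mul_ediv x R
  have h2 := Int.emod_add_mul_ediv (x / R) R
  simp [dg, Fin.sum_univ_three]
  linear_combination h1 + R * h2

lemma dg_bound {R x : ℤ} (hR : 0 < R) (h0 : 0 ≤ x) (h1 : x < R ^ 3) (a : Fin 3) :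
    0 ≤ dg R x a ∧ dg R x a < R := by
  fin_cases a
  · exact ⟨Int.emod_nonneg _ hR.ne', Int.emod_lt_of_pos _ hR⟩
  · exact ⟨Int.emod_nonneg _ hR.ne', Int.emod_lt_of_pos _ hR⟩
  · refine ⟨Int.ediv_nonneg (Int.ediv_nonneg h0 hR.le) hR.le, ?_⟩
    change x / R / R < R
    rw [Int.ediv_lt_iff_lt_mul hR, Int.ediv_lt_iff_lt_mul hR]
    linarith

lemma four (w m : ℤ) (h0 : 0 ≤ w) (h1 : w ≤ m ^ 2) (hm : 0 ≤ m) :
    ∃ s : Fin 4 → ℤ, ∑ t, s t ^ 2 = w ∧ ∀ t, 0 ≤ s t ∧ s t ≤ m := by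
  obtain ⟨a, b, c, d, h⟩ := Nat.sum_four_squares w.toNat
  have h' : (a : ℤ) ^ 2 + b ^ 2 + c ^ 2 + d ^ 2 = w := by
    rw [← Int.toNat_of_nonneg h0]; exact_mod_cast h
  refine ⟨![a, b, c, d], by simpa [Fin.sum_univ_four] using h', fun t => ?_⟩
  have key : ∀ x : ℕ, (x : ℤ) ^ 2 ≤ w → (0 : ℤ) ≤ x ∧ (x : ℤ) ≤ m := fun x hx =>
    ⟨by positivity, (abs_le_of_sq_le_sq' (hx.trans h1) hm).2⟩
  fin_cases t <;> apply key <;> nlinarith [sq_nonneg (a : ℤ), sq_nonneg (b : ℤ),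
    sq_nonneg (c : ℤ), sq_nonneg (d : ℤ)]

lemma construct (p : ℕ) (hp : p.Prime) (hp2 : 2 < p) (R : ℤ) (hR : 0 < R) (hpR : (p : ℤ) ≤ R ^ 3) :
    ∃ f : ℤ → Ix → ℤ, (∀ i : ℤ, 0 ≤ i → i < p → ∀ t, 1 ≤ f i t ∧ f i t ≤ 2 * R * p + 1) ∧
      (∀ i, f i (Sum.inl ()) = i + 1) ∧
      ∀ i j i' j' : ℤ, 0 ≤ i → 2 * i < p → 0 ≤ j → 2 * j < p → 0 ≤ i' → 2 * i' < p → 0 ≤ j' →
        2 * j' < p → i ≠ j → ∑ t, (f i t - f j t) ^ 2 = ∑ t, (f i' t - f j' t) ^ 2 →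
        (i = i' ∧ j = j') ∨ (i = j' ∧ j = i') := by
  have hp0 : (0 : ℤ) < p := by exact_mod_cast hp.pos
  let w : Fin 3 × Fin 3 → ℤ := fun ab => R ^ (ab.1.val + ab.2.val) % p
  have hw : ∀ ab, 0 ≤ w ab ∧ w ab < p := fun ab =>
    ⟨Int.emod_nonneg _ hp0.ne', Int.emod_lt_of_pos _ hp0⟩
  have h4 : ∀ (ab : Fin 3 × Fin 3) (σ : Bool), ∃ s : Fin 4 → ℤ,
      ∑ t, s t ^ 2 = p * (if σ then w ab else p - w ab) ∧ ∀ t, 0 ≤ s t ∧ s t ≤ p := by
    intro ab σ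
    have := hw ab
    apply four _ _ _ _ hp0.le <;> split_ifs <;> nlinarith
  choose s hs1 hs2 using h4
  let g : ℤ → (Fin 3 × Fin 3) → Bool → ℤ := fun i ab σ =>
    if σ then dg R i ab.1 + dg R (i ^ 2 % p) ab.2 else dg R i ab.1 - dg R (i ^ 2 % p) ab.2 + R
  let f : ℤ → Ix → ℤ := fun i =>
    Sum.elim (fun _ => i + 1) (fun x => s x.1 x.2.1 x.2.2 * g i x.1 x.2.1 + 1)
  have hD : ∀ i j : ℤ, ∃ c : ℤ, ∑ t, (f i t - f j t) ^ 2 =
      (i - j) ^ 2 + p * (4 * ((i - j) ^ 2 * (i + j)) + p * c) := by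
    intro i j
    let u : Fin 3 → ℤ := fun a => dg R i a - dg R j a
    let v : Fin 3 → ℤ := fun a => dg R (i ^ 2 % p) a - dg R (j ^ 2 % p) a
    have e1 : ∑ t, (f i t - f j t) ^ 2 = (i - j) ^ 2 + p * ∑ ab : Fin 3 × Fin 3,
        (4 * (w ab * u ab.1 * v ab.2) + p * (u ab.1 - v ab.2) ^ 2) := by
      rw [Fintype.sum_sum_type, Fintype.sum_prod_type, Finset.mul_sum]
      congr 1
      · simp [f]
      refine Finset.sum_congr rfl fun ab _ => ?_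
      have : ∀ σ, ∑ t : Fin 4, (f i (Sum.inr (ab, σ, t)) - f j (Sum.inr (ab, σ, t))) ^ 2 =
          p * (if σ then w ab else p - w ab) * (g i ab σ - g j ab σ) ^ 2 := by
        intro σ
        rw [← hs1, Finset.sum_mul]
        refine Finset.sum_congr rfl fun t _ => ?_
        simp only [f, Sum.elim_inr]
        ring
      rw [Fintype.sum_prod_type, Fintype.sum_bool, this, this]
      simp only [g, u, v, if_true, Bool.false_eq_true, if_false]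
      ring
    have e2 : (∑ ab : Fin 3 × Fin 3, (4 * (w ab * u ab.1 * v ab.2) + p * (u ab.1 - v ab.2) ^ 2)) ≡
        4 * ((i - j) ^ 2 * (i + j)) [ZMOD p] := by
      rw [← ZMod.intCast_eq_intCast_iff]
      have a1 := congrArg (Int.cast : ℤ → ZMod p) (dg_sum R i)
      have a2 := congrArg (Int.cast : ℤ → ZMod p) (dg_sum R j)
      have a3 := congrArg (Int.cast : ℤ → ZMod p) (dg_sum R (i ^ 2 % p))
      have a4 := congrArg (Int.cast : ℤ → ZMod p) (dg_sum R (j ^ 2 % p))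
      simp only [Fin.sum_univ_three, Fin.val_zero, Fin.val_one, Fin.val_two] at a1 a2 a3 a4
      simp only [Fintype.sum_prod_type, Fin.sum_univ_three, w, u, v, Fin.val_zero, Fin.val_one,
        Fin.val_two]
      push_cast at a1 a2 a3 a4 ⊢
      simp only [ZMod.intCast_mod, ZMod.natCast_self] at a3 a4 ⊢
      push_cast at a3 a4 ⊢
      linear_combination 4 * ((i : ZMod p) ^ 2 - j ^ 2) * (a1 - a2) +
        4 * ((dg R i 0 : ZMod p) - dg R j 0 + R * (dg R i 1 - dg R j 1) +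
          R ^ 2 * (dg R i 2 - dg R j 2)) * (a3 - a4)
    obtain ⟨c, hc⟩ := e2.symm.dvd
    exact ⟨c, by rw [e1]; linear_combination (p : ℤ) * hc⟩
  refine ⟨f, ?_, fun _ => rfl, ?_⟩
  · rintro i h0 h1 (t | ⟨ab, σ, t⟩)
    · simp only [f, Sum.elim_inl]
      constructor <;> nlinarith
    · have b1 := dg_bound hR h0 (by linarith) ab.1
      have b2 := dg_bound hR (Int.emod_nonneg (i ^ 2) hp0.ne')
        (by linarith [Int.emod_lt_of_pos (i ^ 2) hp0]) ab.2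
      have b3 := hs2 ab σ t
      have b4 : 0 ≤ g i ab σ ∧ g i ab σ ≤ 2 * R := by
        simp only [g]
        split_ifs <;> constructor <;> linarith
      simp only [f, Sum.elim_inr]
      constructor <;> nlinarith
  · intro i j i' j' h1 h2 h3 h4 h5 h6 h7 h8 hne e
    obtain ⟨c, hc⟩ := hD i j
    obtain ⟨c', hc'⟩ := hD i' j'
    rw [hc, hc'] at e
    have hpp : Prime (p : ℤ) := Nat.prime_iff_prime_int.1 hp
    have small : ∀ x : ℤ, (p : ℤ) ∣ x → -p < x → x < p → x = 0 := fun x h a b =>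
      Int.eq_zero_of_abs_lt_dvd h (abs_lt.2 ⟨a, b⟩)
    have d1 : (p : ℤ) ∣ (i - j - (i' - j')) * (i - j + (i' - j')) :=
      ⟨4 * ((i' - j') ^ 2 * (i' + j')) + p * c' - (4 * ((i - j) ^ 2 * (i + j)) + p * c),
        by linear_combination e⟩
    have d2 : i - j - (i' - j') = 0 ∨ i - j + (i' - j') = 0 :=
      (hpp.dvd_or_dvd d1).imp (fun h => small _ h (by omega) (by omega))
        (fun h => small _ h (by omega) (by omega))
    have d3 : (i' - j') ^ 2 = (i - j) ^ 2 := by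
      rcases d2 with h | h
      · rw [show i' - j' = i - j by omega]
      · rw [show i' - j' = -(i - j) by omega, neg_sq]
    rw [d3] at e
    have d4 : (p : ℤ) ∣ 2 * (2 * ((i - j) * ((i - j) * (i + j - (i' + j'))))) :=
      ⟨c' - c, mul_left_cancel₀ hp0.ne' (by linear_combination e)⟩
    have n2 : ¬ (p : ℤ) ∣ 2 := fun h => by have := small 2 h (by omega) (by omega); omega
    have nu : ¬ (p : ℤ) ∣ i - j := fun h => by have := small _ h (by omega) (by omega); omega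
    have d5 := ((hpp.dvd_or_dvd (((hpp.dvd_or_dvd (((hpp.dvd_or_dvd
      ((hpp.dvd_or_dvd d4).resolve_left n2))).resolve_left n2))).resolve_left nu))).resolve_left nu
    have d6 := small _ d5 (by omega) (by omega)
    omega

lemma numeric (c : ℝ) (s : ℕ) (hs1 : 1 ≤ s) (hs : 2 * c ^ 3 * 73 ^ 2 * 33 ^ 2 ≤ s) :
    c * ((73 : ℕ) : ℝ) ^ (2 / 3 : ℝ) * ((33 * s ^ 8 : ℕ) : ℝ) ^ (2 / 3 : ℝ) *
      (Real.log ((33 * s ^ 8 : ℕ) : ℝ)) ^ (1 / 3 : ℝ) ≤ ((2 * s ^ 6 : ℕ) : ℝ) := by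
  have hs0 : (1 : ℝ) ≤ s := by exact_mod_cast hs1
  have h8 : (1 : ℝ) ≤ (s : ℝ) ^ 8 := one_le_pow₀ hs0
  have hL0 : 0 ≤ Real.log ((33 * s ^ 8 : ℕ) : ℝ) := Real.log_natCast_nonneg _
  have hL : Real.log ((33 * s ^ 8 : ℕ) : ℝ) ≤ 16 * s := by
    have h1 : ((33 * s ^ 8 : ℕ) : ℝ) ≤ (2 * s) ^ 8 := by push_cast; nlinarith
    have h2 := Real.log_le_log (by push_cast; positivity) h1
    rw [Real.log_pow] at h2
    have h3 := Real.log_le_sub_one_of_pos (show (0 : ℝ) < 2 * s by positivity)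
    push_cast at h2 ⊢
    linarith
  refine le_of_pow_le_pow_left₀ (n := 3) (by norm_num) (by positivity) ?_
  have e1 : ∀ x : ℝ, 0 ≤ x → (x ^ (2 / 3 : ℝ)) ^ 3 = x ^ 2 := fun x hx => by
    rw [← Real.rpow_natCast, ← Real.rpow_mul hx]; norm_num
  have e2 : ∀ x : ℝ, 0 ≤ x → (x ^ (1 / 3 : ℝ)) ^ 3 = x := fun x hx => by
    rw [← Real.rpow_natCast, ← Real.rpow_mul hx]; norm_num
  rw [mul_pow, mul_pow, mul_pow, e1 _ (by positivity), e1 _ (by positivity), e2 _ hL0]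
  generalize Real.log ((33 * s ^ 8 : ℕ) : ℝ) = L at *
  push_cast
  have h9 : (0 : ℝ) ≤ (s : ℝ) ^ 16 := by positivity
  have h10 : 2 * c ^ 3 * 73 ^ 2 * 33 ^ 2 * L ≤ s * (16 * s) :=
    (mul_le_mul_of_nonneg_right hs hL0).trans (mul_le_mul_of_nonneg_left hL (by positivity))
  nlinarith [mul_le_mul_of_nonneg_left h10 h9]

theorem main (c : ℝ) : ∃ d n : ℕ, 3 ≤ d ∧ 2 ≤ n ∧ ∃ S : Finset (Fin d → ℤ),
    (∀ x ∈ S, ∀ i, 1 ≤ x i ∧ x i ≤ n) ∧
    (∀ x ∈ S, ∀ y ∈ S, ∀ z ∈ S, ∀ w ∈ S, x ≠ y → z ≠ w →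
      √(∑ i, ((x i : ℝ) - y i) ^ 2) = √(∑ i, ((z i : ℝ) - w i) ^ 2) →
      (x = z ∧ y = w) ∨ (x = w ∧ y = z)) ∧
    c * (d : ℝ) ^ (2 / 3 : ℝ) * (n : ℝ) ^ (2 / 3 : ℝ) * (Real.log n) ^ (1 / 3 : ℝ) ≤ S.card := by
  obtain ⟨s0, hs0⟩ := exists_nat_ge (2 * c ^ 3 * 73 ^ 2 * 33 ^ 2)
  obtain ⟨s, hs1, hs⟩ : ∃ s : ℕ, 1 ≤ s ∧ 2 * c ^ 3 * 73 ^ 2 * 33 ^ 2 ≤ s :=
    ⟨s0 + 1, by omega, by push_cast; linarith⟩
  have h6 : 1 ≤ s ^ 6 := Nat.one_le_pow _ _ hs1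
  have h8 : 1 ≤ s ^ 8 := Nat.one_le_pow _ _ hs1
  obtain ⟨p, hp, hp1, hp2⟩ := Nat.exists_prime_lt_and_le_two_mul (4 * s ^ 6) (by omega)
  have hp2' : (p : ℤ) ≤ 8 * (s : ℤ) ^ 6 := by exact_mod_cast (by omega : p ≤ 8 * s ^ 6)
  obtain ⟨f, f1, f2, f3⟩ := construct p hp (by omega) (2 * (s : ℤ) ^ 2) (by positivity)
    (by linarith)
  let e : Fin 73 ≃ Ix := (Fintype.equivFinOfCardEq (by simp)).symm
  let F : ℕ → Fin 73 → ℤ := fun i t => f i (e t)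
  have hF : Function.Injective F := by
    intro i j h
    have := congrFun h (e.symm (Sum.inl ()))
    simp only [F, Equiv.apply_symm_apply, f2] at this
    omega
  refine ⟨73, 33 * s ^ 8, by norm_num, by omega, (Finset.range (2 * s ^ 6)).image F, ?_, ?_, ?_⟩
  · intro x hx t
    obtain ⟨i, hi, rfl⟩ := Finset.mem_image.1 hx
    have hi' := Finset.mem_range.1 hi
    have := f1 i (by omega) (by omega) (e t)
    refine ⟨this.1, this.2.trans ?_⟩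
    have h9 : (1 : ℤ) ≤ (s : ℤ) ^ 8 := by exact_mod_cast h8
    have h10 : (0 : ℤ) ≤ (s : ℤ) ^ 2 := by positivity
    push_cast
    nlinarith
  · intro x hx y hy z hz w hw hxy _ h
    obtain ⟨i, hi, rfl⟩ := Finset.mem_image.1 hx
    obtain ⟨j, hj, rfl⟩ := Finset.mem_image.1 hy
    obtain ⟨i', hi', rfl⟩ := Finset.mem_image.1 hz
    obtain ⟨j', hj', rfl⟩ := Finset.mem_image.1 hw
    rw [Finset.mem_range] at hi hj hi' hj'
    rw [Real.sqrt_inj (by positivity) (by positivity)] at h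
    have h' : ∑ t, (F i t - F j t) ^ 2 = ∑ t, (F i' t - F j' t) ^ 2 := by exact_mod_cast h
    have h1 := e.sum_comp (fun t => (f i t - f j t) ^ 2)
    have h2 := e.sum_comp (fun t => (f i' t - f j' t) ^ 2)
    have := f3 i j i' j' (by omega) (by omega) (by omega) (by omega) (by omega) (by omega)
      (by omega) (by omega) (fun e => hxy (by rw [show i = j by omega])) (by rw [← h1, ← h2]; exact h')
    rcases this with ⟨a, b⟩ | ⟨a, b⟩
    · exact Or.inl ⟨by rw [show i = i' by omega], by rw [show j = j' by omega]⟩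
    · exact Or.inr ⟨by rw [show i = j' by omega], by rw [show j = i' by omega]⟩
  · rw [Finset.card_image_of_injective _ hF, Finset.card_range]
    exact numeric c s hs1 hs

end Pool.Agent.H5.GridDist
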