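import Pool.Agent.H5.HullRatioDefs

set_option autoImplicit false

namespace Pool.Agent.H5.HullRatio

open MeasureTheory Set Pool.Agent.H5.HullRatioDefs

def Trap (a b c d : ℝ) : Set (ℝ × ℝ) :=
  {p | p.1 ∈ Icc (0 : ℝ) 1 ∧ p.2 ∈ Icc (a + (c - a) * p.1) (b + (d - b) * p.1)}

lemma vol {a b c d : ℝ} (h1 : a ≤ b) (h2 : c ≤ d) :
    volume (Trap a b c d) = ENNReal.ofReal ((b - a + (d - c)) / 2) := by
  have h := volume_regionBetween_eq_integral (μ := volume) (s := Icc (0 : ℝ) 1)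
    (f := fun x => a + (c - a) * x) (g := fun x => b + (d - b) * x)
    (Continuous.integrableOn_Icc (by fun_prop)) (Continuous.integrableOn_Icc (by fun_prop))
    measurableSet_Icc (fun x hx => by nlinarith [hx.1, hx.2])
  have e : ∫ x in Icc (0 : ℝ) 1, ((fun x => b + (d - b) * x) - fun x => a + (c - a) * x) x =
      (b - a + (d - c)) / 2 := by
    rw [integral_Icc_eq_integral_Ioc, ← intervalIntegral.integral_of_le zero_le_one]
    simp only [Pi.sub_apply]
    rw [intervalIntegral.integral_sub, intervalIntegral.integral_add,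
      intervalIntegral.integral_add] <;> try exact Continuous.intervalIntegrable (by fun_prop) _ _
    rw [intervalIntegral.integral_const_mul, intervalIntegral.integral_const_mul]
    simp
    ring
  rw [e] at h
  rw [← h]
  have hm : MeasurableSet (Trap a b c d) :=
    measurableSet_region_between_cc (f := fun x => a + (c - a) * x)
      (g := fun x => b + (d - b) * x) (by fun_prop) (by fun_prop) measurableSet_Icc
  change (volume.prod volume) _ = _
  rw [Measure.prod_apply hm,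
    Measure.prod_apply (measurableSet_regionBetween (by fun_prop) (by fun_prop) measurableSet_Icc)]
  refine lintegral_congr fun x => ?_
  by_cases hx : x ∈ Icc (0 : ℝ) 1
  · have e1 : Prod.mk x ⁻¹' Trap a b c d = Icc (a + (c - a) * x) (b + (d - b) * x) := by
      ext y; simp only [Trap, mem_preimage, mem_ofPred_eq, hx, true_and]
    have e2 : Prod.mk x ⁻¹' regionBetween (fun x => a + (c - a) * x) (fun x => b + (d - b) * x)
        (Icc 0 1) = Ioo (a + (c - a) * x) (b + (d - b) * x) := by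
      ext y; simp only [regionBetween, mem_preimage, mem_ofPred_eq, hx, true_and]
    rw [e1, e2, Real.volume_Icc, Real.volume_Ioo]
  · congr 1
    ext y
    simp only [Trap, regionBetween, mem_preimage, mem_ofPred_eq, hx, false_and]

lemma conv (a b c d : ℝ) : Convex ℝ (Trap a b c d) := by
  rintro p ⟨⟨p1, p2⟩, p3, p4⟩ q ⟨⟨q1, q2⟩, q3, q4⟩ s t hs ht hst
  obtain rfl : t = 1 - s := by linarith
  refine ⟨⟨?_, ?_⟩, ?_, ?_⟩ <;>
    simp only [Prod.fst_add, Prod.snd_add, Prod.smul_fst, Prod.smul_snd, smul_eq_mul] <;>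
    nlinarith [mul_le_mul_of_nonneg_left p3 hs, mul_le_mul_of_nonneg_left q3 ht,
      mul_le_mul_of_nonneg_left p4 hs, mul_le_mul_of_nonneg_left q4 ht]

lemma upper {a b c d : ℝ} (h1 : a ≤ b) (h2 : c ≤ d) {F : Finset (ℝ × ℝ)}
    (h : ∀ p ∈ F, p ∈ Trap a b c d) : area F ≤ (b - a + (d - c)) / 2 :=
  ENNReal.toReal_le_of_le_ofReal (by linarith)
    (vol h1 h2 ▸ measure_mono (convexHull_min h (conv a b c d)))

lemma lower {a b c d : ℝ} (h1 : a ≤ b) (h2 : c ≤ d) {F : Finset (ℝ × ℝ)} (ha : (0, a) ∈ F)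
    (hb : (0, b) ∈ F) (hc : (1, c) ∈ F) (hd : (1, d) ∈ F) : (b - a + (d - c)) / 2 ≤ area F := by
  have C := convex_convexHull ℝ (F : Set (ℝ × ℝ))
  have m := fun p (hp : p ∈ F) => subset_convexHull ℝ (F : Set (ℝ × ℝ)) hp
  refine (ENNReal.ofReal_le_iff_le_toReal
    (F.finite_toSet.isCompact_convexHull ℝ).measure_lt_top.ne).1 (vol h1 h2 ▸ measure_mono ?_)
  rintro ⟨x, y⟩ ⟨⟨p1, p2⟩, p3⟩
  have l := C (m _ ha) (m _ hc) (sub_nonneg.2 p2) p1 (sub_add_cancel _ _)
  have u := C (m _ hb) (m _ hd) (sub_nonneg.2 p2) p1 (sub_add_cancel _ _)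
  rw [← segment_eq_Icc (p3.1.trans p3.2)] at p3
  obtain ⟨s, t, hs, ht, hst, e⟩ := p3
  convert C l u hs ht hst using 1
  simp only [smul_eq_mul] at e
  obtain rfl : t = 1 - s := by linarith
  ext <;> simp only [Prod.fst_add, Prod.snd_add, Prod.smul_fst, Prod.smul_snd, smul_eq_mul] <;>
    linarith

lemma fin (S : Finset (ℝ × ℝ)) : {a | ∃ F ⊆ S, F.card = 4 ∧ a = area F}.Finite :=
  (S.powerset.finite_toSet.image area).subset fun _ ⟨F, h1, _, h2⟩ =>
    ⟨F, by simpa using h1, h2.symm⟩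

lemma card4 {a b c d : ℝ} (h1 : a ≠ b) (h2 : c ≠ d) :
    ({((0 : ℝ), a), (0, b), (1, c), (1, d)} : Finset (ℝ × ℝ)).card = 4 := by
  rw [Finset.card_insert_of_notMem (by simp [h1]), Finset.card_insert_of_notMem (by simp),
    Finset.card_pair (by simp [h2])]

lemma std {m : ℕ} (hm : 2 ≤ m) :
    (2 * m - 1 : ℝ) / 2 ≤ bigT 4 (Sn (2 * m + 1)) / smallT 4 (Sn (2 * m + 1)) := by
  have s0 : ∀ j : ℕ, j ≤ m → ((0 : ℝ), (j : ℝ)) ∈ Sn (2 * m + 1) := fun j hj =>
    Finset.mem_union_left _ (Finset.mem_image_of_mem _ (Finset.mem_range.2 (by omega)))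
  have s1 : ∀ j : ℕ, j ≤ m - 1 → ((1 : ℝ), (j : ℝ)) ∈ Sn (2 * m + 1) := fun j hj =>
    Finset.mem_union_right _ (Finset.mem_image_of_mem _ (Finset.mem_range.2 (by omega)))
  have h2 : (2 : ℝ) ≤ m := by exact_mod_cast hm
  have sub : ∀ i j : ℕ, i ≤ m → j ≤ m - 1 →
      ({((0 : ℝ), (0 : ℝ)), (0, (i : ℝ)), (1, 0), (1, (j : ℝ))} : Finset (ℝ × ℝ)) ⊆
        Sn (2 * m + 1) := by
    intro i j hi hj p hp
    simp only [Finset.mem_insert, Finset.mem_singleton] at hp
    rcases hp with rfl | rfl | rfl | rfl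
    exacts [by simpa using s0 0 (by omega), s0 i hi, by simpa using s1 0 (by omega), s1 j hj]
  have e : ((m - 1 : ℕ) : ℝ) = m - 1 := by rw [Nat.cast_sub (by omega)]; simp
  have T : (2 * m - 1 : ℝ) / 2 ≤ bigT 4 (Sn (2 * m + 1)) := by
    refine le_csSup_of_le (fin _).bddAbove ⟨_, sub m (m - 1) le_rfl le_rfl,
      card4 (by linarith) (by linarith), rfl⟩ (le_trans (by linarith) (lower (a := 0) (b := m)
        (c := 0) (d := (m - 1 : ℕ)) (by linarith) (by linarith) ?_ ?_ ?_ ?_)) <;> simp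
  have hf : {a | 0 < a ∧ ∃ F ⊆ Sn (2 * m + 1), F.card = 4 ∧ a = area F}.Finite :=
    (fin _).subset fun _ h => h.2
  have mem : area {((0 : ℝ), (0 : ℝ)), (0, ((1 : ℕ) : ℝ)), (1, 0), (1, ((1 : ℕ) : ℝ))} ∈
      {a | 0 < a ∧ ∃ F ⊆ Sn (2 * m + 1), F.card = 4 ∧ a = area F} := by
    refine ⟨lt_of_lt_of_le (by norm_num) (lower (a := 0) (b := 1) (c := 0) (d := 1) zero_le_one
      zero_le_one ?_ ?_ ?_ ?_), _, sub 1 1 (by omega) (by omega), card4 (by simp) (by simp), rfl⟩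
      <;> simp
  have t0 : 0 < smallT 4 (Sn (2 * m + 1)) := (Nonempty.csInf_mem ⟨_, mem⟩ hf).1
  have t1 : smallT 4 (Sn (2 * m + 1)) ≤ 1 := by
    refine csInf_le_of_le hf.bddBelow mem ((upper (a := 0) (b := 1) (c := 0) (d := 1) zero_le_one
      zero_le_one ?_).trans (by norm_num))
    simp [Trap]
  rw [le_div_iff₀ t0]
  nlinarith

open Classical in
noncomputable def S (m : ℕ) : Finset (ℝ × ℝ) :=
  insert (1, 0) ((Finset.range (2 * m)).image fun j : ℕ => ((0 : ℝ), ((j / 2 * 4 + j % 2 : ℕ) : ℝ)))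

lemma mem_S {m : ℕ} {p : ℝ × ℝ} (h : p ∈ S m) (hp : p ≠ (1, 0)) :
    ∃ y : ℕ, y % 4 ≤ 1 ∧ y + 3 ≤ 4 * m ∧ p = (0, (y : ℝ)) := by
  obtain ⟨j, hj, rfl⟩ := Finset.mem_image.1 ((Finset.mem_insert.1 h).resolve_left hp)
  have := Finset.mem_range.1 hj
  exact ⟨_, by omega, by omega, rfl⟩

lemma S_mem {m : ℕ} (j : ℕ) (hj : j < 2 * m) (y : ℝ) (h : ((j / 2 * 4 + j % 2 : ℕ) : ℝ) = y) :
    ((0 : ℝ), y) ∈ S m :=
  Finset.mem_insert_of_mem (Finset.mem_image.2 ⟨j, Finset.mem_range.2 hj, by rw [h]⟩)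

lemma mine {m : ℕ} (hm : 2 ≤ m) : bigT 4 (S m) / smallT 4 (S m) ≤ (4 * m - 3 : ℝ) / 4 := by
  classical
  have h2 : (2 : ℝ) ≤ m := by exact_mod_cast hm
  have low : ∀ F : Finset (ℝ × ℝ), (1, 0) ∈ F → ∀ u v : ℕ, (0, (u : ℝ)) ∈ F → (0, (v : ℝ)) ∈ F →
      u + 4 ≤ v → 2 ≤ area F := fun F h u v hu hv huv => by
    have : (u : ℝ) + 4 ≤ v := by exact_mod_cast huv
    exact le_trans (by linarith) (lower (by linarith) le_rfl hu hv h h)
  have T : bigT 4 (S m) ≤ (4 * m - 3 : ℝ) / 2 := by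
    refine Real.sSup_le ?_ (by linarith)
    rintro _ ⟨F, h1, -, rfl⟩
    refine (upper (a := 0) (b := 4 * m - 3) (c := 0) (d := 0) (by linarith) le_rfl
      fun p hp => ?_).trans (by linarith)
    by_cases e : p = (1, 0)
    · simp [e, Trap]
    · obtain ⟨y, -, y2, rfl⟩ := mem_S (h1 hp) e
      have : (y : ℝ) + 3 ≤ 4 * m := by exact_mod_cast y2
      simp only [Trap, mem_ofPred_eq, mem_Icc, mul_zero, add_zero]
      exact ⟨⟨le_rfl, zero_le_one⟩, y.cast_nonneg, by linarith⟩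
  have t : 2 ≤ smallT 4 (S m) := by
    refine le_csInf ⟨area {(1, 0), (0, 0), (0, 1), (0, 4)}, ?_, _, ?_, ?_, rfl⟩ ?_
    · exact lt_of_lt_of_le two_pos (low _ (by simp) 0 4 (by simp) (by simp) le_rfl)
    · intro p hp
      simp only [Finset.mem_insert, Finset.mem_singleton] at hp
      rcases hp with rfl | rfl | rfl | rfl
      exacts [Finset.mem_insert_self _ _, S_mem 0 (by omega) _ (by simp),
        S_mem 1 (by omega) _ (by simp), S_mem 2 (by omega) _ (by simp)]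
    · rw [Finset.card_insert_of_notMem (by simp), Finset.card_insert_of_notMem (by simp),
        Finset.card_pair (by simp)]
    rintro _ ⟨h0, F, h1, h4, rfl⟩
    by_cases e : (1, 0) ∈ F
    · obtain ⟨p, q, r, pq, pr, qr, h⟩ := Finset.card_eq_three.1
        (show (F.erase (1, 0)).card = 3 by rw [Finset.card_erase_of_mem e, h4])
      have g : ∀ p ∈ F.erase (1, 0), ∃ y : ℕ, y % 4 ≤ 1 ∧ (0, (y : ℝ)) ∈ F ∧ p = (0, (y : ℝ)) :=
        fun p hp => by
          obtain ⟨a, b⟩ := Finset.mem_erase.1 hp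
          obtain ⟨y, y1, -, rfl⟩ := mem_S (h1 b) a
          exact ⟨y, y1, b, rfl⟩
      obtain ⟨x, x1, x2, rfl⟩ := g p (by simp [h])
      obtain ⟨y, y1, y2, rfl⟩ := g q (by simp [h])
      obtain ⟨z, z1, z2, rfl⟩ := g r (by simp [h])
      simp only [ne_eq, Prod.mk.injEq, true_and, Nat.cast_inj] at pq pr qr
      rcases (show x + 4 ≤ y ∨ x + 4 ≤ z ∨ y + 4 ≤ x ∨ y + 4 ≤ z ∨ z + 4 ≤ x ∨ z + 4 ≤ y by omega)
        with k | k | k | k | k | k <;> exact low F e _ _ (by assumption) (by assumption) k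
    · exfalso
      have : convexHull ℝ (F : Set (ℝ × ℝ)) ⊆ {0} ×ˢ univ :=
        convexHull_min (fun p hp => by
          obtain ⟨y, -, -, rfl⟩ := mem_S (h1 hp) fun f => e (f ▸ hp)
          simp) ((convex_singleton 0).prod convex_univ)
      have h := measure_mono (μ := volume) this
      rw [Measure.volume_eq_prod, Measure.prod_prod] at h
      simp only [Real.volume_singleton, zero_mul, nonpos_iff_eq_zero] at h
      simp [area, Measure.volume_eq_prod, h] at h0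
  rw [div_le_iff₀ (by linarith)]
  nlinarith

theorem main (N : ℕ) : ∃ n ≥ N, ∃ S : Finset (ℝ × ℝ), S.card = n ∧
    ¬ Collinear ℝ (S : Set (ℝ × ℝ)) ∧
    bigT 4 S / smallT 4 S < bigT 4 (Sn n) / smallT 4 (Sn n) := by
  classical
  refine ⟨2 * (N + 2) + 1, by omega, S (N + 2), ?_, fun h => ?_,
    (mine (by omega)).trans_lt (lt_of_lt_of_le (by linarith) (std (by omega)))⟩
  · rw [S, Finset.card_insert_of_notMem (by simp), Finset.card_image_of_injective, Finset.card_range]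
    intro i j h
    simp only [Prod.mk.injEq, true_and, Nat.cast_inj] at h
    omega
  · obtain ⟨v, hv⟩ := (collinear_iff_of_mem (p₀ := (0, 0))
      (S_mem 0 (by omega) _ (by simp))).1 h
    obtain ⟨a, ha⟩ := hv (1, 0) (Finset.mem_insert_self _ _)
    obtain ⟨b, hb⟩ := hv (0, 1) (S_mem 1 (by omega) _ (by simp))
    simp only [Prod.ext_iff, vadd_eq_add, Prod.fst_add, Prod.snd_add, Prod.smul_fst,
      Prod.smul_snd, smul_eq_mul, add_zero] at ha hb
    have : (1 : ℝ) * 1 = 0 * 0 := by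
      calc (1 : ℝ) * 1 = (a * v.1) * (b * v.2) := by rw [← ha.1, ← hb.2]
        _ = (a * v.2) * (b * v.1) := by ring
        _ = 0 * 0 := by rw [← ha.2, ← hb.1]
    simp at this

end Pool.Agent.H5.HullRatio
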