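import Mathlib

set_option autoImplicit false

namespace Pool.Agent.H5.HullRatioDefs

open MeasureTheory

/-- The area of the convex hull of a finite planar set. -/
noncomputable def area (F : Finset (ℝ × ℝ)) : ℝ :=
  (volume (convexHull ℝ (F : Set (ℝ × ℝ)))).toReal

/-- The largest hull area of a `k`-element subset. -/
noncomputable def bigT (k : ℕ) (S : Finset (ℝ × ℝ)) : ℝ :=
  sSup {a | ∃ F ⊆ S, F.card = k ∧ a = area F}

/-- The smallest positive hull area of a `k`-element subset. -/
noncomputable def smallT (k : ℕ) (S : Finset (ℝ × ℝ)) : ℝ :=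
  sInf {a | 0 < a ∧ ∃ F ⊆ S, F.card = k ∧ a = area F}

open Classical in
/-- The set `S_n` on two parallel lines. -/
noncomputable def Sn (n : ℕ) : Finset (ℝ × ℝ) :=
  (Finset.range ((n - 1) / 2 + 1)).image (fun j : ℕ => ((0 : ℝ), (j : ℝ))) ∪
    (Finset.range ((n - 2) / 2 + 1)).image (fun j : ℕ => ((1 : ℝ), (j : ℝ)))

end Pool.Agent.H5.HullRatioDefs
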