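import Pool.Agent.H5.SAP

set_option autoImplicit false

namespace Pool.Agent.H5.IAP

open Polynomial Matrix Pool.Agent.H5.SAPDefs Pool.Agent.H5.SAP

def A4 : Matrix (Fin 4) (Fin 4) SignType :=
  !![1, 1, 1, 0; 0, 0, 0, 1; -1, 0, -1, 0; 0, -1, -1, 0]

def A4' : Matrix (Fin 4) (Fin 4) SignType :=
  !![1, 1, 1, 0; 1, 0, 0, 1; -1, 0, -1, 0; 0, -1, -1, 0]

lemma A4_super : IsSuperpattern A4' A4 := by
  unfold IsSuperpattern
  decide

lemma A4_real (τ δ m κ : ℝ) (hm : 0 < m) (hκ : 0 < κ) : ∃ B, Realizes A4 B ∧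
    ∀ t, B.charpoly.eval t = (t ^ 2 + m) * (t ^ 2 - τ * t + δ) - κ := by
  obtain ⟨f, ⟨h1, h2⟩, h3⟩ := (((Filter.eventually_gt_atTop (0 : ℝ)).and
    (Filter.eventually_gt_atTop (-τ))).and (ev_quad one_pos τ δ)).exists
  refine ⟨!![f + τ, 1, 1, 0; 0, 0, 0, 1; -(1 * f ^ 2 + τ * f + δ), 0, -f, 0;
    0, -m, -(κ / (1 * f ^ 2 + τ * f + δ)), 0], ?_, ?_⟩
  · have := div_pos hκ h3
    intro i j
    fin_cases i <;> fin_cases j <;> simp only [A4] <;>
      simp [sign_eq_one_iff, sign_eq_neg_one_iff, -one_mul] <;> linarith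
  · intro t
    rw [ev4]
    have := mul_div_cancel₀ κ h3.ne'
    linear_combination -this

lemma aroots_eq {n : ℕ} (B : Matrix (Fin n) (Fin n) ℝ) (s : Multiset ℂ)
    (h : ∀ t : ℝ, ((B.charpoly.eval t : ℝ) : ℂ) = (s.map (fun z => (t : ℂ) - z)).prod) :
    B.charpoly.aroots ℂ = s := by
  have : B.charpoly.map (algebraMap ℝ ℂ) = (s.map (fun z => X - C z)).prod := by
    apply Polynomial.eq_of_infinite_eval_eq
    apply Set.Infinite.mono _ (Set.infinite_range_of_injective Complex.ofReal_injective)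
    rintro _ ⟨t, rfl⟩
    simp only [Set.mem_ofPred_eq]
    rw [show ((t : ℝ) : ℂ) = algebraMap ℝ ℂ t from rfl, Polynomial.eval_map_algebraMap,
      Polynomial.aeval_algebraMap_apply, Polynomial.eval_multiset_prod]
    simpa using h t
  rw [aroots_def, this, Polynomial.roots_multiset_prod_X_sub_C]

def Allow {n : ℕ} (P : Matrix (Fin n) (Fin n) SignType) (p q r : ℕ) : Prop :=
  ∃ B, Realizes P B ∧ inertia B = (p, q, r)

lemma aroots_dsum {m n : ℕ} (A : Matrix (Fin m) (Fin m) ℝ) (B : Matrix (Fin n) (Fin n) ℝ) :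
    (dsum A B).charpoly.aroots ℂ = A.charpoly.aroots ℂ + B.charpoly.aroots ℂ := by
  rw [charpoly_dsum, aroots_mul]
  exact mul_ne_zero (Matrix.charpoly_monic A).ne_zero (Matrix.charpoly_monic B).ne_zero

lemma allow_dsum {m n : ℕ} {P : Matrix (Fin m) (Fin m) SignType}
    {Q : Matrix (Fin n) (Fin n) SignType} {p q r p' q' r' : ℕ} (h : Allow P p q r)
    (h' : Allow Q p' q' r') : Allow (dsum P Q) (p + p') (q + q') (r + r') := by
  obtain ⟨A, hA, iA⟩ := h
  obtain ⟨B, hB, iB⟩ := h'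
  refine ⟨dsum A B, realizes_dsum hA hB, ?_⟩
  simp only [inertia, Prod.mk.injEq] at iA iB ⊢
  simp only [aroots_dsum, Multiset.countP_add, iA, iB, and_self]

lemma T2_roots (x y : ℝ) : ∃ B, Realizes T2 B ∧ B.charpoly.aroots ℂ = {(x : ℂ), (y : ℂ)} := by
  obtain ⟨B, hB, h⟩ := T2_real (-(x + y)) (x * y)
  refine ⟨B, hB, aroots_eq B _ fun t => ?_⟩
  rw [h]
  simp
  ring

lemma cP1 (p : ℂ → Prop) [DecidablePred p] (a : ℂ) :
    Multiset.countP p {a} = if p a then 1 else 0 := by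
  rw [← Multiset.cons_zero, Multiset.countP_cons]
  simp

lemma T2_allow (p q r : ℕ) (h : p + q + r = 2) : Allow T2 p q r := by
  have key : ∀ (x y : ℝ) (p q r : ℕ),
      Multiset.countP (fun z : ℂ => 0 < z.re) {(x : ℂ), (y : ℂ)} = p →
      Multiset.countP (fun z : ℂ => z.re < 0) {(x : ℂ), (y : ℂ)} = q →
      Multiset.countP (fun z : ℂ => z.re = 0) {(x : ℂ), (y : ℂ)} = r → Allow T2 p q r := by
    intro x y p q r h1 h2 h3
    obtain ⟨B, hB, h⟩ := T2_roots x y
    exact ⟨B, hB, by simp only [inertia, h, h1, h2, h3]⟩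
  have hp : p ≤ 2 := by omega
  have hq : q ≤ 2 := by omega
  obtain rfl : r = 2 - p - q := by omega
  interval_cases p <;> interval_cases q <;> first
    | omega
    | (refine key 0 0 _ _ _ ?_ ?_ ?_ <;> norm_num [Multiset.countP_cons, cP1]; done)
    | (refine key 0 1 _ _ _ ?_ ?_ ?_ <;> norm_num [Multiset.countP_cons, cP1]; done)
    | (refine key 0 (-1) _ _ _ ?_ ?_ ?_ <;> norm_num [Multiset.countP_cons, cP1]; done)
    | (refine key 1 1 _ _ _ ?_ ?_ ?_ <;> norm_num [Multiset.countP_cons, cP1]; done)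
    | (refine key 1 (-1) _ _ _ ?_ ?_ ?_ <;> norm_num [Multiset.countP_cons, cP1]; done)
    | (refine key (-1) (-1) _ _ _ ?_ ?_ ?_ <;> norm_num [Multiset.countP_cons, cP1]; done)

lemma A4_key (τ δ m κ : ℝ) (hm : 0 < m) (hκ : 0 < κ) (s : Multiset ℂ) (p q r : ℕ)
    (h : ∀ t : ℂ, (t ^ 2 + m) * (t ^ 2 - τ * t + δ) - κ = (s.map (fun z => t - z)).prod)
    (h1 : Multiset.countP (fun z : ℂ => 0 < z.re) s = p)
    (h2 : Multiset.countP (fun z : ℂ => z.re < 0) s = q)
    (h3 : Multiset.countP (fun z : ℂ => z.re = 0) s = r) : Allow A4 p q r := by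
  obtain ⟨B, hB, hc⟩ := A4_real τ δ m κ hm hκ
  have : B.charpoly.aroots ℂ = s := aroots_eq B s fun t => by
    rw [hc, ← h]; push_cast; ring
  exact ⟨B, hB, by simp only [inertia, this, h1, h2, h3]⟩

lemma a400 : Allow A4 4 0 0 :=
  A4_key 4 5 1 4 one_pos (by norm_num) {1, 1, 1, 1} _ _ _ (fun t => by simp; ring)
    (by norm_num [Multiset.countP_cons, cP1]) (by norm_num [Multiset.countP_cons, cP1])
    (by norm_num [Multiset.countP_cons, cP1])

lemma a040 : Allow A4 0 4 0 :=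
  A4_key (-4) 5 1 4 one_pos (by norm_num) {-1, -1, -1, -1} _ _ _ (fun t => by simp; ring)
    (by norm_num [Multiset.countP_cons, cP1]) (by norm_num [Multiset.countP_cons, cP1])
    (by norm_num [Multiset.countP_cons, cP1])

lemma a004 : Allow A4 0 0 4 :=
  A4_key 0 2 2 4 two_pos (by norm_num) {0, 0, 2 * Complex.I, -(2 * Complex.I)} _ _ _
    (fun t => by simp; linear_combination (4 * t ^ 2) * Complex.I_sq)
    (by norm_num [Multiset.countP_cons, cP1]) (by norm_num [Multiset.countP_cons, cP1])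
    (by norm_num [Multiset.countP_cons, cP1])

lemma a112 : Allow A4 1 1 2 :=
  A4_key 0 2 1 6 one_pos (by norm_num) {1, -1, 2 * Complex.I, -(2 * Complex.I)} _ _ _
    (fun t => by simp; linear_combination (4 * (t ^ 2 - 1)) * Complex.I_sq)
    (by norm_num [Multiset.countP_cons, cP1]) (by norm_num [Multiset.countP_cons, cP1])
    (by norm_num [Multiset.countP_cons, cP1])

lemma a301 : Allow A4 3 0 1 :=
  A4_key 9 24 3 72 (by norm_num) (by norm_num) {0, 3, 3, 3} _ _ _
    (fun t => by simp; ring)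
    (by norm_num [Multiset.countP_cons, cP1]) (by norm_num [Multiset.countP_cons, cP1])
    (by norm_num [Multiset.countP_cons, cP1])

lemma a031 : Allow A4 0 3 1 :=
  A4_key (-9) 24 3 72 (by norm_num) (by norm_num) {0, -3, -3, -3} _ _ _
    (fun t => by simp; ring)
    (by norm_num [Multiset.countP_cons, cP1]) (by norm_num [Multiset.countP_cons, cP1])
    (by norm_num [Multiset.countP_cons, cP1])

lemma a310 : Allow A4 3 1 0 :=
  A4_key 11 (380 / 11) (16 / 11) (13824 / 121) (by norm_num) (by norm_num) {4, 4, 4, -1} _ _ _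
    (fun t => by simp; ring)
    (by norm_num [Multiset.countP_cons, cP1]) (by norm_num [Multiset.countP_cons, cP1])
    (by norm_num [Multiset.countP_cons, cP1])

theorem iap : InertiallyArbitrary (dsum A4 T2) := by
  intro p q r h
  have use : ∀ {a b c : ℕ}, Allow A4 a b c → a + b + c = 4 → a ≤ p → b ≤ q → c ≤ r →
      Allow (dsum A4 T2) p q r := by
    intro a b c ha h4 h1 h2 h3
    have := allow_dsum ha (T2_allow (p - a) (q - b) (r - c) (by omega))
    rwa [Nat.add_sub_cancel' h1, Nat.add_sub_cancel' h2, Nat.add_sub_cancel' h3] at this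
  by_cases c1 : 4 ≤ p
  · exact use a400 rfl c1 (by omega) (by omega)
  by_cases c2 : 4 ≤ q
  · exact use a040 rfl (by omega) c2 (by omega)
  by_cases c3 : 4 ≤ r
  · exact use a004 rfl (by omega) (by omega) c3
  by_cases c4 : r = 0
  · exact use a310 rfl (by omega) (by omega) (by omega)
  by_cases c5 : p = 3
  · exact use a301 rfl (by omega) (by omega) (by omega)
  by_cases c6 : q = 3
  · exact use a031 rfl (by omega) (by omega) (by omega)
  exact use a112 rfl (by omega) (by omega) (by omega)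

lemma card_aroots {n : ℕ} (B : Matrix (Fin n) (Fin n) ℝ) : (B.charpoly.aroots ℂ).card = n := by
  rw [aroots_def, ← (IsAlgClosed.splits _).natDegree_eq_card_roots,
    (Matrix.charpoly_monic B).natDegree_map]
  simp

lemma eval_aroots {n : ℕ} (B : Matrix (Fin n) (Fin n) ℝ) (t : ℝ) :
    ((B.charpoly.eval t : ℝ) : ℂ) = ((B.charpoly.aroots ℂ).map (fun z => (t : ℂ) - z)).prod := by
  have h := (IsAlgClosed.splits (B.charpoly.map (algebraMap ℝ ℂ))).eq_prod_roots_of_monic
    ((Matrix.charpoly_monic B).map _)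
  have h2 := congrArg (Polynomial.eval (t : ℂ)) h
  rw [show ((t : ℝ) : ℂ) = algebraMap ℝ ℂ t from rfl, Polynomial.eval_map_algebraMap,
      Polynomial.aeval_algebraMap_apply, Polynomial.eval_multiset_prod] at h2
  simpa [aroots_def] using h2

theorem not_iap : ¬ InertiallyArbitrary (dsum A4' T2) := by
  intro h
  obtain ⟨M, hM, hi⟩ := h 0 0 6 rfl
  obtain ⟨A, B, hA, -, rfl⟩ := of_realizes_dsum hM
  simp only [inertia, Prod.mk.injEq, aroots_dsum, Multiset.countP_add] at hi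
  have hre : ∀ z ∈ A.charpoly.aroots ℂ, z.re = 0 := by
    intro z hz
    have h1 : Multiset.countP (fun z : ℂ => 0 < z.re) (A.charpoly.aroots ℂ) = 0 := by omega
    have h2 : Multiset.countP (fun z : ℂ => z.re < 0) (A.charpoly.aroots ℂ) = 0 := by omega
    rw [Multiset.countP_eq_zero] at h1 h2
    exact le_antisymm (not_lt.1 (h1 z hz)) (not_lt.1 (h2 z hz))
  obtain ⟨z1, z2, z3, z4, hz⟩ := Multiset.card_eq_four.1 (card_aroots A)
  have hev := eval_aroots A
  rw [hz] at hre hev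
  have r1 : z1.re = 0 := hre _ (by simp)
  have r2 : z2.re = 0 := hre _ (by simp)
  have r3 : z3.re = 0 := hre _ (by simp)
  have r4 : z4.re = 0 := hre _ (by simp)
  have hodd : ∀ t : ℝ, A.charpoly.eval t = A.charpoly.eval (-t) := by
    intro t
    have e1 := congrArg Complex.re (hev t)
    have e2 := congrArg Complex.re (hev (-t))
    simp [r1, r2, r3, r4] at e1 e2
    rw [e1, e2]
    ring
  rw [eta4 A] at hodd
  simp only [ev4] at hodd
  have s01 : 0 < A 0 1 := sign_eq_one_iff.1 (hA 0 1)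
  have s03 : A 0 3 = 0 := sign_eq_zero_iff.1 (hA 0 3)
  have s10 : 0 < A 1 0 := sign_eq_one_iff.1 (hA 1 0)
  have s11 : A 1 1 = 0 := sign_eq_zero_iff.1 (hA 1 1)
  have s12 : A 1 2 = 0 := sign_eq_zero_iff.1 (hA 1 2)
  have s21 : A 2 1 = 0 := sign_eq_zero_iff.1 (hA 2 1)
  have s22 : A 2 2 < 0 := sign_eq_neg_one_iff.1 (hA 2 2)
  have s23 : A 2 3 = 0 := sign_eq_zero_iff.1 (hA 2 3)
  have s30 : A 3 0 = 0 := sign_eq_zero_iff.1 (hA 3 0)
  have s33 : A 3 3 = 0 := sign_eq_zero_iff.1 (hA 3 3)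
  rw [s03, s11, s12, s21, s23, s30, s33] at hodd
  have e1 := hodd 1
  have e2 := hodd 2
  have t1 : A 0 0 + A 2 2 = 0 := by linear_combination (1 / 6) * e1 - (1 / 12) * e2
  have t3 : A 2 2 * (A 0 1 * A 1 0) = 0 := by
    linear_combination (1 / 2) * e1 + (1 - A 1 3 * A 3 1) * t1
  have := mul_neg_of_neg_of_pos s22 (mul_pos s01 s10)
  linarith

end Pool.Agent.H5.IAP
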