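import Pool.Agent.H5.IStDefs

namespace Pool.Agent.H5.ISt
open Filter Topology Set Cardinal Finset

lemma span_small (A : Set ℝ) (h : #A < continuum) : #(Submodule.span ℚ A) < continuum := by
  by_contra hc
  have h1 := Module.Free.rank_eq_mk_of_infinite_lt ℚ (Submodule.span ℚ A)
    (by simpa using aleph0_lt_continuum.trans_le (not_lt.1 hc))
  have h2 := rank_span_le (R := ℚ) A
  rw [h1] at h2
  exact hc (h2.trans_lt h)

lemma transv {K : Type} (hK : #K ≤ continuum) (S : K → Set ℝ) (B : Set ℝ) (hB : #B < continuum)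
    (hS : ∀ k, #(S k) = continuum) : ∃ v : K → ℝ, (∀ k, v k ∈ S k) ∧
      ∀ k (J : Set K), k ∉ J → v k ∉ Submodule.span ℚ (B ∪ v '' J) := by
  classical
  obtain ⟨_, _, hord⟩ := Cardinal.exists_ord_eq_type_lt K
  have hsmall : ∀ (k : K) (f : Set.Iio k → ℝ), ∃ r ∈ S k, r ∉ Submodule.span ℚ (B ∪ Set.range f) := by
    intro k f
    by_contra hh
    push Not at hh
    have h2 : #(Set.range f) < continuum := (mk_range_le.trans_lt (mk_Iio_lt k hord)).trans_le hK
    have h3 := span_small (B ∪ Set.range f)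
      ((mk_union_le _ _).trans_lt (add_lt_of_lt aleph0_le_continuum hB h2))
    have h4 : #(S k) ≤ #(Submodule.span ℚ (B ∪ Set.range f)) := mk_le_mk_of_subset hh
    rw [hS k] at h4
    exact h3.not_ge h4
  choose F hF hF' using hsmall
  let v : K → ℝ := WellFoundedLT.fix (motive := fun _ => ℝ) fun k f => F k (fun j => f j.1 j.2)
  have hv : ∀ k, v k = F k (fun j => v j.1) := fun k => by
    simp only [v]
    rw [WellFoundedLT.fix_eq]
  have base : ∀ k (J : Set K), J ⊆ Set.Iio k → v k ∉ Submodule.span ℚ (B ∪ v '' J) := fun k J hJ h => by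
    refine hF' k (fun j => v j.1) (hv k ▸ Submodule.span_mono (Set.union_subset_union_right _ ?_) h)
    rintro _ ⟨j, hj, rfl⟩
    exact ⟨⟨j, hJ hj⟩, rfl⟩
  have fin : ∀ (s : Finset K) k, k ∉ s → v k ∉ Submodule.span ℚ (B ∪ v '' s) := by
    intro s
    induction s using Finset.induction_on_max with
    | empty => exact fun k _ => base k _ (by simp)
    | insert m s hm ih =>
      intro k hk h
      rw [Finset.mem_insert, not_or] at hk
      rcases lt_or_gt_of_ne hk.1 with h1 | h1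
      · rw [Finset.coe_insert, Set.image_insert_eq, Set.union_insert] at h
        have := mem_span_insert_exchange h (ih k hk.2)
        rw [← Set.union_insert, ← Set.image_insert_eq] at this
        refine base m _ ?_ this
        rintro x (rfl | hx)
        · exact h1
        · exact hm x hx
      · refine base k _ ?_ h
        intro x hx
        rcases Finset.mem_insert.1 hx with rfl | hx
        · exact h1
        · exact (hm x hx).trans h1
  refine ⟨v, fun k => hv k ▸ hF k _, fun k J hJ h => ?_⟩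
  have : ∀ x ∈ Submodule.span ℚ (B ∪ v '' J), ∃ s : Finset K, (↑s : Set K) ⊆ J ∧
      x ∈ Submodule.span ℚ (B ∪ v '' s) := by
    intro x hx
    induction hx using Submodule.span_induction with
    | mem x hx =>
      rcases hx with hx | ⟨j, hj, rfl⟩
      · exact ⟨∅, by simp, Submodule.subset_span (Or.inl hx)⟩
      · exact ⟨{j}, by simpa using hj, Submodule.subset_span (Or.inr ⟨j, by simp, rfl⟩)⟩
    | zero => exact ⟨∅, by simp, Submodule.zero_mem _⟩
    | add x y _ _ hx hy =>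
      obtain ⟨s, hs, hx⟩ := hx
      obtain ⟨t, ht, hy⟩ := hy
      refine ⟨s ∪ t, by simp [hs, ht], Submodule.add_mem _ (Submodule.span_mono ?_ hx) (Submodule.span_mono ?_ hy)⟩
      · exact Set.union_subset_union_right _ (Set.image_mono (by simp))
      · exact Set.union_subset_union_right _ (Set.image_mono (by simp))
    | smul c x _ hx =>
      obtain ⟨s, hs, hx⟩ := hx
      exact ⟨s, hs, Submodule.smul_mem _ _ hx⟩
  obtain ⟨s, hs, hx⟩ := this _ h
  exact fin s k (fun hk => hJ (hs hk)) hx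

def Fast (t : ℕ → ℝ) : Prop := (∀ k, t k ≠ 0) ∧ ∀ k, |t (k + 1)| ≤ |t k| / 4

def tm (t : ℕ → ℝ) (b : ℕ → Bool) (k : ℕ) : ℝ := if b k = true then t k else 0

noncomputable def tl (t : ℕ → ℝ) (b : ℕ → Bool) (j : ℕ) : ℝ := ∑' i, tm t b (i + j)

lemma fast_pow {t : ℕ → ℝ} (h : Fast t) (j i : ℕ) : |t (i + j)| ≤ |t j| * (1 / 4) ^ i := by
  induction i with
  | zero => simp
  | succ i ih =>
    have := h.2 (i + j)
    rw [show i + 1 + j = i + j + 1 by ring, pow_succ]; linarith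

lemma tm_le {t : ℕ → ℝ} (h : Fast t) (b : ℕ → Bool) (j i : ℕ) : ‖tm t b (i + j)‖ ≤ |t j| * (1 / 4) ^ i := by
  unfold tm; split_ifs
  · exact fast_pow h j i
  · simp only [norm_zero]; positivity

lemma geo (c : ℝ) : HasSum (fun i : ℕ => c * (1 / 4 : ℝ) ^ i) (c * (4 / 3)) := by
  have := (hasSum_geometric_of_lt_one (r := (1 / 4 : ℝ)) (by norm_num) (by norm_num)).mul_left c
  rwa [show (1 - 1 / 4 : ℝ)⁻¹ = 4 / 3 by norm_num] at this

lemma tm_sum {t : ℕ → ℝ} (h : Fast t) (b : ℕ → Bool) : Summable (tm t b) :=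
  Summable.of_norm_bounded (geo |t 0|).summable fun i => tm_le h b 0 i

lemma tl_le {t : ℕ → ℝ} (h : Fast t) (b : ℕ → Bool) (j : ℕ) : |tl t b j| ≤ |t j| * (4 / 3) :=
  tsum_of_norm_bounded (geo |t j|) fun i => tm_le h b j i

lemma tl_split {t : ℕ → ℝ} (h : Fast t) (b : ℕ → Bool) (j : ℕ) :
    ∑ i ∈ range j, tm t b i + tl t b j = tl t b 0 := (tm_sum h b).sum_add_tsum_nat_add j

lemma tl_inj {t : ℕ → ℝ} (h : Fast t) : Function.Injective fun b => tl t b 0 := by
  classical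
  intro b b' he
  by_contra hne
  have hex : ∃ j, b j ≠ b' j := by
    by_contra hh; push Not at hh; exact hne (funext hh)
  set j := Nat.find hex
  have h1 : b j ≠ b' j := Nat.find_spec hex
  have h2 : ∑ i ∈ range j, tm t b i = ∑ i ∈ range j, tm t b' i := sum_congr rfl fun i hi => by
    have := Nat.find_min hex (Finset.mem_range.1 hi)
    push Not at this
    simp only [tm, this]
  have a1 := tl_split h b (j + 1)
  have a2 := tl_split h b' (j + 1)
  rw [sum_range_succ] at a1 a2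
  have a3 := abs_le.1 (tl_le h b (j + 1))
  have a4 := abs_le.1 (tl_le h b' (j + 1))
  have a5 := h.2 j
  have a6 := abs_pos.2 (h.1 j)
  simp only at he
  have a7 : |tm t b j - tm t b' j| = |t j| := by
    unfold tm
    cases hb : b j <;> cases hb' : b' j <;> simp_all
  have a8 : |tm t b j - tm t b' j| ≤ |t j| * (2 / 3) := abs_le.2 ⟨by linarith, by linarith⟩
  linarith

lemma mk_sums {t : ℕ → ℝ} (h : Fast t) : #(Set.range fun b => tl t b 0) = continuum := by
  rw [mk_range_eq _ (tl_inj h)]; simp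

noncomputable def NN (x : ℝ) : ℝ := ‖(x : UnitAddCircle)‖

lemma NN_le (x : ℝ) : NN x ≤ |x| := QuotientAddGroup.norm_mk_le_norm

lemma coe_int (f : ℤ) : ((f : ℝ) : UnitAddCircle) = 0 := (AddCircle.coe_eq_zero_iff 1).2 ⟨f, by simp⟩

lemma smul_coe (a : ℤ) (x : ℝ) : a • (x : UnitAddCircle) = ((a * x : ℝ) : UnitAddCircle) := by
  rw [← AddCircle.coe_zsmul, zsmul_eq_mul]

def GG (a : ℕ → ℤ) (T : Set ℕ) (x : ℝ) : Prop :=
  Tendsto (fun n => a n • (x : UnitAddCircle)) (atTop ⊓ 𝓟 T) (𝓝 0)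

lemma GG_ev {a : ℕ → ℤ} {T : Set ℕ} {x : ℝ} (h : GG a T x) {ε : ℝ} (hε : 0 < ε) :
    ∃ M, ∀ n ≥ M, n ∈ T → ‖a n • (x : UnitAddCircle)‖ < ε := by
  have := (NormedAddGroup.tendsto_nhds_zero.1 h) ε hε
  rwa [eventually_inf_principal, eventually_atTop] at this

lemma step2 {a : ℕ → ℤ} {T : Set ℕ} (h : ∀ δ > 0, ∃ η : ℝ, η ≠ 0 ∧ |η| ≤ δ ∧ GG a T η ∧
    ∀ n ∈ T, ‖a n • (η : UnitAddCircle)‖ ≤ δ) : ∃ u, Fast u ∧ ∀ b, GG a T (tl u b 0) := by
  choose! η h1 h2 h3 h4 using h
  obtain ⟨u, hu0, hu⟩ : ∃ u : ℕ → ℝ, u 0 = η 1 ∧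
      ∀ k, u (k + 1) = η (min (|u k| / 4) ((1 / 2) ^ (k + 1))) :=
    ⟨fun k => Nat.rec (η 1) (fun k x => η (min (|x| / 4) ((1 / 2) ^ (k + 1)))) k, rfl, fun _ => rfl⟩
  have hne : ∀ k, u k ≠ 0 := fun k => by
    induction k with
    | zero => rw [hu0]; exact h1 1 one_pos
    | succ k ih => rw [hu]; exact h1 _ (lt_min (by have := abs_pos.2 ih; positivity) (by positivity))
  have hp : ∀ k, 0 < min (|u k| / 4) ((1 / 2) ^ (k + 1)) := fun k =>
    lt_min (by have := abs_pos.2 (hne k); positivity) (by positivity)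
  have hf : Fast u := ⟨hne, fun k => by rw [hu]; exact (h2 _ (hp k)).trans (min_le_left _ _)⟩
  have hG : ∀ k, GG a T (u k) ∧ ∀ n ∈ T, ‖a n • (u k : UnitAddCircle)‖ ≤ (1 / 2) ^ k := fun k => by
    cases k with
    | zero => rw [hu0, pow_zero]; exact ⟨h3 1 one_pos, h4 1 one_pos⟩
    | succ k => rw [hu]; exact ⟨h3 _ (hp k), fun n hn => (h4 _ (hp k) n hn).trans (min_le_right _ _)⟩
  refine ⟨u, hf, fun b => ?_⟩
  have key := tendsto_tsum_of_dominated_convergence (𝓕 := atTop ⊓ 𝓟 T)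
    (f := fun n k => a n • ((tm u b k : ℝ) : UnitAddCircle)) (g := fun _ => 0)
    (bound := fun k => (1 / 2 : ℝ) ^ k) summable_geometric_two (fun k => by
      unfold tm; split_ifs
      · exact (hG k).1
      · simpa using tendsto_const_nhds) (by
      refine (eventually_inf_principal.2 (Eventually.of_forall fun n hn k => ?_))
      unfold tm; split_ifs
      · exact (hG k).2 n hn
      · simp)
  simp only [tsum_zero] at key
  refine key.congr fun n => ?_
  have h5 := ((tm_sum hf b).hasSum.map (QuotientAddGroup.mk' (AddSubgroup.zmultiples (1 : ℝ)))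
    (AddCircle.continuous_mk' 1)).const_smul (a n)
  exact h5.tsum_eq

lemma step1 {a : ℕ → ℤ} {T : Set ℕ} {x : ℝ} (hx : Irrational x) (h : GG a T x) :
    ∃ t, Fast t ∧ ∀ (c : ℕ → Bool) (T' : Set ℕ), T' ⊆ T → GG a T' (tl t c 0) →
      (∀ d f : ℤ, tl t c 0 ≠ d * x - f) → ∃ u, Fast u ∧ ∀ b, GG a T' (tl u b 0) := by
  have ex : ∀ (j : ℕ) (D τ : ℝ), 0 ≤ D → 0 < τ → ∃ (M : ℕ) (e f : ℤ), j ≤ M ∧
      (∀ n ≥ M, n ∈ T → D * ‖a n • (x : UnitAddCircle)‖ ≤ 1 / (j + 1)) ∧ e * x - f ≠ 0 ∧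
      |e * x - f| ≤ τ ∧ |e * x - f| ≤ 1 / (j + 1) ∧ ∀ n < M, |(a n : ℝ)| * |e * x - f| ≤ 1 / (j + 1) := by
    intro j D τ hD hτ
    obtain ⟨M, hM⟩ := GG_ev h (ε := 1 / (j + 1) / (D + 1)) (by positivity)
    set A : ℝ := ∑ n ∈ range (max M j), |(a n : ℝ)| + 1 with hA
    have hA1 : 1 ≤ A := by
      have : 0 ≤ ∑ n ∈ range (max M j), |(a n : ℝ)| := sum_nonneg fun _ _ => abs_nonneg _
      linarith
    obtain ⟨q, hq⟩ := exists_nat_one_div_lt (lt_min hτ (by positivity : 0 < 1 / (j + 1 : ℝ) / A))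
    obtain ⟨f, e, he, -, hef⟩ := Real.exists_int_int_abs_mul_sub_le x (n := q + 1) (by omega)
    have h0 : |e * x - f| ≤ 1 / ((q : ℝ) + 1) := hef.trans (by
      apply one_div_le_one_div_of_le (by positivity); push_cast; linarith)
    have h1 := h0.trans_lt (hq.trans_le (min_le_right _ _))
    rw [lt_div_iff₀ (by linarith)] at h1
    have h2 := abs_nonneg (e * x - f)
    refine ⟨max M j, e, f, le_max_right _ _, fun n hn hT => ?_, ?_,
      h0.trans (hq.le.trans (min_le_left _ _)), by nlinarith, fun n hn => ?_⟩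
    · have := hM n (le_trans (le_max_left _ _) hn) hT
      rw [lt_div_iff₀ (by linarith)] at this
      have := norm_nonneg (a n • (x : UnitAddCircle))
      nlinarith
    · exact sub_ne_zero.2 ((hx.intCast_mul he.ne').ne_int f)
    · have : |(a n : ℝ)| ≤ ∑ n ∈ range (max M j), |(a n : ℝ)| :=
        single_le_sum (f := fun n => |(a n : ℝ)|) (fun _ _ => abs_nonneg _) (Finset.mem_range.2 hn)
      nlinarith
  choose! M e f h1 h2 h3 h4 h5 h6 using ex
  let s : ℕ → ℝ × ℝ := fun k => Nat.rec (0, 1)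
    (fun k p => (p.1 + |(e k p.1 p.2 : ℝ)|, |e k p.1 p.2 * x - f k p.1 p.2| / 4)) k
  let E : ℕ → ℤ := fun k => e k (s k).1 (s k).2
  let t : ℕ → ℝ := fun k => E k * x - f k (s k).1 (s k).2
  have hs : ∀ k, s (k + 1) = ((s k).1 + |(E k : ℝ)|, |t k| / 4) := fun k => rfl
  have hp : ∀ k, 0 ≤ (s k).1 ∧ 0 < (s k).2 := fun k => by
    induction k with
    | zero => exact ⟨le_rfl, one_pos⟩
    | succ k ih =>
      rw [hs]
      have := abs_pos.2 (h3 k _ _ ih.1 ih.2)
      exact ⟨add_nonneg ih.1 (abs_nonneg _), by positivity⟩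
  have hf : Fast t := ⟨fun k => h3 k _ _ (hp k).1 (hp k).2, fun k => h4 (k + 1) _ _ (hp (k + 1)).1 (hp (k + 1)).2⟩
  refine ⟨t, hf, fun c T' hT hy hind => step2 fun δ hδ => ?_⟩
  have part : ∀ j, ∃ d g : ℤ, ∑ i ∈ range j, tm t c i = d * x - g ∧ |(d : ℝ)| ≤ (s j).1 := fun j => by
    induction j with
    | zero => exact ⟨0, 0, by simp, by simp [s]⟩
    | succ j ih =>
      obtain ⟨d, g, a1, a2⟩ := ih
      rw [sum_range_succ, a1, hs]
      unfold tm; split_ifs
      · refine ⟨d + E j, g + f j (s j).1 (s j).2, by simp only [t]; push_cast; ring, ?_⟩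
        push_cast; exact (abs_add_le _ _).trans (by linarith)
      · exact ⟨d, g, by ring, a2.trans (by simp)⟩
  obtain ⟨M0, hM0⟩ := GG_ev hy (half_pos hδ)
  obtain ⟨q, hq⟩ := exists_nat_one_div_lt (half_pos hδ)
  set j := max M0 q
  have hj : 1 / ((j : ℝ) + 1) ≤ δ / 2 := le_trans (by
    apply one_div_le_one_div_of_le (by positivity)
    have : (q : ℝ) ≤ j := by exact_mod_cast le_max_right M0 q
    linarith) hq.le
  obtain ⟨d, g, a1, a2⟩ := part j
  have a3 := tl_split hf c j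
  rw [a1] at a3
  have a4 : ((tl t c j : ℝ) : UnitAddCircle) = (tl t c 0 : ℝ) - d • (x : UnitAddCircle) := by
    rw [← a3, AddCircle.coe_add, AddCircle.coe_sub, coe_int, smul_coe]; abel
  have a5 := tl_le hf c j
  have a6 : |t j| ≤ 1 / (j + 1) := h5 j _ _ (hp j).1 (hp j).2
  refine ⟨tl t c j, fun h0 => hind d g (by rw [← a3, h0]; ring), by linarith, ?_, fun n hn => ?_⟩
  · unfold GG
    simp only [a4, smul_sub, smul_comm _ d]
    have := (show Tendsto _ _ _ from hy).sub (((show Tendsto _ _ _ from h).mono_left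
      (inf_le_inf_left _ (principal_mono.2 hT))).const_smul d)
    simpa using this
  · by_cases hn' : n < M j (s j).1 (s j).2
    · have b1 := h6 j _ _ (hp j).1 (hp j).2 n hn'
      rw [smul_coe]
      refine (NN_le _).trans ?_
      rw [abs_mul]
      have := mul_le_mul_of_nonneg_left a5 (abs_nonneg (a n : ℝ))
      have b2 : |(a n : ℝ)| * |t j| ≤ 1 / (j + 1) := b1
      linarith
    · have b1 := h2 j _ _ (hp j).1 (hp j).2 n (not_lt.1 hn') (hT hn)
      have b2 := hM0 n (le_trans (le_trans (le_max_left _ _) (h1 j _ _ (hp j).1 (hp j).2)) (not_lt.1 hn')) hn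
      rw [a4, smul_sub, smul_comm _ d]
      refine (norm_sub_le _ _).trans ?_
      have b3 := norm_zsmul_le d (a n • (x : UnitAddCircle))
      rw [Int.norm_eq_abs] at b3
      have := mul_le_mul_of_nonneg_right a2 (norm_nonneg (a n • (x : UnitAddCircle)))
      linarith

theorem main : ∃ H : AddSubgroup UnitAddCircle, ∀ I, IsIdeal I → ∀ a : ℕ → ℤ,
    (H : Set UnitAddCircle) ≠ HStar a I := by
  let K := {t : ℕ → ℝ // Fast t} × Bool
  have hK : #K ≤ continuum := by
    have : #{t : ℕ → ℝ // Fast t} ≤ continuum := (mk_subtype_le _).trans (by simp [mk_real])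
    simp only [K, mk_prod, lift_id, mk_fintype, Fintype.card_bool]
    exact (mul_le_mul_left this _).trans (by simp)
  obtain ⟨v, hv1, hv2⟩ := transv hK (fun k => Set.range fun b => tl k.1.1 b 0) {1, √2}
    ((Set.toFinite _).lt_aleph0.trans aleph0_lt_continuum) fun k => mk_sums k.1.2
  let V := Submodule.span ℚ ({1, √2} ∪ v '' {k | k.2 = true})
  have h1 : (1 : ℝ) ∈ V := Submodule.subset_span (Or.inl (by simp))
  have h2 : √2 ∈ V := Submodule.subset_span (Or.inl (by simp))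
  let H := V.toAddSubgroup.map (QuotientAddGroup.mk' (AddSubgroup.zmultiples (1 : ℝ)))
  have hH : ∀ r : ℝ, (r : UnitAddCircle) ∈ H ↔ r ∈ V := fun r => by
    refine ⟨?_, fun h => ⟨r, h, rfl⟩⟩
    rintro ⟨s, hs, he⟩
    have : ((r - s : ℝ) : UnitAddCircle) = 0 := by
      rw [AddCircle.coe_sub]; exact sub_eq_zero.2 he.symm
    obtain ⟨n, hn⟩ := (AddCircle.coe_eq_zero_iff 1).1 this
    have h3 : r = s + n • (1 : ℝ) := by rw [hn]; ring
    rw [h3]; exact V.add_mem hs (V.toAddSubgroup.zsmul_mem h1 n)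
  refine ⟨H, fun I hI a he => ?_⟩
  have hS : ∀ r : ℝ, r ∈ V ↔ ∃ S ∈ I, GG a Sᶜ r := fun r => by
    rw [← hH]; exact Set.ext_iff.1 he _
  obtain ⟨S0, hS0, g0⟩ := (hS _).1 h2
  obtain ⟨t, ht, h⟩ := step1 irrational_sqrt_two g0
  obtain ⟨c, hc⟩ := hv1 (⟨t, ht⟩, true)
  simp only at hc
  obtain ⟨S1, hS1, g1⟩ := (hS (v (⟨t, ht⟩, true))).1 (Submodule.subset_span (Or.inr ⟨_, rfl, rfl⟩))
  obtain ⟨u, hu, hG⟩ := h c (S0 ∪ S1)ᶜ (Set.compl_subset_compl.2 Set.subset_union_left)
    (hc ▸ (show Tendsto _ _ _ from g1).mono_left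
      (inf_le_inf_left _ (principal_mono.2 (Set.compl_subset_compl.2 Set.subset_union_right))))
    (fun d f hdf => hv2 (⟨t, ht⟩, true) ∅ (by simp) (by
      rw [← hc, hdf, ← zsmul_eq_mul, ← zsmul_one f]
      exact Submodule.sub_mem _
        (Submodule.smul_of_tower_mem _ d (Submodule.subset_span (by simp)))
        (Submodule.smul_of_tower_mem _ f (Submodule.subset_span (by simp)))))
  obtain ⟨b, hb⟩ := hv1 (⟨u, hu⟩, false)
  simp only at hb
  exact hv2 (⟨u, hu⟩, false) {k | k.2 = true} (by simp)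
    ((hS _).2 ⟨_, hI.union _ hS0 _ hS1, hb ▸ hG b⟩)

end Pool.Agent.H5.ISt
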