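import Mathlib

namespace Pool.Agent.H5.ISt
open Filter Topology

/-- A proper ideal on `ℕ` containing all finite sets. -/
structure IsIdeal (I : Set (Set ℕ)) : Prop where
  sub : ∀ A ∈ I, ∀ B, B ⊆ A → B ∈ I
  union : ∀ A ∈ I, ∀ B ∈ I, A ∪ B ∈ I
  fin : ∀ A : Set ℕ, A.Finite → A ∈ I
  proper : Set.univ ∉ I

/-- The points `x` of the circle `ℝ/ℤ` such that `a n • x` tends to `0` along the complement of some
member of the ideal. -/
def HStar (a : ℕ → ℤ) (I : Set (Set ℕ)) : Set UnitAddCircle :=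
  {x | ∃ S ∈ I, Tendsto (fun n => a n • x) (atTop ⊓ 𝓟 Sᶜ) (𝓝 0)}

end Pool.Agent.H5.ISt
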