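import Pool.Agent.H5.JumpDefs

set_option autoImplicit false

namespace Pool.Agent.H5.JumpBound

open Pool.Agent.H5.JumpDefs

noncomputable def pt (x : ℝ) : EuclideanSpace ℝ (Fin 1) := WithLp.toLp 2 (fun _ => x)

noncomputable def cf (a b c : ℝ) : Fin 3 → EuclideanSpace ℝ (Fin 1) := ![pt a, pt b, pt c]

lemma reach (α : ℝ) (n : ℕ) : Jumps (2 * n) (cf 0 1 α) (cf 0 (1 + 2 * n * α) α) := by
  induction n with
  | zero => simp [Jumps]
  | succ n ih =>
    refine ⟨cf 0 (-(1 + 2 * n * α)) α, ⟨_, ih, 1, 0, by decide, ?_⟩, 1, 2, by decide, ?_⟩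
    · ext i k
      fin_cases i <;> simp [cf, pt]
    · ext i k
      fin_cases i <;> simp [cf, pt]
      ring

lemma enlarge (α : ℝ) (n : ℕ) (h1 : 1 < α) (h : α ^ 2 = 2 * n * α + 1) :
    SimilarLarger (cf 0 1 α) (cf 0 (1 + 2 * n * α) α) := by
  refine ⟨α, LinearIsometryEquiv.refl ℝ _, 0, h1, ?_⟩
  rw [← Multiset.map_univ_val_equiv (Equiv.swap (1 : Fin 3) 2), Multiset.map_map]
  conv_rhs => rw [Multiset.map_univ_val_equiv]
  congr 1
  ext i k
  fin_cases i <;> simp [cf, pt, Equiv.swap_apply_def]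
  linarith

lemma inv (α : ℝ) (k : ℕ) (Q : Fin 3 → EuclideanSpace ℝ (Fin 1)) (h : Jumps k (cf 0 1 α) Q) :
    ∃ u v : Fin 3 → ℤ, (∀ i, Q i 0 = u i + v i * α) ∧ (∀ i, |u i| ≤ 3 ^ k ∧ |v i| ≤ 3 ^ k) ∧
      ((u 1 - u 0) * (v 2 - v 0) - (u 2 - u 0) * (v 1 - v 0)) ^ 2 = 1 := by
  induction k generalizing Q with
  | zero =>
    obtain rfl : Q = _ := h
    refine ⟨![0, 1, 0], ![0, 0, 1], fun i => ?_, by decide, by decide⟩
    fin_cases i <;> simp [cf, pt]
  | succ k ih =>
    obtain ⟨P, hP, i, j, hij, rfl⟩ := h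
    obtain ⟨u, v, h1, h2, h3⟩ := ih P hP
    refine ⟨Function.update u i (2 * u j - u i), Function.update v i (2 * v j - v i), ?_, ?_, ?_⟩
    · intro l
      by_cases hl : l = i
      · subst hl
        simp [h1]
        ring
      · simp [hl, h1]
    · intro l
      have p : (0 : ℤ) < 3 ^ k := by positivity
      have a := h2 l
      have b := h2 i
      have c := h2 j
      simp only [abs_le] at a b c ⊢
      by_cases hl : l = i
      · subst hl
        simp only [Function.update_self, pow_succ]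
        omega
      · simp only [Function.update_of_ne hl, pow_succ]
        omega
    · rw [← h3]
      fin_cases i <;> fin_cases j <;> simp at hij ⊢ <;> ring

lemma no_eig {a b c d K : ℤ} {α μ : ℝ} (ha : |a| ≤ K) (hb : |b| ≤ K) (hc : |c| ≤ K) (hd : |d| ≤ K)
    (hdet : (a * d - c * b) ^ 2 = 1) (h1 : a + b * α = μ) (h2 : c + d * α = μ * α)
    (hμ : 1 < μ ^ 2) (hα : 3 * (K : ℝ) + 1 < α) : False := by
  have hK : (0 : ℝ) ≤ K := by exact_mod_cast (abs_nonneg a).trans ha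
  have e : (b : ℝ) * α ^ 2 + ((a - d : ℤ) : ℝ) * α - c = 0 := by
    push_cast; linear_combination α * h1 - h2
  have ha' : |(a : ℝ)| ≤ K := by exact_mod_cast ha
  have hc' : |(c : ℝ)| ≤ K := by exact_mod_cast hc
  have hd' : |(d : ℝ)| ≤ K := by exact_mod_cast hd
  rw [abs_le] at ha' hc' hd'
  have b0 : b = 0 := by
    by_contra hb0
    push_cast at e
    rcases lt_or_gt_of_ne hb0 with h | h
    · have : (b : ℝ) ≤ -1 := by exact_mod_cast (by omega : b ≤ -1)
      nlinarith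
    · have : (1 : ℝ) ≤ b := by exact_mod_cast (by omega : 1 ≤ b)
      nlinarith
  subst b0
  have d0 : a - d = 0 := by
    by_contra h0
    rcases lt_or_gt_of_ne h0 with h | h
    · have : ((a - d : ℤ) : ℝ) ≤ -1 := by exact_mod_cast (by omega : a - d ≤ -1)
      push_cast at e this
      nlinarith
    · have : (1 : ℝ) ≤ ((a - d : ℤ) : ℝ) := by exact_mod_cast (by omega : 1 ≤ a - d)
      push_cast at e this
      nlinarith
  obtain rfl : a = d := by omega
  have h3 : (a * a) ^ 2 = 1 := by simpa using hdet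
  have h4 : ((a : ℝ) * a) ^ 2 = 1 := by exact_mod_cast h3
  have h5 : μ = a := by simpa using h1.symm
  rw [h5] at hμ
  nlinarith

lemma exists_perm {ι β : Type} [Fintype ι] (f g : ι → β)
    (h : Finset.univ.val.map f = Finset.univ.val.map g) :
    ∃ π : Equiv.Perm ι, ∀ i, f (π i) = g i := by
  classical
  have : ∀ c, Fintype.card {i // g i = c} = Fintype.card {i // f i = c} := by
    intro c
    have h1 := congrArg (Multiset.count c) h
    rw [Multiset.count_map, Multiset.count_map] at h1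
    rw [Fintype.card_subtype, Fintype.card_subtype]
    simpa [Finset.card, eq_comm] using h1.symm
  exact ⟨Equiv.ofFiberEquiv (fun c => Fintype.equivOfCardEq (this c)),
    fun i => Equiv.ofFiberEquiv_map _ i⟩

lemma lower (α : ℝ) (k : ℕ) (hα : 6 * 3 ^ k + 1 < α) (Q : Fin 3 → EuclideanSpace ℝ (Fin 1))
    (h : Jumps k (cf 0 1 α) Q) : ¬ SimilarLarger (cf 0 1 α) Q := by
  rintro ⟨c, R, t, hc, hm⟩
  obtain ⟨u, v, h1, h2, h3⟩ := inv α k Q h
  have hR : ∀ x : ℝ, R (pt x) 0 = x * R (pt 1) 0 := by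
    intro x
    have : pt x = x • pt 1 := by ext i; simp [pt]
    rw [this, map_smul]
    simp
  have hn : (R (pt 1) 0) ^ 2 = 1 := by
    have := R.norm_map (pt 1)
    have h2 : ‖R (pt 1)‖ ^ 2 = ‖pt 1‖ ^ 2 := by rw [this]
    rw [EuclideanSpace.real_norm_sq_eq, EuclideanSpace.real_norm_sq_eq] at h2
    simpa [pt] using h2
  obtain ⟨π, hπ⟩ : ∃ π : Equiv.Perm (Fin 3), ∀ i, Q (π i) = c • R (cf 0 1 α i) + t :=
    exists_perm _ _ hm
  have q0 := congrArg (· 0) (hπ 0)
  have q1 := congrArg (· 0) (hπ 1)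
  have q2 := congrArg (· 0) (hπ 2)
  simp only [h1, cf, PiLp.add_apply, PiLp.smul_apply, smul_eq_mul, Matrix.cons_val_zero,
    Matrix.cons_val_one, Matrix.cons_val] at q0 q1 q2
  rw [hR] at q0 q2
  have bd : ∀ i j, |u i - u j| ≤ 2 * 3 ^ k ∧ |v i - v j| ≤ 2 * 3 ^ k := by
    intro i j
    have a := h2 i
    have b := h2 j
    simp only [abs_le] at a b ⊢
    omega
  refine no_eig (a := u (π 1) - u (π 0)) (b := v (π 1) - v (π 0)) (c := u (π 2) - u (π 0))
    (d := v (π 2) - v (π 0)) (μ := c * R (pt 1) 0) (α := α) (bd _ _).1 (bd _ _).2 (bd _ _).1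
    (bd _ _).2 ?_ ?_ ?_ ?_ ?_
  · rw [← h3]
    have n1 : π 0 ≠ π 1 := π.injective.ne (by decide)
    have n2 : π 0 ≠ π 2 := π.injective.ne (by decide)
    have n3 : π 1 ≠ π 2 := π.injective.ne (by decide)
    generalize π 0 = x at *
    generalize π 1 = y at *
    generalize π 2 = z at *
    fin_cases x <;> fin_cases y <;> fin_cases z <;> simp at n1 n2 n3 ⊢ <;> ring
  · push_cast; linarith
  · push_cast; linarith
  · rw [mul_pow, hn]; nlinarith
  · push_cast; linarith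

theorem main (B : ℕ) : ∃ (d : ℕ) (P : Fin 3 → EuclideanSpace ℝ (Fin d)),
    (∃ k Q, Jumps k P Q ∧ SimilarLarger P Q) ∧
    ∀ k Q, Jumps k P Q → SimilarLarger P Q → B < k := by
  let n : ℕ := 6 * 3 ^ B + 1
  have hs := Real.sq_sqrt (show (0 : ℝ) ≤ (n : ℝ) ^ 2 + 1 by positivity)
  have hp := Real.sqrt_pos.2 (show (0 : ℝ) < (n : ℝ) ^ 2 + 1 by positivity)
  have hn : (n : ℝ) = 6 * 3 ^ B + 1 := by simp [n]
  have h3 : (0 : ℝ) < 3 ^ B := by positivity
  refine ⟨1, cf 0 1 (n + √((n : ℝ) ^ 2 + 1)), ⟨_, _, reach _ n, enlarge _ n (by linarith)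
    (by linear_combination hs)⟩, fun k Q h1 h2 => ?_⟩
  by_contra hk
  have : (3 : ℝ) ^ k ≤ 3 ^ B := pow_le_pow_right₀ (by norm_num) (by omega)
  exact lower _ k (by linarith) Q h1 h2

end Pool.Agent.H5.JumpBound
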