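import Mathlib

set_option autoImplicit false

namespace Pool.Agent.H5.JumpDefs

/-- A legal jump: piece `i` moves to its mirror image through another piece `j`. -/
def Jump {ι : Type} [DecidableEq ι] {d : ℕ} (P Q : ι → EuclideanSpace ℝ (Fin d)) : Prop :=
  ∃ i j : ι, i ≠ j ∧ Q = Function.update P i ((2 : ℝ) • P j - P i)

/-- `Q` is reached from `P` by exactly `k` legal jumps. -/
def Jumps {ι : Type} [DecidableEq ι] {d : ℕ} :
    ℕ → (ι → EuclideanSpace ℝ (Fin d)) → (ι → EuclideanSpace ℝ (Fin d)) → Prop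
  | 0, P, Q => Q = P
  | k + 1, P, Q => ∃ P', Jumps k P P' ∧ Jump P' Q

/-- The multiset of positions of `Q` is the image of that of `P` under a similarity
`x ↦ c • R x + t` with `R` orthogonal and ratio `c > 1`. -/
def SimilarLarger {ι : Type} [Fintype ι] {d : ℕ} (P Q : ι → EuclideanSpace ℝ (Fin d)) : Prop :=
  ∃ (c : ℝ) (R : EuclideanSpace ℝ (Fin d) ≃ₗᵢ[ℝ] EuclideanSpace ℝ (Fin d))
    (t : EuclideanSpace ℝ (Fin d)), 1 < c ∧
    Finset.univ.val.map Q = Finset.univ.val.map (fun i => c • R (P i) + t)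

end Pool.Agent.H5.JumpDefs
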