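import Pool.Agent.H5.LZDefs

set_option autoImplicit false

namespace Pool.Agent.H5.LZ

open Classical

variable {α : Type}

def rep (y : List α) (t : ℕ) : List α := (List.replicate t y).flatten

theorem rep_zero (y : List α) : rep y 0 = [] := rfl
theorem rep_succ (y : List α) (t : ℕ) : rep y (t + 1) = y ++ rep y t := by
  simp [rep, List.replicate_succ]
theorem rep_succ' (y : List α) (t : ℕ) : rep y (t + 1) = rep y t ++ y := by
  simp [rep, List.replicate_succ']
theorem rep_nil (t : ℕ) : rep ([] : List α) t = [] := by simp [rep]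

theorem pre_app {p x y : List α} (h : p <+: x ++ y) :
    p <+: x ∨ ∃ q, q <+: y ∧ p = x ++ q := by
  obtain ⟨r, hr⟩ := h
  rcases List.append_eq_append_iff.1 hr with ⟨a, h1, _⟩ | ⟨a, h1, h2⟩
  · exact Or.inl ⟨a, h1.symm⟩
  · exact Or.inr ⟨a, ⟨r, h2.symm⟩, h1⟩

theorem suf_app {p x y : List α} (h : p <:+ x ++ y) :
    p <:+ y ∨ ∃ q, q <:+ x ∧ p = q ++ y := by
  obtain ⟨r, hr⟩ := h
  rcases List.append_eq_append_iff.1 hr with ⟨a, h1, h2⟩ | ⟨a, _, h2⟩
  · exact Or.inr ⟨a, ⟨r, h1.symm⟩, h2⟩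
  · exact Or.inl ⟨a, h2.symm⟩

theorem pre_rep (y : List α) (t : ℕ) : ∀ p, p <+: rep y t → ∃ s q, q <+: y ∧ p = rep y s ++ q := by
  induction t with
  | zero => intro p hp; exact ⟨0, [], List.nil_prefix, by simpa [rep] using hp⟩
  | succ t ih =>
    intro p hp
    rw [rep_succ'] at hp
    rcases pre_app hp with h | ⟨q, h1, h2⟩
    · exact ih p h
    · exact ⟨t, q, h1, h2⟩

theorem suf_rep (y : List α) (t : ℕ) : ∀ p, p <:+ rep y t → ∃ s q, q <:+ y ∧ p = q ++ rep y s := by
  induction t with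
  | zero => intro p hp; exact ⟨0, [], List.nil_suffix, by simpa [rep] using hp⟩
  | succ t ih =>
    intro p hp
    rw [rep_succ] at hp
    rcases suf_app hp with h | ⟨q, h1, h2⟩
    · exact ih p h
    · exact ⟨t, q, h1, h2⟩

theorem per_rep (y : List α) (hy : y ≠ []) (n : ℕ) : ∀ f : List α, f.length ≤ n → f <+: y ++ f →
    ∃ t q, q <+: y ∧ f = rep y t ++ q := by
  induction n with
  | zero =>
    intro f hf _
    exact ⟨0, [], List.nil_prefix, by simpa [rep] using hf⟩
  | succ n ih =>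
    intro f hf h
    rcases pre_app h with h1 | ⟨q, h1, h2⟩
    · exact ⟨0, f, h1, rfl⟩
    · have hl : 0 < y.length := List.length_pos_iff.2 hy
      obtain ⟨t, r, h3, h4⟩ := ih q (by rw [h2, List.length_append] at hf; omega) (h2 ▸ h1)
      exact ⟨t + 1, r, h3, by rw [h2, rep_succ, List.append_assoc, ← h4]⟩

def Rule (G : Finset (List α × ℕ)) (g : List α × ℕ) : Prop :=
  g.1.length ≤ 1 ∨ ∃ x ∈ G, ∃ y ∈ G, ∃ z ∈ G, ∃ t, x.2 < g.2 ∧ y.2 < g.2 ∧ z.2 < g.2 ∧
    g.1 = x.1 ++ rep y.1 t ++ z.1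

def Closed (G : Finset (List α × ℕ)) : Prop := ([], 0) ∈ G ∧ ∀ g ∈ G, Rule G g

theorem Rule.mono {G H : Finset (List α × ℕ)} {g : List α × ℕ} (h : Rule G g) (hs : G ⊆ H) :
    Rule H g := by
  rcases h with h | ⟨x, hx, y, hy, z, hz, t, h⟩
  · exact Or.inl h
  · exact Or.inr ⟨x, hs hx, y, hs hy, z, hs hz, t, h⟩

theorem Closed.add {G : Finset (List α × ℕ)} (h : Closed G) {g : List α × ℕ} (hg : Rule G g) :
    ∃ H, Closed H ∧ G ⊆ H ∧ H.card ≤ G.card + 1 ∧ g ∈ H := by
  refine ⟨insert g G, ⟨Finset.mem_insert_of_mem h.1, fun k hk => ?_⟩, Finset.subset_insert _ _,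
    Finset.card_insert_le _ _, Finset.mem_insert_self _ _⟩
  rcases Finset.mem_insert.1 hk with rfl | hk
  · exact hg.mono (Finset.subset_insert _ _)
  · exact (h.2 k hk).mono (Finset.subset_insert _ _)

theorem pre_closed (r : ℕ) : ∀ (G : Finset (List α × ℕ)) (w p : List α), Closed G → (w, r) ∈ G →
    p <+: w → ∃ H, Closed H ∧ G ⊆ H ∧ H.card ≤ G.card + (r + 1) ∧ (p, r) ∈ H := by
  induction r using Nat.strong_induction_on with
  | _ r ih =>
  intro G w p hG hw hp
  rcases hG.2 _ hw with h | ⟨x, hx, y, hy, z, hz, t, h1, h2, h3, h4⟩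
  · obtain ⟨H, a, b, c, d⟩ := hG.add (g := (p, r)) (Or.inl (hp.length_le.trans h))
    exact ⟨H, a, b, by omega, d⟩
  · simp only at h1 h2 h3 h4
    have key : ∀ (v : List α × ℕ) (q : List α), v ∈ G → v.2 < r → q <+: v.1 →
        (∀ H, G ⊆ H → (q, v.2) ∈ H → Rule H (p, r)) →
        ∃ H, Closed H ∧ G ⊆ H ∧ H.card ≤ G.card + (r + 1) ∧ (p, r) ∈ H := by
      intro v q hv hvr hq hrule
      obtain ⟨H, a, b, c, d⟩ := ih v.2 hvr G v.1 q hG hv hq
      obtain ⟨K, a', b', c', d'⟩ := a.add (hrule H b d)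
      exact ⟨K, a', b.trans b', by omega, d'⟩
    rw [h4] at hp
    rcases pre_app hp with hp | ⟨q, hq, rfl⟩
    · rcases pre_app hp with hp | ⟨q, hq, rfl⟩
      · exact key x p hx h1 hp fun H hs hm => Or.inr ⟨_, hm, _, hs hG.1, _, hs hG.1, 0, h1,
          by omega, by omega, by simp [rep]⟩
      · obtain ⟨s, q', hq', rfl⟩ := pre_rep _ _ _ hq
        exact key y q' hy h2 hq' fun H hs hm => Or.inr ⟨_, hs hx, _, hs hy, _, hm, s, h1, h2, h2,
          by simp⟩
    · exact key z q hz h3 hq fun H hs hm => Or.inr ⟨_, hs hx, _, hs hy, _, hm, t, h1, h2, h3, rfl⟩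

theorem suf_closed (r : ℕ) : ∀ (G : Finset (List α × ℕ)) (w p : List α), Closed G → (w, r) ∈ G →
    p <:+ w → ∃ H, Closed H ∧ G ⊆ H ∧ H.card ≤ G.card + (r + 1) ∧ (p, r) ∈ H := by
  induction r using Nat.strong_induction_on with
  | _ r ih =>
  intro G w p hG hw hp
  rcases hG.2 _ hw with h | ⟨x, hx, y, hy, z, hz, t, h1, h2, h3, h4⟩
  · obtain ⟨H, a, b, c, d⟩ := hG.add (g := (p, r)) (Or.inl (hp.length_le.trans h))
    exact ⟨H, a, b, by omega, d⟩
  · simp only at h1 h2 h3 h4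
    have key : ∀ (v : List α × ℕ) (q : List α), v ∈ G → v.2 < r → q <:+ v.1 →
        (∀ H, G ⊆ H → (q, v.2) ∈ H → Rule H (p, r)) →
        ∃ H, Closed H ∧ G ⊆ H ∧ H.card ≤ G.card + (r + 1) ∧ (p, r) ∈ H := by
      intro v q hv hvr hq hrule
      obtain ⟨H, a, b, c, d⟩ := ih v.2 hvr G v.1 q hG hv hq
      obtain ⟨K, a', b', c', d'⟩ := a.add (hrule H b d)
      exact ⟨K, a', b.trans b', by omega, d'⟩
    rw [h4, List.append_assoc] at hp
    rcases suf_app hp with hp | ⟨q, hq, rfl⟩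
    · rcases suf_app hp with hp | ⟨q, hq, rfl⟩
      · exact key z p hz h3 hp fun H hs hm => Or.inr ⟨_, hm, _, hs hG.1, _, hs hG.1, 0, h3,
          by omega, by omega, by simp [rep]⟩
      · obtain ⟨s, q', hq', rfl⟩ := suf_rep _ _ _ hq
        exact key y q' hy h2 hq' fun H hs hm => Or.inr ⟨_, hm, _, hs hy, _, hs hz, s, h2, h2, h3,
          rfl⟩
    · exact key x q hx h1 hq fun H hs hm => Or.inr ⟨_, hm, _, hs hy, _, hs hz, t, h1, h2, h3,
        by simp⟩

theorem Occ.mono {S : List α} {u l m : ℕ} (h : Occ S u l) (hm : m ≤ l) : Occ S u m := by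
  obtain ⟨j, hj, h⟩ := h
  exact ⟨j, hj, (List.take_prefix_take_left hm).trans h⟩

theorem flen_pos {S : List α} {u : ℕ} (h : u < S.length) : 1 ≤ flen S u := by
  unfold flen
  split_ifs with h1
  · exact (Nat.find_spec h1).1
  · omega

theorem flen_le {S : List α} {u : ℕ} (h : u ≤ S.length) : u + flen S u ≤ S.length := by
  unfold flen
  split_ifs with h1
  · exact (Nat.find_spec h1).2.1
  · omega

theorem le_flen {S : List α} {u l : ℕ} (h : Occ S u l) (hl : u + l ≤ S.length) :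
    l ≤ flen S u := by
  unfold flen
  split_ifs with h1
  · by_contra hc
    exact (Nat.find_spec h1).2.2 (h.mono (by omega))
  · omega

theorem occ_flen {S : List α} {u : ℕ} (h : u ≤ S.length) (h2 : 2 ≤ flen S u) :
    Occ S u (flen S u - 1) := by
  have h3 := flen_le h
  by_contra hc
  have h1 : ∃ l, 1 ≤ l ∧ u + l ≤ S.length ∧ ¬ Occ S u l := ⟨_, by omega, by omega, hc⟩
  have h4 : flen S u = Nat.find h1 := by unfold flen; rw [dif_pos h1]
  exact Nat.find_min h1 (m := flen S u - 1) (by omega) ⟨by omega, by omega, hc⟩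

theorem start_le (S : List α) (k : ℕ) : start S k ≤ S.length := by
  induction k with
  | zero => exact Nat.zero_le _
  | succ k ih => exact flen_le ih

theorem start_mono (S : List α) : Monotone (start S) :=
  monotone_nat_of_le_succ fun k => Nat.le_add_right _ _

theorem start_ge (S : List α) (k : ℕ) (h : start S k < S.length) : k ≤ start S k := by
  induction k with
  | zero => exact Nat.zero_le _
  | succ k ih =>
    have h1 : start S k < S.length := lt_of_le_of_lt (start_mono S (Nat.le_succ k)) h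
    have := flen_pos h1
    have := ih h1
    show _ ≤ start S k + _
    omega

end Pool.Agent.H5.LZ
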