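import Pool.Agent.H5.LZ1

set_option autoImplicit false

namespace Pool.Agent.H5.LZ

open Classical

variable {α : Type}

noncomputable def C (T : List α) (j : ℕ) : ℕ :=
  ((Finset.range T.length).filter fun k => start T k < j).card

theorem zs_eq (T : List α) : zs T = C T T.length := by
  unfold zs C
  rw [← Set.ncard_coe_finset]
  congr 1
  ext k
  simp only [Set.mem_setOf_eq, Finset.coe_filter, Finset.mem_range]
  exact ⟨fun h => ⟨lt_of_le_of_lt (start_ge T k h) h, h⟩, fun h => h.2⟩

theorem C_zero (T : List α) : C T 0 = 0 := by simp [C]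

theorem C_step (T : List α) (a b : ℕ)
    (h : ∀ k, a ≤ start T k → start T k < b → b ≤ start T (k + 1)) : C T b ≤ C T a + 1 := by
  unfold C
  have h1 : ((Finset.range T.length).filter fun k => a ≤ start T k ∧ start T k < b).card ≤ 1 := by
    rw [Finset.card_le_one]
    intro k hk m hm
    simp only [Finset.mem_filter] at hk hm
    rcases lt_trichotomy k m with h2 | h2 | h2
    · have := h k hk.2.1 hk.2.2
      have := start_mono T (Nat.succ_le_of_lt h2)
      simp only [Nat.succ_eq_add_one] at this
      omega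
    · exact h2
    · have := h m hm.2.1 hm.2.2
      have := start_mono T (Nat.succ_le_of_lt h2)
      simp only [Nat.succ_eq_add_one] at this
      omega
  refine le_trans (Finset.card_le_card (t := ((Finset.range T.length).filter fun k =>
    start T k < a) ∪ ((Finset.range T.length).filter fun k => a ≤ start T k ∧ start T k < b)) ?_)
    ((Finset.card_union_le _ _).trans (by omega))
  intro k hk
  simp only [Finset.mem_filter, Finset.mem_union] at hk ⊢
  by_cases h3 : start T k < a
  · exact Or.inl ⟨hk.1, h3⟩
  · exact Or.inr ⟨hk.1, by omega, hk.2⟩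

def Fac (T : List α) (a : ℕ) (w : List α) : Prop := a + w.length ≤ T.length ∧ w <+: T.drop a

theorem Fac.left {T x y : List α} {a : ℕ} (h : Fac T a (x ++ y)) : Fac T a x :=
  ⟨by have := h.1; rw [List.length_append] at this; omega, (List.prefix_append _ _).trans h.2⟩

theorem Fac.right {T x y : List α} {a : ℕ} (h : Fac T a (x ++ y)) : Fac T (a + x.length) y := by
  refine ⟨by have := h.1; rw [List.length_append] at this; omega, ?_⟩
  obtain ⟨r, hr⟩ := h.2
  rw [← List.drop_drop, ← hr, List.append_assoc, List.drop_left]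
  exact List.prefix_append _ _

theorem C_short {T w : List α} {a : ℕ} (h : Fac T a w) (hw : w.length ≤ 1) :
    C T (a + w.length) ≤ C T a + 1 := by
  refine C_step T _ _ fun k h1 h2 => ?_
  have := flen_pos (S := T) (u := start T k) (by have := h.1; omega)
  show _ ≤ start T k + _
  omega

theorem C_copy {T w : List α} {a j : ℕ} (h : Fac T a w) (h' : Fac T j w) (hj : j < a) :
    C T (a + w.length) ≤ C T a + 1 := by
  refine C_step T _ _ fun k h1 h2 => ?_
  obtain ⟨d, hd⟩ := Nat.exists_eq_add_of_le h1
  have hw : w = w.take d ++ w.drop d := (List.take_append_drop _ _).symm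
  have hl : (w.take d).length = d := by rw [List.length_take]; omega
  have f1 := (hw ▸ h : Fac T a (w.take d ++ w.drop d)).right
  have f2 := (hw ▸ h' : Fac T j (w.take d ++ w.drop d)).right
  rw [hl] at f1 f2
  have : (w.drop d).length ≤ flen T (start T k) := by
    refine le_flen ⟨j + d, by omega, ?_⟩ (hd ▸ f1.1)
    rw [hd, ← List.prefix_iff_eq_take.1 f1.2]
    exact f2.2
  rw [List.length_drop] at this
  show _ ≤ start T k + _
  omega

def Seen (T : List α) (a : ℕ) (v : List α) : Prop := ∃ j, j + v.length ≤ a ∧ Fac T j v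

theorem Seen.mono {T v : List α} {a b : ℕ} (h : Seen T a v) (hab : a ≤ b) : Seen T b v := by
  obtain ⟨j, h1, h2⟩ := h
  exact ⟨j, h1.trans hab, h2⟩

noncomputable def D (G : Finset (List α × ℕ)) (T : List α) (r a b : ℕ) : ℕ :=
  (G.filter fun g => g.2 < r ∧ Seen T b g.1 ∧ ¬ Seen T a g.1).card

theorem D_add (G : Finset (List α × ℕ)) (T : List α) {r r1 r2 a b b' c : ℕ} (h1 : r1 ≤ r)
    (h2 : r2 ≤ r) (hab : a ≤ b') (hb : b ≤ b') (hbc : b ≤ c) :
    D G T r1 a b + D G T r2 b' c ≤ D G T r a c := by
  unfold D
  rw [← Finset.card_union_of_disjoint]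
  · refine Finset.card_le_card fun g hg => ?_
    simp only [Finset.mem_union, Finset.mem_filter] at hg ⊢
    rcases hg with hg | hg
    · exact ⟨hg.1, by omega, hg.2.2.1.mono hbc, hg.2.2.2⟩
    · exact ⟨hg.1, by omega, hg.2.2.1, fun h => hg.2.2.2 (h.mono hab)⟩
  · rw [Finset.disjoint_left]
    intro g hg hg'
    simp only [Finset.mem_filter] at hg hg'
    exact hg'.2.2.2 (hg.2.2.1.mono hb)

theorem D_succ (G : Finset (List α × ℕ)) (T w : List α) {r a b : ℕ} (hw : (w, r) ∈ G)
    (h1 : Seen T b w) (h2 : ¬ Seen T a w) : D G T r a b + 1 ≤ D G T (r + 1) a b := by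
  unfold D
  refine Finset.card_lt_card ⟨fun g hg => ?_, fun h => ?_⟩
  · simp only [Finset.mem_filter] at hg ⊢
    exact ⟨hg.1, by omega, hg.2.2⟩
  · have := h (Finset.mem_filter.2 ⟨hw, Nat.lt_succ_self _, h1, h2⟩)
    simp at this

theorem cost (G : Finset (List α × ℕ)) (hG : Closed G) (T : List α) (r : ℕ) :
    ∀ (w : List α) (a : ℕ), (w, r) ∈ G → Fac T a w →
      C T (a + w.length) ≤ C T a + 1 + 3 * D G T (r + 1) a (a + w.length) := by
  induction r using Nat.strong_induction_on with
  | _ r ih =>
  intro w a hw hf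
  by_cases hl : w.length ≤ 1
  · have := C_short hf hl
    omega
  by_cases hs : Seen T a w
  · obtain ⟨j, h1, h2⟩ := hs
    have := C_copy hf h2 (by omega)
    omega
  have hD := D_succ G T w hw (b := a + w.length) ⟨a, le_rfl, hf⟩ hs
  rcases hG.2 _ hw with h | ⟨x, hx, y, hy, z, hz, t, h1, h2, h3, h4⟩
  · exact absurd h hl
  simp only at h1 h2 h3 h4
  subst h4
  have ex := ih x.2 h1 x.1 a hx hf.left.left
  have ez := ih z.2 h3 z.1 _ hz hf.right
  rw [List.length_append] at ez
  rw [List.length_append, List.length_append] at hD ⊢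
  simp only [← add_assoc] at hD ez ⊢
  cases t with
  | zero =>
    simp only [rep_zero, List.length_nil, add_zero] at hD ez ⊢
    have := D_add G T (r := r) (r1 := x.2 + 1) (r2 := z.2 + 1) (a := a) (b := a + x.1.length)
      (b' := a + x.1.length) (c := a + x.1.length + z.1.length) h1 h3 (by omega) le_rfl (by omega)
    omega
  | succ t =>
    have f1 := hf.left.right
    have f2 := f1
    rw [rep_succ] at f1
    rw [rep_succ'] at f2
    have ey := ih y.2 h2 y.1 _ hy f1.left
    have er : C T (a + x.1.length + y.1.length + (rep y.1 t).length) ≤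
        C T (a + x.1.length + y.1.length) + 1 := by
      by_cases hy0 : y.1 = []
      · exact C_short f1.right (by rw [hy0, rep_nil]; simp)
      · have := List.length_pos_iff.2 hy0
        exact C_copy f1.right f2.left (by omega)
    rw [rep_succ, List.length_append] at hD ez ⊢
    simp only [← add_assoc] at hD ez ⊢
    have d1 := D_add G T (r := r) (r1 := x.2 + 1) (r2 := y.2 + 1) (a := a) (b := a + x.1.length)
      (b' := a + x.1.length) (c := a + x.1.length + y.1.length) h1 h2 (by omega) le_rfl (by omega)
    have d2 := D_add G T (r := r) (r1 := r) (r2 := z.2 + 1) (a := a)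
      (b := a + x.1.length + y.1.length)
      (b' := a + x.1.length + y.1.length + (rep y.1 t).length)
      (c := a + x.1.length + y.1.length + (rep y.1 t).length + z.1.length) le_rfl h3 (by omega)
      (by omega) (by omega)
    omega

theorem zs_le (G : Finset (List α × ℕ)) (hG : Closed G) (T : List α) (r : ℕ) (h : (T, r) ∈ G) :
    zs T ≤ 1 + 3 * G.card := by
  have := cost G hG T r T 0 h ⟨by simp, by simp⟩
  rw [C_zero, zero_add] at this
  have h2 : D G T (r + 1) 0 T.length ≤ G.card := Finset.card_filter_le _ _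
  rw [zs_eq]
  omega

theorem body (G : Finset (List α × ℕ)) (hG : Closed G) (S : List α) (u l r : ℕ)
    (hu : u ≤ S.length) (h : (S.take u, r) ∈ G) (ho : l = 0 ∨ Occ S u l) :
    ∃ H, Closed H ∧ G ⊆ H ∧ H.card ≤ G.card + (2 * r + 3) ∧ (S.take (u + l), r + 1) ∈ H := by
  rcases ho with rfl | ⟨j, hj, ho⟩
  · obtain ⟨H, a, b, c, d⟩ := hG.add (g := (S.take (u + 0), r + 1))
      (Or.inr ⟨_, h, _, hG.1, _, hG.1, 0, by simp, by simp, by simp, by simp [rep]⟩)
    exact ⟨H, a, b, by omega, d⟩
  · have e1 : S.drop j = (S.take u).drop j ++ S.drop u := by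
      conv_lhs => rw [← List.take_append_drop u S]
      rw [List.drop_append_of_le_length (by rw [List.length_take]; omega)]
    have hy : (S.take u).drop j ≠ [] := by
      rw [← List.length_pos_iff, List.length_drop, List.length_take]; omega
    have e2 : (S.drop u).take l <+: (S.take u).drop j ++ (S.drop u).take l := by
      refine List.prefix_of_prefix_length_le ho ?_ (by simp)
      rw [e1]
      exact (List.prefix_append_right_inj _).2 (List.take_prefix _ _)
    obtain ⟨t, q, hq, e3⟩ := per_rep _ hy _ _ le_rfl e2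
    obtain ⟨H1, a1, b1, c1, d1⟩ := suf_closed r G _ _ hG h (List.drop_suffix j _)
    obtain ⟨H2, a2, b2, c2, d2⟩ := pre_closed r H1 _ _ a1 d1 hq
    obtain ⟨H, a, b, c, d⟩ := a2.add (g := (S.take (u + l), r + 1))
      (Or.inr ⟨_, b2 (b1 h), _, b2 d1, _, d2, t, by simp, by simp, by simp, by
        simp only [List.append_assoc]
        rw [← e3, List.take_add]⟩)
    exact ⟨H, a, (b1.trans b2).trans b, by omega, d⟩

theorem build (S : List α) (k : ℕ) : ∃ G : Finset (List α × ℕ), Closed G ∧
    G.card ≤ 1 + k * (4 * k + 5) ∧ (S.take (start S k), 2 * k) ∈ G := by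
  induction k with
  | zero =>
    refine ⟨{([], 0)}, ⟨by simp, fun g hg => Or.inl ?_⟩, by simp, by simp [start]⟩
    rw [Finset.mem_singleton.1 hg]; simp
  | succ k ih =>
    obtain ⟨G, hG, hc, hm⟩ := ih
    have hu := start_le S k
    obtain ⟨H1, a1, -, c1, d1⟩ := body G hG S (start S k) (flen S (start S k) - 1) (2 * k) hu hm (by
      by_cases h2 : 2 ≤ flen S (start S k)
      · exact Or.inr (occ_flen hu h2)
      · exact Or.inl (by omega))
    obtain ⟨H2, a2, b2, c2, d2⟩ := a1.add
      (g := ((S.drop (start S k + (flen S (start S k) - 1))).take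
        (flen S (start S k) - (flen S (start S k) - 1)), 0))
      (Or.inl (by simp only [List.length_take]; omega))
    obtain ⟨H, a, -, c, d⟩ := a2.add (g := (S.take (start S (k + 1)), 2 * (k + 1)))
      (Or.inr ⟨_, b2 d1, _, a2.1, _, d2, 0, by simp only; omega, by simp, by simp, by
        simp only [rep_zero, List.append_nil]
        rw [← List.take_add]
        congr 1
        show start S k + _ = _
        omega⟩)
    exact ⟨H, a, by nlinarith, d⟩

theorem start_zs (S : List α) : start S (zs S) = S.length := by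
  by_contra h
  have h1 : start S (zs S) < S.length := lt_of_le_of_ne (start_le _ _) h
  have h2 : Finset.range (zs S + 1) ⊆ (Finset.range S.length).filter
      fun k => start S k < S.length := by
    intro k hk
    have h3 : start S k < S.length :=
      lt_of_le_of_lt (start_mono S (Nat.lt_succ_iff.1 (Finset.mem_range.1 hk))) h1
    exact Finset.mem_filter.2 ⟨Finset.mem_range.2 (lt_of_le_of_lt (start_ge S k h3) h3), h3⟩
  have h3 := Finset.card_le_card h2
  rw [Finset.card_range] at h3
  have := zs_eq S
  unfold C at this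
  omega

theorem main (S T : List α) (h : T <:+: S) :
    zs T ≤ 12 * zs S ^ 2 + 27 * zs S + 10 := by
  obtain ⟨G, hG, hc, hm⟩ := build S (zs S)
  rw [start_zs, List.take_length] at hm
  obtain ⟨P, hP1, hP2⟩ := List.infix_iff_prefix_suffix.1 h
  obtain ⟨H1, a1, -, c1, d1⟩ := suf_closed _ G _ _ hG hm hP2
  obtain ⟨H2, a2, -, c2, d2⟩ := pre_closed _ H1 _ _ a1 d1 hP1
  have := zs_le H2 a2 T _ d2
  nlinarith

theorem zs_pos (S : List α) (h : 0 < S.length) : 1 ≤ zs S := by
  by_contra hc
  have h1 := start_zs S
  rw [show zs S = 0 by omega] at h1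
  simp only [start] at h1
  omega

end Pool.Agent.H5.LZ
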