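import Mathlib

set_option autoImplicit false

namespace Pool.Agent.H5.LZ

variable {α : Type}

/-- the length-`l` prefix of the suffix of `S` at position `u` (positions from 0) also occurs in `S`
starting at some position `j < u`; the occurrence may run past `u`. -/
def Occ (S : List α) (u l : ℕ) : Prop := ∃ j < u, (S.drop u).take l <+: S.drop j

open Classical in
/-- length of the factor starting at position `u`: the shortest nonempty prefix of the remaining
suffix with no earlier occurrence, or the whole remaining suffix if there is none. -/
noncomputable def flen (S : List α) (u : ℕ) : ℕ :=
  if h : ∃ l, 1 ≤ l ∧ u + l ≤ S.length ∧ ¬ Occ S u l then Nat.find h else S.length - u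

/-- starting position of the `k`-th factor (`k = 0, 1, ...`); it stays at `|S|` once reached. -/
noncomputable def start (S : List α) : ℕ → ℕ
  | 0 => 0
  | k + 1 => start S k + flen S (start S k)

/-- number of factors of the self-referencing LZ77 factorization: the number of `k` whose
factor starts inside `S`. -/
noncomputable def zs (S : List α) : ℕ := Set.ncard {k | start S k < S.length}

end Pool.Agent.H5.LZ
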