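import Mathlib

namespace Pool.Agent.H5.LinSp

open Finset

/-- A linear space with all lines of size `k` and without quadrilaterals. -/
structure LS (V : Type) (k : ℕ) where
  B : V → V → Finset V
  left : ∀ x y, x ≠ y → x ∈ B x y
  right : ∀ x y, x ≠ y → y ∈ B x y
  size : ∀ x y, x ≠ y → (B x y).card = k
  uniq : ∀ x y, x ≠ y → ∀ u ∈ B x y, ∀ v ∈ B x y, u ≠ v → B u v = B x y
  onan : ∀ u v w s t r, u ≠ v → u ≠ w → v ≠ w → s ≠ t → s ≠ u → t ≠ w → r ≠ v →
    s ∈ B u v → t ∈ B u w → r ∈ B v w → r ∈ B s t → w ∈ B u v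

theorem triv (k : ℕ) : Nonempty (LS (Fin k) k) :=
  ⟨{ B := fun _ _ => univ
     left := by simp
     right := by simp
     size := by simp
     uniq := by simp
     onan := by simp }⟩

theorem ex_fg {V W : Type} [Fintype W] [Nonempty W] [Nonempty V] (L : Finset V) :
    ∃ f : W → V, ∃ g : V → W, L.card = Fintype.card W →
      (∀ w, g (f w) = w) ∧ (∀ w, f w ∈ L) ∧ ∀ x ∈ L, f (g x) = x := by
  classical
  by_cases h : L.card = Fintype.card W
  · have e : W ≃ L := Fintype.equivOfCardEq (by simp [h])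
    refine ⟨fun w => (e w).1, fun x => if hx : x ∈ L then e.symm ⟨x, hx⟩ else Classical.arbitrary W,
      fun _ => ⟨fun w => ?_, fun w => (e w).2, fun x hx => ?_⟩⟩
    · simp [(e w).2]
    · simp [hx]
  · exact ⟨fun _ => Classical.arbitrary V, fun _ => Classical.arbitrary W, fun h' => absurd h' h⟩

theorem comp {V W : Type} [Fintype W] [Nonempty W] [Nonempty V] {k m : ℕ}
    (hk : Fintype.card W = k) (P : LS V k) (Q : LS W m) : Nonempty (LS V m) := by
  classical
  choose f g hfg using fun L : Finset V => ex_fg (W := W) L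
  have H : ∀ x y, x ≠ y → (∀ w, g (P.B x y) (f (P.B x y) w) = w) ∧
      (∀ w, f (P.B x y) w ∈ P.B x y) ∧ ∀ z ∈ P.B x y, f (P.B x y) (g (P.B x y) z) = z :=
    fun x y h => hfg _ (by rw [P.size x y h, hk])
  have gne : ∀ x y, x ≠ y → ∀ a ∈ P.B x y, ∀ b ∈ P.B x y, a ≠ b →
      g (P.B x y) a ≠ g (P.B x y) b := by
    intro x y h a ha b hb hab he
    apply hab
    rw [← (H x y h).2.2 a ha, he, (H x y h).2.2 b hb]
  have mem : ∀ x y, x ≠ y → ∀ a b z,
      z ∈ (Q.B a b).image (f (P.B x y)) ↔ z ∈ P.B x y ∧ g (P.B x y) z ∈ Q.B a b := by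
    intro x y h a b z
    rw [mem_image]
    constructor
    · rintro ⟨c, hc, rfl⟩
      exact ⟨(H x y h).2.1 c, by rw [(H x y h).1 c]; exact hc⟩
    · rintro ⟨h1, h2⟩
      exact ⟨_, h2, (H x y h).2.2 z h1⟩
  refine ⟨{ B := fun x y => (Q.B (g (P.B x y) x) (g (P.B x y) y)).image (f (P.B x y))
            left := ?_, right := ?_, size := ?_, uniq := ?_, onan := ?_ }⟩
  · intro x y h
    rw [mem x y h]
    exact ⟨P.left x y h, Q.left _ _ (gne x y h _ (P.left x y h) _ (P.right x y h) h)⟩
  · intro x y h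
    rw [mem x y h]
    exact ⟨P.right x y h, Q.right _ _ (gne x y h _ (P.left x y h) _ (P.right x y h) h)⟩
  · intro x y h
    rw [card_image_of_injective _ (Function.LeftInverse.injective (H x y h).1)]
    exact Q.size _ _ (gne x y h _ (P.left x y h) _ (P.right x y h) h)
  · intro x y h u hu v hv huv
    rw [mem x y h] at hu hv
    rw [P.uniq x y h u hu.1 v hv.1 huv]
    rw [Q.uniq _ _ (gne x y h _ (P.left x y h) _ (P.right x y h) h) _ hu.2 _ hv.2
      (gne x y h _ hu.1 _ hv.1 huv)]
  · intro u v w s t r huv huw hvw hst hsu htw hrv hs ht hr hr'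
    rw [mem _ _ huv] at hs ⊢
    rw [mem _ _ huw] at ht
    rw [mem _ _ hvw] at hr
    rw [mem _ _ hst] at hr'
    have hw := P.onan u v w s t r huv huw hvw hst hsu htw hrv hs.1 ht.1 hr.1 hr'.1
    have hu := P.left u v huv
    have hv := P.right u v huv
    have e1 := P.uniq u v huv u hu w hw huw
    have e2 := P.uniq u v huv v hv w hw hvw
    rw [e1] at ht
    rw [e2] at hr
    have e3 := P.uniq u v huv s hs.1 t ht.1 hst
    rw [e3] at hr'
    refine ⟨hw, Q.onan _ _ _ _ _ _ (gne u v huv _ hu _ hv huv) (gne u v huv _ hu _ hw huw)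
      (gne u v huv _ hv _ hw hvw) (gne u v huv _ hs.1 _ ht.1 hst) (gne u v huv _ hs.1 _ hu hsu)
      (gne u v huv _ ht.1 _ hw htw) (gne u v huv _ hr.1 _ hv hrv) hs.2 ht.2 hr.2 hr'.2⟩

/-- transport along a bijection -/
theorem transport {V W : Type} {k : ℕ} (e : V ≃ W) (P : LS V k) : Nonempty (LS W k) := by
  classical
  have mem : ∀ (L : Finset V) (z : W), z ∈ L.map e.toEmbedding ↔ e.symm z ∈ L := by
    intro L z; simp [mem_map_equiv]
  have ne : ∀ {x y : W}, x ≠ y → e.symm x ≠ e.symm y := fun h h' => h (e.symm.injective h')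
  refine ⟨{ B := fun x y => (P.B (e.symm x) (e.symm y)).map e.toEmbedding
            left := ?_, right := ?_, size := ?_, uniq := ?_, onan := ?_ }⟩
  · intro x y h; rw [mem]; exact P.left _ _ (ne h)
  · intro x y h; rw [mem]; exact P.right _ _ (ne h)
  · intro x y h; rw [card_map]; exact P.size _ _ (ne h)
  · intro x y h u hu v hv huv
    rw [mem] at hu hv
    rw [P.uniq _ _ (ne h) _ hu _ hv (ne huv)]
  · intro u v w s t r huv huw hvw hst hsu htw hrv hs ht hr hr'
    rw [mem] at hs ht hr hr' ⊢
    exact P.onan _ _ _ _ _ _ (ne huv) (ne huw) (ne hvw) (ne hst) (ne hsu) (ne htw) (ne hrv)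
      hs ht hr hr'

section Hyper

variable {V : Type} [Fintype V] [DecidableEq V]

/-- the set of lines -/
def lines (P : LS V 5) : Finset (Finset V) :=
  (univ.filter fun p : V × V => p.1 ≠ p.2).image fun p => P.B p.1 p.2

theorem line_card (P : LS V 5) {L : Finset V} (h : L ∈ lines P) : L.card = 5 := by
  simp only [lines, mem_image, mem_filter, mem_univ, true_and] at h
  obtain ⟨p, hp, rfl⟩ := h
  exact P.size _ _ hp

theorem line_eq (P : LS V 5) {L : Finset V} (h : L ∈ lines P) {x y : V} (hx : x ∈ L) (hy : y ∈ L)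
    (hxy : x ≠ y) : P.B x y = L := by
  simp only [lines, mem_image, mem_filter, mem_univ, true_and] at h
  obtain ⟨p, hp, rfl⟩ := h
  exact P.uniq _ _ hp _ hx _ hy hxy

theorem line_eq2 (P : LS V 5) {L M : Finset V} (h : L ∈ lines P) (h' : M ∈ lines P) {S : Finset V}
    (hS : 2 ≤ S.card) (h1 : S ⊆ L) (h2 : S ⊆ M) : L = M := by
  obtain ⟨x, hx, y, hy, hxy⟩ := one_lt_card.mp (show 1 < S.card by omega)
  rw [← line_eq P h (h1 hx) (h1 hy) hxy, line_eq P h' (h2 hx) (h2 hy) hxy]

/-- all triples inside lines -/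
def hyp (P : LS V 5) : Finset (Finset V) := (lines P).biUnion fun L => powersetCard 3 L

theorem card_bi (P : LS V 5) (j : ℕ) (hj : 2 ≤ j) :
    ((lines P).biUnion fun L => powersetCard j L).card = (lines P).card * Nat.choose 5 j := by
  rw [card_biUnion]
  · rw [sum_congr rfl (g := fun _ => Nat.choose 5 j)]
    · simp
    · intro L hL; rw [card_powersetCard, line_card P hL]
  · intro L hL M hM hne
    rw [Function.onFun, disjoint_left]
    intro S h1 h2
    rw [mem_powersetCard] at h1 h2
    exact hne (line_eq2 P hL hM (by omega) h1.1 h2.1)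

theorem hyp_card (P : LS V 5) : (hyp P).card = (Fintype.card V).choose 2 := by
  have h2 := card_bi P 2 le_rfl
  have h3 := card_bi P 3 (by norm_num)
  have : ((lines P).biUnion fun L => powersetCard 2 L) = powersetCard 2 (univ : Finset V) := by
    ext S
    simp only [mem_biUnion, mem_powersetCard, subset_univ, true_and]
    constructor
    · rintro ⟨L, _, _, h⟩; exact h
    · intro h
      obtain ⟨x, y, hxy, rfl⟩ := card_eq_two.mp h
      refine ⟨P.B x y, ?_, ?_, h⟩
      · simp only [lines, mem_image, mem_filter, mem_univ, true_and]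
        exact ⟨(x, y), hxy, rfl⟩
      · intro z hz
        simp only [mem_insert, mem_singleton] at hz
        rcases hz with rfl | rfl
        · exact P.left _ _ hxy
        · exact P.right _ _ hxy
  rw [this, card_powersetCard, card_univ] at h2
  rw [hyp, h3, h2]
  rfl

theorem mem_hyp (P : LS V 5) {e : Finset V} (h : e ∈ hyp P) :
    e.card = 3 ∧ ∃ L ∈ lines P, e ⊆ L := by
  simp only [hyp, mem_biUnion, mem_powersetCard] at h
  obtain ⟨L, hL, h1, h2⟩ := h
  exact ⟨h2, L, hL, h1⟩

/-- indicator -/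
def ind (A : Finset V) (v : V) : ℕ := if v ∈ A then 1 else 0

omit [Fintype V] in
theorem split3 {A B C D : Finset V}
    (hP : ∀ v, ind A v + ind B v + ind C v + ind D v = 0 ∨ ind A v + ind B v + ind C v + ind D v = 2) :
    A.card = (A ∩ B).card + (A ∩ C).card + (A ∩ D).card := by
  have key : ∀ X : Finset V, (A ∩ X).card = ∑ v ∈ A, ind X v := by
    intro X
    rw [← filter_mem_eq_inter, card_filter]; rfl
  rw [key, key, key, ← sum_add_distrib, ← sum_add_distrib, card_eq_sum_ones]
  refine sum_congr rfl fun v hv => ?_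
  have := hP v
  have h1 : ind A v = 1 := by simp [ind, hv]
  omega

omit [Fintype V] in
theorem le2 {A B : Finset V} (hA : A.card = 3) (hB : B.card = 3) (h : A ≠ B) :
    (A ∩ B).card ≤ 2 := by
  by_contra hc
  apply h
  have h1 : A ∩ B = A := eq_of_subset_of_card_le inter_subset_left (by omega)
  have h2 : A ∩ B = B := eq_of_subset_of_card_le inter_subset_right (by omega)
  rw [← h1, h2]

theorem case2 (P : LS V 5) {A B C D : Finset V}
    (hA : A ∈ hyp P) (hB : B ∈ hyp P) (hC : C ∈ hyp P) (hD : D ∈ hyp P)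
    (hP : ∀ v, ind A v + ind B v + ind C v + ind D v = 0 ∨ ind A v + ind B v + ind C v + ind D v = 2)
    (hU : (A ∪ B ∪ C ∪ D).card = 6) (h2 : (A ∩ B).card = 2) : False := by
  obtain ⟨cA, LA, lA, sA⟩ := mem_hyp P hA
  obtain ⟨cB, LB, lB, sB⟩ := mem_hyp P hB
  obtain ⟨cC, LC, lC, sC⟩ := mem_hyp P hC
  obtain ⟨cD, LD, lD, sD⟩ := mem_hyp P hD
  have e1 := split3 hP
  have e2 := split3 (A := B) (B := A) (C := C) (D := D) (fun v => by have := hP v; omega)
  have e3 := split3 (A := C) (B := A) (C := B) (D := D) (fun v => by have := hP v; omega)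
  have e4 := split3 (A := D) (B := A) (C := B) (D := C) (fun v => by have := hP v; omega)
  rw [inter_comm B A] at e2
  rw [inter_comm C A, inter_comm C B] at e3
  rw [inter_comm D A, inter_comm D B, inter_comm D C] at e4
  have hAB : LA = LB := line_eq2 P lA lB (S := A ∩ B) (by omega)
    (inter_subset_left.trans sA) (inter_subset_right.trans sB)
  have hCD : LC = LD := line_eq2 P lC lD (S := C ∩ D) (by omega)
    (inter_subset_left.trans sC) (inter_subset_right.trans sD)
  subst hAB hCD
  have hAC : LA = LC := by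
    refine line_eq2 P lA lC (S := (A ∪ B) ∩ (C ∪ D)) ?_
      (inter_subset_left.trans (union_subset sA sB)) (inter_subset_right.trans (union_subset sC sD))
    have h1 := card_union_add_card_inter (A ∪ B) (C ∪ D)
    have h3 := card_union_add_card_inter A B
    have h4 := card_union_add_card_inter C D
    rw [← union_assoc] at h1
    omega
  subst hAC
  have := card_le_card (union_subset (union_subset (union_subset sA sB) sC) sD)
  rw [line_card P lA] at this
  omega

theorem case1 (P : LS V 5) {A B C D : Finset V}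
    (hA : A ∈ hyp P) (hB : B ∈ hyp P) (hC : C ∈ hyp P) (hD : D ∈ hyp P)
    (hP : ∀ v, ind A v + ind B v + ind C v + ind D v = 0 ∨ ind A v + ind B v + ind C v + ind D v = 2)
    (hU : (A ∪ B ∪ C ∪ D).card = 6) (n1 : (A ∩ B).Nonempty) (n2 : (A ∩ C).Nonempty)
    (n3 : (A ∩ D).Nonempty) (n4 : (B ∩ C).Nonempty) (n5 : (B ∩ D).Nonempty)
    (n6 : (C ∩ D).Nonempty) : False := by
  obtain ⟨cA, LA, lA, sA⟩ := mem_hyp P hA
  obtain ⟨cB, LB, lB, sB⟩ := mem_hyp P hB
  obtain ⟨cC, LC, lC, sC⟩ := mem_hyp P hC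
  obtain ⟨cD, LD, lD, sD⟩ := mem_hyp P hD
  obtain ⟨u, hu⟩ := n1
  obtain ⟨v, hv⟩ := n2
  obtain ⟨s, hs⟩ := n3
  obtain ⟨w, hw⟩ := n4
  obtain ⟨t, ht⟩ := n5
  obtain ⟨r, hr⟩ := n6
  rw [mem_inter] at hu hv hs hw ht hr
  have three : ∀ z, ind A z + ind B z + ind C z + ind D z ≤ 2 := fun z => by have := hP z; omega
  have huv : u ≠ v := by
    rintro rfl; have := three u; simp [ind, hu.1, hu.2, hv.2] at this; omega
  have huw : u ≠ w := by
    rintro rfl; have := three u; simp [ind, hu.1, hu.2, hw.2] at this; omega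
  have hvw : v ≠ w := by
    rintro rfl; have := three v; simp [ind, hv.1, hv.2, hw.1] at this; omega
  have hst : s ≠ t := by
    rintro rfl; have := three s; simp [ind, hs.1, hs.2, ht.1] at this; omega
  have hsu : s ≠ u := by
    rintro rfl; have := three s; simp [ind, hs.1, hs.2, hu.2] at this; omega
  have htw : t ≠ w := by
    rintro rfl; have := three t; simp [ind, ht.1, ht.2, hw.2] at this
  have hrv : r ≠ v := by
    rintro rfl; have := three r; simp [ind, hr.1, hr.2, hv.1] at this
  have eA := line_eq P lA (sA hu.1) (sA hv.1) huv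
  have eB := line_eq P lB (sB hu.2) (sB hw.1) huw
  have eC := line_eq P lC (sC hv.2) (sC hw.2) hvw
  have eD := line_eq P lD (sD hs.2) (sD ht.2) hst
  have hwA := P.onan u v w s t r huv huw hvw hst hsu htw hrv (eA ▸ sA hs.1) (eB ▸ sB ht.1)
    (eC ▸ sC hr.1) (eD ▸ sD hr.2)
  rw [eA] at hwA
  have f1 : LB = LA := by rw [← eB, line_eq P lA (sA hu.1) hwA huw]
  have f2 : LC = LA := by rw [← eC, line_eq P lA (sA hv.1) hwA hvw]
  subst f1
  have f3 : LD = LB := by rw [← eD, line_eq P lA (sA hs.1) (sB ht.1) hst]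
  subst f2 f3
  have := card_le_card (union_subset (union_subset (union_subset sA sB) sC) sD)
  rw [line_card P lA] at this
  omega

theorem no_reg (P : LS V 5) (F : Finset (Finset V)) (hF : F ⊆ hyp P)
    (hU : (F.biUnion id).card = 2 * 3)
    (hd : ∀ v ∈ F.biUnion id, (F.filter fun e => v ∈ e).card = 2) : False := by
  have hc : F.card = 4 := by
    have h1 : ∑ e ∈ F, e.card = F.card * 3 := by
      rw [sum_congr rfl (g := fun _ => 3) (fun e he => (mem_hyp P (hF he)).1)]; simp
    have h2 : ∑ e ∈ F, e.card = ∑ v ∈ F.biUnion id, (F.filter fun e => v ∈ e).card := by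
      have := sum_card_bipartiteAbove_eq_sum_card_bipartiteBelow (s := F) (t := F.biUnion id)
        (r := fun e v => v ∈ e)
      simp only [bipartiteAbove, bipartiteBelow] at this
      rw [← this]
      refine sum_congr rfl fun e he => ?_
      congr 1
      ext z
      simp only [mem_filter, mem_biUnion, id]
      exact ⟨fun h => ⟨⟨e, he, h⟩, h⟩, fun h => h.2⟩
    rw [sum_congr rfl hd] at h2
    simp only [sum_const, smul_eq_mul, hU] at h2
    omega
  obtain ⟨A, F3, hA3, rfl, h3⟩ := card_eq_succ.mp hc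
  obtain ⟨B, C, D, hBC, hBD, hCD, rfl⟩ := card_eq_three.mp h3
  simp only [mem_insert, mem_singleton, not_or] at hA3
  obtain ⟨hAB, hAC, hAD⟩ := hA3
  have hA : A ∈ hyp P := hF (by simp)
  have hB : B ∈ hyp P := hF (by simp)
  have hC : C ∈ hyp P := hF (by simp)
  have hD : D ∈ hyp P := hF (by simp)
  have hUe : ({A, B, C, D} : Finset (Finset V)).biUnion id = A ∪ B ∪ C ∪ D := by
    simp [union_assoc]
  rw [hUe] at hU hd
  replace hU : (A ∪ B ∪ C ∪ D).card = 6 := hU
  have hP : ∀ v, ind A v + ind B v + ind C v + ind D v = 0 ∨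
      ind A v + ind B v + ind C v + ind D v = 2 := by
    intro v
    by_cases hv : v ∈ A ∪ B ∪ C ∪ D
    · right
      have := hd v hv
      rw [card_filter, sum_insert (by simp [hAB, hAC, hAD]), sum_insert (by simp [hBC, hBD]),
        sum_pair hCD] at this
      simp only [ind]; omega
    · left
      simp only [mem_union, not_or] at hv
      simp [ind, hv.1.1.1, hv.1.1.2, hv.1.2, hv.2]
  have cA := (mem_hyp P hA).1
  have cB := (mem_hyp P hB).1
  have cC := (mem_hyp P hC).1
  have cD := (mem_hyp P hD).1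
  have e1 := split3 hP
  have e2 := split3 (A := B) (B := A) (C := C) (D := D) (fun v => by have := hP v; omega)
  have e3 := split3 (A := C) (B := A) (C := B) (D := D) (fun v => by have := hP v; omega)
  have e4 := split3 (A := D) (B := A) (C := B) (D := C) (fun v => by have := hP v; omega)
  rw [inter_comm B A] at e2
  rw [inter_comm C A, inter_comm C B] at e3
  rw [inter_comm D A, inter_comm D B, inter_comm D C] at e4
  have l1 := le2 cA cB hAB
  have l2 := le2 cA cC hAC
  have l3 := le2 cA cD hAD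
  by_cases q1 : (A ∩ B).card = 2
  · exact case2 P hA hB hC hD hP hU q1
  by_cases q2 : (A ∩ C).card = 2
  · exact case2 P hA hC hB hD (fun v => by have := hP v; omega)
      (by rw [← hU]; congr 1; ext z; simp only [mem_union]; tauto) q2
  by_cases q3 : (A ∩ D).card = 2
  · exact case2 P hA hD hB hC (fun v => by have := hP v; omega)
      (by rw [← hU]; congr 1; ext z; simp only [mem_union]; tauto) q3
  exact case1 P hA hB hC hD hP hU (card_pos.mp (by omega)) (card_pos.mp (by omega))
    (card_pos.mp (by omega)) (card_pos.mp (by omega)) (card_pos.mp (by omega))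
    (card_pos.mp (by omega))

end Hyper

end Pool.Agent.H5.LinSp
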