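import Mathlib

set_option autoImplicit false

namespace Pool.Agent.H5.LoopCycle

def B (v w : Fin 4 → ℝ) : ℝ := v 0 * w 1 + v 1 * w 0 + v 2 * w 3 + v 3 * w 2

lemma step (v : Fin 4 → ℝ) (h : v 2 = 1) (ε δ : ℝ) : ∃ w, w 2 = 1 ∧ B w w = δ ∧ B v w = ε := by
  refine ⟨![v 0 - 1, ε - v 3 - δ / 2 - v 1 * (v 0 - 1), 1,
    δ / 2 - (v 0 - 1) * (ε - v 3 - δ / 2 - v 1 * (v 0 - 1))], rfl, ?_, ?_⟩ <;> simp [B, h] <;> ring

lemma chain (d e : ℕ → ℝ) : ∃ V : ℕ → Fin 4 → ℝ, V 0 = ![1, d 0 / 2, 0, 0] ∧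
    (∀ i, V (i + 1) 2 = 1) ∧ (∀ i, B (V i) (V i) = d i) ∧ ∀ i, B (V i) (V (i + 1)) = e i := by
  choose f h1 h2 h3 using step
  let W : ℕ → {v : Fin 4 → ℝ // v 2 = 1} := fun n =>
    Nat.rec ⟨![0, e 0, 1, d 1 / 2], rfl⟩ (fun i w => ⟨f w.1 w.2 (e (i + 1)) (d (i + 2)), h1 _ _ _ _⟩) n
  refine ⟨fun n => Nat.casesOn n ![1, d 0 / 2, 0, 0] (fun i => (W i).1), rfl, fun i => (W i).2, ?_, ?_⟩
  · rintro (_ | _ | i)
    · simp [B]
    · simp [B, W]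
    · exact h2 _ _ _ _
  · rintro (_ | i)
    · simp [B, W]
    · exact h3 _ _ _ _

lemma last (v : Fin 4 → ℝ) (h : v 2 = 1) (d0 δ1 δ2 ε1 ε2 ε3 : ℝ) :
    ∃ u w, B u u = δ1 ∧ B w w = δ2 ∧ B v u = ε1 ∧ B u w = ε2 ∧ B w ![1, d0 / 2, 0, 0] = ε3 := by
  obtain ⟨a, b, hab, hne⟩ : ∃ a b : ℝ, a * b = δ1 / 2 ∧ b - a * d0 / 2 ≠ 0 := by
    by_cases h : 1 - δ1 / 2 * d0 / 2 = 0
    · exact ⟨δ1 / 4, 2, by ring, fun e => by linarith⟩
    · exact ⟨δ1 / 2, 1, by ring, h⟩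
  obtain ⟨x, hx⟩ : ∃ x, x * (b - a * d0 / 2) = ε2 - a * ε3 - (ε1 - v 0 * b - v 1 * a) :=
    ⟨_, div_mul_cancel₀ _ hne⟩
  refine ⟨![a, b, 0, ε1 - v 0 * b - v 1 * a],
    ![x, ε3 - x * d0 / 2, 1, δ2 / 2 - x * (ε3 - x * d0 / 2)], ?_, ?_, ?_, ?_, ?_⟩ <;> simp [B, h]
  · linarith
  · ring
  · linarith
  · ring

theorem main (n : ℕ) (hn : 3 ≤ n) (d e : Fin n → ℝ) : ∃ M : Matrix (Fin n) (Fin n) ℝ,
    M.IsSymm ∧ (∀ i, M i i = d i) ∧ (∀ i, M i (finRotate n i) = e i) ∧ M.rank ≤ 4 := by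
  rcases hn.eq_or_lt with rfl | hn
  · refine ⟨!![d 0, e 0, e 2; e 0, d 1, e 1; e 2, e 1, d 2], ?_, ?_, ?_,
      (Matrix.rank_le_width _).trans (by norm_num)⟩
    · ext i j
      fin_cases i <;> fin_cases j <;> rfl
    · intro i
      fin_cases i <;> rfl
    · intro i
      fin_cases i <;> rfl
  obtain ⟨m, rfl⟩ : ∃ m, n = m + 4 := ⟨n - 4, by omega⟩
  let d' : ℕ → ℝ := fun i => if h : i < m + 4 then d ⟨i, h⟩ else 0
  let e' : ℕ → ℝ := fun i => if h : i < m + 4 then e ⟨i, h⟩ else 0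
  obtain ⟨V, h0, h1, h2, h3⟩ := chain d' e'
  obtain ⟨u, w, l1, l2, l3, l4, l5⟩ := last (V (m + 1)) (h1 m) (d' 0) (d' (m + 2)) (d' (m + 3))
    (e' (m + 1)) (e' (m + 2)) (e' (m + 3))
  let v : ℕ → Fin 4 → ℝ := fun i => if i ≤ m + 1 then V i else if i = m + 2 then u else w
  have hd : ∀ i, i < m + 4 → B (v i) (v i) = d' i := by
    intro i hi
    simp only [v]
    split_ifs with a b
    · exact h2 i
    · rw [b, l1]
    · rw [l2, show i = m + 3 by omega]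
  have he : ∀ i, i < m + 3 → B (v i) (v (i + 1)) = e' i := by
    intro i hi
    simp only [v]
    split_ifs with a b c b c c <;> try omega
    · exact h3 i
    · rw [show i = m + 1 by omega, l3]
    · rw [show i = m + 2 by omega, l4]
  refine ⟨Matrix.of fun i j => B (v i.val) (v j.val), ?_, ?_, ?_, ?_⟩
  · ext i j
    simp [B]
    ring
  · intro i
    simp [hd i.val i.2, d']
  · intro i
    by_cases hi : i = Fin.last (m + 3)
    · subst hi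
      rw [finRotate_last]
      simpa [v, h0, e', Fin.last] using l5
    · have hi' : i.val < m + 3 := Fin.val_lt_last hi
      have : (finRotate (m + 4) i).val = i.val + 1 := coe_finRotate_of_ne_last hi
      simp only [Matrix.of_apply, this, he i.val hi', e', i.2, dif_pos]
  · have : (Matrix.of fun i j : Fin (m + 4) => B (v i.val) (v j.val)) =
        (Matrix.of fun (i : Fin (m + 4)) (k : Fin 4) => v i.val k) *
        (Matrix.of fun (k : Fin 4) (j : Fin (m + 4)) => v j.val (![1, 0, 3, 2] k)) := by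
      ext i j
      simp [B, Matrix.mul_apply, Fin.sum_univ_four]
    rw [this]
    exact (Matrix.rank_mul_le_left _ _).trans (Matrix.rank_le_width _)

end Pool.Agent.H5.LoopCycle
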