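import Pool.Agent.H5.MinIdemDefs

set_option autoImplicit false
open Filter

namespace Pool.Agent.H5.MinIdem

theorem mem_oplus (p q : Ultrafilter ℕ+) (A : Set ℕ+) :
    A ∈ oplus p q ↔ ∀ᶠ x in (p : Filter ℕ+), ∀ᶠ y in (q : Filter ℕ+), x + y ∈ A := Iff.rfl

theorem mem_odot (p q : Ultrafilter ℕ+) (A : Set ℕ+) :
    A ∈ odot p q ↔ ∀ᶠ x in (p : Filter ℕ+), ∀ᶠ y in (q : Filter ℕ+), x * y ∈ A := Iff.rfl

theorem ev_oplus (p q : Ultrafilter ℕ+) (P : ℕ+ → Prop) :
    (∀ᶠ z in (oplus p q : Filter ℕ+), P z) ↔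
      ∀ᶠ x in (p : Filter ℕ+), ∀ᶠ y in (q : Filter ℕ+), P (x + y) := Iff.rfl

theorem ev_odot (p q : Ultrafilter ℕ+) (P : ℕ+ → Prop) :
    (∀ᶠ z in (odot p q : Filter ℕ+), P z) ↔
      ∀ᶠ x in (p : Filter ℕ+), ∀ᶠ y in (q : Filter ℕ+), P (x * y) := Iff.rfl

theorem oplus_assoc (p q r : Ultrafilter ℕ+) : oplus (oplus p q) r = oplus p (oplus q r) := by
  ext A
  simp only [mem_oplus, ev_oplus, add_assoc]

theorem odot_assoc (p q r : Ultrafilter ℕ+) : odot (odot p q) r = odot p (odot q r) := by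
  ext A
  simp only [mem_odot, ev_odot, mul_assoc]

theorem cont_oplus (q : Ultrafilter ℕ+) : Continuous fun p => oplus p q :=
  ultrafilterBasis_is_basis.continuous_iff.2 <| Set.forall_mem_range.mpr fun s =>
    ultrafilter_isOpen_basic {x | ∀ᶠ y in (q : Filter ℕ+), x + y ∈ s}

theorem cont_odot (q : Ultrafilter ℕ+) : Continuous fun p => odot p q :=
  ultrafilterBasis_is_basis.continuous_iff.2 <| Set.forall_mem_range.mpr fun s =>
    ultrafilter_isOpen_basic {x | ∀ᶠ y in (q : Filter ℕ+), x * y ∈ s}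

theorem minIdem_of {S : Type} (op : S → S → S) (p : S) (h1 : op p p = p)
    (h2 : ∀ I, IsIdeal op I → p ∈ I) : MinIdem op p :=
  ⟨h1, {x | ∀ I, IsIdeal op I → x ∈ I},
    ⟨⟨⟨p, h2⟩, fun a x hx => ⟨fun I hI => (hI.2 a x (hx I hI)).1,
      fun I hI => (hI.2 a x (hx I hI)).2⟩⟩, fun I hI _ hx => hx I hI⟩, h2⟩

theorem MinIdem.mem {S : Type} {op : S → S → S} {p : S} (h : MinIdem op p) (I : Set S)
    (hI : IsIdeal op I) : p ∈ I := by
  obtain ⟨_, K, hK, hp⟩ := h
  exact hK.2 I hI hp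

/-- every nonempty closed left ideal contains a minimal idempotent -/
theorem exists_minIdem {S : Type} [TopologicalSpace S] [CompactSpace S] [T2Space S]
    (op : S → S → S) (hassoc : ∀ a b c, op (op a b) c = op a (op b c))
    (hc : ∀ q, Continuous fun p => op p q) (J : Set S) (hne : J.Nonempty) (hcl : IsClosed J)
    (hl : ∀ a x, x ∈ J → op a x ∈ J) : ∃ p ∈ J, MinIdem op p := by
  let F : Set (Set S) := {L | L ⊆ J ∧ L.Nonempty ∧ IsClosed L ∧ ∀ a x, x ∈ L → op a x ∈ L}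
  obtain ⟨L, hL⟩ : ∃ L, Minimal (· ∈ F) L := by
    obtain ⟨L, -, hL⟩ := zorn_superset_nonempty F (fun c hcF hchain hcne => by
      refine ⟨⋂₀ c, ⟨?_, ?_, ?_, ?_⟩, fun s hs => Set.sInter_subset_of_mem hs⟩
      · obtain ⟨s, hs⟩ := hcne
        exact (Set.sInter_subset_of_mem hs).trans (hcF hs).1
      · haveI : Nonempty c := hcne.coe_sort
        refine IsCompact.nonempty_sInter_of_directed_nonempty_isCompact_isClosed
          (IsChain.directedOn hchain.symm) (fun s hs => (hcF hs).2.1)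
          (fun s hs => (hcF hs).2.2.1.isCompact) (fun s hs => (hcF hs).2.2.1)
      · exact isClosed_sInter fun s hs => (hcF hs).2.2.1
      · intro a x hx s hs
        exact (hcF hs).2.2.2 a x (hx s hs)) J ⟨subset_rfl, hne, hcl, hl⟩
    exact ⟨L, hL⟩
  obtain ⟨hLJ, hLne, hLcl, hLl⟩ := hL.prop
  letI : Semigroup S := { mul := op, mul_assoc := hassoc }
  obtain ⟨p, hpL, hp⟩ := exists_idempotent_in_compact_subsemigroup (M := S) hc L hLne
    hLcl.isCompact (fun x _ y hy => hLl x y hy)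
  refine ⟨p, hLJ hpL, minIdem_of op p hp fun I hI => ?_⟩
  obtain ⟨a, ha⟩ := hI.1
  have hz : op a p ∈ L := hLl a p hpL
  have hsub : Set.range (fun s => op s (op a p)) ⊆ L := by
    rintro _ ⟨s, rfl⟩
    exact hLl _ _ hz
  have hF : Set.range (fun s => op s (op a p)) ∈ F := by
    refine ⟨hsub.trans hLJ, ⟨_, a, rfl⟩, (isCompact_range (hc _)).isClosed, ?_⟩
    rintro b _ ⟨s, rfl⟩
    exact ⟨op b s, hassoc _ _ _⟩
  obtain ⟨s, hs⟩ := hL.le_of_le hF hsub hpL
  rw [← hs]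
  exact (hI.2 s _ (hI.2 p a ha).2).1

theorem map_oplus (k : ℕ+) (p q : Ultrafilter ℕ+) :
    (oplus p q).map (k * ·) = oplus (p.map (k * ·)) (q.map (k * ·)) := by
  ext A
  rw [Ultrafilter.mem_map, mem_oplus, mem_oplus, Ultrafilter.coe_map, Ultrafilter.coe_map]
  simp only [eventually_map, Set.mem_preimage, mul_add]

theorem minIdem_map (k : ℕ+) (e : Ultrafilter ℕ+) (he : MinIdem oplus e) :
    MinIdem oplus (e.map (k * ·)) := by
  refine minIdem_of _ _ (by rw [← map_oplus, he.1]) fun I hI => ?_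
  refine he.mem {x | x.map (k * ·) ∈ I} ⟨?_, fun a x hx => ?_⟩
  · obtain ⟨x, hx⟩ := hI.1
    obtain ⟨c, hc⟩ : ∃ c : Fin k, ∀ᶠ y : ℕ+ in (x : Filter ℕ+), (y : ℕ) % k = c := by
      rw [← Ultrafilter.eventually_exists_iff]
      exact Eventually.of_forall fun y => ⟨⟨y % k, Nat.mod_lt _ k.pos⟩, rfl⟩
    let d : ℕ+ := ⟨k - c, by have := c.2; omega⟩
    have hq : oplus (pure d) x ∈ I := (hI.2 _ _ hx).1
    have hdiv : ∀ᶠ y in (oplus (pure d) x : Filter ℕ+), ∃ z, k * z = y := by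
      rw [ev_oplus, Ultrafilter.coe_pure, eventually_pure]
      refine hc.mono fun y hy => ?_
      have : k ∣ d + y := by
        rw [PNat.dvd_iff]
        have h1 := Nat.div_add_mod (y : ℕ) k
        have h2 := c.2
        refine ⟨(y : ℕ) / k + 1, ?_⟩
        show (k : ℕ) - c + y = _
        rw [mul_add]
        omega
      obtain ⟨z, hz⟩ := this
      exact ⟨z, hz.symm⟩
    refine ⟨(oplus (pure d) x).map (Function.invFun (k * ·)), ?_⟩
    show ((oplus (pure d) x).map _).map _ ∈ I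
    rw [Ultrafilter.map_map]
    convert hq using 1
    apply Ultrafilter.coe_injective
    rw [Ultrafilter.coe_map]
    conv_rhs => rw [← Filter.map_id (f := (oplus (pure d) x : Filter ℕ+))]
    exact Filter.map_congr (hdiv.mono fun y hy => Function.invFun_eq hy)
  · constructor
    · show (oplus a x).map _ ∈ I
      rw [map_oplus]
      exact (hI.2 _ _ hx).1
    · show (oplus x a).map _ ∈ I
      rw [map_oplus]
      exact (hI.2 _ _ hx).2

end Pool.Agent.H5.MinIdem
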