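import Pool.Agent.H5.MinIdem1

set_option autoImplicit false
open Filter

namespace Pool.Agent.H5.MinIdem

def NN (b : ℕ) : ℕ := (2 ^ (b + 4)) ^ 4 + (2 ^ (b + 4)) ^ 2

def B : ℕ → ℕ
  | 0 => 1
  | i + 1 => B i + (i + 1) * (NN (B i) + i + 1)

def N (i : ℕ) : ℕ := NN (B i)

theorem Q_ge (b : ℕ) : 16 * (b + 1) ≤ 2 ^ (b + 4) := by
  have : b + 1 ≤ 2 ^ b := Nat.lt_two_pow_self
  rw [pow_add]
  omega

theorem noPow (b w d n u : ℕ) (hw0 : 0 < w) (hw : w ≤ b) (hd : d ≤ b) (hu : u ≤ b + n) :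
    w * (NN b + d) ≠ u * 2 ^ n := by
  intro h
  have hQ := Q_ge b
  unfold NN at h
  rcases le_or_gt (3 * (b + 4)) n with hn | hn
  · have h1 : (2 ^ (b + 4)) ^ 3 ∣ u * 2 ^ n := by
      rw [← pow_mul, mul_comm (b + 4)]
      exact Dvd.dvd.mul_left (pow_dvd_pow 2 hn) u
    generalize 2 ^ (b + 4) = Q at *
    rw [← h] at h1
    have hQ0 : 0 < Q := by omega
    have h2 : Q ^ 3 ∣ w * (Q ^ 2 + d) := by
      have : w * (Q ^ 4 + Q ^ 2 + d) = Q ^ 3 * (w * Q) + w * (Q ^ 2 + d) := by ring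
      rw [this] at h1
      exact (Nat.dvd_add_right (Dvd.intro _ rfl)).1 h1
    have h3 := Nat.le_of_dvd (by positivity) h2
    have h4 : d ≤ Q ^ 2 := by nlinarith
    have h5 : w * (Q ^ 2 + d) ≤ b * (2 * Q ^ 2) := Nat.mul_le_mul hw (by omega)
    have h6 : 0 < Q ^ 2 := by positivity
    have h7 : Q ^ 3 = Q * Q ^ 2 := by ring
    nlinarith
  · have h1 : 2 ^ n < (2 ^ (b + 4)) ^ 3 := by
      rw [← pow_mul, mul_comm (b + 4)]
      exact Nat.pow_lt_pow_right (by norm_num) hn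
    generalize 2 ^ (b + 4) = Q at *
    generalize 2 ^ n = P at *
    have h2 : u ≤ Q := by omega
    have h3 : u * P ≤ Q * P := Nat.mul_le_mul_right _ h2
    have h4 : Q * P < Q * Q ^ 3 := Nat.mul_lt_mul_of_pos_left h1 (by omega)
    have h5 : Q ^ 4 + Q ^ 2 + d ≤ w * (Q ^ 4 + Q ^ 2 + d) := Nat.le_mul_of_pos_left _ hw0
    have h6 : Q ^ 4 = Q * Q ^ 3 := by ring
    omega

theorem B_mono : Monotone B := monotone_nat_of_le_succ fun i => by
  simp only [B]; omega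

theorem le_B (i : ℕ) : i + 1 ≤ B i := by
  induction i with
  | zero => simp [B]
  | succ i ih =>
    simp only [B]
    have : 0 < (i + 1) * (NN (B i) + i + 1) := by positivity
    omega

theorem B_big {j i : ℕ} (h : j < i) : j * (N j + j) + j ≤ B i := by
  refine le_trans ?_ (B_mono (Nat.succ_le_of_lt h))
  simp only [B, N]
  nlinarith [Nat.zero_le (B j), Nat.zero_le (NN (B j))]

theorem NN_big (b : ℕ) : b * b + b < NN b := by
  have hQ := Q_ge b
  unfold NN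
  generalize 2 ^ (b + 4) = Q at *
  have : 0 ≤ Q ^ 4 := Nat.zero_le _
  nlinarith

theorem N_big (i : ℕ) : i * i + i < N i := by
  have h1 := NN_big (B i)
  have h2 := le_B i
  unfold N
  nlinarith

theorem B_lt_N (i : ℕ) : B i < N i := by
  have h1 := NN_big (B i)
  unfold N
  nlinarith [Nat.zero_le (B i * B i)]

def Th (i y : ℕ) : Prop := ∃ j d, i ≤ j ∧ d ≤ j ∧ y = N j + d

def Z (k : ℕ) : Prop := ∃ u n, u ≤ n ∧ k = u * 2 ^ n

def InA (x : ℕ) : Prop := ∃ k y, 0 < k ∧ ¬ Z k ∧ Th k y ∧ x = k * y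

theorem div_eq {M a b c d : ℕ} (h : a * M + b = c * M + d) (hb : b < M) (hd : d < M) :
    a = c ∧ b = d := by
  have h1 : (a * M + b) % M = (c * M + d) % M := by rw [h]
  rw [Nat.mul_add_mod_of_lt hb, Nat.mul_add_mod_of_lt hd] at h1
  subst h1
  exact ⟨Nat.eq_of_mul_eq_mul_right (by omega) (Nat.add_right_cancel h), rfl⟩

theorem avoid (m n : ℕ) (hn : 0 < n) (h1 : InA m) (h2 : InA (m + n)) (h3 : InA (m * 2 ^ n)) :
    False := by
  obtain ⟨k, _, hk, -, ⟨i, d, hi, hd, rfl⟩, rfl⟩ := h1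
  obtain ⟨k2, _, hk2, -, ⟨i2, d2, hi2, hd2, rfl⟩, e2⟩ := h2
  obtain ⟨k1, _, hk1, hz, ⟨i1, d1, hi1, hd1, rfl⟩, e1⟩ := h3
  have hP : n < 2 ^ n := Nat.lt_two_pow_self
  have hm : k * (N i + d) ≤ i * (N i + i) := Nat.mul_le_mul hi (by omega)
  have hm0 : N i ≤ k * (N i + d) := le_trans (by omega) (Nat.le_mul_of_pos_left _ hk)
  have hN := N_big i
  have hBN := B_lt_N i
  have e : i1 = i := by
    rcases lt_trichotomy i1 i with h | h | h
    · have a1 := B_big h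
      have a2 : k1 * (N i1 + d1) ≤ i1 * (N i1 + i1) := Nat.mul_le_mul hi1 (by omega)
      have a3 : k * (N i + d) ≤ k * (N i + d) * 2 ^ n := Nat.le_mul_of_pos_right _ (by omega)
      omega
    · exact h
    · have a1 := B_big h
      have a2 := le_B i1
      exact (noPow (B i1) k1 d1 n _ hk1 (by omega) (by omega) (by omega) e1.symm).elim
  subst e
  have hk' : k * 2 ^ n ≤ i1 := by
    by_contra hc
    have a1 : (i1 + 1) * N i1 ≤ (k * 2 ^ n) * (N i1 + d) := Nat.mul_le_mul (by omega) (by omega)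
    have a2 : k1 * (N i1 + d1) ≤ i1 * (N i1 + i1) := Nat.mul_le_mul hi1 (by omega)
    have a3 : k * (N i1 + d) * 2 ^ n = (k * 2 ^ n) * (N i1 + d) := by ring
    nlinarith
  have hni : n < i1 := lt_of_lt_of_le hP (le_trans (Nat.le_mul_of_pos_left _ hk) hk')
  have ek1 : k * 2 ^ n = k1 := by
    refine (div_eq (M := N i1) (b := k * 2 ^ n * d) (d := k1 * d1) (by linarith) ?_ ?_).1
    · have := Nat.mul_le_mul hk' hd
      omega
    · have := Nat.mul_le_mul hi1 hd1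
      omega
  have e : i2 = i1 := by
    rcases lt_trichotomy i2 i1 with h | h | h
    · have a1 := B_big h
      have a2 : k2 * (N i2 + d2) ≤ i2 * (N i2 + i2) := Nat.mul_le_mul hi2 (by omega)
      omega
    · exact h
    · have a1 := B_big h
      have a2 := B_lt_N i2
      have a3 : N i2 ≤ k2 * (N i2 + d2) := le_trans (by omega) (Nat.le_mul_of_pos_left _ hk2)
      omega
  subst e
  obtain ⟨rfl, e3⟩ : k = k2 ∧ k * d + n = k2 * d2 := by
    refine div_eq (M := N i2) (by linarith) ?_ ?_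
    · have := Nat.mul_le_mul hi hd
      omega
    · have := Nat.mul_le_mul hi2 hd2
      omega
  refine hz ⟨k, n, Nat.le_of_dvd hn ?_, ek1.symm⟩
  exact (Nat.dvd_add_right (Dvd.intro d rfl)).1 (e3 ▸ Dvd.intro d2 rfl)

def NP (j : ℕ) : ℕ+ := ⟨N j, lt_of_le_of_lt (Nat.zero_le _) (B_lt_N j)⟩

theorem exists_e : ∃ e : Ultrafilter ℕ+, MinIdem oplus e ∧
    ∀ i, ∀ᶠ y : ℕ+ in (e : Filter ℕ+), Th i y := by
  obtain ⟨e, he, hm⟩ := exists_minIdem oplus oplus_assoc cont_oplus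
    {q | ∀ (n : ℕ+) (i : ℕ), ∀ᶠ y : ℕ+ in (q : Filter ℕ+), Th i (n + y : ℕ+)} (by
      refine ⟨(hyperfilter ℕ).map NP, fun n i => ?_⟩
      rw [Ultrafilter.coe_map, eventually_map]
      refine Nat.hyperfilter_le_atTop ?_
      filter_upwards [eventually_ge_atTop i, eventually_ge_atTop (n : ℕ)] with j h1 h2
      exact ⟨j, n, h1, h2, add_comm _ _⟩) (by
      simp only [Set.ofPred_forall]
      exact isClosed_iInter fun n => isClosed_iInter fun i =>
        ultrafilter_isClosed_basic {y : ℕ+ | Th i (n + y : ℕ+)}) (by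
      intro a x hx n i
      rw [ev_oplus]
      refine Eventually.of_forall fun z => ?_
      simpa only [add_assoc] using hx (n + z) i)
  refine ⟨e, hm, fun i => ?_⟩
  rw [← hm.1, ev_oplus]
  exact Eventually.of_forall fun x => he x i

theorem main : ∃ p : Ultrafilter ℕ+, MinIdem odot p ∧ (∀ A ∈ p, AddCentral A) ∧
    ∃ A ∈ p, ∀ m n : ℕ+, ¬ (m ∈ A ∧ m + n ∈ A ∧ m * 2 ^ (n : ℕ) ∈ A) := by
  obtain ⟨e, he, hT⟩ := exists_e
  obtain ⟨p, ⟨s, hs⟩, hp⟩ := exists_minIdem odot odot_assoc cont_odot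
    (Set.range fun s => odot s (odot e e)) ⟨_, e, rfl⟩ (isCompact_range (cont_odot _)).isClosed (by
      rintro a _ ⟨s, rfl⟩
      exact ⟨odot a s, odot_assoc _ _ _⟩)
  have hs' : p = odot (odot s e) e := by rw [odot_assoc]; exact hs.symm
  refine ⟨p, hp, fun A hA => ?_, {x : ℕ+ | InA x}, ?_, fun m n h => ?_⟩
  · rw [hs', mem_odot] at hA
    obtain ⟨k, hk⟩ := hA.exists
    exact ⟨_, minIdem_map k e he, hk⟩
  · rw [hs', mem_odot, ev_odot]
    refine Eventually.of_forall fun x => (hT x).mono fun y hy => (hT (x * y : ℕ+)).mono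
      fun z hz => ⟨(x * y : ℕ+), z, (x * y).pos, ?_, hz, PNat.mul_coe _ _⟩
    rintro ⟨u, n, hu, h⟩
    obtain ⟨j, d, h1, h2, h3⟩ := hy
    have := le_B j
    rw [PNat.mul_coe, h3] at h
    exact noPow (B j) x d n u x.pos (by omega) (by omega) (by omega) h
  · refine avoid m n n.pos h.1 h.2.1 ?_
    have := h.2.2
    simpa using this

end Pool.Agent.H5.MinIdem
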