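import Mathlib

set_option autoImplicit false

namespace Pool.Agent.H5.MinIdem

/-- `A ∈ oplus p q ↔ {x | A - x ∈ q} ∈ p`, where `A - x = {y | x + y ∈ A}`. -/
def oplus (p q : Ultrafilter ℕ+) : Ultrafilter ℕ+ := p.bind fun x => q.map fun y => x + y

/-- `A ∈ odot p q ↔ {x | x⁻¹A ∈ q} ∈ p`, where `x⁻¹A = {y | x * y ∈ A}`. -/
def odot (p q : Ultrafilter ℕ+) : Ultrafilter ℕ+ := p.bind fun x => q.map fun y => x * y

/-- two-sided ideal of the semigroup `(S, op)` -/
def IsIdeal {S : Type} (op : S → S → S) (I : Set S) : Prop :=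
  I.Nonempty ∧ ∀ a x, x ∈ I → op a x ∈ I ∧ op x a ∈ I

/-- `K` is the smallest two-sided ideal -/
def IsSmallestIdeal {S : Type} (op : S → S → S) (K : Set S) : Prop :=
  IsIdeal op K ∧ ∀ I, IsIdeal op I → K ⊆ I

/-- `p ∈ E(K(S))`: an idempotent lying in the smallest two-sided ideal -/
def MinIdem {S : Type} (op : S → S → S) (p : S) : Prop :=
  op p p = p ∧ ∃ K, IsSmallestIdeal op K ∧ p ∈ K

/-- member of a minimal additive idempotent -/
def AddCentral (A : Set ℕ+) : Prop := ∃ u, MinIdem oplus u ∧ A ∈ u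

end Pool.Agent.H5.MinIdem
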