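import Mathlib

namespace Pool.Agent.H5.Mink

open RealInnerProductSpace

variable {E : Type} [NormedAddCommGroup E] [InnerProductSpace ℝ E]

def le (x y : ℝ × E) : Prop := ‖y.2 - x.2‖ ≤ y.1 - x.1
def lt (x y : ℝ × E) : Prop := x ≠ y ∧ le x y
def nul (x y : ℝ × E) : Prop := ‖y.2 - x.2‖ = y.1 - x.1
def ray (x : ℝ × E) (e : E) (s : ℝ) : ℝ × E := (x.1 + s, x.2 + s • e)

omit [InnerProductSpace ℝ E] in
lemma lt_iff {x y : ℝ × E} : lt x y ↔ x.1 < y.1 ∧ le x y := by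
  constructor
  · rintro ⟨h1, h2⟩
    refine ⟨?_, h2⟩
    by_contra h
    have h3 : ‖y.2 - x.2‖ ≤ 0 := h2.trans (by linarith)
    have h4 : y.2 - x.2 = 0 := norm_le_zero_iff.1 h3
    have h5 := norm_nonneg (y.2 - x.2)
    unfold le at h2
    exact h1 (Prod.ext (by linarith) (sub_eq_zero.1 h4).symm)
  · rintro ⟨h1, h2⟩
    exact ⟨fun h => by rw [h] at h1; exact lt_irrefl _ h1, h2⟩

omit [InnerProductSpace ℝ E] in
lemma le.trans {x y z : ℝ × E} (h1 : le x y) (h2 : le y z) : le x z := by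
  unfold le at *
  have := norm_add_le (z.2 - y.2) (y.2 - x.2)
  rw [sub_add_sub_cancel] at this
  linarith

omit [InnerProductSpace ℝ E] in
lemma lt.trans {x y z : ℝ × E} (h1 : lt x y) (h2 : lt y z) : lt x z :=
  lt_iff.2 ⟨(lt_iff.1 h1).1.trans (lt_iff.1 h2).1, h1.2.trans h2.2⟩

lemma ray_lt {x : ℝ × E} {e : E} (he : ‖e‖ = 1) {s t : ℝ} (h : s < t) :
    lt (ray x e s) (ray x e t) := by
  refine lt_iff.2 ⟨by simp [ray, h], ?_⟩
  simp only [le, ray, add_sub_add_left_eq_sub, ← sub_smul, norm_smul, he, Real.norm_eq_abs,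
    abs_of_pos (sub_pos.2 h)]
  simp

@[simp] lemma ray_zero (x : ℝ × E) (e : E) : ray x e 0 = x := by simp [ray]

lemma lt_ray {x : ℝ × E} {e : E} (he : ‖e‖ = 1) {t : ℝ} (h : 0 < t) : lt x (ray x e t) := by
  simpa using ray_lt (x := x) he h

lemma nul_ray {x : ℝ × E} {e : E} (he : ‖e‖ = 1) {t : ℝ} (h : 0 < t) : nul x (ray x e t) := by
  simp [nul, ray, norm_smul, he, abs_of_pos h]

lemma exists_ray {x w : ℝ × E} (h : lt x w) (hn : nul x w) :
    ∃ e : E, ‖e‖ = 1 ∧ ∃ s, 0 < s ∧ w = ray x e s := by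
  have h1 : 0 < w.1 - x.1 := sub_pos.2 (lt_iff.1 h).1
  refine ⟨(w.1 - x.1)⁻¹ • (w.2 - x.2), ?_, w.1 - x.1, h1, ?_⟩
  · rw [norm_smul, hn, Real.norm_eq_abs, abs_of_pos (inv_pos.2 h1), inv_mul_cancel₀ h1.ne']
  · refine Prod.ext (by simp [ray]) ?_
    simp [ray, smul_smul, mul_inv_cancel₀ h1.ne']

def phi (e : E) (z : ℝ × E) : ℝ := z.1 - ⟪e, z.2⟫

lemma phi_ray {x : ℝ × E} {e : E} (he : ‖e‖ = 1) (s : ℝ) : phi e (ray x e s) = phi e x := by
  simp [phi, ray, inner_add_right, inner_smul_right, real_inner_self_eq_norm_sq, he]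

lemma phi_mono {e : E} (he : ‖e‖ = 1) {x y : ℝ × E} (h : le x y) : phi e x ≤ phi e y := by
  have := real_inner_le_norm e (y.2 - x.2)
  rw [he, inner_sub_right] at this
  unfold le at h
  unfold phi
  linarith

lemma phi_eq {e : E} (he : ‖e‖ = 1) {x y : ℝ × E} (h : le x y) (h2 : phi e y ≤ phi e x) :
    y = ray x e (y.1 - x.1) := by
  refine Prod.ext (by simp [ray]) ?_
  have h3 : ⟪e, y.2 - x.2⟫ = y.1 - x.1 := by
    have := phi_mono he h
    rw [inner_sub_right]; unfold phi at *; linarith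
  have h4 : ‖(y.2 - x.2) - (y.1 - x.1) • e‖ ^ 2 ≤ 0 := by
    rw [norm_sub_sq_real, inner_smul_right, real_inner_comm, h3, norm_smul, he, Real.norm_eq_abs,
      mul_one, sq_abs]
    have h5 := norm_nonneg (y.2 - x.2)
    unfold le at h
    nlinarith
  have h5 : (y.2 - x.2) - (y.1 - x.1) • e = 0 := by
    rw [← norm_eq_zero]; exact pow_eq_zero_iff (two_ne_zero) |>.1 (le_antisymm h4 (sq_nonneg _))
  simp only [ray]
  rw [sub_eq_zero] at h5
  rw [← h5]; simp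

lemma interval {x v : ℝ × E} {e : E} (he : ‖e‖ = 1) {s : ℝ} (h1 : le x v) (h2 : le v (ray x e s)) :
    v = ray x e (v.1 - x.1) :=
  phi_eq he h1 (by rw [← phi_ray (x := x) he s]; exact phi_mono he h2)

lemma ray_ray (x : ℝ × E) (e : E) (s t : ℝ) : ray (ray x e s) e t = ray x e (s + t) := by
  simp [ray, add_smul, add_assoc]

lemma dir_eq {x : ℝ × E} {e e' : E} {s t : ℝ} (hs : s ≠ 0) (h : ray x e s = ray x e' t) :
    e = e' ∧ s = t := by
  have h1 : s = t := by simpa [ray] using congrArg Prod.fst h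
  subst h1
  have h2 : s • e = s • e' := by simpa [ray] using congrArg Prod.snd h
  exact ⟨smul_right_injective E hs h2, rfl⟩

lemma tri {x : ℝ × E} {e : E} (he : ‖e‖ = 1) (s : ℝ) :
    ray x e s = x ∨ lt x (ray x e s) ∨ lt (ray x e s) x := by
  rcases lt_trichotomy s 0 with h | h | h
  · right; right; simpa using ray_lt (x := x) he h
  · left; simp [h]
  · right; left; exact lt_ray he h

/-- far points of a light ray lie above a point strictly below its null hyperplane -/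
lemma far {x y : ℝ × E} {e : E} (he : ‖e‖ = 1) (h : phi e y < phi e x) :
    ∃ T, ∀ s, T < s → lt y (ray x e s) := by
  set d1 := x.1 - y.1
  set d2 := x.2 - y.2
  have hδ : 0 < d1 - ⟪e, d2⟫ := by
    simp only [d1, d2, inner_sub_right]; unfold phi at h; linarith
  refine ⟨max (-d1) ((‖d2‖ ^ 2 - d1 ^ 2) / (2 * (d1 - ⟪e, d2⟫))), fun s hs => ?_⟩
  have h1 : -d1 < s := (le_max_left _ _).trans_lt hs
  have h2 := (le_max_right _ _).trans_lt hs
  rw [div_lt_iff₀ (by linarith)] at h2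
  refine lt_iff.2 ⟨by simp only [ray]; simp only [d1] at h1; linarith, ?_⟩
  have e1 : (ray x e s).2 - y.2 = d2 + s • e := by simp only [ray, d2]; abel
  have e2 : (ray x e s).1 - y.1 = d1 + s := by simp only [ray, d1]; ring
  unfold le
  rw [e1, e2]
  refine (pow_le_pow_iff_left₀ (norm_nonneg _) (by linarith) two_ne_zero).1 ?_
  rw [norm_add_sq_real, inner_smul_right, real_inner_comm, norm_smul, he, Real.norm_eq_abs,
    mul_one, sq_abs]
  nlinarith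

/-- the axioms on a point set `p` and three colours of its future light cones -/
structure Sys {X : Type} (r : X → X → Prop) (p : Set X) (q : Fin 3 → Set X) : Prop where
  a1 : ∀ x ∈ p, ∀ i, ∃ w ∈ q i, r x w
  a2 : ∀ x ∈ p, ∀ i j, i ≠ j → ¬ ∃ z, ((∃ w ∈ q i, r z w) ∧ ∃ w ∈ q j, r z w) ∧ r x z
  a3 : ∀ i, ∀ w ∈ q i, (∃ x ∈ p, r x w) ∧ ∃ w' ∈ q i, r w w'
  a4 : ∀ z, (∃ x ∈ p, r x z) → (∀ i, z ∉ q i) →
    ∃ v, ((∃ a ∈ q 0, r a v) ∧ ∃ a ∈ q 1, r a v) ∧ r v z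

variable {p : Set (ℝ × E)} {q : Fin 3 → Set (ℝ × E)}

lemma Sys.null (H : Sys lt p q) {x w : ℝ × E} {i : Fin 3} (hx : x ∈ p) (hw : w ∈ q i)
    (h : lt x w) : nul x w := by
  by_contra hn
  have ht : ‖w.2 - x.2‖ < w.1 - x.1 := lt_of_le_of_ne h.2 hn
  obtain ⟨j, hj⟩ := exists_ne i
  obtain ⟨w', hw', h'⟩ := H.a1 x hx j
  have h1 : 0 < w'.1 - x.1 := sub_pos.2 (lt_iff.1 h').1
  have h2 : ‖w'.2 - x.2‖ ≤ w'.1 - x.1 := h'.2
  obtain ⟨ε, e0, e1, e2⟩ : ∃ ε : ℝ, 0 < ε ∧ ε < 1 ∧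
      2 * ε * (w'.1 - x.1) < w.1 - x.1 - ‖w.2 - x.2‖ := by
    refine ⟨min (1 / 2) ((w.1 - x.1 - ‖w.2 - x.2‖) / (4 * (w'.1 - x.1))),
      lt_min (by norm_num) (div_pos (by linarith) (by linarith)),
      (min_le_left _ _).trans_lt (by norm_num), ?_⟩
    have := min_le_right (1 / 2 : ℝ) ((w.1 - x.1 - ‖w.2 - x.2‖) / (4 * (w'.1 - x.1)))
    rw [le_div_iff₀ (by linarith)] at this
    nlinarith
  have n1 : ‖ε • (w'.2 - x.2)‖ ≤ ε * (w'.1 - x.1) := by
    rw [norm_smul, Real.norm_eq_abs, abs_of_pos e0]; exact mul_le_mul_of_nonneg_left h2 e0.le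
  refine H.a2 x hx i j hj.symm ⟨(x.1 + ε * (w'.1 - x.1), x.2 + ε • (w'.2 - x.2)),
    ⟨⟨w, hw, lt_iff.2 ⟨?_, ?_⟩⟩, w', hw', lt_iff.2 ⟨?_, ?_⟩⟩, lt_iff.2 ⟨?_, ?_⟩⟩
  · have := norm_nonneg (w.2 - x.2)
    simp only; nlinarith
  · have := norm_sub_le (w.2 - x.2) (ε • (w'.2 - x.2))
    simp only [le, ← sub_sub]; linarith
  · simp only; nlinarith
  · have e : w'.2 - (x.2 + ε • (w'.2 - x.2)) = (1 - ε) • (w'.2 - x.2) := by
      rw [sub_smul, one_smul]; abel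
    simp only [le]
    rw [e, norm_smul, Real.norm_eq_abs, abs_of_pos (by linarith)]
    nlinarith
  · simp only; nlinarith
  · simp only [le, add_sub_cancel_left]; exact n1

lemma Sys.diff (H : Sys lt p q) {x : ℝ × E} {e : E} (he : ‖e‖ = 1) {i j : Fin 3} {s t : ℝ}
    (hx : x ∈ p) (hs : 0 < s) (ht : 0 < t) (h1 : ray x e s ∈ q i) (h2 : ray x e t ∈ q j) :
    i = j := by
  by_contra hij
  have m1 := min_le_left s t
  have m2 := min_le_right s t
  have m3 := lt_min hs ht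
  exact H.a2 x hx i j hij ⟨ray x e (min s t / 2), ⟨⟨_, h1, ray_lt he (by linarith)⟩,
    _, h2, ray_lt he (by linarith)⟩, lt_ray he (by linarith)⟩

lemma Sys.anti (H : Sys lt p q) {x y : ℝ × E} (hx : x ∈ p) (hy : y ∈ p) : ¬ lt x y := fun h =>
  H.a2 x hx 0 1 (by decide) ⟨y, ⟨H.a1 y hy 0, H.a1 y hy 1⟩, h⟩

lemma Sys.two (H : Sys lt p q) {x y v z : ℝ × E} (hx : x ∈ p) (hy : y ∈ p) (h1 : lt x v)
    (h2 : lt y v) (h3 : lt v z) (n1 : nul x z) (n2 : nul y z) : x = y := by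
  obtain ⟨e, he, s, hs, e1⟩ := exists_ray (h1.trans h3) n1
  obtain ⟨e', he', s', hs', e2⟩ := exists_ray (h2.trans h3) n2
  have v1 := interval he h1.2 (e1 ▸ h3.2)
  have v2 := interval he' h2.2 (e2 ▸ h3.2)
  have z1 : z = ray v e (s - (v.1 - x.1)) := by
    conv_rhs => rw [v1, ray_ray]
    simpa [ray] using e1
  have z2 : z = ray v e' (s' - (v.1 - y.1)) := by
    conv_rhs => rw [v2, ray_ray]
    simpa [ray] using e2
  have hne : s - (v.1 - x.1) ≠ 0 := by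
    intro h0; rw [h0, ray_zero] at z1; exact h3.1 z1.symm
  obtain ⟨rfl, -⟩ := dir_eq hne (z1.symm.trans z2)
  have : y = ray x e ((v.1 - x.1) - (v.1 - y.1)) := by
    rw [sub_eq_add_neg, ← ray_ray, ← v1]
    conv_rhs => rw [v2, ray_ray]
    simp [ray]
  rcases tri (x := x) he ((v.1 - x.1) - (v.1 - y.1)) with h | h | h
  · rw [← this] at h; exact h.symm
  · rw [← this] at h; exact absurd h (H.anti hx hy)
  · rw [← this] at h; exact absurd h (H.anti hy hx)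

lemma Sys.base (H : Sys lt p q) {x y w : ℝ × E} {i : Fin 3} (hx : x ∈ p) (hy : y ∈ p)
    (hw : w ∈ q i) (h1 : lt x w) (h2 : lt y w) : x = y := by
  obtain ⟨w', hw', h3⟩ := (H.a3 i w hw).2
  exact H.two hx hy h1 h2 h3 (H.null hx hw' (h1.trans h3)) (H.null hy hw' (h2.trans h3))

lemma Sys.unbdd (H : Sys lt p q) {x : ℝ × E} {e : E} (he : ‖e‖ = 1) {i : Fin 3} {s0 : ℝ}
    (hx : x ∈ p) (hs : 0 < s0) (h0 : ray x e s0 ∈ q i) (T : ℝ) : ∃ s, T < s ∧ ray x e s ∈ q i := by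
  by_contra hb
  push Not at hb
  set B : Set ℝ := {s | 0 < s ∧ ray x e s ∈ q i}
  have hB : BddAbove B := ⟨T, fun s hs => not_lt.1 fun h => hb s h hs.2⟩
  have hne : B.Nonempty := ⟨s0, hs, h0⟩
  have hσ : 0 < sSup B := hs.trans_le (le_csSup hB ⟨hs, h0⟩)
  have hz : ∀ j, ray x e (sSup B) ∉ q j := by
    intro j hj
    obtain rfl := H.diff he hx hs hσ h0 hj
    obtain ⟨w', hw', h3⟩ := (H.a3 i _ hj).2
    have h4 := (lt_ray he hσ).trans h3
    obtain ⟨e', he', s', hs', rfl⟩ := exists_ray h4 (H.null hx hw' h4)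
    have := interval he' (lt_ray he hσ).2 h3.2
    obtain ⟨rfl, -⟩ := dir_eq hσ.ne' this
    have h5 := le_csSup hB (show s' ∈ B from ⟨hs', hw'⟩)
    have h6 := (lt_iff.1 h3).1
    simp only [ray] at h6
    linarith
  have hnul : ∀ y ∈ p, lt y (ray x e (sSup B)) → nul y (ray x e (sSup B)) := by
    intro y hy h
    by_contra hn
    have ht : ‖(ray x e (sSup B)).2 - y.2‖ < (ray x e (sSup B)).1 - y.1 := lt_of_le_of_ne h.2 hn
    set δ := (ray x e (sSup B)).1 - y.1 - ‖(ray x e (sSup B)).2 - y.2‖ with hδ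
    obtain ⟨s, hsB, hs2⟩ := exists_lt_of_lt_csSup hne (show sSup B - δ / 2 < sSup B by linarith)
    have hs3 := le_csSup hB hsB
    have e1 : (ray x e s).2 - y.2 = ((ray x e (sSup B)).2 - y.2) - (sSup B - s) • e := by
      simp only [ray, sub_smul]; abel
    have e2 : (ray x e s).1 = (ray x e (sSup B)).1 - (sSup B - s) := by simp only [ray]; ring
    have e3 := norm_sub_le ((ray x e (sSup B)).2 - y.2) ((sSup B - s) • e)
    rw [norm_smul, he, Real.norm_eq_abs, abs_of_nonneg (by linarith), ← e1] at e3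
    have e4 := norm_nonneg ((ray x e s).2 - y.2)
    have : lt y (ray x e s) := lt_iff.2 ⟨by linarith, by unfold le; linarith⟩
    obtain rfl := H.base hx hy hsB.2 (lt_ray he hsB.1) this
    exact hn (nul_ray he hσ)
  obtain ⟨v, ⟨⟨a, ha, hav⟩, b, hb', hbv⟩, hv⟩ := H.a4 _ ⟨x, hx, lt_ray he hσ⟩ hz
  obtain ⟨y, hy, hya⟩ := (H.a3 0 a ha).1
  obtain ⟨y', hy', hyb⟩ := (H.a3 1 b hb').1
  have n1 := hnul y hy ((hya.trans hav).trans hv)
  have n2 := hnul y' hy' ((hyb.trans hbv).trans hv)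
  obtain rfl := H.two hy hy' (hya.trans hav) (hyb.trans hbv) hv n1 n2
  obtain ⟨e', he', s', hs', e2⟩ := exists_ray ((hya.trans hav).trans hv) n1
  have a1 := interval he' hya.2 (e2 ▸ (hav.trans hv).2)
  have a2 := interval he' hyb.2 (e2 ▸ (hbv.trans hv).2)
  have := H.diff he' hy (sub_pos.2 (lt_iff.1 hya).1) (sub_pos.2 (lt_iff.1 hyb).1) (a1 ▸ ha)
    (a2 ▸ hb')
  exact absurd this (by decide)

lemma Sys.supp (H : Sys lt p q) {x : ℝ × E} {e : E} (he : ‖e‖ = 1) {i : Fin 3} {s0 : ℝ}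
    (hx : x ∈ p) (hs : 0 < s0) (h0 : ray x e s0 ∈ q i) {y : ℝ × E} (hy : y ∈ p) :
    phi e x ≤ phi e y := by
  by_contra h
  push Not at h
  obtain ⟨T, hT⟩ := far he h
  obtain ⟨s, h1, h2⟩ := H.unbdd he hx hs h0 (max T 0)
  obtain rfl := H.base hx hy h2 (lt_ray he ((le_max_right _ _).trans_lt h1))
    (hT s ((le_max_left _ _).trans_lt h1))
  exact lt_irrefl _ h

noncomputable def mid (x y : ℝ × E) : ℝ × E := ((x.1 + y.1) / 2, (1 / 2 : ℝ) • (x.2 + y.2))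

lemma phi_mid (e : E) (x y : ℝ × E) : phi e (mid x y) = (phi e x + phi e y) / 2 := by
  simp only [phi, mid, inner_smul_right, inner_add_right]; ring

lemma Sys.midl (H : Sys lt p q) {x y b : ℝ × E} (hx : x ∈ p) (hy : y ∈ p) (hb : b ∈ p)
    {e : E} (he : ‖e‖ = 1) {i : Fin 3} {s : ℝ} (hs : 0 < s) (h0 : ray b e s ∈ q i)
    (h : lt (mid x y) (ray b e s)) :
    phi e x = phi e y ∧ mid x y = ray b e ((mid x y).1 - b.1) := by
  have h1 := H.supp he hb hs h0 hx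
  have h2 := H.supp he hb hs h0 hy
  have h3 := phi_mono he h.2
  rw [phi_ray he, phi_mid] at h3
  refine ⟨by linarith, ?_⟩
  have h4 := phi_eq he h.2 (by rw [phi_ray he, phi_mid]; linarith)
  have h5 : mid x y = ray (ray b e s) e (-((ray b e s).1 - (mid x y).1)) := by
    conv_rhs => rw [h4, ray_ray]
    simp [ray]
  rw [ray_ray] at h5
  convert h5 using 2
  simp only [ray]; ring

lemma Sys.not_below (H : Sys lt p q) {x y b : ℝ × E} (hx : x ∈ p) (hy : y ∈ p) (hb : b ∈ p) :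
    ¬ lt (mid x y) b := by
  intro h
  obtain ⟨w, hw, h1⟩ := H.a1 b hb 0
  obtain ⟨w', hw', h2⟩ := H.a1 b hb 1
  obtain ⟨e, he, s, hs, rfl⟩ := exists_ray h1 (H.null hb hw h1)
  obtain ⟨e', he', s', hs', rfl⟩ := exists_ray h2 (H.null hb hw' h2)
  have a1 := (H.midl hx hy hb he hs hw (h.trans h1)).2
  have a2 := (H.midl hx hy hb he' hs' hw' (h.trans h2)).2
  obtain ⟨rfl, -⟩ := dir_eq (sub_ne_zero.2 (lt_iff.1 h).1.ne) (a1.symm.trans a2)
  exact absurd (H.diff he hb hs hs' hw hw') (by decide)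

lemma Sys.cmp (H : Sys lt p q) {x y w : ℝ × E} (hx : x ∈ p) (hy : y ∈ p) {i : Fin 3}
    (hw : w ∈ q i) (h : lt (mid x y) w) :
    mid x y ∈ p ∨ (∃ b ∈ p, lt b (mid x y)) ∨ ∃ b ∈ p, lt (mid x y) b := by
  obtain ⟨b, hb, h1⟩ := (H.a3 i w hw).1
  obtain ⟨e, he, s, hs, rfl⟩ := exists_ray h1 (H.null hb hw h1)
  have a1 := (H.midl hx hy hb he hs hw h).2
  rcases tri (x := b) he ((mid x y).1 - b.1) with h | h | h <;> rw [← a1] at h
  · exact Or.inl (h ▸ hb)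
  · exact Or.inr (Or.inl ⟨b, hb, h⟩)
  · exact Or.inr (Or.inr ⟨b, hb, h⟩)

lemma Sys.three (H : Sys lt p q) {x y : ℝ × E} (hx : x ∈ p) (hy : y ∈ p) (hm : mid x y ∈ p) :
    ∃ e : Fin 3 → E, Function.Injective e ∧ ∀ i, ‖e i‖ = 1 ∧ phi (e i) x = phi (e i) y := by
  have : ∀ i, ∃ e : E, ‖e‖ = 1 ∧ ∃ s, 0 < s ∧ ray (mid x y) e s ∈ q i := by
    intro i
    obtain ⟨w, hw, h1⟩ := H.a1 _ hm i
    obtain ⟨e, he, s, hs, rfl⟩ := exists_ray h1 (H.null hm hw h1)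
    exact ⟨e, he, s, hs, hw⟩
  choose e he s hs hq using this
  refine ⟨e, fun i j hij => H.diff (he i) hm (hs i) (hs j) (hq i) (hij ▸ hq j), fun i =>
    ⟨he i, (H.midl hx hy hm (he i) (hs i) (hq i) (lt_ray (he i) (hs i))).1⟩⟩

end Pool.Agent.H5.Mink
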