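import Mathlib
import Pool.Agent.H5.Mink1

namespace Pool.Agent.H5.Mink

open RealInnerProductSpace

lemma circ3 (e : Fin 3 → ℂ) (hinj : Function.Injective e) (h1 : ∀ i, ‖e i‖ = 1) (n : ℂ)
    (hn : n ≠ 0) (c : ℝ) (h2 : ∀ i, ⟪e i, n⟫ = c) : False := by
  have hc : ∀ i, (e i).re * n.re + (e i).im * n.im = c := by
    intro i; rw [← h2 i, Complex.inner]; simp; ring
  have hs : ∀ i, (e i).re ^ 2 + (e i).im ^ 2 = 1 := by
    intro i
    have := Complex.sq_norm (e i)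
    rw [h1 i, Complex.normSq_apply] at this
    nlinarith
  have hN : 0 < n.re ^ 2 + n.im ^ 2 := by
    have := Complex.normSq_pos.2 hn
    rw [Complex.normSq_apply] at this
    nlinarith
  set l : Fin 3 → ℝ := fun i => (e i).im * n.re - (e i).re * n.im with hl
  have hl2 : ∀ i, l i ^ 2 = n.re ^ 2 + n.im ^ 2 - c ^ 2 := by
    intro i
    rw [← hc i]
    simp only [hl]
    linear_combination (n.re ^ 2 + n.im ^ 2) * hs i
  have hinj2 : ∀ i j, l i = l j → i = j := by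
    intro i j h
    apply hinj
    simp only [hl] at h
    apply Complex.ext
    · apply mul_left_cancel₀ hN.ne'
      linear_combination n.re * (hc i) - n.re * (hc j) - n.im * h
    · apply mul_left_cancel₀ hN.ne'
      linear_combination n.im * (hc i) - n.im * (hc j) + n.re * h
  rcases sq_eq_sq_iff_eq_or_eq_neg.1 ((hl2 0).trans (hl2 1).symm) with h | h
  · exact absurd (hinj2 _ _ h) (by decide)
  rcases sq_eq_sq_iff_eq_or_eq_neg.1 ((hl2 0).trans (hl2 2).symm) with h' | h'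
  · exact absurd (hinj2 _ _ h') (by decide)
  · exact absurd (hinj2 1 2 (by linarith)) (by decide)

/-- bounded morphisms for both directions -/
structure BM {X Y : Type} (r : X → X → Prop) (r' : Y → Y → Prop) (f : X → Y) : Prop where
  fw : ∀ x y, r x y → r' (f x) (f y)
  up : ∀ x w, r' (f x) w → ∃ y, r x y ∧ f y = w
  dn : ∀ x w, r' w (f x) → ∃ y, r y x ∧ f y = w

lemma BM.flip {X Y : Type} {r : X → X → Prop} {r' : Y → Y → Prop} {f : X → Y} (B : BM r r' f) :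
    BM (flip r) (flip r') f := ⟨fun x y h => B.fw y x h, B.dn, B.up⟩

lemma BM.upi {X Y : Type} {r : X → X → Prop} {r' : Y → Y → Prop} {f : X → Y} (B : BM r r' f)
    (A : Set Y) (x : X) : (∃ w ∈ f ⁻¹' A, r x w) ↔ ∃ w ∈ A, r' (f x) w :=
  ⟨fun ⟨w, h1, h2⟩ => ⟨f w, h1, B.fw _ _ h2⟩, fun ⟨w, h1, h2⟩ => by
    obtain ⟨y, h3, rfl⟩ := B.up x w h2; exact ⟨y, h1, h3⟩⟩

lemma BM.dni {X Y : Type} {r : X → X → Prop} {r' : Y → Y → Prop} {f : X → Y} (B : BM r r' f)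
    (A : Set Y) (x : X) : (∃ w ∈ f ⁻¹' A, r w x) ↔ ∃ w ∈ A, r' w (f x) := B.flip.upi A x

lemma Sys.comap {X Y : Type} {r : X → X → Prop} {r' : Y → Y → Prop} {f : X → Y} (B : BM r r' f)
    {p : Set Y} {q : Fin 3 → Set Y} (H : Sys r' p q) : Sys r (f ⁻¹' p) fun i => f ⁻¹' q i where
  a1 x hx i := (B.upi _ x).2 (H.a1 _ hx i)
  a2 x hx i j hij := fun ⟨z, ⟨h1, h2⟩, h3⟩ =>
    H.a2 _ hx i j hij ⟨f z, ⟨(B.upi _ z).1 h1, (B.upi _ z).1 h2⟩, B.fw _ _ h3⟩
  a3 i w hw := ⟨(B.dni _ w).2 (H.a3 i _ hw).1, (B.upi _ w).2 (H.a3 i _ hw).2⟩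
  a4 z hz hq := by
    obtain ⟨v, ⟨h1, h2⟩, h3⟩ := H.a4 (f z) ((B.dni _ z).1 hz) hq
    obtain ⟨y, h4, rfl⟩ := B.dn z v h3
    exact ⟨y, ⟨(B.dni _ y).2 h1, (B.dni _ y).2 h2⟩, h4⟩

/-- the full system: future and past cones, and every point unrelated to `p` sees a colour -/
structure Full {X : Type} (r : X → X → Prop) (p : Set X) (q t : Fin 3 → Set X) : Prop where
  fut : Sys r p q
  pas : Sys (flip r) p t
  a5 : ∀ z, z ∉ p → (¬ ∃ b ∈ p, r b z) → (¬ ∃ b ∈ p, r z b) → ∃ i, ∃ w ∈ q i, r z w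

lemma Full.comap {X Y : Type} {r : X → X → Prop} {r' : Y → Y → Prop} {f : X → Y} (B : BM r r' f)
    {p : Set Y} {q t : Fin 3 → Set Y} (H : Full r' p q t) :
    Full r (f ⁻¹' p) (fun i => f ⁻¹' q i) fun i => f ⁻¹' t i where
  fut := H.fut.comap B
  pas := H.pas.comap B.flip
  a5 z h1 h2 h3 := by
    obtain ⟨i, hi⟩ := H.a5 (f z) h1 (fun h => h2 ((B.dni _ z).2 h)) (fun h => h3 ((B.upi _ z).2 h))
    exact ⟨i, (B.upi _ z).2 hi⟩

lemma lt_neg {x y : ℝ × ℂ} : lt (-x) (-y) ↔ lt y x := by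
  simp only [lt_iff, le, Prod.fst_neg, Prod.snd_neg, neg_lt_neg_iff, neg_sub_neg]

lemma bm_neg : BM (lt : ℝ × ℂ → ℝ × ℂ → Prop) (flip lt) Neg.neg where
  fw x y h := lt_neg.2 h
  up x w h := ⟨-w, lt_neg.1 (by rw [neg_neg]; exact h), neg_neg w⟩
  dn x w h := ⟨-w, lt_neg.1 (by rw [neg_neg]; exact h), neg_neg w⟩

theorem Full.unique {p : Set (ℝ × ℂ)} {q t : Fin 3 → Set (ℝ × ℂ)} (H : Full lt p q t)
    {x y : ℝ × ℂ} (hx : x ∈ p) (hy : y ∈ p) : x = y := by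
  have h1 : ¬ ∃ b ∈ p, lt (mid x y) b := fun ⟨b, hb, h⟩ => H.fut.not_below hx hy hb h
  have h2 : ¬ ∃ b ∈ p, lt b (mid x y) := by
    rintro ⟨b, hb, h⟩
    have K := H.pas.comap bm_neg
    refine K.not_below (x := -x) (y := -y) (b := -b) (by simpa using hx) (by simpa using hy)
      (by simpa using hb) ?_
    have : mid (-x) (-y) = - mid x y := by
      refine Prod.ext ?_ ?_
      · simp only [mid, Prod.fst_neg]; ring
      · simp only [mid, Prod.snd_neg, ← neg_add, smul_neg]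
    rw [this]; exact lt_neg.2 h
  have h3 : mid x y ∈ p := by
    by_contra h3
    obtain ⟨i, w, hw, h⟩ := H.a5 _ h3 h2 h1
    rcases H.fut.cmp hx hy hw h with h | h | h
    exacts [h3 h, h2 h, h1 h]
  obtain ⟨e, hinj, he⟩ := H.fut.three hx hy h3
  have h4 : ∀ i, ⟪e i, y.2 - x.2⟫ = y.1 - x.1 := by
    intro i
    have := (he i).2
    rw [inner_sub_right]; unfold phi at this; linarith
  by_cases hn : y.2 - x.2 = 0
  · have := h4 0
    rw [hn, inner_zero_right] at this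
    exact Prod.ext (by linarith) (sub_eq_zero.1 hn).symm
  · exact (circ3 e hinj (fun i => (he i).1) _ hn _ h4).elim

/-! the model with a single point -/

noncomputable def col (e : ℂ) : Fin 3 := if 0 < e.im then 0 else if e.im < 0 then 1 else 2

def qq (i : Fin 3) : Set (ℝ × ℂ) := {w | ∃ e : ℂ, ‖e‖ = 1 ∧ col e = i ∧ ∃ s, 0 < s ∧ w = ray 0 e s}

lemma col_surj (i : Fin 3) : ∃ e : ℂ, ‖e‖ = 1 ∧ col e = i := by
  fin_cases i
  · exact ⟨Complex.I, by simp, by simp [col]⟩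
  · exact ⟨-Complex.I, by simp, by simp [col]⟩
  · exact ⟨1, by simp, by simp [col]⟩

lemma small {z : ℝ × ℂ} (h : ‖z.2‖ < z.1) (i : Fin 3) : ∃ a ∈ qq i, lt a z := by
  obtain ⟨e, he, hc⟩ := col_surj i
  have h0 := norm_nonneg z.2
  refine ⟨_, ⟨e, he, hc, (z.1 - ‖z.2‖) / 2, by linarith, rfl⟩, lt_iff.2 ⟨?_, ?_⟩⟩
  · simp only [ray, Prod.fst_zero]; linarith
  · have := norm_sub_le z.2 (((z.1 - ‖z.2‖) / 2 : ℝ) • e)
    rw [norm_smul, he, Real.norm_eq_abs, abs_of_pos (by linarith)] at this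
    simp only [le, ray, Prod.fst_zero, Prod.snd_zero, zero_add]
    linarith

lemma sys0 : Sys lt ({0} : Set (ℝ × ℂ)) qq where
  a1 x hx i := by
    obtain rfl : x = 0 := hx
    obtain ⟨e, he, hc⟩ := col_surj i
    exact ⟨_, ⟨e, he, hc, 1, one_pos, rfl⟩, lt_ray he one_pos⟩
  a2 x hx i j hij := by
    obtain rfl : x = 0 := hx
    rintro ⟨z, ⟨⟨_, ⟨e, he, hc, s, hs, rfl⟩, h1⟩, _, ⟨e', he', hc', s', hs', rfl⟩, h2⟩, h3⟩
    have a1 := interval he h3.2 h1.2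
    have a2 := interval he' h3.2 h2.2
    obtain ⟨rfl, -⟩ := dir_eq (sub_pos.2 (lt_iff.1 h3).1).ne' (a1.symm.trans a2)
    exact hij (hc.symm.trans hc')
  a3 i w hw := by
    obtain ⟨e, he, hc, s, hs, rfl⟩ := hw
    exact ⟨⟨0, rfl, lt_ray he hs⟩, _, ⟨e, he, hc, s + 1, by linarith, rfl⟩, ray_lt he (by linarith)⟩
  a4 z hz hq := by
    obtain ⟨x, hx, h⟩ := hz
    obtain rfl : x = 0 := hx
    have hn : ¬ nul 0 z := fun hn => by
      obtain ⟨e, he, s, hs, rfl⟩ := exists_ray h hn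
      exact hq (col e) ⟨e, he, rfl, s, hs, rfl⟩
    have ht : ‖z.2‖ < z.1 := by
      have := lt_of_le_of_ne h.2 hn
      simpa using this
    have hv : ‖((z.1 - (z.1 - ‖z.2‖) / 2, z.2) : ℝ × ℂ).2‖ <
      ((z.1 - (z.1 - ‖z.2‖) / 2, z.2) : ℝ × ℂ).1 := by simp only; linarith
    refine ⟨_, ⟨small hv 0, small hv 1⟩, lt_iff.2 ⟨by simp only; linarith, ?_⟩⟩
    simp only [le, sub_self, norm_zero]; linarith

lemma full0 : Full lt ({0} : Set (ℝ × ℂ)) qq fun i => Neg.neg ⁻¹' qq i where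
  fut := sys0
  pas := by
    have := sys0.comap (r := flip lt) bm_neg.flip
    simpa using this
  a5 z h1 h2 h3 := by
    have hz : z ≠ 0 := h1
    have a1 : ¬ ‖z.2‖ ≤ z.1 := fun h => h2 ⟨0, rfl, hz.symm, by simpa [le] using h⟩
    have a2 : ¬ ‖z.2‖ ≤ -z.1 := fun h => h3 ⟨0, rfl, hz, by simpa [le] using h⟩
    push Not at a1 a2
    have hp : 0 < ‖z.2‖ := by linarith
    have he : ‖(‖z.2‖⁻¹ : ℝ) • z.2‖ = 1 := by
      rw [norm_smul, Real.norm_eq_abs, abs_of_pos (inv_pos.2 hp), inv_mul_cancel₀ hp.ne']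
    obtain ⟨T, hT⟩ := far (x := 0) (y := z) he (by
      simp only [phi, inner_smul_left, real_inner_self_eq_norm_sq, Prod.fst_zero, Prod.snd_zero,
        inner_zero_right, sub_zero, conj_trivial]
      rw [sq, ← mul_assoc, inv_mul_cancel₀ hp.ne']; linarith)
    exact ⟨_, _, ⟨_, he, rfl, max T 0 + 1, by have := le_max_right T 0; linarith, rfl⟩,
      hT _ (by have := le_max_left T 0; linarith)⟩

end Pool.Agent.H5.Mink
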