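import Mathlib
import Pool.Agent.H5.Mink2

namespace Pool.Agent.H5.Mink

inductive Fm
  | atom : ℕ → Fm
  | neg : Fm → Fm
  | and : Fm → Fm → Fm
  | F : Fm → Fm
  | P : Fm → Fm

def ev {X : Type} (r : X → X → Prop) : Fm → (ℕ → Set X) → Set X
  | .atom k => fun v => v k
  | .neg a => fun v => (ev r a v)ᶜ
  | .and a b => fun v => ev r a v ∩ ev r b v
  | .F a => fun v => {x | ∃ y ∈ ev r a v, r x y}
  | .P a => fun v => {x | ∃ y ∈ ev r a v, r y x}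

def imp (a b : Fm) : Fm := .neg (.and a (.neg b))
def all3 (f : Fin 3 → Fm) : Fm := .and (f 0) (.and (f 1) (f 2))
def top : Fm := imp (.atom 0) (.atom 0)
def ne3 (i j : Fin 3) (a : Fm) : Fm := if i = j then top else a
def som (a : Fm) : Fm := .F (.P a)
def eve (a : Fm) : Fm := .neg (som (.neg a))

def sysF (F P : Fm → Fm) (p : Fm) (q : Fin 3 → Fm) : Fm :=
  .and (imp p (all3 fun i => F (q i)))
  (.and (imp p (all3 fun i => all3 fun j => ne3 i j (.neg (F (.and (F (q i)) (F (q j)))))))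
  (.and (all3 fun i => imp (q i) (.and (P p) (F (q i))))
    (imp (P p) (imp (all3 fun i => .neg (q i)) (P (.and (P (q 0)) (P (q 1))))))))

def fullF : Fm :=
  .and (sysF .F .P (.atom 0) fun i => .atom (i + 1))
  (.and (sysF .P .F (.atom 0) fun i => .atom (i + 4))
    (imp (.neg (.atom 0)) (imp (.neg (.P (.atom 0))) (imp (.neg (.F (.atom 0)))
      (.neg (all3 fun i => .neg (.F (.atom (i + 1)))))))))

def theF : Fm :=
  .and (eve fullF) (.and (som (.and (.atom 0) (.atom 7))) (som (.and (.atom 0) (.neg (.atom 7)))))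

variable {X : Type} {r : X → X → Prop} {v : ℕ → Set X} {x : X}

lemma ev_atom {k : ℕ} : x ∈ ev r (.atom k) v ↔ x ∈ v k := Iff.rfl
lemma ev_neg {a : Fm} : x ∈ ev r (.neg a) v ↔ ¬ x ∈ ev r a v := Iff.rfl
lemma ev_and {a b : Fm} : x ∈ ev r (.and a b) v ↔ x ∈ ev r a v ∧ x ∈ ev r b v := Iff.rfl
lemma ev_F {a : Fm} : x ∈ ev r (.F a) v ↔ ∃ y ∈ ev r a v, r x y := Iff.rfl
lemma ev_P {a : Fm} : x ∈ ev r (.P a) v ↔ ∃ y ∈ ev r a v, r y x := Iff.rfl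
lemma ev_imp {a b : Fm} : x ∈ ev r (imp a b) v ↔ (x ∈ ev r a v → x ∈ ev r b v) := by
  simp only [imp, ev_neg, ev_and]; tauto
lemma ev_all3 {f : Fin 3 → Fm} : x ∈ ev r (all3 f) v ↔ ∀ i, x ∈ ev r (f i) v := by
  simp only [all3, ev_and, Fin.forall_fin_succ, IsEmpty.forall_iff, and_true]
  rfl
lemma ev_ne3 {i j : Fin 3} {a : Fm} : x ∈ ev r (ne3 i j a) v ↔ (i ≠ j → x ∈ ev r a v) := by
  unfold ne3
  split_ifs with h
  · simp [h, top, ev_imp]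
  · simp [h]

lemma ev_som (hd : ∀ x y, ∃ z, r x z ∧ r y z) {a : Fm} :
    x ∈ ev r (som a) v ↔ ∃ y, y ∈ ev r a v := by
  simp only [som, ev_F, ev_P]
  constructor
  · rintro ⟨_, ⟨y, hy, -⟩, -⟩; exact ⟨y, hy⟩
  · rintro ⟨y, hy⟩
    obtain ⟨z, h1, h2⟩ := hd x y
    exact ⟨z, ⟨y, hy, h2⟩, h1⟩

lemma ev_eve (hd : ∀ x y, ∃ z, r x z ∧ r y z) {a : Fm} :
    x ∈ ev r (eve a) v ↔ ∀ y, y ∈ ev r a v := by
  simp only [eve, ev_neg, ev_som hd]; push Not; rfl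

lemma ev_sys (s : X → X → Prop) (F P : Fm → Fm)
    (hF : ∀ a x, x ∈ ev r (F a) v ↔ ∃ y ∈ ev r a v, s x y)
    (hP : ∀ a x, x ∈ ev r (P a) v ↔ ∃ y ∈ ev r a v, s y x) (p : Fm) (q : Fin 3 → Fm) :
    (∀ x, x ∈ ev r (sysF F P p q) v) ↔ Sys s (ev r p v) fun i => ev r (q i) v := by
  simp only [sysF, ev_and, ev_imp, ev_all3, ev_ne3, ev_neg, hF, hP]
  constructor
  · intro h
    exact ⟨fun x => (h x).1, fun x => (h x).2.1, fun i w => (h w).2.2.1 i, fun z => (h z).2.2.2⟩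
  · intro H x
    exact ⟨H.a1 x, H.a2 x, fun i => H.a3 i x, H.a4 x⟩

lemma ev_full : (∀ x, x ∈ ev r fullF v) ↔
    Full r (v 0) (fun i => v (i + 1)) fun i => v (i + 4) := by
  have h1 := ev_sys (r := r) (v := v) r .F .P (fun _ _ => Iff.rfl) (fun _ _ => Iff.rfl) (.atom 0)
    fun i => .atom (i + 1)
  have h2 := ev_sys (r := r) (v := v) (flip r) .P .F (fun _ _ => Iff.rfl) (fun _ _ => Iff.rfl)
    (.atom 0) fun i => .atom (i + 4)
  simp only [fullF, ev_and, forall_and, h1, h2, ev_imp, ev_neg, ev_all3, ev_F, ev_P, ev_atom,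
    not_forall, not_not]
  exact ⟨fun h => ⟨h.1, h.2.1, h.2.2⟩, fun H => ⟨H.fut, H.pas, H.a5⟩⟩

lemma ev_the (hd : ∀ x y, ∃ z, r x z ∧ r y z) : x ∈ ev r theF v ↔
    Full r (v 0) (fun i => v (i + 1)) (fun i => v (i + 4)) ∧ (∃ y, y ∈ v 0 ∧ y ∈ v 7) ∧
      ∃ y, y ∈ v 0 ∧ y ∉ v 7 := by
  simp only [theF, ev_and, ev_eve hd, ev_som hd, ev_full, ev_neg, ev_atom]

def ltn (n : ℕ) (x y : Fin (n + 1) → ℝ) : Prop :=
  x ≠ y ∧ x 0 ≤ y 0 ∧ ∑ i : Fin n, (y i.succ - x i.succ) ^ 2 ≤ (y 0 - x 0) ^ 2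

lemma ltn_dir (n : ℕ) (x y : Fin (n + 1) → ℝ) : ∃ z, ltn n x z ∧ ltn n y z := by
  set S := ∑ i : Fin n, (x i.succ - y i.succ) ^ 2 with hS
  have h0 : 0 ≤ S := Finset.sum_nonneg fun _ _ => sq_nonneg _
  have m1 := le_max_left (x 0) (y 0)
  have m2 := le_max_right (x 0) (y 0)
  refine ⟨Fin.cons (max (x 0) (y 0) + S + 1) fun i => x i.succ, ⟨fun h => ?_, ?_, ?_⟩,
    fun h => ?_, ?_, ?_⟩
  · have := congrFun h 0
    simp only [Fin.cons_zero] at this; linarith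
  · simp only [Fin.cons_zero]; linarith
  · simp only [Fin.cons_zero, Fin.cons_succ, sub_self]
    simpa using sq_nonneg _
  · have := congrFun h 0
    simp only [Fin.cons_zero] at this; linarith
  · simp only [Fin.cons_zero]; linarith
  · simp only [Fin.cons_zero, Fin.cons_succ, ← hS]
    nlinarith

lemma le_c {a b : ℝ × ℂ} : le a b ↔
    a.1 ≤ b.1 ∧ (b.2.re - a.2.re) ^ 2 + (b.2.im - a.2.im) ^ 2 ≤ (b.1 - a.1) ^ 2 := by
  have e : ‖b.2 - a.2‖ ^ 2 = (b.2.re - a.2.re) ^ 2 + (b.2.im - a.2.im) ^ 2 := by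
    rw [Complex.sq_norm, Complex.normSq_apply]; simp only [Complex.sub_re, Complex.sub_im]; ring
  have h0 := norm_nonneg (b.2 - a.2)
  unfold le
  rw [← e]
  constructor
  · intro h; exact ⟨by linarith, by nlinarith⟩
  · rintro ⟨h1, h2⟩
    exact (pow_le_pow_iff_left₀ h0 (by linarith) two_ne_zero).1 h2

def to3 (a : ℝ × ℂ) : Fin 3 → ℝ := ![a.1, a.2.re, a.2.im]

lemma to3_inj : Function.Injective to3 := by
  intro a b h
  exact Prod.ext (congrFun h 0) (Complex.ext (congrFun h 1) (congrFun h 2))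

lemma to3_surj : Function.Surjective to3 := by
  intro x
  refine ⟨(x 0, ⟨x 1, x 2⟩), ?_⟩
  ext i; fin_cases i <;> rfl

lemma lt_to3 {a b : ℝ × ℂ} : lt a b ↔ ltn 2 (to3 a) (to3 b) := by
  simp only [lt, ltn, le_c, to3_inj.ne_iff, Fin.sum_univ_two]
  rfl

lemma bm3 : BM lt (ltn 2) to3 where
  fw _ _ h := lt_to3.1 h
  up x w h := by obtain ⟨y, rfl⟩ := to3_surj w; exact ⟨y, lt_to3.2 h, rfl⟩
  dn x w h := by obtain ⟨y, rfl⟩ := to3_surj w; exact ⟨y, lt_to3.2 h, rfl⟩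

def of4 (x : Fin 4 → ℝ) : ℝ × ℂ := (x 0, ⟨x 1, x 2⟩)

lemma ltn3_iff {x y : Fin 4 → ℝ} : ltn 3 x y ↔ x ≠ y ∧ x 0 ≤ y 0 ∧
    (y 1 - x 1) ^ 2 + (y 2 - x 2) ^ 2 + (y 3 - x 3) ^ 2 ≤ (y 0 - x 0) ^ 2 := by
  simp only [ltn, Fin.sum_univ_three]
  rfl

lemma lift4 {x y : Fin 4 → ℝ} (h3 : x 3 = y 3) (h : lt (of4 x) (of4 y)) : ltn 3 x y := by
  have := le_c.1 h.2
  simp only [of4] at this
  refine ltn3_iff.2 ⟨fun e => h.1 (by rw [e]), this.1, ?_⟩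
  rw [h3]; linarith [this.2]

lemma bm4 : BM (ltn 3) lt of4 where
  fw x y h := by
    obtain ⟨h1, h2, h3⟩ := ltn3_iff.1 h
    refine ⟨fun e => h1 ?_, le_c.2 ⟨h2, ?_⟩⟩
    · have e0 : x 0 = y 0 := congrArg Prod.fst e
      have e1 : x 1 = y 1 := congrArg (fun a => a.2.re) e
      have e2 : x 2 = y 2 := congrArg (fun a => a.2.im) e
      have e3 : x 3 = y 3 := by rw [e0, e1, e2] at h3; nlinarith
      ext i; fin_cases i <;> assumption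
    · simp only [of4]; nlinarith [sq_nonneg (y 3 - x 3)]
  up x w h := ⟨![w.1, w.2.re, w.2.im, x 3], lift4 rfl h, rfl⟩
  dn x w h := ⟨![w.1, w.2.re, w.2.im, x 3], lift4 rfl h, rfl⟩

theorem unsat3 : ¬ ∃ (v : ℕ → Set (Fin 3 → ℝ)) (x : Fin 3 → ℝ), x ∈ ev (ltn 2) theF v := by
  rintro ⟨v, x, h⟩
  obtain ⟨H, ⟨a, ha, ha'⟩, b, hb, hb'⟩ := (ev_the (ltn_dir 2)).1 h
  obtain ⟨a, rfl⟩ := to3_surj a
  obtain ⟨b, rfl⟩ := to3_surj b
  obtain rfl := (H.comap bm3).unique ha hb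
  exact hb' ha'

def val4 : ℕ → Set (Fin 4 → ℝ) := fun k =>
  if k = 0 then of4 ⁻¹' {0} else if h : k - 1 < 3 then of4 ⁻¹' qq ⟨k - 1, h⟩
  else if h : k - 4 < 3 then of4 ⁻¹' (Neg.neg ⁻¹' qq ⟨k - 4, h⟩) else {x | x 3 = 0}

theorem sat4 : ∃ (v : ℕ → Set (Fin 4 → ℝ)) (x : Fin 4 → ℝ), x ∈ ev (ltn 3) theF v := by
  refine ⟨val4, 0, (ev_the (ltn_dir 3)).2 ⟨?_, ⟨0, ?_, ?_⟩, ![0, 0, 0, 1], ?_, ?_⟩⟩
  · have H := full0.comap bm4
    have e1 : (fun i : Fin 3 => val4 (i + 1)) = fun i => of4 ⁻¹' qq i := by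
      funext i; fin_cases i <;> rfl
    have e2 : (fun i : Fin 3 => val4 (i + 4)) = fun i => of4 ⁻¹' (Neg.neg ⁻¹' qq i) := by
      funext i; fin_cases i <;> rfl
    rw [e1, e2]; exact H
  · exact (rfl : of4 0 = 0)
  · exact (rfl : (0 : Fin 4 → ℝ) 3 = 0)
  · exact (rfl : of4 ![0, 0, 0, 1] = 0)
  · exact (one_ne_zero : (1 : ℝ) ≠ 0)

end Pool.Agent.H5.Mink
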