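import Pool.Agent.H5.MinusDomDefs

set_option autoImplicit false

namespace Pool.Agent.H5.MinusDom

variable {V : Type} [Fintype V] [DecidableEq V] (G : SimpleGraph V) [DecidableRel G.Adj]

theorem minimal_of_tight (f : V → ℤ) (h : IsMinus G f)
    (ht : ∀ v, f v = -1 ∨ ∃ u, v ∈ insert u (G.neighborFinset u) ∧ nsum G f u = 1) :
    IsMinimalMinus G f := by
  refine ⟨h, ?_⟩
  rintro ⟨g, hne, hg, hle⟩
  obtain ⟨v, hv⟩ := Function.ne_iff.1 hne
  have hlt : g v < f v := lt_of_le_of_ne (hle v) hv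
  rcases ht v with h1 | ⟨u, hu, h1⟩
  · rcases hg.1 v with h2 | h2 | h2 <;> omega
  · have := Finset.sum_lt_sum (s := insert u (G.neighborFinset u)) (fun i _ => hle i) ⟨v, hu, hlt⟩
    have h2 := hg.2 u
    unfold nsum at h1 h2
    omega

theorem gammaS_le (f : V → ℤ) (h : IsSigned G f) : gammaS G ≤ ∑ v, f v := by
  refine csInf_le ⟨∑ _v : V, (-1 : ℤ), ?_⟩ ⟨f, h, rfl⟩
  rintro _ ⟨g, hg, rfl⟩
  exact Finset.sum_le_sum fun v _ => by rcases hg.1 v with h | h <;> omega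

theorem le_upperMinus (f : V → ℤ) (h : IsMinimalMinus G f) : ∑ v, f v ≤ upperMinus G := by
  refine le_csSup ⟨∑ _v : V, (1 : ℤ), ?_⟩ ⟨f, h, rfl⟩
  rintro _ ⟨g, hg, rfl⟩
  exact Finset.sum_le_sum fun v _ => by rcases hg.1.1 v with h | h | h <;> omega

end Pool.Agent.H5.MinusDom
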