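import Mathlib

set_option autoImplicit false

namespace Pool.Agent.H5.MinusDom

variable {V : Type} [Fintype V] [DecidableEq V] (G : SimpleGraph V) [DecidableRel G.Adj]

/-- `f(N[v])`, the sum of `f` over the closed neighbourhood of `v` -/
def nsum (f : V → ℤ) (v : V) : ℤ := ∑ u ∈ insert v (G.neighborFinset v), f u

def IsSigned (f : V → ℤ) : Prop := (∀ v, f v = -1 ∨ f v = 1) ∧ ∀ v, 1 ≤ nsum G f v

def IsMinus (f : V → ℤ) : Prop := (∀ v, f v = -1 ∨ f v = 0 ∨ f v = 1) ∧ ∀ v, 1 ≤ nsum G f v

def IsMinimalSigned (f : V → ℤ) : Prop :=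
  IsSigned G f ∧ ¬ ∃ g, g ≠ f ∧ IsSigned G g ∧ ∀ u, g u ≤ f u

def IsMinimalMinus (f : V → ℤ) : Prop :=
  IsMinus G f ∧ ¬ ∃ g, g ≠ f ∧ IsMinus G g ∧ ∀ u, g u ≤ f u

/-- signed domination number: least weight of a signed dominating function -/
noncomputable def gammaS : ℤ := sInf {w | ∃ f, IsSigned G f ∧ w = ∑ v, f v}

/-- upper signed domination number: largest weight of a minimal signed dominating function -/
noncomputable def upperS : ℤ := sSup {w | ∃ f, IsMinimalSigned G f ∧ w = ∑ v, f v}

/-- upper minus domination number: largest weight of a minimal minus dominating function -/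
noncomputable def upperMinus : ℤ := sSup {w | ∃ f, IsMinimalMinus G f ∧ w = ∑ v, f v}

end Pool.Agent.H5.MinusDom
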