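import Mathlib

namespace Pool.Agent.H5.Nsis
open Finset Classical

variable {W : Type} [Fintype W] (G : SimpleGraph W)

/-- closed neighbourhood -/
noncomputable def cl (C : Finset W) : Finset W := univ.filter fun x => x ∈ C ∨ ∃ c ∈ C, G.Adj c x

noncomputable def dead (C : Finset W) : Finset W :=
  univ.filter fun x => x ∈ cl G C ∧ x ∉ C ∧ ∀ y, G.Adj x y → y ∈ cl G C

def Rch (C : Set W) (r x : W) : Prop := Relation.ReflTransGen (fun a b => G.Adj a b ∧ b ∈ C) r x

variable {G}

lemma mem_cl {C : Finset W} {x : W} : x ∈ cl G C ↔ x ∈ C ∨ ∃ c ∈ C, G.Adj c x := by simp [cl]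

lemma mem_dead {C : Finset W} {x : W} :
    x ∈ dead G C ↔ x ∈ cl G C ∧ x ∉ C ∧ ∀ y, G.Adj x y → y ∈ cl G C := by simp [dead]

lemma cl_mono {C C' : Finset W} (h : C ⊆ C') : cl G C ⊆ cl G C' := by
  intro x hx
  rw [mem_cl] at hx ⊢
  rcases hx with hx | ⟨c, hc, hx⟩
  · exact Or.inl (h hx)
  · exact Or.inr ⟨c, h hc, hx⟩

omit [Fintype W] in
lemma Rch.mono {C C' : Set W} (h : C ⊆ C') {r x : W} (hx : Rch G C r x) : Rch G C' r x := by
  induction hx with
  | refl => exact Relation.ReflTransGen.refl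
  | tail _ hab ih => exact Relation.ReflTransGen.tail ih ⟨hab.1, h hab.2⟩

lemma dead_sub {C C' : Finset W} (h : C ⊆ C')
    (h2 : ∀ x ∈ C', x ∉ C → x ∉ dead G C) : dead G C ⊆ dead G C' := by
  intro x hx
  have hx' := mem_dead.1 hx
  exact mem_dead.2 ⟨cl_mono h hx'.1, fun hc => h2 x hc hx'.2.1 hx,
    fun y hy => cl_mono h (hx'.2.2 y hy)⟩

def Good (G : SimpleGraph W) (r : W) (C : Finset W) : Prop :=
  r ∈ C ∧ (∀ c ∈ C, Rch G C r c) ∧ 2 * C.card ≤ (cl G C).card + 2 * (dead G C).card

lemma rch_insert {r v : W} {C : Finset W} (h : ∀ c ∈ C, Rch G C r c) (hv : v ∈ cl G C) :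
    ∀ c ∈ insert v C, Rch G (insert v C : Finset W) r c := by
  have hs : (C : Set W) ⊆ (insert v C : Finset W) := by
    intro x hx; simp only [coe_insert, Set.mem_insert_iff]; exact Or.inr hx
  intro c hc
  rcases mem_insert.1 hc with rfl | hc
  · rcases mem_cl.1 hv with hv | ⟨c', hc', hadj⟩
    · exact (h _ hv).mono hs
    · exact Relation.ReflTransGen.tail ((h _ hc').mono hs) ⟨hadj, by simp⟩
  · exact (h _ hc).mono hs

lemma card_add_two {A B : Finset W} (h : A ⊆ B) {a b : W} (hab : a ≠ b) (ha : a ∉ A) (hb : b ∉ A)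
    (ha' : a ∈ B) (hb' : b ∈ B) : A.card + 2 ≤ B.card := by
  have : insert a (insert b A) ⊆ B := by
    intro x hx
    simp only [mem_insert] at hx
    rcases hx with rfl | rfl | hx
    · exact ha'
    · exact hb'
    · exact h hx
  have h2 := card_le_card this
  rw [card_insert_of_notMem (by simp [hab, ha]), card_insert_of_notMem hb] at h2
  omega

lemma card_add_one {A B : Finset W} (h : A ⊆ B) {a : W} (ha : a ∉ A)
    (ha' : a ∈ B) : A.card + 1 ≤ B.card := by
  have : insert a A ⊆ B := by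
    intro x hx
    simp only [mem_insert] at hx
    rcases hx with rfl | hx
    · exact ha'
    · exact h hx
  have h2 := card_le_card this
  rwa [card_insert_of_notMem ha] at h2

lemma step (hQ : ∀ v w, G.Adj v w → ∃ x y, G.Adj w x ∧ G.Adj x y ∧ G.Adj y v ∧ x ≠ v ∧ y ≠ w)
    {r : W} {C : Finset W} (hC : Good G r C) {v w : W} (hv : v ∈ cl G C) (hw : w ∉ cl G C)
    (hvw : G.Adj v w) : ∃ C', Good G r C' ∧ C.card < C'.card := by
  obtain ⟨hr, hrch, hcard⟩ := hC
  have notC : ∀ {a b}, b ∉ cl G C → G.Adj a b → a ∉ C := fun hb hab ha =>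
    hb (mem_cl.2 (Or.inr ⟨_, ha, hab⟩))
  have notD : ∀ {a b}, b ∉ cl G C → G.Adj a b → a ∉ dead G C := fun hb hab ha =>
    hb ((mem_dead.1 ha).2.2 _ hab)
  by_cases h2 : ∃ v w1 w2, v ∈ cl G C ∧ w1 ∉ cl G C ∧ w2 ∉ cl G C ∧ G.Adj v w1 ∧ G.Adj v w2 ∧ w1 ≠ w2
  · obtain ⟨v, w1, w2, hv, h1, h2, a1, a2, hne⟩ := h2
    have hvC := notC h1 a1
    refine ⟨insert v C, ⟨mem_insert_of_mem hr, rch_insert hrch hv, ?_⟩, by
      rw [card_insert_of_notMem hvC]; omega⟩
    have e1 := card_add_two (cl_mono (G := G) (subset_insert v C)) hne h1 h2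
      (mem_cl.2 (Or.inr ⟨v, mem_insert_self _ _, a1⟩)) (mem_cl.2 (Or.inr ⟨v, mem_insert_self _ _, a2⟩))
    have e2 := card_le_card (dead_sub (G := G) (subset_insert v C) (by
      intro x hx hxC
      rcases mem_insert.1 hx with rfl | hx
      · exact notD h1 a1
      · exact absurd hx hxC))
    rw [card_insert_of_notMem hvC]; omega
  · push Not at h2
    obtain ⟨x, y, hwx, hxy, hyv, hxv, hyw⟩ := hQ v w hvw
    have hy : y ∈ cl G C := by
      by_contra hy
      exact hyw (h2 v y w hv hy hw hyv.symm hvw)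
    have hvC := notC hw hvw
    have hxC := notC hw hwx.symm
    have hwcl : w ∈ cl G (insert v C) := mem_cl.2 (Or.inr ⟨v, mem_insert_self _ _, hvw⟩)
    by_cases hx : x ∈ cl G C
    · refine ⟨insert v C, ⟨mem_insert_of_mem hr, rch_insert hrch hv, ?_⟩, by
        rw [card_insert_of_notMem hvC]; omega⟩
      have e1 := card_le_card (cl_mono (G := G) (subset_insert v C))
      have e2 := card_add_one (dead_sub (G := G) (subset_insert v C) (by
        intro x hx hxC
        rcases mem_insert.1 hx with rfl | hx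
        · exact notD hw hvw
        · exact absurd hx hxC)) (notD hw hwx.symm) (mem_dead.2 ⟨cl_mono (subset_insert v C) hx,
          by simp [hxv, hxC], fun z hz => by
            by_cases hz' : z ∈ cl G C
            · exact cl_mono (subset_insert v C) hz'
            · rw [h2 x z w hx hz' hw hz hwx.symm]; exact hwcl⟩)
      rw [card_insert_of_notMem hvC]; omega
    · have hyC := notC hx hxy.symm
      have hwC : w ∉ insert v C := by
        simp only [mem_insert, not_or]
        exact ⟨hvw.ne', fun h => hw (mem_cl.2 (Or.inl h))⟩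
      have hsub : C ⊆ insert w (insert v C) := (subset_insert v C).trans (subset_insert _ _)
      have hxcl : x ∈ cl G (insert w (insert v C)) :=
        mem_cl.2 (Or.inr ⟨w, mem_insert_self _ _, hwx⟩)
      refine ⟨insert w (insert v C), ⟨hsub hr, rch_insert (rch_insert hrch hv) hwcl, ?_⟩, by
        rw [card_insert_of_notMem hwC, card_insert_of_notMem hvC]; omega⟩
      have e1 := card_add_two (cl_mono (G := G) hsub) hwx.ne hw hx
        (mem_cl.2 (Or.inl (mem_insert_self _ _))) hxcl
      have e2 := card_add_one (dead_sub (G := G) hsub (by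
        intro z hz hzC
        simp only [mem_insert] at hz
        rcases hz with rfl | rfl | hz
        · exact fun hd => hw (mem_dead.1 hd).1
        · exact notD hw hvw
        · exact absurd hz hzC)) (notD hx hxy.symm) (mem_dead.2 ⟨cl_mono hsub hy,
          by simp [hyw, hyv.ne, hyC], fun z hz => by
            by_cases hz' : z ∈ cl G C
            · exact cl_mono hsub hz'
            · rw [h2 y z x hy hz' hx hz hxy.symm]; exact hxcl⟩)
      rw [card_insert_of_notMem hwC, card_insert_of_notMem hvC]; omega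

lemma exists_cds (hG : G.Connected) (r r' : W) (hrr : G.Adj r r')
    (hQ : ∀ v w, G.Adj v w → ∃ x y, G.Adj w x ∧ G.Adj x y ∧ G.Adj y v ∧ x ≠ v ∧ y ≠ w) :
    ∃ C : Finset W, r ∈ C ∧ (∀ c ∈ C, Rch G C r c) ∧ cl G C = univ ∧
      4 * C.card ≤ 3 * Fintype.card W := by
  have h0 : Good G r {r} := by
    refine ⟨mem_singleton_self _, fun c hc => ?_, ?_⟩
    · rw [mem_singleton.1 hc]; exact Relation.ReflTransGen.refl
    · have := card_add_two (empty_subset (cl G {r})) hrr.ne (notMem_empty _) (notMem_empty _)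
        (mem_cl.2 (Or.inl (mem_singleton_self _))) (mem_cl.2 (Or.inr ⟨r, mem_singleton_self _, hrr⟩))
      simp only [card_empty, card_singleton] at this ⊢
      omega
  obtain ⟨C, hC, hmax⟩ := exists_max_image (univ.filter (Good G r)) card ⟨{r}, by simpa using h0⟩
  have hC : Good G r C := by simpa using hC
  have hcl : cl G C = univ := by
    by_contra hne
    obtain ⟨z, hz⟩ : ∃ z, z ∉ cl G C := by
      by_contra h; push Not at h; exact hne (eq_univ_of_forall h)
    obtain ⟨p⟩ := hG.preconnected r z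
    obtain ⟨d, -, h1, h2⟩ := p.exists_boundary_dart (cl G C : Set W)
      (by simpa using mem_cl.2 (Or.inl hC.1)) (by simpa using hz)
    obtain ⟨C', hC', hlt⟩ := step hQ hC (by simpa using h1) (by simpa using h2) d.adj
    have := hmax C' (by simpa using hC')
    omega
  refine ⟨C, hC.1, hC.2.1, hcl, ?_⟩
  have h1 := hC.2.2
  rw [hcl, card_univ] at h1
  have h2 : dead G C ⊆ univ \ C := fun x hx => by simp [(mem_dead.1 hx).2.1]
  have h3 := card_le_card h2
  rw [card_univ_diff] at h3
  have := card_le_univ C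
  omega

omit [Fintype W] in
lemma induce_conn {T : Set W} {r : W} (hr : r ∈ T) (h : ∀ x ∈ T, Rch G T r x) :
    (G.induce T).Connected := by
  have key : ∀ x, Rch G T r x → ∀ hx : x ∈ T, (G.induce T).Reachable ⟨r, hr⟩ ⟨x, hx⟩ := by
    intro x hx
    have : ∀ x, Rch G T r x → ∃ hx : x ∈ T, (G.induce T).Reachable ⟨r, hr⟩ ⟨x, hx⟩ := by
      intro x hx
      induction hx with
      | refl => exact ⟨hr, SimpleGraph.Reachable.refl _⟩
      | tail _ hab ih =>
        obtain ⟨hb, ih⟩ := ih
        exact ⟨hab.2, ih.trans (SimpleGraph.Adj.reachable (by simpa using hab.1))⟩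
    intro hx'
    exact (this x hx).2
  haveI : Nonempty T := ⟨⟨r, hr⟩⟩
  exact ⟨fun a b => (key a.1 (h _ a.2) a.2).symm.trans (key b.1 (h _ b.2) b.2)⟩

lemma nonsep {C S : Finset W} {r : W} (hr : r ∈ C) (h : ∀ c ∈ C, Rch G C r c)
    (hcl : cl G C = univ) (hS : ∀ s ∈ S, s ∉ C) : (G.induce (S : Set W)ᶜ).Connected := by
  have hs : (C : Set W) ⊆ (S : Set W)ᶜ := fun x hx hx' => hS x hx' hx
  refine induce_conn (hs hr) fun x hx => ?_
  have : x ∈ cl G C := by rw [hcl]; exact mem_univ _
  rcases mem_cl.1 this with hc | ⟨c, hc, hadj⟩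
  · exact (h _ hc).mono hs
  · exact Relation.ReflTransGen.tail ((h _ hc).mono hs) ⟨hadj, hx⟩

lemma greedy (T : Finset W) (d : ℕ) (hd : ∀ t ∈ T, (univ.filter (G.Adj t)).card ≤ d) :
    ∃ S ⊆ T, G.IsIndepSet (S : Set W) ∧ T.card ≤ S.card * (d + 1) := by
  obtain ⟨S, hS, hmax⟩ := exists_max_image
    (T.powerset.filter fun S : Finset W => G.IsIndepSet (S : Set W)) card
    ⟨∅, by simp [SimpleGraph.IsIndepSet]⟩
  simp only [mem_filter, mem_powerset] at hS hmax
  refine ⟨S, hS.1, hS.2, ?_⟩
  have hcov : T ⊆ S.biUnion fun s => insert s (univ.filter (G.Adj s)) := by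
    intro t ht
    by_contra hn
    simp only [mem_biUnion, mem_insert, mem_filter, mem_univ, true_and, not_exists, not_and,
      not_or] at hn
    have htS : t ∉ S := fun h => (hn t h).1 rfl
    have := hmax (insert t S) ⟨insert_subset ht hS.1, by
      rw [coe_insert]
      intro a ha b hb hab
      rcases ha with rfl | ha <;> rcases hb with rfl | hb
      · exact absurd rfl hab
      · exact fun h => (hn b hb).2 h.symm
      · exact (hn a ha).2
      · exact hS.2 ha hb hab⟩
    rw [card_insert_of_notMem htS] at this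
    omega
  refine (card_le_card hcov).trans (card_biUnion_le_card_mul _ _ _ fun s hs => ?_)
  exact (card_insert_le _ _).trans (by have := hd s (hS.1 hs); omega)

end Pool.Agent.H5.Nsis
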