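import Mathlib

namespace Pool.Agent.H5.Nsis

/-- The half-edges (darts) of a four-valent graph with `n` crossings: four at each crossing, in
cyclic order. -/
abbrev Dart (n : ℕ) := Fin n × ZMod 4

/-- The projection `G(D)` of a diagram with `n` crossings as a combinatorial map: a fixed point
free involution `opp` pairs the two half-edges of each edge (loops and multiple edges allowed). -/
structure Diagram (n : ℕ) where
  opp : Equiv.Perm (Dart n)
  opp_opp : ∀ x, opp (opp x) = x
  opp_ne : ∀ x, opp x ≠ x

/-- The rotation: the next half-edge around the same crossing. -/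
def rot (n : ℕ) : Equiv.Perm (Dart n) := Equiv.prodCongr (Equiv.refl _) (Equiv.addRight 1)

variable {n : ℕ}

/-- The regions (faces): the cycles of the face permutation `rot ∘ opp`. -/
def Diagram.Region (D : Diagram n) : Type :=
  Quotient (Equiv.Perm.SameCycle.setoid (rot n * D.opp))

/-- The region on the chosen side of a half-edge; the other side of the same edge is
`D.reg (D.opp x)`. -/
def Diagram.reg (D : Diagram n) (x : Dart n) : D.Region := Quotient.mk _ x

/-- Non-split: `G(D)` is connected. -/
def Diagram.NonSplit (D : Diagram n) : Prop :=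
  (SimpleGraph.fromRel fun u v : Fin n => ∃ x : Dart n, x.1 = u ∧ (D.opp x).1 = v).Connected

/-- The connected map lies on the sphere: Euler's formula `n - 2n + F = 2`. -/
def Diagram.Planar (D : Diagram n) : Prop := Nat.card D.Region = n + 2

/-- `v` is a cut vertex of the multigraph `G(D)`: the edges split into two nonempty classes that
share no crossing other than `v`. -/
def Diagram.IsCutVertex (D : Diagram n) (v : Fin n) : Prop :=
  ∃ A : Set (Dart n), A.Nonempty ∧ Aᶜ.Nonempty ∧ (∀ x ∈ A, D.opp x ∈ A) ∧
    ∀ x y : Dart n, x.1 = y.1 → x.1 ≠ v → x ∈ A → y ∈ A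

/-- Reduced: no crossing is a cut vertex. -/
def Diagram.Reduced (D : Diagram n) : Prop := ∀ v, ¬ D.IsCutVertex v

/-- The dual graph: two regions are adjacent when they lie on the two sides of an edge. -/
def Diagram.dual (D : Diagram n) : SimpleGraph D.Region :=
  SimpleGraph.fromRel fun p q => ∃ x : Dart n, p = D.reg x ∧ q = D.reg (D.opp x)

end Pool.Agent.H5.Nsis
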