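import Mathlib
import Pool.Agent.H5.NsisDefs

namespace Pool.Agent.H5.Nsis
open Finset Classical

variable {n : ℕ} (D : Diagram n)

@[simp] lemma rot_apply (x : Dart n) : rot n x = (x.1, x.2 + 1) := rfl

noncomputable instance : Fintype D.Region := by
  unfold Diagram.Region; exact Fintype.ofFinite _

lemma reg_face (x : Dart n) : D.reg (rot n (D.opp x)) = D.reg x := by
  apply Quotient.sound
  change Equiv.Perm.SameCycle (rot n * D.opp) ((rot n * D.opp) x) x
  simp only [Equiv.Perm.sameCycle_apply_left]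
  exact Equiv.Perm.SameCycle.refl _ _

lemma reg_rot (x : Dart n) : D.reg (rot n x) = D.reg (D.opp x) := by
  have := reg_face D (D.opp x)
  rwa [D.opp_opp] at this

/-- a property of darts invariant under `opp` and `rot` is constant -/
lemma const_of_inv (hN : D.NonSplit) {β : Type} (f : Dart n → β) (h1 : ∀ x, f (D.opp x) = f x)
    (h2 : ∀ x, f (rot n x) = f x) (x y : Dart n) : f x = f y := by
  have hv : ∀ (u : Fin n) (i : ZMod 4), f (u, i) = f (u, 0) := by
    intro u i
    have a1 := h2 (u, 0)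
    have a2 := h2 (u, 1)
    have a3 := h2 (u, 2)
    simp only [rot_apply] at a1 a2 a3
    have : i = 0 ∨ i = 0 + 1 ∨ i = 1 + 1 ∨ i = 2 + 1 := by revert i; decide
    have e1 : (0 + 1 : ZMod 4) = 1 := by decide
    have e2 : (1 + 1 : ZMod 4) = 2 := by decide
    rcases this with rfl | rfl | rfl | rfl
    · rfl
    · exact a1
    · rw [a2, ← e1, a1]
    · rw [a3, ← e2, a2, ← e1, a1]
  have hr : ∀ u v : Fin n, (SimpleGraph.fromRel fun u v : Fin n =>
      ∃ x : Dart n, x.1 = u ∧ (D.opp x).1 = v).Reachable u v → f (u, 0) = f (v, 0) := by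
    intro u v ⟨p⟩
    induction p with
    | nil => rfl
    | cons hadj _ ih =>
      rw [← ih]
      rw [SimpleGraph.fromRel_adj] at hadj
      rcases hadj.2 with ⟨x, rfl, rfl⟩ | ⟨x, rfl, rfl⟩
      · rw [← hv x.1 x.2, ← hv (D.opp x).1 (D.opp x).2]; exact (h1 x).symm
      · rw [← hv x.1 x.2, ← hv (D.opp x).1 (D.opp x).2]; exact h1 x
  rw [show f x = f (x.1, 0) from hv x.1 x.2, show f y = f (y.1, 0) from hv y.1 y.2]
  exact hr _ _ (hN.preconnected _ _)

def d0 : (Fin n → ℝ) →ₗ[ℝ] (Dart n → ℝ) where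
  toFun g x := g x.1 - g (D.opp x).1
  map_add' g g' := by ext x; simp; ring
  map_smul' c g := by ext x; simp; ring

def d2 : (D.Region → ℝ) →ₗ[ℝ] (Dart n → ℝ) where
  toFun h x := h (D.reg x) - h (D.reg (D.opp x))
  map_add' g g' := by ext x; simp; ring
  map_smul' c g := by ext x; simp; ring

lemma d0_apply (g : Fin n → ℝ) (x : Dart n) : d0 D g x = g x.1 - g (D.opp x).1 := rfl
lemma d2_apply (h : D.Region → ℝ) (x : Dart n) :
    d2 D h x = h (D.reg x) - h (D.reg (D.opp x)) := rfl

lemma sum_opp (f : Dart n → ℝ) : ∑ x, f (D.opp x) = ∑ x, f x := Equiv.sum_comp D.opp f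

lemma pair_d0 (g : Fin n → ℝ) (h : D.Region → ℝ) : ∑ x, d0 D g x * h (D.reg x) = 0 := by
  have e1 : ∑ x, g (D.opp x).1 * h (D.reg x) = ∑ x : Dart n, g x.1 * h (D.reg (D.opp x)) := by
    rw [← sum_opp D (fun x => g x.1 * h (D.reg (D.opp x)))]
    simp only [D.opp_opp]
  have e2 : ∑ x : Dart n, g x.1 * h (D.reg (D.opp x)) = ∑ x : Dart n, g x.1 * h (D.reg x) := by
    rw [← Equiv.sum_comp (rot n) (fun x => g x.1 * h (D.reg x))]
    refine sum_congr rfl fun x _ => ?_
    rw [reg_rot]; rfl
  simp only [d0_apply, sub_mul, sum_sub_distrib]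
  rw [e1, e2, sub_self]

lemma d2_zero (h : D.Region → ℝ) (H : ∑ x, d2 D h x * h (D.reg x) = 0) : d2 D h = 0 := by
  have e : ∑ x, d2 D h x * h (D.reg (D.opp x)) = 0 := by
    rw [← sum_opp D (fun x => d2 D h x * h (D.reg (D.opp x)))]
    simp only [D.opp_opp, d2_apply] at H ⊢
    rw [← neg_eq_zero, ← sum_neg_distrib, ← H]
    exact sum_congr rfl fun x _ => by ring
  have e2 : ∑ x, d2 D h x ^ 2 = 0 := by
    rw [← sub_eq_zero.2 (H.trans e.symm), ← sum_sub_distrib]
    exact sum_congr rfl fun x _ => by rw [← mul_sub, ← d2_apply, sq]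
  ext x
  have := (sum_eq_zero_iff_of_nonneg (fun x _ => sq_nonneg (d2 D h x))).1 e2 x (mem_univ _)
  simpa using this

def anti : Submodule ℝ (Dart n → ℝ) where
  carrier := {f | ∀ x, f (D.opp x) = - f x}
  add_mem' := fun {a b} ha hb x => by simp [ha x, hb x]; ring
  zero_mem' := fun x => by simp
  smul_mem' := fun c f hf x => by simp [hf x]

lemma finrank_anti : Module.finrank ℝ (anti D) ≤ 2 * n := by
  let enc : Dart n ≃ Fin (Fintype.card (Dart n)) := Fintype.equivFin _
  let R : Finset (Dart n) := univ.filter fun x => enc x < enc (D.opp x)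
  have hR : ∀ x, x ∉ R ↔ D.opp x ∈ R := by
    intro x
    have : enc (D.opp x) ≠ enc x := fun h => D.opp_ne x (enc.injective h)
    simp only [R, mem_filter, mem_univ, true_and, D.opp_opp, not_lt]
    exact ⟨fun h => lt_of_le_of_ne h this, le_of_lt⟩
  have hc : R.card = Rᶜ.card := by
    refine card_bij (fun x _ => D.opp x) (fun x hx => ?_) (fun a _ b _ h => D.opp.injective h)
      (fun y hy => ⟨D.opp y, (hR y).1 (mem_compl.1 hy), D.opp_opp y⟩)
    rw [mem_compl, hR, D.opp_opp]; exact hx
  have hc2 : R.card = 2 * n := by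
    have := card_add_card_compl R
    simp only [Fintype.card_prod, Fintype.card_fin, ZMod.card] at this
    omega
  let L : anti D →ₗ[ℝ] (R → ℝ) :=
    { toFun := fun f x => f.1 x.1, map_add' := fun _ _ => rfl, map_smul' := fun _ _ => rfl }
  have hL : Function.Injective L := by
    rw [injective_iff_map_eq_zero]
    intro f hf
    ext x
    by_cases hx : x ∈ R
    · exact congrFun hf ⟨x, hx⟩
    · have h1 : f.1 (D.opp x) = 0 := congrFun hf ⟨_, (hR x).1 hx⟩
      have h2 := f.2 x
      simp only [ZeroMemClass.coe_zero, Pi.zero_apply]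
      linarith
  have := LinearMap.finrank_le_finrank_of_injective hL
  simpa [hc2] using this

lemma exists_potential (hN : D.NonSplit) (hP : D.Planar) (f : Dart n → ℝ) (hf : f ∈ anti D)
    (ho : ∀ h : D.Region → ℝ, ∑ x, f x * h (D.reg x) = 0) : ∃ g, d0 D g = f := by
  obtain ⟨v0⟩ := hN.nonempty
  let Φ := (d0 D).coprod (d2 D)
  have hle : LinearMap.range Φ ≤ anti D := by
    rintro _ ⟨⟨g, h⟩, rfl⟩ x
    simp only [Φ, LinearMap.coprod_apply, Pi.add_apply, d0_apply, d2_apply, D.opp_opp]
    ring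
  let K : LinearMap.ker Φ →ₗ[ℝ] ℝ × ℝ :=
    { toFun := fun p => (p.1.1 v0, p.1.2 (D.reg (v0, 0))), map_add' := fun _ _ => rfl,
      map_smul' := fun _ _ => rfl }
  have hK : Function.Injective K := by
    rw [injective_iff_map_eq_zero]
    rintro ⟨⟨g, h⟩, hp⟩ h0
    have hp' : d0 D g + d2 D h = 0 := hp
    have h2 : d2 D h = 0 := by
      apply d2_zero
      have := pair_d0 D g h
      rw [eq_neg_of_add_eq_zero_right hp']
      simp only [Pi.neg_apply, neg_mul, sum_neg_distrib, this, neg_zero]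
    have h1 : d0 D g = 0 := by rw [h2, add_zero] at hp'; exact hp'
    have hg0 : g v0 = 0 := congrArg Prod.fst h0
    have hh0 : h (D.reg (v0, 0)) = 0 := congrArg Prod.snd h0
    have hg := const_of_inv D hN (fun x => g x.1)
      (fun x => by have := congrFun h1 x; rw [d0_apply] at this; simp at this; linarith)
      (fun x => rfl)
    have hop : ∀ x, h (D.reg (D.opp x)) = h (D.reg x) := fun x => by
      have := congrFun h2 x; rw [d2_apply] at this; simp at this; linarith
    have hh := const_of_inv D hN (fun x => h (D.reg x)) hop (fun x => by rw [reg_rot, hop])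
    refine Subtype.ext (Prod.ext ?_ ?_)
    · ext v; exact (hg (v, 0) (v0, 0)).trans hg0
    · ext q
      obtain ⟨x, rfl⟩ := Quotient.exists_rep q
      exact (hh x (v0, 0)).trans hh0
  have k1 := LinearMap.finrank_le_finrank_of_injective hK
  have k2 := LinearMap.finrank_range_add_finrank_ker Φ
  have hP' : Fintype.card D.Region = n + 2 := by rw [← Nat.card_eq_fintype_card]; exact hP
  simp only [Module.finrank_prod, Module.finrank_self, Module.finrank_fintype_fun_eq_card,
    Fintype.card_fin, hP'] at k1 k2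
  have k3 := finrank_anti D
  have heq : LinearMap.range Φ = anti D :=
    Submodule.eq_of_le_of_finrank_le hle (by omega)
  rw [← heq] at hf
  obtain ⟨⟨g, h⟩, hgh⟩ := hf
  have hgh' : d0 D g + d2 D h = f := hgh
  have h2 : d2 D h = 0 := by
    apply d2_zero
    have e1 := pair_d0 D g h
    have e2 := ho h
    rw [← hgh'] at e2
    simp only [Pi.add_apply, add_mul, sum_add_distrib] at e2
    linarith
  exact ⟨g, by rw [h2, add_zero] at hgh'; exact hgh'⟩

/-- elementary antisymmetric function of a dart -/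
noncomputable def el (a : Dart n) : Dart n → ℝ :=
  fun x => (if x = a then 1 else 0) - (if x = D.opp a then 1 else 0)

lemma opp_eq_iff {x a : Dart n} : D.opp x = a ↔ x = D.opp a :=
  ⟨fun h => by rw [← h, D.opp_opp], fun h => by rw [h, D.opp_opp]⟩

lemma el_anti (a : Dart n) : el D a ∈ anti D := by
  intro x
  simp only [el, opp_eq_iff, D.opp_opp]
  ring

lemma el_pair (a : Dart n) (h : D.Region → ℝ) :
    ∑ x, el D a x * h (D.reg x) = h (D.reg a) - h (D.reg (rot n a)) := by
  simp [el, sub_mul, sum_sub_distrib, reg_rot, -rot_apply]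

lemma cut_of (g : Fin n → ℝ) (a : Dart n) (S : Set (Dart n)) (ha : a ∈ S)
    (hS : ∀ x ∈ S, x.1 = a.1) (c : Dart n) (hc : c.1 = a.1) (hcS : c ∉ S)
    (h1 : ∀ x ∈ S, d0 D g x ≠ 0) (h2 : ∀ x, x ∉ S → D.opp x ∉ S → d0 D g x = 0) :
    D.IsCutVertex a.1 := by
  refine ⟨{x | g x.1 ≠ g a.1} ∪ S, ⟨a, Or.inr ha⟩, ⟨c, ?_⟩, ?_, ?_⟩
  · rintro (h | h)
    · exact h (by rw [hc])
    · exact hcS h
  · rintro x (hx | hx)
    · by_cases ho : D.opp x ∈ S
      · exact Or.inr ho
      · have hxS : x ∉ S := fun h => hx (by rw [hS x h])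
        have := h2 x hxS ho
        rw [d0_apply, sub_eq_zero] at this
        exact Or.inl (by rw [Set.mem_setOf_eq, ← this]; exact hx)
    · have := h1 x hx
      rw [d0_apply, hS x hx, sub_ne_zero] at this
      exact Or.inl this.symm
  · rintro x y hxy hx (h | h)
    · exact Or.inl (by rw [Set.mem_setOf_eq, ← hxy]; exact h)
    · exact absurd (hS x h) hx

lemma rot_ne (a : Dart n) : rot n a ≠ a := by
  intro h
  have := congrArg Prod.snd h
  simp at this
  exact absurd this (by decide)

lemma rot2_ne (a : Dart n) : rot n (rot n a) ≠ a := by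
  intro h
  have := congrArg Prod.snd h
  simp only [rot_apply, add_assoc, add_eq_left] at this
  exact absurd this (by decide)

lemma corner1 (hN : D.NonSplit) (hP : D.Planar) (hR : D.Reduced) (a : Dart n) :
    D.reg a ≠ D.reg (rot n a) := by
  intro he
  obtain ⟨g, hg⟩ := exists_potential D hN hP (el D a) (el_anti D a)
    (fun h => by rw [el_pair, he, sub_self])
  refine hR a.1 (cut_of D g a {a} rfl (fun x hx => by rw [hx]) (rot n a) rfl (rot_ne a) ?_ ?_)
  · rintro x rfl
    simp [hg, el, (D.opp_ne x).symm]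
  · intro x h1 h2
    simp only [Set.mem_singleton_iff, opp_eq_iff] at h1 h2
    simp [hg, el, h1, h2]

lemma corner2 (hN : D.NonSplit) (hP : D.Planar) (hR : D.Reduced) (a : Dart n) :
    D.reg a ≠ D.reg (rot n (rot n a)) := by
  intro he
  have hS : ∀ x ∈ ({a, rot n a} : Set (Dart n)), x.1 = a.1 := by
    rintro x (rfl | rfl) <;> rfl
  have hc : rot n (rot n a) ∉ ({a, rot n a} : Set (Dart n)) := by
    rintro (h | h)
    · exact rot2_ne a h
    · exact rot_ne _ h
  by_cases hl : D.opp a = rot n a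
  · refine hR a.1 ⟨{a, rot n a}, ⟨a, Or.inl rfl⟩, ⟨_, hc⟩, ?_, ?_⟩
    · rintro x (rfl | rfl)
      · exact Or.inr hl
      · exact Or.inl (by rw [← hl, D.opp_opp])
    · intro x y _ hx h
      exact absurd (hS x h) hx
  obtain ⟨g, hg⟩ := exists_potential D hN hP (el D a + el D (rot n a))
    ((anti D).add_mem (el_anti D a) (el_anti D _))
    (fun h => by
      simp only [Pi.add_apply, add_mul, sum_add_distrib, el_pair]
      rw [← he]; ring)
  have hl' : a ≠ D.opp (rot n a) := fun h => hl (by rw [opp_eq_iff]; exact h)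
  refine hR a.1 (cut_of D g a {a, rot n a} (Or.inl rfl) hS (rot n (rot n a)) rfl hc ?_ ?_)
  · rintro x (rfl | rfl)
    · simp [hg, el, (D.opp_ne x).symm, hl', (rot_ne x).symm, -rot_apply]
    · simp [hg, el, (D.opp_ne _).symm, Ne.symm hl, rot_ne a, -rot_apply]
  · intro x h1 h2
    simp only [Set.mem_insert_iff, Set.mem_singleton_iff, opp_eq_iff, not_or] at h1 h2
    simp [hg, el, h1.1, h1.2, h2.1, h2.2, -rot_apply]

end Pool.Agent.H5.Nsis
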