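import Mathlib
import Pool.Agent.H5.Nsis1
import Pool.Agent.H5.Nsis2

namespace Pool.Agent.H5.Nsis
open Finset Classical

variable {n : ℕ} (D : Diagram n)

lemma rot4 (a : Dart n) : rot n (rot n (rot n (rot n a))) = a := by
  refine Prod.ext rfl ?_
  simp only [rot_apply, add_assoc, add_eq_left]
  decide

lemma adj_rot (hN : D.NonSplit) (hP : D.Planar) (hR : D.Reduced) (a : Dart n) :
    D.dual.Adj (D.reg a) (D.reg (rot n a)) := by
  rw [Diagram.dual, SimpleGraph.fromRel_adj]
  exact ⟨corner1 D hN hP hR a, Or.inl ⟨a, rfl, reg_rot D a⟩⟩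

lemma quad (hN : D.NonSplit) (hP : D.Planar) (hR : D.Reduced) (v w : D.Region)
    (h : D.dual.Adj v w) :
    ∃ x y, D.dual.Adj w x ∧ D.dual.Adj x y ∧ D.dual.Adj y v ∧ x ≠ v ∧ y ≠ w := by
  have A := adj_rot D hN hP hR
  have C := corner2 D hN hP hR
  rw [Diagram.dual, SimpleGraph.fromRel_adj] at h
  rcases h.2 with ⟨a, rfl, rfl⟩ | ⟨a, rfl, rfl⟩
  · rw [← reg_rot]
    refine ⟨_, _, A _, A _, ?_, (C a).symm, (C _).symm⟩
    have := A (rot n (rot n (rot n a)))
    rwa [rot4] at this
  · rw [← reg_rot]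
    refine ⟨D.reg (rot n (rot n (rot n a))), D.reg (rot n (rot n a)), ?_, (A _).symm, (A _).symm,
      (C _).symm, (C a).symm⟩
    have := A (rot n (rot n (rot n a)))
    rw [rot4] at this
    exact this.symm

lemma dual_conn (hN : D.NonSplit) : D.dual.Connected := by
  obtain ⟨v0⟩ := hN.nonempty
  have hop : ∀ x, D.dual.Reachable (D.reg (D.opp x)) (D.reg x) := by
    intro x
    by_cases h : D.reg (D.opp x) = D.reg x
    · rw [h]
    · refine SimpleGraph.Adj.reachable ?_
      rw [Diagram.dual, SimpleGraph.fromRel_adj]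
      exact ⟨h, Or.inr ⟨x, rfl, rfl⟩⟩
  have key := const_of_inv D hN (fun x => D.dual.connectedComponentMk (D.reg x))
    (fun x => SimpleGraph.ConnectedComponent.sound (hop x))
    (fun x => by rw [reg_rot]; exact SimpleGraph.ConnectedComponent.sound (hop x))
  have : Nonempty D.Region := ⟨D.reg (v0, 0)⟩
  refine ⟨fun p q => ?_⟩
  obtain ⟨x, rfl⟩ := Quotient.exists_rep p
  obtain ⟨y, rfl⟩ := Quotient.exists_rep q
  exact SimpleGraph.ConnectedComponent.exact (key x y)

noncomputable def len (q : D.Region) : ℕ := (univ.filter fun x : Dart n => D.reg x = q).card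

lemma sum_len : ∑ q, len D q = 4 * n := by
  have := card_eq_sum_card_fiberwise (s := (univ : Finset (Dart n))) (t := univ) (f := D.reg)
    (fun _ _ => mem_univ _)
  simp only [card_univ, Fintype.card_prod, Fintype.card_fin, ZMod.card] at this
  unfold len
  omega

lemma deg_le (q : D.Region) : (univ.filter (D.dual.Adj q)).card ≤ len D q := by
  refine le_trans (card_le_card ?_) (card_image_le (f := fun x => D.reg (D.opp x)))
  intro p hp
  have h := (mem_filter.1 hp).2
  rw [Diagram.dual, SimpleGraph.fromRel_adj] at h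
  rcases h.2 with ⟨a, rfl, rfl⟩ | ⟨a, rfl, rfl⟩
  · exact mem_image.2 ⟨a, by simp, rfl⟩
  · exact mem_image.2 ⟨D.opp a, by simp, by rw [D.opp_opp]⟩

theorem main (hN : D.NonSplit) (hP : D.Planar) (hR : D.Reduced) :
    ∃ S : Finset D.Region, D.dual.IsIndepSet (S : Set D.Region) ∧
      (D.dual.induce (S : Set D.Region)ᶜ).Connected ∧ n ≤ 260 * S.card := by
  obtain ⟨v0⟩ := hN.nonempty
  obtain ⟨C, hr, hrch, hcl, hcard⟩ := exists_cds (dual_conn D hN) _ _
    (adj_rot D hN hP hR (v0, 0)) (quad D hN hP hR)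
  have hP' : Fintype.card D.Region = n + 2 := by rw [← Nat.card_eq_fintype_card]; exact hP
  let T := Cᶜ.filter fun q => len D q ≤ 32
  obtain ⟨S, hST, hind, hS⟩ := greedy (G := D.dual) T 32
    (fun t ht => (deg_le D t).trans (mem_filter.1 ht).2)
  refine ⟨S, hind, nonsep hr hrch hcl fun s hs => mem_compl.1 (mem_filter.1 (hST hs)).1, ?_⟩
  have h1 := card_filter_add_card_filter_not (s := Cᶜ) (fun q => len D q ≤ 32)
  have h2 : (Cᶜ.filter fun q => ¬ len D q ≤ 32).card * 33 ≤ 4 * n := by
    rw [← sum_len D, ← smul_eq_mul]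
    refine le_trans (card_nsmul_le_sum _ (len D) 33 fun q hq => ?_)
      (sum_le_sum_of_subset (subset_univ _))
    have := (mem_filter.1 hq).2
    omega
  have h3 := card_add_card_compl C
  change T.card + _ = _ at h1
  omega

end Pool.Agent.H5.Nsis
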