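import Pool.Agent.H5.OverlapDefs

set_option autoImplicit false

namespace Pool.Agent.H5.Overlap

open FreeGroup Pool.Agent.H5.OverlapDefs

abbrev W := List (Fin 3 × Bool)

def Good (L : W) : Prop := IsReduced L ∧ (∀ p ∈ L, p.1 ≠ 2) ∧ (∀ p ∈ L.head?, p.1 = 0) ∧
  (∀ p ∈ L.getLast?, p.1 = 0) ∧ L ≠ []

lemma red_inv {L : W} (h : IsReduced L) : IsReduced (invRev L) := by
  rw [isReduced_iff_reduce_eq, reduce_invRev, h.reduce_eq]

lemma mem_inv {L : W} {p : Fin 3 × Bool} (h : p ∈ invRev L) : (p.1, !p.2) ∈ L := by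
  simp only [invRev, List.mem_reverse, List.mem_map] at h
  obtain ⟨q, hq, rfl⟩ := h
  simpa using hq

lemma Good.inv {L : W} (h : Good L) : Good (invRev L) := by
  obtain ⟨h1, h2, h3, h4, h5⟩ := h
  refine ⟨red_inv h1, fun p hp => h2 (p.1, !p.2) (mem_inv hp), ?_, ?_, by simpa [invRev] using h5⟩
  · simp only [invRev, List.head?_reverse, List.getLast?_map, Option.mem_def, Option.map_eq_some_iff]
    rintro _ ⟨q, hq, rfl⟩
    exact h4 q hq
  · simp only [invRev, List.getLast?_reverse, List.head?_map, Option.mem_def, Option.map_eq_some_iff]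
    rintro _ ⟨q, hq, rfl⟩
    exact h3 q hq

lemma Good.app {L M : W} (h : Good L) (k : Good M) : Good (L ++ (1, true) :: M) := by
  obtain ⟨h1, h2, h3, h4, h5⟩ := h
  obtain ⟨k1, k2, k3, k4, k5⟩ := k
  refine ⟨List.isChain_append.2 ⟨h1, List.isChain_cons.2 ⟨fun y hy e => ?_, k1⟩,
    fun x hx y hy e => ?_⟩, ?_, ?_, ?_, by simp⟩
  · simp [k3 y hy] at e
  · obtain rfl : (1, true) = y := by simpa using hy
    simp [h4 x hx] at e
  · intro p hp
    simp only [List.mem_append, List.mem_cons] at hp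
    rcases hp with hp | rfl | hp
    exacts [h2 p hp, by simp, k2 p hp]
  · rwa [List.head?_append_of_ne_nil _ h5]
  · rwa [List.getLast?_append_cons, List.getLast?_cons_of_ne_nil k5]

lemma words (n : ℕ) (P : Finset (Fin n × Fin n)) : ∃ t : Fin n → W, (∀ i, Good (t i)) ∧
    ∀ p ∈ P, p.1 ≠ p.2 → ∃ y, y ≠ [] ∧ y <+: t p.1 ∧ invRev y <+: t p.2 := by
  induction P using Finset.induction_on with
  | empty => exact ⟨fun _ => [(0, true)], fun _ => by simp [Good], by simp⟩
  | insert p P _ ih =>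
    obtain ⟨t, h1, h2⟩ := ih
    have g := (h1 p.1).app (h1 p.2).inv
    let u : Fin n → W := fun k => if k = p.1 then t p.1 ++ (1, true) :: invRev (t p.2)
      else if k = p.2 then invRev (t p.1 ++ (1, true) :: invRev (t p.2)) else t k
    have pre : ∀ k, t k <+: u k := fun k => by
      simp only [u]
      split_ifs with a b
      · simp [a]
      · rw [b, invRev_append, invRev_cons, invRev_invRev, List.append_assoc]
        exact List.prefix_append _ _
      · rfl
    refine ⟨u, fun k => ?_, fun q hq hne => ?_⟩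
    · simp only [u]
      split_ifs
      exacts [g, g.inv, h1 k]
    rcases Finset.mem_insert.1 hq with rfl | hq
    · exact ⟨_, g.2.2.2.2, by simp only [u, if_true]; rfl,
        by simp only [u, if_neg hne.symm, if_true]; rfl⟩
    · obtain ⟨y, a, b, c⟩ := h2 q hq hne
      exact ⟨y, a, b.trans (pre _), c.trans (pre _)⟩

def U : Set (FreeGroup (Fin 3)) := {w | ∃ s : W, w.toWord = (2, true) :: s ∧ ∀ p ∈ s, p.1 ≠ 2}

lemma noU {w v : FreeGroup (Fin 3)} (hw : w ∈ U) (hv : v ∈ U) : ¬ Overlaps w v := by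
  rintro ⟨x, x0, x1, x2, x3, -⟩
  obtain ⟨s, e, hs⟩ := hw
  obtain ⟨s', e', -⟩ := hv
  rw [e] at x1 x3
  rw [e'] at x2
  obtain ⟨a, x, rfl⟩ := List.exists_cons_of_ne_nil x0
  obtain rfl := (List.cons_prefix_cons.1 x2).1
  rcases List.suffix_cons_iff.1 x1 with h | h
  · rw [h] at x3
    omega
  · exact hs (2, true) (h.subset (by simp)) rfl

lemma ov_inv {w v : FreeGroup (Fin 3)} (h : Overlaps w v) : Overlaps v⁻¹ w⁻¹ := by
  obtain ⟨x, x0, ⟨a, x1⟩, ⟨b, x2⟩, x3, x4⟩ := h
  refine ⟨invRev x, by simpa [invRev] using x0, ⟨invRev b, ?_⟩, ⟨invRev a, ?_⟩,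
    by simpa using x4, by simpa using x3⟩
  · rw [toWord_inv, ← x2, invRev_append]
  · rw [toWord_inv, ← x1, invRev_append]

theorem main : ∃ (r : ℕ) (V : Set (FreeGroup (Fin r))), 2 ≤ r ∧ (∀ w ∈ V, w⁻¹ ∈ V) ∧
    (∀ w ∈ V, NonSelfOverlapping w) ∧
    (∀ K : Finset (FreeGroup (Fin r)), ↑K ⊆ V → (K : Set (FreeGroup (Fin r))).Pairwise Adj → K.card ≤ 2) ∧
    ∀ n : ℕ, ∃ f : Fin n → FreeGroup (Fin r), (∀ i, f i ∈ V) ∧
      ∀ i j, i ≠ j → QAdj (f i) (f j) := by
  have one : (1 : FreeGroup (Fin 3)) ∉ U := by simp [U]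
  have noI : ∀ {w v : FreeGroup (Fin 3)}, w⁻¹ ∈ U → v⁻¹ ∈ U → ¬ Overlaps w v :=
    fun a b h => noU b a (ov_inv h)
  refine ⟨3, {w | w ∈ U ∨ w⁻¹ ∈ U}, by norm_num, fun w h => by simpa using h.symm,
    fun w h => ⟨?_, h.elim (fun h => noU h h) fun h => noI h h⟩, fun K h1 h2 => ?_, fun n => ?_⟩
  · rintro rfl
    simp [one] at h
  · by_contra hc
    obtain ⟨a, ha, b, hb, c, hc, ab, ac, bc⟩ := Finset.two_lt_card.1 (not_le.1 hc)
    have k1 : ∀ x ∈ K, ∀ y ∈ K, x ≠ y → x ∈ U → y ∈ U → False := fun x hx y hy e p q =>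
      (h2 hx hy e).elim (noU p q) (noU q p)
    have k2 : ∀ x ∈ K, ∀ y ∈ K, x ≠ y → x⁻¹ ∈ U → y⁻¹ ∈ U → False := fun x hx y hy e p q =>
      (h2 hx hy e).elim (noI p q) (noI q p)
    rcases h1 ha with p | p <;> rcases h1 hb with q | q <;> rcases h1 hc with s | s
    exacts [k1 a ha b hb ab p q, k1 a ha b hb ab p q, k1 a ha c hc ac p s, k2 b hb c hc bc q s,
      k1 b hb c hc bc q s, k2 a ha c hc ac p s, k2 a ha b hb ab p q, k2 a ha b hb ab p q]
  obtain ⟨t, h1, h2⟩ := words n Finset.univ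
  let f : Fin n → FreeGroup (Fin 3) := fun i => mk ((2, true) :: invRev (t i))
  have e : ∀ i, (f i).toWord = (2, true) :: invRev (t i) := fun i => by
    obtain ⟨a, -, b, -⟩ := (h1 i).inv
    exact toWord_mk.trans (IsReduced.reduce_eq (List.isChain_cons.2
      ⟨fun y hy e => by simp [b y hy] at e, a⟩))
  have m : ∀ i, f i ∈ U := fun i => ⟨_, e i, (h1 i).inv.2.1⟩
  refine ⟨f, fun i => Or.inl (m i), fun i j hij => ?_⟩
  obtain ⟨y, y0, ⟨a, y1⟩, ⟨b, y2⟩⟩ := h2 (i, j) (by simp) hij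
  simp only at y1 y2
  have o : Overlaps (f i) (f j)⁻¹ := by
    have l1 := congrArg List.length y1
    have l2 := congrArg List.length y2
    refine ⟨invRev y, by simpa [invRev] using y0, ⟨(2, true) :: invRev a, ?_⟩,
      ⟨b ++ [(2, false)], ?_⟩, ?_, ?_⟩
    · rw [e, ← y1, invRev_append, List.cons_append]
    · rw [toWord_inv, e, invRev_cons, invRev_invRev, ← y2, List.append_assoc]
      rfl
    · simp [e] at l1 ⊢
      omega
    · simp [e] at l2 ⊢
      omega
  refine ⟨fun h => ?_, f i, by simp, (f j)⁻¹, by simp, Or.inl o⟩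
  rcases (h.subset (Set.mem_insert _ _) : f i = f j ∨ f i = (f j)⁻¹) with k | k
  · have k1 : t i = t j := by
      have := congrArg toWord k
      rw [e, e] at this
      exact invRev_injective (List.cons.inj this).2
    have k2 : y = invRev y := by
      rw [k1, ← y2] at y1
      exact (List.append_inj y1 (by simp)).1
    have k3 : mk y ^ 2 = 1 := by
      rw [sq, mul_eq_one_iff_eq_inv, inv_mk, ← k2]
    have k4 := congrArg toWord ((pow_eq_one_iff_left (by norm_num)).1 k3)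
    have k5 : IsReduced y := (List.isChain_append.1 (show IsReduced (y ++ a) from y1 ▸ (h1 i).1)).1
    rw [toWord_mk, k5.reduce_eq] at k4
    exact y0 k4
  · exact noU (m i) (k ▸ m i) o

end Pool.Agent.H5.Overlap
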