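import Mathlib

set_option autoImplicit false

namespace Pool.Agent.H5.OverlapDefs

variable {r : ℕ}

/-- The reduced word of `w` properly overlaps the reduced word of `v`. -/
def Overlaps (w v : FreeGroup (Fin r)) : Prop :=
  ∃ x, x ≠ [] ∧ x <:+ w.toWord ∧ x <+: v.toWord ∧
    x.length < w.toWord.length ∧ x.length < v.toWord.length

def NonSelfOverlapping (w : FreeGroup (Fin r)) : Prop := w ≠ 1 ∧ ¬ Overlaps w w

/-- Adjacency in the underlying undirected overlap graph. -/
def Adj (w v : FreeGroup (Fin r)) : Prop := Overlaps w v ∨ Overlaps v w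

/-- The pairs `{w, w⁻¹}` and `{v, v⁻¹}` are distinct and adjacent in the quotient graph. -/
def QAdj (w v : FreeGroup (Fin r)) : Prop :=
  ({w, w⁻¹} : Set (FreeGroup (Fin r))) ≠ {v, v⁻¹} ∧
    ∃ a ∈ ({w, w⁻¹} : Set (FreeGroup (Fin r))), ∃ b ∈ ({v, v⁻¹} : Set (FreeGroup (Fin r))), Adj a b

end Pool.Agent.H5.OverlapDefs
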