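import Pool.Agent.H5.ParDefs

set_option autoImplicit false

namespace Pool.Agent.H5.Par

open Pool.Agent.H5.ParDefs Finset

lemma intc {d : ℕ} (S : Finset (Fin d → ℤ)) (h : ∀ y ∈ S, ∀ i, y i = 0 ∨ y i = 1) :
    IntConvex S := by
  intro x hx
  rw [_root_.convexHull_eq] at hx
  obtain ⟨ι, t, w, z, w0, w1, hz, rfl⟩ := hx
  rw [← centerMass_filter_ne_zero]
  refine centerMass_mem_convexHull _ (fun i hi => w0 i (mem_filter.1 hi).1)
    (by rw [sum_filter_ne_zero, w1]; norm_num) fun j hj => ?_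
  obtain ⟨j1, j2⟩ := mem_filter.1 hj
  obtain ⟨y, hy, e⟩ := hz j j1
  refine ⟨y, ⟨hy, fun i => ?_⟩, e⟩
  rw [centerMass_filter_ne_zero, centerMass_eq_of_sum_1 _ _ w1]
  have b : ∀ k ∈ t, 0 ≤ z k i ∧ z k i ≤ 1 := fun k hk => by
    obtain ⟨u, hu, e⟩ := hz k hk
    rcases h u hu i with f | f <;> simp [← e, toR, f]
  have wj : 0 < w j := (w0 j j1).lt_of_ne j2.symm
  have e' : z j i = y i := by rw [← e, toR]
  simp only [Finset.sum_apply, Pi.smul_apply, smul_eq_mul]
  have l1 := single_le_sum (f := fun k => w k * z k i)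
    (fun k hk => mul_nonneg (w0 k hk) (b k hk).1) j1
  have l2 := single_le_sum (f := fun k => w k * (1 - z k i))
    (fun k hk => mul_nonneg (w0 k hk) (sub_nonneg.2 (b k hk).2)) j1
  simp only [mul_sub, mul_one, sum_sub_distrib, w1, e'] at l1 l2
  rw [abs_lt]
  rcases h y hy i with f | f <;> simp only [f, Int.cast_zero, Int.cast_one] at l1 l2 ⊢ <;>
    constructor <;> linarith

def A : Finset (Fin 4 → ℤ) := {![1, 1, 1, 1], ![0, 0, 1, 1], ![0, 1, 0, 0]}
def B : Finset (Fin 4 → ℤ) := {![1, 0, 0, 0], ![0, 1, 1, 0], ![0, 1, 0, 1]}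

def l (y : Fin 4 → ℤ) : ZMod 5 := ((3 * y 0 + 2 * y 1 + y 2 + y 3 : ℤ) : ZMod 5)

lemma par : Par 4 A B := by
  intro m m1 m4 a b ha hb h
  have e : ∀ a : Fin m → Fin 4 → ℤ, l (∑ i, a i) = ∑ i, l (a i) := fun a => by
    simp [l, sum_add_distrib, mul_sum]
  have lA : ∀ y ∈ A, l y = 2 := by decide
  have lB : ∀ y ∈ B, l y = 3 := by decide
  have := congrArg l h
  rw [e, e, sum_congr rfl fun i _ => lA _ (ha i), sum_congr rfl fun i _ => lB _ (hb i)] at this
  simp only [sum_const, card_univ, Fintype.card_fin] at this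
  interval_cases m <;> revert this <;> decide

lemma dj : Disjoint A B := by decide

lemma notH : ¬ CondH A B := by
  rintro ⟨k, H, hk, h4, -, h1, h2⟩
  have all : ∀ j, k + j ≤ 4 → ∀ y ∈ A ∪ B, toR y ∈ H (4 - j) := by
    intro j
    induction j with
    | zero => intro _ y _; simp [h4]
    | succ j ih =>
      intro hj
      obtain ⟨-, f, f1, f2⟩ := h2 (4 - (j + 1)) (by omega) (by omega)
      rw [show 4 - (j + 1) + 1 = 4 - j by omega] at f1 f2
      have ih := ih (by omega)
      have a : ∀ y ∈ A, 0 ≤ f (toR y) := fun y hy => not_lt.1 fun h => disjoint_left.1 dj hy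
        ((f2 y (mem_union_left _ hy) (ih y (mem_union_left _ hy))).2 h)
      have b : ∀ y ∈ B, f (toR y) ≤ 0 := fun y hy => not_lt.1 fun h => disjoint_right.1 dj hy
        ((f2 y (mem_union_right _ hy) (ih y (mem_union_right _ hy))).1 h)
      have d : ∀ x, f x = f.linear x + f 0 := fun x => by simpa using f.map_vadd 0 x
      have e : toR ![1, 1, 1, 1] + toR ![0, 0, 1, 1] + (3 : ℝ) • toR ![0, 1, 0, 0] =
          toR ![1, 0, 0, 0] + (2 : ℝ) • toR ![0, 1, 1, 0] + (2 : ℝ) • toR ![0, 1, 0, 1] := by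
        ext i
        fin_cases i <;> simp [toR] <;> norm_num
      have e := congrArg f.linear e
      simp only [map_add, map_smul, smul_eq_mul] at e
      have a1 := a ![1, 1, 1, 1] (by decide)
      have a2 := a ![0, 0, 1, 1] (by decide)
      have a3 := a ![0, 1, 0, 0] (by decide)
      have b1 := b ![1, 0, 0, 0] (by decide)
      have b2 := b ![0, 1, 1, 0] (by decide)
      have b3 := b ![0, 1, 0, 1] (by decide)
      rw [d] at a1 a2 a3 b1 b2 b3
      intro y hy
      refine (f1 _).2 ⟨ih y hy, ?_⟩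
      simp only [A, B, mem_union, mem_insert, mem_singleton] at hy
      rw [d]
      rcases hy with (rfl | rfl | rfl) | rfl | rfl | rfl <;> linarith
  have al := all (4 - k) (by omega)
  rw [show 4 - (4 - k) = k by omega] at al
  rcases h1 with h | h
  · exact absurd (h ![1, 0, 0, 0] (by decide) (al _ (by decide))) (by decide)
  · exact absurd (h ![1, 1, 1, 1] (by decide) (al _ (by decide))) (by decide)

theorem main : ∃ (d : ℕ) (A B : Finset (Fin d → ℤ)), 1 ≤ d ∧ A.Nonempty ∧ B.Nonempty ∧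
    Disjoint A B ∧ IntConvex (A ∪ B) ∧ Par d A B ∧ ¬ CondH A B :=
  ⟨4, A, B, by norm_num, by decide, by decide, dj, intc _ (by decide), par, notH⟩

end Pool.Agent.H5.Par
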