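import Mathlib

set_option autoImplicit false

namespace Pool.Agent.H5.ParDefs

variable {d : ℕ}

/-- A lattice point as a real point. -/
def toR (y : Fin d → ℤ) : Fin d → ℝ := fun i => y i

def IntConvex (S : Finset (Fin d → ℤ)) : Prop :=
  ∀ x ∈ convexHull ℝ (toR '' (S : Set (Fin d → ℤ))),
    x ∈ convexHull ℝ (toR '' {y | y ∈ S ∧ ∀ i, |x i - y i| < 1})

/-- The `k`-parallelogram condition. -/
def Par (k : ℕ) (A B : Finset (Fin d → ℤ)) : Prop :=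
  ∀ m, 1 ≤ m → m ≤ k → ∀ a b : Fin m → Fin d → ℤ, (∀ i, a i ∈ A) → (∀ i, b i ∈ B) →
    ∑ i, a i ≠ ∑ i, b i

/-- `P` is cut out of `L` by an affine function `f`; the points of `A ∪ B` in the open half
`f > 0` of `L` lie in `A` and those in the open half `f < 0` lie in `B`. -/
def Sep (L P : AffineSubspace ℝ (Fin d → ℝ)) (A B : Finset (Fin d → ℤ)) : Prop :=
  ∃ f : (Fin d → ℝ) →ᵃ[ℝ] ℝ, (∀ x, x ∈ P ↔ x ∈ L ∧ f x = 0) ∧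
    ∀ y ∈ A ∪ B, toR y ∈ L → (0 < f (toR y) → y ∈ A) ∧ (f (toR y) < 0 → y ∈ B)

def CondH (A B : Finset (Fin d → ℤ)) : Prop :=
  ∃ (k : ℕ) (H : ℕ → AffineSubspace ℝ (Fin d → ℝ)), k ≤ d ∧ H d = ⊤ ∧
    (∀ i, k ≤ i → i ≤ d → H i ≠ ⊥ ∧ Module.finrank ℝ (H i).direction = i) ∧
    ((∀ y ∈ A ∪ B, toR y ∈ H k → y ∈ A) ∨ ∀ y ∈ A ∪ B, toR y ∈ H k → y ∈ B) ∧
    ∀ i, k ≤ i → i < d → H i ≤ H (i + 1) ∧ Sep (H (i + 1)) (H i) A B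

end Pool.Agent.H5.ParDefs
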