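import Mathlib

set_option autoImplicit false

namespace Pool.Agent.H5.Pcd
open Finset

theorem mantel {ι : Type*} (s : Finset ι) (r : ι → ι → ℝ) (x ψ : ι → ℝ) (δ : ℝ) (hδ : 0 ≤ δ)
    (r01 : ∀ a b, r a b = 0 ∨ r a b = 1) (rs : ∀ a b, r a b = r b a)
    (h0 : ∀ a ∈ s, ∀ b ∈ s, r a b = 1 → ψ a + ψ b ≤ 1)
    (h1 : ∀ a ∈ s, ∀ b ∈ s, r a b = 1 → 0 ≤ (4 * x a - ψ a) + (4 * x b - ψ b) - 1 - δ)
    (h2 : ∀ a ∈ s, ∀ b ∈ s, ∀ c ∈ s, r a b = 1 → r b c = 1 → r a c = 1 →
      6 + 3 * δ ≤ 2 * ((4 * x a - ψ a) + (4 * x b - ψ b) + (4 * x c - ψ c)))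
    (hs : s.Nonempty) :
    (1 + δ) * ∑ a ∈ s, (∑ b ∈ s, r a b) * ψ a ≤ 4 * s.card * ∑ a ∈ s, x a ^ 2 := by
  set M : ℝ := (s.card : ℝ) with hM
  have hM0 : 0 < M := by rw [hM]; exact_mod_cast hs.card_pos
  set D : ι → ℝ := fun a => ∑ b ∈ s, r a b with hD
  set φ : ι → ℝ := fun a => 4 * x a - ψ a with hφ
  have sym : ∀ g : ι → ℝ, ∑ a ∈ s, ∑ b ∈ s, r a b * (g a + g b) = 2 * ∑ a ∈ s, D a * g a := by
    intro g
    simp only [mul_add, sum_add_distrib]
    rw [sum_comm (f := fun a b => r a b * g b)]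
    simp only [hD, sum_mul]
    have : ∑ y ∈ s, ∑ x ∈ s, r x y * g y = ∑ y ∈ s, ∑ x ∈ s, r y x * g y :=
      sum_congr rfl fun a _ => sum_congr rfl fun b _ => by rw [rs]
    rw [this]; ring
  set E : ℝ := ∑ a ∈ s, D a with hE
  set T : ℝ := ∑ a ∈ s, ∑ b ∈ s, ∑ c ∈ s, r a b * r b c * r a c with hT
  have e1 : 2 * ∑ a ∈ s, D a * ψ a ≤ E := by
    rw [← sym]
    refine sum_le_sum fun a ha => sum_le_sum fun b hb => ?_
    rcases r01 a b with h | h
    · simp [h]
    · rw [h]; have := h0 a ha b hb h; linarith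
  have e2 : 2 * ∑ a ∈ s, D a * D a ≤ M * E + T := by
    rw [← sym, hE, hT, mul_sum, ← sum_add_distrib]
    refine sum_le_sum fun a ha => ?_
    simp only [hD]
    rw [mul_sum, ← sum_add_distrib]
    refine sum_le_sum fun b hb => ?_
    have : M * r a b = ∑ c ∈ s, r a b := by simp [hM]
    rw [this, ← sum_add_distrib, ← sum_add_distrib, mul_sum]
    refine sum_le_sum fun c hc => ?_
    rcases r01 a b with h | h <;> rcases r01 a c with h' | h' <;> rcases r01 b c with h'' | h'' <;>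
      simp [h, h', h'']
  set sl : ι → ι → ℝ := fun a b => φ a + φ b - 1 - δ with hsl
  have e3 : ∑ a ∈ s, ∑ b ∈ s, ∑ c ∈ s, r a b * r b c * r a c * sl a b ≤
      M * ∑ a ∈ s, ∑ b ∈ s, r a b * sl a b := by
    rw [mul_sum]
    refine sum_le_sum fun a ha => ?_
    rw [mul_sum]
    refine sum_le_sum fun b hb => ?_
    have : M * (r a b * sl a b) = ∑ c ∈ s, r a b * sl a b := by simp [hM]
    rw [this]
    refine sum_le_sum fun c hc => ?_
    rcases r01 a b with h | h
    · simp [h]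
    · have := h1 a ha b hb h
      rcases r01 a c with h' | h' <;> rcases r01 b c with h'' | h'' <;>
        simp [h, h', h'', hsl, hφ] <;> linarith
  have p1 : ∑ a ∈ s, ∑ b ∈ s, ∑ c ∈ s, r a b * r b c * r a c * sl b c =
      ∑ a ∈ s, ∑ b ∈ s, ∑ c ∈ s, r a b * r b c * r a c * sl a b := by
    rw [sum_comm]
    refine sum_congr rfl fun b _ => ?_
    rw [sum_comm]
    refine sum_congr rfl fun c _ => sum_congr rfl fun a _ => ?_
    rw [rs a b, rs a c]; ring
  have p2 : ∑ a ∈ s, ∑ b ∈ s, ∑ c ∈ s, r a b * r b c * r a c * sl a c =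
      ∑ a ∈ s, ∑ b ∈ s, ∑ c ∈ s, r a b * r b c * r a c * sl a b := by
    refine sum_congr rfl fun a _ => ?_
    rw [sum_comm]
    refine sum_congr rfl fun c _ => sum_congr rfl fun b _ => ?_
    rw [rs b c]; ring
  have e4 : 3 * T ≤ ∑ a ∈ s, ∑ b ∈ s, ∑ c ∈ s, (r a b * r b c * r a c * sl a b +
      r a b * r b c * r a c * sl b c + r a b * r b c * r a c * sl a c) := by
    rw [hT, mul_sum]
    refine sum_le_sum fun a ha => ?_
    rw [mul_sum]
    refine sum_le_sum fun b hb => ?_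
    rw [mul_sum]
    refine sum_le_sum fun c hc => ?_
    rcases r01 a b with h | h
    · simp [h]
    rcases r01 b c with h' | h'
    · simp [h']
    rcases r01 a c with h'' | h''
    · simp [h'']
    have := h2 a ha b hb c hc h h' h''
    simp only [h, h', h'', hsl, hφ]; linarith
  simp only [sum_add_distrib, p1, p2] at e4
  have e5 : ∑ a ∈ s, ∑ b ∈ s, r a b * sl a b = 2 * ∑ a ∈ s, D a * φ a - (1 + δ) * E := by
    rw [← sym, hE, mul_sum, ← sum_sub_distrib]
    refine sum_congr rfl fun a _ => ?_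
    simp only [hD]
    rw [mul_sum, ← sum_sub_distrib]
    exact sum_congr rfl fun b _ => by simp only [hsl]; ring
  have e6 : M * ∑ a ∈ s, D a * ψ a ≤ 4 * M ^ 2 * ∑ a ∈ s, x a ^ 2 + ∑ a ∈ s, D a * D a
      - M * ∑ a ∈ s, D a * φ a := by
    rw [mul_sum, mul_sum, mul_sum, ← sum_add_distrib, ← sum_sub_distrib]
    refine sum_le_sum fun a _ => ?_
    simp only [hφ]
    nlinarith [sq_nonneg (2 * M * x a - D a)]
  rw [e5] at e3
  have e7 : M * (δ * (2 * ∑ a ∈ s, D a * ψ a)) ≤ M * (δ * E) :=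
    mul_le_mul_of_nonneg_left (mul_le_mul_of_nonneg_left e1 hδ) hM0.le
  apply le_of_mul_le_mul_left _ hM0
  show M * ((1 + δ) * ∑ a ∈ s, D a * ψ a) ≤ _
  nlinarith

theorem sum_shift (n : ℕ) (f : ℤ → ℝ) (hf : ∀ j, f (j + n) = f j) (α : ℤ) :
    ∑ i ∈ range n, f (α + i) = ∑ i ∈ range n, f i := by
  have step : ∀ β : ℤ, ∑ i ∈ range n, f (β + 1 + i) = ∑ i ∈ range n, f (β + i) := by
    intro β
    have h1 := sum_range_succ (fun i : ℕ => f (β + i)) n
    have h2 := sum_range_succ' (fun i : ℕ => f (β + i)) n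
    simp only [Nat.cast_add, Nat.cast_one, Nat.cast_zero, add_zero] at h2
    rw [hf] at h1
    have : ∑ i ∈ range n, f (β + 1 + i) = ∑ i ∈ range n, f (β + (i + 1)) :=
      sum_congr rfl fun i _ => by congr 1; ring
    linarith
  induction α using Int.induction_on with
  | zero => simp
  | succ a ih => rw [step, ih]
  | pred a ih => rw [← ih, ← step]; simp

/-- indicator of the half circle `[θ, θ+M)` on the circle of length `2M` -/
noncomputable def e (M a θ : ℤ) : ℝ := if (a - θ) % (2 * M) < M then 1 else 0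

def dz (M a b : ℤ) : ℤ := min |a - b| (2 * M - |a - b|)

theorem mod_shift (M a v θ : ℤ) (hM : 0 < M) (h1 : v < θ) (h2 : θ ≤ v + M) :
    (a - θ) % (2 * M) < M ↔
      θ - v ≤ (a - v) % (2 * M) ∧ (a - v) % (2 * M) < θ - v + M := by
  have k1 := Int.emod_nonneg (a - v) (show 2 * M ≠ 0 by omega)
  have k2 := Int.emod_lt_of_pos (a - v) (show 0 < 2 * M by omega)
  have k3 : (a - θ) % (2 * M) = ((a - v) % (2 * M) - (θ - v)) % (2 * M) := by
    rw [Int.emod_sub_emod]; congr 1; ring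
  set w := (a - v) % (2 * M)
  rw [k3]
  rcases le_or_gt (θ - v) w with h | h
  · rw [Int.emod_eq_of_lt (by omega) (by omega)]; omega
  · rw [← Int.add_emod_right, Int.emod_eq_of_lt (by omega) (by omega)]; omega

theorem sum_e2 (M a b v : ℤ) (hM : 0 < M) :
    ∑ θ ∈ Ioc v (v + M), e M a θ * e M b θ =
      ((min M (min ((a - v) % (2 * M)) ((b - v) % (2 * M))) -
        max 0 (max ((a - v) % (2 * M)) ((b - v) % (2 * M)) - M)).toNat : ℝ) := by
  set w := (a - v) % (2 * M) with hw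
  set w' := (b - v) % (2 * M) with hw'
  have : ∑ θ ∈ Ioc v (v + M), e M a θ * e M b θ =
      ∑ θ ∈ Ioc v (v + M), if θ ∈ Ioc (v + max 0 (max w w' - M)) (v + min M (min w w'))
        then (1 : ℝ) else 0 := by
    refine sum_congr rfl fun θ hθ => ?_
    obtain ⟨h1, h2⟩ := mem_Ioc.1 hθ
    unfold e
    simp only [mod_shift M a v θ hM h1 h2, mod_shift M b v θ hM h1 h2, mem_Ioc, ← hw, ← hw']
    split_ifs <;> first | omega | simp
  rw [this, ← sum_filter, sum_const, nsmul_eq_mul, mul_one, filter_mem_eq_inter,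
    inter_eq_right.2 (Ioc_subset_Ioc (by omega) (by omega)), Int.card_Ioc]
  congr 2; ring

theorem e01 (M a θ : ℤ) : e M a θ = 0 ∨ e M a θ = 1 := by unfold e; split_ifs <;> simp

theorem mod_diff (M a b v : ℤ) (hM : 0 < M) (h : |a - b| ≤ 2 * M) :
    dz M a b = dz M ((a - v) % (2 * M)) ((b - v) % (2 * M)) := by
  have k1 := Int.emod_nonneg (a - v) (show 2 * M ≠ 0 by omega)
  have k2 := Int.emod_lt_of_pos (a - v) (show 0 < 2 * M by omega)
  have k3 := Int.emod_nonneg (b - v) (show 2 * M ≠ 0 by omega)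
  have k4 := Int.emod_lt_of_pos (b - v) (show 0 < 2 * M by omega)
  have k5 := Int.emod_add_mul_ediv (a - v) (2 * M)
  have k6 := Int.emod_add_mul_ediv (b - v) (2 * M)
  set w := (a - v) % (2 * M)
  set w' := (b - v) % (2 * M)
  set q := (a - v) / (2 * M) - (b - v) / (2 * M) with hq
  have k7 : a - b = w - w' + 2 * M * q := by rw [hq]; linarith
  obtain ⟨h1, h2⟩ := abs_le.1 h
  have q1 : q < 2 := by by_contra hc; nlinarith
  have q2 : -2 < q := by by_contra hc; nlinarith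
  unfold dz
  rw [k7]
  have : q = -1 ∨ q = 0 ∨ q = 1 := by omega
  clear_value q w w'
  rcases this with h | h | h <;> subst h <;> simp only [abs_eq_max_neg] <;> omega

theorem dz_eq (M a b v : ℤ) (hM : 0 < M) (h : |a - b| ≤ 2 * M) :
    (dz M a b : ℝ) = ∑ θ ∈ Ioc v (v + M), (e M a θ + e M b θ - 2 * (e M a θ * e M b θ)) := by
  have sq : ∀ c θ, e M c θ = e M c θ * e M c θ := by
    intro c θ; rcases e01 M c θ with h | h <;> simp [h]
  rw [sum_sub_distrib, sum_add_distrib, ← mul_sum, sum_congr rfl fun θ _ => sq a θ,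
    sum_congr rfl fun θ _ => sq b θ, sum_e2 M a a v hM, sum_e2 M b b v hM, sum_e2 M a b v hM,
    mod_diff M a b v hM h]
  have k1 := Int.emod_nonneg (a - v) (show 2 * M ≠ 0 by omega)
  have k2 := Int.emod_lt_of_pos (a - v) (show 0 < 2 * M by omega)
  have k3 := Int.emod_nonneg (b - v) (show 2 * M ≠ 0 by omega)
  have k4 := Int.emod_lt_of_pos (b - v) (show 0 < 2 * M by omega)
  generalize (a - v) % (2 * M) = w at *
  generalize (b - v) % (2 * M) = w' at *
  have : dz M w w' = ((min M (min w w) - max 0 (max w w - M)).toNat : ℤ) +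
      ((min M (min w' w') - max 0 (max w' w' - M)).toNat : ℤ) -
      2 * ((min M (min w w') - max 0 (max w w' - M)).toNat : ℤ) := by
    unfold dz; simp only [abs_eq_max_neg]; omega
  exact_mod_cast this

theorem e_self (M v θ : ℤ) (hM : 0 < M) (h : θ ∈ Ioc v (v + M)) : e M v θ = 0 := by
  obtain ⟨h1, h2⟩ := mem_Ioc.1 h
  unfold e
  rw [if_neg]
  rw [mod_shift M v v θ hM h1 h2]; simp; omega

end Pool.Agent.H5.Pcd
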