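import Pool.Agent.H5.Pcd1

set_option autoImplicit false

namespace Pool.Agent.H5.Pcd
open Finset

theorem exists_N (n : ℕ) (M : ℤ) (hM : 0 < M) (X : ℤ → ℤ) (hX : Monotone X)
    (hp : ∀ j, X (j + n) = X j + 2 * M) :
    ∃ N : ℤ → ℤ, ∀ θ j, N θ ≤ j ↔ θ ≤ X j := by
  have hq : ∀ q : ℕ, X (q * n) = X 0 + 2 * M * q ∧ X (-(q * n)) = X 0 - 2 * M * q := by
    intro q
    induction q with
    | zero => simp
    | succ q ih =>
      constructor
      · have := hp (q * n)
        push_cast
        rw [show ((q : ℤ) + 1) * n = q * n + n by ring, this, ih.1]; ring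
      · have := hp (-((q + 1) * n))
        rw [show -(((q : ℤ) + 1) * n) + n = -(q * n) by ring, ih.2] at this
        push_cast; linarith
  have : ∀ θ : ℤ, ∃ l, θ ≤ X l ∧ ∀ j, θ ≤ X j → l ≤ j := by
    intro θ
    set q := (θ - X 0).natAbs + 1 with hq'
    have h1 : |θ - X 0| < q := by rw [hq']; push_cast; omega
    obtain ⟨h2, h3⟩ := abs_lt.1 h1
    have q0 : (0 : ℤ) ≤ q := by positivity
    apply Int.exists_least_of_bdd
    · refine ⟨-(q * n), fun j hj => ?_⟩
      by_contra hc
      have := hX (show j ≤ -(q * n) by omega)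
      rw [(hq q).2] at this
      nlinarith
    · refine ⟨q * n, ?_⟩
      rw [(hq q).1]; nlinarith
  choose N h1 h2 using this
  exact ⟨N, fun θ j => ⟨fun h => le_trans (h1 θ) (hX h), h2 θ j⟩⟩

theorem disc (k : ℕ) (M : ℤ) (hM : 0 < M) (X : ℤ → ℤ) (hX : Monotone X)
    (hp : ∀ j, X (j + (2 * k + 1 : ℕ)) = X j + 2 * M) (v : ℤ)
    (hv : ∀ i ∈ range (2 * k + 1), |X i - v| ≤ 2 * M) :
    ∑ j ∈ range (2 * k + 1), (1 / ((2 * k + 1 : ℕ) : ℝ)) *
        ∑ i ∈ range (2 * k + 1), (dz M (X i) (X j) : ℝ) +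
      ∑ j ∈ range (2 * k + 1), (((X (j + k + 1) - X (j + k) : ℤ) : ℝ) / (2 * M)) *
        ∑ i ∈ range (2 * k + 1), (dz M (X i) (X j) : ℝ) ≤
      (3 - 2 / (((2 * k + 1 : ℕ) : ℝ) * ((2 * k + 1 : ℕ) + 1))) *
        ∑ i ∈ range (2 * k + 1), (dz M (X i) v : ℝ) := by
  obtain ⟨N, hN⟩ := exists_N (2 * k + 1) M hM X hX hp
  set n := 2 * k + 1 with hn
  have hnz : (n : ℤ) = 2 * k + 1 := by rw [hn]; push_cast; rfl
  have hnR : (0 : ℝ) < n := by rw [hn]; positivity
  have hMR : (0 : ℝ) < M := by exact_mod_cast hM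
  have Nm : ∀ a b, a ≤ b → N a ≤ N b := fun a b h =>
    (hN a _).2 (le_trans h ((hN b _).1 le_rfl))
  have Np : ∀ a, N (a + 2 * M) = N a + n := by
    intro a
    apply le_antisymm
    · rw [hN, hp]; have := (hN a _).1 le_rfl; omega
    · have h1 := (hN (a + 2 * M) _).1 le_rfl
      have h2 := hp (N (a + 2 * M) - n)
      rw [sub_add_cancel] at h2
      have := (hN a (N (a + 2 * M) - n)).2 (by omega)
      omega
  set c : ℤ → ℤ := fun θ => N (θ + M) - N θ with hc
  have c0 : ∀ θ, 0 ≤ c θ := fun θ => sub_nonneg.2 (Nm _ _ (by omega))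
  have c1 : ∀ θ, c θ ≤ n := fun θ => by
    have := Nm (θ + M) (θ + 2 * M) (by omega); rw [Np] at this; simp only [hc]; omega
  have ep : ∀ θ j, e M (X (j + n)) θ = e M (X j) θ := by
    intro θ j
    unfold e
    rw [hp, show X j + 2 * M - θ = X j - θ + 2 * M by ring, Int.add_emod_right]
  have ew : ∀ θ, ∀ i ∈ range n, e M (X (N θ + i)) θ = if i < (c θ).toNat then 1 else 0 := by
    intro θ i hi
    have hi' := mem_range.1 hi
    have h1 := (hN θ (N θ + i)).1 (by omega)
    have h2 : ¬ (θ + 2 * M ≤ X (N θ + i)) := by rw [← hN, Np]; omega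
    have h3 := hN (θ + M) (N θ + i)
    unfold e
    rw [Int.emod_eq_of_lt (by omega) (by omega)]
    have := c0 θ
    simp only [hc] at this ⊢
    congr 1
    apply propext
    omega
  have wsum : ∀ θ (g : ℤ → ℝ), (∀ j, g (j + n) = g j) →
      ∑ j ∈ range n, g j * e M (X j) θ = ∑ i ∈ range (c θ).toNat, g (N θ + i) := by
    intro θ g hg
    rw [← sum_shift n (fun j => g j * e M (X j) θ) (fun j => by simp only [hg, ep]) (N θ),
      sum_congr rfl fun i hi => by rw [ew θ i hi]]
    simp only [mul_ite, mul_one, mul_zero]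
    rw [← sum_filter]
    congr 1
    ext i
    have := c1 θ
    simp only [mem_filter, mem_range]; omega
  have se : ∀ θ, ∑ j ∈ range n, e M (X j) θ = c θ := by
    intro θ
    have := wsum θ (fun _ => 1) (fun _ => rfl)
    simp only [one_mul, sum_const, card_range, nsmul_eq_mul, mul_one] at this
    rw [this]
    have := Int.toNat_of_nonneg (c0 θ)
    exact_mod_cast this
  set g : ℤ → ℝ := fun j => ((X (j + k + 1) - X (j + k) : ℤ) : ℝ) with hg
  have gp : ∀ j, g (j + n) = g j := by
    intro j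
    simp only [hg]
    rw [show j + n + k + 1 = j + k + 1 + n by ring, show j + n + k = j + k + n by ring, hp, hp]
    congr 1; ring
  have tel : ∀ (α : ℤ) (m : ℕ), ∑ i ∈ range m, g (α + i) = ((X (α + m + k) - X (α + k) : ℤ) : ℝ) := by
    intro α m
    induction m with
    | zero => simp
    | succ m ih =>
      rw [sum_range_succ, ih]; simp only [hg]; push_cast
      rw [show α + (m + 1) + k = α + m + k + 1 by ring]; ring
  have sg : ∑ j ∈ range n, g j = 2 * M := by
    have := tel 0 n
    simp only [zero_add] at this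
    rw [this, add_comm (n : ℤ) k, hp]; push_cast; ring
  set P : ℤ → ℝ := fun θ => ((X (N (θ + M) + k) - X (N θ + k) : ℤ) : ℝ) with hP
  have sP : ∀ θ, ∑ j ∈ range n, g j * e M (X j) θ = P θ := by
    intro θ
    rw [wsum θ g gp, tel, Int.toNat_of_nonneg (c0 θ)]
    simp only [hP, hc]; congr 3; ring
  set s := Ioc v (v + M) with hs
  have hcard : (s.card : ℝ) = M := by
    rw [hs, Int.card_Ioc, add_sub_cancel_left]
    have := Int.toNat_of_nonneg hM.le
    exact_mod_cast this
  have dij : ∀ j ∈ range n, ∑ i ∈ range n, (dz M (X i) (X j) : ℝ) =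
      ∑ θ ∈ s, (c θ + e M (X j) θ * (n - 2 * c θ)) := by
    intro j hj
    have hj' := mem_range.1 hj
    rw [sum_congr rfl fun (i : ℕ) (hi : i ∈ range n) => dz_eq M (X i) (X j) v hM (by
      have hi' := mem_range.1 hi
      have h1 := hX (show (i : ℤ) ≤ j + n by omega)
      have h2 := hX (show (j : ℤ) ≤ i + n by omega)
      rw [hp] at h1 h2
      rw [abs_le]; omega), sum_comm]
    refine sum_congr rfl fun θ _ => ?_
    rw [sum_sub_distrib, sum_add_distrib, ← mul_sum, ← sum_mul, se]
    simp; ring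
  have dv : ∑ i ∈ range n, (dz M (X i) v : ℝ) = ∑ θ ∈ s, (c θ : ℝ) := by
    rw [sum_congr rfl fun (i : ℕ) hi => dz_eq M (X i) v v hM (hv i hi), sum_comm]
    refine sum_congr rfl fun θ hθ => ?_
    simp only [e_self M v θ hM hθ, add_zero, mul_zero, sub_zero, se]
  have t1 : ∑ j ∈ range n, (1 / (n : ℝ)) * ∑ i ∈ range n, (dz M (X i) (X j) : ℝ) =
      ∑ θ ∈ s, (2 * c θ - 2 * (c θ : ℝ) ^ 2 / n) := by
    rw [sum_congr rfl fun j hj => by rw [dij j hj], ← mul_sum, sum_comm, mul_sum]
    refine sum_congr rfl fun θ _ => ?_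
    rw [sum_add_distrib, ← sum_mul, se]
    simp; field_simp; ring
  have t2 : ∑ j ∈ range n, (g j / (2 * M)) * ∑ i ∈ range n, (dz M (X i) (X j) : ℝ) =
      ∑ θ ∈ s, (c θ + P θ * (n - 2 * c θ) / (2 * M)) := by
    rw [sum_congr rfl fun j hj => by rw [dij j hj, mul_sum], sum_comm]
    refine sum_congr rfl fun θ _ => ?_
    rw [← sP]
    have : ∀ j : ℕ, g j / (2 * M) * (c θ + e M (X j) θ * (n - 2 * c θ)) =
        g j * (c θ / (2 * M)) + g j * e M (X j) θ * ((n - 2 * c θ) / (2 * M)) := fun j => by ring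
    simp only [this]
    rw [sum_add_distrib, ← sum_mul, ← sum_mul, sg]
    field_simp
  set r : ℤ → ℤ → ℝ := fun a b => if N (min a b) + n - N (max a b + M) ≤ k then 1 else 0 with hr
  set x : ℤ → ℝ := fun a => (c a : ℝ) / n with hx
  set ψ : ℤ → ℝ := fun a => max 0 (1 - 2 * x a) with hψ
  have x0 : ∀ a, 0 ≤ x a := fun a => div_nonneg (by exact_mod_cast c0 a) hnR.le
  have rr : ∀ a b, r a b = 1 → N (min a b) + n - N (max a b + M) ≤ k := by
    intro a b h; by_contra hc; simp only [hr, if_neg hc] at h; exact zero_ne_one h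
  have hδ : (0 : ℝ) < 1 / n := by positivity
  have hδ1 : 1 / (n : ℝ) ≤ 1 := by
    rw [div_le_one hnR]; exact_mod_cast (show 1 ≤ n by omega)
  have edge : ∀ a ∈ s, ∀ b ∈ s, r a b = 1 → 1 / 2 + (1 / n) / 2 ≤ x a + x b := by
    intro a ha b hb h
    have h1 := rr a b h
    obtain ⟨a1, a2⟩ := mem_Ioc.1 ha
    obtain ⟨b1, b2⟩ := mem_Ioc.1 hb
    have h2 := Nm b (a + M) (by omega)
    have h3 := Nm a (b + M) (by omega)
    have h4 : (n : ℤ) + 1 ≤ 2 * (c a + c b) := by
      simp only [hc]
      rcases le_total a b with h' | h' <;> simp only [h', min_eq_left, max_eq_right, min_eq_right,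
        max_eq_left] at h1 <;> omega
    have h5 : (n : ℝ) + 1 ≤ 2 * (c a + c b) := by exact_mod_cast h4
    simp only [hx]
    rw [← add_div (c a : ℝ), le_div_iff₀ hnR]; field_simp; linarith
  have tri : ∀ a ∈ s, ∀ b ∈ s, ∀ d ∈ s, r a b = 1 → r b d = 1 → r a d = 1 →
      1 + 1 / n ≤ x a + x b + x d := by
    intro a ha b hb d hd h1 h2 h3
    have h1 := rr a b h1
    have h2 := rr b d h2
    have h3 := rr a d h3
    obtain ⟨a1, a2⟩ := mem_Ioc.1 ha
    obtain ⟨b1, b2⟩ := mem_Ioc.1 hb
    obtain ⟨d1, d2⟩ := mem_Ioc.1 hd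
    have k1 := Nm b (a + M) (by omega)
    have k2 := Nm a (b + M) (by omega)
    have k3 := Nm d (a + M) (by omega)
    have k4 := Nm a (d + M) (by omega)
    have k5 := Nm b (d + M) (by omega)
    have k6 := Nm d (b + M) (by omega)
    have h4 : (n : ℤ) + 1 ≤ c a + c b + c d := by
      simp only [hc]
      rcases le_total a b with h | h <;> rcases le_total b d with h' | h' <;>
        rcases le_total a d with h'' | h'' <;>
        simp only [h, h', h'', min_eq_left, max_eq_right, min_eq_right, max_eq_left] at h1 h2 h3 <;>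
        first
        | omega
        | (obtain rfl : a = b := by omega
           obtain rfl : a = d := by omega
           omega)
    have h5 : (n : ℝ) + 1 ≤ c a + c b + c d := by exact_mod_cast h4
    simp only [hx]
    rw [← add_div, ← add_div, le_div_iff₀ hnR]; field_simp; linarith
  have man := mantel s r x ψ (1 / n) hδ.le
    (fun a b => by simp only [hr]; split_ifs <;> simp)
    (fun a b => by simp only [hr]; rw [min_comm, max_comm])
    (fun a ha b hb h => by
      have := edge a ha b hb h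
      have := x0 a; have := x0 b
      simp only [hψ]
      rcases max_choice 0 (1 - 2 * x a) with h1 | h1 <;>
        rcases max_choice 0 (1 - 2 * x b) with h2 | h2 <;> rw [h1, h2] <;> linarith)
    (fun a ha b hb h => by
      have := edge a ha b hb h
      have := x0 a; have := x0 b
      simp only [hψ]
      rcases max_choice 0 (1 - 2 * x a) with h1 | h1 <;>
        rcases max_choice 0 (1 - 2 * x b) with h2 | h2 <;> rw [h1, h2] <;> linarith)
    (fun a ha b hb d hd h1 h2 h3 => by
      have := edge a ha b hb h1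
      have := edge b hb d hd h2
      have := edge a ha d hd h3
      have := tri a ha b hb d hd h1 h2 h3
      have := x0 a; have := x0 b; have := x0 d
      simp only [hψ]
      rcases max_choice 0 (1 - 2 * x a) with h1 | h1 <;>
        rcases max_choice 0 (1 - 2 * x b) with h2 | h2 <;>
        rcases max_choice 0 (1 - 2 * x d) with h3 | h3 <;> rw [h1, h2, h3] <;> linarith)
    ⟨v + M, mem_Ioc.2 ⟨by omega, le_rfl⟩⟩
  rw [hcard] at man
  have Pb : ∀ θ ∈ s, P θ * (n - 2 * c θ) ≤ n * ((∑ b ∈ s, r θ b) * ψ θ) := by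
    intro θ hθ
    obtain ⟨a1, a2⟩ := mem_Ioc.1 hθ
    have P0 : 0 ≤ P θ := by
      have := hX (show N θ + k ≤ N (θ + M) + k by have := Nm θ (θ + M) (by omega); omega)
      simp only [hP]; exact_mod_cast sub_nonneg.2 this
    have d0 : 0 ≤ ∑ b ∈ s, r θ b := sum_nonneg fun b _ => by simp only [hr]; split_ifs <;> simp
    have ψ0 : 0 ≤ ψ θ := le_max_left _ _
    have ψ1 : (n : ℝ) - 2 * c θ ≤ n * ψ θ := by
      have : 1 - 2 * x θ ≤ ψ θ := le_max_right _ _
      have h2 : (n : ℝ) - 2 * c θ = n * (1 - 2 * x θ) := by simp only [hx]; field_simp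
      rw [h2]; exact mul_le_mul_of_nonneg_left this hnR.le
    rcases le_or_gt (c θ) k with hk | hk
    · have hPd : P θ ≤ ∑ b ∈ s, r θ b := by
        simp only [hr]
        rw [← sum_filter, sum_const, nsmul_eq_mul, mul_one]
        have := card_le_card_of_injOn (s := Ioc (X (N θ + k)) (X (N (θ + M) + k)))
          (t := s.filter fun b => N (min θ b) + n - N (max θ b + M) ≤ k)
          (fun φ => if φ ≤ v + 2 * M then φ - M else φ - 2 * M) ?_ ?_
        · rw [Int.card_Ioc] at this
          have h2 := Int.self_le_toNat (X (N (θ + M) + k) - X (N θ + k))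
          simp only [hP]
          exact_mod_cast le_trans h2 (by exact_mod_cast this)
        all_goals
          have key : ∀ φ ∈ Ioc (X (N θ + k)) (X (N (θ + M) + k)), N θ + k < N φ ∧
              N φ ≤ N (θ + M) + k ∧ θ + M < φ ∧ φ < θ + 2 * M := by
            intro φ hφ
            obtain ⟨f1, f2⟩ := mem_Ioc.1 hφ
            have g1 : ¬ (N φ ≤ N θ + k) := by rw [hN]; omega
            have g2 := (hN φ _).2 f2
            simp only [hc] at hk
            refine ⟨by omega, g2, ?_, ?_⟩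
            · by_contra h; have := Nm φ (θ + M) (by omega); omega
            · by_contra h; have := Nm (θ + 2 * M) φ (by omega); rw [Np] at this; omega
        · intro φ hφ
          obtain ⟨g1, g2, g3, g4⟩ := key φ (mem_coe.1 hφ)
          simp only [coe_filter, Set.mem_ofPred_eq, hs, mem_Ioc]
          split_ifs with h
          · rw [min_eq_left (by omega), max_eq_right (by omega), sub_add_cancel]; omega
          · rw [min_eq_right (by omega), max_eq_left (by omega)]
            have := Np (φ - 2 * M)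
            rw [sub_add_cancel] at this
            omega
        · intro φ hφ φ' hφ' h
          obtain ⟨g1, g2, g3, g4⟩ := key φ (mem_coe.1 hφ)
          obtain ⟨g1', g2', g3', g4'⟩ := key φ' (mem_coe.1 hφ')
          simp only at h
          split_ifs at h <;> omega
      calc _ ≤ P θ * (n * ψ θ) := mul_le_mul_of_nonneg_left ψ1 P0
        _ ≤ (∑ b ∈ s, r θ b) * (n * ψ θ) := mul_le_mul_of_nonneg_right hPd (by positivity)
        _ = _ := by ring
    · have : (n : ℝ) - 2 * c θ ≤ 0 := by
        have : (n : ℤ) - 2 * c θ ≤ 0 := by omega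
        exact_mod_cast this
      have := mul_nonpos_of_nonneg_of_nonpos P0 this
      have : 0 ≤ n * ((∑ b ∈ s, r θ b) * ψ θ) := by positivity
      linarith
  have s1 := sum_le_sum Pb
  rw [← mul_sum] at s1
  have s2 : ∑ a ∈ s, x a ^ 2 = (∑ a ∈ s, (c a : ℝ) ^ 2) / n ^ 2 := by
    rw [sum_div]; exact sum_congr rfl fun a _ => by simp only [hx]; ring
  have s3 : ∑ a ∈ s, (c a : ℝ) ≤ ∑ a ∈ s, (c a : ℝ) ^ 2 := by
    refine sum_le_sum fun a _ => ?_
    have := Int.le_self_sq (c a)
    exact_mod_cast this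
  show _ + ∑ j ∈ range n, (g j / (2 * M)) * ∑ i ∈ range n, (dz M (X i) (X j) : ℝ) ≤ _
  rw [t1, t2, dv, sum_sub_distrib, sum_add_distrib, ← mul_sum, ← sum_div, ← mul_sum, ← sum_div]
  rw [s2] at man
  set Q := ∑ a ∈ s, (c a : ℝ) ^ 2
  set C := ∑ a ∈ s, (c a : ℝ)
  set L := ∑ a ∈ s, (∑ b ∈ s, r a b) * ψ a
  set W := ∑ θ ∈ s, P θ * (n - 2 * c θ)
  have s4 : n * L ≤ 4 * M * Q / (n + 1) := by
    rw [le_div_iff₀ (by positivity)]
    have := mul_le_mul_of_nonneg_left man (show (0 : ℝ) ≤ n ^ 2 by positivity)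
    field_simp at this
    field_simp
    linarith
  have s5 : W / (2 * M) ≤ 2 * Q / (n + 1) := by
    rw [div_le_iff₀ (by positivity)]
    calc W ≤ 4 * M * Q / (n + 1) := le_trans s1 s4
      _ = _ := by ring
  have s6 : 2 * Q / (n + 1) - 2 * Q / n = -(2 / (n * (n + 1))) * Q := by field_simp; ring
  have s7 := mul_le_mul_of_nonneg_left s3 (show (0 : ℝ) ≤ 2 / (n * (n + 1)) by positivity)
  linarith

end Pool.Agent.H5.Pcd
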