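import Mathlib

set_option autoImplicit false

namespace Pool.Agent.H5.Pcd

/-- Distance on the circle of length 1 between points given by representatives. -/
noncomputable def cd (u v : ℝ) : ℝ := min |u - v| (1 - |u - v|)

/-- Social cost of the point `v` for the profile `b`. -/
noncomputable def scPt {n : ℕ} (b : Fin n → ℝ) (v : ℝ) : ℝ := ∑ i, cd (b i) v

/-- Optimal social cost. -/
noncomputable def opt {n : ℕ} (b : Fin n → ℝ) : ℝ :=
  sInf (scPt b '' Set.Icc (-1 / 2) (1 / 2))

/-- Social cost of random dictator: the report of each agent is chosen with probability `1/n`. -/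
noncomputable def scRD {n : ℕ} (b : Fin n → ℝ) : ℝ := ∑ j, (1 / (n : ℝ)) * scPt b (b j)

/-- For increasingly sorted representatives `x`, the length of the arc from the `i`-th report to
the next one in cyclic order. -/
noncomputable def gap {m : ℕ} (x : Fin (m + 1) → ℝ) (i : Fin (m + 1)) : ℝ :=
  if i = Fin.last m then 1 + x 0 - x i else x (i + 1) - x i

/-- Social cost of PCD; `a` lists the agents in cyclic order. The arc opposing `a j` runs from
the report of `a (j + k)` to the report of `a (j + k + 1) = a (j - k)`. -/
noncomputable def scPCD {k : ℕ} (b : Fin (2 * k + 1) → ℝ) (a : Equiv.Perm (Fin (2 * k + 1))) : ℝ :=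
  ∑ j, (gap (b ∘ a) (j + Fin.ofNat _ k) / ∑ i, gap (b ∘ a) (i + Fin.ofNat _ k)) * scPt b (b (a j))

end Pool.Agent.H5.Pcd
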