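import Pool.Agent.H5.Pcd2
import Pool.Agent.H5.PcdDefs

set_option autoImplicit false

namespace Pool.Agent.H5.Pcd
open Finset Filter Topology

def fin (m : ℕ) (t : ℤ) : Fin (m + 1) :=
  ⟨(t % (m + 1 : ℕ)).toNat, by
    have h1 := Int.emod_lt_of_pos t (show (0 : ℤ) < (m + 1 : ℕ) by positivity)
    omega⟩

def lift {m : ℕ} (M : ℤ) (p : Fin (m + 1) → ℤ) (t : ℤ) : ℤ :=
  p (fin m t) + 2 * M * (t / (m + 1 : ℕ))

theorem lift_succ {m : ℕ} (M : ℤ) (p : Fin (m + 1) → ℤ) (t : ℤ) :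
    lift M p (t + 1) - lift M p t =
      if fin m t = Fin.last m then 2 * M + p 0 - p (fin m t) else p (fin m t + 1) - p (fin m t) := by
  have hn : (0 : ℤ) < (m + 1 : ℕ) := by positivity
  have h0 := Int.emod_nonneg t hn.ne'
  have h1 := Int.emod_lt_of_pos t hn
  have h2 := Int.emod_add_mul_ediv t (m + 1 : ℕ)
  unfold lift
  split_ifs with h
  · have h3 : t % (m + 1 : ℕ) = m := by
      have := congrArg Fin.val h
      simp only [fin, Fin.val_last] at this; omega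
    have := (Int.ediv_emod_unique (a := t + 1) (r := 0) (q := t / (m + 1 : ℕ) + 1) hn).2
      ⟨by rw [mul_add]; push_cast at *; omega, le_rfl, hn⟩
    have e : fin m (t + 1) = 0 := Fin.ext (by simp only [fin, this.2]; rfl)
    rw [this.1, e]; ring
  · have h3 : t % (m + 1 : ℕ) ≠ m := by
      intro h3; apply h; apply Fin.ext
      simp only [fin, Fin.val_last]; omega
    have := (Int.ediv_emod_unique (a := t + 1) (r := t % (m + 1 : ℕ) + 1)
      (q := t / (m + 1 : ℕ)) hn).2 ⟨by omega, by omega, by push_cast at *; omega⟩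
    have e : fin m (t + 1) = fin m t + 1 := by
      apply Fin.ext
      rw [Fin.val_add_one_of_lt (Fin.lt_last_iff_ne_last.2 h)]
      simp only [fin, this.2]; omega
    rw [this.1, e]; ring

theorem lift_per {m : ℕ} (M : ℤ) (p : Fin (m + 1) → ℤ) (t : ℤ) :
    lift M p (t + (m + 1 : ℕ)) = lift M p t + 2 * M := by
  have hn : ((m + 1 : ℕ) : ℤ) ≠ 0 := by positivity
  unfold lift
  have e : fin m (t + (m + 1 : ℕ)) = fin m t := Fin.ext (by simp only [fin, Int.add_emod_right])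
  have := Int.add_mul_ediv_right t 1 hn
  rw [one_mul] at this
  rw [e, this]; ring

theorem lift_fin {m : ℕ} (M : ℤ) (p : Fin (m + 1) → ℤ) (i : Fin (m + 1)) :
    lift M p (i.val : ℤ) = p i := by
  have h := i.isLt
  unfold lift
  have e : fin m i.val = i := Fin.ext (by
    simp only [fin]; rw [Int.emod_eq_of_lt (by omega) (by omega)]; rfl)
  rw [e, Int.ediv_eq_zero_of_lt (by omega) (by omega)]; ring

theorem cd_grid (M : ℤ) (hM : 0 < M) (a b : ℤ) :
    cd ((a : ℝ) / (2 * M)) ((b : ℝ) / (2 * M)) = (dz M a b : ℝ) / (2 * M) := by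
  have hMR : (0 : ℝ) < 2 * M := by positivity
  unfold cd dz
  push_cast
  rw [← sub_div, abs_div, abs_of_pos hMR, ← min_div_div_right hMR.le, sub_div (2 * (M : ℝ)),
    div_self hMR.ne']

noncomputable def lhs {k : ℕ} (x : Fin (2 * k + 1) → ℝ) : ℝ :=
  ∑ j, (1 / ((2 * k + 1 : ℕ) : ℝ)) * scPt x (x j) + ∑ j, gap x (j + Fin.ofNat _ k) * scPt x (x j)

theorem grid (k : ℕ) (M : ℤ) (hM : 0 < M) (p : Fin (2 * k + 1) → ℤ) (hp : Monotone p)
    (hb : ∀ i, -M ≤ p i ∧ p i ≤ M) (w : ℤ) (hw : -M ≤ w ∧ w ≤ M) :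
    lhs (fun i => (p i : ℝ) / (2 * M)) ≤
      (3 - 2 / (((2 * k + 1 : ℕ) : ℝ) * ((2 * k + 1 : ℕ) + 1))) *
        scPt (fun i => (p i : ℝ) / (2 * M)) ((w : ℝ) / (2 * M)) := by
  have hMR : (0 : ℝ) < 2 * M := by positivity
  have hX : Monotone (lift M p) := by
    apply monotone_int_of_le_succ
    intro t
    have := lift_succ M p t
    split_ifs at this with h
    · have := hb 0; have := hb (fin (2 * k) t); omega
    · have := hp (Fin.lt_add_one_iff.2 (Fin.lt_last_iff_ne_last.2 h)).le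
      omega
  have h := disc k M hM (lift M p) hX (lift_per M p) w (by
    intro i hi
    have := lift_fin M p ⟨i, mem_range.1 hi⟩
    simp only at this
    rw [this, abs_le]
    have := hb ⟨i, mem_range.1 hi⟩; omega)
  have conv : ∀ f : ℕ → ℝ, ∑ j ∈ range (2 * k + 1), f j = ∑ j : Fin (2 * k + 1), f j :=
    fun f => (Fin.sum_univ_eq_sum_range f _).symm
  simp only [conv, lift_fin] at h
  have hg : ∀ j : Fin (2 * k + 1), gap (fun i => (p i : ℝ) / (2 * M)) (j + Fin.ofNat _ k) =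
      ((lift M p (j + k + 1) - lift M p (j + k) : ℤ) : ℝ) / (2 * M) := by
    intro j
    have e : fin (2 * k) (j + k) = j + Fin.ofNat _ k := by
      apply Fin.ext
      simp only [fin, Fin.val_add, Fin.ofNat, Nat.add_mod_mod]
      rw [← Nat.cast_add, ← Int.natCast_mod, Int.toNat_natCast]
    rw [lift_succ, e]
    unfold gap
    split_ifs <;> push_cast <;> field_simp
  unfold lhs scPt
  simp only [cd_grid M hM, hg, ← sum_div]
  have := div_le_div_of_nonneg_right h hMR.le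
  rw [add_div, sum_div, sum_div, mul_div_assoc] at this
  simp only [mul_div_assoc] at this
  exact this

theorem floor_tendsto (x : ℝ) :
    Tendsto (fun M : ℕ => ((⌊2 * ((M + 1 : ℕ) : ℝ) * x⌋ : ℤ) : ℝ) / (2 * (((M + 1 : ℕ) : ℤ) : ℝ)))
      atTop (𝓝 x) := by
  have h0 : Tendsto (fun M : ℕ => x - 1 / ((M : ℝ) + 1)) atTop (𝓝 x) := by
    simpa using (tendsto_one_div_add_atTop_nhds_zero_nat (𝕜 := ℝ)).const_sub x
  refine tendsto_of_tendsto_of_tendsto_of_le_of_le h0 tendsto_const_nhds ?_ ?_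
  · intro M
    have := Int.sub_one_lt_floor (2 * ((M + 1 : ℕ) : ℝ) * x)
    push_cast at this ⊢
    rw [le_div_iff₀ (by positivity), sub_mul]
    have e : 1 / ((M : ℝ) + 1) * (2 * (M + 1)) = 2 := by field_simp
    rw [e]; linarith
  · intro M
    have := Int.floor_le (2 * ((M + 1 : ℕ) : ℝ) * x)
    push_cast at this ⊢
    rw [div_le_iff₀ (by positivity)]; linarith

theorem floor_bd (M : ℕ) (x : ℝ) (h : x ∈ Set.Icc (-1 / 2 : ℝ) (1 / 2)) :
    -((M + 1 : ℕ) : ℤ) ≤ ⌊2 * ((M + 1 : ℕ) : ℝ) * x⌋ ∧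
      ⌊2 * ((M + 1 : ℕ) : ℝ) * x⌋ ≤ ((M + 1 : ℕ) : ℤ) := by
  obtain ⟨h1, h2⟩ := h
  have h0 : (0 : ℝ) ≤ M := by positivity
  constructor
  · rw [Int.le_floor]; push_cast; nlinarith
  · rw [Int.floor_le_iff]; push_cast; nlinarith

theorem real_ineq (k : ℕ) (x : Fin (2 * k + 1) → ℝ) (hx : Monotone x)
    (hb : ∀ i, x i ∈ Set.Icc (-1 / 2 : ℝ) (1 / 2)) (v : ℝ) (hv : v ∈ Set.Icc (-1 / 2 : ℝ) (1 / 2)) :
    lhs x ≤ (3 - 2 / (((2 * k + 1 : ℕ) : ℝ) * ((2 * k + 1 : ℕ) + 1))) * scPt x v := by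
  have c1 : Continuous (lhs (k := k)) := by
    unfold lhs scPt cd gap
    refine Continuous.add (by fun_prop) (continuous_finsetSum _ fun j _ => ?_)
    split_ifs <;> fun_prop
  have c2 : Continuous fun q : (Fin (2 * k + 1) → ℝ) × ℝ =>
      (3 - 2 / (((2 * k + 1 : ℕ) : ℝ) * ((2 * k + 1 : ℕ) + 1))) * scPt q.1 q.2 := by
    unfold scPt cd; fun_prop
  have t1 : Tendsto (fun M : ℕ => fun i =>
      ((⌊2 * ((M + 1 : ℕ) : ℝ) * x i⌋ : ℤ) : ℝ) / (2 * (((M + 1 : ℕ) : ℤ) : ℝ))) atTop (𝓝 x) :=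
    tendsto_pi_nhds.2 fun i => floor_tendsto (x i)
  refine le_of_tendsto_of_tendsto' ((c1.tendsto x).comp t1)
    ((c2.tendsto (x, v)).comp (t1.prodMk_nhds (floor_tendsto v))) fun M => ?_
  exact grid k ((M + 1 : ℕ) : ℤ) (by positivity) (fun i => ⌊2 * ((M + 1 : ℕ) : ℝ) * x i⌋)
    (fun i j h => Int.floor_mono (mul_le_mul_of_nonneg_left (hx h) (by positivity)))
    (fun i => floor_bd M _ (hb i)) _ (floor_bd M v hv)

theorem sum_gap {m : ℕ} (x : Fin (m + 1) → ℝ) : ∑ i, gap x i = 1 := by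
  rw [Fin.sum_univ_castSucc]
  have h1 : ∀ i : Fin m, gap x i.castSucc = x i.succ - x i.castSucc := by
    intro i
    unfold gap
    rw [if_neg (Fin.castSucc_ne_last i), Fin.coeSucc_eq_succ]
  have h2 := Fin.sum_univ_castSucc x
  have h3 := Fin.sum_univ_succ x
  simp only [h1, sum_sub_distrib]
  unfold gap
  rw [if_pos rfl]; linarith

theorem main (k : ℕ) (b : Fin (2 * k + 1) → ℝ) (hb : ∀ i, b i ∈ Set.Icc (-1 / 2 : ℝ) (1 / 2))
    (a : Equiv.Perm (Fin (2 * k + 1))) (ha : Monotone (b ∘ a)) (ho : 0 < opt b) :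
    (1 / 2 * scRD b + 1 / 2 * scPCD b a) / opt b < 3 / 2 := by
  have e1 : ∀ v, scPt (b ∘ a) v = scPt b v := fun v => Equiv.sum_comp a (fun i => cd (b i) v)
  have e2 : ∑ i, gap (b ∘ a) (i + Fin.ofNat _ k) = 1 := by
    rw [← sum_gap (b ∘ a)]
    exact Equiv.sum_comp (Equiv.addRight (Fin.ofNat _ k)) (gap (b ∘ a))
  have e3 : scRD b + scPCD b a = lhs (b ∘ a) := by
    unfold scRD scPCD lhs
    simp only [e1, e2, div_one, Function.comp]
    rw [← Equiv.sum_comp a (fun j => 1 / ((2 * k + 1 : ℕ) : ℝ) * scPt b (b j))]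
  set η : ℝ := 2 / (((2 * k + 1 : ℕ) : ℝ) * ((2 * k + 1 : ℕ) + 1)) with hη
  have η0 : 0 < η := by positivity
  have η1 : η ≤ 2 := by
    rw [hη, div_le_iff₀ (by positivity)]; push_cast
    have : (0 : ℝ) ≤ k := by positivity
    nlinarith
  have h : lhs (b ∘ a) / (3 - η) ≤ opt b := by
    refine le_csInf ⟨_, 0, by norm_num, rfl⟩ ?_
    rintro _ ⟨v, hv, rfl⟩
    rw [div_le_iff₀ (by linarith), ← e1, mul_comm (scPt _ _)]
    exact real_ineq k (b ∘ a) ha (fun i => hb _) v hv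
  rw [div_le_iff₀ (by linarith)] at h
  rw [div_lt_iff₀ ho]
  nlinarith

end Pool.Agent.H5.Pcd
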