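import Pool.Agent.H5.PermGameDefs

set_option autoImplicit false

namespace Pool.Agent.H5.PermGame

open Pool.Agent.H5.PermGameDefs

lemma dual (N r : ℕ) (w : List (Fin N)) : BWins N r w ↔ ¬ AWins N r w := by
  induction r generalizing w with
  | zero => rfl
  | succ r ih =>
    simp only [AWins, BWins]
    split_ifs <;> simp [ih]

lemma strat (N : ℕ) (I : List (Fin N) → Prop) (h0 : I [])
    (hA : ∀ a v, I a → a.length < N → a.length % 2 = 0 → v ∉ a → I (a ++ [v]))
    (hB : ∀ a, I a → a.length < N → a.length % 2 = 1 → ∃ v, v ∉ a ∧ I (a ++ [v]))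
    (H : Subgroup (Equiv.Perm (Fin N))) (hH : H ≠ ⊤)
    (hI : ∀ σ : Equiv.Perm (Fin N), I (List.ofFn σ) → σ ∈ H) : BWins N (2 * N) [] := by
  have second : ∀ r a b, a.length = N → b.length + r = N → I a → I b → BWins N r (a ++ b) := by
    intro r
    induction r with
    | zero =>
      rintro a b ha hb ia ib ⟨σ, τ, e, hc⟩
      obtain ⟨rfl, rfl⟩ := List.append_inj e (by simp [ha])
      apply hH
      rw [eq_top_iff, ← hc, Subgroup.closure_le]
      rintro _ (rfl | rfl)
      · exact hI _ ia
      · exact hI _ ib
    | succ r ih =>
      intro a b ha hb ia ib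
      have hc : current N (a ++ b) = b := by
        simp [current, ha]
      simp only [BWins, hc]
      split_ifs with h
      · intro v hv
        rw [List.append_assoc]
        exact ih a _ ha (by simp; omega) ia (hA b v ib (by omega) h hv)
      · obtain ⟨v, hv, iv⟩ := hB b ib (by omega) (by omega)
        refine ⟨v, hv, ?_⟩
        rw [List.append_assoc]
        exact ih a _ ha (by simp; omega) ia iv
  have first : ∀ r a, a.length + r = N → I a → BWins N (N + r) a := by
    intro r
    induction r with
    | zero =>
      intro a ha ia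
      simpa using second N a [] ha (by simp) ia h0
    | succ r ih =>
      intro a ha ia
      have hc : current N a = a := by
        simp [current, show a.length < N by omega]
      rw [← add_assoc]
      simp only [BWins, hc]
      split_ifs with h
      · intro v hv
        exact ih _ (by simp; omega) (hA a v ia (by omega) h hv)
      · obtain ⟨v, hv, iv⟩ := hB a ia (by omega) (by omega)
        exact ⟨v, hv, ih _ (by simp; omega) iv⟩
  rw [two_mul]
  exact first N [] (by simp) h0

lemma exists_two {N : ℕ} (a : List (Fin N)) (h : a.length + 2 ≤ N) :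
    ∃ x y, x ≠ y ∧ x ∉ a ∧ y ∉ a := by
  have h1 : 1 < (a.toFinsetᶜ).card := by
    rw [Finset.card_compl, Fintype.card_fin]
    have := List.toFinset_card_le a
    omega
  obtain ⟨x, hx, y, hy, hxy⟩ := Finset.one_lt_card.1 h1
  exact ⟨x, y, hxy, by simpa using hx, by simpa using hy⟩

lemma exists_one {N : ℕ} (a : List (Fin N)) (h : a.length < N) : ∃ x, x ∉ a := by
  have h1 : 0 < (a.toFinsetᶜ).card := by
    rw [Finset.card_compl, Fintype.card_fin]
    have := List.toFinset_card_le a
    omega
  obtain ⟨x, hx⟩ := Finset.card_pos.1 h1
  exact ⟨x, by simpa using hx⟩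

def Ext {N : ℕ} (a : List (Fin N)) (σ : Equiv.Perm (Fin N)) : Prop :=
  ∀ i : Fin N, i.val < a.length → a[i.val]? = some (σ i)

lemma odd_case (N : ℕ) (h3 : 3 ≤ N) (ho : N % 2 = 1) : BWins N (2 * N) [] := by
  refine strat N (fun a => N ≤ a.length + 1 → ∀ σ, Ext a σ → Equiv.Perm.sign σ = 1)
    (fun h => by simp at h; omega) ?_ ?_ (alternatingGroup (Fin N)) ?_ ?_
  · intro a v ia hl he hv hN σ hσ
    simp only [List.length_append, List.length_singleton] at hN
    refine ia (by omega) σ fun i hi => ?_
    rw [← hσ i (by simp; omega), List.getElem?_append_left hi]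
  · intro a ia hl he
    by_cases hN : N ≤ a.length + 2
    · have hN' : a.length + 2 = N := by omega
      obtain ⟨x, y, hxy, hx, hy⟩ := exists_two a hN'.le
      by_contra hc
      push Not at hc
      obtain ⟨-, σ, hσ, sσ⟩ := hc x hx
      obtain ⟨-, τ, hτ, sτ⟩ := hc y hy
      let i : Fin N := ⟨a.length, by omega⟩
      let j : Fin N := ⟨a.length + 1, by omega⟩
      have hij : i ≠ j := by simp [i, j]
      have h1 : ∀ k : Fin N, k.val < a.length → σ k = τ k := by
        intro k hk
        have e1 := hσ k (by simp; omega)
        have e2 := hτ k (by simp; omega)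
        rw [List.getElem?_append_left hk] at e1 e2
        exact Option.some.inj (e1.symm.trans e2)
      have h2 : σ i = x := by simpa [i] using (hσ i (by simp [i])).symm
      have h4 : τ i = y := by simpa [i] using (hτ i (by simp [i])).symm
      have tri : ∀ k : Fin N, k.val < a.length ∨ k = i ∨ k = j := by
        intro k
        have := k.2
        simp only [i, j, Fin.ext_iff]
        omega
      have h5 : τ i = σ j := by
        obtain ⟨k, hk⟩ := σ.surjective (τ i)
        rcases tri k with h | rfl | rfl
        · rw [h1 k h] at hk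
          have := τ.injective hk
          rw [this] at h
          simp [i] at h
        · exact absurd (h2.symm.trans (hk.trans h4)) hxy
        · exact hk.symm
      have h6 : τ j = σ i := by
        obtain ⟨k, hk⟩ := σ.surjective (τ j)
        rcases tri k with h | rfl | rfl
        · rw [h1 k h] at hk
          have := τ.injective hk
          rw [this] at h
          simp [j] at h
        · exact hk.symm
        · exact absurd (τ.injective (h5.trans hk)) hij
      have h7 : τ = σ * Equiv.swap i j := by
        ext1 k
        rcases tri k with h | rfl | rfl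
        · rw [Equiv.Perm.mul_apply, Equiv.swap_apply_of_ne_of_ne, h1 k h]
          · rintro rfl; simp [i] at h
          · rintro rfl; simp [j] at h
        · simp [h5]
        · simp [h6]
      rw [h7, map_mul, Equiv.Perm.sign_swap hij] at sτ
      rcases Int.units_eq_one_or (Equiv.Perm.sign σ) with h | h
      · exact sσ h
      · simp [h] at sτ
    · obtain ⟨v, hv⟩ := exists_one a hl
      exact ⟨v, hv, fun h => by simp at h; omega⟩
  · intro e
    have : Equiv.swap (⟨0, by omega⟩ : Fin N) ⟨1, by omega⟩ ∈ alternatingGroup (Fin N) := by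
      rw [e]; trivial
    rw [Equiv.Perm.mem_alternatingGroup, Equiv.Perm.sign_swap (by simp)] at this
    simp at this
  · intro σ h
    exact h (by simp) σ (fun i hi => by simp)

lemma nd {α : Type} {a : List α} {v : α} (hv : v ∉ a) : ∀ x ∈ a, ∀ y ∈ [v], x ≠ y := by
  intro x hx y hy e
  rw [List.mem_singleton.1 hy] at e
  exact hv (e ▸ hx)

def par {N : ℕ} (he : N % 2 = 0) (v : Fin N) : Fin N :=
  ⟨if v.val % 2 = 0 then v.val + 1 else v.val - 1, by have := v.2; split_ifs <;> omega⟩

lemma par_par {N : ℕ} (he : N % 2 = 0) (v : Fin N) : par he (par he v) = v := by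
  simp only [par, Fin.ext_iff]
  split_ifs <;> omega

lemma par_ne {N : ℕ} (he : N % 2 = 0) (v : Fin N) : par he v ≠ v := by
  simp only [par, Ne, Fin.ext_iff]
  split_ifs <;> omega

lemma even_case (N : ℕ) (h3 : 3 ≤ N) (he : N % 2 = 0) : BWins N (2 * N) [] := by
  let π : Equiv.Perm (Fin N) := Function.Involutive.toPerm (par he) (par_par he)
  refine strat N (fun a => a.Nodup ∧ ∀ i, 2 * i + 1 < a.length →
      a[2 * i + 1]? = a[2 * i]?.map (par he))
    (by simp) ?_ ?_ (Subgroup.centralizer {π}) ?_ ?_
  · rintro a v ⟨n, ia⟩ hl h hv
    refine ⟨List.nodup_append.2 ⟨n, by simp, nd hv⟩, fun i hi => ?_⟩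
    simp only [List.length_append, List.length_singleton] at hi
    rw [List.getElem?_append_left (by omega), List.getElem?_append_left (by omega)]
    exact ia i (by omega)
  · rintro a ⟨n, ia⟩ hl h
    have hv : par he (a[a.length - 1]'(by omega)) ∉ a := by
      intro hm
      obtain ⟨j, hj, e⟩ := List.mem_iff_getElem.1 hm
      have inj : ∀ (p q : ℕ) (hp : p < a.length) (hq : q < a.length), a[p] = a[q] → p = q :=
        fun p q hp hq e => (List.Nodup.getElem_inj_iff n).1 e
      by_cases hj1 : j = a.length - 1
      · subst hj1
        exact par_ne he _ e.symm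
      · rcases Nat.even_or_odd' j with ⟨k, rfl | rfl⟩
        · have h1 := ia k (by omega)
          rw [List.getElem?_eq_getElem (by omega), List.getElem?_eq_getElem hj, e] at h1
          simp only [Option.map_some, par_par, Option.some.injEq] at h1
          have := inj _ _ _ _ h1
          omega
        · have h1 := ia k hj
          rw [List.getElem?_eq_getElem hj, List.getElem?_eq_getElem (by omega), e] at h1
          simp only [Option.map_some, Option.some.injEq] at h1
          have := inj _ _ _ _ (π.injective h1)
          omega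
    refine ⟨_, hv, List.nodup_append.2 ⟨n, by simp, nd hv⟩,
      fun i hi => ?_⟩
    simp only [List.length_append, List.length_singleton] at hi
    by_cases hi2 : 2 * i + 1 < a.length
    · rw [List.getElem?_append_left (by omega), List.getElem?_append_left (by omega)]
      exact ia i hi2
    · have e : a.length - 1 = 2 * i := by omega
      rw [List.getElem?_append_right (by omega), List.getElem?_append_left (by omega),
        List.getElem?_eq_getElem (show 2 * i < a.length by omega)]
      simp [show 2 * i + 1 - a.length = 0 by omega, e]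
  · intro e
    have : Equiv.swap (⟨0, by omega⟩ : Fin N) ⟨2, by omega⟩ ∈ Subgroup.centralizer {π} := by
      rw [e]; trivial
    have h1 := congrArg (fun g : Equiv.Perm (Fin N) => g ⟨0, by omega⟩) (this π rfl)
    have hπ : ∀ x, π x = par he x := fun _ => rfl
    simp only [Equiv.Perm.mul_apply, Equiv.swap_apply_left, hπ] at h1
    rw [Equiv.swap_apply_of_ne_of_ne (by simp [par]) (by simp [par])] at h1
    simp [par] at h1
  · rintro σ ⟨-, h⟩ g rfl
    have h1 : ∀ x : Fin N, x.val % 2 = 0 → σ (par he x) = par he (σ x) := by
      intro x hx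
      have hx2 := x.2
      have h2 := h (x.val / 2) (by simp; omega)
      rw [show 2 * (x.val / 2) = x.val by omega] at h2
      simp only [List.getElem?_ofFn, x.2, show x.val + 1 < N by omega, dif_pos, Option.map_some,
        Option.some.injEq] at h2
      rw [← h2]
      simp [par, hx]
    ext1 x
    change par he (σ x) = σ (par he x)
    by_cases hx : x.val % 2 = 0
    · exact (h1 x hx).symm
    · have h2 := h1 (par he x) (by simp only [par]; split_ifs; omega)
      rw [par_par] at h2
      rw [h2, par_par]

lemma one : AWins 1 2 [] := by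
  refine ⟨0, by simp [current], 0, by simp [current], 1, 1, by decide, Subsingleton.elim _ _⟩

lemma two : AWins 2 4 [] := by
  have key : Generates 2 [1, 0, 1, 0] := by
    refine ⟨Equiv.swap 0 1, Equiv.swap 0 1, by decide, ?_⟩
    rw [eq_top_iff]
    rintro g -
    have : g = 1 ∨ g = Equiv.swap 0 1 := by revert g; decide
    rcases this with rfl | rfl
    · exact one_mem _
    · exact Subgroup.subset_closure (by simp)
  refine ⟨1, by simp [current], fun v hv => ?_⟩
  obtain rfl : v = 0 := by revert v; decide
  refine ⟨1, by simp [current], fun v hv => ?_⟩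
  obtain rfl : v = 0 := by revert v; decide
  exact key

theorem main (N : ℕ) (hN : 1 ≤ N) :
    (AWins N (2 * N) [] ↔ N ≤ 2) ∧ (BWins N (2 * N) [] ↔ 3 ≤ N) := by
  have hB : 3 ≤ N → BWins N (2 * N) [] := fun h => by
    rcases Nat.mod_two_eq_zero_or_one N with e | e
    · exact even_case N h e
    · exact odd_case N h e
  have hA : N ≤ 2 → AWins N (2 * N) [] := fun h => by
    obtain rfl | rfl : N = 1 ∨ N = 2 := by omega
    · exact one
    · exact two
  refine ⟨⟨fun h => ?_, hA⟩, ⟨fun h => ?_, hB⟩⟩
  · by_contra hc
    exact (dual _ _ _).1 (hB (by omega)) h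
  · by_contra hc
    exact (dual _ _ _).1 h (hA (by omega))

end Pool.Agent.H5.PermGame
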