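import Mathlib

set_option autoImplicit false

namespace Pool.Agent.H5.PermGameDefs

/-- The part of the history `w` (all entries chosen so far) belonging to the word being built. -/
def current (N : ℕ) (w : List (Fin N)) : List (Fin N) := if w.length < N then w else w.drop N

/-- The finished play `w` is the word of `σ` followed by the word of `τ`, and they generate. -/
def Generates (N : ℕ) (w : List (Fin N)) : Prop :=
  ∃ σ τ : Equiv.Perm (Fin N), w = List.ofFn σ ++ List.ofFn τ ∧
    Subgroup.closure ({σ, τ} : Set (Equiv.Perm (Fin N))) = ⊤

/-- Convention I: A can force a win from history `w` with `r` moves left. A moves when an even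
number of entries of the current word is filled (odd positions, counted from 1). -/
def AWins (N : ℕ) : ℕ → List (Fin N) → Prop
  | 0, w => Generates N w
  | r + 1, w =>
    if (current N w).length % 2 = 0 then ∃ v, v ∉ current N w ∧ AWins N r (w ++ [v])
    else ∀ v, v ∉ current N w → AWins N r (w ++ [v])

/-- Convention I: B can force a win from history `w` with `r` moves left. -/
def BWins (N : ℕ) : ℕ → List (Fin N) → Prop
  | 0, w => ¬ Generates N w
  | r + 1, w =>
    if (current N w).length % 2 = 0 then ∀ v, v ∉ current N w → BWins N r (w ++ [v])
    else ∃ v, v ∉ current N w ∧ BWins N r (w ++ [v])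

end Pool.Agent.H5.PermGameDefs
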