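import Pool.Agent.H5.PolyFace

set_option autoImplicit false

namespace Pool.Agent.H5.PolyAmb

open Pool.Agent.H5.PolyDefs Pool.Agent.H5.PolyFace

def V1 : Fin 10 → Fin 4 → ℤ :=
  ![![1, -1, -1, 2],
    ![1, 1, -1, 2],
    ![-1, -2, 1, 2],
    ![1, -2, 1, 1],
    ![-1, -2, -2, 2],
    ![1, -2, 0, -1],
    ![-1, 2, -1, 1],
    ![0, 2, -2, 0],
    ![0, 2, 1, 1],
    ![0, -1, -2, -1]]

def C1 : Fin 10 → Fin 10 → Fin 4 → ℤ :=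
  ![![![1, -1, 0, 2], ![1, 0, -1, 1], ![2, -2, 1, 5], ![1, -1, 0, 1], ![1, -1, -1, 1], ![2, -1, -1, 0], ![0, 0, 0, 0], ![13, -1, -24, 4], ![0, 0, 0, 0], ![2, -1, -2, 0]],
    ![![1, 0, -1, 1], ![1, 1, -1, 1], ![-2, 2, 1, 7], ![5, 1, 2, 1], ![0, 1, -3, 3], ![4, 1, 0, -1], ![0, 2, -1, 2], ![1, 1, -2, 1], ![1, 1, 1, 2], ![20, 1, -10, -4]],
    ![![2, -2, 1, 5], ![-2, 2, 1, 7], ![-1, -1, 1, 0], ![0, -1, 1, 0], ![-1, -1, 0, 0], ![-1, -1, 1, -1], ![-3, 1, 1, 2], ![0, 0, 0, 0], ![-2, 1, 2, 2], ![-5, -1, 1, -3]],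
    ![![1, -1, 0, 1], ![5, 1, 2, 1], ![0, -1, 1, 0], ![1, -1, 1, 0], ![2, -4, -1, 1], ![1, -1, 0, 0], ![0, 0, 0, 0], ![0, 0, 0, 0], ![0, 0, 3, -1], ![0, 0, 0, 0]],
    ![![1, -1, -1, 1], ![0, 1, -3, 3], ![-1, -1, 0, 0], ![2, -4, -1, 1], ![-1, -1, -1, 0], ![1, -2, -1, 0], ![-2, 1, -2, 2], ![-2, 1, -4, 1], ![0, 0, 0, 0], ![-2, -1, -2, -1]],
    ![![2, -1, -1, 0], ![4, 1, 0, -1], ![-1, -1, 1, -1], ![1, -1, 0, 0], ![1, -2, -1, 0], ![0, -1, 0, -1], ![0, 0, 0, 0], ![2, 1, 0, -2], ![1, 1, 1, -2], ![-1, -1, 0, -1]],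
    ![![0, 0, 0, 0], ![0, 2, -1, 2], ![-3, 1, 1, 2], ![0, 0, 0, 0], ![-2, 1, -2, 2], ![0, 0, 0, 0], ![-1, 1, -1, 1], ![-1, 1, -1, 0], ![-2, 1, 1, -2], ![-2, 0, 0, -1]],
    ![![13, -1, -24, 4], ![1, 1, -2, 1], ![0, 0, 0, 0], ![0, 0, 0, 0], ![-2, 1, -4, 1], ![2, 1, 0, -2], ![-1, 1, -1, 0], ![-1, 1, -1, -1], ![1, 2, 0, 0], ![1, 0, -2, 0]],
    ![![0, 0, 0, 0], ![1, 1, 1, 2], ![-2, 1, 2, 2], ![0, 0, 3, -1], ![0, 0, 0, 0], ![1, 1, 1, -2], ![-2, 1, 1, -2], ![1, 2, 0, 0], ![-1, 1, 1, -1], ![-7, 2, 4, -9]],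
    ![![2, -1, -2, 0], ![20, 1, -10, -4], ![-5, -1, 1, -3], ![0, 0, 0, 0], ![-2, -1, -2, -1], ![-1, -1, 0, -1], ![-2, 0, 0, -1], ![1, 0, -2, 0], ![-7, 2, 4, -9], ![-1, -1, -1, -1]]]

def W1 : Fin 10 → Fin 10 → Fin 10 → ℤ :=
  ![![![0, 0, 0, 0, 0, 0, 0, 0, 0, 0], ![0, 0, 0, 0, 0, 0, 0, 0, 0, 0], ![0, 0, 0, 0, 0, 0, 0, 0, 0, 0], ![0, 0, 0, 0, 0, 0, 0, 0, 0, 0], ![0, 0, 0, 0, 0, 0, 0, 0, 0, 0], ![0, 0, 0, 0, 0, 0, 0, 0, 0, 0], ![45, -39, -4, 0, -14, -6, 18, 0, 0, 0], ![0, 0, 0, 0, 0, 0, 0, 0, 0, 0], ![33, -27, -2, -12, -4, 0, 0, 0, 12, 0], ![0, 0, 0, 0, 0, 0, 0, 0, 0, 0]],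
    ![![0, 0, 0, 0, 0, 0, 0, 0, 0, 0], ![0, 0, 0, 0, 0, 0, 0, 0, 0, 0], ![0, 0, 0, 0, 0, 0, 0, 0, 0, 0], ![0, 0, 0, 0, 0, 0, 0, 0, 0, 0], ![0, 0, 0, 0, 0, 0, 0, 0, 0, 0], ![0, 0, 0, 0, 0, 0, 0, 0, 0, 0], ![0, 0, 0, 0, 0, 0, 0, 0, 0, 0], ![0, 0, 0, 0, 0, 0, 0, 0, 0, 0], ![0, 0, 0, 0, 0, 0, 0, 0, 0, 0], ![0, 0, 0, 0, 0, 0, 0, 0, 0, 0]],
    ![![0, 0, 0, 0, 0, 0, 0, 0, 0, 0], ![0, 0, 0, 0, 0, 0, 0, 0, 0, 0], ![0, 0, 0, 0, 0, 0, 0, 0, 0, 0], ![0, 0, 0, 0, 0, 0, 0, 0, 0, 0], ![0, 0, 0, 0, 0, 0, 0, 0, 0, 0], ![0, 0, 0, 0, 0, 0, 0, 0, 0, 0], ![0, 0, 0, 0, 0, 0, 0, 0, 0, 0], ![-4, 0, 14, -5, 0, 0, -23, 26, 0, -8], ![0, 0, 0, 0, 0, 0, 0, 0, 0, 0], ![0, 0, 0, 0, 0, 0, 0, 0, 0, 0]],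
    ![![0, 0, 0, 0, 0, 0, 0, 0, 0, 0], ![0, 0, 0, 0, 0, 0, 0, 0, 0, 0], ![0, 0, 0, 0, 0, 0, 0, 0, 0, 0], ![0, 0, 0, 0, 0, 0, 0, 0, 0, 0], ![0, 0, 0, 0, 0, 0, 0, 0, 0, 0], ![0, 0, 0, 0, 0, 0, 0, 0, 0, 0], ![-28, 0, -24, 71, 0, -26, 41, 0, -34, 0], ![-40, 0, -5, 78, 0, -43, 0, 41, -31, 0], ![0, 0, 0, 0, 0, 0, 0, 0, 0, 0], ![-11, -3, -10, 36, 0, -32, 0, 0, 0, 20]],
    ![![0, 0, 0, 0, 0, 0, 0, 0, 0, 0], ![0, 0, 0, 0, 0, 0, 0, 0, 0, 0], ![0, 0, 0, 0, 0, 0, 0, 0, 0, 0], ![0, 0, 0, 0, 0, 0, 0, 0, 0, 0], ![0, 0, 0, 0, 0, 0, 0, 0, 0, 0], ![0, 0, 0, 0, 0, 0, 0, 0, 0, 0], ![0, 0, 0, 0, 0, 0, 0, 0, 0, 0], ![0, 0, 0, 0, 0, 0, 0, 0, 0, 0], ![-12, 0, -14, -3, 26, 0, -27, 0, 30, 0], ![0, 0, 0, 0, 0, 0, 0, 0, 0, 0]],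
    ![![0, 0, 0, 0, 0, 0, 0, 0, 0, 0], ![0, 0, 0, 0, 0, 0, 0, 0, 0, 0], ![0, 0, 0, 0, 0, 0, 0, 0, 0, 0], ![0, 0, 0, 0, 0, 0, 0, 0, 0, 0], ![0, 0, 0, 0, 0, 0, 0, 0, 0, 0], ![0, 0, 0, 0, 0, 0, 0, 0, 0, 0], ![-1, 0, -11, 0, 0, 65, 75, 0, -57, -71], ![0, 0, 0, 0, 0, 0, 0, 0, 0, 0], ![0, 0, 0, 0, 0, 0, 0, 0, 0, 0], ![0, 0, 0, 0, 0, 0, 0, 0, 0, 0]],
    ![![45, -39, -4, 0, -14, -6, 18, 0, 0, 0], ![0, 0, 0, 0, 0, 0, 0, 0, 0, 0], ![0, 0, 0, 0, 0, 0, 0, 0, 0, 0], ![-28, 0, -24, 71, 0, -26, 41, 0, -34, 0], ![0, 0, 0, 0, 0, 0, 0, 0, 0, 0], ![-1, 0, -11, 0, 0, 65, 75, 0, -57, -71], ![0, 0, 0, 0, 0, 0, 0, 0, 0, 0], ![0, 0, 0, 0, 0, 0, 0, 0, 0, 0], ![0, 0, 0, 0, 0, 0, 0, 0, 0, 0], ![0, 0, 0, 0, 0, 0, 0, 0, 0, 0]],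
    ![![0, 0, 0, 0, 0, 0, 0, 0, 0, 0], ![0, 0, 0, 0, 0, 0, 0, 0, 0, 0], ![-4, 0, 14, -5, 0, 0, -23, 26, 0, -8], ![-40, 0, -5, 78, 0, -43, 0, 41, -31, 0], ![0, 0, 0, 0, 0, 0, 0, 0, 0, 0], ![0, 0, 0, 0, 0, 0, 0, 0, 0, 0], ![0, 0, 0, 0, 0, 0, 0, 0, 0, 0], ![0, 0, 0, 0, 0, 0, 0, 0, 0, 0], ![0, 0, 0, 0, 0, 0, 0, 0, 0, 0], ![0, 0, 0, 0, 0, 0, 0, 0, 0, 0]],
    ![![33, -27, -2, -12, -4, 0, 0, 0, 12, 0], ![0, 0, 0, 0, 0, 0, 0, 0, 0, 0], ![0, 0, 0, 0, 0, 0, 0, 0, 0, 0], ![0, 0, 0, 0, 0, 0, 0, 0, 0, 0], ![-12, 0, -14, -3, 26, 0, -27, 0, 30, 0], ![0, 0, 0, 0, 0, 0, 0, 0, 0, 0], ![0, 0, 0, 0, 0, 0, 0, 0, 0, 0], ![0, 0, 0, 0, 0, 0, 0, 0, 0, 0], ![0, 0, 0, 0, 0, 0, 0, 0, 0, 0], ![0, 0, 0, 0, 0, 0, 0, 0, 0, 0]],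
    ![![0, 0, 0, 0, 0, 0, 0, 0, 0, 0], ![0, 0, 0, 0, 0, 0, 0, 0, 0, 0], ![0, 0, 0, 0, 0, 0, 0, 0, 0, 0], ![-11, -3, -10, 36, 0, -32, 0, 0, 0, 20], ![0, 0, 0, 0, 0, 0, 0, 0, 0, 0], ![0, 0, 0, 0, 0, 0, 0, 0, 0, 0], ![0, 0, 0, 0, 0, 0, 0, 0, 0, 0], ![0, 0, 0, 0, 0, 0, 0, 0, 0, 0], ![0, 0, 0, 0, 0, 0, 0, 0, 0, 0], ![0, 0, 0, 0, 0, 0, 0, 0, 0, 0]]]

def U1 : Fin 4 → Fin 10 → ℤ :=
  ![![0, 3, 2, 0, 4, 0, 0, 0, 0, 0],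
    ![0, -6, 0, 0, 0, 0, 0, 0, 0, 0],
    ![0, 0, -4, 0, 4, 0, 0, 0, 0, 0],
    ![0, 6, -8, 12, 8, 0, 0, 0, 0, 0]]

def D1 : ℤ := -12

def V2 : Fin 10 → Fin 4 → ℤ :=
  ![![-1, 2, 1, 0],
    ![-1, -2, 2, 1],
    ![-2, 0, -2, 1],
    ![-2, -1, 1, 0],
    ![-1, 2, 1, 1],
    ![0, 0, 2, -2],
    ![2, -2, 1, 1],
    ![2, 0, 2, -1],
    ![2, -2, 2, -1],
    ![2, 1, -2, 2]]

def C2 : Fin 10 → Fin 10 → Fin 4 → ℤ :=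
  ![![![-1, 1, 0, -1], ![-14, 5, 21, -1], ![-2, 2, -1, -1], ![-3, 1, 0, -2], ![-1, 1, 0, 0], ![-1, 1, 1, -1], ![0, 0, 0, 0], ![1, 2, 0, -1], ![0, 0, 0, 0], ![1, 3, -2, -3]],
    ![![-14, 5, 21, -1], ![-1, -1, 0, 1], ![-2, -1, 0, 2], ![-1, -1, 0, 0], ![-4, 1, 4, 2], ![-1, -1, 2, -1], ![0, -1, 0, 1], ![0, 1, 5, 1], ![0, -1, 1, 0], ![0, 0, 1, 4]],
    ![![-2, 2, -1, -1], ![-2, -1, 0, 2], ![-1, -1, -1, -1], ![-1, 0, 0, 0], ![-2, 1, 0, 1], ![-1, 0, -1, -2], ![0, -3, -2, 0], ![0, 0, 0, 0], ![0, -1, -1, -1], ![0, -1, -1, 1]],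
    ![![-3, 1, 0, -2], ![-1, -1, 0, 0], ![-1, 0, 0, 0], ![-1, -1, 0, -1], ![-4, 1, 1, 1], ![-1, 0, 0, -1], ![0, 0, 0, 0], ![0, 0, 0, 0], ![-1, -3, -1, -2], ![0, 0, 0, 0]],
    ![![-1, 1, 0, 0], ![-4, 1, 4, 2], ![-2, 1, 0, 1], ![-4, 1, 1, 1], ![-1, 1, 0, 1], ![-1, 3, 10, 1], ![4, 3, 6, 7], ![1, 1, 3, 2], ![0, 0, 0, 0], ![0, 1, 0, 1]],
    ![![-1, 1, 1, -1], ![-1, -1, 2, -1], ![-1, 0, -1, -2], ![-1, 0, 0, -1], ![-1, 3, 10, 1], ![-1, 0, 1, -1], ![0, 0, 0, 0], ![1, 1, -1, -2], ![-1, -2, 1, -2], ![1, 2, -2, -3]],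
    ![![0, 0, 0, 0], ![0, -1, 0, 1], ![0, -3, -2, 0], ![0, 0, 0, 0], ![4, 3, 6, 7], ![0, 0, 0, 0], ![1, -1, 0, 1], ![2, 1, 2, 2], ![1, -1, 0, 0], ![1, -1, -1, 0]],
    ![![1, 2, 0, -1], ![0, 1, 5, 1], ![0, 0, 0, 0], ![0, 0, 0, 0], ![1, 1, 3, 2], ![1, 1, -1, -2], ![2, 1, 2, 2], ![1, 1, 0, -1], ![1, 0, 0, -1], ![2, 1, 1, 1]],
    ![![0, 0, 0, 0], ![0, -1, 1, 0], ![0, -1, -1, -1], ![-1, -3, -1, -2], ![0, 0, 0, 0], ![-1, -2, 1, -2], ![1, -1, 0, 0], ![1, 0, 0, -1], ![0, -1, 0, -1], ![2, -2, -3, -2]],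
    ![![1, 3, -2, -3], ![0, 0, 1, 4], ![0, -1, -1, 1], ![0, 0, 0, 0], ![0, 1, 0, 1], ![1, 2, -2, -3], ![1, -1, -1, 0], ![2, 1, 1, 1], ![2, -2, -3, -2], ![0, 0, -1, 1]]]

def W2 : Fin 10 → Fin 10 → Fin 10 → ℤ :=
  ![![![0, 0, 0, 0, 0, 0, 0, 0, 0, 0], ![0, 0, 0, 0, 0, 0, 0, 0, 0, 0], ![0, 0, 0, 0, 0, 0, 0, 0, 0, 0], ![0, 0, 0, 0, 0, 0, 0, 0, 0, 0], ![0, 0, 0, 0, 0, 0, 0, 0, 0, 0], ![0, 0, 0, 0, 0, 0, 0, 0, 0, 0], ![46, -4, -9, 0, -30, 0, 20, -23, 0, 0], ![0, 0, 0, 0, 0, 0, 0, 0, 0, 0], ![18, -2, -2, -10, 0, 0, 0, -29, 25, 0], ![0, 0, 0, 0, 0, 0, 0, 0, 0, 0]],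
    ![![0, 0, 0, 0, 0, 0, 0, 0, 0, 0], ![0, 0, 0, 0, 0, 0, 0, 0, 0, 0], ![0, 0, 0, 0, 0, 0, 0, 0, 0, 0], ![0, 0, 0, 0, 0, 0, 0, 0, 0, 0], ![0, 0, 0, 0, 0, 0, 0, 0, 0, 0], ![0, 0, 0, 0, 0, 0, 0, 0, 0, 0], ![0, 0, 0, 0, 0, 0, 0, 0, 0, 0], ![0, 0, 0, 0, 0, 0, 0, 0, 0, 0], ![0, 0, 0, 0, 0, 0, 0, 0, 0, 0], ![0, 0, 0, 0, 0, 0, 0, 0, 0, 0]],
    ![![0, 0, 0, 0, 0, 0, 0, 0, 0, 0], ![0, 0, 0, 0, 0, 0, 0, 0, 0, 0], ![0, 0, 0, 0, 0, 0, 0, 0, 0, 0], ![0, 0, 0, 0, 0, 0, 0, 0, 0, 0], ![0, 0, 0, 0, 0, 0, 0, 0, 0, 0], ![0, 0, 0, 0, 0, 0, 0, 0, 0, 0], ![0, 0, 0, 0, 0, 0, 0, 0, 0, 0], ![-8, 0, 49, 0, 0, -86, -28, 113, 0, -40], ![0, 0, 0, 0, 0, 0, 0, 0, 0, 0], ![0, 0, 0, 0, 0, 0, 0, 0, 0, 0]],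
    ![![0, 0, 0, 0, 0, 0, 0, 0, 0, 0], ![0, 0, 0, 0, 0, 0, 0, 0, 0, 0], ![0, 0, 0, 0, 0, 0, 0, 0, 0, 0], ![0, 0, 0, 0, 0, 0, 0, 0, 0, 0], ![0, 0, 0, 0, 0, 0, 0, 0, 0, 0], ![0, 0, 0, 0, 0, 0, 0, 0, 0, 0], ![-4, -64, -35, 86, 0, 0, 58, 0, -41, 0], ![-4, -44, -19, 80, 0, -50, 0, 37, 0, 0], ![0, 0, 0, 0, 0, 0, 0, 0, 0, 0], ![-13, -69, -71, 149, 0, -33, 0, 0, 0, 37]],
    ![![0, 0, 0, 0, 0, 0, 0, 0, 0, 0], ![0, 0, 0, 0, 0, 0, 0, 0, 0, 0], ![0, 0, 0, 0, 0, 0, 0, 0, 0, 0], ![0, 0, 0, 0, 0, 0, 0, 0, 0, 0], ![0, 0, 0, 0, 0, 0, 0, 0, 0, 0], ![0, 0, 0, 0, 0, 0, 0, 0, 0, 0], ![0, 0, 0, 0, 0, 0, 0, 0, 0, 0], ![0, 0, 0, 0, 0, 0, 0, 0, 0, 0], ![-2, -1, 0, 0, 3, 0, -1, -2, 3, 0], ![0, 0, 0, 0, 0, 0, 0, 0, 0, 0]],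
    ![![0, 0, 0, 0, 0, 0, 0, 0, 0, 0], ![0, 0, 0, 0, 0, 0, 0, 0, 0, 0], ![0, 0, 0, 0, 0, 0, 0, 0, 0, 0], ![0, 0, 0, 0, 0, 0, 0, 0, 0, 0], ![0, 0, 0, 0, 0, 0, 0, 0, 0, 0], ![0, 0, 0, 0, 0, 0, 0, 0, 0, 0], ![-19, -3, -5, 0, 0, 43, 39, 0, -55, 0], ![0, 0, 0, 0, 0, 0, 0, 0, 0, 0], ![0, 0, 0, 0, 0, 0, 0, 0, 0, 0], ![0, 0, 0, 0, 0, 0, 0, 0, 0, 0]],
    ![![46, -4, -9, 0, -30, 0, 20, -23, 0, 0], ![0, 0, 0, 0, 0, 0, 0, 0, 0, 0], ![0, 0, 0, 0, 0, 0, 0, 0, 0, 0], ![-4, -64, -35, 86, 0, 0, 58, 0, -41, 0], ![0, 0, 0, 0, 0, 0, 0, 0, 0, 0], ![-19, -3, -5, 0, 0, 43, 39, 0, -55, 0], ![0, 0, 0, 0, 0, 0, 0, 0, 0, 0], ![0, 0, 0, 0, 0, 0, 0, 0, 0, 0], ![0, 0, 0, 0, 0, 0, 0, 0, 0, 0], ![0, 0, 0, 0, 0, 0, 0, 0, 0, 0]],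
    ![![0, 0, 0, 0, 0, 0, 0, 0, 0, 0], ![0, 0, 0, 0, 0, 0, 0, 0, 0, 0], ![-8, 0, 49, 0, 0, -86, -28, 113, 0, -40], ![-4, -44, -19, 80, 0, -50, 0, 37, 0, 0], ![0, 0, 0, 0, 0, 0, 0, 0, 0, 0], ![0, 0, 0, 0, 0, 0, 0, 0, 0, 0], ![0, 0, 0, 0, 0, 0, 0, 0, 0, 0], ![0, 0, 0, 0, 0, 0, 0, 0, 0, 0], ![0, 0, 0, 0, 0, 0, 0, 0, 0, 0], ![0, 0, 0, 0, 0, 0, 0, 0, 0, 0]],
    ![![18, -2, -2, -10, 0, 0, 0, -29, 25, 0], ![0, 0, 0, 0, 0, 0, 0, 0, 0, 0], ![0, 0, 0, 0, 0, 0, 0, 0, 0, 0], ![0, 0, 0, 0, 0, 0, 0, 0, 0, 0], ![-2, -1, 0, 0, 3, 0, -1, -2, 3, 0], ![0, 0, 0, 0, 0, 0, 0, 0, 0, 0], ![0, 0, 0, 0, 0, 0, 0, 0, 0, 0], ![0, 0, 0, 0, 0, 0, 0, 0, 0, 0], ![0, 0, 0, 0, 0, 0, 0, 0, 0, 0], ![0, 0, 0, 0, 0, 0, 0, 0, 0, 0]],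
    ![![0, 0, 0, 0, 0, 0, 0, 0, 0, 0], ![0, 0, 0, 0, 0, 0, 0, 0, 0, 0], ![0, 0, 0, 0, 0, 0, 0, 0, 0, 0], ![-13, -69, -71, 149, 0, -33, 0, 0, 0, 37], ![0, 0, 0, 0, 0, 0, 0, 0, 0, 0], ![0, 0, 0, 0, 0, 0, 0, 0, 0, 0], ![0, 0, 0, 0, 0, 0, 0, 0, 0, 0], ![0, 0, 0, 0, 0, 0, 0, 0, 0, 0], ![0, 0, 0, 0, 0, 0, 0, 0, 0, 0], ![0, 0, 0, 0, 0, 0, 0, 0, 0, 0]]]

def U2 : Fin 4 → Fin 10 → ℤ :=
  ![![0, -9, -3, 14, 12, 0, 0, 0, 0, 0],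
    ![0, 3, 1, -1, -4, 0, 0, 0, 0, 0],
    ![0, 1, 4, -4, -5, 0, 0, 0, 0, 0],
    ![0, 0, 0, 0, -11, 0, 0, 0, 0, 0]]

def D2 : ℤ := -11

def A : Fin 10 → Fin 10 → Bool :=
  ![![true, true, true, true, true, true, false, true, false, true],
    ![true, true, true, true, true, true, true, true, true, true],
    ![true, true, true, true, true, true, true, false, true, true],
    ![true, true, true, true, true, true, false, false, true, false],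
    ![true, true, true, true, true, true, true, true, false, true],
    ![true, true, true, true, true, true, false, true, true, true],
    ![false, true, true, false, true, false, true, true, true, true],
    ![true, true, false, false, true, true, true, true, true, true],
    ![false, true, true, true, false, true, true, true, true, true],
    ![true, true, true, false, true, true, true, true, true, true]]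

def cT : Fin 4 → ℤ := ![1, 0, 1, 2]

def wT : Fin 10 → ℤ := ![45, 14, 1, -12, -37, -11, 0, 0, 0, 0]

def c1 : Fin 10 → ℕ := ![8, 10, 9, 7, 9, 9, 7, 8, 8, 9]
def c2 : Fin 10 → ℕ := ![69, 84, 76, 60, 76, 77, 60, 68, 67, 77]
def c3 : Fin 10 → ℕ := ![587, 714, 646, 509, 647, 654, 508, 578, 569, 654]
def c4 : Fin 10 → ℕ := ![4989, 6066, 5488, 4326, 5497, 5558, 4316, 4911, 4832, 5557]

lemma asym (π : Equiv.Perm (Fin 10)) (h : ∀ a b, A (π a) (π b) = A a b) : ∀ a, π a = a := by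
  have step : ∀ c c' : Fin 10 → ℕ, (∀ i, c' i = ∑ j, if A i j then c j else 0) →
      (∀ i, c (π i) = c i) → ∀ i, c' (π i) = c' i := by
    intro c c' h1 h2 i
    rw [h1, h1, ← Equiv.sum_comp π]
    simp only [h, h2]
  have s1 := step (fun _ => 1) c1 (by decide +kernel) (fun _ => rfl)
  have s2 := step c1 c2 (by decide +kernel) s1
  have s3 := step c2 c3 (by decide +kernel) s2
  have s4 := step c3 c4 (by decide +kernel) s3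
  have inj : ∀ a b, c4 a = c4 b → a = b := by decide +kernel
  exact fun a => inj _ _ (s4 a)

structure OK (V : Fin 10 → Fin 4 → ℤ) : Prop where
  face : ∀ a b, IsFace V {a, b} ↔ A a b = true
  gen : ∀ a b c, a ≠ b → a ≠ c → b ≠ c → ∃ k l,
      (V b k - V a k) * (V c l - V a l) ≠ (V b l - V a l) * (V c k - V a k)

lemma ok_of (V : Fin 10 → Fin 4 → ℤ) (C : Fin 10 → Fin 10 → Fin 4 → ℤ)
    (W : Fin 10 → Fin 10 → Fin 10 → ℤ)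
    (h1 : ∀ a b, A a b = true → ∀ i, (i = a ∨ i = b) ↔
      ∀ j, ∑ k, C a b k * V j k ≤ ∑ k, C a b k * V i k)
    (h2 : ∀ a b, A a b = false → ∑ i, W a b i = 0 ∧ (∀ k, ∑ i, W a b i * V i k = 0) ∧
      (∀ i, ¬ (i = a ∨ i = b) → W a b i ≤ 0) ∧ ∃ i, ¬ (i = a ∨ i = b) ∧ W a b i < 0)
    (h3 : ∀ a b c, a ≠ b → a ≠ c → b ≠ c → ∃ k l,
      (V b k - V a k) * (V c l - V a l) ≠ (V b l - V a l) * (V c k - V a k)) : OK V := by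
  refine ⟨fun a b => ⟨fun h => ?_, fun h => ?_⟩, h3⟩
  · by_contra hA
    obtain ⟨e1, e2, e3, e4⟩ := h2 a b (by simpa using hA)
    exact not_isFace V {a, b} a (by simp) (W a b) e1 e2 (by simpa using e3) (by simpa using e4) h
  · exact isFace_of_func V _ (C a b) (by simpa using h1 a b h)

lemma ok1 : OK V1 := ok_of V1 C1 W1 (by decide +kernel) (by decide +kernel) (by decide +kernel)
lemma ok2 : OK V2 := ok_of V2 C2 W2 (by decide +kernel) (by decide +kernel) (by decide +kernel)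

lemma A_refl : ∀ a, A a a = true := by decide

def good (T : Finset (Fin 10)) : Prop := T = ∅ ∨ ∃ a b, A a b = true ∧ T = {a, b}

lemma good_iff {V : Fin 10 → Fin 4 → ℤ} (h : OK V) (T : Finset (Fin 10)) :
    good T ↔ IsFace V T ∧ T.card ≤ 2 := by
  constructor
  · rintro (rfl | ⟨a, b, hab, rfl⟩)
    · exact ⟨isFace_empty V, by simp⟩
    · exact ⟨(h.face a b).2 hab, Finset.card_le_two⟩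
  · rintro ⟨h1, h2⟩
    obtain h0 | h0 | h0 : T.card = 0 ∨ T.card = 1 ∨ T.card = 2 := by omega
    · exact Or.inl (Finset.card_eq_zero.1 h0)
    · obtain ⟨a, rfl⟩ := Finset.card_eq_one.1 h0
      exact Or.inr ⟨a, a, A_refl a, by simp⟩
    · obtain ⟨a, b, -, rfl⟩ := Finset.card_eq_two.1 h0
      exact Or.inr ⟨a, b, (h.face a b).1 h1, rfl⟩

lemma skel_iso {V : Fin 10 → Fin 4 → ℤ} (h : OK V) : Nonempty (Skel 1 (hull V) ≃o {T // good T}) :=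
  iso V _ good (fun _ hF => hF.1)
    (fun F hF => (good_iff h _).2 ⟨⟨F, hF.1, rfl⟩, card_le_two h.gen hF.2⟩)
    (fun T hT => by
      obtain ⟨⟨F, hF, rfl⟩, h2⟩ := (good_iff h _).1 hT
      exact ⟨F, ⟨hF, finrank_le hF h2⟩, rfl⟩)

lemma face_iso (V : Fin 10 → Fin 4 → ℤ) : Nonempty (Face (hull V) ≃o {T // IsFace V T}) :=
  iso V _ (IsFace V) (fun _ hF => hF) (fun F hF => ⟨F, hF, rfl⟩) (fun _ hT => hT)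

lemma rigid {p q : Finset (Fin 10) → Prop} (p0 : p ∅) (q0 : q ∅)
    (p2 : ∀ a b, p {a, b} ↔ A a b = true) (q2 : ∀ a b, q {a, b} ↔ A a b = true)
    (σ : {T // p T} ≃o {T // q T}) (T : {T // p T}) : (σ T).1 = T.1 := by
  obtain ⟨π, hπ⟩ := perm_of_iso p0 q0 (fun i => by simpa using (p2 i i).2 (A_refl i))
    (fun i => by simpa using (q2 i i).2 (A_refl i)) σ
  have h1 : ∀ a b, A (π a) (π b) = A a b := by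
    intro a b
    rw [Bool.eq_iff_iff, ← q2, ← p2]
    constructor
    · intro h
      have : (σ.symm ⟨_, h⟩).1 = {a, b} := by
        ext j
        rw [← hπ, OrderIso.apply_symm_apply]
        simp
      rw [← this]
      exact (σ.symm ⟨_, h⟩).2
    · intro h
      have : (σ ⟨_, h⟩).1 = {π a, π b} := by
        ext j
        obtain ⟨j, rfl⟩ := π.surjective j
        rw [hπ]
        simp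
      rw [← this]
      exact (σ ⟨_, h⟩).2
  ext j
  rw [← hπ T j, asym π h1 j]

lemma good_pair (a b : Fin 10) : good {a, b} ↔ A a b = true := by
  rw [good_iff ok1, ok1.face]
  exact ⟨fun h => h.1, fun h => ⟨h, Finset.card_le_two⟩⟩

theorem not_equiv : IsEmpty (Face (hull V1) ≃o Face (hull V2)) := by
  refine ⟨fun τ => ?_⟩
  obtain ⟨e1⟩ := face_iso V1
  obtain ⟨e2⟩ := face_iso V2
  have hT : IsFace V1 {0, 1, 2, 3} := isFace_of_func V1 _ cT (by decide +kernel)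
  have := rigid (isFace_empty V1) (isFace_empty V2) ok1.face ok2.face
    ((e1.symm.trans τ).trans e2) ⟨_, hT⟩
  refine not_isFace V2 {0, 1, 2, 3} 0 (by simp) wT (by decide +kernel) (by decide +kernel)
    (by decide +kernel) (by decide +kernel) ?_
  have h2 := (((e1.symm.trans τ).trans e2) ⟨_, hT⟩).2
  rwa [this] at h2

theorem skel_equiv : Nonempty (Skel 1 (hull V1) ≃o Skel 1 (hull V2)) := by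
  obtain ⟨e1⟩ := skel_iso ok1
  obtain ⟨e2⟩ := skel_iso ok2
  exact ⟨e1.trans e2.symm⟩

theorem self_trivial {α : Type} [LE α] (e : α ≃o Skel 1 (hull V1)) (σ : α ≃o α) (x : α) :
    σ x = x := by
  obtain ⟨e1⟩ := skel_iso ok1
  have := rigid (Or.inl rfl) (Or.inl rfl) good_pair good_pair
    (((e.trans e1).symm.trans σ).trans (e.trans e1)) ((e.trans e1) x)
  apply (e.trans e1).injective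
  apply Subtype.ext
  simpa using this

lemma poly1 : IsPolytope 4 (hull V1) := isPolytope V1 0 D1 (by decide) U1 (by decide +kernel)
lemma poly2 : IsPolytope 4 (hull V2) := isPolytope V2 0 D2 (by decide) U2 (by decide +kernel)

end Pool.Agent.H5.PolyAmb
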