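import Mathlib

set_option autoImplicit false

namespace Pool.Agent.H5.PolyDefs

/-- `P` is a `d`-polytope: the convex hull of a nonempty finite set, of dimension `d`. -/
def IsPolytope (d : ℕ) {m : ℕ} (P : Set (EuclideanSpace ℝ (Fin m))) : Prop :=
  (∃ S : Finset (EuclideanSpace ℝ (Fin m)), S.Nonempty ∧ P = convexHull ℝ (S : Set _)) ∧
    Module.finrank ℝ (vectorSpan ℝ P) = d

/-- The complex of all faces of `P` (exposed subsets, including the empty set and `P`),
ordered by inclusion. -/
abbrev Face {m : ℕ} (P : Set (EuclideanSpace ℝ (Fin m))) : Type :=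
  {F : Set (EuclideanSpace ℝ (Fin m)) // IsExposed ℝ P F}

/-- The `k`-skeleton of `P`: faces of dimension at most `k`, ordered by inclusion. -/
abbrev Skel (k : ℕ) {m : ℕ} (P : Set (EuclideanSpace ℝ (Fin m))) : Type :=
  {F : Set (EuclideanSpace ℝ (Fin m)) // IsExposed ℝ P F ∧ Module.finrank ℝ (vectorSpan ℝ F) ≤ k}

end Pool.Agent.H5.PolyDefs
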