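import Pool.Agent.H5.PolyDefs

set_option autoImplicit false

namespace Pool.Agent.H5.PolyFace

open Pool.Agent.H5.PolyDefs

variable {n m : ℕ}

noncomputable def pt (V : Fin n → Fin m → ℤ) (i : Fin n) : EuclideanSpace ℝ (Fin m) :=
  WithLp.toLp 2 (fun k => (V i k : ℝ))

def hull (V : Fin n → Fin m → ℤ) : Set (EuclideanSpace ℝ (Fin m)) :=
  convexHull ℝ (Set.range (pt V))

open Classical in
noncomputable def S (V : Fin n → Fin m → ℤ) (F : Set (EuclideanSpace ℝ (Fin m))) : Finset (Fin n) :=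
  Finset.univ.filter (fun i => pt V i ∈ F)

lemma mem_S {V : Fin n → Fin m → ℤ} {F : Set (EuclideanSpace ℝ (Fin m))} {i : Fin n} :
    i ∈ S V F ↔ pt V i ∈ F := by simp [S]

lemma pt_mem (V : Fin n → Fin m → ℤ) (i : Fin n) : pt V i ∈ hull V :=
  subset_convexHull ℝ _ ⟨i, rfl⟩

lemma le_of_vertices (V : Fin n → Fin m → ℤ) (l : StrongDual ℝ (EuclideanSpace ℝ (Fin m))) (c : ℝ)
    (h : ∀ i, l (pt V i) ≤ c) : ∀ y ∈ hull V, l y ≤ c := by
  intro y hy
  refine convexHull_min (t := {y | l y ≤ c}) ?_ (convex_halfSpace_le l.toLinearMap.isLinear c) hy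
  rintro _ ⟨i, rfl⟩
  exact h i

lemma face_eq {V : Fin n → Fin m → ℤ} {F : Set (EuclideanSpace ℝ (Fin m))}
    (hF : IsExposed ℝ (hull V) F) : F = convexHull ℝ (pt V '' (S V F : Set (Fin n))) := by
  classical
  apply Set.Subset.antisymm
  · intro x hx
    obtain ⟨l, hl⟩ := hF ⟨x, hx⟩
    have hx' := hx
    rw [hl] at hx'
    obtain ⟨ι, _, w, z, hw0, hw1, hz, hs⟩ := mem_convexHull_iff_exists_fintype.1 hx'.1
    have hzP : ∀ i, z i ∈ hull V := fun i => subset_convexHull ℝ _ (hz i)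
    have h0 : ∑ i, w i * (l x - l (z i)) = 0 := by
      have : l x = ∑ i, w i * l (z i) := by
        rw [← hs, map_sum]
        simp
      simp only [mul_sub, Finset.sum_sub_distrib, ← Finset.sum_mul, hw1, ← this]
      ring
    rw [Finset.sum_eq_zero_iff_of_nonneg
      (fun i _ => mul_nonneg (hw0 i) (sub_nonneg.2 (hx'.2 _ (hzP i))))] at h0
    rw [← hs, ← Finset.sum_filter_of_ne (p := fun i => w i ≠ 0)
      (fun i _ hi => left_ne_zero_of_smul hi)]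
    refine (convex_convexHull ℝ _).sum_mem (fun i _ => hw0 i) (by rwa [Finset.sum_filter_ne_zero])
      fun i hi => subset_convexHull ℝ _ ?_
    obtain ⟨j, hj⟩ := hz i
    refine ⟨j, mem_S.2 ?_, hj⟩
    have h1 := (mul_eq_zero.1 (h0 i (Finset.mem_univ _))).resolve_left (Finset.mem_filter.1 hi).2
    rw [hl, hj]
    exact ⟨hzP i, fun y hy => by linarith [hx'.2 y hy]⟩
  · refine convexHull_min ?_ (hF.convex (convex_convexHull ℝ _))
    rintro _ ⟨i, hi, rfl⟩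
    exact mem_S.1 hi

lemma S_le_iff {V : Fin n → Fin m → ℤ} {F F' : Set (EuclideanSpace ℝ (Fin m))}
    (hF : IsExposed ℝ (hull V) F) (hF' : IsExposed ℝ (hull V) F') : S V F ⊆ S V F' ↔ F ⊆ F' := by
  constructor
  · intro h
    rw [face_eq hF, face_eq hF']
    exact convexHull_mono (Set.image_mono h)
  · intro h i hi
    exact mem_S.2 (h (mem_S.1 hi))

lemma iso (V : Fin n → Fin m → ℤ) (r : Set (EuclideanSpace ℝ (Fin m)) → Prop)
    (q : Finset (Fin n) → Prop) (hr : ∀ F, r F → IsExposed ℝ (hull V) F)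
    (h1 : ∀ F, r F → q (S V F)) (h2 : ∀ T, q T → ∃ F, r F ∧ S V F = T) :
    Nonempty ({F // r F} ≃o {T // q T}) :=
  ⟨OrderIso.ofSurjective (OrderEmbedding.ofMapLEIff (fun F => ⟨S V F.1, h1 F.1 F.2⟩)
    (fun F F' => S_le_iff (hr _ F.2) (hr _ F'.2)))
    (fun T => by
      obtain ⟨F, hF, e⟩ := h2 T.1 T.2
      exact ⟨⟨F, hF⟩, Subtype.ext e⟩)⟩

def IsFace (V : Fin n → Fin m → ℤ) (T : Finset (Fin n)) : Prop :=
  ∃ F, IsExposed ℝ (hull V) F ∧ S V F = T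

lemma isFace_empty (V : Fin n → Fin m → ℤ) : IsFace V ∅ :=
  ⟨∅, isExposed_empty, by ext; simp [mem_S]⟩

lemma isFace_of_func (V : Fin n → Fin m → ℤ) (T : Finset (Fin n)) (c : Fin m → ℤ)
    (h : ∀ i, i ∈ T ↔ ∀ j, ∑ k, c k * V j k ≤ ∑ k, c k * V i k) : IsFace V T := by
  let l : StrongDual ℝ (EuclideanSpace ℝ (Fin m)) :=
    innerSL ℝ (WithLp.toLp 2 (fun k => (c k : ℝ)))
  have hl : ∀ i, l (pt V i) = ((∑ k, c k * V i k : ℤ) : ℝ) := by
    intro i
    simp [l, pt, PiLp.inner_apply, mul_comm]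
  refine ⟨l.toExposed (hull V), ContinuousLinearMap.toExposed.isExposed, ?_⟩
  ext i
  rw [mem_S, h]
  constructor
  · intro hi j
    have := hi.2 _ (pt_mem V j)
    rw [hl, hl] at this
    exact_mod_cast this
  · intro hi
    refine ⟨pt_mem V i, le_of_vertices V l _ fun j => ?_⟩
    rw [hl, hl]
    exact_mod_cast hi j

lemma not_isFace (V : Fin n → Fin m → ℤ) (T : Finset (Fin n)) (a : Fin n) (ha : a ∈ T)
    (w : Fin n → ℤ) (h0 : ∑ i, w i = 0) (h1 : ∀ k, ∑ i, w i * V i k = 0)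
    (h2 : ∀ i, i ∉ T → w i ≤ 0) (h3 : ∃ i, i ∉ T ∧ w i < 0) : ¬ IsFace V T := by
  rintro ⟨F, hF, rfl⟩
  obtain ⟨l, hl⟩ := hF ⟨_, mem_S.1 ha⟩
  have hmem : ∀ i, i ∈ S V F ↔ ∀ y ∈ hull V, l y ≤ l (pt V i) := by
    intro i
    rw [mem_S]
    nth_rewrite 1 [hl]
    exact ⟨fun h => h.2, fun h => ⟨pt_mem V i, h⟩⟩
  have hle : ∀ i, l (pt V i) ≤ l (pt V a) := fun i => (hmem a).1 ha _ (pt_mem V i)
  have hz : ∑ i, (w i : ℝ) • pt V i = 0 := by
    ext k
    have : ((∑ i, w i * V i k : ℤ) : ℝ) = 0 := by rw [h1]; simp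
    simpa [pt] using this
  have hs : ∑ i, (w i : ℝ) * (l (pt V i) - l (pt V a)) = 0 := by
    have e1 := congrArg l hz
    have e2 : ∑ i, (w i : ℝ) = 0 := by exact_mod_cast h0
    simp only [map_sum, map_smul, smul_eq_mul, map_zero] at e1
    simp only [mul_sub, Finset.sum_sub_distrib, ← Finset.sum_mul, e1, e2]
    ring
  obtain ⟨j, hj, hwj⟩ := h3
  refine absurd hs (ne_of_gt (Finset.sum_pos' (fun i _ => ?_) ⟨j, Finset.mem_univ _, ?_⟩))
  · by_cases hi : i ∈ S V F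
    · rw [le_antisymm (hle i) ((hmem i).1 hi _ (pt_mem V a))]
      simp
    · exact mul_nonneg_of_nonpos_of_nonpos (by exact_mod_cast h2 i hi) (sub_nonpos.2 (hle i))
  · refine mul_pos_of_neg_of_neg (by exact_mod_cast hwj) (sub_neg.2 (lt_of_le_of_ne (hle j) ?_))
    intro e
    exact hj ((hmem j).2 (by rw [e]; exact (hmem a).1 ha))

lemma card_le_two {V : Fin n → Fin m → ℤ}
    (hV : ∀ a b c, a ≠ b → a ≠ c → b ≠ c → ∃ k l,
      (V b k - V a k) * (V c l - V a l) ≠ (V b l - V a l) * (V c k - V a k))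
    {F : Set (EuclideanSpace ℝ (Fin m))} (h : Module.finrank ℝ (vectorSpan ℝ F) ≤ 1) :
    (S V F).card ≤ 2 := by
  by_contra hc
  obtain ⟨a, b, c, ha, hb, hc, h1, h2, h3⟩ := Finset.two_lt_card_iff.1 (not_le.1 hc)
  obtain ⟨k, l, hkl⟩ := hV a b c h1 h2 h3
  obtain ⟨v, hv⟩ := (collinear_iff_of_mem (mem_S.1 ha)).1 (collinear_iff_finrank_le_one.2 h)
  obtain ⟨r, hr⟩ := hv _ (mem_S.1 hb)
  obtain ⟨s, hs⟩ := hv _ (mem_S.1 hc)
  have e1 := congrArg (fun x : EuclideanSpace ℝ (Fin m) => x k) hr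
  have e2 := congrArg (fun x : EuclideanSpace ℝ (Fin m) => x l) hr
  have e3 := congrArg (fun x : EuclideanSpace ℝ (Fin m) => x k) hs
  have e4 := congrArg (fun x : EuclideanSpace ℝ (Fin m) => x l) hs
  simp only [pt, vadd_eq_add, PiLp.add_apply, PiLp.smul_apply, smul_eq_mul] at e1 e2 e3 e4
  apply hkl
  have : ((V b k : ℝ) - V a k) * (V c l - V a l) = (V b l - V a l) * (V c k - V a k) := by
    rw [e1, e2, e3, e4]; ring
  exact_mod_cast this

lemma vectorSpan_hull (s : Set (EuclideanSpace ℝ (Fin m))) :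
    vectorSpan ℝ (convexHull ℝ s) = vectorSpan ℝ s := by
  rw [← direction_affineSpan, affineSpan_convexHull, direction_affineSpan]

lemma finrank_le {V : Fin n → Fin m → ℤ} {F : Set (EuclideanSpace ℝ (Fin m))}
    (hF : IsExposed ℝ (hull V) F) (h : (S V F).card ≤ 2) :
    Module.finrank ℝ (vectorSpan ℝ F) ≤ 1 := by
  classical
  rw [face_eq hF, vectorSpan_hull, ← Finset.coe_image]
  obtain h0 | h0 | h0 : (S V F).card = 0 ∨ (S V F).card = 0 + 1 ∨ (S V F).card = 1 + 1 := by omega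
  · rw [Finset.card_eq_zero.1 h0, Finset.image_empty, Finset.coe_empty, vectorSpan_empty]
    simp
  · exact (finrank_vectorSpan_image_finset_le ℝ (pt V) _ h0).trans (by norm_num)
  · exact finrank_vectorSpan_image_finset_le ℝ (pt V) _ h0

lemma isPolytope (V : Fin n → Fin m → ℤ) (i0 : Fin n) (D : ℤ) (hD : D ≠ 0) (U : Fin m → Fin n → ℤ)
    (hU : ∀ k q, ∑ i, U k i * (V i q - V i0 q) = if q = k then D else 0) :
    IsPolytope m (hull V) := by
  classical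
  refine ⟨⟨Finset.univ.image (pt V), ⟨pt V i0, by simp⟩, by simp [hull]⟩, ?_⟩
  have : vectorSpan ℝ (hull V) = ⊤ := by
    rw [eq_top_iff, ← (EuclideanSpace.basisFun (Fin m) ℝ).toBasis.span_eq, Submodule.span_le]
    rintro _ ⟨k, rfl⟩
    have h1 : ∑ i, (U k i : ℝ) • (pt V i - pt V i0) ∈ vectorSpan ℝ (hull V) :=
      Submodule.sum_mem _ fun i _ => Submodule.smul_mem _ _
        (vsub_mem_vectorSpan ℝ (pt_mem V i) (pt_mem V i0))
    have h2 : (EuclideanSpace.basisFun (Fin m) ℝ).toBasis k =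
        (D : ℝ)⁻¹ • ∑ i, (U k i : ℝ) • (pt V i - pt V i0) := by
      ext q
      have h3 : ((∑ i, U k i * (V i q - V i0 q) : ℤ) : ℝ) = ((if q = k then D else 0 : ℤ) : ℝ) := by
        rw [hU]
      have hD' : (D : ℝ) ≠ 0 := by exact_mod_cast hD
      push_cast at h3
      simp [pt, h3, Pi.single_apply]
      split_ifs <;> simp [hD']
    rw [SetLike.mem_coe, h2]
    exact Submodule.smul_mem _ _ h1
  rw [this]
  simp

lemma perm_of_iso {p q : Finset (Fin n) → Prop} (p0 : p ∅) (q0 : q ∅) (p1 : ∀ i, p {i})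
    (q1 : ∀ i, q {i}) (σ : {T // p T} ≃o {T // q T}) :
    ∃ π : Equiv.Perm (Fin n), ∀ (T : {T // p T}) (j : Fin n), π j ∈ (σ T).1 ↔ j ∈ T.1 := by
  have atom : ∀ {p q : Finset (Fin n) → Prop} (p0 : p ∅) (q0 : q ∅) (p1 : ∀ i, p {i})
      (q1 : ∀ i, q {i}) (σ : {T // p T} ≃o {T // q T}) (i : Fin n),
      ∃ j, σ ⟨{i}, p1 i⟩ = ⟨{j}, q1 j⟩ := by
    have ne : ∀ {p q : Finset (Fin n) → Prop} (p0 : p ∅) (p1 : ∀ i, p {i})
        (σ : {T // p T} ≃o {T // q T}) (i : Fin n), (σ ⟨{i}, p1 i⟩).1 ≠ ∅ := by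
      intro p q p0 p1 σ i e
      have h1 : σ ⟨{i}, p1 i⟩ ≤ σ ⟨∅, p0⟩ := by
        change (σ ⟨{i}, p1 i⟩).1 ⊆ _
        rw [e]; exact Finset.empty_subset _
      have h2 : ({i} : Finset (Fin n)) ⊆ ∅ := σ.le_iff_le.1 h1
      simp at h2
    intro p q p0 q0 p1 q1 σ i
    obtain ⟨j, hj⟩ := Finset.nonempty_iff_ne_empty.2 (ne p0 p1 σ i)
    refine ⟨j, ?_⟩
    have h1 : (⟨{j}, q1 j⟩ : {T // q T}) ≤ σ ⟨{i}, p1 i⟩ := Finset.singleton_subset_iff.2 hj
    have h2 : (σ.symm ⟨{j}, q1 j⟩).1 ⊆ {i} := σ.symm_apply_le.2 h1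
    rcases Finset.subset_singleton_iff.1 h2 with h | h
    · exact absurd h (ne q0 q1 σ.symm j)
    · have : σ.symm ⟨{j}, q1 j⟩ = ⟨{i}, p1 i⟩ := Subtype.ext h
      rw [← this, OrderIso.apply_symm_apply]
  choose f hf using atom p0 q0 p1 q1 σ
  have hinj : Function.Injective f := by
    intro a b e
    have : σ ⟨{a}, p1 a⟩ = σ ⟨{b}, p1 b⟩ := by rw [hf, hf, e]
    simpa using σ.injective this
  refine ⟨Equiv.ofBijective f (Finite.injective_iff_bijective.1 hinj), fun T j => ?_⟩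
  have h1 : σ ⟨{j}, p1 j⟩ ≤ σ T ↔ (⟨{j}, p1 j⟩ : {T // p T}) ≤ T := σ.le_iff_le
  rw [hf] at h1
  rw [← Finset.singleton_subset_iff, ← Finset.singleton_subset_iff]
  exact h1

end Pool.Agent.H5.PolyFace
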