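import Mathlib

set_option autoImplicit false

namespace Pool.Agent.H5.RatSphere

open scoped InnerProductSpace

def Good (d : ℕ) (c : EuclideanSpace ℝ (Fin d)) (ρ : ℝ) : Prop :=
  ∃ X : Set (EuclideanSpace ℝ (Fin d)), X ⊆ Metric.sphere c ρ ∧ X.Infinite ∧
    (∀ x ∈ X, ∀ y ∈ X, x ≠ y → ∃ q : ℚ, dist x y = q) ∧
    ¬ ∃ (n : EuclideanSpace ℝ (Fin d)) (a : ℝ), n ≠ 0 ∧ ∀ x ∈ X, inner ℝ n x = a

lemma exists_proj : ∃ φ : ℝ →ₗ[ℚ] ℚ, ∀ q : ℚ, φ (q : ℝ) = q := by
  obtain ⟨g, hg⟩ := (Algebra.linearMap ℚ ℝ).exists_leftInverse_of_injective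
    (LinearMap.ker_eq_bot.2 (algebraMap ℚ ℝ).injective)
  exact ⟨g, fun q => by simpa using LinearMap.congr_fun hg q⟩

lemma necess {d : ℕ} {c : EuclideanSpace ℝ (Fin d)} {ρ : ℝ} (h : Good d c ρ) :
    ∃ q : ℚ, ρ ^ 2 = q := by
  classical
  obtain ⟨X, hS, hinf, hq, hH⟩ := h
  obtain ⟨x0, hx0⟩ := hinf.nonempty
  have hq' : ∀ x ∈ X, ∀ y ∈ X, ∃ q : ℚ, ‖x - y‖ = q := by
    intro x hx y hy
    by_cases e : x = y
    · exact ⟨0, by simp [e]⟩
    · simpa [dist_eq_norm] using hq x hx y hy e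
  set V : Set (EuclideanSpace ℝ (Fin d)) := (fun x => x - x0) '' X with hV
  have hspan : Submodule.span ℝ V = ⊤ := by
    by_contra hne
    have : (Submodule.span ℝ V)ᗮ ≠ ⊥ := fun e => hne (Submodule.orthogonal_eq_bot_iff.1 e)
    obtain ⟨n, hn, hn0⟩ := Submodule.exists_mem_ne_zero_of_ne_bot this
    refine hH ⟨n, inner ℝ n x0, hn0, fun x hx => ?_⟩
    have := Submodule.inner_left_of_mem_orthogonal
      (Submodule.subset_span (show x - x0 ∈ V from ⟨x, hx, rfl⟩)) hn
    rw [inner_sub_right] at this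
    linarith
  set u := c - x0 with hu
  have hun : ‖u‖ = ρ := by
    have := hS hx0
    rw [mem_sphere_iff_norm, norm_sub_rev] at this
    exact this
  have hG : ∀ v ∈ V, ∀ w ∈ V, ∃ q : ℚ, inner ℝ v w = (q : ℝ) := by
    rintro _ ⟨x, hx, rfl⟩ _ ⟨y, hy, rfl⟩
    obtain ⟨a, ha⟩ := hq' x hx x0 hx0
    obtain ⟨b, hb⟩ := hq' y hy x0 hx0
    obtain ⟨e, he⟩ := hq' x hx y hy
    refine ⟨(a ^ 2 + b ^ 2 - e ^ 2) / 2, ?_⟩
    have := norm_sub_sq_real (x - x0) (y - x0)
    rw [sub_sub_sub_cancel_right, ha, hb, he] at this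
    push_cast
    linarith
  have hU : ∀ v ∈ V, ∃ q : ℚ, inner ℝ v u = (q : ℝ) := by
    rintro _ ⟨x, hx, rfl⟩
    obtain ⟨a, ha⟩ := hq' x hx x0 hx0
    refine ⟨a ^ 2 / 2, ?_⟩
    have h1 := norm_sub_sq_real (x - x0) u
    have h2 : ‖x - c‖ = ρ := mem_sphere_iff_norm.1 (hS hx)
    rw [hu, sub_sub_sub_cancel_right, ← hu, ha, hun, h2] at h1
    push_cast
    linarith
  have hmem : u ∈ Submodule.span ℝ V := by rw [hspan]; trivial
  obtain ⟨k, l, g, hlg⟩ := Submodule.mem_span_set'.1 hmem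
  obtain ⟨φ, hφ⟩ := exists_proj
  choose G hGe using fun i j : Fin k => hG (g i) (g i).2 (g j) (g j).2
  choose U hUe using fun i : Fin k => hU (g i) (g i).2
  have e1 : ∀ i, ∑ j, G i j • l j = (U i : ℝ) := by
    intro i
    rw [← hUe, ← hlg, inner_sum]
    refine Finset.sum_congr rfl fun j _ => ?_
    rw [inner_smul_right, hGe, Rat.smul_def, mul_comm]
  have e2 : ∀ i, ∑ j, G i j * φ (l j) = U i := by
    intro i
    have := congrArg φ (e1 i)
    rw [hφ, map_sum] at this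
    simpa using this
  set u' : EuclideanSpace ℝ (Fin d) := ∑ j, ((φ (l j) : ℚ) : ℝ) • (g j : EuclideanSpace ℝ (Fin d))
    with hu'
  have e3 : ∀ i, inner ℝ (g i : EuclideanSpace ℝ (Fin d)) u' = U i := by
    intro i
    rw [hu', inner_sum, ← e2]
    push_cast
    refine Finset.sum_congr rfl fun j _ => ?_
    rw [inner_smul_right, hGe, mul_comm]
  have e4 : inner ℝ u u = inner ℝ u u' := by
    nth_rewrite 1 [← hlg]
    nth_rewrite 2 [← hlg]
    rw [sum_inner, sum_inner]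
    refine Finset.sum_congr rfl fun j _ => ?_
    rw [real_inner_smul_left, real_inner_smul_left, e3, hUe]
  refine ⟨∑ j, φ (l j) * U j, ?_⟩
  rw [← hun, ← real_inner_self_eq_norm_sq, e4, hu', inner_sum]
  push_cast
  refine Finset.sum_congr rfl fun j _ => ?_
  rw [inner_smul_right, real_inner_comm, hUe]

lemma not_small {d : ℕ} {c : EuclideanSpace ℝ (Fin d)} {ρ : ℝ} (h : Good d c ρ) : 2 ≤ d := by
  obtain ⟨X, hS, hinf, -, -⟩ := h
  by_contra hd
  have hd' : d = 0 ∨ d = 1 := by omega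
  apply hinf
  rcases hd' with rfl | rfl
  · exact Set.toFinite _
  · refine Set.Finite.subset (Set.toFinite
      ({WithLp.toLp 2 (fun _ => c 0 + ρ), WithLp.toLp 2 (fun _ => c 0 - ρ)} :
        Set (EuclideanSpace ℝ (Fin 1)))) fun x hx => ?_
    have h1 : dist x c = ρ := hS hx
    rw [EuclideanSpace.dist_eq] at h1
    simp only [Finset.univ_unique, Fin.default_eq_zero, Finset.sum_singleton, Real.dist_eq,
      Real.sqrt_sq_eq_abs, abs_abs] at h1
    rcases abs_cases (x 0 - c 0) with ⟨h2, -⟩ | ⟨h2, -⟩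
    · left
      ext i
      rw [Subsingleton.elim i 0]
      simp only
      linarith
    · right
      ext i
      rw [Subsingleton.elim i 0]
      simp only
      linarith

lemma good_translate {d : ℕ} (c : EuclideanSpace ℝ (Fin d)) {ρ : ℝ} (h : Good d 0 ρ) :
    Good d c ρ := by
  obtain ⟨X, hS, hinf, hq, hH⟩ := h
  refine ⟨(fun x => x + c) '' X, ?_, hinf.image (add_left_injective c).injOn, ?_, ?_⟩
  · rintro _ ⟨x, hx, rfl⟩
    simpa using hS hx
  · rintro _ ⟨x, hx, rfl⟩ _ ⟨y, hy, rfl⟩ hne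
    simpa using hq x hx y hy (fun e => hne (by rw [e]))
  · rintro ⟨n, a, hn, h⟩
    refine hH ⟨n, a - inner ℝ n c, hn, fun x hx => ?_⟩
    have := h _ ⟨x, hx, rfl⟩
    rw [inner_add_right] at this
    linarith

lemma inner_eq {d : ℕ} (n x : EuclideanSpace ℝ (Fin d)) : inner ℝ n x = ∑ i, n i * x i := by
  simp [PiLp.inner_apply, mul_comm]

lemma good_two (ρ : ℝ) (hρ : 0 < ρ) (m : ℚ) (hm : ρ ^ 2 = m) : Good 2 0 ρ := by
  have hm0 : (0 : ℝ) < m := by rw [← hm]; positivity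
  let C : ℚ → ℚ := fun t => (1 - m * t ^ 2) / (1 + m * t ^ 2)
  let S : ℚ → ℚ := fun t => 2 * t / (1 + m * t ^ 2)
  have hden : ∀ t : ℚ, (0 : ℝ) < 1 + m * t ^ 2 := fun t => by positivity
  have hCS : ∀ t, (C t : ℝ) ^ 2 + m * (S t : ℝ) ^ 2 = 1 := by
    intro t
    have := (hden t).ne'
    simp only [C, S]
    push_cast
    field_simp
    ring
  let p : ℚ → EuclideanSpace ℝ (Fin 2) := fun t =>
    WithLp.toLp 2 ![ρ * ((C t : ℝ) ^ 2 - m * (S t : ℝ) ^ 2), 2 * m * (C t : ℝ) * (S t : ℝ)]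
  have hdist : ∀ s t, dist (p s) (p t) = ((|2 * m * (S s * C t - C s * S t)| : ℚ) : ℝ) := by
    intro s t
    rw [EuclideanSpace.dist_eq]
    push_cast
    rw [← Real.sqrt_sq_eq_abs]
    congr 1
    simp only [Fin.sum_univ_two, p, Real.dist_eq, sq_abs, Matrix.cons_val_zero, Matrix.cons_val_one]
    have h1 := hCS s
    have h2 := hCS t
    generalize ((C s : ℚ) : ℝ) = a at *
    generalize ((S s : ℚ) : ℝ) = b at *
    generalize ((C t : ℚ) : ℝ) = c at *
    generalize ((S t : ℚ) : ℝ) = e at *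
    linear_combination ((a ^ 2 - m * b ^ 2) - (c ^ 2 - m * e ^ 2)) ^ 2 * hm +
      m * (a ^ 2 + m * b ^ 2 - (c ^ 2 + m * e ^ 2)) * (h1 - h2)
  refine ⟨Set.range p, ?_, ?_, ?_, ?_⟩
  · rintro _ ⟨t, rfl⟩
    rw [mem_sphere_zero_iff_norm, EuclideanSpace.norm_eq, ← Real.sqrt_sq hρ.le]
    congr 1
    simp only [Fin.sum_univ_two, p, Real.norm_eq_abs, sq_abs, Matrix.cons_val_zero,
      Matrix.cons_val_one]
    have h1 := hCS t
    generalize ((C t : ℚ) : ℝ) = a at *
    generalize ((S t : ℚ) : ℝ) = b at *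
    linear_combination ((a ^ 2 - m * b ^ 2) ^ 2 - 1) * hm + m * (a ^ 2 + m * b ^ 2 + 1) * h1
  · intro hfin
    have hinj : Set.InjOn p (Set.Ioi (1 + 1 / m)) := by
      intro s hs t ht hst
      have h0 := hdist s t
      rw [hst, dist_self] at h0
      have h1 : (2 * m * (S s * C t - C s * S t) : ℚ) = 0 := by
        have : (|2 * m * (S s * C t - C s * S t)| : ℚ) = 0 := by exact_mod_cast h0.symm
        exact abs_eq_zero.1 this
      have hm1 : (0 : ℚ) < m := by exact_mod_cast hm0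
      have d1 : (0 : ℚ) < 1 + m * s ^ 2 := by positivity
      have d2 : (0 : ℚ) < 1 + m * t ^ 2 := by positivity
      have h2 : (s - t) * (1 + m * s * t) = 0 := by
        have h3 : S s * C t - C s * S t = 0 := by
          rcases mul_eq_zero.1 h1 with h | h
          · exfalso; linarith
          · exact h
        simp only [S, C] at h3
        field_simp at h3
        linear_combination (1 / 2) * h3
      have hs' : (0 : ℚ) < s := lt_trans (by positivity) hs
      have ht' : (0 : ℚ) < t := lt_trans (by positivity) ht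
      rcases mul_eq_zero.1 h2 with h | h
      · linarith
      · exfalso
        have : 0 < 1 + m * s * t := by positivity
        linarith
    exact (Set.Ioi_infinite _) (Set.Finite.of_finite_image
      (hfin.subset (Set.image_subset_range _ _)) hinj)
  · rintro _ ⟨s, rfl⟩ _ ⟨t, rfl⟩ -
    exact ⟨_, hdist s t⟩
  · rintro ⟨n, a, hn, h⟩
    obtain ⟨t, ht0, ht⟩ : ∃ t : ℚ, 0 < t ∧ 1 < m * t ^ 2 := by
      have hm1 : (0 : ℚ) < m := by exact_mod_cast hm0
      refine ⟨1 + 1 / m, by positivity, ?_⟩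
      have : m * (1 + 1 / m) ^ 2 = m + 2 + 1 / m := by field_simp; ring
      rw [this]
      have : 0 < 1 / m := by positivity
      linarith
    have h0 := h _ ⟨0, rfl⟩
    have h1 := h _ ⟨t, rfl⟩
    have h2 := h _ ⟨-t, rfl⟩
    have c0 : C 0 = 1 := by simp [C]
    have s0 : S 0 = 0 := by simp [S]
    have c1 : C (-t) = C t := by simp [C]
    have s1 : S (-t) = -S t := by simp [S, neg_div]
    have hm1 : (0 : ℚ) < m := by exact_mod_cast hm0
    have c2 : (C t : ℝ) < 0 := by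
      have : C t < 0 := div_neg_of_neg_of_pos (by linarith) (by positivity)
      exact_mod_cast this
    have s2 : (0 : ℝ) < S t := by
      have : 0 < S t := by positivity
      exact_mod_cast this
    simp only [inner_eq, Fin.sum_univ_two, p, Matrix.cons_val_zero, Matrix.cons_val_one, c0, s0, c1,
      s1] at h0 h1 h2
    push_cast at h0 h1 h2
    have hc := hCS t
    have n1 : n 1 = 0 := by
      have : n 1 * (m * (C t : ℝ) * S t) = 0 := by linear_combination (1 / 4) * (h1 - h2)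
      rcases mul_eq_zero.1 this with h | h
      · exact h
      · exfalso
        have := mul_neg_of_neg_of_pos (mul_neg_of_pos_of_neg hm0 c2) s2
        linarith
    have n0 : n 0 = 0 := by
      have : n 0 * (ρ * m * (S t : ℝ) ^ 2) = 0 := by
        rw [n1] at h0 h1
        linear_combination (1 / 2) * (h0 - h1) + (1 / 2) * n 0 * ρ * hc
      rcases mul_eq_zero.1 this with h | h
      · exact h
      · exfalso
        have : 0 < ρ * m * (S t : ℝ) ^ 2 := by positivity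
        linarith
    apply hn
    ext i
    fin_cases i
    · exact n0
    · exact n1

lemma good_succ (d : ℕ) (ih : ∀ ρ : ℝ, 0 < ρ → ∀ m : ℚ, ρ ^ 2 = m → Good d 0 ρ)
    (ρ : ℝ) (hρ : 0 < ρ) (m : ℚ) (hm : ρ ^ 2 = m) : Good (d + 1) 0 ρ := by
  obtain ⟨δ, hδ0, hδ⟩ := exists_rat_btwn hρ
  have hm0 : (0 : ℝ) < m := by rw [← hm]; positivity
  set h : ℝ := ρ - δ ^ 2 / (2 * ρ) with hh
  have hr : (0 : ℝ) < δ ^ 2 - δ ^ 4 / (4 * m) := by
    rw [sub_pos, div_lt_iff₀ (by positivity), ← hm]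
    have : (δ : ℝ) ^ 2 < ρ ^ 2 := by gcongr
    have h2 : (0 : ℝ) < δ ^ 2 := by positivity
    nlinarith
  have hr2 := Real.sq_sqrt hr.le
  obtain ⟨X, hS, hinf, hq, hH⟩ := ih _ (Real.sqrt_pos.2 hr) (δ ^ 2 - δ ^ 4 / (4 * m))
    (by rw [hr2]; push_cast; ring)
  let f : EuclideanSpace ℝ (Fin d) → EuclideanSpace ℝ (Fin (d + 1)) := fun x =>
    WithLp.toLp 2 (Fin.cons h (fun i => x i))
  let N : EuclideanSpace ℝ (Fin (d + 1)) := WithLp.toLp 2 (Fin.cons ρ (fun _ => 0))
  have hX : ∀ x ∈ X, ∑ i, x i ^ 2 = δ ^ 2 - δ ^ 4 / (4 * m) := by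
    intro x hx
    have := mem_sphere_zero_iff_norm.1 (hS hx)
    rw [← hr2, ← this, EuclideanSpace.real_norm_sq_eq]
  have hf : ∀ x y, dist (f x) (f y) = dist x y := by
    intro x y
    simp [EuclideanSpace.dist_eq, Fin.sum_univ_succ, f]
  have hN : ∀ x ∈ X, dist (f x) N = δ := by
    intro x hx
    rw [EuclideanSpace.dist_eq, ← Real.sqrt_sq hδ0.le]
    congr 1
    simp only [Fin.sum_univ_succ, f, N, Fin.cons_zero, Fin.cons_succ, Real.dist_eq, sq_abs,
      sub_zero, hX x hx, hh, ← hm]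
    field_simp
    ring
  refine ⟨insert N (f '' X), ?_, ?_, ?_, ?_⟩
  · rintro _ (rfl | ⟨x, hx, rfl⟩)
    · rw [mem_sphere_zero_iff_norm, EuclideanSpace.norm_eq, ← Real.sqrt_sq hρ.le]
      congr 1
      simp [Fin.sum_univ_succ, N]
    · rw [mem_sphere_zero_iff_norm, EuclideanSpace.norm_eq, ← Real.sqrt_sq hρ.le]
      congr 1
      simp only [Fin.sum_univ_succ, f, Fin.cons_zero, Fin.cons_succ, Real.norm_eq_abs, sq_abs,
        hX x hx, hh, ← hm]
      field_simp
      ring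
  · refine Set.Infinite.mono (Set.subset_insert _ _) (hinf.image fun x _ y _ e => ?_)
    have := hf x y
    rw [e, dist_self] at this
    exact dist_eq_zero.1 this.symm
  · rintro _ (rfl | ⟨x, hx, rfl⟩) _ (rfl | ⟨y, hy, rfl⟩) hne
    · exact absurd rfl hne
    · exact ⟨δ, by rw [dist_comm, hN y hy]⟩
    · exact ⟨δ, hN x hx⟩
    · rw [hf]
      exact hq x hx y hy (fun e => hne (by rw [e]))
  · rintro ⟨n, a, hn, hl⟩
    have h1 := hl N (Or.inl rfl)
    have h2 : ∀ x ∈ X, n 0 * h + ∑ i, n (Fin.succ i) * x i = a := fun x hx => by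
      simpa [inner_eq, Fin.sum_univ_succ, f] using hl (f x) (Or.inr ⟨x, hx, rfl⟩)
    have h3 : (WithLp.toLp 2 (fun i => n (Fin.succ i)) : EuclideanSpace ℝ (Fin d)) = 0 := by
      by_contra hne
      refine hH ⟨_, a - n 0 * h, hne, fun x hx => ?_⟩
      rw [inner_eq, ← h2 x hx]
      simp
    have h4 : ∀ i : Fin d, n (Fin.succ i) = 0 := fun i => by
      simpa using congrArg (fun v : EuclideanSpace ℝ (Fin d) => v i) h3
    obtain ⟨x, hx⟩ := hinf.nonempty
    have h5 := h2 x hx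
    simp only [inner_eq, Fin.sum_univ_succ, N, Fin.cons_zero, Fin.cons_succ, h4, zero_mul,
      Finset.sum_const_zero, add_zero] at h1 h5
    have h6 : n 0 * (δ ^ 2 / (2 * ρ)) = 0 := by rw [hh] at h5; linarith
    have h7 : n 0 = 0 := by
      rcases mul_eq_zero.1 h6 with h | h
      · exact h
      · exfalso
        have : (0 : ℝ) < δ ^ 2 / (2 * ρ) := by positivity
        linarith
    apply hn
    ext i
    refine Fin.cases h7 (fun j => h4 j) i

theorem main (d : ℕ) (ρ : ℝ) (hρ : 0 < ρ) (c : EuclideanSpace ℝ (Fin d)) :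
    Good d c ρ ↔ 2 ≤ d ∧ ∃ q : ℚ, ρ ^ 2 = q := by
  refine ⟨fun h => ⟨not_small h, necess h⟩, ?_⟩
  rintro ⟨hd, m, hm⟩
  refine good_translate c ?_
  clear c
  induction d, hd using Nat.le_induction generalizing ρ m with
  | base => exact good_two ρ hρ m hm
  | succ d _ ih => exact good_succ d ih ρ hρ m hm

end Pool.Agent.H5.RatSphere
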