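import Pool.Agent.H5.RigidDefs

set_option autoImplicit false

namespace Pool.Agent.H5.RigidA

open Pool.Agent.H5.RigidDefs SimpleGraph
open scoped ENNReal

def c1 : (⊤ : SimpleGraph (Fin 5)).Walk 0 0 :=
  .cons (v := 1) (by decide) <| .cons (v := 2) (by decide) <| .cons (v := 3) (by decide) <|
    .cons (v := 4) (by decide) <| .cons (v := 0) (by decide) .nil

def c2 : (⊤ : SimpleGraph (Fin 5)).Walk 0 0 :=
  .cons (v := 2) (by decide) <| .cons (v := 4) (by decide) <| .cons (v := 1) (by decide) <|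
    .cons (v := 3) (by decide) <| .cons (v := 0) (by decide) .nil

lemma ham : HamiltonUnion 2 (⊤ : SimpleGraph (Fin 5)) := by
  refine ⟨fun _ => 0, ![c1, c2], ?_, ?_⟩
  · intro k
    rw [Walk.isHamiltonianCycle_iff_isCycle_and_length_eq, Walk.isCycle_def, Walk.isTrail_def]
    fin_cases k
    · exact ⟨⟨by decide, by simp [c1], by decide⟩, by decide⟩
    · exact ⟨⟨by decide, by simp [c2], by decide⟩, by decide⟩
  · intro e
    induction e using Sym2.ind with
    | _ u v =>
      simp only [mem_edgeSet, top_adj, ExistsUnique]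
      revert u v
      decide

abbrev P2 := PiLp ∞ (fun _ : Fin 2 => ℝ)

lemma norm_P2 (z : P2) : ‖z‖ = max |z 0| |z 1| := by
  apply le_antisymm
  · rw [← PiLp.norm_ofLp, pi_norm_le_iff_of_nonneg (by positivity)]
    intro i
    fin_cases i <;> simp
  · exact max_le (PiLp.norm_apply_le z 0) (PiLp.norm_apply_le z 1)

lemma fderiv_zero (z w : P2) (h : ∀ t : ℝ, ‖z‖ ≤ ‖z + t • w‖)
    (hd : DifferentiableAt ℝ (fun x : P2 => ‖x‖) z) : fderiv ℝ (fun x : P2 => ‖x‖) z w = 0 := by
  have h1 : HasDerivAt (fun t : ℝ => z + t • w) w 0 := by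
    simpa using ((hasDerivAt_id (0 : ℝ)).smul_const w).const_add z
  have h2 : HasFDerivAt (fun x : P2 => ‖x‖) (fderiv ℝ (fun x : P2 => ‖x‖) z)
      ((fun t : ℝ => z + t • w) 0) := by simpa using hd.hasFDerivAt
  have h3 := h2.comp_hasDerivAt (0 : ℝ) h1
  refine IsLocalMin.hasDerivAt_eq_zero ?_ h3
  exact Filter.Eventually.of_forall fun t => by simpa using h t

lemma comb (u w : Fin 5 → ℝ) : ∃ a : Fin 5,
    (∃ b, ∀ c, c ≠ b → (u a - u c) * (w a - w c) ≤ 0) ∨
    (∃ b, ∀ c, c ≠ b → 0 ≤ (u a - u c) * (w a - w c)) := by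
  by_contra hcon
  push Not at hcon
  have two : ∀ (P : Fin 5 → Prop), (∀ b, ∃ c, c ≠ b ∧ P c) → ∃ c c', c ≠ c' ∧ P c ∧ P c' := by
    intro P h
    obtain ⟨c, -, hc⟩ := h 0
    obtain ⟨c', h1, hc'⟩ := h c
    exact ⟨c', c, h1, hc', hc⟩
  obtain ⟨a, ha⟩ := Finite.exists_max u
  obtain ⟨b, hb⟩ := Finite.exists_min u
  obtain ⟨a1, a2, na, ha1, ha2⟩ := two _ (hcon a).1
  obtain ⟨a3, a4, na', ha3, ha4⟩ := two _ (hcon a).2
  obtain ⟨b1, b2, nb, hb1, hb2⟩ := two _ (hcon b).1
  obtain ⟨b3, b4, nb', hb3, hb4⟩ := two _ (hcon b).2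
  have l1 : ∀ c, 0 < (u a - u c) * (w a - w c) → w c < w a := fun c h => by
    have := ha c; by_contra h'; nlinarith
  have l2 : ∀ c, (u a - u c) * (w a - w c) < 0 → w a < w c := fun c h => by
    have := ha c; by_contra h'; nlinarith
  have l3 : ∀ c, 0 < (u b - u c) * (w b - w c) → w b < w c := fun c h => by
    have := hb c; by_contra h'; nlinarith
  have l4 : ∀ c, (u b - u c) * (w b - w c) < 0 → w c < w b := fun c h => by
    have := hb c; by_contra h'; nlinarith
  have hab : a ≠ b := by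
    rintro rfl
    have := ha a1
    have := hb a1
    have : u a - u a1 = 0 := by linarith
    rw [this] at ha1
    simp at ha1
  have six : ∀ x1 x2 x3 x4 x5 x6 : Fin 5, x1 ≠ x2 → x3 ≠ x4 → x5 ≠ x6 → w x1 < w x3 → w x2 < w x3 →
      w x3 ≤ w x4 → w x4 < w x5 → w x4 < w x6 → False := by
    intro x1 x2 x3 x4 x5 x6 n1 n2 n3 h1 h2 h3 h4 h5
    have ne : ∀ x y : Fin 5, w x < w y → x ≠ y := fun x y h e => by rw [e] at h; exact lt_irrefl _ h
    have := ne x1 x3 (by linarith)
    have := ne x1 x4 (by linarith)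
    have := ne x1 x5 (by linarith)
    have := ne x1 x6 (by linarith)
    have := ne x2 x3 (by linarith)
    have := ne x2 x4 (by linarith)
    have := ne x2 x5 (by linarith)
    have := ne x2 x6 (by linarith)
    have := ne x3 x5 (by linarith)
    have := ne x3 x6 (by linarith)
    have := ne x4 x5 (by linarith)
    have := ne x4 x6 (by linarith)
    omega
  rcases le_total (w a) (w b) with h | h
  · exact six a1 a2 a b b1 b2 na hab nb (l1 _ ha1) (l1 _ ha2) h (l3 _ hb1) (l3 _ hb2)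
  · exact six b3 b4 b a a3 a4 nb' hab.symm na' (l4 _ hb3) (l4 _ hb4) h (l2 _ ha3) (l2 _ ha4)

lemma kill (p : Fin 5 → P2) (a b : Fin 5) (w : P2) (hw : w ≠ 0)
    (h : ∀ c, c ≠ b → ∀ t : ℝ, ‖p a - p c‖ ≤ ‖p a - p c + t • w‖) :
    ¬ RedundantlyRigid (⊤ : SimpleGraph (Fin 5)) p := by
  rintro ⟨⟨hwp, hr0⟩, hr⟩
  obtain ⟨c0, hc0⟩ := exists_ne a
  let m : Fin 5 → P2 := fun v => if v = a then w else 0
  have key : ∀ u v, u ≠ v → s(u, v) ≠ s(a, b) →
      fderiv ℝ (fun x : P2 => ‖x‖) (p u - p v) (m u - m v) = 0 := by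
    intro u v huv he
    by_cases hu : u = a
    · subst hu
      have hv : v ≠ b := fun e => he (by rw [e])
      simp only [m, if_true, if_neg huv.symm, sub_zero]
      exact fderiv_zero _ _ (h v hv) (hwp u v huv)
    · by_cases hv : v = a
      · subst hv
        have hu' : u ≠ b := fun e => he (by rw [e, Sym2.eq_swap])
        simp only [m, if_true, if_neg hu, zero_sub]
        refine fderiv_zero _ _ (fun t => ?_) (hwp u v huv)
        have := h u hu' t
        rw [norm_sub_rev, ← norm_neg (p v - p u + t • w)] at this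
        have e : p u - p v + t • -w = -(p v - p u + t • w) := by
          rw [smul_neg]
          abel
        rw [e]
        exact this
      · simp [m, hu, hv]
  have hm : m a ≠ m c0 := by simpa [m, hc0] using hw
  by_cases hab : a = b
  · refine hm (hr0 m (fun u v huv => key u v huv ?_) a c0)
    intro e
    rw [← hab] at e
    have := Sym2.eq_iff.1 e
    rcases this with ⟨h1, h2⟩ | ⟨h1, h2⟩ <;> exact huv.ne (h1.trans h2.symm)
  · refine hm ((hr s(a, b) (by simpa using hab)).2 m (fun u v huv => ?_) a c0)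
    rw [deleteEdges_adj] at huv
    exact key u v huv.1 (by simpa using huv.2)

theorem no_placement (p : Fin 5 → P2) : ¬ RedundantlyRigid (⊤ : SimpleGraph (Fin 5)) p := by
  obtain ⟨a, ⟨b, h⟩ | ⟨b, h⟩⟩ := comb (fun i => p i 0 + p i 1) (fun i => p i 0 - p i 1)
  · refine kill p a b (WithLp.toLp ∞ ![1, 0]) (fun e => by simpa using congrArg (· 0) e) ?_
    intro c hc t
    have h1 : |p a 0 - p c 0| ≤ |p a 1 - p c 1| := sq_le_sq.1 (by have := h c hc; nlinarith)
    rw [norm_P2, norm_P2]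
    simp [h1]
  · refine kill p a b (WithLp.toLp ∞ ![0, 1]) (fun e => by simpa using congrArg (· 1) e) ?_
    intro c hc t
    have h1 : |p a 1 - p c 1| ≤ |p a 0 - p c 0| := sq_le_sq.1 (by have := h c hc; nlinarith)
    rw [norm_P2, norm_P2]
    simp [h1]

end Pool.Agent.H5.RigidA
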