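import Pool.Agent.H5.RigidDefs

set_option autoImplicit false

namespace Pool.Agent.H5.RigidB

open Pool.Agent.H5.RigidDefs SimpleGraph Filter Topology
open scoped ENNReal

lemma dominant {C : Type} [Fintype C] (n M : C → ℝ) (hM : ∀ c, M c ≠ 0)
    (hinj : ∀ c c', M c ^ 2 = M c' ^ 2 → c = c') (c0 : C) (h0 : n c0 ≠ 0) :
    ∀ᶠ r : ℕ in atTop, ∑ c, M c ^ r * n c ≠ 0 := by
  classical
  obtain ⟨c1, hc1, hmax⟩ := Finset.exists_max_image (Finset.univ.filter (fun c => n c ≠ 0))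
    (fun c => |M c|) ⟨c0, by simpa using h0⟩
  have hn1 : n c1 ≠ 0 := by simpa using hc1
  have ht : Tendsto (fun r : ℕ => ∑ c, (M c / M c1) ^ r * n c) atTop
      (𝓝 (∑ c, if c = c1 then n c1 else 0)) := by
    refine tendsto_finsetSum _ fun c _ => ?_
    by_cases hc : c = c1
    · subst hc
      simp [div_self (hM c)]
    · by_cases hn : n c = 0
      · simp [hc, hn]
      · have h1 : |M c| ≤ |M c1| := hmax c (by simpa using hn)
        have h2 : |M c| ≠ |M c1| := fun e => hc (hinj _ _ (by rw [← sq_abs, e, sq_abs]))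
        have h3 : |M c / M c1| < 1 := by
          rw [abs_div, div_lt_one (abs_pos.2 (hM c1))]
          exact lt_of_le_of_ne h1 h2
        simpa [hc] using (tendsto_pow_atTop_nhds_zero_of_abs_lt_one h3).mul_const (n c)
  simp only [Finset.sum_ite_eq', Finset.mem_univ, if_true] at ht
  filter_upwards [ht.eventually_ne hn1] with r hr e
  apply hr
  have : ∑ c, (M c / M c1) ^ r * n c = (∑ c, M c ^ r * n c) / M c1 ^ r := by
    rw [Finset.sum_div]
    refine Finset.sum_congr rfl fun c _ => ?_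
    rw [div_pow]
    ring
  rw [this, e, zero_div]

lemma span_top {X ι ι0 κ : Type} [AddCommGroup X] [Module ℝ X] [Fintype ι] [Fintype κ]
    (j : ι → ι0) (hj : Function.Injective j) (φ : ι → κ → X) (c0 : ι → κ) (k0 : κ)
    (h0 : Submodule.span ℝ (Set.range fun f => φ f (c0 f)) = ⊤) (Δ : ι0 → κ → ℝ)
    (hΔ : ∀ f k, Δ f k ≠ 0)
    (hinj : ∀ (S : Finset ι0) (c c' : ι0 → κ),
      (∏ f ∈ S, Δ f (c f)) ^ 2 = (∏ f ∈ S, Δ f (c' f)) ^ 2 → ∀ f ∈ S, c f = c' f) :
    ∀ᶠ r : ℕ in atTop,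
      Submodule.span ℝ (Set.range fun f => ∑ k, Δ (j f) k ^ r • φ f k) = ⊤ := by
  classical
  obtain ⟨F, a, ha, hsp, hli⟩ := exists_linearIndependent' ℝ (fun f => φ f (c0 f))
  have : Finite F := Finite.of_injective a ha
  have : Fintype F := Fintype.ofFinite F
  let b : Module.Basis F ℝ X := Module.Basis.mk hli (by rw [hsp, h0])
  have hja : Function.Injective (j ∘ a) := hj.comp ha
  have hd := dominant (C := F → κ) (fun c => b.det (fun x => φ (a x) (c x)))
    (fun c => ∏ x, Δ (j (a x)) (c x))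
    (fun c => Finset.prod_ne_zero_iff.2 fun x _ => hΔ _ _)
    (fun c c' h => by
      have key : ∀ c : F → κ, ∏ f ∈ Finset.univ.image (j ∘ a),
          Δ f (Function.extend (j ∘ a) c (fun _ => k0) f) = ∏ x, Δ (j (a x)) (c x) := by
        intro c
        rw [Finset.prod_image (fun x _ y _ e => hja e)]
        refine Finset.prod_congr rfl fun x _ => ?_
        rw [hja.extend_apply]
        rfl
      have := hinj (Finset.univ.image (j ∘ a)) (Function.extend (j ∘ a) c (fun _ => k0))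
        (Function.extend (j ∘ a) c' (fun _ => k0)) (by rw [key, key]; exact h)
      ext x
      have h1 := this ((j ∘ a) x) (Finset.mem_image_of_mem _ (Finset.mem_univ x))
      rwa [hja.extend_apply, hja.extend_apply] at h1)
    (fun x => c0 (a x))
    (by
      have : (fun x => φ (a x) (c0 (a x))) = b := by
        ext x; simp [b]
      simp only [this, Module.Basis.det_self]
      exact one_ne_zero)
  filter_upwards [hd] with r hr
  have h1 : b.det (fun x => ∑ k, Δ (j (a x)) k ^ r • φ (a x) k) ≠ 0 := by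
    have e1 := b.det.toMultilinearMap.map_sum (fun x k => Δ (j (a x)) k ^ r • φ (a x) k)
    simp only [MultilinearMap.map_smul_univ] at e1
    simp only [AlternatingMap.coe_multilinearMap, smul_eq_mul, Finset.prod_pow] at e1
    rw [e1]
    exact hr
  have h2 := (b.is_basis_iff_det.2 (Ne.isUnit h1)).2
  rw [eq_top_iff, ← h2]
  apply Submodule.span_mono
  rintro _ ⟨x, rfl⟩
  exact ⟨a x, rfl⟩

abbrev Pr (n : ℕ) := {f : Fin n × Fin n // f.1 < f.2}

open MvPolynomial in
lemma generic (n d : ℕ) : ∃ x : Fin n → Fin d → ℝ, (∀ (f : Pr n) k, x f.1.1 k - x f.1.2 k ≠ 0) ∧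
    ∀ (S : Finset (Pr n)) (c c' : Pr n → Fin d),
      (∏ f ∈ S, (x f.1.1 (c f) - x f.1.2 (c f))) ^ 2 =
        (∏ f ∈ S, (x f.1.1 (c' f) - x f.1.2 (c' f))) ^ 2 → ∀ f ∈ S, c f = c' f := by
  classical
  let D : Pr n → Fin d → MvPolynomial (Fin n × Fin d) ℝ := fun f k => X (f.1.1, k) - X (f.1.2, k)
  let T := {t : Finset (Pr n) × (Pr n → Fin d) × (Pr n → Fin d) // ∃ f ∈ t.1, t.2.1 f ≠ t.2.2 f}
  let Q : T → MvPolynomial (Fin n × Fin d) ℝ := fun t =>
    (∏ f ∈ t.1.1, D f (t.1.2.1 f)) ^ 2 - (∏ f ∈ t.1.1, D f (t.1.2.2 f)) ^ 2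
  have hD : ∀ f k, D f k ≠ 0 := by
    intro f k e
    have := congrArg (eval (fun vk : Fin n × Fin d => (vk.1.val : ℝ))) e
    simp only [D, map_sub, eval_X, map_zero, sub_eq_zero, Nat.cast_inj, Fin.val_inj] at this
    exact f.2.ne this
  have hQ : ∀ t, Q t ≠ 0 := by
    rintro ⟨⟨S, c, c'⟩, f0, hf0, hne⟩ e
    let y : Fin n × Fin d → ℝ := fun vk =>
      if vk.2 = c f0 ∧ vk.1 = f0.1.2 then (f0.1.1.val : ℝ) else (vk.1.val : ℝ)
    have := congrArg (eval y) e
    simp only [Q, D, map_sub, map_pow, map_prod, eval_X, map_zero] at this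
    have h1 : ∏ f ∈ S, (y (f.1.1, c f) - y (f.1.2, c f)) = 0 := by
      refine Finset.prod_eq_zero hf0 ?_
      simp [y]
    have h2 : ∏ f ∈ S, (y (f.1.1, c' f) - y (f.1.2, c' f)) ≠ 0 := by
      refine Finset.prod_ne_zero_iff.2 fun f _ => ?_
      have hf := f.2
      have hf0' := f0.2
      have hff : c' f = c f0 → ¬ (f.1.1 = f0.1.1 ∧ f.1.2 = f0.1.2) := by
        rintro h ⟨h3, h4⟩
        have : f = f0 := Subtype.ext (Prod.ext h3 h4)
        subst this
        exact hne h.symm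
      simp only [y, sub_ne_zero]
      split_ifs with h3 h4 h4
      · exact absurd (h3.2.trans h4.2.symm) hf.ne
      · rw [Ne, Nat.cast_inj, Fin.val_inj]
        intro e
        rw [h3.2, ← e] at hf
        exact absurd (hf.trans hf0') (lt_irrefl _)
      · rw [Ne, Nat.cast_inj, Fin.val_inj]
        exact fun e => hff h4.1 ⟨e, h4.2⟩
      · rw [Ne, Nat.cast_inj, Fin.val_inj]
        exact hf.ne
    rw [h1] at this
    apply h2
    have h3 : (∏ f ∈ S, (y (f.1.1, c' f) - y (f.1.2, c' f))) ^ 2 = 0 := by linarith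
    exact pow_eq_zero_iff two_ne_zero |>.1 h3
  have hP : (∏ fk : Pr n × Fin d, D fk.1 fk.2) * ∏ t, Q t ≠ 0 :=
    mul_ne_zero (Finset.prod_ne_zero_iff.2 fun _ _ => hD _ _)
      (Finset.prod_ne_zero_iff.2 fun _ _ => hQ _)
  obtain ⟨y, hy⟩ : ∃ y, eval y ((∏ fk : Pr n × Fin d, D fk.1 fk.2) * ∏ t, Q t) ≠ 0 := by
    by_contra h
    push Not at h
    exact hP (MvPolynomial.funext fun y => by rw [h, map_zero])
  rw [map_mul, map_prod, map_prod, mul_ne_zero_iff, Finset.prod_ne_zero_iff,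
    Finset.prod_ne_zero_iff] at hy
  refine ⟨fun v k => y (v, k), fun f k => ?_, fun S c c' h f hf => ?_⟩
  · simpa [D] using hy.1 (f, k) (Finset.mem_univ _)
  · by_contra hne
    apply hy.2 ⟨(S, c, c'), f, hf, hne⟩ (Finset.mem_univ _)
    simp only [Q, D, map_sub, map_pow, map_prod, eval_X]
    rw [h, sub_self]

lemma walk_const {V : Type} {G : SimpleGraph V} (g : V → ℝ) {u v : V} (w : G.Walk u v)
    (h : ∀ a b, s(a, b) ∈ w.edges → g a = g b) : ∀ x ∈ w.support, g x = g v := by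
  induction w with
  | nil => simp
  | cons hadj w ih =>
    rename_i a b c
    have h1 := ih (fun x y hxy => h x y (by simp [hxy]))
    intro x hx
    rw [Walk.support_cons, List.mem_cons] at hx
    rcases hx with rfl | hx
    · rw [h x b (by simp)]
      exact h1 b (by simp)
    · exact h1 x hx

lemma walk_two {V : Type} {G : SimpleGraph V} (g : V → ℝ) (e : Sym2 V) {u v : V} (w : G.Walk u v)
    (hn : w.edges.Nodup) (h : ∀ a b, s(a, b) ∈ w.edges → s(a, b) ≠ e → g a = g b) :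
    ∀ x ∈ w.support, g x = g u ∨ g x = g v := by
  induction w with
  | nil => simp
  | cons hadj w ih =>
    rename_i a b c
    rw [Walk.edges_cons, List.nodup_cons] at hn
    intro x hx
    rw [Walk.support_cons, List.mem_cons] at hx
    rcases hx with rfl | hx
    · exact Or.inl rfl
    · by_cases he : s(a, b) = e
      · exact Or.inr (walk_const g w (fun x y hxy => h x y (by simp [hxy])
          (fun e' => hn.1 (by rw [he, ← e']; exact hxy))) x hx)
      · rw [h a b (by simp) he]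
        exact ih hn.2 (fun x y hxy => h x y (by simp [hxy])) x hx

lemma core {n d : ℕ} (hd : 1 ≤ d) (G : SimpleGraph (Fin n)) (hG : HamiltonUnion d G) :
    ∃ x : Fin n → Fin d → ℝ, (∀ u v, u ≠ v → ∀ k, x u k - x v k ≠ 0) ∧
      ∀ᶠ r : ℕ in atTop, ∀ (e : Sym2 (Fin n)) (m : Fin n → Fin d → ℝ),
        (∀ u v, G.Adj u v → s(u, v) ≠ e → ∑ k, (x u k - x v k) ^ r * (m u k - m v k) = 0) →
        ∀ u v, m u = m v := by
  classical
  obtain ⟨a, H, hH, hE⟩ := hG
  obtain ⟨x, hx, hinj⟩ := generic n d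
  refine ⟨x, fun u v huv k => ?_, ?_⟩
  · rcases lt_or_gt_of_ne huv with h | h
    · exact hx ⟨(u, v), h⟩ k
    · exact fun e => hx ⟨(v, u), h⟩ k (by linarith)
  rw [Filter.eventually_all]
  intro e
  let k0 : Fin d := ⟨0, hd⟩
  let v0 := a k0
  let W : Submodule ℝ (Fin n → Fin d → ℝ) := LinearMap.ker (LinearMap.proj v0)
  let ι := {f : Pr n // G.Adj f.1.1 f.1.2 ∧ s(f.1.1, f.1.2) ≠ e}
  let φ : ι → Fin d → (W →ₗ[ℝ] ℝ) := fun f k =>
    { toFun := fun m => m.1 f.1.1.1 k - m.1 f.1.1.2 k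
      map_add' := fun m m' => by simp; ring
      map_smul' := fun c m => by simp; ring }
  choose c0 hc0 using fun f : ι => (hE s(f.1.1.1, f.1.1.2) f.2.1).exists
  have h0 : Submodule.span ℝ (Set.range fun f => φ f (c0 f)) = ⊤ := by
    apply Submodule.span_eq_top_of_ne_zero
    intro z hz
    by_contra hcon
    push Not at hcon
    apply hz
    have h1 : ∀ k u v, u < v → s(u, v) ∈ (H k).edges → s(u, v) ≠ e → z.1 u k = z.1 v k := by
      intro k u v huv he hne
      have hadj := (H k).adj_of_mem_edges he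
      let f : ι := ⟨⟨(u, v), huv⟩, hadj, hne⟩
      have h2 : c0 f = k := (hE s(u, v) hadj).unique (hc0 f) he
      have h3 : φ f (c0 f) z = 0 := hcon _ ⟨f, rfl⟩
      rw [h2] at h3
      exact sub_eq_zero.1 h3
    have h2 : ∀ k v, z.1 v k = z.1 (a k) k := by
      intro k v
      have := walk_two (fun v => z.1 v k) e (H k) (hH k).isCycle.isTrail.edges_nodup
        (fun u v he hne => by
          rcases lt_or_gt_of_ne ((H k).adj_of_mem_edges he).ne with h | h
          · exact h1 k u v h he hne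
          · exact (h1 k v u h (by rwa [Sym2.eq_swap]) (by rwa [Sym2.eq_swap])).symm) v
        ((hH k).mem_support v)
      simpa using this
    have h3 : z.1 v0 = 0 := z.2
    ext v k
    rw [h2 k v, ← h2 k v0, h3]
    rfl
  have := span_top (fun f : ι => f.1) Subtype.val_injective φ c0 k0 h0
    (fun f k => x f.1.1 k - x f.1.2 k) hx hinj
  filter_upwards [this] with r hr m hm
  let z : W := ⟨fun v => m v - m v0, by simp [W]⟩
  have hz : z = 0 := by
    rw [← Module.forall_dual_apply_eq_zero_iff ℝ]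
    intro ψ
    have hψ : ψ ∈ Submodule.span ℝ (Set.range fun f : ι =>
      ∑ k, (x f.1.1.1 k - x f.1.1.2 k) ^ r • φ f k) := by rw [hr]; trivial
    induction hψ using Submodule.span_induction with
    | mem _ h =>
      obtain ⟨f, rfl⟩ := h
      have := hm _ _ f.2.1 f.2.2
      simpa [φ, z] using this
    | zero => rfl
    | add _ _ _ _ h1 h2 => simp [h1, h2]
    | smul _ _ _ h1 => simp [h1]
  have h4 : ∀ v, m v = m v0 := fun v => by
    have := congrFun (congrArg Subtype.val hz) v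
    exact sub_eq_zero.1 this
  intro u v
  rw [h4 u, h4 v]

lemma norm_deriv {d : ℕ} (s : ℕ) [Fact (1 ≤ ((2 * s + 2 : ℕ) : ℝ≥0∞))]
    (z : PiLp ((2 * s + 2 : ℕ) : ℝ≥0∞) (fun _ : Fin d => ℝ)) (k0 : Fin d) (hz : z k0 ≠ 0) :
    DifferentiableAt ℝ (fun x : PiLp ((2 * s + 2 : ℕ) : ℝ≥0∞) (fun _ : Fin d => ℝ) => ‖x‖) z ∧
    ∀ w, fderiv ℝ (fun x : PiLp ((2 * s + 2 : ℕ) : ℝ≥0∞) (fun _ : Fin d => ℝ) => ‖x‖) z w = 0 →
      ∑ k, z k ^ (2 * s + 1) * w k = 0 := by
  have hfun : (fun x : PiLp ((2 * s + 2 : ℕ) : ℝ≥0∞) (fun _ : Fin d => ℝ) => ‖x‖) =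
      fun x => (∑ k, x k ^ (2 * s + 2)) ^ (1 / ((2 * s + 2 : ℕ) : ℝ)) := by
    ext x
    rw [PiLp.norm_eq_of_nat (2 * s + 2) rfl]
    congr 1
    refine Finset.sum_congr rfl fun k _ => ?_
    rw [Real.norm_eq_abs, Even.pow_abs ⟨s + 1, by ring⟩]
  have hS : 0 < ∑ k, z k ^ (2 * s + 2) :=
    Finset.sum_pos' (fun k _ => Even.pow_nonneg ⟨s + 1, by ring⟩ _)
      ⟨k0, Finset.mem_univ _, Even.pow_pos ⟨s + 1, by ring⟩ hz⟩
  have h1 := HasFDerivAt.fun_sum (u := Finset.univ)
    (fun k _ => (PiLp.hasFDerivAt_apply (𝕜 := ℝ) _ z k).pow (2 * s + 2))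
  have h2 := h1.rpow_const (p := 1 / ((2 * s + 2 : ℕ) : ℝ)) (Or.inl hS.ne')
  rw [hfun]
  refine ⟨h2.differentiableAt, fun w hw => ?_⟩
  rw [h2.fderiv] at hw
  have h3 : (0 : ℝ) < 1 / ((2 * s + 2 : ℕ) : ℝ) *
      (∑ k, z k ^ (2 * s + 2)) ^ (1 / ((2 * s + 2 : ℕ) : ℝ) - 1) := by positivity
  rw [smul_apply, smul_eq_mul, mul_eq_zero_iff_left h3.ne'] at hw
  simp only [smul_apply, smul_eq_mul, sum_apply, PiLp.proj_apply, nsmul_eq_mul, mul_assoc,
    ← Finset.mul_sum, mul_eq_zero] at hw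
  rcases hw with hw | hw
  · exfalso
    have : (0 : ℝ) < ((2 * s + 2 : ℕ) : ℝ) := by positivity
    linarith
  · exact hw

theorem exists_q {n d : ℕ} (hd : 2 ≤ d) (G : SimpleGraph (Fin n)) (hG : HamiltonUnion d G) :
    ∃ (q : ℝ≥0∞) (_ : Fact (1 ≤ q)), q ≠ 2 ∧
      ∃ p : Fin n → PiLp q (fun _ : Fin d => ℝ), RedundantlyRigid G p := by
  obtain ⟨x, hx, hev⟩ := core (by omega) G hG
  obtain ⟨N, hN⟩ := Filter.eventually_atTop.1 hev
  have hr := hN (2 * (N + 1) + 1) (by omega)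
  have hF : Fact (1 ≤ ((2 * (N + 1) + 2 : ℕ) : ℝ≥0∞)) := ⟨by exact_mod_cast (by omega)⟩
  let p : Fin n → PiLp ((2 * (N + 1) + 2 : ℕ) : ℝ≥0∞) (fun _ : Fin d => ℝ) :=
    fun v => WithLp.toLp _ (x v)
  have key : ∀ (G' : SimpleGraph (Fin n)) (e : Fin n → Sym2 (Fin n)),
      (∀ a u v, G.Adj u v → s(u, v) ≠ e a → G'.Adj u v) → Rigid G' p := by
    intro G' e hG'
    have hnd := fun u v (h : G'.Adj u v) => norm_deriv (N + 1) (p u - p v) ⟨0, by omega⟩
      (by simpa [p] using hx u v h.ne ⟨0, by omega⟩)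
    refine ⟨fun u v h => (hnd u v h).1, fun m hm u v => ?_⟩
    have := hr (e u) (fun v k => m v k) (fun a b hab hne => by
      simpa [p] using (hnd a b (hG' u a b hab hne)).2 _ (hm a b (hG' u a b hab hne))) u v
    ext k
    exact congrFun this k
  refine ⟨_, hF, ?_, p, key G (fun a => s(a, a)) (fun _ _ _ h _ => h), fun e _ =>
    key _ (fun _ => e) (fun _ u v h hne => by simpa using ⟨h, hne⟩)⟩
  intro e
  have : (2 * (N + 1) + 2 : ℕ) = 2 := by exact_mod_cast e
  omega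

end Pool.Agent.H5.RigidB
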