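import Mathlib

set_option autoImplicit false

namespace Pool.Agent.H5.RigidDefs

variable {V E : Type} [NormedAddCommGroup E] [NormedSpace ℝ E]

/-- The norm is differentiable at `p u - p v` for every edge `uv`. -/
def WellPositioned (G : SimpleGraph V) (p : V → E) : Prop :=
  ∀ u v, G.Adj u v → DifferentiableAt ℝ (fun x : E => ‖x‖) (p u - p v)

/-- `m` is an infinitesimal flex of the framework `(G, p)`. -/
def IsFlex (G : SimpleGraph V) (p m : V → E) : Prop :=
  ∀ u v, G.Adj u v → fderiv ℝ (fun x : E => ‖x‖) (p u - p v) (m u - m v) = 0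

/-- The framework is well-positioned and every infinitesimal flex is constant. -/
def Rigid (G : SimpleGraph V) (p : V → E) : Prop :=
  WellPositioned G p ∧ ∀ m, IsFlex G p m → ∀ u v, m u = m v

/-- The framework is rigid and stays rigid after deleting any one edge. -/
def RedundantlyRigid (G : SimpleGraph V) (p : V → E) : Prop :=
  Rigid G p ∧ ∀ e ∈ G.edgeSet, Rigid (G.deleteEdges {e}) p

/-- The edge set of `G` is the disjoint union of the edge sets of `d` Hamilton cycles of `G`. -/
def HamiltonUnion [DecidableEq V] (d : ℕ) (G : SimpleGraph V) : Prop :=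
  ∃ (a : Fin d → V) (H : ∀ k, G.Walk (a k) (a k)),
    (∀ k, (H k).IsHamiltonianCycle) ∧ ∀ e ∈ G.edgeSet, ∃! k, e ∈ (H k).edges

end Pool.Agent.H5.RigidDefs
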