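import Pool.Agent.H5.SAPDefs

set_option autoImplicit false

namespace Pool.Agent.H5.SAP

open Polynomial Matrix Pool.Agent.H5.SAPDefs

def dsum {α : Type} [Zero α] {m n : ℕ} (A : Matrix (Fin m) (Fin m) α) (B : Matrix (Fin n) (Fin n) α) :
    Matrix (Fin (m + n)) (Fin (m + n)) α :=
  Matrix.reindex finSumFinEquiv finSumFinEquiv (Matrix.fromBlocks A 0 0 B)

lemma charpoly_dsum {m n : ℕ} (A : Matrix (Fin m) (Fin m) ℝ) (B : Matrix (Fin n) (Fin n) ℝ) :
    (dsum A B).charpoly = A.charpoly * B.charpoly := by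
  rw [dsum, Matrix.charpoly_reindex, Matrix.charpoly_fromBlocks_zero₁₂]

lemma realizes_dsum {m n : ℕ} {P : Matrix (Fin m) (Fin m) SignType}
    {Q : Matrix (Fin n) (Fin n) SignType} {A : Matrix (Fin m) (Fin m) ℝ}
    {B : Matrix (Fin n) (Fin n) ℝ} (hA : Realizes P A) (hB : Realizes Q B) :
    Realizes (dsum P Q) (dsum A B) := by
  intro i j
  obtain ⟨i, rfl⟩ := finSumFinEquiv.surjective i
  obtain ⟨j, rfl⟩ := finSumFinEquiv.surjective j
  rcases i with i | i <;> rcases j with j | j <;>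
    simp only [dsum, reindex_apply, submatrix_apply, Equiv.symm_apply_apply, fromBlocks_apply₁₁,
      fromBlocks_apply₁₂, fromBlocks_apply₂₁, fromBlocks_apply₂₂, Matrix.zero_apply, sign_zero]
  · exact hA i j
  · exact hB i j

lemma of_realizes_dsum {m n : ℕ} {P : Matrix (Fin m) (Fin m) SignType}
    {Q : Matrix (Fin n) (Fin n) SignType} {M : Matrix (Fin (m + n)) (Fin (m + n)) ℝ}
    (h : Realizes (dsum P Q) M) : ∃ A B, Realizes P A ∧ Realizes Q B ∧ M = dsum A B := by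
  refine ⟨fun i j => M (finSumFinEquiv (Sum.inl i)) (finSumFinEquiv (Sum.inl j)),
    fun i j => M (finSumFinEquiv (Sum.inr i)) (finSumFinEquiv (Sum.inr j)), ?_, ?_, ?_⟩
  · intro i j
    rw [h]
    simp only [dsum, reindex_apply, submatrix_apply, Equiv.symm_apply_apply, fromBlocks_apply₁₁]
  · intro i j
    rw [h]
    simp only [dsum, reindex_apply, submatrix_apply, Equiv.symm_apply_apply, fromBlocks_apply₂₂]
  · ext i j
    have := h i j
    obtain ⟨i, rfl⟩ := finSumFinEquiv.surjective i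
    obtain ⟨j, rfl⟩ := finSumFinEquiv.surjective j
    rcases i with i | i <;> rcases j with j | j <;>
      simp only [dsum, reindex_apply, submatrix_apply, Equiv.symm_apply_apply, fromBlocks_apply₁₁,
        fromBlocks_apply₁₂, fromBlocks_apply₂₁, fromBlocks_apply₂₂, Matrix.zero_apply,
        sign_eq_zero_iff] at this ⊢
    · exact this
    · exact this

lemma super_dsum {m n : ℕ} {P P' : Matrix (Fin m) (Fin m) SignType}
    (Q : Matrix (Fin n) (Fin n) SignType) (h : IsSuperpattern P' P) :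
    IsSuperpattern (dsum P' Q) (dsum P Q) := by
  intro i j
  obtain ⟨i, rfl⟩ := finSumFinEquiv.surjective i
  obtain ⟨j, rfl⟩ := finSumFinEquiv.surjective j
  rcases i with i | i <;> rcases j with j | j <;>
    simp only [dsum, reindex_apply, submatrix_apply, Equiv.symm_apply_apply, fromBlocks_apply₁₁,
      fromBlocks_apply₁₂, fromBlocks_apply₂₁, fromBlocks_apply₂₂, Matrix.zero_apply, implies_true]
  exact h i j

def T2 : Matrix (Fin 2) (Fin 2) SignType := !![1, 1; -1, -1]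

lemma T2_real (p r : ℝ) : ∃ B, Realizes T2 B ∧ B.charpoly = X ^ 2 + C p * X + C r := by
  have h1 := le_abs_self p
  have h2 := neg_abs_le p
  have h3 := le_abs_self r
  have h4 := neg_abs_le r
  have h5 := abs_nonneg r
  set a := |p| + |r| + 1 with ha
  have hpa : 1 + |r| ≤ a + p := by linarith
  have ha1 : 1 ≤ a := by linarith [abs_nonneg p]
  have hc : 0 < a * (a + p) + r := by nlinarith
  refine ⟨!![a, 1; -(a * (a + p) + r), -(a + p)], ?_, ?_⟩
  · intro i j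
    fin_cases i <;> fin_cases j <;> simp only [T2] <;> simp [sign_eq_one_iff, sign_eq_neg_one_iff] <;>
      linarith
  · apply Polynomial.funext
    intro t
    rw [Matrix.eval_charpoly, Matrix.det_fin_two]
    simp
    ring

lemma ev4 (a b c d e f g h i j k l m n o p t : ℝ) :
    (Matrix.charpoly !![a, b, c, d; e, f, g, h; i, j, k, l; m, n, o, p]).eval t =
      (t - a) * ((t - f) * ((t - k) * (t - p) - l * o) + g * (-j * (t - p) - l * n)
          - h * (j * o + (t - k) * n))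
      + b * (-e * ((t - k) * (t - p) - l * o) + g * (-i * (t - p) - l * m) - h * (i * o + (t - k) * m))
      - c * (-e * (-j * (t - p) - l * n) - (t - f) * (-i * (t - p) - l * m) - h * (i * n - j * m))
      + d * (-e * (j * o + (t - k) * n) - (t - f) * (i * o + (t - k) * m) - g * (i * n - j * m)) := by
  rw [Matrix.eval_charpoly, Matrix.det_succ_row_zero]
  simp [Fin.sum_univ_succ, Matrix.det_fin_three, Matrix.submatrix, Fin.succAbove]
  ring

lemma eta4 {α : Type} (B : Matrix (Fin 4) (Fin 4) α) :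
    B = !![B 0 0, B 0 1, B 0 2, B 0 3; B 1 0, B 1 1, B 1 2, B 1 3; B 2 0, B 2 1, B 2 2, B 2 3;
      B 3 0, B 3 1, B 3 2, B 3 3] := by
  ext i j
  fin_cases i <;> fin_cases j <;> rfl

def M4 : Matrix (Fin 4) (Fin 4) SignType :=
  !![1, 1, -1, 0; -1, -1, 1, 0; 0, 0, 0, -1; 1, 1, 0, 0]

def M4' : Matrix (Fin 4) (Fin 4) SignType :=
  !![1, 1, -1, 0; -1, -1, 1, 0; -1, 0, 0, -1; 1, 1, 0, 0]

lemma M4_super : IsSuperpattern M4' M4 := by
  unfold IsSuperpattern
  decide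

def Q4 (E1 E2 E3 E4 : ℝ) : Prop :=
  ∃ B, Realizes M4 B ∧ ∀ t, B.charpoly.eval t = t ^ 4 - E1 * t ^ 3 + E2 * t ^ 2 - E3 * t + E4

lemma M4_core {E1 E2 E3 E4 e u v P Q : ℝ} (he : 0 < e) (ha : 0 < e + E1) (hb : 0 < e + v)
    (hc : 0 < e + E1 + u) (hP : 0 < P) (hQ : 0 < Q) (h2 : e * (u + v) + E1 * v + u * v = E2)
    (h3 : P - Q = E3) (h4 : P * v + Q * u = E4) : Q4 E1 E2 E3 E4 := by
  refine ⟨!![e + E1, e + v, -1, 0; -(e + E1 + u), -e, 1, 0; 0, 0, 0, -1; P, Q, 0, 0], ?_, ?_⟩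
  · intro i j
    fin_cases i <;> fin_cases j <;> simp only [M4] <;> simp [sign_eq_one_iff, sign_eq_neg_one_iff] <;>
      linarith
  · intro t
    rw [ev4, ← h2, ← h3, ← h4]
    ring

lemma ev_quad {A : ℝ} (hA : 0 < A) (B C : ℝ) :
    ∀ᶠ s : ℝ in Filter.atTop, 0 < A * s ^ 2 + B * s + C := by
  filter_upwards [Filter.eventually_ge_atTop (1 : ℝ),
    Filter.eventually_ge_atTop ((|B| + |C| + 1) / A)] with s h1 h2
  rw [div_le_iff₀ hA] at h2
  have := neg_abs_le B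
  have := neg_abs_le C
  have := abs_nonneg B
  have := abs_nonneg C
  nlinarith

lemma Q4_of_ne (E1 E2 E3 E4 : ℝ) (h : E3 ≠ 0) : Q4 E1 E2 E3 E4 := by
  obtain ⟨Q, hQ, hP⟩ : ∃ Q : ℝ, 0 < Q ∧ 0 < Q + E3 :=
    ⟨|E3| + 1, by positivity, by linarith [neg_abs_le E3]⟩
  set W := E2 - E1 * (E4 / E3) + (E4 / E3) ^ 2 with hW
  set K := (2 * (E4 / E3) - E1) / E3 with hK
  have hr : 0 < E3 ^ 2 := by positivity
  obtain ⟨s, ⟨⟨⟨h0, h1⟩, h2⟩, h3⟩, h4⟩ := (((((Filter.eventually_gt_atTop (0 : ℝ)).and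
    (ev_quad (A := Q * (Q + E3) / E3 ^ 2) (by positivity) (-K * Q - E4 / E3) W)).and
    (ev_quad (A := Q * (Q + E3) / E3 ^ 2) (by positivity) (-K * Q - E4 / E3 + E1) W)).and
    (ev_quad (A := Q ^ 2 / E3 ^ 2) (by positivity) (-K * Q) W)).and
    (ev_quad (A := (Q + E3) ^ 2 / E3 ^ 2) (by positivity) (-K * (Q + E3)) W)).exists
  have hs := h0.ne'
  refine M4_core (e := (Q * (Q + E3) / E3 ^ 2 * s ^ 2 + (-K * Q - E4 / E3) * s + W) / s)
    (v := (E4 - Q * s) / E3) (u := s - (E4 - Q * s) / E3) (P := Q + E3) (Q := Q)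
    (div_pos h1 h0) ?_ ?_ ?_ hP hQ ?_ (by ring) ?_
  · refine lt_of_lt_of_eq (div_pos h2 h0) ?_
    field_simp
    ring
  · refine lt_of_lt_of_eq (div_pos h3 h0) ?_
    field_simp
    ring
  · refine lt_of_lt_of_eq (div_pos h4 h0) ?_
    rw [hK]
    field_simp
    ring
  · rw [hK, hW]
    field_simp
    ring
  · field_simp
    ring

lemma Q4_of_pos (E1 E2 E4 : ℝ) (h : 0 < E4) : Q4 E1 E2 0 E4 := by
  obtain ⟨v, ⟨⟨h1, h2⟩, h3⟩, h4⟩ := ((((ev_quad one_pos (-(E1 + 1)) E2).and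
    (ev_quad one_pos (-(E1 + 1)) (E2 + E1))).and
    (ev_quad one_pos (-E1) E2)).and
    (ev_quad one_pos (-(E1 + 2)) (E2 + E1 + 1))).exists
  exact M4_core (e := 1 * v ^ 2 + (-(E1 + 1)) * v + E2) (v := v) (u := 1 - v) (P := E4) (Q := E4)
    h1 (by linarith) (by linarith) (by linarith) h h (by ring) (by ring) (by ring)

lemma Q4_of_roots (x y : ℝ) : Q4 (x + y) (x * y) 0 0 := by
  have := neg_abs_le x
  have := neg_abs_le y
  have := abs_nonneg x
  have := abs_nonneg y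
  exact M4_core (e := |x| + |y| + 1) (v := x) (u := -x) (P := 1) (Q := 1)
    (by positivity) (by linarith) (by linarith) (by linarith) one_pos one_pos (by ring) (by ring)
    (by ring)

/-- the pair of quadratics is realizable by M4 -/
def G (p r p' r' : ℝ) : Prop := Q4 (-(p + p')) (r + r' + p * p') (-(p * r' + p' * r)) (r * r')

lemma G_symm {p r p' r' : ℝ} (h : G p r p' r') : G p' r' p r := by
  unfold G at *
  convert h using 1 <;> ring

lemma G1 {p r p' r' : ℝ} (h : p * r' + p' * r ≠ 0) : G p r p' r' :=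
  Q4_of_ne _ _ _ _ (neg_ne_zero.2 h)

lemma G2 {p r p' r' : ℝ} (h : 0 < r * r') : G p r p' r' := by
  by_cases h1 : p * r' + p' * r = 0
  · unfold G
    rw [h1, neg_zero]
    exact Q4_of_pos _ _ _ h
  · exact G1 h1

lemma G3 (p p' : ℝ) : G p 0 p' 0 := by
  unfold G
  convert Q4_of_roots (-p) (-p') using 1 <;> ring

lemma G4 (p r : ℝ) (h : r < 0) : G p r 0 0 := by
  unfold G
  have hs := Real.sq_sqrt (show 0 ≤ p ^ 2 - 4 * r by nlinarith [sq_nonneg p])
  convert Q4_of_roots ((-p + √(p ^ 2 - 4 * r)) / 2) ((-p - √(p ^ 2 - 4 * r)) / 2) using 1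
  · ring
  · linear_combination (1 / 4) * hs
  · ring
  · ring

lemma G_zero (p1 r1 p2 r2 p3 : ℝ) : G p1 r1 p2 r2 ∨ G p1 r1 p3 0 ∨ G p2 r2 p3 0 := by
  by_cases h1 : r1 = 0
  · subst h1; exact Or.inr (Or.inl (G3 _ _))
  by_cases h2 : r2 = 0
  · subst h2; exact Or.inr (Or.inr (G3 _ _))
  by_cases h3 : p3 = 0
  · subst h3
    rcases lt_or_gt_of_ne h1 with h1 | h1
    · exact Or.inr (Or.inl (G4 _ _ h1))
    rcases lt_or_gt_of_ne h2 with h2 | h2
    · exact Or.inr (Or.inr (G4 _ _ h2))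
    exact Or.inl (G2 (mul_pos h1 h2))
  · exact Or.inr (Or.inl (G1 (by simp [h1, h3])))

lemma G_any (p1 r1 p2 r2 p3 r3 : ℝ) : G p1 r1 p2 r2 ∨ G p1 r1 p3 r3 ∨ G p2 r2 p3 r3 := by
  by_cases h3 : r3 = 0
  · subst h3; exact G_zero _ _ _ _ _
  by_cases h2 : r2 = 0
  · subst h2
    rcases G_zero p1 r1 p3 r3 p2 with h | h | h
    · exact Or.inr (Or.inl h)
    · exact Or.inl h
    · exact Or.inr (Or.inr (G_symm h))
  by_cases h1 : r1 = 0
  · subst h1
    rcases G_zero p2 r2 p3 r3 p1 with h | h | h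
    · exact Or.inr (Or.inr h)
    · exact Or.inl (G_symm h)
    · exact Or.inr (Or.inl (G_symm h))
  rcases lt_or_gt_of_ne h1 with h1 | h1 <;> rcases lt_or_gt_of_ne h2 with h2 | h2 <;>
    rcases lt_or_gt_of_ne h3 with h3 | h3 <;>
    first
      | exact Or.inl (G2 (by nlinarith))
      | exact Or.inr (Or.inl (G2 (by nlinarith)))
      | exact Or.inr (Or.inr (G2 (by nlinarith)))

lemma G_real {p r p' r' : ℝ} (h : G p r p' r') (p'' r'' : ℝ) :
    ∃ B, Realizes (dsum M4 T2) B ∧ B.charpoly =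
      (X ^ 2 + C p * X + C r) * (X ^ 2 + C p' * X + C r') * (X ^ 2 + C p'' * X + C r'') := by
  obtain ⟨A, hA, hA'⟩ := h
  obtain ⟨B, hB, hB'⟩ := T2_real p'' r''
  refine ⟨dsum A B, realizes_dsum hA hB, ?_⟩
  rw [charpoly_dsum, hB']
  congr 1
  apply Polynomial.funext
  intro t
  rw [hA']
  simp
  ring

theorem sap : SpectrallyArbitrary (dsum M4 T2) := by
  intro p hm hd
  have h : IsMonicOfDegree p (4 + 2) := ⟨hd, hm⟩
  obtain ⟨f1, g, h1, hg, rfl⟩ := h.eq_isMonicOfDegree_two_mul_isMonicOfDegree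
  obtain ⟨f2, f3, h2, h3, rfl⟩ :=
    IsMonicOfDegree.eq_isMonicOfDegree_two_mul_isMonicOfDegree (n := 2) hg
  obtain ⟨p1, r1, rfl⟩ := isMonicOfDegree_two_iff.1 h1
  obtain ⟨p2, r2, rfl⟩ := isMonicOfDegree_two_iff.1 h2
  obtain ⟨p3, r3, rfl⟩ := isMonicOfDegree_two_iff.1 h3
  rcases G_any p1 r1 p2 r2 p3 r3 with h | h | h
  · obtain ⟨B, hB, hB'⟩ := G_real h p3 r3
    exact ⟨B, hB, by rw [hB']; ring⟩
  · obtain ⟨B, hB, hB'⟩ := G_real h p2 r2
    exact ⟨B, hB, by rw [hB']; ring⟩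
  · obtain ⟨B, hB, hB'⟩ := G_real h p1 r1
    exact ⟨B, hB, by rw [hB']; ring⟩

lemma not_nil {a b c d e f g h k s : ℝ} (hb : 0 < b) (hc : 0 < c)
    (hg : 0 < g) (hk : 0 < k) (hs : 0 < s) (h1 : a = e) (h2 : b * d - a * e - c * s = 0)
    (h3 : g * (c * h - f * k) = s * (b * f - c * e))
    (h4 : g * (h * (b * f - c * e) - k * (a * f - c * d)) = 0) : False := by
  subst h1
  have key : s * (b * f - c * a) ^ 2 * b + g * k * ((b * f - c * a) ^ 2 + c ^ 3 * s) = 0 := by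
    linear_combination b * c * h4 - b * (b * f - c * a) * h3 - g * k * c ^ 2 * h2
  have : 0 < s * (b * f - c * a) ^ 2 * b + g * k * ((b * f - c * a) ^ 2 + c ^ 3 * s) := by
    positivity
  linarith

theorem not_sap : ¬ SpectrallyArbitrary (dsum M4' T2) := by
  intro h
  obtain ⟨M, hM, hc⟩ := h (X ^ 6) (monic_X_pow 6) (by simp)
  obtain ⟨A, B, hA, -, rfl⟩ := of_realizes_dsum hM
  rw [charpoly_dsum] at hc
  obtain ⟨i, -, hi⟩ := (dvd_prime_pow Polynomial.prime_X 6).1 ⟨_, hc.symm⟩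
  have h1 := Polynomial.eq_of_monic_of_associated (Matrix.charpoly_monic A) (monic_X_pow i) hi
  have h2 : i = 4 := by
    have := congrArg natDegree h1
    simpa using this.symm
  subst h2
  have hev : ∀ t : ℝ, A.charpoly.eval t = t ^ 4 := fun t => by rw [h1]; simp
  rw [eta4 A] at hev
  simp only [ev4] at hev
  have s00 : 0 < A 0 0 := sign_eq_one_iff.1 (hA 0 0)
  have s01 : 0 < A 0 1 := sign_eq_one_iff.1 (hA 0 1)
  have s02 : A 0 2 < 0 := sign_eq_neg_one_iff.1 (hA 0 2)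
  have s03 : A 0 3 = 0 := sign_eq_zero_iff.1 (hA 0 3)
  have s13 : A 1 3 = 0 := sign_eq_zero_iff.1 (hA 1 3)
  have s20 : A 2 0 < 0 := sign_eq_neg_one_iff.1 (hA 2 0)
  have s21 : A 2 1 = 0 := sign_eq_zero_iff.1 (hA 2 1)
  have s22 : A 2 2 = 0 := sign_eq_zero_iff.1 (hA 2 2)
  have s23 : A 2 3 < 0 := sign_eq_neg_one_iff.1 (hA 2 3)
  have s31 : 0 < A 3 1 := sign_eq_one_iff.1 (hA 3 1)
  have s32 : A 3 2 = 0 := sign_eq_zero_iff.1 (hA 3 2)
  have s33 : A 3 3 = 0 := sign_eq_zero_iff.1 (hA 3 3)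
  rw [s03, s13, s21, s22, s32, s33] at hev
  have e0 := hev 0
  have e1 := hev 1
  have e2 := hev (-1)
  have e3 := hev 2
  refine not_nil (a := A 0 0) (b := A 0 1) (c := -A 0 2) (d := -A 1 0) (e := -A 1 1) (f := A 1 2)
    (g := -A 2 3) (h := A 3 0) (k := A 3 1) (s := -A 2 0) s01 (by linarith) (by linarith) s31
    (by linarith) ?_ ?_ ?_ ?_
  · linear_combination (-1 / 2) * e0 + (1 / 2) * e1 + (1 / 6) * e2 - (1 / 6) * e3
  · linear_combination -e0 + (1 / 2) * e1 + (1 / 2) * e2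
  · linear_combination (1 / 2) * e0 - e1 + (1 / 3) * e2 + (1 / 6) * e3
  · linear_combination e0

end Pool.Agent.H5.SAP
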