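import Mathlib

set_option autoImplicit false

namespace Pool.Agent.H5.SAPDefs

open Polynomial

/-- `B` is a realization of the sign pattern `A` (`B` lies in the qualitative class of `A`). -/
def Realizes {n : ℕ} (A : Matrix (Fin n) (Fin n) SignType) (B : Matrix (Fin n) (Fin n) ℝ) : Prop :=
  ∀ i j, SignType.sign (B i j) = A i j

/-- `A'` is a superpattern of `A`: it agrees with `A` at every nonzero entry of `A`. -/
def IsSuperpattern {n : ℕ} (A' A : Matrix (Fin n) (Fin n) SignType) : Prop :=
  ∀ i j, A i j ≠ 0 → A' i j = A i j

/-- Every monic real polynomial of degree `n` is the characteristic polynomial of a realization. -/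
def SpectrallyArbitrary {n : ℕ} (A : Matrix (Fin n) (Fin n) SignType) : Prop :=
  ∀ p : ℝ[X], p.Monic → p.natDegree = n → ∃ B, Realizes A B ∧ B.charpoly = p

/-- Numbers of complex eigenvalues (with multiplicity) with positive, negative, zero real part. -/
noncomputable def inertia {n : ℕ} (B : Matrix (Fin n) (Fin n) ℝ) : ℕ × ℕ × ℕ :=
  ((B.charpoly.aroots ℂ).countP (fun z => 0 < z.re),
   (B.charpoly.aroots ℂ).countP (fun z => z.re < 0),
   (B.charpoly.aroots ℂ).countP (fun z => z.re = 0))

/-- Every triple of nonnegative integers with sum `n` is the inertia of a realization. -/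
def InertiallyArbitrary {n : ℕ} (A : Matrix (Fin n) (Fin n) SignType) : Prop :=
  ∀ p q r : ℕ, p + q + r = n → ∃ B, Realizes A B ∧ inertia B = (p, q, r)

end Pool.Agent.H5.SAPDefs
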