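import Mathlib

namespace Pool.Agent.H5.Sab
open Set Cardinal MeasureTheory Filter Topology

def sat (S : Set ℝ) : Set ℝ := {x | ∃ s ∈ S, ∃ q : ℚ, x = s + q}

lemma sat_small {S : Set ℝ} (h : #S < continuum) : #(sat S) < continuum := by
  have : sat S ⊆ range fun p : S × ℚ => p.1.1 + p.2 := by
    rintro _ ⟨s, hs, q, rfl⟩; exact ⟨(⟨s, hs⟩, q), rfl⟩
  refine (mk_le_mk_of_subset this).trans_lt (mk_range_le.trans_lt ?_)
  simp only [mk_prod, lift_id, mk_eq_aleph0]
  exact mul_lt_of_lt aleph0_le_continuum h aleph0_lt_continuum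

lemma diag {K : Type} (hK : #K ≤ continuum) (L : K → ℝ → ℝ) (N : K → Set ℝ)
    (hN : ∀ k, #(N k) = continuum) (hL : ∀ k, Function.Injective (L k))
    (hN2 : ∀ k, ∀ x ∈ N k, L k x ∉ sat {x}) (a b : ℝ) (ha : Irrational a) (hb : Irrational b) :
    ∃ E : Set ℝ, (∀ q : ℚ, (q : ℝ) ∈ E) ∧ (∀ x ∈ E, ∀ q : ℚ, x + q ∈ E) ∧ a ∉ E ∧ b ∉ E ∧
      ∀ k, ∃ x ∈ N k, x ∈ E ∧ L k x ∉ E ∧ L k x ≠ a ∧ L k x ≠ b := by
  classical
  obtain ⟨_, _, hord⟩ := Cardinal.exists_ord_eq_type_lt K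
  have hsmall : ∀ (k : K) (f : Set.Iio k → ℝ), ∃ r ∈ N k,
      r ∉ sat ({a, b} ∪ range fun j : Iio k => L j.1 (f j)) ∧
        L k r ∉ sat ({0, a, b} ∪ range f) := by
    intro k f
    by_contra hh
    push Not at hh
    have h1 : ∀ g : Iio k → ℝ, #(range g) < continuum := fun g =>
      (mk_range_le.trans_lt (mk_Iio_lt k hord)).trans_le hK
    have h2 : ∀ (T : Set ℝ) (g : Iio k → ℝ), T.Finite → #(sat (T ∪ range g)) < continuum :=
      fun T g hT => sat_small ((mk_union_le _ _).trans_lt (add_lt_of_lt aleph0_le_continuum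
        (hT.lt_aleph0.trans aleph0_lt_continuum) (h1 g)))
    have h3 : N k ⊆ sat ({a, b} ∪ range fun j : Iio k => L j.1 (f j)) ∪
        L k ⁻¹' sat ({0, a, b} ∪ range f) := by
      intro r hr
      by_cases h : r ∈ sat ({a, b} ∪ range fun j : Iio k => L j.1 (f j))
      · exact Or.inl h
      · exact Or.inr (hh r hr h)
    have h4 := (mk_le_mk_of_subset h3).trans_lt ((mk_union_le _ _).trans_lt
      (add_lt_of_lt aleph0_le_continuum (h2 _ _ (toFinite _))
        ((mk_preimage_of_injective _ _ (hL k)).trans_lt (h2 _ _ (toFinite _)))))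
    rw [hN k] at h4
    exact lt_irrefl _ h4
  choose F hF hF1 hF2 using hsmall
  let v : K → ℝ := WellFoundedLT.fix (motive := fun _ => ℝ) fun k f => F k (fun j => f j.1 j.2)
  have hv : ∀ k, v k = F k (fun j => v j.1) := fun k => by
    simp only [v]
    rw [WellFoundedLT.fix_eq]
  have g1 : ∀ k, v k ∉ sat ({a, b} ∪ range fun j : Iio k => L j.1 (v j.1)) := fun k => by
    have := hF1 k (fun j => v j.1); rwa [← hv k] at this
  have g2 : ∀ k, L k (v k) ∉ sat ({0, a, b} ∪ range fun j : Iio k => v j.1) := fun k => by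
    have := hF2 k (fun j => v j.1); rwa [← hv k] at this
  have g0 : ∀ k, v k ∈ N k := fun k => hv k ▸ hF k _
  have nab : ∀ c, Irrational c → c ∈ ({a, b} : Set ℝ) → c ∉ sat ({0} ∪ range v) := by
    rintro c hc hc' ⟨s, hs | ⟨k, rfl⟩, q, e⟩
    · obtain rfl : s = 0 := hs
      exact hc ⟨q, by rw [e]; simp⟩
    · exact g1 k ⟨c, Or.inl hc', -q, by rw [e]; simp⟩
  refine ⟨sat ({0} ∪ range v), fun q => ⟨0, Or.inl rfl, q, by simp⟩, ?_, nab a ha (by simp),
    nab b hb (by simp), fun k => ⟨v k, g0 k, ⟨v k, Or.inr ⟨k, rfl⟩, 0, by simp⟩, ?_, ?_, ?_⟩⟩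
  · rintro _ ⟨s, hs, q, rfl⟩ q'
    exact ⟨s, hs, q + q', by push_cast; ring⟩
  · rintro ⟨s, hs | ⟨j, rfl⟩, q, e⟩
    · exact g2 k ⟨s, Or.inl (Or.inl hs), q, e⟩
    · rcases lt_trichotomy j k with h | rfl | h
      · exact g2 k ⟨_, Or.inr ⟨⟨j, h⟩, rfl⟩, q, e⟩
      · exact hN2 j _ (g0 j) ⟨_, rfl, q, e⟩
      · exact g1 j ⟨_, Or.inr ⟨⟨k, h⟩, rfl⟩, -q, by simp [e]⟩
  · exact fun e => g2 k ⟨a, Or.inl (by simp), 0, by simp [e]⟩
  · exact fun e => g2 k ⟨b, Or.inl (by simp), 0, by simp [e]⟩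

lemma null_small {M : Set ℝ} (hM : MeasurableSet M) (h : #M < continuum) : volume M = 0 := by
  by_contra h0
  have h1 := Measure.sub_mem_nhds_zero_of_addHaar_pos volume M hM (pos_iff_ne_zero.2 h0)
  obtain ⟨l, u, hlu, hsub⟩ := mem_nhds_iff_exists_Ioo_subset.1 h1
  have h2 : Ioo l u ⊆ range fun p : M × M => p.1.1 - p.2.1 := by
    intro x hx
    obtain ⟨y, hy, z, hz, rfl⟩ := hsub hx
    exact ⟨(⟨y, hy⟩, ⟨z, hz⟩), rfl⟩
  have h3 := (mk_le_mk_of_subset h2).trans mk_range_le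
  rw [mk_Ioo_real (hlu.1.trans hlu.2)] at h3
  simp only [mk_prod, lift_id] at h3
  exact (mul_lt_of_lt aleph0_le_continuum h h).not_ge h3

lemma expand {L : ℝ → ℝ} (hL : StrictMono L) (h : #{x | L x ∉ sat {x}} < continuum) {u v : ℝ}
    (huv : u ≤ v) : v - u ≤ L v - L u := by
  have hm : Measurable L := hL.monotone.measurable
  let S : ℚ → Set ℝ := fun q => Icc u v ∩ {x | L x = x + q}
  have mS : ∀ q, MeasurableSet (S q) := fun q =>
    measurableSet_Icc.inter (measurableSet_eq_fun hm (by fun_prop))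
  let T : ℚ → Set ℝ := fun q => (fun y => y + (-q : ℝ)) ⁻¹' S q
  have mT : ∀ q, MeasurableSet (T q) := fun q => (mS q).preimage (by fun_prop)
  have dT : Pairwise (Function.onFun Disjoint T) := by
    intro q r hqr
    refine disjoint_left.2 fun y h1 h2 => hqr ?_
    have e1 : L (y + -q) = y + -q + q := h1.2
    have e2 : L (y + -r) = y + -r + r := h2.2
    have := hL.injective (a₁ := y + -q) (a₂ := y + -r) (by rw [e1, e2]; ring)
    exact_mod_cast (by linarith : (q : ℝ) = r)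
  have h1 : ⋃ q, T q ⊆ Icc (L u) (L v) := by
    intro y hy
    obtain ⟨q, hq⟩ := mem_iUnion.1 hy
    have e1 : L (y + -q) = y + -q + q := hq.2
    have e2 : y = L (y + -q) := by rw [e1]; ring
    rw [e2]
    exact ⟨hL.monotone hq.1.1, hL.monotone hq.1.2⟩
  have h2 : Icc u v ⊆ (⋃ q, S q) ∪ (Icc u v \ ⋃ q, S q) := by
    intro x hx
    by_cases h : x ∈ ⋃ q, S q
    · exact Or.inl h
    · exact Or.inr ⟨hx, h⟩
  have h3 : volume (Icc u v \ ⋃ q, S q) = 0 := by
    refine null_small (measurableSet_Icc.diff (MeasurableSet.iUnion mS))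
      ((mk_le_mk_of_subset ?_).trans_lt h)
    rintro x ⟨hx, hx'⟩ ⟨s, hs, q, e⟩
    obtain rfl : s = x := hs
    exact hx' (mem_iUnion.2 ⟨q, hx, e⟩)
  have h4 : volume (Icc u v) ≤ volume (Icc (L u) (L v)) := by
    calc volume (Icc u v) ≤ volume (⋃ q, S q) + 0 :=
          (measure_mono h2).trans ((measure_union_le _ _).trans (by rw [h3]))
      _ ≤ ∑' q, volume (T q) := by
          rw [add_zero]
          refine (measure_iUnion_le _).trans (le_of_eq (tsum_congr fun q => ?_))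
          exact (measure_preimage_add_right volume _ _).symm
      _ = volume (⋃ q, T q) := (measure_iUnion dT mT).symm
      _ ≤ _ := measure_mono h1
  rw [Real.volume_Icc, Real.volume_Icc] at h4
  exact (ENNReal.ofReal_le_ofReal_iff (sub_nonneg.2 (hL.monotone huv))).1 h4

noncomputable def LL (s : ℚ → ℝ) (x : ℝ) : ℝ := sSup (s '' {q | (q : ℝ) < x})

lemma LL_le {s : ℚ → ℝ} {x c : ℝ} (h : ∀ q : ℚ, (q : ℝ) < x → s q ≤ c) : LL s x ≤ c := by
  obtain ⟨q, hq⟩ := exists_rat_lt x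
  refine csSup_le ⟨_, q, hq, rfl⟩ ?_
  rintro _ ⟨r, hr, rfl⟩
  exact h r hr

lemma le_LL {s : ℚ → ℝ} (hs : StrictMono s) {x : ℝ} {q : ℚ} (h : (q : ℝ) < x) : s q ≤ LL s x := by
  obtain ⟨r, hr⟩ := exists_rat_gt x
  refine le_csSup ⟨s r, ?_⟩ ⟨q, h, rfl⟩
  rintro _ ⟨p, hp, rfl⟩
  exact hs.monotone (by exact_mod_cast (lt_trans hp hr).le)

lemma LL_mono {s : ℚ → ℝ} (hs : StrictMono s) : StrictMono (LL s) := by
  intro x y hxy
  obtain ⟨p, h1, h2⟩ := exists_rat_btwn hxy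
  obtain ⟨r, h3, h4⟩ := exists_rat_btwn h2
  calc LL s x ≤ s p := LL_le fun q hq => hs.monotone (by exact_mod_cast (hq.trans h1).le)
    _ < s r := hs (by exact_mod_cast h3)
    _ ≤ _ := le_LL hs h4

def NN (s : ℚ → ℝ) : Set ℝ := {x | x ∈ Icc (0 : ℝ) 1 ∧ ContinuousAt (LL s) x ∧ LL s x ∉ sat {x}}

theorem exists_E (a b : ℝ) (ha : Irrational a) (hb : Irrational b) :
    ∃ E : Set ℝ, (∀ q : ℚ, (q : ℝ) ∈ E) ∧ (∀ x ∈ E, ∀ q : ℚ, x + q ∈ E) ∧ a ∉ E ∧ b ∉ E ∧
      ∀ (A : Set ℝ) (h : ℝ → ℝ), Icc 0 1 ∩ E ⊆ A → A ⊆ Icc 0 1 → StrictMonoOn h A →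
        (∀ x ∈ A, h x ∈ Icc (0 : ℝ) 1 ∧ (h x ∈ E ∨ h x = a ∨ h x = b)) →
        ∀ x ∈ A, x < 1 → h x = x := by
  obtain ⟨E, e1, e2, e3, e4, e5⟩ := diag (K := {s : ℚ → ℝ // StrictMono s ∧ #(NN s) = continuum})
    ((mk_subtype_le _).trans (by simp [mk_real])) (fun k => LL k.1) (fun k => NN k.1) (fun k => k.2.2)
    (fun k => (LL_mono k.2.1).injective) (fun k x hx => hx.2.2) a b ha hb
  refine ⟨E, e1, e2, e3, e4, fun A h hA1 hA2 hh hr => ?_⟩
  classical
  let s : ℚ → ℝ := fun q => if (q : ℝ) ∈ Icc (0 : ℝ) 1 then h q else q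
  have qA : ∀ q : ℚ, (q : ℝ) ∈ Icc (0 : ℝ) 1 → (q : ℝ) ∈ A := fun q hq => hA1 ⟨hq, e1 q⟩
  have lo : ∀ x ∈ A, ∀ q : ℚ, (q : ℝ) < x → s q < h x := by
    intro x hx q hq
    simp only [s]
    split_ifs with c
    · exact hh (qA q c) hx hq
    · have : (q : ℝ) < 0 := by
        by_contra c2; exact c ⟨not_lt.1 c2, (hq.trans_le (hA2 hx).2).le⟩
      exact this.trans_le (hr x hx).1.1
  have hi : ∀ x ∈ A, ∀ q : ℚ, x < (q : ℝ) → h x < s q := by
    intro x hx q hq
    simp only [s]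
    split_ifs with c
    · exact hh hx (qA q c) hq
    · have : 1 < (q : ℝ) := by
        by_contra c2; exact c ⟨((hA2 hx).1.trans_lt hq).le, not_lt.1 c2⟩
      exact (hr x hx).1.2.trans_lt this
  have hs : StrictMono s := by
    intro p q hpq
    have hpq' : (p : ℝ) < q := by exact_mod_cast hpq
    by_cases c : (q : ℝ) ∈ Icc (0 : ℝ) 1
    · have := lo _ (qA q c) p hpq'
      simpa only [s, if_pos c] using this
    by_cases c' : (p : ℝ) ∈ Icc (0 : ℝ) 1
    · have := hi _ (qA p c') q hpq'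
      simpa only [s, if_pos c'] using this
    simpa only [s, if_neg c, if_neg c'] using hpq'
  have b1 : ∀ x ∈ A, LL s x ≤ h x := fun x hx => LL_le fun q hq => (lo x hx q hq).le
  have b2 : ∀ x ∈ A, ∀ y, x < y → h x ≤ LL s y := fun x hx y hy => by
    obtain ⟨q, h1, h2⟩ := exists_rat_btwn hy
    exact (hi x hx q h1).le.trans (le_LL hs h2)
  have out : ∀ q : ℚ, (q : ℝ) ∉ Icc (0 : ℝ) 1 → s q = q := fun q c => if_neg c
  have s1 : ∀ q : ℚ, ∀ c : ℝ, 1 ≤ c → (q : ℝ) < c → s q ≤ c := by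
    intro q c hc hq
    by_cases d : (q : ℝ) ∈ Icc (0 : ℝ) 1
    · simp only [s, if_pos d]; exact (hr _ (qA q d)).1.2.trans hc
    · rw [out q d]; exact hq.le
  have outL : ∀ x, x ∉ Icc (0 : ℝ) 1 → LL s x = x := by
    intro x hx
    rw [mem_Icc, not_and_or, not_le, not_le] at hx
    rcases hx with hx | hx
    · refine le_antisymm (LL_le fun q hq => ?_) (le_of_forall_lt fun c hc => ?_)
      · rw [out q fun d => by linarith [d.1]]; exact hq.le
      · obtain ⟨q, h1, h2⟩ := exists_rat_btwn hc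
        have := le_LL hs h2
        rw [out q fun d => by linarith [d.1]] at this
        linarith
    · refine le_antisymm (LL_le fun q hq => s1 q x hx.le hq) (le_of_forall_lt fun c hc => ?_)
      obtain ⟨q, h1, h2⟩ := exists_rat_btwn (max_lt hc hx)
      have := le_LL hs h2
      rw [out q fun d => by linarith [d.2, le_max_right c 1]] at this
      linarith [le_max_left c 1]
  have small : #(NN s) < continuum := by
    refine lt_of_le_of_ne ((mk_set_le _).trans mk_real.le) fun hc => ?_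
    obtain ⟨x, hx, hxE, n1, n2, n3⟩ := e5 ⟨s, hs, hc⟩
    have hxA : x ∈ A := hA1 ⟨hx.1, hxE⟩
    have : LL s x = h x := by
      refine le_antisymm (b1 x hxA) ?_
      refine ge_of_tendsto (hx.2.1.tendsto.mono_left (nhdsWithin_le_nhds (s := Ioi x))) ?_
      filter_upwards [self_mem_nhdsWithin] with y hy using b2 x hxA y hy
    simp only [this] at n1 n2 n3
    rcases (hr x hxA).2 with c | c | c
    exacts [n1 c, n2 c, n3 c]
  have small2 : #{x | LL s x ∉ sat {x}} < continuum := by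
    have : {x | LL s x ∉ sat {x}} ⊆ NN s ∪ {x | ¬ ContinuousAt (LL s) x} := by
      intro x hx
      by_cases c : ContinuousAt (LL s) x
      · refine Or.inl ⟨?_, c, hx⟩
        by_contra d
        exact hx ⟨x, rfl, 0, by simp [outL x d]⟩
      · exact Or.inr c
    refine (mk_le_mk_of_subset this).trans_lt ((mk_union_le _ _).trans_lt
      (add_lt_of_lt aleph0_le_continuum small ?_))
    exact ((LL_mono hs).monotone.countable_not_continuousAt.le_aleph0).trans_lt aleph0_lt_continuum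
  have idL : ∀ x ∈ Icc (0 : ℝ) 1, LL s x = x := by
    intro x hx
    have u1 := expand (LL_mono hs) small2 (show (-1 : ℝ) ≤ x by linarith [hx.1])
    have u2 := expand (LL_mono hs) small2 (show x ≤ 2 by linarith [hx.2])
    rw [outL (-1) (by simp)] at u1
    rw [outL 2 (by simp)] at u2
    linarith
  intro x hx hx1
  refine le_antisymm (le_of_forall_gt fun c hc => ?_) (by rw [← idL x (hA2 hx)] ; simpa [idL x (hA2 hx)] using b1 x hx)
  obtain ⟨y, h1, h2⟩ := exists_between (lt_min hc hx1)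
  have := b2 x hx y h1
  rw [idL y ⟨(hA2 hx).1.trans h1.le, (h2.trans_le (min_le_right _ _)).le⟩] at this
  exact this.trans_lt (h2.trans_le (min_le_left _ _))

end Pool.Agent.H5.Sab
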