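import Mathlib
import Pool.Agent.H5.Sab1

namespace Pool.Agent.H5.Sab
open Set

lemma ext_emb {S : Set ℝ} {X : Type} [LinearOrder X] (f : S ↪o X) (hS : S.Nonempty) :
    ∃ F : ℝ → X, StrictMonoOn F S ∧ ∀ x : S, F x = f x := by
  classical
  refine ⟨fun x => if h : x ∈ S then f ⟨x, h⟩ else f ⟨_, hS.some_mem⟩, fun x hx y hy hxy => ?_,
    fun x => by simp⟩
  simp only [dif_pos hx, dif_pos hy]
  exact f.strictMono hxy

lemma emb_of {S : Set ℝ} {X : Type} [LinearOrder X] {F : ℝ → X} (h : StrictMonoOn F S) :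
    Nonempty (S ↪o X) :=
  ⟨OrderEmbedding.ofStrictMono (fun x => F x.1) fun x y hxy => h x.2 y.2 hxy⟩

lemma glue {S : Set ℝ} {X : Type} [LinearOrder X] {F G : ℝ → X} (c : ℝ)
    (h1 : ∀ x ∈ S, ∀ y ∈ S, x < y → y ≤ c → F x < F y)
    (h2 : ∀ x ∈ S, ∀ y ∈ S, x < y → c < x → G x < G y)
    (h3 : ∀ x ∈ S, ∀ y ∈ S, x ≤ c → c < y → F x < G y) :
    StrictMonoOn (fun x => if x ≤ c then F x else G x) S := by
  intro x hx y hy hxy
  simp only
  split_ifs with c1 c2 c2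
  · exact h1 x hx y hy hxy c2
  · exact h3 x hx y hy c1 (not_le.1 c2)
  · exact absurd (hxy.le.trans c2) c1
  · exact h2 x hx y hy hxy (not_le.1 c1)

def ch (E P : Set ℝ) : Set ℝ := Icc 0 1 ∩ (E ∪ P)

lemma no_emb {E : Set ℝ} {a b c d : ℝ} (hc : c ∈ Ioo (0 : ℝ) 1) (hcE : c ∉ E) (hcd : c ≠ d)
    (hd : d = a ∨ d = b)
    (H : ∀ (A : Set ℝ) (h : ℝ → ℝ), Icc 0 1 ∩ E ⊆ A → A ⊆ Icc 0 1 → StrictMonoOn h A →
        (∀ x ∈ A, h x ∈ Icc (0 : ℝ) 1 ∧ (h x ∈ E ∨ h x = a ∨ h x = b)) →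
        ∀ x ∈ A, x < 1 → h x = x) : IsEmpty (ch E {c} ↪o ch E {d}) := by
  refine ⟨fun f => ?_⟩
  have hcA : c ∈ ch E {c} := ⟨⟨hc.1.le, hc.2.le⟩, Or.inr rfl⟩
  obtain ⟨F, hF, hF'⟩ := ext_emb f ⟨c, hcA⟩
  have := H (ch E {c}) (fun x => (F x).1) (fun x hx => ⟨hx.1, Or.inl hx.2⟩) (fun x hx => hx.1)
    (fun x hx y hy hxy => hF hx hy hxy) (fun x _ => ⟨(F x).2.1, (F x).2.2.elim Or.inl fun h =>
      Or.inr (by have h' : (F x).1 = d := h
                 rw [h']; exact hd)⟩) c hcA hc.2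
  have h2 := (F c).2.2
  have h3 : (F c).1 = c := this
  rw [h3] at h2
  exact h2.elim hcE hcd

lemma sup_emb {E : Set ℝ} {a b : ℝ} (h0 : 0 < a) (hab : a < b) (h1 : b < 1)
    (e1 : ∀ q : ℚ, (q : ℝ) ∈ E) (e2 : ∀ x ∈ E, ∀ q : ℚ, x + q ∈ E)
    {X : Type} [LinearOrder X] (f : ch E {a} ↪o X) (g : ch E {b} ↪o X) :
    Nonempty (ch E {a, b} ↪o X) := by
  classical
  have haA : a ∈ ch E {a} := ⟨⟨h0.le, by linarith⟩, Or.inr rfl⟩
  have hbB : b ∈ ch E {b} := ⟨⟨by linarith, h1.le⟩, Or.inr rfl⟩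
  obtain ⟨F, hF, -⟩ := ext_emb f ⟨a, haA⟩
  obtain ⟨G, hG, -⟩ := ext_emb g ⟨b, hbB⟩
  have mA : ∀ x ∈ ch E {a, b}, x ≠ b → x ∈ ch E {a} := by
    rintro x ⟨hx, h | h | h⟩ hb
    exacts [⟨hx, Or.inl h⟩, ⟨hx, Or.inr h⟩, absurd h hb]
  have mB : ∀ x ∈ ch E {a, b}, x ≠ a → x ∈ ch E {b} := by
    rintro x ⟨hx, h | h | h⟩ hb
    exacts [⟨hx, Or.inl h⟩, absurd h hb, ⟨hx, Or.inr h⟩]
  have mE : ∀ x ∈ ch E {a, b}, x ≠ a → x ≠ b → x ∈ E := by
    rintro x ⟨hx, h | h | h⟩ ha hb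
    exacts [h, absurd h ha, absurd h hb]
  by_cases c : ∀ y ∈ ch E {b}, a < y → F a < G y
  · refine emb_of (glue (F := F) (G := G) a ?_ ?_ ?_)
    · intro x hx y hy hxy hy'
      exact hF (mA x hx (by linarith)) (mA y hy (by linarith)) hxy
    · intro x hx y hy hxy hx'
      exact hG (mB x hx (by linarith)) (mB y hy (by linarith)) hxy
    · intro x hx y hy hx' hy'
      exact (hF.monotoneOn (mA x hx (by linarith)) haA hx').trans_lt (c y (mB y hy hy'.ne') hy')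
  push Not at c
  obtain ⟨y, hyB, hay, hy⟩ := c
  obtain ⟨δ, d1, d2⟩ := exists_rat_btwn (show (0 : ℝ) < (min y b - a) / 2 by
    have := lt_min hay hab; linarith)
  have d3 : a + 2 * δ < y := by linarith [min_le_left y b]
  have d4 : a + 2 * δ < b := by linarith [min_le_right y b]
  obtain ⟨p0, p1, p2⟩ := exists_rat_btwn (show a < a + δ by linarith)
  obtain ⟨r0, r1, r2⟩ := exists_rat_btwn (show b - δ < b by linarith)
  let p : ℝ → ℝ := fun x => if x < a then x else if x = a then p0 else x + δ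
  let r : ℝ → ℝ := fun x => if x < b then x + (-δ : ℚ) else if x = b then r0 else x
  have hp : ∀ x ∈ ch E {a, b}, x ≤ a + δ → p x ∈ ch E {b} ∧ p x < y := by
    intro x hx hx'
    simp only [p]
    split_ifs with c1 c2
    · exact ⟨mB x hx c1.ne, by linarith⟩
    · exact ⟨⟨⟨by linarith, by linarith⟩, Or.inl (e1 _)⟩, by linarith⟩
    · exact ⟨⟨⟨by linarith [hx.1.1], by linarith⟩,
        Or.inl (e2 _ (mE x hx c2 (by linarith)) _)⟩, by linarith⟩
  have hr : ∀ x ∈ ch E {a, b}, a + δ < x → r x ∈ ch E {a} ∧ a < r x := by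
    intro x hx hx'
    simp only [r]
    split_ifs with c1 c2
    · refine ⟨⟨⟨?_, ?_⟩, Or.inl (e2 _ (mE x hx (by linarith) c1.ne) _)⟩, ?_⟩ <;> push_cast <;>
        linarith
    · exact ⟨⟨⟨by linarith, by linarith⟩, Or.inl (e1 _)⟩, by linarith⟩
    · exact ⟨mA x hx c2, by linarith⟩
  refine emb_of (glue (F := fun x => G (p x)) (G := fun x => F (r x)) (a + δ) ?_ ?_ ?_)
  · intro x hx z hz hxz hz'
    refine hG (hp x hx (by linarith)).1 (hp z hz hz').1 ?_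
    simp only [p]
    rcases lt_trichotomy x a with c1 | c1 | c1 <;> rcases lt_trichotomy z a with c2 | c2 | c2 <;>
      first
        | (exfalso; linarith)
        | (simp only [c1, c2, c1.le, c2.le, lt_irrefl, not_lt.2, if_true, if_false]; split_ifs <;> linarith)
        | (split_ifs <;> linarith)
  · intro x hx z hz hxz hx'
    refine hF (hr x hx hx').1 (hr z hz (by linarith)).1 ?_
    simp only [r]
    push_cast
    split_ifs <;> first | linarith | (exfalso; apply_assumption; linarith)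
  · intro x hx z hz hx' hz'
    exact ((hG (hp x hx hx').1 hyB (hp x hx hx').2).trans_le hy).trans
      (hF haA (hr z hz hz').1 (hr z hz hz').2)

theorem main : ∃ (A B C : Type) (_ : LinearOrder A) (_ : LinearOrder B) (_ : LinearOrder C),
      IsEmpty (A ↪o B) ∧ IsEmpty (B ↪o A) ∧
      Nonempty (A ↪o C) ∧ Nonempty (B ↪o C) ∧
      ∀ (X : Type) [LinearOrder X],
        Nonempty (A ↪o X) → Nonempty (B ↪o X) → Nonempty (C ↪o X) := by
  obtain ⟨a, ha, a1, a2⟩ := exists_irrational_btwn (show (0 : ℝ) < 1 / 2 by norm_num)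
  obtain ⟨b, hb, b1, b2⟩ := exists_irrational_btwn (show (1 / 2 : ℝ) < 1 by norm_num)
  obtain ⟨E, e1, e2, e3, e4, H⟩ := exists_E a b ha hb
  refine ⟨ch E {a}, ch E {b}, ch E {a, b}, inferInstance, inferInstance, inferInstance,
    no_emb ⟨a1, by linarith⟩ e3 (by linarith) (Or.inr rfl) H,
    no_emb ⟨by linarith, b2⟩ e4 (by linarith) (Or.inl rfl) H,
    ⟨Set.embeddingOfSubset _ _ ?_, Iff.rfl⟩, ⟨Set.embeddingOfSubset _ _ ?_, Iff.rfl⟩,
    fun X _ ⟨f⟩ ⟨g⟩ => sup_emb a1 (by linarith) b2 e1 e2 f g⟩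
  · exact inter_subset_inter_right _ (union_subset_union_right _ (by simp))
  · exact inter_subset_inter_right _ (union_subset_union_right _ (by simp))

end Pool.Agent.H5.Sab
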