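import Pool.Agent.H5.SceneDefs

set_option autoImplicit false

namespace Pool.Agent.H5.Scene

open Pool.Agent.H5.SceneDefs Filter Topology

section general
variable {V F : Type} [Fintype V] [Fintype F]

noncomputable def q (z : Coords V F) : Sym2 V → ℝ :=
  Sym2.lift ⟨fun i k => ((z.1 i - z.1 k) ^ 2 + (z.2.1 i - z.2.1 k) ^ 2) / 2, fun i k => by ring⟩

lemma submersion (s : Coords V F) (E : Finset (Sym2 V)) (I : Finset (V × F)) (h : IndepAt s E I)
    (hr : Realises s I) (U : Set (Coords V F)) (hU : U ∈ 𝓝 s) :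
    ∀ᶠ D in 𝓝 (fun e : {e // e ∈ E} => q s e.1),
      ∃ z ∈ U, Realises z I ∧ ∀ e : {e // e ∈ E}, q z e.1 = D e := by
  classical
  let pu : V → Coords V F →L[ℝ] ℝ := fun i =>
    (ContinuousLinearMap.proj i).comp (ContinuousLinearMap.fst ℝ _ _)
  let pw : V → Coords V F →L[ℝ] ℝ := fun i =>
    (ContinuousLinearMap.proj i).comp
      ((ContinuousLinearMap.fst ℝ _ _).comp (ContinuousLinearMap.snd ℝ _ _))
  let pU : F → Coords V F →L[ℝ] ℝ := fun i =>
    (ContinuousLinearMap.proj i).comp ((ContinuousLinearMap.fst ℝ _ _).comp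
      ((ContinuousLinearMap.snd ℝ _ _).comp (ContinuousLinearMap.snd ℝ _ _)))
  let pW : F → Coords V F →L[ℝ] ℝ := fun i =>
    (ContinuousLinearMap.proj i).comp ((ContinuousLinearMap.snd ℝ _ _).comp
      ((ContinuousLinearMap.snd ℝ _ _).comp (ContinuousLinearMap.snd ℝ _ _)))
  let f : Coords V F → ({e // e ∈ E} ⊕ {p // p ∈ I} → ℝ) := fun z =>
    Sum.elim (fun e => q z e.1)
      (fun p => z.2.2.1 p.1.2 * z.1 p.1.1 + z.2.1 p.1.1 + z.2.2.2 p.1.2)
  have hd : ∀ k, ∃ g : Coords V F →L[ℝ] ℝ, HasStrictFDerivAt (fun z => f z k) g s ∧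
      ∀ z, g z = (Sum.elim (fun e : {e // e ∈ E} => distForm s e.1)
        (fun p : {p // p ∈ I} => incForm s p.1) k) z := by
    rintro (⟨e, he⟩ | ⟨⟨i, j⟩, hp⟩)
    · induction e using Sym2.ind with
      | _ i k =>
        refine ⟨_, (((((pu i).hasStrictFDerivAt (x := s)).sub (pu k).hasStrictFDerivAt).pow 2).add
          ((((pw i).hasStrictFDerivAt (x := s)).sub (pw k).hasStrictFDerivAt).pow 2)).mul_const
            (2 : ℝ)⁻¹, fun z => ?_⟩
        simp [pu, pw, distForm]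
        ring
    · refine ⟨_, ((((pU j).hasStrictFDerivAt (x := s)).mul (pu i).hasStrictFDerivAt).add
        (pw i).hasStrictFDerivAt).add (pW j).hasStrictFDerivAt, fun z => ?_⟩
      simp [pu, pw, pU, pW, incForm]
  choose g hg1 hg2 using hd
  have hf : HasStrictFDerivAt f (ContinuousLinearMap.pi g) s := hasStrictFDerivAt_pi.2 hg1
  have hsurj : (ContinuousLinearMap.pi g).range = ⊤ := by
    by_contra hne
    obtain ⟨φ, hφ0, hφ⟩ := Submodule.exists_le_ker_of_lt_top _ (lt_top_iff_ne_top.2 hne)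
    apply hφ0
    have h1 := Fintype.linearIndependent_iff.1 h (fun k => φ fun j => if k = j then 1 else 0) (by
      funext z
      have h2 : φ (ContinuousLinearMap.pi g z) = 0 := hφ ⟨z, rfl⟩
      rw [LinearMap.pi_apply_eq_sum_univ] at h2
      simpa [hg2, mul_comm] using h2)
    refine LinearMap.ext fun x => ?_
    rw [LinearMap.pi_apply_eq_sum_univ]
    simp [h1]
  have hmap := hf.map_nhds_eq_of_surj hsurj
  have him : f '' U ∈ 𝓝 (f s) := by
    rw [← hmap]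
    exact image_mem_map hU
  have hc : Continuous (fun D : {e // e ∈ E} → ℝ =>
      (Sum.elim D (fun _ => 0) : {e // e ∈ E} ⊕ {p // p ∈ I} → ℝ)) := by
    refine continuous_pi fun k => ?_
    rcases k with k | k
    · exact continuous_apply k
    · exact continuous_const
  have hfs : f s = Sum.elim (fun e : {e // e ∈ E} => q s e.1) (fun _ => 0) := by
    funext k
    rcases k with k | k
    · rfl
    · exact hr k.1 k.2
  rw [hfs] at him
  filter_upwards [hc.continuousAt.preimage_mem_nhds him] with D hD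
  obtain ⟨z, hz, e⟩ := hD
  exact ⟨z, hz, fun p hp => congrFun e (Sum.inr ⟨p, hp⟩), fun k => congrFun e (Sum.inl k)⟩

end general

def E0 : Finset (Sym2 (Fin 9)) := {s(1, 2), s(1, 3), s(1, 4), s(5, 6), s(5, 7), s(5, 8), s(0, 1)}

def I0 : Finset (Fin 9 × Fin 6) :=
  {(1, 0), (2, 0), (3, 0), (4, 0), (5, 1), (6, 1), (7, 1), (8, 1), (0, 2), (1, 2), (5, 2),
    (0, 3), (2, 3), (6, 3), (0, 4), (3, 4), (7, 4), (0, 5), (4, 5), (8, 5)}

lemma bools : ∀ v0 v1 v2 v3 v4 v5 v6 v7 v8 f0 f1 f2 f3 f4 f5 : Bool,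
    let c := (v1 && v2).toNat + (v1 && v3).toNat + (v1 && v4).toNat + (v5 && v6).toNat +
      (v5 && v7).toNat + (v5 && v8).toNat + (v0 && v1).toNat +
      (v1 && f0).toNat + (v2 && f0).toNat + (v3 && f0).toNat + (v4 && f0).toNat +
      (v5 && f1).toNat + (v6 && f1).toNat + (v7 && f1).toNat + (v8 && f1).toNat +
      (v0 && f2).toNat + (v1 && f2).toNat + (v5 && f2).toNat +
      (v0 && f3).toNat + (v2 && f3).toNat + (v6 && f3).toNat +
      (v0 && f4).toNat + (v3 && f4).toNat + (v7 && f4).toNat +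
      (v0 && f5).toNat + (v4 && f5).toNat + (v8 && f5).toNat
    c = 0 ∨ c + 3 ≤ 2 * (v0.toNat + v1.toNat + v2.toNat + v3.toNat + v4.toNat + v5.toNat +
      v6.toNat + v7.toNat + v8.toNat) +
      2 * (f0.toNat + f1.toNat + f2.toNat + f3.toNat + f4.toNat + f5.toNat) := by
  decide +kernel

lemma ite_toNat (p : Prop) [Decidable p] : (if p then 1 else 0) = (decide p).toNat := by
  by_cases h : p <;> simp [h]

lemma count : CountHolds E0 I0 := by
  intro E' hE I' hI hne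
  set V' := E'.biUnion Sym2.toFinset ∪ I'.image Prod.fst with hV'
  set F' := I'.image Prod.snd with hF'
  have h1 : E' ⊆ E0.filter (fun e => e.toFinset ⊆ V') := fun e he =>
    Finset.mem_filter.2 ⟨hE he, (Finset.subset_biUnion_of_mem _ he).trans Finset.subset_union_left⟩
  have h2 : I' ⊆ I0.filter (fun p => p.1 ∈ V' ∧ p.2 ∈ F') := fun p hp =>
    Finset.mem_filter.2 ⟨hI hp, Finset.mem_union_right _ (Finset.mem_image_of_mem _ hp),
      Finset.mem_image_of_mem _ hp⟩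
  have h3 := Finset.card_le_card h1
  have h4 := Finset.card_le_card h2
  have h5 : 0 < E'.card + I'.card := by
    rcases hne with h | h <;> have := h.card_pos <;> omega
  have h6 : V'.card = ∑ i : Fin 9, if i ∈ V' then 1 else 0 := by
    rw [← Finset.card_filter]; simp
  have h7 : F'.card = ∑ i : Fin 6, if i ∈ F' then 1 else 0 := by
    rw [← Finset.card_filter]; simp
  clear_value V' F'
  rw [Finset.card_filter] at h3 h4
  simp only [E0, I0] at h3 h4
  repeat rw [Finset.sum_insert (by decide)] at h3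
  repeat rw [Finset.sum_insert (by decide)] at h4
  simp only [Finset.sum_singleton, Sym2.toFinset_mk_eq, Finset.insert_subset_iff,
    Finset.singleton_subset_iff, ite_toNat, Bool.decide_and] at h3 h4
  simp only [Fin.sum_univ_succ, Finset.univ_unique, Finset.sum_singleton, ite_toNat] at h6 h7
  have := bools (decide (0 ∈ V')) (decide (1 ∈ V')) (decide (2 ∈ V')) (decide (3 ∈ V'))
    (decide (4 ∈ V')) (decide (5 ∈ V')) (decide (6 ∈ V')) (decide (7 ∈ V')) (decide (8 ∈ V'))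
    (decide (0 ∈ F')) (decide (1 ∈ F')) (decide (2 ∈ F')) (decide (3 ∈ F')) (decide (4 ∈ F'))
    (decide (5 ∈ F'))
  have h8 : V'.card = (decide (0 ∈ V')).toNat + ((decide (1 ∈ V')).toNat + ((decide (2 ∈ V')).toNat +
    ((decide (3 ∈ V')).toNat + ((decide (4 ∈ V')).toNat + ((decide (5 ∈ V')).toNat +
    ((decide (6 ∈ V')).toNat + ((decide (7 ∈ V')).toNat + ((decide (8 ∈ V')).toNat + 0)))))))) := h6
  have h9 : F'.card = (decide (0 ∈ F')).toNat + ((decide (1 ∈ F')).toNat + ((decide (2 ∈ F')).toNat +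
    ((decide (3 ∈ F')).toNat + ((decide (4 ∈ F')).toNat + ((decide (5 ∈ F')).toNat + 0))))) := h7
  simp only at this
  omega

noncomputable def s1 : Coords (Fin 9) (Fin 6) :=
  (![0, 1, 2, 4, 5, 2, 4, 8, 10], ![0, 20, 20, 20, 20, 40, 40, 40, 40], ![0, 0, -20, -10, -5, -4],
    ![-20, -40, 0, 0, 0, 0])

lemma real1 : Realises s1 I0 := by
  intro p hp
  simp only [I0, Finset.mem_insert, Finset.mem_singleton] at hp
  rcases hp with h | h | h | h | h | h | h | h | h | h | h | h | h | h | h | h | h | h | h | h <;>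
    subst h <;> simp [s1] <;> norm_num

lemma indep1 : IndepAt s1 ∅ I0 := by
  classical
  rw [IndepAt, Fintype.linearIndependent_iff]
  intro g hg
  let c : Fin 9 × Fin 6 → ℝ := fun p => if h : p ∈ I0 then g (Sum.inr ⟨p, h⟩) else 0
  have h1 : ∀ z, ∑ p ∈ I0, c p * incForm s1 p z = 0 := by
    intro z
    have := congrFun hg z
    rw [← Finset.sum_coe_sort]
    simpa [Fintype.sum_sum_type, c] using this
  simp only [I0] at h1
  have h2 := fun z => h1 z
  simp only [incForm] at h2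
  have hu := fun i => h2 (Pi.single i 1, 0, 0, 0)
  have hw := fun i => h2 (0, Pi.single i 1, 0, 0)
  have hW := fun i => h2 (0, 0, 0, Pi.single i 1)
  have u1 := hu 1
  have u2 := hu 2
  have u3 := hu 3
  have u4 := hu 4
  have u5 := hu 5
  have u6 := hu 6
  have u7 := hu 7
  have u8 := hu 8
  have w1 := hw 1
  have w2 := hw 2
  have w3 := hw 3
  have w4 := hw 4
  have w5 := hw 5
  have w6 := hw 6
  have w7 := hw 7
  have w8 := hw 8
  have W2 := hW 2
  have W3 := hW 3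
  have W4 := hW 4
  have W5 := hW 5
  simp [s1] at u1 u2 u3 u4 u5 u6 u7 u8
  simp [u1, u2, u3, u4, u5, u6, u7, u8] at w1 w2 w3 w4 w5 w6 w7 w8 W2 W3 W4 W5
  rintro (⟨e, he⟩ | ⟨p, hp⟩)
  · simp at he
  · have h3 : g (Sum.inr ⟨p, hp⟩) = c p := by simp [c, hp]
    rw [h3]
    simp only [I0, Finset.mem_insert, Finset.mem_singleton] at hp
    rcases hp with h | h | h | h | h | h | h | h | h | h | h | h | h | h | h | h | h | h | h | h <;>
      subst h <;> assumption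

lemma not_all_equal (s : Coords (Fin 9) (Fin 6)) (h : IndepAt s E0 I0) :
    ∃ j, s.2.2.1 j ≠ s.2.2.1 0 := by
  classical
  by_contra hc
  push Not at hc
  have h1 : LinearIndependent ℝ (fun p : {p // p ∈ I0} => incForm s p.1) :=
    h.comp Sum.inr Sum.inr_injective
  let g : Fin 9 ⊕ Fin 5 ⊕ Fin 5 → Coords (Fin 9) (Fin 6) → ℝ :=
    Sum.elim (fun i => incForm s (i, 0))
      (Sum.elim (fun j z => z.2.2.1 j.succ - z.2.2.1 0) (fun j z => z.2.2.2 j.succ - z.2.2.2 0))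
  have h2 := linearIndependent_le_span_aux' _ h1 (Set.range g) (by
    rintro _ ⟨⟨⟨i, j⟩, hp⟩, rfl⟩
    refine Fin.cases (motive := fun j => incForm s (i, j) ∈ Submodule.span ℝ (Set.range g))
      (Submodule.subset_span ⟨Sum.inl i, rfl⟩) (fun j => ?_) j
    have : incForm s (i, j.succ) = g (Sum.inl i) + s.1 i • g (Sum.inr (Sum.inl j)) +
        g (Sum.inr (Sum.inr j)) := by
      funext z
      simp [g, incForm, hc]
      ring
    rw [this]
    exact Submodule.add_mem _ (Submodule.add_mem _ (Submodule.subset_span ⟨_, rfl⟩)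
      (Submodule.smul_mem _ _ (Submodule.subset_span ⟨_, rfl⟩))) (Submodule.subset_span ⟨_, rfl⟩))
  have h3 := Fintype.card_range_le g
  have h4 : I0.card = 20 := by decide
  simp [h4] at h2 h3
  omega

def R (a2 a3 a4 b2 b3 b4 : ℝ) : ℝ :=
  a3 * (a2 - a4) * b4 * (b2 - b3) - a4 * (a2 - a3) * b3 * (b2 - b4)

lemma mobius {g h k s1 s2 s3 s4 t1 t2 t3 t4 : ℝ} (hh : h ≠ 0) (hk : k ≠ 0)
    (e1 : g * s1 * t1 - k * s1 + h * t1 = 0) (e2 : g * s2 * t2 - k * s2 + h * t2 = 0)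
    (e3 : g * s3 * t3 - k * s3 + h * t3 = 0) (e4 : g * s4 * t4 - k * s4 + h * t4 = 0) :
    R (s2 - s1) (s3 - s1) (s4 - s1) (t2 - t1) (t3 - t1) (t4 - t1) = 0 := by
  have key : ∀ {a b c d : ℝ}, g * a * b - k * a + h * b = 0 → g * c * d - k * c + h * d = 0 →
      k * h * (a - c) = (b - d) * (g * a + h) * (g * c + h) := by
    intro a b c d e e'
    linear_combination -(g * c + h) * e + (g * a + h) * e'
  have k31 := key e3 e1
  have k24 := key e2 e4
  have k41 := key e4 e1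
  have k23 := key e2 e3
  apply mul_left_cancel₀ (pow_ne_zero 2 (mul_ne_zero hk hh))
  have : (k * h) ^ 2 * R (s2 - s1) (s3 - s1) (s4 - s1) (t2 - t1) (t3 - t1) (t4 - t1) =
      (k * h * (s3 - s1)) * (k * h * (s2 - s4)) * (t4 - t1) * (t2 - t3) -
      (k * h * (s4 - s1)) * (k * h * (s2 - s3)) * (t3 - t1) * (t2 - t4) := by
    unfold R; ring
  rw [this, k31, k24, k41, k23]
  ring

lemma geom (z : Coords (Fin 9) (Fin 6)) (hz : Realises z I0) (hne : ∃ j, z.2.2.1 j ≠ z.2.2.1 0)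
    (r : Fin 9 → ℝ) (q1 : q z s(0, 1) = r 1 ^ 2 / 2)
    (q2 : q z s(1, 2) = r 2 ^ 2 / 2) (q3 : q z s(1, 3) = r 3 ^ 2 / 2)
    (q4 : q z s(1, 4) = r 4 ^ 2 / 2) (q6 : q z s(5, 6) = r 6 ^ 2 / 2)
    (q7 : q z s(5, 7) = r 7 ^ 2 / 2) (q8 : q z s(5, 8) = r 8 ^ 2 / 2)
    (n1 : r 1 ≠ 0) (n2 : r 2 ≠ 0) (n3 : r 3 ≠ 0) (n6 : r 6 ≠ 0) (n7 : r 7 ≠ 0)
    (n12 : r 1 ^ 2 ≠ r 2 ^ 2) (n13 : r 1 ^ 2 ≠ r 3 ^ 2) (n14 : r 1 ^ 2 ≠ r 4 ^ 2)
    (n23 : r 2 ^ 2 ≠ r 3 ^ 2) (n67 : r 6 ^ 2 ≠ r 7 ^ 2) :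
    ∃ ε : Fin 6 → Bool, R (cond (ε 0) 1 (-1) * r 2) (cond (ε 1) 1 (-1) * r 3)
      (cond (ε 2) 1 (-1) * r 4) (cond (ε 3) 1 (-1) * r 6) (cond (ε 4) 1 (-1) * r 7)
      (cond (ε 5) 1 (-1) * r 8) = 0 := by
  obtain ⟨x, y, A, C⟩ := z
  have I := fun i j (h : (i, j) ∈ I0) => hz (i, j) h
  simp only [q, Sym2.lift_mk] at q1 q2 q3 q4 q6 q7 q8 I hne
  have a1 := I 1 0 (by decide)
  have a2 := I 2 0 (by decide)
  have a3 := I 3 0 (by decide)
  have a4 := I 4 0 (by decide)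
  have b1 := I 5 1 (by decide)
  have b2 := I 6 1 (by decide)
  have b3 := I 7 1 (by decide)
  have b4 := I 8 1 (by decide)
  have o1 := I 0 2 (by decide)
  have o2 := I 0 3 (by decide)
  have o3 := I 0 4 (by decide)
  have o4 := I 0 5 (by decide)
  have c1 := I 1 2 (by decide)
  have c2 := I 2 3 (by decide)
  have c3 := I 3 4 (by decide)
  have c4 := I 4 5 (by decide)
  have d1 := I 5 2 (by decide)
  have d2 := I 6 3 (by decide)
  have d3 := I 7 4 (by decide)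
  have d4 := I 8 5 (by decide)
  clear I hz
  set h := A 0 * x 0 + y 0 + C 0 with hh
  set k := A 1 * x 0 + y 0 + C 1 with hk
  have e1 : (A 0 - A 1) * (x 1 - x 0) * (x 5 - x 0) - k * (x 1 - x 0) + h * (x 5 - x 0) = 0 := by
    rw [hh, hk]
    linear_combination (x 5 - x 0) * (a1 - c1 + o1) - (x 1 - x 0) * (b1 - d1 + o1)
  have e2 : (A 0 - A 1) * (x 2 - x 0) * (x 6 - x 0) - k * (x 2 - x 0) + h * (x 6 - x 0) = 0 := by
    rw [hh, hk]
    linear_combination (x 6 - x 0) * (a2 - c2 + o2) - (x 2 - x 0) * (b2 - d2 + o2)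
  have e3 : (A 0 - A 1) * (x 3 - x 0) * (x 7 - x 0) - k * (x 3 - x 0) + h * (x 7 - x 0) = 0 := by
    rw [hh, hk]
    linear_combination (x 7 - x 0) * (a3 - c3 + o3) - (x 3 - x 0) * (b3 - d3 + o3)
  have e4 : (A 0 - A 1) * (x 4 - x 0) * (x 8 - x 0) - k * (x 4 - x 0) + h * (x 8 - x 0) = 0 := by
    rw [hh, hk]
    linear_combination (x 8 - x 0) * (a4 - c4 + o4) - (x 4 - x 0) * (b4 - d4 + o4)
  have pp : ∀ {a c x1 y1 x2 y2 ρ : ℝ}, a * x1 + y1 + c = 0 → a * x2 + y2 + c = 0 →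
      ((x1 - x2) ^ 2 + (y1 - y2) ^ 2) / 2 = ρ ^ 2 / 2 → (1 + a ^ 2) * (x2 - x1) ^ 2 = ρ ^ 2 := by
    intro a c x1 y1 x2 y2 ρ h1 h2 h3
    rw [show y1 - y2 = a * (x2 - x1) by linear_combination h1 - h2] at h3
    linear_combination 2 * h3
  have nz : ∀ {a u v ρ : ℝ}, (1 + a ^ 2) * (u - v) ^ 2 = ρ ^ 2 → ρ ≠ 0 → u - v ≠ 0 := by
    intro a u v ρ h1 h2 h3
    rw [h3] at h1
    exact h2 (pow_eq_zero_iff two_ne_zero |>.1 (by rw [← h1]; ring))
  have p2 := pp a1 a2 q2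
  have p3 := pp a1 a3 q3
  have p4 := pp a1 a4 q4
  have p6 := pp b1 b2 q6
  have p7 := pp b1 b3 q7
  have p8 := pp b1 b4 q8
  have x12 := nz p2 n2
  have x13 := nz p3 n3
  have x23 : x 2 ≠ x 3 := fun e => n23 (by rw [← p2, ← p3, e])
  have x56 := nz p6 n6
  have x57 := nz p7 n7
  have x67 : x 6 ≠ x 7 := fun e => n67 (by rw [← p6, ← p7, e])
  have hh0 : h ≠ 0 := by
    intro h0
    rw [hh] at h0
    have p1 : (1 + A 0 ^ 2) * (x 0 - x 1) ^ 2 = r 1 ^ 2 := by
      linear_combination pp h0 a1 q1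
    have x01 : x 1 - x 0 ≠ 0 := nz (pp h0 a1 q1) n1
    have x02 : x 2 - x 0 ≠ 0 := fun e => n12 (by rw [← p1, ← p2, sub_eq_zero.1 e])
    have x03 : x 3 - x 0 ≠ 0 := fun e => n13 (by rw [← p1, ← p3, sub_eq_zero.1 e])
    have x04 : x 4 - x 0 ≠ 0 := fun e => n14 (by rw [← p1, ← p4, sub_eq_zero.1 e])
    have l1 : A 2 = A 0 := mul_right_cancel₀ x01 (by linear_combination c1 - o1 - a1 + h0)
    have l2 : A 3 = A 0 := mul_right_cancel₀ x02 (by linear_combination c2 - o2 - a2 + h0)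
    have l3 : A 4 = A 0 := mul_right_cancel₀ x03 (by linear_combination c3 - o3 - a3 + h0)
    have l4 : A 5 = A 0 := mul_right_cancel₀ x04 (by linear_combination c4 - o4 - a4 + h0)
    have l0 : A 1 = A 0 := by
      apply mul_right_cancel₀ x56
      rw [l1] at o1 d1
      rw [l2] at o2 d2
      linear_combination b2 - b1 - d2 + o2 + d1 - o1
    obtain ⟨j, hj⟩ := hne
    apply hj
    fin_cases j
    exacts [rfl, l0, l1, l2, l3, l4]
  have hk0 : k ≠ 0 := by
    intro k0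
    rw [k0] at e1 e2 e3
    have two : ∀ {g a b c d : ℝ}, g * a * b - 0 * a + h * b = 0 →
        g * c * d - 0 * c + h * d = 0 → a - c ≠ 0 → b ≠ 0 → d ≠ 0 → False := by
      intro g a b c d e e' hac hb hd
      have f1 : g * a + h = 0 := mul_right_cancel₀ hb (by linear_combination e)
      have f2 : g * c + h = 0 := mul_right_cancel₀ hd (by linear_combination e')
      have f3 : g = 0 := mul_right_cancel₀ hac (by linear_combination f1 - f2)
      rw [f3] at f1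
      exact hh0 (by linear_combination f1)
    by_cases t1 : x 5 - x 0 = 0
    · exact two e2 e3 (fun e => x23 (by linear_combination e))
        (fun e => x56 (by linear_combination e - t1)) (fun e => x57 (by linear_combination e - t1))
    by_cases t2 : x 6 - x 0 = 0
    · exact two e1 e3 (fun e => x13 (by linear_combination -e)) t1
        (fun e => x67 (by linear_combination t2 - e))
    exact two e1 e2 (fun e => x12 (by linear_combination -e)) t1 t2
  have hR := mobius hh0 hk0 e1 e2 e3 e4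
  have sg : ∀ {a d r : ℝ}, (1 + a ^ 2) * d ^ 2 = r ^ 2 →
      ∃ b : Bool, cond b 1 (-1) * r = √(1 + a ^ 2) * d := by
    intro a d r e
    have : r ^ 2 = (√(1 + a ^ 2) * d) ^ 2 := by
      rw [mul_pow, Real.sq_sqrt (by positivity), e]
    rcases sq_eq_sq_iff_eq_or_eq_neg.1 this with h | h
    · exact ⟨true, by simpa using h⟩
    · exact ⟨false, by simp [h]⟩
  obtain ⟨ε0, h0⟩ := sg p2
  obtain ⟨ε1, h1⟩ := sg p3
  obtain ⟨ε2, h2⟩ := sg p4
  obtain ⟨ε3, h3⟩ := sg p6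
  obtain ⟨ε4, h4⟩ := sg p7
  obtain ⟨ε5, h5⟩ := sg p8
  refine ⟨![ε0, ε1, ε2, ε3, ε4, ε5], ?_⟩
  show R (cond ε0 1 (-1) * r 2) (cond ε1 1 (-1) * r 3)
      (cond ε2 1 (-1) * r 4) (cond ε3 1 (-1) * r 6) (cond ε4 1 (-1) * r 7)
      (cond ε5 1 (-1) * r 8) = 0
  rw [h0, h1, h2, h3, h4, h5]
  unfold R at hR ⊢
  linear_combination (√(1 + A 0 ^ 2)) ^ 2 * (√(1 + A 1 ^ 2)) ^ 2 * hR

noncomputable def G (r : Fin 9 → ℝ) : ℝ :=
  (r 1 * r 2 * r 3 * r 6 * r 7 * (r 1 ^ 2 - r 2 ^ 2) * (r 1 ^ 2 - r 3 ^ 2) * (r 1 ^ 2 - r 4 ^ 2) *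
    (r 2 ^ 2 - r 3 ^ 2) * (r 6 ^ 2 - r 7 ^ 2)) *
  ∏ ε : Fin 6 → Bool, R (cond (ε 0) 1 (-1) * r 2) (cond (ε 1) 1 (-1) * r 3)
      (cond (ε 2) 1 (-1) * r 4) (cond (ε 3) 1 (-1) * r 6) (cond (ε 4) 1 (-1) * r 7)
      (cond (ε 5) 1 (-1) * r 8)

lemma G_analytic : AnalyticOnNhd ℝ G Set.univ := by
  intro r _
  have hp : ∀ i : Fin 9, AnalyticAt ℝ (fun r : Fin 9 → ℝ => r i) r := fun i =>
    (ContinuousLinearMap.proj (R := ℝ) (φ := fun _ : Fin 9 => ℝ) i).analyticAt r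
  unfold G
  refine AnalyticAt.mul ?_ (Finset.analyticAt_fun_prod _ fun ε _ => ?_)
  · repeat' first
      | exact hp _
      | apply AnalyticAt.fun_mul
      | apply AnalyticAt.fun_sub
      | apply AnalyticAt.fun_pow
  · unfold R
    repeat' first
      | exact hp _
      | exact analyticAt_const
      | apply AnalyticAt.fun_mul
      | apply AnalyticAt.fun_sub

lemma G_ne : G ![0, 3, 7, 19, 45, 0, 11, 29, 71] ≠ 0 := by
  unfold G
  refine mul_ne_zero (by simp; norm_num) (Finset.prod_ne_zero_iff.2 fun ε _ => ?_)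
  unfold R
  cases ε 0 <;> cases ε 1 <;> cases ε 2 <;> cases ε 3 <;> cases ε 4 <;> cases ε 5 <;>
    simp <;> norm_num

theorem dependent (s : Coords (Fin 9) (Fin 6)) (hr : Realises s I0) : ¬ IndepAt s E0 I0 := by
  intro h
  obtain ⟨j, hj⟩ := not_all_equal s h
  have hU : {z : Coords (Fin 9) (Fin 6) | z.2.2.1 j ≠ z.2.2.1 0} ∈ 𝓝 s :=
    (isOpen_ne_fun (by fun_prop) (by fun_prop)).mem_nhds hj
  have hev := submersion s E0 I0 h hr _ hU
  let r0 : Fin 9 → ℝ := ![0, √(2 * q s s(0, 1)), √(2 * q s s(1, 2)), √(2 * q s s(1, 3)),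
    √(2 * q s s(1, 4)), 0, √(2 * q s s(5, 6)), √(2 * q s s(5, 7)), √(2 * q s s(5, 8))]
  let D : (Fin 9 → ℝ) → {e // e ∈ E0} → ℝ := fun r e => r e.1.sup ^ 2 / 2
  have hD : Continuous D := by fun_prop
  have hq : ∀ a b, √(2 * q s s(a, b)) ^ 2 / 2 = q s s(a, b) := by
    intro a b
    rw [Real.sq_sqrt (by simp only [q, Sym2.lift_mk]; positivity)]
    ring
  have h0 : D r0 = fun e : {e // e ∈ E0} => q s e.1 := by
    funext ⟨e, he⟩
    simp only [E0, Finset.mem_insert, Finset.mem_singleton] at he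
    rcases he with h | h | h | h | h | h | h <;> subst h <;> exact hq _ _
  rw [← h0] at hev
  have hG : G =ᶠ[𝓝 r0] fun _ => 0 := by
    filter_upwards [hD.continuousAt.eventually hev] with r hr
    obtain ⟨z, hz, hzr, hzq⟩ := hr
    by_contra hne
    simp only [G, mul_eq_zero, not_or, Finset.prod_eq_zero_iff, sub_eq_zero] at hne
    obtain ⟨⟨⟨⟨⟨⟨⟨⟨⟨⟨n1, n2⟩, n3⟩, n6⟩, n7⟩, n12⟩, n13⟩, n14⟩, n23⟩, n67⟩, hε⟩ := hne
    obtain ⟨ε, hε'⟩ := geom z hzr ⟨j, hz⟩ r (hzq ⟨s(0, 1), by decide⟩) (hzq ⟨s(1, 2), by decide⟩)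
      (hzq ⟨s(1, 3), by decide⟩) (hzq ⟨s(1, 4), by decide⟩) (hzq ⟨s(5, 6), by decide⟩)
      (hzq ⟨s(5, 7), by decide⟩) (hzq ⟨s(5, 8), by decide⟩) n1 n2 n3 n6 n7 n12 n13 n14 n23 n67
    exact hε ⟨ε, Finset.mem_univ _, hε'⟩
  have := AnalyticOnNhd.eq_of_eventuallyEq G_analytic analyticOnNhd_const hG
  exact G_ne (congrFun this _)

end Pool.Agent.H5.Scene
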