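import Mathlib

set_option autoImplicit false

namespace Pool.Agent.H5.SceneDefs

/-- A tuple `(x, y, A, C)`: point `i` is `(x i, y i)` and line `j` is `A j * x + y + C j = 0`.
The same type holds the values of the variables `(u, w, U, W)`. -/
abbrev Coords (V F : Type) : Type := (V → ℝ) × (V → ℝ) × (F → ℝ) × (F → ℝ)

variable {V F : Type}

/-- The scene `s = (x, y, A, C)` satisfies every incidence of `I`. -/
def Realises (s : Coords V F) (I : Finset (V × F)) : Prop :=
  ∀ p ∈ I, s.2.2.1 p.2 * s.1 p.1 + s.2.1 p.1 + s.2.2.2 p.2 = 0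

/-- The linear form `A j * u i + x i * U j + w i + W j` of the incidence `(i, j)`. -/
def incForm (s : Coords V F) (p : V × F) : Coords V F → ℝ := fun z =>
  s.2.2.1 p.2 * z.1 p.1 + s.1 p.1 * z.2.2.1 p.2 + z.2.1 p.1 + z.2.2.2 p.2

/-- The linear form `(x i - x k) (u i - u k) + (y i - y k) (w i - w k)` of the pair `{i, k}`. -/
def distForm (s : Coords V F) : Sym2 V → Coords V F → ℝ :=
  Sym2.lift ⟨fun i k z => (s.1 i - s.1 k) * (z.1 i - z.1 k) + (s.2.1 i - s.2.1 k) * (z.2.1 i - z.2.1 k),
    fun i k => by funext z; ring⟩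

/-- The linear forms of the constraints in `E` and `I` are linearly independent at `s`. -/
def IndepAt (s : Coords V F) (E : Finset (Sym2 V)) (I : Finset (V × F)) : Prop :=
  LinearIndependent ℝ
    (Sum.elim (fun e : {e // e ∈ E} => distForm s e.1) (fun p : {p // p ∈ I} => incForm s p.1))

/-- `|E'| + |I'| ≤ 2|V'| + 2|F'| - 3` for all subsets with nonempty union. -/
def CountHolds [DecidableEq V] [DecidableEq F] (E : Finset (Sym2 V)) (I : Finset (V × F)) : Prop :=
  ∀ E' ⊆ E, ∀ I' ⊆ I, E'.Nonempty ∨ I'.Nonempty →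
    E'.card + I'.card + 3 ≤
      2 * (E'.biUnion Sym2.toFinset ∪ I'.image Prod.fst).card + 2 * (I'.image Prod.snd).card

end Pool.Agent.H5.SceneDefs
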