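import Mathlib

namespace Pool.Agent.H5.SepHad

/-- `o`-symmetric convex bodies -/
def SymBody {d : ℕ} (K : Set (EuclideanSpace ℝ (Fin d))) : Prop :=
  Convex ℝ K ∧ IsCompact K ∧ (interior K).Nonempty ∧ ∀ p ∈ K, -p ∈ K

/-- the translate `v + K` -/
def tr {d : ℕ} (v : EuclideanSpace ℝ (Fin d)) (K : Set (EuclideanSpace ℝ (Fin d))) :
    Set (EuclideanSpace ℝ (Fin d)) := (fun p => v + p) '' K

/-- The translates `v + K`, `v ∈ T`, form a separable Hadwiger configuration of `K`. -/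
def SepConfig {d : ℕ} (K : Set (EuclideanSpace ℝ (Fin d)))
    (T : Finset (EuclideanSpace ℝ (Fin d))) : Prop :=
  0 ∉ T ∧ (∀ v ∈ T, (tr v K ∩ K).Nonempty) ∧
  ∀ u v, (u = 0 ∨ u ∈ T) → (v = 0 ∨ v ∈ T) → u ≠ v →
    Disjoint (interior (tr u K)) (interior (tr v K)) ∧
    ∃ (l : EuclideanSpace ℝ (Fin d) →L[ℝ] ℝ) (c : ℝ), l ≠ 0 ∧
      (∀ p ∈ tr u K, l p ≤ c) ∧ (∀ p ∈ tr v K, c ≤ l p) ∧
      ∀ w, (w = 0 ∨ w ∈ T) → ∀ p ∈ interior (tr w K), l p ≠ c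

end Pool.Agent.H5.SepHad
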