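import Mathlib
import Pool.Agent.H5.SepHadDefs

namespace Pool.Agent.H5.SepHad

open Finset Filter Topology

variable {d : ℕ}

theorem int_lt (A : Set (EuclideanSpace ℝ (Fin d))) (l : EuclideanSpace ℝ (Fin d) →L[ℝ] ℝ)
    (x : EuclideanSpace ℝ (Fin d)) (hx : l x = 1) (c : ℝ) (hA : ∀ q ∈ A, l q ≤ c)
    (p : EuclideanSpace ℝ (Fin d)) (hp : p ∈ interior A) : l p < c := by
  have hc : Continuous fun τ : ℝ => p + τ • x := by fun_prop
  have h1 : ∀ᶠ τ in nhds (0 : ℝ), p + τ • x ∈ A := by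
    apply hc.continuousAt.eventually_mem
    simpa using mem_interior_iff_mem_nhds.mp hp
  have h2 : ∀ᶠ τ in nhdsWithin (0 : ℝ) (Set.Ioi 0), p + τ • x ∈ A ∧ τ ∈ Set.Ioi 0 :=
    (eventually_nhdsWithin_of_eventually_nhds h1).and self_mem_nhdsWithin
  obtain ⟨τ, h3, h4⟩ := h2.exists
  have := hA _ h3
  rw [map_add, map_smul, hx, smul_eq_mul, mul_one] at this
  have h5 : 0 < τ := h4
  linarith

theorem config_of {n : ℕ} (K : Set (EuclideanSpace ℝ (Fin d))) (hs : ∀ p ∈ K, -p ∈ K)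
    (x : Fin n → EuclideanSpace ℝ (Fin d)) (ψ : Fin n → EuclideanSpace ℝ (Fin d) →L[ℝ] ℝ)
    (hx : ∀ i, x i ∈ K) (h1 : ∀ i, ψ i (x i) = 1) (hK : ∀ i, ∀ p ∈ K, ψ i p ≤ 1)
    (h0 : ∀ i j, i ≠ j → ψ i (x j) ≤ 0) : ∃ T, SepConfig K T ∧ T.card = n := by
  classical
  have hinj : Function.Injective fun i => (2 : ℝ) • x i := by
    intro i j h
    by_contra hne
    have := congrArg (ψ i) h
    simp only [map_smul, smul_eq_mul, h1] at this
    linarith [h0 i j hne]
  have mem : ∀ w, w ∈ univ.image (fun i => (2 : ℝ) • x i) ↔ ∃ i, w = (2 : ℝ) • x i := by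
    intro w; simp [eq_comm]
  have up : ∀ i w, (w = 0 ∨ w ∈ univ.image (fun i => (2 : ℝ) • x i)) → w ≠ (2 : ℝ) • x i →
      ∀ p ∈ tr w K, ψ i p ≤ 1 := by
    rintro i w hw hne _ ⟨p, hp, rfl⟩
    have := hK i p hp
    rcases hw with rfl | hw
    · simpa using this
    · obtain ⟨j, rfl⟩ := (mem w).mp hw
      have := h0 i j (fun h => hne (by rw [h]))
      simp only [map_add, map_smul, smul_eq_mul]
      linarith
  have lo : ∀ i, ∀ p ∈ tr ((2 : ℝ) • x i) K, (-ψ i) p ≤ -1 := by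
    rintro i _ ⟨p, hp, rfl⟩
    have := hK i _ (hs p hp)
    simp only [_root_.neg_apply, map_add, map_smul, smul_eq_mul, h1, map_neg] at this ⊢
    linarith
  have av : ∀ i w, (w = 0 ∨ w ∈ univ.image (fun i => (2 : ℝ) • x i)) →
      ∀ p ∈ interior (tr w K), ψ i p ≠ 1 := by
    intro i w hw p hp
    by_cases h : w = (2 : ℝ) • x i
    · subst h
      have := int_lt _ (-ψ i) (-x i) (by simp [h1]) _ (lo i) p hp
      simp only [_root_.neg_apply] at this
      linarith
    · exact (int_lt _ (ψ i) (x i) (h1 i) _ (up i w hw h) p hp).ne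
  have nz : ∀ i, ψ i ≠ 0 := fun i h => by simpa [h] using h1 i
  refine ⟨univ.image fun i => (2 : ℝ) • x i, ⟨?_, ?_, ?_⟩, by
    rw [card_image_of_injective _ hinj]; simp⟩
  · intro h
    obtain ⟨i, hi⟩ := (mem 0).mp h
    have := congrArg (ψ i) hi
    simp [h1] at this
  · intro v hv
    obtain ⟨i, rfl⟩ := (mem v).mp hv
    exact ⟨x i, ⟨-x i, hs _ (hx i), by simp [two_smul]⟩, hx i⟩
  · intro u v hu hv huv
    have key : ∃ (l : EuclideanSpace ℝ (Fin d) →L[ℝ] ℝ) (c : ℝ), l ≠ 0 ∧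
        (∀ p ∈ tr u K, l p ≤ c) ∧ (∀ p ∈ tr v K, c ≤ l p) ∧
        ∀ w, (w = 0 ∨ w ∈ univ.image (fun i => (2 : ℝ) • x i)) →
          ∀ p ∈ interior (tr w K), l p ≠ c := by
      rcases hv with rfl | hv'
      · obtain ⟨i, rfl⟩ := (mem u).mp (hu.resolve_left huv)
        refine ⟨-ψ i, -1, neg_ne_zero.mpr (nz i), lo i, fun p hp => ?_, fun w hw p hp => ?_⟩
        · have := up i 0 (Or.inl rfl) huv.symm p hp
          simp only [_root_.neg_apply]; linarith
        · have := av i w hw p hp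
          simpa using this
      · obtain ⟨i, rfl⟩ := (mem v).mp hv'
        refine ⟨ψ i, 1, nz i, up i u hu huv, fun p hp => ?_, av i⟩
        have := lo i p hp
        simp only [_root_.neg_apply] at this; linarith
    refine ⟨?_, key⟩
    obtain ⟨l, c, _, a1, a2, a3⟩ := key
    rw [Set.disjoint_left]
    intro p p1 p2
    exact a3 u hu p p1 (le_antisymm (a1 p (interior_subset p1)) (a2 p (interior_subset p2)))

theorem zero_mem_int {K : Set (EuclideanSpace ℝ (Fin d))} (h : SymBody K) : K ∈ 𝓝 0 := by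
  obtain ⟨hc, _, ⟨p, hp⟩, hs⟩ := h
  have := hc.add_smul_sub_mem_interior (hs p (interior_subset hp)) hp (t := 1 / 2)
    ⟨by norm_num, by norm_num⟩
  have e : -p + (1 / 2 : ℝ) • (p - -p) = 0 := by module
  rw [e] at this
  exact mem_interior_iff_mem_nhds.mp this

theorem support {K : Set (EuclideanSpace ℝ (Fin d))} (h : SymBody K)
    (x : EuclideanSpace ℝ (Fin d)) (hx : x ≠ 0) :
    ∃ ρ : ℝ, 0 < ρ ∧ ρ • x ∈ K ∧ ∃ ψ : EuclideanSpace ℝ (Fin d) →L[ℝ] ℝ,
      ψ (ρ • x) = 1 ∧ ∀ p ∈ K, ψ p ≤ 1 := by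
  have h0 := zero_mem_int h
  have hg : 0 < gauge K x :=
    (gauge_pos (absorbent_nhds_zero h0) (NormedSpace.isVonNBounded_of_isBounded ℝ
      h.2.1.isBounded)).mpr hx
  have hf : (gauge K x)⁻¹ • x ∈ frontier K := by
    rw [← gauge_eq_one_iff_mem_frontier h.1 h0, gauge_smul_of_nonneg (by positivity)]
    simp [hg.ne']
  refine ⟨(gauge K x)⁻¹, by positivity, h.2.1.isClosed.frontier_subset hf, ?_⟩
  obtain ⟨f, hf'⟩ := geometric_hahn_banach_open_point h.1.interior isOpen_interior hf.2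
  have hpos : 0 < f ((gauge K x)⁻¹ • x) := by
    simpa using hf' 0 (mem_interior_iff_mem_nhds.mpr h0)
  refine ⟨(f ((gauge K x)⁻¹ • x))⁻¹ • f, by
    rw [_root_.smul_apply, smul_eq_mul, inv_mul_cancel₀ hpos.ne'], fun p hp => ?_⟩
  have hcl : p ∈ closure (interior K) := by
    rw [h.1.closure_interior_eq_closure_of_nonempty_interior h.2.2.1]
    exact subset_closure hp
  have : f p ≤ f ((gauge K x)⁻¹ • x) :=
    le_on_closure (f := fun a => f a) (g := fun _ => f ((gauge K x)⁻¹ • x))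
      (fun a ha => (hf' a ha).le) f.continuous.continuousOn continuousOn_const hcl
  rw [_root_.smul_apply, smul_eq_mul, inv_mul_le_iff₀ hpos]
  simpa using this

theorem near {K L : Set (EuclideanSpace ℝ (Fin d))} (hK : SymBody K) (hL : SymBody L) {ε : ℝ}
    (h : Metric.hausdorffDist K L < ε) (l : EuclideanSpace ℝ (Fin d) →L[ℝ] ℝ)
    (hl : ∀ p ∈ L, l p ≤ 1) : ∀ p ∈ K, l p ≤ 1 + ‖l‖ * ε := by
  intro p hp
  obtain ⟨q, hq, hd⟩ := Metric.exists_dist_lt_of_hausdorffDist_lt hp h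
    (Metric.hausdorffEDist_ne_top_of_nonempty_of_bounded ⟨p, hp⟩
      ⟨0, mem_of_mem_nhds (zero_mem_int hL)⟩ hK.2.1.isBounded hL.2.1.isBounded)
  have h1 : l (p - q) ≤ ‖l‖ * ‖p - q‖ := (le_abs_self _).trans (l.le_opNorm _)
  rw [dist_eq_norm] at hd
  have h2 : ‖l‖ * ‖p - q‖ ≤ ‖l‖ * ε := mul_le_mul_of_nonneg_left hd.le (norm_nonneg _)
  rw [map_sub] at h1
  linarith [hl q hq]

theorem robust {n : ℕ} (x : Fin n → EuclideanSpace ℝ (Fin d))
    (φ : Fin n → EuclideanSpace ℝ (Fin d) →L[ℝ] ℝ) (h1 : ∀ i, φ i (x i) = 1)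
    (h2 : ∀ i j, i ≠ j → -1 < φ i (x j) ∧ φ i (x j) < 0) :
    ∃ K0 : Set (EuclideanSpace ℝ (Fin d)), SymBody K0 ∧ ∃ ε > 0, ∀ K, SymBody K → Metric.hausdorffDist K K0 < ε →
      ∃ T, SepConfig K T ∧ T.card = n := by
  obtain ⟨R, hR0, hR⟩ : ∃ R : ℝ, 0 < R ∧ ∀ i, ‖x i‖ < R := by
    refine ⟨1 + ∑ i, ‖x i‖, by positivity, fun i => ?_⟩
    have := single_le_sum (f := fun i => ‖x i‖) (fun i _ => norm_nonneg _) (mem_univ i)
    linarith
  let K0 : Set (EuclideanSpace ℝ (Fin d)) := (⋂ i, {p | |φ i p| ≤ 1}) ∩ Metric.closedBall 0 R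
  have mK : ∀ p, p ∈ K0 ↔ (∀ i, |φ i p| ≤ 1) ∧ ‖p‖ ≤ R := by
    intro p; simp [K0]
  have hn : K0 ∈ 𝓝 (0 : EuclideanSpace ℝ (Fin d)) := by
    refine inter_mem (iInter_mem.mpr fun i => ?_) (Metric.closedBall_mem_nhds _ hR0)
    have : Continuous fun p => |φ i p| := by fun_prop
    exact this.continuousAt.eventually (Iic_mem_nhds (by simp))
  have hK0 : SymBody K0 := by
    refine ⟨?_, ?_, ⟨0, mem_interior_iff_mem_nhds.mpr hn⟩, ?_⟩
    · refine Convex.inter (convex_iInter fun i => ?_) (convex_closedBall _ _)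
      have : {p | |φ i p| ≤ 1} = (φ i) ⁻¹' Set.Icc (-1) 1 := by ext p; simp [abs_le]
      rw [this]
      exact (convex_Icc _ _).linear_preimage (φ i).toLinearMap
    · exact (isCompact_closedBall _ _).inter_left
        (isClosed_iInter fun i => isClosed_le (by fun_prop) (by fun_prop))
    · intro p hp
      rw [mK] at hp ⊢
      simpa using hp
  obtain ⟨r, hr0, hr⟩ := Metric.mem_nhds_iff.mp hn
  have ht : ∀ᶠ t in 𝓝[>] (0 : ℝ), (∀ i j, x i + t • (x j - φ i (x j) • x i) ∈ K0) ∧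
      t ∈ Set.Ioi 0 := by
    refine Eventually.and (eventually_nhdsWithin_of_eventually_nhds ?_) self_mem_nhdsWithin
    refine eventually_all.mpr fun i => eventually_all.mpr fun j => ?_
    simp only [mK]
    refine Eventually.and (eventually_all.mpr fun k => ?_) ?_
    · by_cases hk : k = i
      · subst hk
        exact Eventually.of_forall fun t => by simp [h1]
      · have hc : Continuous fun t : ℝ => |φ k (x i + t • (x j - φ i (x j) • x i))| := by fun_prop
        refine hc.continuousAt.eventually (Iic_mem_nhds ?_)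
        have := h2 k i hk
        simp only [zero_smul, add_zero, abs_lt]
        constructor <;> linarith [this.1, this.2]
    · have hc : Continuous fun t : ℝ => ‖x i + t • (x j - φ i (x j) • x i)‖ := by fun_prop
      exact hc.continuousAt.eventually (Iic_mem_nhds (by simpa using hR i))
  obtain ⟨t, hty, ht0⟩ := ht.exists
  have ht0' : 0 < t := ht0
  have he : ∀ᶠ ε in 𝓝[>] (0 : ℝ), ((∀ i j, i ≠ j →
      (1 + 4 / r * ε) * (1 + ‖φ i‖ * ε) < 1 - t * φ i (x j)) ∧ ε < r / 4) ∧ ε ∈ Set.Ioi 0 := by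
    refine Eventually.and (eventually_nhdsWithin_of_eventually_nhds ?_) self_mem_nhdsWithin
    refine Eventually.and (eventually_all.mpr fun i => eventually_all.mpr fun j => ?_)
      (Iio_mem_nhds (by positivity))
    by_cases hij : i = j
    · exact Eventually.of_forall fun _ h => absurd hij h
    · have hc : Continuous fun ε : ℝ => (1 + 4 / r * ε) * (1 + ‖φ i‖ * ε) := by fun_prop
      have : ∀ᶠ ε in 𝓝 (0 : ℝ), (1 + 4 / r * ε) * (1 + ‖φ i‖ * ε) < 1 - t * φ i (x j) :=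
        hc.continuousAt.eventually (Iio_mem_nhds (by
          have := mul_pos ht0' (neg_pos.mpr (h2 i j hij).2)
          simp only [mul_zero, add_zero, mul_one]; linarith))
      exact this.mono fun _ h _ => h
  obtain ⟨ε, ⟨hε1, hε2⟩, hε0⟩ := he.exists
  have hε0' : 0 < ε := hε0
  refine ⟨K0, hK0, ε, hε0', fun K hK hd => ?_⟩
  have xne : ∀ i, x i ≠ 0 := fun i h => by simpa [h] using h1 i
  choose ρ hρ hρK ψ hψ1 hψK using fun i => support hK (x i) (xne i)
  refine config_of K hK.2.2.2 (fun i => ρ i • x i) ψ hρK hψ1 hψK fun i j hij => ?_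
  have hd' : Metric.hausdorffDist K0 K < ε := by rwa [Metric.hausdorffDist_comm]
  have a1 := near hK0 hK hd' (ψ i) (hψK i)
  have a2 := near hK hK0 hd (φ i) (fun p hp => (le_abs_self _).trans (((mK p).mp hp).1 i)) _ (hρK i)
  rw [map_smul, h1, smul_eq_mul, mul_one] at a2
  have hnorm : ‖ψ i‖ ≤ 4 / r := by
    have b : ‖ψ i‖ ≤ 2 / r * (1 + ‖ψ i‖ * ε) := by
      refine ContinuousLinearMap.opNorm_le_of_unit_norm (by positivity) fun u hu => ?_
      have m1 : (r / 2) • u ∈ K0 := hr (by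
        rw [mem_ball_zero_iff, norm_smul, hu, Real.norm_of_nonneg (by positivity)]; linarith)
      have c1 := a1 _ m1
      have c2 := a1 _ (hK0.2.2.2 _ m1)
      simp only [map_neg, map_smul, smul_eq_mul] at c1 c2
      have e : 2 / r * (r / 2) = 1 := by field_simp
      have p2 : 0 < 2 / r := by positivity
      rw [Real.norm_eq_abs, abs_le]
      constructor
      · have := mul_le_mul_of_nonneg_left c2 p2.le
        rw [mul_neg, ← mul_assoc, e] at this; linarith
      · have := mul_le_mul_of_nonneg_left c1 p2.le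
        rw [← mul_assoc, e] at this; linarith
    have c : 2 / r * ε ≤ 1 / 2 := by
      rw [div_mul_eq_mul_div, div_le_iff₀ hr0]; linarith
    have e4 : 4 / r = 2 * (2 / r) := by ring
    nlinarith [norm_nonneg (ψ i)]
  have a3 := a1 _ (hty i j)
  have a4 : ρ i * ψ i (x i) = 1 := by simpa using hψ1 i
  simp only [map_add, map_smul, map_sub, smul_eq_mul] at a3 ⊢
  have a5 := hε1 i j hij
  have a6 : 1 + ‖ψ i‖ * ε ≤ 1 + 4 / r * ε := by gcongr
  have a7 : (1 + ‖ψ i‖ * ε) * ρ i ≤ (1 + 4 / r * ε) * (1 + ‖φ i‖ * ε) :=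
    mul_le_mul a6 a2 (hρ i).le (by positivity)
  have a8 := mul_le_mul_of_nonneg_right a3 (hρ i).le
  have a9 : t * ρ i * ψ i (x j) < 0 := by
    have : (ψ i (x i) + t * (ψ i (x j) - φ i (x j) * ψ i (x i))) * ρ i
        = (1 - t * φ i (x j)) * (ρ i * ψ i (x i)) + t * ρ i * ψ i (x j) := by ring
    rw [this, a4] at a8
    linarith
  have : ψ i (x j) < 0 := by
    by_contra hc
    have := mul_nonneg (mul_pos ht0' (hρ i)).le (not_lt.mp hc)
    linarith
  exact (mul_neg_of_pos_of_neg (hρ j) this).le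

end Pool.Agent.H5.SepHad
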