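import Mathlib

set_option autoImplicit false

namespace Pool.Agent.H5.SignRank

open Matrix

/-- evaluation of a + b t at the golden ratio -/
noncomputable def ev (p : ℤ × ℤ) : ℝ := (p.1 : ℝ) + (p.2 : ℝ) * Real.goldenRatio

def mu (p q : ℤ × ℤ) : ℤ × ℤ := (p.1 * q.1 + p.2 * q.2, p.1 * q.2 + p.2 * q.1 + p.2 * q.2)

lemma ev_mu (p q : ℤ × ℤ) : ev (mu p q) = ev p * ev q := by
  have h := Real.goldenRatio_sq
  simp only [ev, mu]
  push_cast
  linear_combination (-(p.2 : ℝ) * q.2) * h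

lemma ev_add (p q : ℤ × ℤ) : ev (p + q) = ev p + ev q := by
  simp only [ev, Prod.fst_add, Prod.snd_add]
  push_cast
  ring

lemma ev_eq_zero (p : ℤ × ℤ) : ev p = 0 ↔ p = 0 := by
  constructor
  · intro h
    have hirr := Real.goldenRatio_irrational
    by_cases hb : p.2 = 0
    · have : (p.1 : ℝ) = 0 := by simpa [ev, hb] using h
      have h1 : p.1 = 0 := by exact_mod_cast this
      exact Prod.ext h1 hb
    · exfalso
      apply hirr
      refine ⟨-(p.1 : ℚ) / (p.2 : ℚ), ?_⟩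
      have hb' : (p.2 : ℝ) ≠ 0 := by exact_mod_cast hb
      push_cast
      rw [div_eq_iff hb']
      simp only [ev] at h
      linarith
  · rintro rfl
    simp [ev]

def P : Fin 10 → Fin 3 → ℤ × ℤ :=
  ![![(1,0),(0,0),(0,0)], ![(0,0),(1,0),(0,0)], ![(0,0),(0,0),(1,0)], ![(1,0),(1,0),(1,0)],
    ![(1,0),(0,1),(0,0)], ![(1,0),(0,0),(1,0)], ![(0,0),(1,0),(1,0)], ![(0,1),(0,1),(-1,1)],
    ![(1,0),(0,1),(-1,1)], ![(0,1),(0,2),(-1,1)]]

def L : Fin 12 → Fin 3 → ℤ × ℤ :=
  ![![(0,0),(0,0),(1,0)], ![(0,0),(1,0),(0,0)], ![(1,0),(0,0),(-1,0)], ![(0,0),(1,0),(-1,0)],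
    ![(1,0),(0,0),(0,0)], ![(1,0),(-1,0),(0,0)], ![(0,1),(-1,0),(0,-1)], ![(0,0),(-1,1),(0,-1)],
    ![(0,1),(-1,0),(0,0)], ![(-1,1),(0,0),(0,-1)], ![(-1,0),(2,-1),(-1,1)], ![(0,1),(-1,0),(1,0)]]

def E (i : Fin 10) (j : Fin 12) : ℤ × ℤ :=
  mu (P i 0) (L j 0) + mu (P i 1) (L j 1) + mu (P i 2) (L j 2)

/-- the three points of each line -/
def T : Fin 12 → Finset (Fin 10) :=
  ![{0,1,4}, {0,2,5}, {1,3,5}, {0,3,6}, {1,2,6}, {2,3,7}, {4,5,7}, {0,7,8}, {2,4,8}, {1,7,9},
    {3,8,9}, {4,6,9}]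

lemma E_zero : ∀ i j, E i j = 0 ↔ i ∈ T j := by decide +kernel

lemma T_card : ∀ j, (T j).card ≤ 3 := by decide +kernel

noncomputable def B : Matrix (Fin 10) (Fin 12) ℝ := fun i j => ev (E i j)

lemma B_zero (i : Fin 10) (j : Fin 12) : B i j = 0 ↔ i ∈ T j := by
  rw [← E_zero, ← ev_eq_zero]; rfl

lemma B_rank_le : B.rank ≤ 3 := by
  have : B = (Matrix.of fun i k => ev (P i k)) * (Matrix.of fun k j => ev (L j k)) := by
    ext i j
    simp [B, E, Matrix.mul_apply, Fin.sum_univ_three, ev_add, ev_mu]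
  rw [this]
  exact (Matrix.rank_mul_le_left _ _).trans (by simpa using Matrix.rank_le_width _)

lemma rows_indep {K : Type} [Field K] (M : Matrix (Fin 10) (Fin 12) K)
    (h : ∀ i j, M i j = 0 ↔ i ∈ T j) :
    LinearIndependent K (fun k : Fin 3 => M (![0, 1, 2] k)) := by
  rw [Fintype.linearIndependent_iff]
  intro g hg
  have h4 := congrFun hg 4
  have h1 := congrFun hg 1
  have h0 := congrFun hg 0
  have a1 : M 1 4 = 0 := (h _ _).2 (by decide)
  have a2 : M 2 4 = 0 := (h _ _).2 (by decide)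
  have a3 : M 0 1 = 0 := (h _ _).2 (by decide)
  have a4 : M 2 1 = 0 := (h _ _).2 (by decide)
  have a5 : M 0 0 = 0 := (h _ _).2 (by decide)
  have a6 : M 1 0 = 0 := (h _ _).2 (by decide)
  have b1 : M 0 4 ≠ 0 := fun e => absurd ((h _ _).1 e) (by decide)
  have b2 : M 1 1 ≠ 0 := fun e => absurd ((h _ _).1 e) (by decide)
  have b3 : M 2 0 ≠ 0 := fun e => absurd ((h _ _).1 e) (by decide)
  simp [Fin.sum_univ_three, a1, a2, a3, a4, a5, a6, b1, b2, b3] at h4 h1 h0
  intro k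
  fin_cases k <;> simp [h4, h1, h0]

lemma three_le_rank {K : Type} [Field K] (M : Matrix (Fin 10) (Fin 12) K)
    (h : ∀ i j, M i j = 0 ↔ i ∈ T j) : 3 ≤ M.rank := by
  rw [Matrix.rank_eq_finrank_span_row]
  have hi := rows_indep M h
  have : Module.finrank K (Submodule.span K (Set.range (fun k : Fin 3 => M (![0, 1, 2] k)))) = 3 := by
    simpa using finrank_span_eq_card hi
  rw [← this]
  apply Submodule.finrank_mono
  apply Submodule.span_mono
  rintro _ ⟨k, rfl⟩
  exact ⟨_, rfl⟩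

lemma row_comb {K : Type} [Field K] (M : Matrix (Fin 10) (Fin 12) K)
    (h : ∀ i j, M i j = 0 ↔ i ∈ T j) (hr : M.rank = 3) (i : Fin 10) :
    ∃ x y z : K, ∀ j, M i j = x * M 0 j + y * M 1 j + z * M 2 j := by
  have hi := rows_indep M h
  have h3 : Module.finrank K (Submodule.span K (Set.range (fun k : Fin 3 => M (![0, 1, 2] k)))) = 3 := by
    simpa using finrank_span_eq_card hi
  rw [Matrix.rank_eq_finrank_span_row] at hr
  have hle : Submodule.span K (Set.range (fun k : Fin 3 => M (![0, 1, 2] k))) ≤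
      Submodule.span K (Set.range M.row) := by
    apply Submodule.span_mono
    rintro _ ⟨k, rfl⟩
    exact ⟨_, rfl⟩
  have heq := Submodule.eq_of_le_of_finrank_eq hle (by rw [h3, hr])
  have hm : M i ∈ Submodule.span K (Set.range (fun k : Fin 3 => M (![0, 1, 2] k))) := by
    rw [heq]; exact Submodule.subset_span ⟨i, rfl⟩
  rw [Submodule.mem_span_range_iff_exists_fun] at hm
  obtain ⟨c, hc⟩ := hm
  refine ⟨c 0, c 1, c 2, fun j => ?_⟩
  have := congrFun hc j
  simp [Fin.sum_univ_three] at this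
  exact this.symm

lemma det3 {K : Type} [Field K] {a1 a2 a3 b1 b2 b3 c1 c2 c3 u v w d1 d2 d3 : K}
    (ha : a1 * u + a2 * v + a3 * w = 0) (hb : b1 * u + b2 * v + b3 * w = 0)
    (hc : c1 * u + c2 * v + c3 * w = 0) (hd : d1 * u + d2 * v + d3 * w ≠ 0) :
    a1 * (b2 * c3 - b3 * c2) - a2 * (b1 * c3 - b3 * c1) + a3 * (b1 * c2 - b2 * c1) = 0 := by
  by_contra hne
  apply hd
  have hu : u = 0 := by
    apply mul_left_cancel₀ hne
    linear_combination (b2 * c3 - b3 * c2) * ha - (a2 * c3 - a3 * c2) * hb + (a2 * b3 - a3 * b2) * hc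
  have hv : v = 0 := by
    apply mul_left_cancel₀ hne
    linear_combination -(b1 * c3 - b3 * c1) * ha + (a1 * c3 - a3 * c1) * hb - (a1 * b3 - a3 * b1) * hc
  have hw : w = 0 := by
    apply mul_left_cancel₀ hne
    linear_combination (b1 * c2 - b2 * c1) * ha - (a1 * c2 - a2 * c1) * hb + (a1 * b2 - a2 * b1) * hc
  simp [hu, hv, hw]

lemma alg {K : Type} [Field K] {x3 y3 z3 x4 y4 x5 z5 y6 z6 x7 y7 z7 x8 y8 z8 x9 y9 z9 : K}
    (hx3 : x3 ≠ 0) (hy3 : y3 ≠ 0) (hz3 : z3 ≠ 0) (hx4 : x4 ≠ 0) (hy4 : y4 ≠ 0) (hx5 : x5 ≠ 0)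
    (hy6 : y6 ≠ 0) (hx7 : x7 ≠ 0) (hx8 : x8 ≠ 0) (hx9 : x9 ≠ 0)
    (e135 : x3 * z5 = z3 * x5) (e036 : y3 * z6 = z3 * y6) (e237 : x3 * y7 = y3 * x7)
    (e457 : x4 * (0 * z7 - z5 * y7) - y4 * (x5 * z7 - z5 * x7) + 0 * (x5 * y7 - 0 * x7) = 0)
    (e078 : y7 * z8 = z7 * y8) (e248 : x4 * y8 = y4 * x8) (e179 : x7 * z9 = z7 * x9)
    (e389 : x3 * (y8 * z9 - z8 * y9) - y3 * (x8 * z9 - z8 * x9) + z3 * (x8 * y9 - y8 * x9) = 0)
    (e469 : x4 * (y6 * z9 - z6 * y9) - y4 * (0 * z9 - z6 * x9) + 0 * (0 * y9 - y6 * x9) = 0)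
    (hne : x3 * y4 ≠ y3 * x4) : ∃ t : K, t ^ 2 - t - 1 = 0 := by
  obtain ⟨t, rfl⟩ : ∃ t, y4 = t * (x4 * y3 / x3) := ⟨y4 * x3 / (x4 * y3), by field_simp⟩
  have ht : t ≠ 0 := by rintro rfl; simp at hy4
  have ht1 : t - 1 ≠ 0 := by
    intro h
    apply hne
    have : t = 1 := by linear_combination h
    rw [this]; field_simp
  have z5e : z5 = z3 * x5 / x3 := by field_simp; linear_combination e135
  have z6e : z6 = z3 * y6 / y3 := by field_simp; linear_combination e036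
  have y7e : y7 = y3 * x7 / x3 := by field_simp; linear_combination e237
  have y8e : y8 = t * y3 * x8 / x3 := by
    field_simp at e248 ⊢; linear_combination e248
  subst z5e z6e y7e y8e
  have z7e : z7 = (t - 1) * z3 * x7 / (t * x3) := by
    field_simp at e457 ⊢
    apply mul_left_cancel₀ (mul_ne_zero (mul_ne_zero hx4 hx5) hy3)
    linear_combination -e457
  subst z7e
  have z8e : z8 = (t - 1) * z3 * x8 / x3 := by
    field_simp at e078 ⊢; linear_combination e078
  have z9e : z9 = (t - 1) * z3 * x9 / (t * x3) := by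
    field_simp at e179 ⊢; linear_combination e179
  subst z8e z9e
  have y9e : y9 = (t ^ 2 + t - 1) * y3 * x9 / (t * x3) := by
    field_simp at e469 ⊢
    apply mul_left_cancel₀ (mul_ne_zero (mul_ne_zero hx4 hz3) (mul_ne_zero hy6 hx3))
    linear_combination -e469
  subst y9e
  refine ⟨t, ?_⟩
  apply mul_left_cancel₀ ht1
  field_simp at e389
  apply mul_left_cancel₀ (mul_ne_zero (mul_ne_zero hy3 hx8) (mul_ne_zero hz3 hx9))
  linear_combination -e389

lemma exists_root {K : Type} [Field K] (M : Matrix (Fin 10) (Fin 12) K)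
    (h : ∀ i j, M i j = 0 ↔ i ∈ T j) (hr : M.rank = 3) : ∃ t : K, t ^ 2 - t - 1 = 0 := by
  choose x y z hxyz using row_comb M h hr
  have Z : ∀ i j, i ∈ T j → x i * M 0 j + y i * M 1 j + z i * M 2 j = 0 := fun i j hij => by
    rw [← hxyz]; exact (h i j).2 hij
  have N : ∀ i j, i ∉ T j → x i * M 0 j + y i * M 1 j + z i * M 2 j ≠ 0 := fun i j hij => by
    rw [← hxyz]; exact fun e => hij ((h i j).1 e)
  have a1 : M 1 4 = 0 := (h _ _).2 (by decide)
  have a2 : M 2 4 = 0 := (h _ _).2 (by decide)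
  have a3 : M 0 1 = 0 := (h _ _).2 (by decide)
  have a4 : M 2 1 = 0 := (h _ _).2 (by decide)
  have a5 : M 0 0 = 0 := (h _ _).2 (by decide)
  have a6 : M 1 0 = 0 := (h _ _).2 (by decide)
  have b1 : M 0 4 ≠ 0 := fun e => absurd ((h _ _).1 e) (by decide)
  have b2 : M 1 1 ≠ 0 := fun e => absurd ((h _ _).1 e) (by decide)
  have b3 : M 2 0 ≠ 0 := fun e => absurd ((h _ _).1 e) (by decide)
  have X0 : ∀ i, i ∈ T 4 → x i = 0 := fun i hi => by simpa [a1, a2, b1] using Z i 4 hi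
  have Y0 : ∀ i, i ∈ T 1 → y i = 0 := fun i hi => by simpa [a3, a4, b2] using Z i 1 hi
  have Z0 : ∀ i, i ∈ T 0 → z i = 0 := fun i hi => by simpa [a5, a6, b3] using Z i 0 hi
  have XN : ∀ i, i ∉ T 4 → x i ≠ 0 := fun i hi e => N i 4 hi (by simp [a1, a2, e])
  have YN : ∀ i, i ∉ T 1 → y i ≠ 0 := fun i hi e => N i 1 hi (by simp [a3, a4, e])
  have ZN : ∀ i, i ∉ T 0 → z i ≠ 0 := fun i hi e => N i 0 hi (by simp [a5, a6, e])
  have D : ∀ j a b c d, a ∈ T j → b ∈ T j → c ∈ T j → d ∉ T j →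
      x a * (y b * z c - z b * y c) - y a * (x b * z c - z b * x c) +
        z a * (x b * y c - y b * x c) = 0 := fun j a b c d ha hb hc hd =>
    det3 (Z a j ha) (Z b j hb) (Z c j hc) (N d j hd)
  have x0 := XN 0 (by decide)
  have y0 := Y0 0 (by decide)
  have z0 := Z0 0 (by decide)
  have x1 := X0 1 (by decide)
  have y1 := YN 1 (by decide)
  have z1 := Z0 1 (by decide)
  have x2 := X0 2 (by decide)
  have y2 := Y0 2 (by decide)
  have z2 := ZN 2 (by decide)
  have z4 := Z0 4 (by decide)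
  have y5 := Y0 5 (by decide)
  have x6 := X0 6 (by decide)
  have e135 := D 2 1 3 5 0 (by decide) (by decide) (by decide) (by decide)
  have e036 := D 3 0 3 6 1 (by decide) (by decide) (by decide) (by decide)
  have e237 := D 5 2 3 7 0 (by decide) (by decide) (by decide) (by decide)
  have e457 := D 6 4 5 7 0 (by decide) (by decide) (by decide) (by decide)
  have e078 := D 7 0 7 8 1 (by decide) (by decide) (by decide) (by decide)
  have e248 := D 8 2 4 8 0 (by decide) (by decide) (by decide) (by decide)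
  have e179 := D 9 1 7 9 0 (by decide) (by decide) (by decide) (by decide)
  have e389 := D 10 3 8 9 0 (by decide) (by decide) (by decide) (by decide)
  have e469 := D 11 4 6 9 0 (by decide) (by decide) (by decide) (by decide)
  rw [z4, y5] at e457
  rw [z4, x6] at e469
  refine alg (XN 3 (by decide)) (YN 3 (by decide)) (ZN 3 (by decide)) (XN 4 (by decide))
    (YN 4 (by decide)) (XN 5 (by decide)) (YN 6 (by decide)) (XN 7 (by decide))
    (XN 8 (by decide)) (XN 9 (by decide)) ?_ ?_ ?_ e457 ?_ ?_ ?_ e389 e469 ?_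
  · apply mul_left_cancel₀ y1
    rw [x1, z1] at e135
    linear_combination -e135
  · apply mul_left_cancel₀ x0
    rw [y0, z0] at e036
    linear_combination e036
  · apply mul_left_cancel₀ z2
    rw [x2, y2] at e237
    linear_combination e237
  · apply mul_left_cancel₀ x0
    rw [y0, z0] at e078
    linear_combination e078
  · apply mul_left_cancel₀ z2
    rw [x2, y2] at e248
    linear_combination e248
  · apply mul_left_cancel₀ y1
    rw [x1, z1] at e179
    linear_combination -e179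
  · intro e
    have n4 := N 4 5 (by decide)
    have q3 := Z 3 5 (by decide)
    have q2 : M 2 5 = 0 := (h _ _).2 (by decide)
    apply n4
    apply mul_left_cancel₀ (XN 3 (by decide))
    rw [q2] at q3 ⊢
    linear_combination x 4 * q3 + M 1 5 * e

lemma no_rat_root (t : ℚ) : t ^ 2 - t - 1 ≠ 0 := by
  intro h
  have : IsSquare ((5 : ℕ) : ℚ) := ⟨2 * t - 1, by push_cast; linear_combination (-4) * h⟩
  rw [Rat.isSquare_natCast_iff] at this
  revert this
  decide +kernel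

noncomputable def A : Matrix (Fin 10) (Fin 12) SignType := fun i j => SignType.sign (B i j)

lemma A_zero (i : Fin 10) (j : Fin 12) : A i j = 0 ↔ i ∈ T j := by
  rw [← B_zero, A, sign_eq_zero_iff]

lemma A_cols (j : Fin 12) : (Finset.univ.filter (fun i : Fin 10 => A i j = 0)).card ≤ 3 := by
  have : Finset.univ.filter (fun i : Fin 10 => A i j = 0) = T j := by
    ext i; simp [A_zero]
  rw [this]; exact T_card j

lemma A_real_ge (M : Matrix (Fin 10) (Fin 12) ℝ) (h : ∀ i j, SignType.sign (M i j) = A i j) :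
    3 ≤ M.rank :=
  three_le_rank M (fun i j => by rw [← A_zero, ← h, sign_eq_zero_iff])

lemma A_real : ∃ M : Matrix (Fin 10) (Fin 12) ℝ,
    (∀ i j, SignType.sign (M i j) = A i j) ∧ M.rank = 3 :=
  ⟨B, fun _ _ => rfl, le_antisymm B_rank_le (A_real_ge B (fun _ _ => rfl))⟩

lemma A_rat (M : Matrix (Fin 10) (Fin 12) ℚ) (h : ∀ i j, SignType.sign (M i j) = A i j) :
    M.rank ≠ 3 := fun hr => by
  obtain ⟨t, ht⟩ := exists_root M (fun i j => by rw [← A_zero, ← h, sign_eq_zero_iff]) hr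
  exact no_rat_root t ht

end Pool.Agent.H5.SignRank
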