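import Mathlib

set_option autoImplicit false

namespace Pool.Agent.H5.SolidDefs

/-- The golden ratio `(1 + √5) / 2`. -/
noncomputable def φ : ℝ := (1 + √5) / 2

/-- The 12 vertices `(0, ±1, ±φ)` and cyclic permutations of a regular icosahedron. -/
noncomputable def icosahedron : Fin 12 → EuclideanSpace ℝ (Fin 3) :=
  ![!₂[0, 1, φ], !₂[1, φ, 0], !₂[φ, 0, 1], !₂[0, 1, -φ],
    !₂[1, -φ, 0], !₂[-φ, 0, 1], !₂[0, -1, φ], !₂[-1, φ, 0],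
    !₂[φ, 0, -1], !₂[0, -1, -φ], !₂[-1, -φ, 0], !₂[-φ, 0, -1]]

/-- The 20 vertices `(±1, ±1, ±1)`, `(0, ±1/φ, ±φ)` and cyclic permutations of a regular
dodecahedron. -/
noncomputable def dodecahedron : Fin 20 → EuclideanSpace ℝ (Fin 3) :=
  ![!₂[1, 1, 1], !₂[1, 1, -1], !₂[1, -1, 1], !₂[1, -1, -1],
    !₂[-1, 1, 1], !₂[-1, 1, -1], !₂[-1, -1, 1], !₂[-1, -1, -1],
    !₂[0, φ⁻¹, φ], !₂[φ⁻¹, φ, 0], !₂[φ, 0, φ⁻¹], !₂[0, φ⁻¹, -φ],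
    !₂[φ⁻¹, -φ, 0], !₂[-φ, 0, φ⁻¹], !₂[0, -φ⁻¹, φ], !₂[-φ⁻¹, φ, 0],
    !₂[φ, 0, -φ⁻¹], !₂[0, -φ⁻¹, -φ], !₂[-φ⁻¹, -φ, 0], !₂[-φ, 0, -φ⁻¹]]

end Pool.Agent.H5.SolidDefs
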