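import Pool.Agent.H5.JumpDefs
import Pool.Agent.H5.SolidDefs

set_option autoImplicit false

namespace Pool.Agent.H5.Solid

open Pool.Agent.H5.JumpDefs Pool.Agent.H5.SolidDefs

section
variable {ι : Type} [DecidableEq ι] {d : ℕ}

def Reach (P Q : ι → EuclideanSpace ℝ (Fin d)) : Prop := ∃ k, Jumps k P Q

lemma Reach.refl (P : ι → EuclideanSpace ℝ (Fin d)) : Reach P P := ⟨0, rfl⟩

lemma Reach.trans {P Q R : ι → EuclideanSpace ℝ (Fin d)} (h1 : Reach P Q) (h2 : Reach Q R) :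
    Reach P R := by
  obtain ⟨k, hk⟩ := h2
  induction k generalizing R with
  | zero => obtain rfl : R = Q := hk; exact h1
  | succ k ih =>
    obtain ⟨S, hS, j⟩ := hk
    obtain ⟨l, hl⟩ := ih hS
    exact ⟨l + 1, S, hl, j⟩

lemma reach_two (P : ι → EuclideanSpace ℝ (Fin d)) (i j k : ι) (hj : i ≠ j) (hk : i ≠ k)
    (x : EuclideanSpace ℝ (Fin d)) :
    Reach (Function.update P i x) (Function.update P i (x + (2 : ℝ) • (P j - P k))) := by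
  refine ⟨2, Function.update P i ((2 : ℝ) • P k - x), ⟨_, rfl, i, k, hk, ?_⟩, i, j, hj, ?_⟩
  · simp [Function.update_of_ne hk.symm]
  · simp only [Function.update_of_ne hj.symm, Function.update_self, Function.update_idem]
    congr 1
    module

lemma reach_comb [Fintype ι] (P : ι → EuclideanSpace ℝ (Fin d)) (i k : ι) (hk : i ≠ k) (c : ι → ℤ)
    (hi : c i = 0) (hs : ∑ j, c j = 0) :
    Reach P (Function.update P i (P i + (2 : ℝ) • ∑ j, c j • P j)) := by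
  let G : AddSubgroup (EuclideanSpace ℝ (Fin d)) :=
    { carrier := {v | ∀ x, Reach (Function.update P i x) (Function.update P i (x + (2 : ℝ) • v)) ∧
        Reach (Function.update P i x) (Function.update P i (x + (2 : ℝ) • (-v)))}
      zero_mem' := fun x => by simpa using Reach.refl _
      add_mem' := by
        intro a b ha hb x
        constructor
        · have := (ha x).1.trans (hb _).1
          rwa [add_assoc, ← smul_add] at this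
        · have := (hb x).2.trans (ha _).2
          rwa [add_assoc, ← smul_add, ← neg_add_rev] at this
      neg_mem' := fun {a} ha x => ⟨(ha x).2, by simpa using (ha x).1⟩ }
  have h1 : ∑ j, c j • (P j - P k) ∈ G := by
    refine sum_mem fun j _ => ?_
    by_cases hj : i = j
    · rw [← hj, hi, zero_smul]; exact zero_mem _
    · exact zsmul_mem (fun x => ⟨reach_two P i j k hj hk x,
        by rw [neg_sub]; exact reach_two P i k j hk hj x⟩) _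
  have h2 : ∑ j, c j • (P j - P k) = ∑ j, c j • P j := by
    simp only [smul_sub, Finset.sum_sub_distrib, ← Finset.sum_smul, hs, zero_smul, sub_zero]
  rw [h2] at h1
  simpa using (h1 (P i)).1

end

noncomputable def ev (p : ℤ × ℤ) : ℝ := (p.1 : ℝ) + (p.2 : ℝ) * φ

noncomputable def re {n : ℕ} (C : Fin n → Fin 3 → ℤ × ℤ) (i : Fin n) : EuclideanSpace ℝ (Fin 3) :=
  WithLp.toLp 2 (fun k => ev (C i k))

lemma phi_sq : φ ^ 2 = φ + 1 := by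
  have := Real.sq_sqrt (show (0 : ℝ) ≤ 5 by norm_num)
  unfold φ
  linear_combination (1 / 4) * this

lemma phi_pos : 0 < φ := by unfold φ; positivity

lemma phi_inv : φ⁻¹ = -1 + φ := inv_eq_of_mul_eq_one_right (by linear_combination phi_sq)

def tg {n : ℕ} (C : Fin (n + 2) → Fin 3 → ℤ × ℤ) (i : Fin (n + 2)) (k : Fin 3) : ℤ × ℤ :=
  ((C i k).1 + 2 * ((C i k).2 - (C 0 k).2),
    (C i k).2 + 2 * ((C i k).1 - (C 0 k).1 + (C i k).2 - (C 0 k).2))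

def cur {n : ℕ} (C : Fin (n + 2) → Fin 3 → ℤ × ℤ) (s : ℕ) (j : Fin (n + 2)) : Fin 3 → ℤ × ℤ :=
  if j.val < s then tg C j else C j

lemma enlarge {n : ℕ} (C : Fin (n + 2) → Fin 3 → ℤ × ℤ) (c : Fin (n + 2) → Fin (n + 2) → ℤ)
    (h : ∀ s, c s s = 0 ∧ ∑ j, c s j = 0 ∧ ∀ k,
      (tg C s k).1 = (C s k).1 + 2 * ∑ j, c s j * (cur C s.val j k).1 ∧
      (tg C s k).2 = (C s k).2 + 2 * ∑ j, c s j * (cur C s.val j k).2) :
    ∃ k Q, Jumps k (re C) Q ∧ SimilarLarger (re C) Q := by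
  have h1 : ∀ s, s ≤ n + 2 → Reach (re C) (re (cur C s)) := by
    intro s
    induction s with
    | zero => intro _; exact ⟨0, by ext i k; simp [re, cur]⟩
    | succ s ih =>
      intro hs
      obtain ⟨k, hk⟩ := exists_ne (⟨s, by omega⟩ : Fin (n + 2))
      obtain ⟨e1, e2, e3⟩ := h ⟨s, by omega⟩
      refine (ih (by omega)).trans ?_
      convert reach_comb (re (cur C s)) _ k hk.symm _ e1 e2 using 1
      ext j l
      by_cases hj : j = ⟨s, by omega⟩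
      · subst hj
        obtain ⟨e4, e5⟩ := e3 l
        simp only [re, cur, Function.update_self, Nat.lt_succ_self, if_true, ev, lt_irrefl,
          if_false] at e4 e5 ⊢
        rw [e4, e5]
        simp [mul_add, Finset.sum_add_distrib, add_mul, Finset.sum_mul, Finset.mul_sum, mul_assoc]
        ring
      · have : j.val ≠ s := fun e => hj (Fin.ext e)
        rw [Function.update_of_ne hj]
        have h2 : j.val < s + 1 ↔ j.val < s := by omega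
        simp only [re, cur, h2]
  obtain ⟨k, hk⟩ := h1 _ le_rfl
  refine ⟨k, _, hk, 1 + 2 * φ, LinearIsometryEquiv.refl ℝ _, -((2 * φ) • re C 0),
    by linarith [phi_pos], ?_⟩
  congr 1
  ext j l
  simp [re, cur, tg, ev, j.2]
  linear_combination (-2 * ((C j l).2 - (C 0 l).2 : ℝ)) * phi_sq

def CI : Fin 12 → Fin 3 → ℤ × ℤ :=
  ![![(0, 0), (1, 0), (0, 1)],
    ![(1, 0), (0, 1), (0, 0)],
    ![(0, 1), (0, 0), (1, 0)],
    ![(0, 0), (1, 0), (0, -1)],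
    ![(1, 0), (0, -1), (0, 0)],
    ![(0, -1), (0, 0), (1, 0)],
    ![(0, 0), (-1, 0), (0, 1)],
    ![(-1, 0), (0, 1), (0, 0)],
    ![(0, 1), (0, 0), (-1, 0)],
    ![(0, 0), (-1, 0), (0, -1)],
    ![(-1, 0), (0, -1), (0, 0)],
    ![(0, -1), (0, 0), (-1, 0)]]

def cI : Fin 12 → Fin 12 → ℤ :=
  ![![0, 0, 0, 0, 0, 0, 0, 0, 0, 0, 0, 0],
    ![0, 0, 0, 0, 1, -1, -1, 1, 0, 0, 0, 0],
    ![0, 0, 0, 0, 1, -1, 0, 0, 0, 0, 0, 0],
    ![-1, 0, -1, 0, 4, -3, -1, 2, 0, 0, 0, 0],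
    ![-1, -1, 0, 0, 0, 1, -2, -1, 4, 0, 0, 0],
    ![2, 1, -3, 0, 1, 0, 2, -3, 2, 0, 0, -2],
    ![-2, -3, 4, 2, -3, 0, 0, -2, 0, 0, 4, 0],
    ![-2, 0, 1, 1, -2, 0, 2, 0, 0, 0, 0, 0],
    ![-1, 0, 0, 1, -1, -1, 2, 0, 0, 0, 0, 0],
    ![-3, 1, 1, 0, -1, 1, 1, 0, 0, 0, 0, 0],
    ![-1, -1, 1, 1, -1, 0, 1, 0, 0, 0, 0, 0],
    ![-1, 1, -1, 0, 0, 0, 1, 0, 0, 0, 0, 0]]

def CD : Fin 20 → Fin 3 → ℤ × ℤ :=
  ![![(1, 0), (1, 0), (1, 0)],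
    ![(1, 0), (1, 0), (-1, 0)],
    ![(1, 0), (-1, 0), (1, 0)],
    ![(1, 0), (-1, 0), (-1, 0)],
    ![(-1, 0), (1, 0), (1, 0)],
    ![(-1, 0), (1, 0), (-1, 0)],
    ![(-1, 0), (-1, 0), (1, 0)],
    ![(-1, 0), (-1, 0), (-1, 0)],
    ![(0, 0), (-1, 1), (0, 1)],
    ![(-1, 1), (0, 1), (0, 0)],
    ![(0, 1), (0, 0), (-1, 1)],
    ![(0, 0), (-1, 1), (0, -1)],
    ![(-1, 1), (0, -1), (0, 0)],
    ![(0, -1), (0, 0), (-1, 1)],
    ![(0, 0), (1, -1), (0, 1)],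
    ![(1, -1), (0, 1), (0, 0)],
    ![(0, 1), (0, 0), (1, -1)],
    ![(0, 0), (1, -1), (0, -1)],
    ![(1, -1), (0, -1), (0, 0)],
    ![(0, -1), (0, 0), (1, -1)]]

def cD : Fin 20 → Fin 20 → ℤ :=
  ![![0, 0, 0, 0, 0, 0, 0, 0, 0, 0, 0, 0, 0, 0, 0, 0, 0, 0, 0, 0],
    ![1, 0, 0, 0, -2, 1, 1, 0, -1, 1, -1, 0, 0, 0, 0, 0, 0, 0, 0, 0],
    ![0, 0, 0, 0, 0, 0, 1, 0, -1, -1, 1, 0, 0, 0, 0, 0, 0, 0, 0, 0],
    ![1, 0, 0, 0, -2, 1, 2, 0, -2, 0, 0, 0, 0, 0, 0, 0, 0, 0, 0, 0],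
    ![3, -2, 0, 1, 0, 0, 0, 4, -4, 3, 0, 0, -5, 0, 0, 0, 0, 0, 0, 0],
    ![4, -3, 0, 2, 0, 0, 0, 5, -6, 6, 0, 0, -8, 0, 0, 0, 0, 0, 0, 0],
    ![3, -2, 0, 1, 0, 0, 0, 4, -4, 2, 0, 0, -4, 0, 0, 0, 0, 0, 0, 0],
    ![-1, 2, 0, -3, 0, 0, 0, 0, -1, -10, 0, 5, 8, 0, 0, 0, 0, 0, 0, 0],
    ![-62, 0, 0, -42, -7, 28, 0, 0, 0, -147, 76, 0, 22, 0, 0, 0, 132, 0, 0, 0],
    ![-7, 0, 0, -4, -22, 10, 0, 0, 21, 0, 0, 0, 0, 7, -5, 0, 0, 0, 0, 0],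
    ![-10, 0, 0, 1, -1, -3, 0, 0, 5, 6, 0, 2, 0, 0, 0, 0, 0, 0, 0, 0],
    ![-2, 0, 0, 1, 0, -1, 0, 0, 1, 2, -1, 0, 0, 0, 0, 0, 0, 0, 0, 0],
    ![-3, 0, 0, 0, 2, -1, 0, 0, -1, 1, 2, 0, 0, 0, 0, 0, 0, 0, 0, 0],
    ![-1, 0, 0, -1, -2, 2, 0, 0, 2, -1, 1, 0, 0, 0, 0, 0, 0, 0, 0, 0],
    ![-1, 0, 0, -1, 0, 1, 0, 0, 0, -1, 2, 0, 0, 0, 0, 0, 0, 0, 0, 0],
    ![0, 0, 0, 0, -2, 1, 0, 0, 2, 0, -1, 0, 0, 0, 0, 0, 0, 0, 0, 0],
    ![-2, 0, 0, 1, 2, -2, 0, 0, -1, 2, 0, 0, 0, 0, 0, 0, 0, 0, 0, 0],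
    ![-1, 0, 0, 0, 1, 0, 0, 0, -1, 0, 1, 0, 0, 0, 0, 0, 0, 0, 0, 0],
    ![0, 0, 0, 0, -1, 1, 0, 0, 1, -1, 0, 0, 0, 0, 0, 0, 0, 0, 0, 0],
    ![-1, 0, 0, 1, 1, -1, 0, 0, 0, 1, -1, 0, 0, 0, 0, 0, 0, 0, 0, 0]]

lemma ico_eq : icosahedron = re CI := by
  ext i k
  fin_cases i <;> fin_cases k <;> simp [icosahedron, re, CI, ev]

lemma dod_eq : dodecahedron = re CD := by
  ext i k
  fin_cases i <;> fin_cases k <;> simp [dodecahedron, re, CD, ev, phi_inv] <;> ring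

theorem ico : ∃ k Q, Jumps k icosahedron Q ∧ SimilarLarger icosahedron Q := by
  rw [ico_eq]
  exact enlarge CI cI (by decide +kernel)

theorem dod : ∃ k Q, Jumps k dodecahedron Q ∧ SimilarLarger dodecahedron Q := by
  rw [dod_eq]
  exact enlarge CD cD (by decide +kernel)

end Pool.Agent.H5.Solid
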