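import Mathlib

set_option linter.unusedSectionVars false

namespace Pool.Agent.H5.StsAct

open Finset

/-- Steiner quasigroup laws -/
structure IsSQ {V : Type} (op : V → V → V) : Prop where
  idem : ∀ x, op x x = x
  comm : ∀ x y, op x y = op y x
  canc : ∀ x y, op x (op x y) = y

theorem blocks {V G : Type} [Fintype V] [DecidableEq V] [Group G] (op : V → V → V) (h : IsSQ op)
    (φ : G →* Equiv.Perm V) (hφ : ∀ g x y, φ g (op x y) = op (φ g x) (φ g y)) :
    ∃ B : Finset (Finset V), (∀ b ∈ B, b.card = 3) ∧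
      (∀ x y : V, x ≠ y → ∃! b, b ∈ B ∧ x ∈ b ∧ y ∈ b) ∧
      ∀ g : G, ∀ b ∈ B, b.image (⇑(φ g)) ∈ B := by
  have mem : ∀ b, b ∈ (univ.filter fun p : V × V => p.1 ≠ p.2).image
      (fun p => ({p.1, p.2, op p.1 p.2} : Finset V)) ↔ ∃ x y, x ≠ y ∧ b = {x, y, op x y} := by
    intro b
    simp only [mem_image, mem_filter, mem_univ, true_and, Prod.exists]
    constructor
    · rintro ⟨x, y, h1, h2⟩; exact ⟨x, y, h1, h2.symm⟩
    · rintro ⟨x, y, h1, h2⟩; exact ⟨x, y, h1, h2.symm⟩
  have ne1 : ∀ x y, x ≠ y → x ≠ op x y := by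
    intro x y hxy he
    apply hxy
    have := h.canc x y
    rw [← he, h.idem] at this
    exact this
  refine ⟨(univ.filter fun p : V × V => p.1 ≠ p.2).image
      (fun p => ({p.1, p.2, op p.1 p.2} : Finset V)), ?_, ?_, ?_⟩
  rotate_left
  · intro x y hxy
    refine ⟨{x, y, op x y}, ⟨(mem _).mpr ⟨x, y, hxy, rfl⟩, by simp, by simp⟩, ?_⟩
    rintro b ⟨hb, hx, hy⟩
    obtain ⟨u, v, huv, rfl⟩ := (mem _).mp hb
    simp only [mem_insert, mem_singleton] at hx hy
    have c1 := h.canc u v
    have c2 : op v (op u v) = u := by rw [h.comm u v, h.canc]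
    rcases hx with rfl | rfl | rfl <;> rcases hy with rfl | rfl | rfl
    · exact absurd rfl hxy
    · rfl
    · rw [c1]; ext z; simp only [mem_insert, mem_singleton]; tauto
    · rw [h.comm x y]; ext z; simp only [mem_insert, mem_singleton]; tauto
    · exact absurd rfl hxy
    · rw [c2]; ext z; simp only [mem_insert, mem_singleton]; tauto
    · rw [h.comm (op y v) y, c1]; ext z; simp only [mem_insert, mem_singleton]; tauto
    · rw [h.comm (op u y) y, c2]; ext z; simp only [mem_insert, mem_singleton]; tauto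
    · exact absurd rfl hxy
  · intro g b hb
    obtain ⟨u, v, huv, rfl⟩ := (mem _).mp hb
    refine (mem _).mpr ⟨φ g u, φ g v, fun e => huv ((φ g).injective e), ?_⟩
    simp [hφ]
  · intro b hb
    obtain ⟨u, v, huv, rfl⟩ := (mem _).mp hb
    refine card_eq_three.mpr ⟨u, v, op u v, huv, ne1 u v huv, ?_, rfl⟩
    rw [h.comm u v]; exact ne1 v u huv.symm

/-- the Bose operation -/
def bose {A : Type} [CommRing A] [DecidableEq A] (hf : A) (p q : A × ZMod 3) : A × ZMod 3 :=
  if p.1 = q.1 then (p.1, -p.2 - q.2)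
  else if q.2 = p.2 then (hf * (p.1 + q.1), p.2 + 1)
  else if q.2 = p.2 + 1 then (2 * q.1 - p.1, p.2)
  else (2 * p.1 - q.1, q.2)

theorem bose_sq {A : Type} [CommRing A] [DecidableEq A] (hf : A) (h2 : 2 * hf = 1) :
    IsSQ (bose hf) := by
  have z1 : ∀ i : ZMod 3, -i - i = i := by decide
  have z2 : ∀ i : ZMod 3, i + 1 ≠ i := by decide
  have z3 : ∀ i j : ZMod 3, j ≠ i → j ≠ i + 1 → i = j + 1 := by decide
  have z4 : ∀ i : ZMod 3, i ≠ i + 1 + 1 := by decide
  refine ⟨?_, ?_, ?_⟩
  · rintro ⟨x, i⟩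
    simp [bose, z1]
  · rintro ⟨x, i⟩ ⟨y, j⟩
    simp only [bose]
    by_cases hxy : x = y
    · subst hxy; simp only [if_true, Prod.mk.injEq, true_and]; ring
    · rw [if_neg hxy, if_neg (Ne.symm hxy)]
      by_cases hij : j = i
      · subst hij; simp [add_comm]
      · rw [if_neg hij, if_neg (Ne.symm hij)]
        by_cases h1 : j = i + 1
        · subst h1; rw [if_pos rfl, if_neg (z4 i)]
        · rw [if_neg h1, if_pos (z3 i j hij h1)]
  · rintro ⟨x, i⟩ ⟨y, j⟩
    by_cases hxy : x = y
    · subst hxy; simp [bose]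
    · by_cases hij : j = i
      · subst hij
        have e : bose hf (x, j) (y, j) = (hf * (x + y), j + 1) := by simp [bose, hxy]
        have n : x ≠ hf * (x + y) := by
          intro he; apply hxy; linear_combination 2 * he + (x + y) * h2
        rw [e]
        simp only [bose, if_neg n, if_neg (z2 j), if_true, Prod.mk.injEq, and_true]
        linear_combination (x + y) * h2
      · by_cases h1 : j = i + 1
        · subst h1
          have e : bose hf (x, i) (y, i + 1) = (2 * y - x, i) := by simp [bose, hxy, z2]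
          have n : x ≠ 2 * y - x := by
            intro he; apply hxy; linear_combination hf * he - (x - y) * h2
          rw [e]
          simp only [bose, if_neg n, if_true, Prod.mk.injEq, and_true]
          linear_combination y * h2
        · have e : bose hf (x, i) (y, j) = (2 * x - y, j) := by simp [bose, hxy, hij, h1]
          have n : x ≠ 2 * x - y := by
            intro he; apply hxy; linear_combination -he
          rw [e]
          simp only [bose, if_neg n, if_neg hij, if_neg h1, Prod.mk.injEq, and_true]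
          ring

theorem exists_sq (R : Type) [Fintype R] (h : Fintype.card R % 6 = 3) :
    ∃ op : R → R → R, IsSQ op := by
  obtain ⟨t, ht⟩ : ∃ t, Fintype.card R = (2 * t + 1) * 3 := ⟨Fintype.card R / 6, by omega⟩
  have e : R ≃ ZMod (2 * t + 1) × ZMod 3 := Fintype.equivOfCardEq (by simp [ht])
  have h2 : (2 : ZMod (2 * t + 1)) * ((t + 1 : ℕ) : ZMod (2 * t + 1)) = 1 := by
    have : (((2 * t + 1 : ℕ)) : ZMod (2 * t + 1)) = 0 := ZMod.natCast_self _
    push_cast at this ⊢
    linear_combination this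
  have b := bose_sq _ h2
  refine ⟨fun x y => e.symm (bose ((t + 1 : ℕ) : ZMod (2 * t + 1)) (e x) (e y)), ?_, ?_, ?_⟩
  · intro x; rw [b.idem]; simp
  · intro x y; rw [b.comm]
  · intro x y; rw [e.apply_symm_apply, b.canc]; simp

section Main

variable {H : Type} [Group H] (T : H → Prop) (τ : H → H) (col : H → H → Prop)

/-- the fixed points -/
abbrev Rr (T : H → Prop) : Type := {r : H // r ≠ 1 ∧ ¬ T r}

open Classical in
/-- matchings -/
noncomputable def mu (r y : H) : H := if col r y then y * r else y * r⁻¹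

open Classical in
/-- labels -/
noncomputable def lab (d y : H) : H := if col d y then d else d⁻¹

variable (hTi : ∀ d, T d → T d⁻¹)

include hTi in
theorem lab_mem {d : H} (y : H) (h1 : d ≠ 1) (h2 : ¬ T d) :
    lab col d y ≠ 1 ∧ ¬ T (lab col d y) := by
  unfold lab
  split_ifs
  · exact ⟨h1, h2⟩
  · exact ⟨by simpa using h1, fun h => h2 (by simpa using hTi _ h)⟩

open Classical in
/-- the operation -/
noncomputable def opV (q : Rr T → Rr T → Rr T) : Rr T ⊕ H → Rr T ⊕ H → Rr T ⊕ H
  | .inl a, .inl b => .inl (q a b)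
  | .inl a, .inr y => .inr (mu col a.1 y)
  | .inr y, .inl a => .inr (mu col a.1 y)
  | .inr y, .inr z =>
      if h1 : y⁻¹ * z = 1 then .inr y
      else if h2 : T (y⁻¹ * z) then .inr (y * τ (y⁻¹ * z))
      else .inl ⟨lab col (y⁻¹ * z) y, lab_mem T col hTi y h1 h2⟩

theorem ev1 (q : Rr T → Rr T → Rr T) (y : H) :
    opV T τ col hTi q (.inr y) (.inr y) = .inr y := by simp [opV]

theorem ev2 (q : Rr T → Rr T → Rr T) {y z d : H} (hd : y⁻¹ * z = d) (h1 : d ≠ 1) (h2 : T d) :
    opV T τ col hTi q (.inr y) (.inr z) = .inr (y * τ d) := by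
  subst hd; simp only [opV]; rw [dif_neg h1, dif_pos h2]

theorem ev3 (q : Rr T → Rr T → Rr T) {y z d : H} (hd : y⁻¹ * z = d) (h1 : d ≠ 1) (h2 : ¬ T d) :
    opV T τ col hTi q (.inr y) (.inr z) = .inl ⟨lab col d y, lab_mem T col hTi y h1 h2⟩ := by
  subst hd; simp only [opV]; rw [dif_neg h1, dif_neg h2]

theorem ev4 (q : Rr T → Rr T → Rr T) (y : H) (a : Rr T) :
    opV T τ col hTi q (.inr y) (.inl a) = .inr (mu col a.1 y) := rfl

theorem ev5 (q : Rr T → Rr T → Rr T) (y : H) (a : Rr T) :
    opV T τ col hTi q (.inl a) (.inr y) = .inr (mu col a.1 y) := rfl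

theorem opV_sq (q : Rr T → Rr T → Rr T) (hq : IsSQ q) (hT1 : ¬ T 1)
    (hτ1 : ∀ d, T d → T (τ d)) (hτ2 : ∀ d, T d → τ (τ d) = d)
    (hτ3 : ∀ d, T d → τ d = d * τ d⁻¹)
    (hc1 : ∀ r y, col r⁻¹ y ↔ col r y)
    (hc2 : ∀ r, r ≠ 1 → ¬ T r → r⁻¹ = r ∨ ∀ y, col r (y * r) ↔ ¬ col r y) :
    IsSQ (opV T τ col hTi q) := by
  refine ⟨?_, ?_, ?_⟩
  · rintro (a | y)
    · simp [opV, hq.idem]
    · simp [opV]
  · rintro (a | y) (b | z)
    · simp [opV, hq.comm a b]
    · rfl
    · rfl
    · obtain ⟨d, rfl⟩ : ∃ d, z = y * d := ⟨y⁻¹ * z, by group⟩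
      have e1 : y⁻¹ * (y * d) = d := by group
      have e2 : (y * d)⁻¹ * y = d⁻¹ := by group
      by_cases h1 : d = 1
      · subst h1; simp
      · have h1' : d⁻¹ ≠ 1 := by simpa using h1
        by_cases h2 : T d
        · rw [ev2 T τ col hTi q e1 h1 h2, ev2 T τ col hTi q e2 h1' (hTi d h2), hτ3 d h2, mul_assoc]
        · have h2' : ¬ T d⁻¹ := fun h => h2 (by simpa using hTi _ h)
          rw [ev3 T τ col hTi q e1 h1 h2, ev3 T τ col hTi q e2 h1' h2']
          congr 2
          unfold lab
          rcases hc2 d h1 h2 with h | h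
          · simp [h]
          · rw [hc1, h y]
            by_cases hc : col d y <;> simp [hc]
  · rintro (a | y) (b | z)
    · simp [opV, hq.canc]
    · simp only [opV, Sum.inr.injEq]
      unfold mu
      rcases hc2 a.1 a.2.1 a.2.2 with h | h
      · simp only [h, ite_self]
        rw [mul_assoc]; nth_rewrite 1 [← h]; simp
      · by_cases hc : col a.1 z
        · rw [if_pos hc, if_neg (by rw [h]; simpa using hc)]; simp
        · have := h (z * a.1⁻¹)
          rw [inv_mul_cancel_right] at this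
          rw [if_neg hc, if_pos (by tauto)]; simp
    · have hb1 := b.2.1
      have hb2 := b.2.2
      have hb1' : b.1⁻¹ ≠ 1 := by simpa using hb1
      have hb2' : ¬ T b.1⁻¹ := fun h => hb2 (by simpa using hTi _ h)
      by_cases hc : col b.1 y
      · have e : y⁻¹ * mu col b.1 y = b.1 := by simp [mu, hc]
        rw [ev4, ev3 T τ col hTi q e hb1 hb2]
        congr 1
        exact Subtype.ext (by simp [lab, hc])
      · have e : y⁻¹ * mu col b.1 y = b.1⁻¹ := by simp [mu, hc]
        rw [ev4, ev3 T τ col hTi q e hb1' hb2']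
        congr 1
        exact Subtype.ext (by simp [lab, hc, hc1])
    · obtain ⟨d, rfl⟩ : ∃ d, z = y * d := ⟨y⁻¹ * z, by group⟩
      have e1 : y⁻¹ * (y * d) = d := by group
      by_cases h1 : d = 1
      · subst h1; simp [opV]
      · by_cases h2 : T d
        · have e3 : y⁻¹ * (y * τ d) = τ d := by group
          have n1 : τ d ≠ 1 := fun h => hT1 (h ▸ hτ1 d h2)
          rw [ev2 T τ col hTi q e1 h1 h2, ev2 T τ col hTi q e3 n1 (hτ1 d h2), hτ2 d h2]
        · rw [ev3 T τ col hTi q e1 h1 h2, ev4]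
          simp only [Sum.inr.injEq]
          by_cases hc : col d y <;> simp [mu, lab, hc, hc1]

/-- the action -/
def act {G : Type} [Group G] (f : G →* H) : G →* Equiv.Perm (Rr T ⊕ H) where
  toFun g := Equiv.sumCongr (Equiv.refl _) (Equiv.mulLeft (f g))
  map_one' := by ext (a | y) <;> simp
  map_mul' g h := by ext (a | y) <;> simp [mul_assoc]

theorem act_inj {G : Type} [Group G] (f : G →* H) (hf : Function.Injective f) :
    Function.Injective (act T f) := by
  intro g h e
  have := congrArg (fun p : Equiv.Perm (Rr T ⊕ H) => p (.inr 1)) e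
  simp only [act, MonoidHom.coe_mk, OneHom.coe_mk, Equiv.sumCongr_apply, Sum.map_inr,
    Equiv.coe_mulLeft, mul_one, Sum.inr.injEq] at this
  exact hf this

theorem act_op {G : Type} [Group G] (f : G →* H) (q : Rr T → Rr T → Rr T)
    (hc : ∀ g r y, col r (f g * y) ↔ col r y) (g : G) (x y : Rr T ⊕ H) :
    act T f g (opV T τ col hTi q x y)
      = opV T τ col hTi q (act T f g x) (act T f g y) := by
  have a1 : ∀ a, act T f g (.inl a) = .inl a := fun a => rfl
  have a2 : ∀ y, act T f g (.inr y) = .inr (f g * y) := fun a => rfl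
  have m : ∀ r y, mu col r (f g * y) = f g * mu col r y := by
    intro r y; unfold mu; rw [hc]; split_ifs <;> simp [mul_assoc]
  rcases x with a | y' <;> rcases y with b | z
  · rfl
  · simp only [opV, a1, a2, m]
  · simp only [opV, a1, a2, m]
  · have e : (f g * y')⁻¹ * (f g * z) = y'⁻¹ * z := by group
    rw [a2, a2]
    by_cases h1 : y'⁻¹ * z = 1
    · obtain rfl : y' = z := by simpa [inv_mul_eq_one] using h1
      rw [ev1, ev1, a2]
    · by_cases h2 : T (y'⁻¹ * z)
      · rw [ev2 T τ col hTi q e h1 h2, ev2 T τ col hTi q rfl h1 h2, a2, mul_assoc]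
      · rw [ev3 T τ col hTi q e h1 h2, ev3 T τ col hTi q rfl h1 h2, a1]
        congr 2; unfold lab; rw [hc]

end Main

end Pool.Agent.H5.StsAct
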