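import Mathlib
import Pool.Agent.H5.StsAct

set_option linter.unusedSectionVars false

namespace Pool.Agent.H5.StsAct

open Finset

/-- cyclic group of order three -/
abbrev C3 : Type := Multiplicative (ZMod 3)

/-- its generator -/
def cc : C3 := Multiplicative.ofAdd 1

theorem abstr {G H J : Type} [Group G] [Group H] [Fintype H] [Fintype J] (f : G →* H)
    (hf : Function.Injective f) (E : J → H) (hE : Function.Injective E) (t s : J → J)
    (h1 : ∀ j, E j ≠ 1) (hs : ∀ j, E (s j) = (E j)⁻¹) (ht : ∀ j, t (t j) = j)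
    (hts : ∀ j, E (t j) = E j * E (t (s j))) (col : H → H → Prop)
    (hc0 : ∀ g r y, col r (f g * y) ↔ col r y) (hc1 : ∀ r y, col r⁻¹ y ↔ col r y)
    (hc2 : ∀ r, r ≠ 1 → ¬ (∃ j, E j = r) → r⁻¹ = r ∨ ∀ y, col r (y * r) ↔ ¬ col r y)
    (hH : Fintype.card H % 6 = 0) (hJ : Fintype.card J % 6 = 2) :
    ∃ (V : Type) (_ : Fintype V) (_ : DecidableEq V) (B : Finset (Finset V)),
      (∀ b ∈ B, b.card = 3) ∧
      (∀ x y : V, x ≠ y → ∃! b, b ∈ B ∧ x ∈ b ∧ y ∈ b) ∧
      Fintype.card V ≤ 2 * Fintype.card H ∧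
      ∃ φ : G →* Equiv.Perm V, Function.Injective φ ∧
        ∀ g : G, ∀ b ∈ B, b.image (⇑(φ g)) ∈ B := by
  classical
  let T : H → Prop := fun r => ∃ j, E j = r
  let τ : H → H := fun r => if h : ∃ j, E j = r then E (t h.choose) else 1
  have hτ : ∀ j, τ (E j) = E (t j) := by
    intro j
    have h : ∃ i, E i = E j := ⟨j, rfl⟩
    simp only [τ, dif_pos h]
    rw [hE h.choose_spec]
  have hTi : ∀ d, T d → T d⁻¹ := by rintro _ ⟨j, rfl⟩; exact ⟨s j, hs j⟩
  have hcard : Fintype.card (Rr T) + (Fintype.card J + 1) = Fintype.card H := by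
    have e1 : Fintype.card (Rr T) = (univ \ insert 1 (univ.image E)).card := by
      rw [Fintype.card_subtype]
      congr 1
      ext r
      simp [T]
    have e2 : (insert 1 (univ.image E)).card = Fintype.card J + 1 := by
      rw [card_insert_of_notMem (by simpa using h1), card_image_of_injective _ hE, card_univ]
    rw [e1, ← e2, card_sdiff_add_card_eq_card (subset_univ _), card_univ]
  obtain ⟨q, hq⟩ := exists_sq (Rr T) (by omega)
  have hsq := opV_sq T τ col hTi q hq (by rintro ⟨j, hj⟩; exact h1 j hj)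
    (by rintro _ ⟨j, rfl⟩; rw [hτ]; exact ⟨_, rfl⟩)
    (by rintro _ ⟨j, rfl⟩; rw [hτ, hτ, ht])
    (by rintro _ ⟨j, rfl⟩; rw [← hs, hτ, hτ, hts]) hc1 hc2
  obtain ⟨B, b1, b2, b3⟩ := blocks _ hsq (act T f) (act_op T τ col hTi f q hc0)
  refine ⟨Rr T ⊕ H, inferInstance, inferInstance, B, b1, b2, ?_, act T f, act_inj T f hf, b3⟩
  rw [Fintype.card_sum]; omega

section Conc

variable {G : Type} [Group G] [Fintype G] {k : ℕ}

/-- index set of the triangle orbits -/
abbrev II (e : G → ℕ) : Type :=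
  {p : G × C3 // (p.2 = cc ∧ p.1 ≠ 1) ∨ (p.2 = 1 ∧ e p.1 < e p.1⁻¹)}

/-- the six differences of a triangle -/
def six {H : Type} [Group H] (g h : H) : Fin 6 → H := ![g, h, g⁻¹, g⁻¹ * h, h⁻¹, h⁻¹ * g]

/-- the differences -/
def EE (e : G → ℕ) (w : G × C3 → Fin k → ℤˣ) : (II e × Fin 6) ⊕ Bool → G × C3 × (Fin k → ℤˣ)
  | .inl (p, i) => six (p.1.1, p.1.2, 1) (1, p.1.2 * cc, w p.1) i
  | .inr true => (1, cc, 1)
  | .inr false => (1, cc⁻¹, 1)

/-- partner -/
def tt {I : Type} : (I × Fin 6) ⊕ Bool → (I × Fin 6) ⊕ Bool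
  | .inl (p, i) => .inl (p, ![1, 0, 3, 2, 5, 4] i)
  | .inr b => .inr (!b)

/-- inverse -/
def ss {I : Type} : (I × Fin 6) ⊕ Bool → (I × Fin 6) ⊕ Bool
  | .inl (p, i) => .inl (p, ![2, 4, 0, 5, 1, 3] i)
  | .inr b => .inr (!b)

theorem II_ne (e : G → ℕ) (p : II e) : p.1.1 ≠ 1 := by
  rcases p.2 with h | h
  · exact h.2
  · intro h1; rw [h1, inv_one] at h; exact lt_irrefl _ h.2

theorem winv (x : Fin k → ℤˣ) : x⁻¹ = x := by
  ext i; simp [Int.units_inv_eq_self]

theorem EE_val (e : G → ℕ) (w : G × C3 → Fin k → ℤˣ) (p : II e) :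
    EE e w (.inl (p, 0)) = (p.1.1, p.1.2, 1) ∧ EE e w (.inl (p, 1)) = (1, p.1.2 * cc, w p.1) ∧
    EE e w (.inl (p, 2)) = (p.1.1⁻¹, p.1.2⁻¹, 1) ∧ EE e w (.inl (p, 3)) = (p.1.1⁻¹, cc, w p.1) ∧
    EE e w (.inl (p, 4)) = (1, (p.1.2 * cc)⁻¹, w p.1) ∧
    EE e w (.inl (p, 5)) = (p.1.1, cc⁻¹, w p.1) := by
  refine ⟨rfl, rfl, ?_, ?_, ?_, ?_⟩ <;> simp [EE, six, winv, mul_comm cc⁻¹]

theorem EE_inj (e : G → ℕ) (w : G × C3 → Fin k → ℤˣ) (hw : Function.Injective w)
    (hw1 : ∀ p, w p ≠ 1) : Function.Injective (EE e w) := by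
  have c1 : cc ≠ cc⁻¹ := by decide
  have c2 : ∀ i : C3, (i = cc ∨ i = 1) → i * cc ≠ (i * cc)⁻¹ := by decide
  have c3 : ∀ i j : C3, (i = cc ∨ i = 1) → (j = cc ∨ j = 1) → i = j⁻¹ → i = 1 ∧ j = 1 := by decide
  have c4 : cc ≠ 1 := by decide
  have i2 : ∀ p : II e, p.1.2 = cc ∨ p.1.2 = 1 := fun p => p.2.imp And.left And.left
  have key : ∀ p q : II e, p.1.1 = q.1.1⁻¹ → p.1.2 = q.1.2⁻¹ → False := by
    intro p q h1 h2
    obtain ⟨a, b⟩ := c3 _ _ (i2 p) (i2 q) h2
    have hp := (p.2.resolve_left (fun h => c4 (h.1.symm.trans a))).2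
    have hq := (q.2.resolve_left (fun h => c4 (h.1.symm.trans b))).2
    rw [h1, inv_inv] at hp
    omega
  have fin6 : ∀ i : Fin 6, i = 0 ∨ i = 1 ∨ i = 2 ∨ i = 3 ∨ i = 4 ∨ i = 5 := by decide
  rintro (⟨p, i⟩ | b) (⟨q, j⟩ | b') h
  · obtain ⟨p0, p1, p2, p3, p4, p5⟩ := EE_val e w p
    obtain ⟨q0, q1, q2, q3, q4, q5⟩ := EE_val e w q
    have np := II_ne e p
    have nq := II_ne e q
    have wp := hw1 p.1
    have wq := hw1 q.1
    have pq : w p.1 = w q.1 → p = q := fun h => Subtype.ext (hw h)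
    have pq' : p.1.1 = q.1.1 → p.1.2 = q.1.2 → p = q := fun h h' => Subtype.ext (Prod.ext h h')
    have k1 := key p q
    have k2 := key q p
    have c2p := c2 _ (i2 p)
    rcases fin6 i with rfl | rfl | rfl | rfl | rfl | rfl <;>
      rcases fin6 j with rfl | rfl | rfl | rfl | rfl | rfl <;>
      simp only [p0, p1, p2, p3, p4, p5, q0, q1, q2, q3, q4, q5, Prod.mk.injEq] at h <;>
      obtain ⟨h1, h2, h3⟩ := h <;>
      first
        | exact absurd h3 wp
        | exact absurd h3.symm wq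
        | (rw [pq h3]; done)
        | (rw [pq' h1 h2]; done)
        | exact (k1 h1 h2).elim
        | exact (k2 h1.symm h2.symm).elim
        | (rw [pq' (inv_injective h1) (inv_injective h2)]; done)
        | exact absurd h1 np
        | exact absurd h1.symm nq
        | exact absurd (inv_eq_one.mp h1) np
        | exact absurd (inv_eq_one.mp h1.symm) nq
        | exact absurd h2 c1
        | exact absurd h2.symm c1
        | (obtain rfl := pq h3; first | exact absurd h2 c2p | exact absurd h2.symm c2p)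
  · exfalso
    obtain ⟨p0, p1, p2, p3, p4, p5⟩ := EE_val e w p
    have np := II_ne e p
    have wp := hw1 p.1
    have hb : (EE e w (.inr b')).1 = 1 ∧ (EE e w (.inr b')).2.2 = 1 := by cases b' <;> exact ⟨rfl, rfl⟩
    rw [← h] at hb
    rcases fin6 i with rfl | rfl | rfl | rfl | rfl | rfl <;>
      simp [p0, p1, p2, p3, p4, p5, np, wp] at hb
  · exfalso
    obtain ⟨p0, p1, p2, p3, p4, p5⟩ := EE_val e w q
    have np := II_ne e q
    have wp := hw1 q.1
    have hb : (EE e w (.inr b)).1 = 1 ∧ (EE e w (.inr b)).2.2 = 1 := by cases b <;> exact ⟨rfl, rfl⟩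
    rw [h] at hb
    rcases fin6 j with rfl | rfl | rfl | rfl | rfl | rfl <;>
      simp [p0, p1, p2, p3, p4, p5, np, wp] at hb
  · cases b <;> cases b' <;> simp only [EE, Prod.mk.injEq, true_and, and_true] at h
    · rfl
    · exact absurd h.symm c1
    · exact absurd h c1
    · rfl

theorem main (G : Type) [Group G] [Fintype G] :
    ∃ (V : Type) (_ : Fintype V) (_ : DecidableEq V) (B : Finset (Finset V)),
      (∀ b ∈ B, b.card = 3) ∧
      (∀ x y : V, x ≠ y → ∃! b, b ∈ B ∧ x ∈ b ∧ y ∈ b) ∧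
      Fintype.card V ≤ 36 * Fintype.card G ^ 2 ∧
      ∃ φ : G →* Equiv.Perm V, Function.Injective φ ∧
        ∀ g : G, ∀ b ∈ B, b.image (⇑(φ g)) ∈ B := by
  classical
  have hn : 0 < Fintype.card G := Fintype.card_pos
  obtain ⟨k, hk1, hk2⟩ : ∃ k, 3 * Fintype.card G < 2 ^ (k + 1) ∧ 2 ^ k ≤ 3 * Fintype.card G :=
    ⟨Nat.log 2 (3 * Fintype.card G), Nat.lt_pow_succ_log_self (by norm_num) _,
      Nat.pow_log_le_self 2 (by omega)⟩
  have cW : Fintype.card (Fin (k + 1) → ℤˣ) = 2 ^ (k + 1) := by simp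
  obtain ⟨ι⟩ : Nonempty (G × C3 ↪ {x : Fin (k + 1) → ℤˣ // x ≠ 1}) := by
    refine Function.Embedding.nonempty_of_card_le ?_
    rw [Fintype.card_subtype_compl, cW]
    simp only [Fintype.card_prod, Fintype.card_multiplicative, ZMod.card, Fintype.card_unique]
    omega
  let w : G × C3 → Fin (k + 1) → ℤˣ := fun p => (ι p).1
  have hw : Function.Injective w := fun a b h => ι.injective (Subtype.ext h)
  have hw1 : ∀ p, w p ≠ 1 := fun p => (ι p).2
  let e : G → ℕ := fun g => (Fintype.equivFin G g).val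
  have he : Function.Injective e := fun a b h => (Fintype.equivFin G).injective (Fin.ext h)
  have hidx : ∀ x : Fin (k + 1) → ℤˣ, ∃ i, x ≠ 1 → x i = -1 := by
    intro x
    by_cases hx : x = 1
    · exact ⟨0, fun h => absurd hx h⟩
    · obtain ⟨i, hi⟩ := Function.ne_iff.mp hx
      exact ⟨i, fun _ => (Int.units_eq_one_or (x i)).resolve_left hi⟩
  choose idx hidx using hidx
  have fin6 : ∀ i : Fin 6, i = 0 ∨ i = 1 ∨ i = 2 ∨ i = 3 ∨ i = 4 ∨ i = 5 := by decide
  have hs : ∀ j, EE e w (ss j) = (EE e w j)⁻¹ := by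
    rintro (⟨p, i⟩ | b)
    · rcases fin6 i with rfl | rfl | rfl | rfl | rfl | rfl <;> simp [EE, ss, six]
    · cases b <;> simp [EE, ss]
  obtain ⟨V, i1, i2, B, b1, b2, b3, b4⟩ := abstr (MonoidHom.inl G (C3 × (Fin (k + 1) → ℤˣ)))
    (fun a b h => by simpa using h) (EE e w) (EE_inj e w hw hw1) tt ss
    (by
      rintro (⟨p, i⟩ | b)
      · obtain ⟨p0, p1, p2, p3, p4, p5⟩ := EE_val e w p
        have np := II_ne e p
        have wp := hw1 p.1
        rcases fin6 i with rfl | rfl | rfl | rfl | rfl | rfl <;>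
          simp [p0, p1, p2, p3, p4, p5, np, wp, Prod.ext_iff]
      · have c4 : cc ≠ 1 := by decide
        cases b <;> simp [EE, c4, Prod.ext_iff])
    hs
    (by
      rintro (⟨p, i⟩ | b)
      · rcases fin6 i with rfl | rfl | rfl | rfl | rfl | rfl <;> rfl
      · cases b <;> rfl)
    (by
      rintro (⟨p, i⟩ | b)
      · rcases fin6 i with rfl | rfl | rfl | rfl | rfl | rfl <;> simp [EE, ss, tt, six]
      · have c5 : cc⁻¹ = cc * cc := by decide
        have c6 : cc = cc⁻¹ * cc⁻¹ := by decide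
        cases b
        · simp only [EE, ss, tt, Bool.not_false, Bool.not_true, Prod.mk_mul_mk, mul_one, ← c6]
        · simp only [EE, ss, tt, Bool.not_false, Bool.not_true, Prod.mk_mul_mk, mul_one, ← c5])
    (fun r y => y.2.2 (idx r.2.2) = 1)
    (by intro g r y; simp)
    (by intro r y; simp only [Prod.snd_inv, winv])
    (by
      rintro ⟨γ, i, x⟩ h1 h2
      by_cases hx : x = 1
      · left
        subst hx
        have c7 : ∀ i : C3, i = cc ∨ i = cc⁻¹ ∨ i = 1 := by decide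
        have A : ∀ γ : G, ∃ j, EE e w j = (γ, cc, 1) := by
          intro γ
          by_cases hγ : γ = 1
          · subst hγ; exact ⟨.inr true, rfl⟩
          · exact ⟨.inl (⟨(γ, cc), Or.inl ⟨rfl, hγ⟩⟩, 0), rfl⟩
        rcases c7 i with rfl | rfl | rfl
        · exact absurd (A γ) h2
        · obtain ⟨j, hj⟩ := A γ⁻¹
          exact absurd ⟨ss j, by rw [hs, hj]; simp⟩ h2
        · rcases lt_trichotomy (e γ) (e γ⁻¹) with h | h | h
          · exact absurd ⟨.inl (⟨(γ, 1), Or.inr ⟨rfl, h⟩⟩, 0), rfl⟩ h2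
          · have := he h
            simp [← this]
          · refine absurd ⟨ss (.inl (⟨(γ⁻¹, 1), Or.inr ⟨rfl, by simpa using h⟩⟩, 0)), ?_⟩ h2
            rw [hs, (EE_val e w _).1]; simp
      · right
        intro y
        simp only [Prod.snd_mul, Pi.mul_apply, hidx x hx]
        rcases Int.units_eq_one_or (y.2.2 (idx x)) with h | h <;> simp [h])
    (by
      simp only [Fintype.card_prod, cW, Fintype.card_multiplicative, ZMod.card, pow_succ]
      have : Fintype.card G * (3 * (2 ^ k * 2)) = 6 * (Fintype.card G * 2 ^ k) := by ring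
      omega)
    (by
      simp only [Fintype.card_sum, Fintype.card_prod, Fintype.card_fin, Fintype.card_bool]
      omega)
  refine ⟨V, i1, i2, B, b1, b2, b3.trans ?_, b4⟩
  simp only [Fintype.card_prod, cW, Fintype.card_multiplicative, ZMod.card, pow_succ]
  nlinarith

end Conc

end Pool.Agent.H5.StsAct
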