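import Pool.Agent.H5.StsAct2

set_option autoImplicit false
set_option linter.unusedSectionVars false

namespace Pool.Agent.H5.StsAct

open Finset

def IsAut {V : Type} (op : V → V → V) (σ : Equiv.Perm V) : Prop :=
  ∀ x y, σ (op x y) = op (σ x) (σ y)

def Clo {V : Type} (op : V → V → V) (S : Finset V) : Prop := ∀ x ∈ S, ∀ y ∈ S, op x y ∈ S

theorem IsAut.inv {V : Type} {op : V → V → V} {σ : Equiv.Perm V} (h : IsAut op σ) :
    IsAut op σ⁻¹ := by
  intro x y
  apply σ.injective
  rw [h]; simp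

theorem IsAut.mul {V : Type} {op : V → V → V} {σ ρ : Equiv.Perm V} (h : IsAut op σ)
    (h' : IsAut op ρ) : IsAut op (σ * ρ) := by
  intro x y
  simp only [Equiv.Perm.mul_apply, h' x y, h _ _]

theorem clo_fix {V : Type} [Fintype V] [DecidableEq V] {op : V → V → V} {σ : Equiv.Perm V}
    (h : IsAut op σ) : Clo op (univ.filter fun x => σ x = x) := by
  intro x hx y hy
  simp only [mem_filter, mem_univ, true_and] at *
  rw [h, hx, hy]

theorem dbl {V : Type} [DecidableEq V] {op : V → V → V} (h : IsSQ op) {S S' : Finset V}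
    (hS : Clo op S) (hS' : Clo op S') (hs : S ⊆ S') {x : V} (hx : x ∈ S') (hx' : x ∉ S) :
    2 * S.card + 1 ≤ S'.card := by
  have inj : Function.Injective (op x) := fun a b e => by rw [← h.canc x a, e, h.canc]
  have d1 : Disjoint S (S.image (op x)) := by
    rw [disjoint_left]
    intro a ha hb
    obtain ⟨b, hb', rfl⟩ := mem_image.1 hb
    have := hS _ hb' _ ha
    rw [h.comm x b, h.canc] at this
    exact hx' this
  have d2 : x ∉ S ∪ S.image (op x) := by
    simp only [mem_union, mem_image, not_or, not_exists, not_and]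
    refine ⟨hx', fun b hb e => hx' ?_⟩
    have : b = x := inj (e.trans (h.idem x).symm)
    exact this ▸ hb
  have : insert x (S ∪ S.image (op x)) ⊆ S' := by
    intro a ha
    simp only [mem_insert, mem_union, mem_image] at ha
    rcases ha with rfl | ha | ⟨b, hb, rfl⟩
    exacts [hx, hs ha, hS' _ hx _ (hs hb)]
  have := card_le_card this
  rw [card_insert_of_notMem d2, card_union_of_disjoint d1, card_image_of_injective _ inj] at this
  omega

section Bose
variable {M : ℕ} [NeZero M] (hf : ZMod M) (h2 : 2 * hf = 1) (hM : 7 ≤ M)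
include h2 hM

theorem two_ne : (2 : ZMod M) ≠ 0 := by
  intro h
  rw [h, zero_mul] at h2
  haveI : Fact (1 < M) := ⟨by omega⟩
  exact zero_ne_one h2

omit h2 hM in
theorem bose_mid {S : Finset (ZMod M × ZMod 3)} (hS : Clo (bose hf) S) {x y : ZMod M} {i : ZMod 3}
    (hx : (x, i) ∈ S) (hy : (y, i) ∈ S) (hxy : x ≠ y) : (hf * (x + y), i + 1) ∈ S := by
  simpa [bose, hxy] using hS _ hx _ hy

omit h2 hM in
theorem bose_ref {S : Finset (ZMod M × ZMod 3)} (hS : Clo (bose hf) S) {x z : ZMod M} {i : ZMod 3}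
    (hx : (x, i) ∈ S) (hz : (z, i + 1) ∈ S) : (2 * z - x, i) ∈ S := by
  by_cases h : x = z
  · subst h; rw [show 2 * x - x = x by ring]; exact hx
  · simpa [bose, h] using hS _ hx _ hz

theorem bose_full {S : Finset (ZMod M × ZMod 3)} (hS : Clo (bose hf) S) {i : ZMod 3}
    (h : ∀ x, (x, i) ∈ S) : S = univ := by
  have step : ∀ i, (∀ x, (x, i) ∈ S) → ∀ x, (x, i + 1) ∈ S := by
    intro i h x
    have := bose_mid hf hS (h (x - 1)) (h (x + 1))
      (fun e => two_ne hf h2 hM (by linear_combination -e))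
    rwa [show hf * (x - 1 + (x + 1)) = x by linear_combination x * h2] at this
  have h1 := step _ h
  have h3 := step _ h1
  rw [eq_univ_iff_forall]
  rintro ⟨x, j⟩
  have : ∀ i j : ZMod 3, j = i ∨ j = i + 1 ∨ j = i + 1 + 1 := by decide
  rcases this i j with rfl | rfl | rfl
  exacts [h x, h1 x, h3 x]

theorem bose_gen {S : Finset (ZMod M × ZMod 3)} (hS : Clo (bose hf) S) (a : (0, 0) ∈ S)
    (b : (0, 1) ∈ S) (c : (1, 0) ∈ S) (d : (1, 1) ∈ S) : S = univ := by
  have l : ∀ x : ZMod M, (x, 0) ∈ S → (x, 1) ∈ S → ∀ i, (x, i) ∈ S := by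
    intro x a b i
    have c : (x, -1) ∈ S := by simpa [bose] using hS _ a _ b
    have : ∀ j : ZMod 3, j = 0 ∨ j = 1 ∨ j = -1 := by decide
    rcases this i with rfl | rfl | rfl <;> assumption
  have : ∀ n : ℕ, ∀ i, ((n : ZMod M), i) ∈ S ∧ ((n : ZMod M) + 1, i) ∈ S := by
    intro n
    induction n with
    | zero => intro i; simpa using ⟨l 0 a b i, l 1 c d i⟩
    | succ n ih =>
      intro i
      push_cast
      refine ⟨(ih i).2, ?_⟩
      have := bose_ref hf hS (ih i).1 (ih (i + 1)).2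
      rwa [show 2 * ((n : ZMod M) + 1) - n = n + 1 + 1 by ring] at this
  refine bose_full hf h2 hM hS (i := 0) fun x => ?_
  simpa using (this x.val 0).1

theorem bose_sub (hodd : M % 2 = 1) {S : Finset (ZMod M × ZMod 3)} (hS : Clo (bose hf) S) :
    S = univ ∨ S.card ≤ M := by
  by_contra hc
  rw [not_or, not_le] at hc
  obtain ⟨i, hi⟩ : ∃ i : ZMod 3, M < 3 * (univ.filter fun x => (x, i + 1) ∈ S).card := by
    by_contra hn
    push Not at hn
    have e : S.card = ∑ i : ZMod 3, (univ.filter fun x => (x, i + 1) ∈ S).card := by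
      rw [card_eq_sum_card_fiberwise (f := fun p => p.2 - 1) (t := univ) (by simp)]
      refine sum_congr rfl fun i _ => ?_
      refine card_bij (fun p _ => p.1) ?_ ?_ ?_
      · rintro ⟨x, j⟩ h
        simp only [mem_filter, mem_univ, true_and] at h ⊢
        rw [← h.2]; simpa using h.1
      · rintro ⟨x, j⟩ h ⟨y, k⟩ h' e
        simp only [mem_filter] at h h'
        exact Prod.ext e (by linear_combination h.2 - h'.2)
      · intro x h
        exact ⟨(x, i + 1), by simpa using h, rfl⟩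
    have : 3 * S.card ≤ ∑ _i : ZMod 3, M := by
      rw [e, mul_sum]; exact sum_le_sum fun i _ => hn i
    simp at this
    omega
  set L := univ.filter fun x => (x, i + 1) ∈ S with hL
  have mL : ∀ x, x ∈ L ↔ (x, i + 1) ∈ S := by simp [hL]
  obtain ⟨z1, m1, z2, m2, z3, m3, n12, n13, n23⟩ := two_lt_card.1 (show 2 < L.card by omega)
  rw [mL] at m1 m2 m3
  let D : AddSubgroup (ZMod M) :=
    { carrier := {t | ∀ x, (x, i) ∈ S ↔ (x + t, i) ∈ S}
      zero_mem' := by simp
      add_mem' := fun {a b} ha hb x => by rw [ha x, hb, add_assoc]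
      neg_mem' := fun {a} ha x => by rw [ha (x + -a)]; simp }
  have mD : ∀ z ∈ L, 2 * (z - z1) ∈ D := by
    intro z hz x
    rw [mL] at hz
    constructor
    · intro h
      have := bose_ref hf hS (bose_ref hf hS h m1) hz
      rwa [show 2 * z - (2 * z1 - x) = x + 2 * (z - z1) by ring] at this
    · intro h
      have := bose_ref hf hS (bose_ref hf hS h hz) m1
      rwa [show 2 * z1 - (2 * z - (x + 2 * (z - z1))) = x by ring] at this
  have c1 : L.card ≤ Nat.card D := by
    rw [← Fintype.card_coe, ← Nat.card_eq_fintype_card]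
    refine Nat.card_le_card_of_injective (fun z => ⟨_, mD z.1 z.2⟩) fun a b e => Subtype.ext ?_
    have : 2 * (a.1 - z1) = 2 * (b.1 - z1) := congrArg Subtype.val e
    linear_combination hf * this - (a.1 - b.1) * h2
  have c2 := D.card_mul_index
  rw [Nat.card_zmod] at c2
  have c3 : D.index = 1 := by
    have : D.index < 3 := by
      by_contra h
      have := Nat.mul_le_mul c1 (not_lt.1 h)
      omega
    have : D.index = 0 ∨ D.index = 1 ∨ D.index = 2 := by omega
    rcases this with h | h | h <;> rw [h] at c2 <;> omega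
  rw [AddSubgroup.index_eq_one] at c3
  have p := bose_mid hf hS (bose_mid hf hS m1 m2 n12) (bose_mid hf hS m1 m3 n13)
    (fun e => n23 (by linear_combination 2 * e - (z2 - z3) * h2))
  have e3 : i + 1 + 1 + 1 = i := by
    have : ∀ i : ZMod 3, i + 1 + 1 + 1 = i := by decide
    exact this i
  rw [e3] at p
  refine hc.1 (bose_full hf h2 hM hS (i := i) fun x => ?_)
  have : x - hf * (hf * (z1 + z2) + hf * (z1 + z3)) ∈ D := by rw [c3]; trivial
  simpa using (this _).1 p

end Bose

theorem exists_q (R : Type) [Fintype R] [DecidableEq R] (m : ℕ) (h : Fintype.card R = 3 * m)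
    (hm : 7 ≤ m) (hodd : m % 2 = 1) :
    ∃ q : R → R → R, IsSQ q ∧ (∀ S, Clo q S → S = univ ∨ S.card ≤ m) ∧
      ∃ g : Fin 4 → R, ∀ S, Clo q S → (∀ i, g i ∈ S) → S = univ := by
  haveI : NeZero m := ⟨by omega⟩
  have e : R ≃ ZMod m × ZMod 3 := Fintype.equivOfCardEq (by simp [h, mul_comm])
  have h2 : (2 : ZMod m) * ((m / 2 + 1 : ℕ) : ZMod m) = 1 := by
    have a : ((m : ℕ) : ZMod m) = 0 := ZMod.natCast_self _
    have b : 2 * (m / 2 + 1) = m + 1 := by omega
    have : ((2 * (m / 2 + 1) : ℕ) : ZMod m) = ((m + 1 : ℕ) : ZMod m) := by rw [b]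
    rw [Nat.cast_mul, Nat.cast_add m, a] at this
    simpa using this
  generalize ((m / 2 + 1 : ℕ) : ZMod m) = hf at h2
  have b := bose_sq _ h2
  have cl : ∀ S, Clo (fun x y => e.symm (bose hf (e x) (e y))) S →
      Clo (bose hf) (S.map e.toEmbedding) := by
    intro S hS x hx y hy
    simp only [mem_map_equiv] at *
    simpa using hS _ hx _ hy
  have un : ∀ S : Finset R, S.map e.toEmbedding = univ → S = univ := by
    intro S hS
    rw [eq_univ_iff_forall] at hS ⊢
    intro x; simpa using hS (e x)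
  refine ⟨fun x y => e.symm (bose hf (e x) (e y)), ⟨?_, ?_, ?_⟩, fun S hS => ?_,
    ![e.symm (0, 0), e.symm (0, 1), e.symm (1, 0), e.symm (1, 1)], fun S hS hg => ?_⟩
  · intro x; rw [b.idem]; simp
  · intro x y; rw [b.comm]
  · intro x y; rw [e.apply_symm_apply, b.canc]; simp
  · exact (bose_sub hf h2 hm hodd (cl S hS)).imp (un S) (by simp)
  · exact un S (bose_gen hf h2 hm (cl S hS) (by simpa using hg 0) (by simpa using hg 1)
      (by simpa using hg 2) (by simpa using hg 3))

theorem det_set {R : Type} [Fintype R] [DecidableEq R] (m : ℕ) (h : Fintype.card R = 3 * m)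
    (α : Equiv.Perm R) (hα : (univ.filter fun x => α x = x).card ≤ m) :
    ∃ D : Finset R, D.card ≤ 2 * m ∧ ∀ ρ ρ' : Equiv.Perm R, ρ * α * ρ⁻¹ = ρ' * α * ρ'⁻¹ →
      (∀ x ∈ D, ρ x = ρ' x) → ρ = ρ' := by
  let e : R → ℕ := fun x => (Fintype.equivFin R x).val
  have he : Function.Injective e := fun a b h => (Fintype.equivFin R).injective (Fin.ext h)
  have key : ∀ α ρ ρ' : Equiv.Perm R, ρ * α * ρ⁻¹ = ρ' * α * ρ'⁻¹ →
      (∀ x ∈ univ.filter (fun x => ¬ e (α x) < e x), ρ x = ρ' x) → ρ = ρ' := by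
    intro α ρ ρ' h1 h2
    have : ∀ n x, e x = n → ρ x = ρ' x := by
      intro n
      induction n using Nat.strong_induction_on with
      | _ n ih =>
        rintro x rfl
        by_cases hx : e (α x) < e x
        · have a := ih _ hx _ rfl
          apply (ρ * α * ρ⁻¹).injective
          nth_rewrite 2 [h1]
          simpa using a
        · exact h2 x (by simpa using hx)
    ext x; exact this _ x rfl
  have c1 := card_filter_add_card_filter_not (s := univ) (fun x => e (α x) < e x)
  have c2 := card_filter_add_card_filter_not (s := univ) (fun x => e (α⁻¹ x) < e x)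
  have c3 : (univ.filter fun x => ¬ e (α x) < e x).card ≤
      (univ.filter fun x => α x = x).card + (univ.filter fun x => e (α⁻¹ x) < e x).card := by
    have : (univ.filter fun x => e (α⁻¹ x) < e x).card = (univ.filter fun x => e x < e (α x)).card := by
      refine card_bij (fun x _ => α⁻¹ x) (by simp) (by simp) fun x hx => ⟨α x, by simpa using hx, by simp⟩
    rw [this]
    refine le_trans (card_le_card fun x hx => ?_) (card_union_le _ _)
    simp only [mem_filter, mem_univ, true_and, mem_union] at hx ⊢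
    by_cases h : α x = x
    · exact Or.inl h
    · have := he.ne h; right; omega
  rw [card_univ, h] at c1 c2
  by_cases hc : (univ.filter fun x => ¬ e (α x) < e x).card ≤ 2 * m
  · exact ⟨_, hc, key α⟩
  · refine ⟨_, by omega, fun ρ ρ' h1 => key α⁻¹ ρ ρ' ?_⟩
    simpa [mul_assoc] using congrArg (·⁻¹) h1

theorem avoid {R : Type} [Fintype R] [DecidableEq R] (m : ℕ) (h : Fintype.card R = 3 * m)
    (hm : 0 < m) (A B : Finset (Equiv.Perm R))
    (hA : ∀ α ∈ A, (univ.filter fun x => α x = x).card ≤ m)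
    (hn : A.card * B.card * (3 * m) ^ (2 * m) < (3 * m).factorial) :
    ∃ ρ : Equiv.Perm R, ∀ α ∈ A, ρ * α * ρ⁻¹ ∉ B := by
  by_contra hc
  push Not at hc
  have s : (univ : Finset (Equiv.Perm R)) ⊆
      (A ×ˢ B).biUnion fun p => univ.filter fun ρ => ρ * p.1 * ρ⁻¹ = p.2 := by
    intro ρ _
    obtain ⟨α, h1, h2⟩ := hc ρ
    simp only [mem_biUnion, mem_product, mem_filter, mem_univ, true_and]
    exact ⟨(α, _), ⟨h1, h2⟩, rfl⟩
  have := (card_le_card s).trans (card_biUnion_le_card_mul _ _ ((3 * m) ^ (2 * m)) ?_)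
  · rw [card_univ, Fintype.card_perm, h, card_product] at this
    omega
  · rintro ⟨α, β⟩ hp
    obtain ⟨D, d1, d2⟩ := det_set m h α (hA α (mem_product.1 hp).1)
    refine le_trans (card_le_card_of_injOn (t := (univ : Finset (D → R))) (fun ρ x => ρ x.1)
      (by simp) ?_) ?_
    · intro ρ h1 ρ' h2 e
      simp only [coe_filter, mem_univ, true_and, Set.mem_setOf_eq] at h1 h2
      exact d2 ρ ρ' (h1.trans h2.symm) fun x hx => congrFun e ⟨x, hx⟩
    · rw [card_univ, Fintype.card_fun, h, Fintype.card_coe]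
      exact Nat.pow_le_pow_right (by omega) d1

theorem numer (m c N : ℕ) (hm : 81 < m) (hc : 4 * (c + 4) ≤ m) (hN : N ≤ 4 * m) :
    (3 * m) ^ 4 * N ^ c * (3 * m) ^ (2 * m) < (3 * m).factorial := by
  have f1 : m ^ (3 * m) ≤ (3 * m).factorial := by
    have a := Real.pow_div_factorial_le_exp (x := ((3 * m : ℕ) : ℝ)) (by positivity) (3 * m)
    rw [div_le_iff₀ (by positivity), ← Real.exp_one_pow] at a
    have b : Real.exp 1 ^ (3 * m) ≤ 3 ^ (3 * m) :=
      pow_le_pow_left₀ (by positivity) (by linarith [Real.exp_one_lt_d9]) _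
    have c : ((3 * m : ℕ) : ℝ) ^ (3 * m) ≤ 3 ^ (3 * m) * (3 * m).factorial :=
      a.trans (mul_le_mul_of_nonneg_right b (by positivity))
    rw [Nat.cast_mul, mul_pow] at c
    exact_mod_cast le_of_mul_le_mul_left c (by positivity)
  refine lt_of_lt_of_le ?_ f1
  have a1 : (3 * m) ^ 4 * N ^ c ≤ m ^ (2 * (c + 4)) := by
    have : 4 * m ≤ m ^ 2 := by nlinarith
    rw [pow_mul, pow_add, mul_comm]
    exact Nat.mul_le_mul (Nat.pow_le_pow_left (by omega) _) (Nat.pow_le_pow_left (by omega) _)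
  have a2 : m ^ (2 * (c + 4)) * 3 ^ (2 * m) < m ^ m := by
    apply lt_of_pow_lt_pow_left₀ 2 (by positivity)
    have e1 : (m ^ (2 * (c + 4)) * 3 ^ (2 * m)) ^ 2 = m ^ (4 * (c + 4)) * 81 ^ m := by
      rw [mul_pow, ← pow_mul, ← pow_mul, show (81 : ℕ) = 3 ^ 4 by norm_num, ← pow_mul]
      congr 2 <;> ring
    rw [e1, pow_two]
    exact Nat.mul_lt_mul_of_le_of_lt (Nat.pow_le_pow_right (by omega) hc)
      (Nat.pow_lt_pow_left hm (by omega)) (by positivity)
  calc (3 * m) ^ 4 * N ^ c * (3 * m) ^ (2 * m)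
      ≤ m ^ (2 * (c + 4)) * (3 * m) ^ (2 * m) := Nat.mul_le_mul_right _ a1
    _ = m ^ (2 * (c + 4)) * 3 ^ (2 * m) * m ^ (2 * m) := by rw [mul_pow]; ring
    _ < m ^ m * m ^ (2 * m) := Nat.mul_lt_mul_of_pos_right a2 (by positivity)
    _ = m ^ (3 * m) := by ring

end Pool.Agent.H5.StsAct
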