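import Pool.Agent.H5.StsRig1

set_option autoImplicit false
set_option linter.unusedSectionVars false

namespace Pool.Agent.H5.StsAct

open Finset

structure Dat (H : Type) [Group H] where
  T : H → Prop
  τ : H → H
  dl : H → H → H
  hT1 : ¬ T 1
  hTi : ∀ d, T d → T d⁻¹
  hτ1 : ∀ d, T d → T (τ d)
  hτ2 : ∀ d, T d → τ (τ d) = d
  hτ3 : ∀ d, T d → τ d = d * τ d⁻¹
  hd1 : ∀ y r, r ≠ 1 → ¬ T r → dl y r ≠ 1 ∧ ¬ T (dl y r)
  hd2 : ∀ y r, r ≠ 1 → ¬ T r → dl y (dl y r) = r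
  hd3 : ∀ y r, r ≠ 1 → ¬ T r → dl (y * dl y r) r = (dl y r)⁻¹

variable {H : Type} [Group H] (P : Dat H)

open Classical in
noncomputable def oo (y z : H) : Rr P.T ⊕ H :=
  if h1 : y⁻¹ * z = 1 then .inr y
  else if h2 : P.T (y⁻¹ * z) then .inr (y * P.τ (y⁻¹ * z))
  else .inl ⟨P.dl y (y⁻¹ * z), P.hd1 y _ h1 h2⟩

noncomputable def opD (q : Rr P.T → Rr P.T → Rr P.T) : Rr P.T ⊕ H → Rr P.T ⊕ H → Rr P.T ⊕ H
  | .inl a, .inl b => .inl (q a b)
  | .inl a, .inr y => .inr (y * P.dl y a.1)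
  | .inr y, .inl a => .inr (y * P.dl y a.1)
  | .inr y, .inr z => oo P y z

theorem oo1 (y : H) : oo P y y = .inr y := by simp [oo]
theorem oo2 (y : H) {d : H} (h2 : P.T d) : oo P y (y * d) = .inr (y * P.τ d) := by
  have h1 : d ≠ 1 := fun h => P.hT1 (h ▸ h2)
  simp [oo, h1, h2]
theorem oo3 (y : H) {d : H} (h1 : d ≠ 1) (h2 : ¬ P.T d) :
    oo P y (y * d) = .inl ⟨P.dl y d, P.hd1 y d h1 h2⟩ := by
  simp [oo, h1, h2]
theorem oo4 (y : H) (a : Rr P.T) : oo P y (y * P.dl y a.1) = .inl a := by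
  have := P.hd1 y a.1 a.2.1 a.2.2
  rw [oo3 P y this.1 this.2]
  congr 1
  exact Subtype.ext (P.hd2 y a.1 a.2.1 a.2.2)

theorem opD_sq (q : Rr P.T → Rr P.T → Rr P.T) (hq : IsSQ q) : IsSQ (opD P q) := by
  refine ⟨?_, ?_, ?_⟩
  · rintro (a | y)
    · simp [opD, hq.idem]
    · exact oo1 P y
  · rintro (a | y) (b | z)
    · simp [opD, hq.comm a b]
    · rfl
    · rfl
    · obtain ⟨d, rfl⟩ : ∃ d, z = y * d := ⟨y⁻¹ * z, by group⟩
      show oo P y (y * d) = oo P (y * d) y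
      by_cases h1 : d = 1
      · subst h1; simp
      have e : oo P (y * d) y = oo P (y * d) (y * d * d⁻¹) := by simp
      by_cases h2 : P.T d
      · rw [e, oo2 P _ h2, oo2 P _ (P.hTi d h2), P.hτ3 d h2, mul_assoc]
      · have a := P.hd1 y d h1 h2
        have b := P.hd3 y _ a.1 a.2
        rw [P.hd2 y d h1 h2] at b
        rw [e, oo3 P _ h1 h2, ← b]
        exact (oo4 P (y * d) ⟨_, a⟩).symm
  · rintro (a | y) (b | z)
    · simp [opD, hq.canc]
    · simp [opD, P.hd3 z a.1 a.2.1 a.2.2]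
    · exact oo4 P y b
    · obtain ⟨d, rfl⟩ : ∃ d, z = y * d := ⟨y⁻¹ * z, by group⟩
      show opD P q (.inr y) (oo P y (y * d)) = _
      by_cases h1 : d = 1
      · subst h1; simp [oo1, opD]
      by_cases h2 : P.T d
      · rw [oo2 P _ h2]
        show oo P _ _ = _
        rw [oo2 P _ (P.hτ1 d h2), P.hτ2 d h2]
      · rw [oo3 P _ h1 h2]
        simp [opD, P.hd2 y d h1 h2]

theorem act_aut {G : Type} [Group G] (f : G →* H) (q : Rr P.T → Rr P.T → Rr P.T)
    (hc : ∀ g r y, P.dl (f g * y) r = P.dl y r) (g : G) : IsAut (opD P q) (act P.T f g) := by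
  have a1 : ∀ a, act P.T f g (.inl a) = .inl a := fun a => rfl
  have a2 : ∀ y, act P.T f g (.inr y) = .inr (f g * y) := fun a => rfl
  rintro (a | y) (b | z)
  · rfl
  · simp only [opD, a1, a2, hc, mul_assoc]
  · simp only [opD, a1, a2, hc, mul_assoc]
  · obtain ⟨d, rfl⟩ : ∃ d, z = y * d := ⟨y⁻¹ * z, by group⟩
    simp only [opD, a2, ← mul_assoc]
    by_cases h1 : d = 1
    · subst h1; simp [oo1, a2]
    by_cases h2 : P.T d
    · rw [oo2 P _ h2, oo2 P _ h2, a2, mul_assoc]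
    · rw [oo3 P _ h1 h2, oo3 P _ h1 h2, a1]; simp [hc]

variable [Fintype H]

open Classical in
theorem keep (q : Rr P.T → Rr P.T → Rr P.T) (m : ℕ) (hm : Fintype.card (Rr P.T) = 3 * m)
    (hq : ∀ S, Clo q S → S = univ ∨ S.card ≤ m) (ht : (univ.filter P.T).card + 1 < m)
    (σ : Equiv.Perm (Rr P.T ⊕ H)) (hσ : IsAut (opD P q) σ) (a : Rr P.T) :
    ∃ b, σ (.inl a) = .inl b := by
  have hs := hσ.inv
  generalize hρ : σ⁻¹ = ρ at hs
  obtain rfl : σ = ρ⁻¹ := by rw [← hρ]; simp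
  clear hρ hσ
  have cl : ∀ x y, (∃ a, ρ⁻¹ x = .inl a) → (∃ a, ρ⁻¹ y = .inl a) →
      ∃ a, ρ⁻¹ (opD P q x y) = .inl a := by
    rintro x y ⟨a, ha⟩ ⟨b, hb⟩
    exact ⟨q a b, by rw [hs.inv, ha, hb]; rfl⟩
  set S := univ.filter fun a : Rr P.T => ∃ b, ρ⁻¹ (.inl a) = .inl b with hS
  set Y := univ.filter fun y : H => ∃ b, ρ⁻¹ (.inr y) = .inl b with hY
  have mS : ∀ a, a ∈ S ↔ ∃ b, ρ⁻¹ (.inl a) = .inl b := by simp [hS]
  have mY : ∀ a, a ∈ Y ↔ ∃ b, ρ⁻¹ (.inr a) = .inl b := by simp [hY]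
  rcases hq S (fun x hx y hy => (mS _).2 (cl _ _ ((mS _).1 hx) ((mS _).1 hy))) with h | h
  · exact (mS a).1 (h ▸ mem_univ a)
  exfalso
  have c1 : 3 * m ≤ S.card + Y.card := by
    rw [← hm, ← card_disjSum, ← card_univ]
    refine card_le_card_of_injOn (fun b => ρ (.inl b)) (fun b _ => ?_)
      (fun a _ b _ e => by simpa using e)
    have : ∃ c, ρ⁻¹ (ρ (.inl b)) = .inl c := ⟨b, by simp⟩
    show ρ (.inl b) ∈ S.disjSum Y
    generalize ρ (.inl b) = x at this
    rcases x with x | x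
    · simpa [mS] using this
    · simpa [mY] using this
  obtain ⟨y, hy⟩ : Y.Nonempty := card_pos.1 (by omega)
  have s : Y ⊆ (insert 1 (univ.filter P.T ∪ S.image fun a => P.dl y a.1)).image (y * ·) := by
    intro z hz
    obtain ⟨d, rfl⟩ : ∃ d, z = y * d := ⟨y⁻¹ * z, by group⟩
    refine mem_image_of_mem _ ?_
    simp only [mem_insert, mem_union, mem_filter, mem_univ, true_and, mem_image]
    by_cases h1 : d = 1
    · exact Or.inl h1
    by_cases h2 : P.T d
    · exact Or.inr (Or.inl h2)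
    have := cl _ _ ((mY _).1 hy) ((mY _).1 hz)
    rw [opD, oo3 P y h1 h2] at this
    exact Or.inr (Or.inr ⟨_, (mS _).2 this, P.hd2 y d h1 h2⟩)
  have c2 := (card_le_card s).trans (card_image_le.trans ((card_insert_le _ _).trans
    (Nat.add_le_add_right ((card_union_le _ _).trans (Nat.add_le_add_left card_image_le _)) 1)))
  omega

open Classical in
theorem split (q : Rr P.T → Rr P.T → Rr P.T) (m : ℕ) (hm : Fintype.card (Rr P.T) = 3 * m)
    (hq : ∀ S, Clo q S → S = univ ∨ S.card ≤ m) (ht : (univ.filter P.T).card + 1 < m)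
    (σ : Equiv.Perm (Rr P.T ⊕ H)) (hσ : IsAut (opD P q) σ) :
    ∃ (π : Equiv.Perm (Rr P.T)) (s : H → H), (∀ a, σ (.inl a) = .inl (π a)) ∧
      ∀ y, σ (.inr y) = .inr (s y) := by
  choose p hp using keep P q m hm hq ht σ hσ
  have ip : Function.Injective p := fun a b e => by
    have : σ (.inl a) = σ (.inl b) := by rw [hp, hp, e]
    simpa using this
  have : ∀ y, ∃ z, σ (.inr y) = .inr z := by
    intro y
    rcases e : σ (.inr y) with a | z
    · obtain ⟨b, hb⟩ := keep P q m hm hq ht σ⁻¹ hσ.inv a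
      rw [← e] at hb
      simp at hb
    · exact ⟨z, rfl⟩
  choose s hs using this
  exact ⟨Equiv.ofBijective p (Finite.injective_iff_bijective.1 ip), s, hp, hs⟩

open Classical in
theorem rigid {G ι : Type} [Group G] [Fintype ι] (f : G →* H)
    (hc : ∀ g r y, P.dl (f g * y) r = P.dl y r) (m : ℕ) (hm : Fintype.card (Rr P.T) = 3 * m)
    (hodd : m % 2 = 1) (ht : (univ.filter P.T).card + 1 < m) (z : ι → H)
    (hz : ∀ r, r ≠ 1 → ¬ P.T r → ∃ i j, z j = z i * P.dl (z i) r)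
    (h3 : ∀ s : H → H, Function.Injective s →
      (∀ y r, r ≠ 1 → ¬ P.T r → s (y * P.dl y r) = s y * P.dl (s y) r) → ∃ g, s 1 = f g)
    (hm1 : 81 < m) (hm2 : 4 * (Fintype.card ι + 4) ≤ m) :
    ∃ op : Rr P.T ⊕ H → Rr P.T ⊕ H → Rr P.T ⊕ H, IsSQ op ∧
      ∀ σ, IsAut op σ ↔ ∃ g, act P.T f g = σ := by
  have hcard : Fintype.card (Rr P.T) + ((univ.filter P.T).card + 1) = Fintype.card H := by
    have e1 : Fintype.card (Rr P.T) = (univ \ insert 1 (univ.filter P.T)).card := by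
      rw [Fintype.card_subtype]
      congr 1
      ext r
      simp
    rw [e1, ← card_insert_of_notMem (by simpa using P.hT1),
      card_sdiff_add_card_eq_card (subset_univ _), card_univ]
  obtain ⟨q, hq, hq1, gn, hq2⟩ := exists_q (Rr P.T) m hm (by omega) hodd
  let A : Finset (Equiv.Perm (Rr P.T)) := univ.filter fun α => α ≠ 1 ∧ IsAut q α
  let B : Finset (Equiv.Perm (Rr P.T)) := univ.filter fun π =>
    ∃ s : H → H, ∀ y w a, oo P y w = .inl a → oo P (s y) (s w) = .inl (π a)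
  have cA : A.card ≤ (3 * m) ^ 4 := by
    refine le_trans (card_le_card_of_injOn (t := (univ : Finset (Fin 4 → Rr P.T)))
      (fun α i => α (gn i)) (by simp) ?_) (by simp [hm])
    intro α h1 β h2 e
    simp only [A, coe_filter, mem_univ, true_and, Set.mem_setOf_eq] at h1 h2
    have := hq2 _ (clo_fix (h2.2.inv.mul h1.2)) fun i => by
      have := congrFun e i
      simp only at this
      exact mem_filter.2 ⟨mem_univ _, by simp [this]⟩
    ext x
    have := (mem_filter.1 (this ▸ mem_univ x)).2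
    rw [Equiv.Perm.mul_apply, Equiv.Perm.inv_eq_iff_eq] at this
    rw [this]
  have cB : B.card ≤ Fintype.card H ^ Fintype.card ι := by
    have : ∀ π : Equiv.Perm (Rr P.T), ∃ s : H → H, π ∈ B →
        ∀ y w a, oo P y w = .inl a → oo P (s y) (s w) = .inl (π a) := by
      intro π
      by_cases h : π ∈ B
      · obtain ⟨s, hs⟩ := (mem_filter.1 h).2
        exact ⟨s, fun _ => hs⟩
      · exact ⟨id, fun h' => absurd h' h⟩
    choose s hs using this
    refine le_trans (card_le_card_of_injOn (t := (univ : Finset (ι → H)))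
      (fun π i => s π (z i)) (by simp) ?_) (by simp)
    intro α h1 β h2 e
    ext a
    obtain ⟨i, j, hij⟩ := hz a.1 a.2.1 a.2.2
    have o : oo P (z i) (z j) = .inl a := by rw [hij, oo4]
    have a1 := hs α h1 _ _ _ o
    have a2 := hs β h2 _ _ _ o
    rw [show s α (z i) = s β (z i) from congrFun e i, show s α (z j) = s β (z j) from congrFun e j,
      a2] at a1
    rw [Sum.inl.inj a1]
  obtain ⟨ρ, hρ⟩ := avoid m hm (by omega) A B (fun α hα => by
      have := (mem_filter.1 hα).2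
      refine (hq1 _ (clo_fix this.2)).resolve_left fun h => this.1 ?_
      ext1 x
      exact (mem_filter.1 (eq_univ_iff_forall.1 h x)).2)
    (lt_of_le_of_lt (Nat.mul_le_mul_right _ (Nat.mul_le_mul cA cB))
      (numer m _ _ hm1 hm2 (by omega)))
  let q' : Rr P.T → Rr P.T → Rr P.T := fun a b => ρ (q (ρ⁻¹ a) (ρ⁻¹ b))
  have sq : IsSQ q' := ⟨fun x => by simp [q', hq.idem], fun x y => by simp only [q', hq.comm (ρ⁻¹ x)],
    fun x y => by simp [q', hq.canc]⟩
  have hq1' : ∀ S, Clo q' S → S = univ ∨ S.card ≤ m := by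
    intro S hS
    refine (hq1 (S.map (ρ⁻¹).toEmbedding) ?_).imp (fun h => ?_) (by simp)
    · intro x hx y hy
      simp only [mem_map_equiv, Equiv.Perm.inv_def, Equiv.symm_symm] at *
      simpa [q'] using hS _ hx _ hy
    · rw [eq_univ_iff_forall] at h ⊢
      intro x; simpa [Equiv.Perm.inv_def] using h (ρ⁻¹ x)
  have sD := opD_sq P q' sq
  refine ⟨opD P q', sD, fun σ => ⟨fun hσ => ?_, ?_⟩⟩
  swap
  · rintro ⟨g, rfl⟩; exact act_aut P f q' hc g
  obtain ⟨π, s, hπ, hs⟩ := split P q' m hm hq1' ht σ hσ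
  have π1 : π = 1 := by
    by_contra hne
    refine hρ (ρ⁻¹ * π * ρ) (mem_filter.2 ⟨mem_univ _, fun h => hne ?_, fun x y => ?_⟩)
      (mem_filter.2 ⟨mem_univ _, s, fun y w a h => ?_⟩)
    · have : π = ρ * (ρ⁻¹ * π * ρ) * ρ⁻¹ := by group
      rw [this, h]; simp
    · have := hσ (.inl (ρ x)) (.inl (ρ y))
      simp only [opD, hπ, Sum.inl.injEq, q', Equiv.Perm.inv_def, Equiv.symm_apply_apply] at this
      simp [this]
    · have := hσ (.inr y) (.inr w)
      simp only [opD, hs, h, hπ] at this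
      rw [← this]; simp
  subst π1
  obtain ⟨g, hg⟩ := h3 s (fun a b e => by
      have : σ (.inr a) = σ (.inr b) := by rw [hs, hs, e]
      simpa using this) (fun y r h1 h2 => by
      have := hσ (.inl ⟨r, h1, h2⟩) (.inr y)
      simpa [opD, hs, hπ] using this)
  refine ⟨g, ?_⟩
  have au := (act_aut P f q' hc g).inv.mul hσ
  have fx : ∀ x, ((act P.T f g)⁻¹ * σ) x = x ↔ σ x = act P.T f g x := fun x => by
    rw [Equiv.Perm.mul_apply, Equiv.Perm.inv_eq_iff_eq]
  have d1 := dbl sD (S := univ.map ⟨Sum.inl, Sum.inl_injective⟩) (by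
      intro x hx y hy
      obtain ⟨a, -, rfl⟩ := mem_map.1 hx
      obtain ⟨b, -, rfl⟩ := mem_map.1 hy
      exact mem_map.2 ⟨q' a b, mem_univ _, rfl⟩) (clo_fix au) (by
      intro x hx
      obtain ⟨a, -, rfl⟩ := mem_map.1 hx
      exact mem_filter.2 ⟨mem_univ _, (fx _).2 (hπ a)⟩) (x := .inr 1)
    (mem_filter.2 ⟨mem_univ _, (fx _).2 (by rw [hs, hg]; simp [act])⟩) (by simp)
  ext1 x
  by_contra hx
  have d2 := dbl sD (clo_fix au) (S' := univ) (fun _ _ _ _ => mem_univ _) (subset_univ _)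
    (mem_univ x) (fun h => hx ((fx _).1 (mem_filter.1 h).2).symm)
  rw [card_map, card_univ] at d1
  rw [card_univ, Fintype.card_sum] at d2
  omega

theorem blocks2 {V : Type} [Fintype V] [DecidableEq V] (op : V → V → V) (h : IsSQ op) :
    ∃ B : Finset (Finset V), (∀ b ∈ B, b.card = 3) ∧
      (∀ x y : V, x ≠ y → ∃! b, b ∈ B ∧ x ∈ b ∧ y ∈ b) ∧
      ∀ σ : Equiv.Perm V, IsAut op σ ↔ ∀ b : Finset V, (b ∈ B ↔ b.map σ.toEmbedding ∈ B) := by
  have ne1 : ∀ x y, x ≠ y → x ≠ op x y := by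
    intro x y hxy he
    apply hxy
    have := h.canc x y
    rw [← he, h.idem] at this
    exact this
  obtain ⟨B, mem⟩ : ∃ B : Finset (Finset V), ∀ b, b ∈ B ↔ ∃ x y, x ≠ y ∧ b = {x, y, op x y} :=
    ⟨univ.filter fun b => ∃ x y, x ≠ y ∧ b = {x, y, op x y}, by simp⟩
  have un : ∀ x y, x ≠ y → ∀ b ∈ B, x ∈ b → y ∈ b → b = {x, y, op x y} := by
    intro x y hxy b hb hx hy
    obtain ⟨u, v, huv, rfl⟩ := (mem _).mp hb
    simp only [mem_insert, mem_singleton] at hx hy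
    have c1 := h.canc u v
    have c2 : op v (op u v) = u := by rw [h.comm u v, h.canc]
    rcases hx with rfl | rfl | rfl <;> rcases hy with rfl | rfl | rfl
    · exact absurd rfl hxy
    · rfl
    · rw [c1]; ext z; simp only [mem_insert, mem_singleton]; tauto
    · rw [h.comm x y]; ext z; simp only [mem_insert, mem_singleton]; tauto
    · exact absurd rfl hxy
    · rw [c2]; ext z; simp only [mem_insert, mem_singleton]; tauto
    · rw [h.comm (op y v) y, c1]; ext z; simp only [mem_insert, mem_singleton]; tauto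
    · rw [h.comm (op u y) y, c2]; ext z; simp only [mem_insert, mem_singleton]; tauto
    · exact absurd rfl hxy
  have fw : ∀ σ : Equiv.Perm V, IsAut op σ → ∀ b ∈ B, b.map σ.toEmbedding ∈ B := by
    intro σ hσ b hb
    obtain ⟨u, v, huv, rfl⟩ := (mem _).mp hb
    exact (mem _).mpr ⟨σ u, σ v, fun e => huv (σ.injective e), by simp [hσ u v]⟩
  refine ⟨B, ?_, fun x y hxy => ⟨{x, y, op x y}, ⟨(mem _).mpr ⟨x, y, hxy, rfl⟩, by simp, by simp⟩,
    fun b hb => un x y hxy b hb.1 hb.2.1 hb.2.2⟩, fun σ => ⟨fun hσ b => ⟨fw σ hσ b, fun hb => ?_⟩,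
    fun hσ x y => ?_⟩⟩
  · intro b hb
    obtain ⟨u, v, huv, rfl⟩ := (mem _).mp hb
    refine card_eq_three.mpr ⟨u, v, op u v, huv, ne1 u v huv, ?_, rfl⟩
    rw [h.comm u v]; exact ne1 v u huv.symm
  · have := fw _ hσ.inv _ hb
    rw [map_map] at this
    convert this
    ext x; simp
  · by_cases hxy : x = y
    · rw [hxy, h.idem, h.idem]
    have := un (σ x) (σ y) (fun e => hxy (σ.injective e)) _
      ((hσ _).1 ((mem _).2 ⟨x, y, hxy, rfl⟩)) (by simp) (by simp)
    have m : σ (op x y) ∈ ({σ x, σ y, op (σ x) (σ y)} : Finset V) := by rw [← this]; simp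
    simp only [mem_insert, mem_singleton, EmbeddingLike.apply_eq_iff_eq] at m
    rcases m with m | m | m
    · exact absurd m.symm (ne1 x y hxy)
    · rw [h.comm] at m; exact absurd m.symm (ne1 y x (Ne.symm hxy))
    · exact m

end Pool.Agent.H5.StsAct
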