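import Pool.Agent.H5.StsRig2

set_option autoImplicit false
set_option linter.unusedSectionVars false

namespace Pool.Agent.H5.StsAct

open Finset

abbrev A3 : Type := ℤˣ × ℤˣ × ℤˣ
abbrev UU (k : ℕ) : Type := Fin k → ℤˣ
abbrev WW (k : ℕ) : Type := A3 × UU k × UU k

variable {G : Type} [Group G] [Fintype G] {k : ℕ}

theorem ainv (x : A3) : x⁻¹ = x := by revert x; decide
theorem wwinv (x : WW k) : x⁻¹ = x := by
  obtain ⟨a, u, v⟩ := x
  simp [ainv, winv]
theorem wwmul (x : WW k) : x * x = 1 := by nth_rewrite 1 [← wwinv x]; simp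

def jj : (G × C3 × UU k) →* (G × C3 × WW k) where
  toFun p := (p.1, p.2.1, 1, p.2.2, 1)
  map_one' := rfl
  map_mul' a b := by simp

theorem jj_inj : Function.Injective (jj : (G × C3 × UU k) →* (G × C3 × WW k)) := by
  rintro ⟨a, b, c⟩ ⟨d, e, f⟩ h
  simpa [jj] using h

def pr : WW k →* ℤˣ := (MonoidHom.fst _ _).comp (MonoidHom.fst _ _)

theorem exists_chi (x : WW k) : ∃ χ : WW k →* ℤˣ, (x ≠ 1 → χ x = -1) ∧ (x.1.1 = -1 → χ = pr) := by
  obtain ⟨⟨a, b, c⟩, u, v⟩ := x
  by_cases ha : a = -1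
  · exact ⟨pr, fun _ => ha, fun _ => rfl⟩
  have ha' := (Int.units_eq_one_or a).resolve_right ha
  by_cases hb : b = -1
  · exact ⟨(MonoidHom.fst _ _).comp ((MonoidHom.snd _ _).comp (MonoidHom.fst _ _)), fun _ => hb,
      fun h => absurd h ha⟩
  have hb' := (Int.units_eq_one_or b).resolve_right hb
  by_cases hc : c = -1
  · exact ⟨(MonoidHom.snd _ _).comp ((MonoidHom.snd _ _).comp (MonoidHom.fst _ _)), fun _ => hc,
      fun h => absurd h ha⟩
  have hc' := (Int.units_eq_one_or c).resolve_right hc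
  by_cases hu : u = 1
  · by_cases hv : v = 1
    · exact ⟨1, fun h => absurd (by simp [ha', hb', hc', hu, hv, Prod.ext_iff]) h, fun h => absurd h ha⟩
    · obtain ⟨i, hi⟩ := Function.ne_iff.mp hv
      exact ⟨(Pi.evalMonoidHom _ i).comp ((MonoidHom.snd _ _).comp (MonoidHom.snd _ _)),
        fun _ => (Int.units_eq_one_or (v i)).resolve_left hi, fun h => absurd h ha⟩
  · obtain ⟨i, hi⟩ := Function.ne_iff.mp hu
    exact ⟨(Pi.evalMonoidHom _ i).comp ((MonoidHom.fst _ _).comp (MonoidHom.snd _ _)),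
      fun _ => (Int.units_eq_one_or (u i)).resolve_left hi, fun h => absurd h ha⟩

noncomputable def chi (x : WW k) : WW k →* ℤˣ := (exists_chi x).choose
theorem chi1 {x : WW k} (h : x ≠ 1) : chi x x = -1 := (exists_chi x).choose_spec.1 h
theorem chi2 {x : WW k} (h : x.1.1 = -1) : chi x = pr := (exists_chi x).choose_spec.2 h

def wa (a : A3) : WW k := (a, 1, 1)
theorem wa_inj {a b : A3} : (wa a : WW k) = wa b ↔ a = b := by simp [wa]
theorem wa_one {a : A3} : (wa a : WW k) = 1 ↔ a = 1 := by simp [wa, Prod.ext_iff]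
theorem wa_mul (a b : A3) : (wa a : WW k) * wa b = wa (a * b) := by simp [wa]
def x0 : A3 := (-1, 1, 1)
def x1 : A3 := (-1, -1, 1)
def x2 : A3 := (-1, 1, -1)
def xa : A3 := (1, -1, 1)
def xb : A3 := (1, 1, -1)

def cl (x y : WW k) : Prop := chi x y = 1 ↔ ¬ ((x = wa x1 ∨ x = wa x2) ∧ (y = 1 ∨ y = x))

theorem cl_flip {x : WW k} (h : x ≠ 1) (y : WW k) : cl x (y * x) ↔ ¬ cl x y := by
  have e1 : y * x = 1 ↔ y = x := by rw [mul_eq_one_iff_eq_inv, wwinv]
  have e2 : y * x = x ↔ y = 1 := by simp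
  unfold cl
  rw [e1, e2, map_mul, chi1 h]
  rcases Int.units_eq_one_or (chi x y) with h | h <;> simp [h] <;> tauto

open Classical in
noncomputable def dl (y r : G × C3 × WW k) : G × C3 × WW k :=
  if r = (1, 1, wa xa) then (if y.2.1 = 1 then (1, 1, wa xb) else r)
  else if r = (1, 1, wa xb) then (if y.2.1 = 1 then (1, 1, wa xa) else r)
  else if cl r.2.2 y.2.2 then r else r⁻¹

theorem ab_ne : ((1, 1, wa xb) : G × C3 × WW k) ≠ (1, 1, wa xa) := by
  simp only [ne_eq, Prod.mk.injEq, true_and, wa_inj]; decide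

theorem dl_a (y : G × C3 × WW k) :
    dl y (1, 1, wa xa) = if y.2.1 = 1 then (1, 1, wa xb) else (1, 1, wa xa) := by simp [dl]
theorem dl_b (y : G × C3 × WW k) :
    dl y (1, 1, wa xb) = if y.2.1 = 1 then (1, 1, wa xa) else (1, 1, wa xb) := by
  unfold dl; rw [if_neg ab_ne, if_pos rfl]
open Classical in
theorem dl_o (y : G × C3 × WW k) {r : G × C3 × WW k} (h1 : r ≠ (1, 1, wa xa))
    (h2 : r ≠ (1, 1, wa xb)) : dl y r = if cl r.2.2 y.2.2 then r else r⁻¹ := by
  unfold dl; rw [if_neg h1, if_neg h2]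

theorem inv_ne {r : G × C3 × WW k} {x : WW k} (h : r ≠ (1, 1, x)) : r⁻¹ ≠ (1, 1, x) := by
  intro e; apply h
  rw [← inv_inv r, e]; simp [wwinv]

theorem dl2 (y r : G × C3 × WW k) : dl y (dl y r) = r := by
  by_cases h1 : r = (1, 1, wa xa)
  · subst h1; by_cases h : y.2.1 = 1 <;> simp [dl_a, dl_b, h]
  by_cases h2 : r = (1, 1, wa xb)
  · subst h2; by_cases h : y.2.1 = 1 <;> simp [dl_a, dl_b, h]
  rw [dl_o y h1 h2]
  split_ifs with h
  · rw [dl_o y h1 h2, if_pos h]
  · rw [dl_o y (inv_ne h1) (inv_ne h2), if_neg (by simpa [wwinv] using h), inv_inv]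

theorem dl3 (y r : G × C3 × WW k) (hr : r⁻¹ = r ∨ r.2.2 ≠ 1) : dl (y * dl y r) r = (dl y r)⁻¹ := by
  by_cases h1 : r = (1, 1, wa xa)
  · subst h1; by_cases h : y.2.1 = 1 <;> simp [dl_a, h, wwinv]
  by_cases h2 : r = (1, 1, wa xb)
  · subst h2; by_cases h : y.2.1 = 1 <;> simp [dl_b, h, wwinv]
  rw [dl_o _ h1 h2, dl_o _ h1 h2]
  rcases hr with hr | hr
  · simp [hr]
  · by_cases h : cl r.2.2 y.2.2
    · rw [if_pos h, if_neg (by simpa [cl_flip hr] using h)]
    · rw [if_neg h, if_pos (by simpa [wwinv, cl_flip hr] using h), inv_inv]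

theorem dl_s (y : G × C3 × WW k) {a : A3} (h1 : a ≠ xa) (h2 : a ≠ xb) :
    dl y (1, 1, wa a) = (1, 1, wa a) := by
  rw [dl_o y (by simpa [wa_inj] using h1) (by simpa [wa_inj] using h2)]
  simp [wwinv]

open Classical in
theorem dl_r (y : G × C3 × WW k) (a : A3) :
    dl y (1, cc, wa a) = if cl (wa a) y.2.2 then (1, cc, wa a) else (1, cc⁻¹, wa a) := by
  have c4 : cc ≠ 1 := by decide
  rw [dl_o y (by simp [c4]) (by simp [c4])]
  simp [wwinv]

theorem pin (s : G × C3 × WW k → G × C3 × WW k) (hs : Function.Injective s)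
    (h : ∀ y (r : G × C3 × WW k), r.2.2.1 ≠ 1 → s (y * dl y r) = s y * dl (s y) r) :
    ∃ g, s 1 = (g, 1, 1) := by
  have c1 : cc ≠ cc⁻¹ := by decide
  have a1 : (s 1).2.1 = 1 := by
    by_contra hn
    have e1 := h 1 (1, 1, wa x0) (by simp only [wa]; decide)
    have e2 := h 1 (1, 1, wa x1) (by simp only [wa]; decide)
    have e3 := h (1, 1, wa x0) (1, 1, wa xa) (by simp only [wa]; decide)
    rw [dl_s _ (by decide) (by decide), dl_s _ (by decide) (by decide), one_mul] at e1 e2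
    rw [e1, dl_a, dl_a, if_pos rfl, if_neg (by simpa using hn), mul_assoc] at e3
    have : ((1, 1, wa x0) * (1, 1, wa xa) : G × C3 × WW k) = (1, 1, wa x1) := by
      simp only [Prod.mk_mul_mk, mul_one, wa_mul]; rfl
    rw [this, ← e2] at e3
    have := hs e3
    simp only [Prod.mk_mul_mk, mul_one, wa_mul, Prod.mk.injEq, true_and, wa_inj] at this
    revert this; decide
  have mv : ∀ a : A3, a ≠ xa → a ≠ xb → a ≠ 1 → ∀ y, (cl (wa a : WW k) y.2.2 → cl (wa a) (s y).2.2 →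
      s (y * (1, cc, 1)) = s y * (1, cc, 1)) ∧ (cl (wa a : WW k) y.2.2 → ¬ cl (wa a) (s y).2.2 →
      s (y * (1, cc, 1)) = s y * (1, cc⁻¹, 1)) ∧ (¬ cl (wa a : WW k) y.2.2 → cl (wa a) (s y).2.2 →
      s (y * (1, cc⁻¹, 1)) = s y * (1, cc, 1)) ∧ (¬ cl (wa a : WW k) y.2.2 → ¬ cl (wa a) (s y).2.2 →
      s (y * (1, cc⁻¹, 1)) = s y * (1, cc⁻¹, 1)) := by
    intro a h1 h2 h3 y
    have e1 := h y (1, cc, wa a) h3
    have e2 := h (y * dl y (1, cc, wa a)) (1, 1, wa a) h3
    rw [dl_s _ h1 h2, dl_s _ h1 h2, e1, dl_r, dl_r, mul_assoc, mul_assoc] at e2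
    refine ⟨fun p q => ?_, fun p q => ?_, fun p q => ?_, fun p q => ?_⟩ <;>
      simpa [p, q, wwmul] using e2
  have b0 : cl (wa x0 : WW k) 1 := by
    simp only [cl, map_one, wa_inj, true_or, and_true, true_iff]; decide
  have key : ∀ a : A3, (a = x1 ∨ a = x2) → (s 1).2.2 = 1 ∨ (s 1).2.2 = wa a := by
    intro a ha
    by_contra hn
    have b1 : ¬ cl (wa a : WW k) 1 := by simp [cl, wa_inj, ha]
    have b2 : cl (wa a : WW k) (s 1).2.2 ↔ cl (wa x0 : WW k) (s 1).2.2 := by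
      have : ¬ (x0 = x1 ∨ x0 = x2) := by decide
      unfold cl
      rw [chi2 (x := wa x0) rfl, chi2 (x := wa a) (by rcases ha with rfl | rfl <;> rfl)]
      simp only [hn, wa_inj, this, and_false, false_and]
    have m0 := mv x0 (by decide) (by decide) (by decide) 1
    have m1 := mv a (by rcases ha with rfl | rfl <;> decide) (by rcases ha with rfl | rfl <;> decide)
      (by rcases ha with rfl | rfl <;> decide) 1
    by_cases hc : cl (wa x0 : WW k) (s 1).2.2
    · have := hs ((m0.1 b0 hc).trans (m1.2.2.1 b1 (b2.2 hc)).symm)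
      simp [c1] at this
    · have := hs ((m0.2.1 b0 hc).trans (m1.2.2.2 b1 (fun h => hc (b2.1 h))).symm)
      simp [c1] at this
  refine ⟨(s 1).1, Prod.ext rfl (Prod.ext a1 ?_)⟩
  rcases key x1 (Or.inl rfl) with h1 | h1
  · exact h1
  · rcases key x2 (Or.inr rfl) with h2 | h2
    · exact h2
    · rw [h1, wa_inj] at h2
      exact absurd h2 (by decide)

def zz (i : Bool × G × C3 × A3 × UU k) : G × C3 × WW k :=
  if i.1 then (i.2.1, i.2.2.1, i.2.2.2.1, i.2.2.2.2, 1) else (i.2.1, i.2.2.1, i.2.2.2.1, 1, i.2.2.2.2)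

theorem zz_cov (r : G × C3 × WW k) : ∃ i j, zz j = zz i * dl (zz i) r := by
  have c4 : cc ≠ 1 := by decide
  have : (dl (1, cc, 1, r.2.2.2.1, 1) r).2.2 = r.2.2 := by
    unfold dl
    simp only [c4, if_false]
    split_ifs <;> simp [wwinv]
  refine ⟨(true, 1, cc, 1, r.2.2.2.1), (false, (dl (1, cc, 1, r.2.2.2.1, 1) r).1,
    cc * (dl (1, cc, 1, r.2.2.2.1, 1) r).2.1, r.2.2.1, r.2.2.2.2), ?_⟩
  have u : r.2.2.2.1 * r.2.2.2.1 = 1 := by nth_rewrite 1 [← winv r.2.2.2.1]; simp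
  simp [zz, Prod.ext_iff, this, u]

theorem mainR (G : Type) [Group G] [Fintype G] (h2 : 2 ≤ Fintype.card G) :
    ∃ (V : Type) (_ : Fintype V) (op : V → V → V), IsSQ op ∧
      Fintype.card V ≤ 2 ^ 16 * Fintype.card G ^ 3 ∧
      ∃ φ : G →* Equiv.Perm V, Function.Injective φ ∧ ∀ σ, IsAut op σ ↔ ∃ g, φ g = σ := by
  classical
  obtain ⟨k, hk1, hk2⟩ : ∃ k, 16 * Fintype.card G < 2 ^ (k + 1) ∧ 2 ^ k ≤ 16 * Fintype.card G :=
    ⟨Nat.log 2 (16 * Fintype.card G), Nat.lt_pow_succ_log_self (by norm_num) _,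
      Nat.pow_log_le_self 2 (by omega)⟩
  have cW : Fintype.card (UU (k + 1)) = 2 ^ (k + 1) := by simp
  obtain ⟨ι⟩ : Nonempty (G × C3 ↪ {x : Fin (k + 1) → ℤˣ // x ≠ 1}) := by
    refine Function.Embedding.nonempty_of_card_le ?_
    rw [Fintype.card_subtype_compl, cW]
    simp only [Fintype.card_prod, Fintype.card_multiplicative, ZMod.card, Fintype.card_unique]
    omega
  let w : G × C3 → Fin (k + 1) → ℤˣ := fun p => (ι p).1
  have hw : Function.Injective w := fun a b h => ι.injective (Subtype.ext h)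
  have hw1 : ∀ p, w p ≠ 1 := fun p => (ι p).2
  let e : G → ℕ := fun g => (Fintype.equivFin G g).val
  have he : Function.Injective e := fun a b h => (Fintype.equivFin G).injective (Fin.ext h)
  have fin6 : ∀ i : Fin 6, i = 0 ∨ i = 1 ∨ i = 2 ∨ i = 3 ∨ i = 4 ∨ i = 5 := by decide
  have hs : ∀ j, EE e w (ss j) = (EE e w j)⁻¹ := by
    rintro (⟨p, i⟩ | b)
    · rcases fin6 i with rfl | rfl | rfl | rfl | rfl | rfl <;> simp [EE, ss, six]
    · cases b <;> simp [EE, ss]
  have h1 : ∀ j, EE e w j ≠ 1 := by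
    rintro (⟨p, i⟩ | b)
    · obtain ⟨p0, p1, p2, p3, p4, p5⟩ := EE_val e w p
      have np := II_ne e p
      have wp := hw1 p.1
      rcases fin6 i with rfl | rfl | rfl | rfl | rfl | rfl <;>
        simp [p0, p1, p2, p3, p4, p5, np, wp, Prod.ext_iff]
    · have c4 : cc ≠ 1 := by decide
      cases b <;> simp [EE, c4, Prod.ext_iff]
  have ht : ∀ j : (II e × Fin 6) ⊕ Bool, tt (tt j) = j := by
    rintro (⟨p, i⟩ | b)
    · rcases fin6 i with rfl | rfl | rfl | rfl | rfl | rfl <;> rfl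
    · cases b <;> rfl
  have hts : ∀ j, EE e w (tt j) = EE e w j * EE e w (tt (ss j)) := by
    rintro (⟨p, i⟩ | b)
    · rcases fin6 i with rfl | rfl | rfl | rfl | rfl | rfl <;> simp [EE, ss, tt, six]
    · have c5 : cc⁻¹ = cc * cc := by decide
      have c6 : cc = cc⁻¹ * cc⁻¹ := by decide
      cases b
      · simp only [EE, ss, tt, Bool.not_false, Bool.not_true, Prod.mk_mul_mk, mul_one, ← c6]
      · simp only [EE, ss, tt, Bool.not_false, Bool.not_true, Prod.mk_mul_mk, mul_one, ← c5]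
  have hcov : ∀ γ i, (γ, i, 1) ≠ 1 → (¬ ∃ j, EE e w j = (γ, i, 1)) → γ⁻¹ = γ ∧ i = 1 := by
    intro γ i h1 h2
    have c7 : ∀ i : C3, i = cc ∨ i = cc⁻¹ ∨ i = 1 := by decide
    have A : ∀ γ : G, ∃ j, EE e w j = (γ, cc, 1) := by
      intro γ
      by_cases hγ : γ = 1
      · subst hγ; exact ⟨.inr true, rfl⟩
      · exact ⟨.inl (⟨(γ, cc), Or.inl ⟨rfl, hγ⟩⟩, 0), rfl⟩
    rcases c7 i with rfl | rfl | rfl
    · exact absurd (A γ) h2
    · obtain ⟨j, hj⟩ := A γ⁻¹
      exact absurd ⟨ss j, by rw [hs, hj]; simp⟩ h2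
    · rcases lt_trichotomy (e γ) (e γ⁻¹) with h | h | h
      · exact absurd ⟨.inl (⟨(γ, 1), Or.inr ⟨rfl, h⟩⟩, 0), rfl⟩ h2
      · exact ⟨(he h).symm, rfl⟩
      · refine absurd ⟨ss (.inl (⟨(γ⁻¹, 1), Or.inr ⟨rfl, by simpa using h⟩⟩, 0)), ?_⟩ h2
        rw [hs, (EE_val e w _).1]; simp
  let E : (II e × Fin 6) ⊕ Bool → G × C3 × WW (k + 1) := fun j => jj (EE e w j)
  have hE : Function.Injective E := jj_inj.comp (EE_inj e w hw hw1)
  let T : G × C3 × WW (k + 1) → Prop := fun r => ∃ j, E j = r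
  let τ : G × C3 × WW (k + 1) → G × C3 × WW (k + 1) :=
    fun r => if h : ∃ j, E j = r then E (tt h.choose) else 1
  have hτ : ∀ j, τ (E j) = E (tt j) := by
    intro j
    have h : ∃ i, E i = E j := ⟨j, rfl⟩
    simp only [τ, dif_pos h]
    rw [hE h.choose_spec]
  have hs' : ∀ j, E (ss j) = (E j)⁻¹ := fun j => by simp only [E, hs, map_inv]
  have hTi : ∀ d, T d → T d⁻¹ := by rintro _ ⟨j, rfl⟩; exact ⟨ss j, hs' j⟩
  have nT : ∀ r : G × C3 × WW (k + 1), r.2.2.1 ≠ 1 → r ≠ 1 ∧ ¬ T r := by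
    intro r hr
    refine ⟨fun h => hr (by rw [h]; rfl), ?_⟩
    rintro ⟨j, rfl⟩
    exact hr rfl
  let P : Dat (G × C3 × WW (k + 1)) :=
    { T := T, τ := τ, dl := dl
      hT1 := by rintro ⟨j, hj⟩; exact h1 j (jj_inj (hj.trans (map_one _).symm))
      hTi := hTi
      hτ1 := by rintro _ ⟨j, rfl⟩; rw [hτ]; exact ⟨_, rfl⟩
      hτ2 := by rintro _ ⟨j, rfl⟩; rw [hτ, hτ, ht]
      hτ3 := by rintro _ ⟨j, rfl⟩; rw [← hs', hτ, hτ]; simp only [E]; rw [hts, map_mul]
      hd1 := by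
        intro y r a b
        unfold dl
        split_ifs
        all_goals first
          | exact ⟨a, b⟩
          | exact nT _ (by simp only [wa]; decide)
          | exact ⟨by simpa using a, fun h => b (by simpa using hTi _ h)⟩
      hd2 := fun y r _ _ => dl2 y r
      hd3 := by
        rintro y ⟨γ, i, x⟩ a b
        refine dl3 y _ ?_
        by_cases hx : x = 1
        · subst hx
          have := hcov γ i (fun h => a (by simpa [Prod.ext_iff] using h))
            (fun ⟨j, hj⟩ => b ⟨j, by simp only [E, hj]; rfl⟩)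
          left; simp [this.1, this.2]
        · exact Or.inr hx }
  have cT : (univ.filter P.T).card = 6 * Fintype.card (II e) + 2 := by
    have : univ.filter P.T = univ.image E := by ext r; simp [P, T]
    rw [this, card_image_of_injective _ hE, card_univ]
    simp [mul_comm]
  have cI : Fintype.card (II e) ≤ 3 * Fintype.card G :=
    (Fintype.card_subtype_le _).trans (by simp [mul_comm])
  have cH : Fintype.card (G × C3 × WW (k + 1)) = 24 * (Fintype.card G * (2 ^ (k + 1) * 2 ^ (k + 1))) := by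
    simp only [Fintype.card_prod, cW, Fintype.card_multiplicative, ZMod.card, Fintype.card_units_int]
    ring
  have hcard : Fintype.card (Rr P.T) + ((univ.filter P.T).card + 1) =
      Fintype.card (G × C3 × WW (k + 1)) := by
    have e1 : Fintype.card (Rr P.T) = (univ \ insert 1 (univ.filter P.T)).card := by
      rw [Fintype.card_subtype]
      congr 1
      ext r
      simp
    rw [e1, ← card_insert_of_notMem (by simpa using P.hT1),
      card_sdiff_add_card_eq_card (subset_univ _), card_univ]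
  have cι : Fintype.card (Bool × G × C3 × A3 × UU (k + 1)) = 48 * (Fintype.card G * 2 ^ (k + 1)) := by
    simp only [Fintype.card_prod, cW, Fintype.card_multiplicative, ZMod.card, Fintype.card_units_int,
      Fintype.card_bool]
    ring
  have hu : 2 ^ (k + 1) ≤ 32 * Fintype.card G := by rw [pow_succ]; omega
  generalize 2 ^ (k + 1) = u at *
  generalize hn : Fintype.card G = n at *
  have q1 : 33 * (n * u) ≤ n * (u * u) := by
    have : 33 ≤ u := by omega
    calc 33 * (n * u) ≤ u * (n * u) := Nat.mul_le_mul_right _ this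
      _ = _ := by ring
  have q2 : 33 * n ≤ n * u := by nlinarith
  have q3 : n * (u * u) ≤ 1024 * n ^ 3 := by
    calc n * (u * u) ≤ n * ((32 * n) * (32 * n)) := Nat.mul_le_mul_left _ (Nat.mul_le_mul hu hu)
      _ = _ := by ring
  have r1 : Fintype.card (Rr P.T) = 3 * (Fintype.card (Rr P.T) / 3) := by omega
  have r2 : (univ.filter P.T).card + 1 < Fintype.card (Rr P.T) / 3 := by omega
  obtain ⟨op, o1, o2⟩ := rigid P (MonoidHom.inl G (C3 × WW (k + 1))) (by intro g r y; simp [P, dl])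
    (Fintype.card (Rr P.T) / 3) (by convert r1) (by omega) (by convert r2) zz (fun r _ _ => zz_cov r)
    (fun s a b => pin s a fun y r hr => b y r (nT r hr).1 (nT r hr).2) (by omega) (by omega)
  refine ⟨_, inferInstance, op, o1, ?_, _, act_inj _ _ (fun a b h => by simpa using h), o2⟩
  rw [Fintype.card_sum]; omega

end Pool.Agent.H5.StsAct
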