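import Mathlib

namespace Pool.Agent.H5.Stub
open Polynomial

/-- the real quadratic with roots `z`, `conj z` -/
noncomputable def quad (z : ℂ) : ℝ[X] := (X - C z.re) ^ 2 + C (z.im ^ 2)

lemma quad_monic (z : ℂ) : (quad z).Monic := by
  unfold quad; monicity!

lemma quad_deg (z : ℂ) : (quad z).natDegree = 2 := by
  unfold quad; compute_degree!

lemma prod_monic (l : List ℂ) : ((l.map quad).prod).Monic := by
  induction l with
  | nil => simp
  | cons a l ih => simpa using (quad_monic a).mul ih

lemma prod_deg (l : List ℂ) : ((l.map quad).prod).natDegree = 2 * l.length := by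
  induction l with
  | nil => simp
  | cons a l ih =>
    simp only [List.map_cons, List.prod_cons, List.length_cons]
    rw [(quad_monic a).natDegree_mul (prod_monic l), ih, quad_deg]; ring

lemma nonneg_of_ne (g : ℝ[X]) (r : ℝ) (h : ∀ t, t ≠ r → 0 ≤ g.eval t) : ∀ t, 0 ≤ g.eval t := by
  have hc : IsClosed {t : ℝ | 0 ≤ g.eval t} := isClosed_le continuous_const g.continuous
  have hd : Dense ({r}ᶜ : Set ℝ) := dense_compl_singleton r
  intro t
  have : closure ({r}ᶜ : Set ℝ) ⊆ {t : ℝ | 0 ≤ g.eval t} :=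
    hc.closure_subset_iff.2 (fun x hx => h x hx)
  exact this (hd t)

lemma root_double (g : ℝ[X]) (r : ℝ) (h : ∀ t, 0 ≤ (t - r) * g.eval t) : g.eval r = 0 := by
  have h1 : 0 ≤ g.eval r := by
    have hc : IsClosed {t : ℝ | 0 ≤ g.eval t} := isClosed_le continuous_const g.continuous
    have : closure (Set.Ioi r) ⊆ {t : ℝ | 0 ≤ g.eval t} :=
      hc.closure_subset_iff.2 (fun x hx => by
        have hx' : 0 < x - r := sub_pos.2 hx
        exact (mul_nonneg_iff_of_pos_left hx').1 (h x))
    apply this; rw [closure_Ioi]; exact le_refl r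
  have h2 : g.eval r ≤ 0 := by
    have hc : IsClosed {t : ℝ | g.eval t ≤ 0} := isClosed_le g.continuous continuous_const
    have : closure (Set.Iio r) ⊆ {t : ℝ | g.eval t ≤ 0} :=
      hc.closure_subset_iff.2 (fun x hx => by
        have hx' : x - r < 0 := sub_neg.2 hx
        have := h x
        show g.eval x ≤ 0
        by_contra hh
        push Not at hh
        nlinarith)
    apply this; rw [closure_Iio]; exact le_refl r
  linarith

lemma fac_step (f : ℝ[X]) (hf : ∀ t, 0 ≤ f.eval t) (hd : 0 < f.natDegree) :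
    ∃ z : ℂ, z.im ≤ 0 ∧ ∃ g : ℝ[X], f = quad z * g ∧ ∀ t, 0 ≤ g.eval t := by
  obtain ⟨z, hz⟩ : ∃ z : ℂ, aeval z f = 0 :=
    IsAlgClosed.exists_aeval_eq_zero _ f (natDegree_pos_iff_degree_pos.1 hd).ne'
  by_cases him : z.im = 0
  · have hr : f.eval z.re = 0 := by
      have : z = ((z.re : ℝ) : ℂ) := by apply Complex.ext <;> simp [him]
      rw [this] at hz
      have h2 : aeval (algebraMap ℝ ℂ z.re) f = algebraMap ℝ ℂ (f.eval z.re) := by
        rw [aeval_algebraMap_apply]; simp
      have h3 : algebraMap ℝ ℂ (f.eval z.re) = 0 := by rw [← h2]; simpa using hz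
      simpa using h3
    obtain ⟨g1, hg1⟩ := dvd_iff_isRoot.2 hr
    have h1 : g1.eval z.re = 0 := root_double g1 z.re (fun t => by
      have := hf t; rw [hg1] at this; simpa using this)
    obtain ⟨g2, hg2⟩ := dvd_iff_isRoot.2 h1
    refine ⟨z, him.le, g2, ?_, ?_⟩
    · rw [hg1, hg2, quad, him]; simp; ring
    · apply nonneg_of_ne g2 z.re
      intro t ht
      have := hf t
      rw [hg1, hg2] at this
      simp only [eval_mul, eval_sub, eval_X, eval_C] at this
      have h3 : 0 < (t - z.re) * (t - z.re) := mul_self_pos.2 (sub_ne_zero.2 ht)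
      rw [← mul_assoc] at this
      exact (mul_nonneg_iff_of_pos_left h3).1 this
  · obtain ⟨g, hg⟩ := f.quadratic_dvd_of_aeval_eq_zero_im_ne_zero hz him
    have hq : X ^ 2 - C (2 * z.re) * X + C (‖z‖ ^ 2) = quad ⟨z.re, -|z.im|⟩ := by
      rw [quad, Complex.sq_norm, Complex.normSq_apply]
      simp only [even_two, Even.neg_pow, sq_abs, map_add, map_mul, map_pow]
      rw [show (C 2 : ℝ[X]) = 2 from rfl]; ring
    refine ⟨⟨z.re, -|z.im|⟩, by simp, g, by rw [hg, hq], fun t => ?_⟩
    have := hf t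
    rw [hg, hq, eval_mul] at this
    have h3 : 0 < (quad ⟨z.re, -|z.im|⟩).eval t := by
      simp only [quad, eval_add, eval_pow, eval_sub, eval_X, eval_C, even_two, Even.neg_pow, sq_abs]
      have : 0 < z.im ^ 2 := by positivity
      positivity
    exact (mul_nonneg_iff_of_pos_left h3).1 this

lemma fac (f : ℝ[X]) (hf : ∀ t, 0 ≤ f.eval t) :
    ∃ (c : ℝ) (l : List ℂ), (∀ z ∈ l, z.im ≤ 0) ∧ f = C (c ^ 2) * (l.map quad).prod := by
  induction h : f.natDegree using Nat.strong_induction_on generalizing f with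
  | _ n ih =>
    by_cases hd : f.natDegree = 0
    · have h0 := eq_C_of_natDegree_eq_zero hd
      have h1 : 0 ≤ f.coeff 0 := by have := hf 0; rw [h0] at this; simpa using this
      refine ⟨Real.sqrt (f.coeff 0), [], by simp, ?_⟩
      rw [Real.sq_sqrt h1]; simpa using h0
    · obtain ⟨z, hz, g, hg, hg0⟩ := fac_step f hf (Nat.pos_of_ne_zero hd)
      have hgne : g ≠ 0 := by rintro rfl; rw [hg] at hd; simp at hd
      have hdeg : f.natDegree = 2 + g.natDegree := by
        rw [hg, (quad_monic z).natDegree_mul' hgne, quad_deg]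
      obtain ⟨c, l, hl, hgl⟩ := ih g.natDegree (by omega) g hg0 rfl
      refine ⟨c, z :: l, ?_, ?_⟩
      · intro w hw
        rcases List.mem_cons.1 hw with rfl | hw
        · exact hz
        · exact hl w hw
      · rw [hg, hgl]; simp only [List.map_cons, List.prod_cons]; ring

lemma prod_sos (l : List ℂ) : ∃ a b : ℝ[X], (l.map quad).prod = a ^ 2 + b ^ 2 ∧
    a.natDegree ≤ l.length ∧ b.natDegree ≤ l.length := by
  induction l with
  | nil => exact ⟨1, 0, by simp, by simp, by simp⟩
  | cons z l ih =>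
    obtain ⟨a, b, h, ha, hb⟩ := ih
    refine ⟨a * (X - C z.re) - b * C z.im, a * C z.im + b * (X - C z.re), ?_, ?_, ?_⟩
    · simp only [List.map_cons, List.prod_cons, h, quad, map_pow]; ring
    · simp only [List.length_cons]
      refine (natDegree_sub_le _ _).trans (max_le ?_ ?_)
      · exact natDegree_mul_le.trans (by rw [natDegree_X_sub_C]; omega)
      · exact natDegree_mul_le.trans (by rw [natDegree_C]; omega)
    · simp only [List.length_cons]
      refine (natDegree_add_le _ _).trans (max_le ?_ ?_)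
      · exact natDegree_mul_le.trans (by rw [natDegree_C]; omega)
      · exact natDegree_mul_le.trans (by rw [natDegree_X_sub_C]; omega)

lemma fac_len {c : ℝ} {l : List ℂ} (hc : c ≠ 0) :
    (C (c ^ 2) * (l.map quad).prod).natDegree = 2 * l.length := by
  rw [natDegree_C_mul (pow_ne_zero 2 hc), prod_deg]

lemma sos2 (f : ℝ[X]) (hf : ∀ t, 0 ≤ f.eval t) (d : ℕ) (hd : f.natDegree ≤ 2 * d) :
    ∃ a b : ℝ[X], f = a ^ 2 + b ^ 2 ∧ a.natDegree ≤ d ∧ b.natDegree ≤ d := by
  obtain ⟨c, l, -, h⟩ := fac f hf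
  by_cases hc : c = 0
  · exact ⟨0, 0, by rw [h, hc]; simp, by simp, by simp⟩
  · have hl : l.length ≤ d := by rw [h, fac_len hc] at hd; omega
    obtain ⟨a, b, hab, ha, hb⟩ := prod_sos l
    refine ⟨C c * a, C c * b, by rw [h, hab, map_pow]; ring, ?_, ?_⟩
    · exact (natDegree_C_mul_le _ _).trans (ha.trans hl)
    · exact (natDegree_C_mul_le _ _).trans (hb.trans hl)

/-- a sum of squares equal to a constant has constant terms -/
lemma sos_const {r : ℕ} (g : Fin r → ℝ[X]) (c : ℝ) (h : ∑ i, g i ^ 2 = C c) (i : Fin r) :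
    (g i).natDegree = 0 := by
  by_contra hi
  have hb : ∀ t, |(g i).eval t| ≤ |c| + 1 := by
    intro t
    have h1 := congrArg (eval t) h
    simp only [eval_finsetSum, eval_pow, eval_C] at h1
    have h2 : (g i).eval t ^ 2 ≤ c := by
      rw [← h1]
      exact Finset.single_le_sum (f := fun j => (g j).eval t ^ 2) (fun j _ => sq_nonneg _)
        (Finset.mem_univ i)
    have h3 := le_abs_self c
    have h4 := sq_abs ((g i).eval t)
    nlinarith [abs_nonneg ((g i).eval t), abs_nonneg c]
  have ht := (g i).abs_tendsto_atTop (natDegree_pos_iff_degree_pos.1 (Nat.pos_of_ne_zero hi))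
  obtain ⟨t, ht⟩ := (ht.eventually (Filter.eventually_gt_atTop (|c| + 1))).exists
  exact absurd (hb t) (not_le.2 ht)

lemma sos_roots (l : List ℝ) : ∀ {r : ℕ} (g : Fin r → ℝ[X]) (c : ℝ),
    ∑ i, g i ^ 2 = C c * ((l.map (fun a => X - C a)).prod) ^ 2 →
    ∀ i, ∃ a : ℝ, g i = C a * (l.map (fun a => X - C a)).prod := by
  induction l with
  | nil =>
    intro r g c h i
    refine ⟨(g i).coeff 0, ?_⟩
    simpa using eq_C_of_natDegree_eq_zero (sos_const g c (by simpa using h) i)
  | cons a l ih =>
    intro r g c h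
    have h0 : ∀ i, (g i).eval a = 0 := by
      intro i
      have h1 := congrArg (eval a) h
      simp only [eval_finsetSum, eval_pow, eval_mul, List.map_cons, List.prod_cons, eval_sub,
        eval_X, eval_C, sub_self, zero_mul] at h1
      have h2 : ∑ j, (g j).eval a ^ 2 = 0 := by rw [h1]; simp
      have := (Finset.sum_eq_zero_iff_of_nonneg (fun j _ => sq_nonneg ((g j).eval a))).1 h2 i
        (Finset.mem_univ i)
      exact pow_eq_zero_iff (two_ne_zero) |>.1 this
    choose g' hg' using fun i => dvd_iff_isRoot.2 (h0 i)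
    have hne : ((X - C a : ℝ[X]) ^ 2) ≠ 0 := pow_ne_zero 2 (X_sub_C_ne_zero a)
    have h1 : ∑ i, g' i ^ 2 = C c * ((l.map (fun a => X - C a)).prod) ^ 2 := by
      apply mul_left_cancel₀ hne
      rw [Finset.mul_sum]
      have : ∀ i, (X - C a) ^ 2 * g' i ^ 2 = g i ^ 2 := fun i => by rw [hg' i]; ring
      simp only [this, h, List.map_cons, List.prod_cons]; ring
    intro i
    obtain ⟨b, hb⟩ := ih g' c h1 i
    exact ⟨b, by rw [hg' i, hb]; simp only [List.map_cons, List.prod_cons]; ring⟩

end Pool.Agent.H5.Stub
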