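import Pool.Agent.H5.StubDefs
import Pool.Agent.H5.Stub1

namespace Pool.Agent.H5.Stub
open Polynomial Complex

abbrev MP := MvPolynomial (Fin (2 + 1)) ℝ

noncomputable def px : ℝ[X] := 1 - X ^ 4
noncomputable def py : ℝ[X] := X * (1 + X ^ 2)
noncomputable def pz : ℝ[X] := C 3136 * (1 - X ^ 2) ^ 2 + C 12769 * X ^ 2

noncomputable def pull : MP →ₐ[ℝ] ℝ[X] := MvPolynomial.aeval ![px, py, pz]

noncomputable def pt2 (s t : ℂ) : Fin (2 + 1) → ℂ :=
  ![s ^ 4 - t ^ 4, s * t * (s ^ 2 + t ^ 2), 3136 * (s ^ 2 - t ^ 2) ^ 2 + 12769 * (s * t) ^ 2]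

noncomputable def ptR (t : ℝ) : Fin (2 + 1) → ℝ :=
  ![1 - t ^ 4, t * (1 + t ^ 2), 3136 * (1 - t ^ 2) ^ 2 + 12769 * t ^ 2]

lemma ev (w : ℂ) (G : MP) : aeval w (pull G) = MvPolynomial.aeval (pt2 1 w) G := by
  have : (Polynomial.aeval w : ℝ[X] →ₐ[ℝ] ℂ).comp pull = MvPolynomial.aeval (pt2 1 w) := by
    apply MvPolynomial.algHom_ext
    intro i
    fin_cases i <;> simp [pull, pt2, px, py, pz]
  exact DFunLike.congr_fun this G

lemma evR (t : ℝ) (G : MP) : (pull G).eval t = MvPolynomial.eval (ptR t) G := by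
  have : (Polynomial.aeval t : ℝ[X] →ₐ[ℝ] ℝ).comp pull = MvPolynomial.aeval (ptR t) := by
    apply MvPolynomial.algHom_ext
    intro i
    fin_cases i <;> simp [pull, ptR, px, py, pz]
  have h := DFunLike.congr_fun this G
  simpa [Polynomial.coe_aeval_eq_eval, MvPolynomial.aeval_eq_eval] using h

lemma homog_smul {K : Type} [CommRing K] {L : Type} [CommRing L] [Algebra K L]
    (G : MvPolynomial (Fin (2 + 1)) K) (e : ℕ) (hG : G.IsHomogeneous e) (c : L)
    (p : Fin (2 + 1) → L) :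
    MvPolynomial.aeval (fun i => c * p i) G = c ^ e * MvPolynomial.aeval p G := by
  rw [MvPolynomial.aeval_def, MvPolynomial.aeval_def, MvPolynomial.eval₂_eq,
    MvPolynomial.eval₂_eq, Finset.mul_sum]
  apply Finset.sum_congr rfl
  intro d hd
  have h1 : ∑ i ∈ d.support, d i = e := (hG.degree_eq_sum_deg_support hd).symm
  simp only [mul_pow, Finset.prod_mul_distrib, Finset.prod_pow_eq_pow_sum, h1]
  ring

lemma ptR_mem (t : ℝ) : ptR t ∈ realCone {Q} := by
  refine ⟨fun h => ?_, ?_⟩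
  · have h2 := congrFun h 2
    have h1 := congrFun h 1
    simp only [ptR, Matrix.cons_val, Pi.zero_apply] at h1 h2
    have : 0 < 1 + t ^ 2 := by positivity
    have ht : t = 0 := by rcases mul_eq_zero.1 h1 with h | h <;> linarith
    rw [ht] at h2; norm_num at h2
  · intro P hP
    rw [Set.mem_singleton_iff.1 hP]
    simp [Q, ptR]; ring

lemma cone_param (p : Fin (2 + 1) → ℂ) (hp : p ∈ cone {Q}) :
    ∃ c s t : ℂ, p = fun i => c * pt2 s t i := by
  have hq := hp.2 Q rfl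
  simp [Q] at hq
  have hq' : (3136 * p 0 ^ 2 + 12769 * p 1 ^ 2) ^ 2 = (p 0 ^ 2 + 4 * p 1 ^ 2) * p 2 ^ 2 := by
    linear_combination hq
  obtain ⟨ρ, h1, h2⟩ : ∃ ρ : ℂ, ρ ^ 2 = p 0 ^ 2 + 4 * p 1 ^ 2 ∧
      ρ * p 2 = 3136 * p 0 ^ 2 + 12769 * p 1 ^ 2 := by
    by_cases hz : p 2 = 0
    · obtain ⟨ρ, hρ⟩ := IsAlgClosed.exists_pow_nat_eq (p 0 ^ 2 + 4 * p 1 ^ 2) two_pos
      refine ⟨ρ, hρ, ?_⟩
      rw [hz] at hq' ⊢
      have : (3136 * p 0 ^ 2 + 12769 * p 1 ^ 2) ^ 2 = 0 := by rw [hq']; ring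
      rw [pow_eq_zero_iff two_ne_zero |>.1 this]; ring
    · refine ⟨(3136 * p 0 ^ 2 + 12769 * p 1 ^ 2) / p 2, ?_, by field_simp⟩
      rw [div_pow, hq']; field_simp
  by_cases hρ : ρ = 0
  · rw [hρ] at h1 h2
    have hy : p 1 = 0 := by
      have : p 1 ^ 2 = 0 := by linear_combination (-1 / 225) * h2 + (3136 / 225) * h1
      exact pow_eq_zero_iff two_ne_zero |>.1 this
    have hx : p 0 = 0 := by
      have : p 0 ^ 2 = 0 := by rw [hy] at h1; linear_combination -h1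
      exact pow_eq_zero_iff two_ne_zero |>.1 this
    refine ⟨p 2 / (-225), 1, I, ?_⟩
    funext i
    fin_cases i
    · simp [pt2, hx]
    · simp [pt2, hy]
    · simp [pt2]; norm_num; ring
  · obtain ⟨s, hs⟩ := IsAlgClosed.exists_pow_nat_eq ((ρ + p 0) / 2) two_pos
    obtain ⟨t, ht⟩ := IsAlgClosed.exists_pow_nat_eq ((ρ - p 0) / 2) two_pos
    have hst : (s * t - p 1) * (s * t + p 1) = 0 := by
      have : (s * t) ^ 2 = p 1 ^ 2 := by rw [mul_pow, hs, ht]; linear_combination (1 / 4) * h1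
      linear_combination this
    obtain ⟨t, ht, hst⟩ : ∃ t : ℂ, t ^ 2 = (ρ - p 0) / 2 ∧ s * t = p 1 := by
      rcases mul_eq_zero.1 hst with h | h
      · exact ⟨t, ht, by linear_combination h⟩
      · exact ⟨-t, by rw [← ht]; ring, by linear_combination -h⟩
    refine ⟨1 / ρ, s, t, ?_⟩
    have e1 : s ^ 2 - t ^ 2 = p 0 := by rw [hs, ht]; ring
    have e2 : s ^ 2 + t ^ 2 = ρ := by rw [hs, ht]; ring
    funext i
    fin_cases i
    · have : s ^ 4 - t ^ 4 = p 0 * ρ := by rw [← e1, ← e2]; ring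
      simp [pt2, this]; field_simp
    · simp [pt2, hst, e2]; field_simp
    · simp [pt2, hst, e1, ← h2]; field_simp

lemma poly_zero (g : ℂ[X]) (A : Set ℂ) (hA : A.Infinite) (h : ∀ a ∈ A, g.eval a = 0) (w : ℂ) :
    g.eval w = 0 := by
  rw [eq_zero_of_infinite_isRoot g (hA.mono (fun a ha => h a ha))]; simp

lemma lemP (G : MvPolynomial (Fin (2 + 1)) ℂ) (e : ℕ) (hG : G.IsHomogeneous e)
    (h : ∀ t : ℝ, MvPolynomial.aeval (pt2 1 t) G = 0) (p : Fin (2 + 1) → ℂ) (hp : p ∈ cone {Q}) :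
    MvPolynomial.aeval p G = 0 := by
  have h1 : ∀ w : ℂ, MvPolynomial.aeval (pt2 1 w) G = 0 := by
    intro w
    have key : ∀ w : ℂ, (MvPolynomial.aeval (![1 - X ^ 4, X * (1 + X ^ 2),
        C 3136 * (1 - X ^ 2) ^ 2 + C 12769 * X ^ 2] : Fin (2 + 1) → ℂ[X]) G).eval w =
        MvPolynomial.aeval (pt2 1 w) G := by
      intro w
      have : (Polynomial.aeval w : ℂ[X] →ₐ[ℂ] ℂ).comp (MvPolynomial.aeval (![1 - X ^ 4,
          X * (1 + X ^ 2), C 3136 * (1 - X ^ 2) ^ 2 + C 12769 * X ^ 2] : Fin (2 + 1) → ℂ[X])) =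
          MvPolynomial.aeval (pt2 1 w) := by
        apply MvPolynomial.algHom_ext
        intro i
        fin_cases i <;> simp [pt2]
      simpa [Polynomial.coe_aeval_eq_eval] using DFunLike.congr_fun this G
    rw [← key]
    apply poly_zero _ (Set.range (fun t : ℝ => (t : ℂ)))
      (Set.infinite_range_of_injective Complex.ofReal_injective)
    rintro _ ⟨t, rfl⟩
    rw [key, h]
  have h2 : ∀ s t : ℂ, s ≠ 0 → MvPolynomial.aeval (pt2 s t) G = 0 := by
    intro s t hs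
    have : pt2 s t = fun i => s ^ 4 * pt2 1 (t / s) i := by
      funext i
      fin_cases i <;> simp [pt2] <;> field_simp
    rw [this, homog_smul G e hG, h1, mul_zero]
  have h3 : ∀ s t : ℂ, MvPolynomial.aeval (pt2 s t) G = 0 := by
    intro s t
    have key : ∀ w : ℂ, (MvPolynomial.aeval (![X ^ 4 - C t ^ 4, X * C t * (X ^ 2 + C t ^ 2),
        C 3136 * (X ^ 2 - C t ^ 2) ^ 2 + C 12769 * (X * C t) ^ 2] : Fin (2 + 1) → ℂ[X]) G).eval w =
        MvPolynomial.aeval (pt2 w t) G := by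
      intro w
      have : (Polynomial.aeval w : ℂ[X] →ₐ[ℂ] ℂ).comp (MvPolynomial.aeval (![X ^ 4 - C t ^ 4,
          X * C t * (X ^ 2 + C t ^ 2), C 3136 * (X ^ 2 - C t ^ 2) ^ 2 + C 12769 * (X * C t) ^ 2] :
          Fin (2 + 1) → ℂ[X])) = MvPolynomial.aeval (pt2 w t) := by
        apply MvPolynomial.algHom_ext
        intro i
        fin_cases i
        · simp [pt2]
        · simp [pt2]; left; ring
        · simp [pt2]; ring
      simpa [Polynomial.coe_aeval_eq_eval] using DFunLike.congr_fun this G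
    rw [← key]
    apply poly_zero _ ({0}ᶜ : Set ℂ) (Set.toFinite _).infinite_compl
    intro a ha
    rw [key, h2 a t ha]
  obtain ⟨c, s, t, rfl⟩ := cone_param p hp
  rw [homog_smul G e hG, h3, mul_zero]

lemma ptR_coe (t : ℝ) : (fun i => ((ptR t i : ℝ) : ℂ)) = pt2 1 t := by
  funext i
  fin_cases i <;> simp [ptR, pt2]

lemma totReal : TotallyReal {Q} := by
  intro G e hG h p hp
  have := lemP G e hG (fun t => by
    have := h (ptR t) (ptR_mem t)
    rw [ptR_coe] at this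
    simpa [MvPolynomial.aeval_eq_eval] using this) p hp
  simpa [MvPolynomial.aeval_eq_eval] using this

lemma inI_of_pull (G : MP) (e : ℕ) (hG : G.IsHomogeneous e) (h : pull G = 0) : InI {Q} G := by
  intro p hp
  have := lemP (MvPolynomial.map (algebraMap ℝ ℂ) G) e (hG.map _) (fun t => by
    rw [MvPolynomial.aeval_map_algebraMap, ← ev, h]; simp) p hp
  rwa [MvPolynomial.aeval_map_algebraMap] at this

lemma pull_of_inI (G : MP) (h : InI {Q} G) : pull G = 0 := by
  apply Polynomial.funext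
  intro t
  have hm : pt2 1 t ∈ cone {Q} := by
    refine ⟨fun h0 => (ptR_mem t).1 ?_, ?_⟩
    · funext i
      have := congrFun h0 i
      rw [← ptR_coe] at this
      simpa using this
    · intro P hP
      rw [Set.mem_singleton_iff.1 hP]
      simp [Q, pt2]; ring
  have h1 := h _ hm
  rw [← ev] at h1
  have h2 : aeval (algebraMap ℝ ℂ t) (pull G) = algebraMap ℝ ℂ ((pull G).eval t) := by
    rw [aeval_algebraMap_apply]; simp
  have h3 : algebraMap ℝ ℂ ((pull G).eval t) = 0 := by rw [← h2]; simpa using h1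
  simpa using h3

end Pool.Agent.H5.Stub
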