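import Pool.Agent.H5.Stub2

namespace Pool.Agent.H5.Stub
open Polynomial Complex

def Im (j : ℕ) (g : ℝ[X]) : Prop := ∃ G : MP, G.IsHomogeneous j ∧ pull G = g

lemma Im.add {j g h} (a : Im j g) (b : Im j h) : Im j (g + h) := by
  obtain ⟨G, h1, rfl⟩ := a; obtain ⟨H, h2, rfl⟩ := b
  exact ⟨G + H, h1.add h2, map_add _ _ _⟩

lemma Im.mul {i j g h} (a : Im i g) (b : Im j h) : Im (i + j) (g * h) := by
  obtain ⟨G, h1, rfl⟩ := a; obtain ⟨H, h2, rfl⟩ := b
  exact ⟨G * H, h1.mul h2, map_mul _ _ _⟩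

lemma Im.pow {j g} (a : Im j g) (n : ℕ) : Im (j * n) (g ^ n) := by
  obtain ⟨G, h1, rfl⟩ := a
  exact ⟨G ^ n, h1.pow n, map_pow _ _ _⟩

lemma Im.smul {j g} (a : Im j g) (c : ℝ) : Im j (C c * g) := by
  obtain ⟨G, h1, rfl⟩ := a
  refine ⟨MvPolynomial.C c * G, by simpa using (MvPolynomial.isHomogeneous_C _ c).mul h1, ?_⟩
  simp [pull]

lemma Im.zero (j : ℕ) : Im j 0 := ⟨0, MvPolynomial.isHomogeneous_zero _ _ _, map_zero _⟩

lemma im_x : Im 1 px := ⟨MvPolynomial.X 0, MvPolynomial.isHomogeneous_X _ _, by simp [pull]⟩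
lemma im_y : Im 1 py := ⟨MvPolynomial.X 1, MvPolynomial.isHomogeneous_X _ _, by simp [pull]⟩
lemma im_z : Im 1 pz := ⟨MvPolynomial.X 2, MvPolynomial.isHomogeneous_X _ _, by simp [pull]⟩

lemma Im.cast {i j g} (a : Im i g) (h : i = j) : Im j g := h ▸ a
lemma Im.congr {j g h} (a : Im j g) (e : g = h) : Im j h := e ▸ a

noncomputable def NN : ℝ[X] := (1 + X ^ 2) * pz

lemma poly_eq {p q : ℝ[X]} (h : ∀ t, p.eval t = q.eval t) : p = q := Polynomial.funext h

lemma imN_mono (j : ℕ) : ∀ e, e ≤ 4 * j + 2 → Im (j + 2) (NN * X ^ e) := by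
  induction j with
  | zero =>
    intro e he
    have a1 := im_x.mul im_z
    have a2 := im_y.mul im_z
    have a3 := ((im_x.mul im_x).smul 3136).add ((im_y.mul im_y).smul 12769)
    interval_cases e
    · refine ((a1.smul (1 / 2)).add (a3.smul (1 / 2))).congr (poly_eq fun t => ?_)
      simp [NN, px, py, pz]; ring
    · refine a2.congr (poly_eq fun t => ?_)
      simp [NN, px, py, pz]; ring
    · refine ((a1.smul (-1 / 2)).add (a3.smul (1 / 2))).congr (poly_eq fun t => ?_)
      simp [NN, px, py, pz]; ring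
  | succ j ih =>
    intro e he
    have step : ∀ (s : ℕ) (a b c : ℝ), s + 1 ≤ 4 * j + 2 →
        Im (j + 1 + 2) (C a * (px * (NN * X ^ s)) + C b * (py * (NN * X ^ (s + 1))) +
          C c * (pz * (NN * X ^ s))) := by
      intro s a b c hs
      refine ((((im_x.mul (ih s (by omega))).smul a).add ((im_y.mul (ih (s + 1) hs)).smul b)).add
        ((im_z.mul (ih s (by omega))).smul c)).cast (by ring)
    by_cases h2 : e < 2
    · refine (step e (3361 / 225) (6497 / 225) (-1 / 225) (by omega)).congr (poly_eq fun t => ?_)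
      simp only [eval_add, eval_mul, eval_C, eval_pow, eval_X, px, py, pz, eval_sub, eval_one]
      ring
    by_cases h4 : e < 4
    · obtain ⟨s, rfl⟩ : ∃ s, e = s + 2 := ⟨e - 2, by omega⟩
      refine (step s (-3136 / 225) (-6272 / 225) (1 / 225) (by omega)).congr (poly_eq fun t => ?_)
      simp only [eval_add, eval_mul, eval_C, eval_pow, eval_X, px, py, pz, eval_sub, eval_one]
      ring
    by_cases h6 : e ≤ 4 * j + 5
    · obtain ⟨s, rfl⟩ : ∃ s, e = s + 4 := ⟨e - 4, by omega⟩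
      refine (step s (3136 / 225) (6497 / 225) (-1 / 225) (by omega)).congr (poly_eq fun t => ?_)
      simp only [eval_add, eval_mul, eval_C, eval_pow, eval_X, px, py, pz, eval_sub, eval_one]
      ring
    · obtain ⟨s, rfl⟩ : ∃ s, e = s + 6 := ⟨e - 6, by omega⟩
      have a1 := step s (-3136 / 225) (-6272 / 225) (1 / 225) (by omega)
      have a2 := ((im_x.mul (ih (s + 2) (by omega))).smul (-1)).cast (j := j + 1 + 2) (by ring)
      refine (a1.add a2).congr (poly_eq fun t => ?_)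
      simp only [eval_add, eval_mul, eval_C, eval_pow, eval_X, px, py, pz, eval_sub, eval_one]
      ring

lemma imN (j : ℕ) (a : ℝ[X]) (ha : a.natDegree ≤ 4 * j + 2) : Im (j + 2) (NN * a) := by
  rw [a.as_sum_range' (4 * j + 3) (by omega), Finset.mul_sum]
  have : ∀ s : Finset ℕ, (∀ e ∈ s, e ≤ 4 * j + 2) →
      Im (j + 2) (∑ e ∈ s, NN * monomial e (a.coeff e)) := by
    intro s
    induction s using Finset.induction_on with
    | empty => intro _; simpa using Im.zero _
    | insert e s he ih =>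
      intro h
      rw [Finset.sum_insert he]
      refine Im.add ?_ (ih fun x hx => h x (Finset.mem_insert_of_mem hx))
      refine ((imN_mono j e (h e (Finset.mem_insert_self _ _))).smul (a.coeff e)).congr ?_
      rw [← C_mul_X_pow_eq_monomial]; ring
  exact this _ (fun e he => by simp at he; omega)

noncomputable def P0 : ℂ := 8 / 7 * I
noncomputable def Q0 : ℂ := 7 / 8 * I
noncomputable def κ : ℝ := (7 / 8) ^ 4

lemma quad_dvd (g : ℝ[X]) (b : ℝ) (hb : b ≠ 0) (h : aeval ((b : ℂ) * I) g = 0) :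
    X ^ 2 + C (b ^ 2) ∣ g := by
  have := g.quadratic_dvd_of_aeval_eq_zero_im_ne_zero h (by simpa using hb)
  simpa using this

lemma NN_dvd (g : ℝ[X]) (h1 : aeval I g = 0) (h2 : aeval P0 g = 0) (h3 : aeval Q0 g = 0) :
    ∃ R, g = NN * R := by
  obtain ⟨g1, rfl⟩ := quad_dvd g 1 one_ne_zero (by simpa using h1)
  have e2 : ((8 / 7 : ℝ) : ℂ) * I = P0 := by simp [P0]
  have e3 : ((7 / 8 : ℝ) : ℂ) * I = Q0 := by simp [Q0]
  have p2 : P0 ^ 2 = -(64 / 49) := by rw [P0, mul_pow, I_sq]; norm_num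
  have q2 : Q0 ^ 2 = -(49 / 64) := by rw [Q0, mul_pow, I_sq]; norm_num
  have a2 : aeval P0 g1 = 0 := by
    simp only [map_mul, map_add, map_pow, aeval_X, aeval_C, p2] at h2
    refine (mul_eq_zero.1 h2).resolve_left ?_
    simp; norm_num
  obtain ⟨g2, rfl⟩ := quad_dvd g1 (8 / 7) (by norm_num) (by rw [e2]; exact a2)
  have a3 : aeval Q0 g2 = 0 := by
    simp only [map_mul, map_add, map_pow, aeval_X, aeval_C, q2] at h3
    refine (mul_eq_zero.1 ((mul_eq_zero.1 h3).resolve_left ?_)).resolve_left ?_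
    · simp; norm_num
    · simp; norm_num
  obtain ⟨g3, rfl⟩ := quad_dvd g2 (7 / 8) (by norm_num) (by rw [e3]; exact a3)
  refine ⟨C (1 / 3136) * g3, poly_eq fun t => ?_⟩
  simp [NN, pz]; ring

lemma NN_deg : NN.natDegree = 6 := by
  have : NN = C 3136 * X ^ 6 + C 9633 * X ^ 4 + C 9633 * X ^ 2 + C 3136 :=
    poly_eq fun t => by simp [NN, pz]; ring
  rw [this]; compute_degree!

lemma NN_pos (t : ℝ) : 0 < NN.eval t := by
  have : NN.eval t = 3136 * t ^ 6 + 9633 * t ^ 4 + 9633 * t ^ 2 + 3136 := by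
    simp [NN, pz]; ring
  rw [this]; positivity

lemma deg_quot (R : ℝ[X]) (d : ℕ) (h : (NN * R).natDegree ≤ d + 6) : R.natDegree ≤ d := by
  by_cases hR : R = 0
  · simp [hR]
  · have hN : NN ≠ 0 := by intro h0; have := NN_deg; rw [h0] at this; simp at this
    rw [natDegree_mul hN hR, NN_deg] at h; omega

lemma pt_I : pt2 1 I = fun i => (-225 : ℂ) * (![0, 0, 1] : Fin (2 + 1) → ℂ) i := by
  funext i
  fin_cases i <;> simp [pt2]
  norm_num

lemma pt_Q : pt2 1 Q0 = fun i => (-(κ : ℂ)) * pt2 1 P0 i := by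
  funext i
  have h4 : I ^ 4 = 1 := I_pow_four
  fin_cases i <;> simp [pt2, P0, Q0, κ, mul_pow] <;> ring_nf

lemma Im.deg {j g} (a : Im j g) : g.natDegree ≤ 4 * j := by
  obtain ⟨G, h1, rfl⟩ := a
  have := MvPolynomial.aeval_natDegree_le (m := j) (n := 4) G h1.totalDegree_le ![px, py, pz]
    (fun i => by
      fin_cases i
      · show px.natDegree ≤ 4; unfold px; compute_degree
      · show py.natDegree ≤ 4; unfold py; compute_degree; norm_num
      · show pz.natDegree ≤ 4; unfold pz; compute_degree)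
  rw [mul_comm] at this; exact this

lemma Im.glue {j g} (a : Im j g) : aeval Q0 g = (-(κ : ℂ)) ^ j * aeval P0 g := by
  obtain ⟨G, h1, rfl⟩ := a
  rw [ev, ev, pt_Q, homog_smul G j h1]

lemma im_of_W (j : ℕ) (g : ℝ[X]) (hd : g.natDegree ≤ 4 * (j + 2)) (h1 : (aeval I g).im = 0)
    (h2 : aeval Q0 g = (-(κ : ℂ)) ^ (j + 2) * aeval P0 g) : Im (j + 2) g := by
  have xP : aeval P0 px = ((-1695 / 2401 : ℝ) : ℂ) := by
    simp [px, P0, mul_pow]; norm_num
  have yP : aeval P0 py = ((-120 / 343 : ℝ) : ℂ) * I := by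
    simp [py, P0, mul_pow]; ring
  have zP : aeval P0 pz = 0 := by
    simp [pz, P0, mul_pow]; norm_num
  have xI : aeval I px = 0 := by simp [px]
  have yI : aeval I py = 0 := by simp [py]
  have zI : aeval I pz = ((-225 : ℝ) : ℂ) := by simp [pz]; norm_num
  set u : ℝ := (-1695 / 2401 : ℝ) with hu
  have hu0 : u ≠ 0 := by rw [hu]; norm_num
  set a : ℝ := (aeval P0 g).re / u ^ (j + 2)
  set b : ℝ := (aeval P0 g).im / (u ^ (j + 1) * (-120 / 343))
  set c : ℝ := (aeval I g).re / (-225) ^ (j + 2)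
  have hA : Im (j + 2) (C a * px ^ (j + 2) + C b * (px ^ (j + 1) * py) + C c * pz ^ (j + 2)) :=
    ((((im_x.pow (j + 2)).smul a).cast (by ring)).add
      ((((im_x.pow (j + 1)).mul im_y).smul b).cast (by ring))).add
      (((im_z.pow (j + 2)).smul c).cast (by ring))
  set A := C a * px ^ (j + 2) + C b * (px ^ (j + 1) * py) + C c * pz ^ (j + 2) with hAdef
  have eP : aeval P0 A = aeval P0 g := by
    simp only [hAdef, map_add, map_mul, map_pow, aeval_C, xP, yP, zP]
    have e1 : (a : ℂ) * (u : ℂ) ^ (j + 2) = ((aeval P0 g).re : ℂ) := by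
      rw [← ofReal_pow, ← ofReal_mul]; congr 1; simp only [a]; field_simp
    have e2 : (b : ℂ) * ((u : ℂ) ^ (j + 1) * ((-120 / 343 : ℝ) : ℂ)) = ((aeval P0 g).im : ℂ) := by
      rw [← ofReal_pow, ← ofReal_mul, ← ofReal_mul]; congr 1; simp only [b]; field_simp
    have e3 := re_add_im (aeval P0 g)
    simp only [coe_algebraMap, zero_pow (Nat.succ_ne_zero _), mul_zero, add_zero]
    rw [e1]; linear_combination e3 + I * e2
  have eI : aeval I A = aeval I g := by
    simp only [hAdef, map_add, map_mul, map_pow, aeval_C, xI, yI, zI]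
    have e1 : (c : ℂ) * ((-225 : ℝ) : ℂ) ^ (j + 2) = ((aeval I g).re : ℂ) := by
      rw [← ofReal_pow, ← ofReal_mul]; congr 1; simp only [c]; field_simp
    have e3 := re_add_im (aeval I g)
    rw [h1] at e3
    simp only [coe_algebraMap, zero_pow (Nat.succ_ne_zero _), mul_zero, add_zero, zero_add]
    rw [e1]; simpa using e3
  obtain ⟨R, hR⟩ := NN_dvd (g - A) (by rw [map_sub, eI, sub_self]) (by rw [map_sub, eP, sub_self])
    (by rw [map_sub, hA.glue, h2, eP, sub_self])
  have hRd : R.natDegree ≤ 4 * j + 2 := by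
    apply deg_quot
    rw [← hR]
    refine (natDegree_sub_le _ _).trans (max_le (by omega) (hA.deg.trans (by omega)))
  refine (hA.add (imN j R hRd)).congr ?_
  rw [← hR]; ring

end Pool.Agent.H5.Stub
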