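import Pool.Agent.H5.Stub3

namespace Pool.Agent.H5.Stub
open Polynomial Complex ComplexConjugate

lemma aeval_quad (w z : ℂ) : aeval w (quad z) = (w - z) * (w - conj z) := by
  have h1 : z = z.re + z.im * I := (re_add_im z).symm
  have h2 : conj z = z.re - z.im * I := by apply Complex.ext <;> simp
  simp only [quad, map_add, map_pow, map_sub, aeval_X, aeval_C, coe_algebraMap]
  rw [h2]
  nth_rewrite 3 [h1]
  linear_combination (z.im : ℂ) ^ 2 * I_sq

lemma norm_le_of (a b : ℂ) (h : a.re ^ 2 + a.im ^ 2 ≤ b.re ^ 2 + b.im ^ 2) : ‖a‖ ≤ ‖b‖ := by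
  rw [← sq_le_sq₀ (norm_nonneg _) (norm_nonneg _), Complex.sq_norm, Complex.sq_norm,
    normSq_apply, normSq_apply]
  nlinarith

lemma norm_lt_of (a b : ℂ) (h : a.re ^ 2 + a.im ^ 2 < b.re ^ 2 + b.im ^ 2) : ‖a‖ < ‖b‖ := by
  rw [← sq_lt_sq₀ (norm_nonneg _) (norm_nonneg _), Complex.sq_norm, Complex.sq_norm,
    normSq_apply, normSq_apply]
  nlinarith

lemma ratio (l : List ℝ) :
    ‖(l.map fun r : ℝ => Q0 - r).prod - (7 / 8) ^ l.length * (l.map fun r : ℝ => P0 - r).prod‖ ≤
      (1 - (7 / 8) ^ l.length) * ‖(l.map fun r : ℝ => P0 - r).prod‖ := by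
  induction l with
  | nil => simp
  | cons r l ih =>
    simp only [List.map_cons, List.prod_cons, List.length_cons]
    set A := (l.map fun r : ℝ => Q0 - r).prod
    set B := (l.map fun r : ℝ => P0 - r).prod
    set n := l.length
    have h1 : ‖Q0 - r‖ ≤ ‖P0 - r‖ := norm_le_of _ _ (by simp [P0, Q0]; norm_num)
    have h2 : ‖8 * (Q0 - r - 7 / 8 * (P0 - r))‖ ≤ ‖P0 - r‖ := by
      have : 8 * (Q0 - r - 7 / 8 * (P0 - r)) = -I - r := by rw [P0, Q0]; ring
      rw [this]
      exact norm_le_of _ _ (by simp [P0]; norm_num)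
    rw [norm_mul] at h2
    have h8 : ‖(8 : ℂ)‖ = 8 := by simp
    rw [h8] at h2
    have e : (Q0 - r) * A - (7 / 8) ^ (n + 1) * ((P0 - r) * B) =
        (A - (7 / 8) ^ n * B) * (Q0 - r) + (7 / 8) ^ n * B * (Q0 - r - 7 / 8 * (P0 - r)) := by ring
    rw [e]
    refine (norm_add_le _ _).trans ?_
    rw [norm_mul, norm_mul, norm_mul, norm_mul, norm_pow]
    have h78 : ‖(7 / 8 : ℂ)‖ = 7 / 8 := by simp
    rw [h78]
    have hμ : (0 : ℝ) ≤ (7 / 8) ^ n := by positivity
    have hμ1 : (7 / 8 : ℝ) ^ n ≤ 1 := pow_le_one₀ (by norm_num) (by norm_num)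
    have a1 : ‖A - (7 / 8) ^ n * B‖ * ‖Q0 - r‖ ≤ (1 - (7 / 8) ^ n) * ‖B‖ * ‖P0 - r‖ :=
      mul_le_mul ih h1 (norm_nonneg _) (mul_nonneg (by linarith) (norm_nonneg _))
    have a2 : (7 / 8) ^ n * ‖B‖ * ‖Q0 - r - 7 / 8 * (P0 - r)‖ ≤
        (7 / 8) ^ n * ‖B‖ * (‖P0 - r‖ / 8) :=
      mul_le_mul_of_nonneg_left (by linarith) (by positivity)
    rw [pow_succ]
    nlinarith

lemma aeval_lin (w : ℂ) (l : List ℝ) :
    aeval w (l.map fun a : ℝ => X - C a).prod = (l.map fun r : ℝ => w - r).prod := by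
  induction l with
  | nil => simp
  | cons a l ih => simp only [List.map_cons, List.prod_cons, map_mul, ih]; simp

lemma lin_deg (l : List ℝ) : (l.map fun a : ℝ => X - C a).prod.natDegree ≤ l.length := by
  induction l with
  | nil => simp
  | cons a l ih =>
    simp only [List.map_cons, List.prod_cons, List.length_cons]
    exact natDegree_mul_le.trans (by rw [natDegree_X_sub_C]; omega)

lemma caseReal (f : ℝ[X]) (hf : Im 4 f) (s : ℝ) (hs : 0 ≤ s) (hI : aeval I f = s) (c : ℝ)
    (l : List ℂ) (hc : c ≠ 0) (hl : ∀ z ∈ l, z.im = 0) (h : f = C (c ^ 2) * (l.map quad).prod) :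
    ∃ g, Im 2 g ∧ f = g ^ 2 := by
  have hlen : l.length ≤ 8 := by have := hf.deg; rw [h, fac_len hc] at this; omega
  set l' : List ℝ := l.map (fun z => z.re) with hl'
  have hlen' : l'.length ≤ 8 := by simpa [hl'] using hlen
  have e : (l.map quad).prod = (l'.map fun a : ℝ => X - C a).prod ^ 2 := by
    rw [hl']
    clear h hlen hlen' hl' l'
    induction l with
    | nil => simp
    | cons z l ih =>
      simp only [List.map_cons, List.prod_cons]
      rw [ih (fun w hw => hl w (List.mem_cons_of_mem _ hw)), quad, hl z List.mem_cons_self]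
      simp; ring
  set g := C c * (l'.map fun a : ℝ => X - C a).prod with hg
  have hfg : f = g ^ 2 := by rw [h, e, hg, map_pow]; ring
  refine ⟨g, im_of_W 0 g ?_ ?_ ?_, hfg⟩
  · exact (natDegree_C_mul_le _ _).trans ((lin_deg l').trans (by omega))
  · rw [hfg, map_pow] at hI
    have h1 := congrArg Complex.re hI
    have h2 := congrArg Complex.im hI
    simp [pow_two] at h1 h2
    by_contra hne
    have h3 : (aeval I g).re = 0 := by
      have : (aeval I g).re * (aeval I g).im = 0 := by linarith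
      exact (mul_eq_zero.1 this).resolve_right hne
    rw [h3] at h1
    have := mul_self_pos.2 hne
    linarith
  · have h1 := hf.glue
    rw [hfg, map_pow, map_pow] at h1
    have h2 : (aeval Q0 g - (-(κ : ℂ)) ^ (0 + 2) * aeval P0 g) *
        (aeval Q0 g + (-(κ : ℂ)) ^ (0 + 2) * aeval P0 g) = 0 := by linear_combination h1
    rcases mul_eq_zero.1 h2 with h3 | h3
    · linear_combination h3
    · exfalso
      have hr := ratio l'
      simp only [hg, map_mul, aeval_C, aeval_lin, coe_algebraMap] at h3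
      set A := (l'.map fun r : ℝ => Q0 - r).prod
      set B := (l'.map fun r : ℝ => P0 - r).prod with hB
      have hB0 : B ≠ 0 := by
        rw [hB]
        apply List.prod_ne_zero
        simp only [List.mem_map, not_exists, not_and]
        intro r _ h0
        have := congrArg Complex.im h0
        simp [P0] at this
      have hc' : (c : ℂ) ≠ 0 := by exact_mod_cast hc
      have hA : A = -(7 / 8) ^ 8 * B := by
        apply mul_left_cancel₀ hc'
        have : (κ : ℂ) = (7 / 8) ^ 4 := by simp [κ]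
        rw [this] at h3
        linear_combination h3
      have e2 : A - (7 / 8) ^ l'.length * B =
          -((((7 / 8 : ℝ) ^ 8 + (7 / 8) ^ l'.length : ℝ) : ℂ) * B) := by
        rw [hA]; push_cast; ring
      rw [e2, norm_neg, norm_mul, Complex.norm_real, Real.norm_of_nonneg (by positivity)] at hr
      have h4 := le_of_mul_le_mul_right hr (norm_pos_iff.2 hB0)
      have h5 : (7 / 8 : ℝ) ^ 8 ≤ (7 / 8) ^ l'.length :=
        pow_le_pow_of_le_one (by norm_num) (by norm_num) hlen'
      norm_num at h4 h5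
      linarith

noncomputable def reP (M : ℂ[X]) : ℝ[X] :=
  ∑ i ∈ Finset.range (M.natDegree + 1), monomial i (2 * (M.coeff i).re)

lemma reP_deg (M : ℂ[X]) : (reP M).natDegree ≤ M.natDegree := by
  apply natDegree_sum_le_of_forall_le
  intro i hi
  exact (natDegree_monomial_le _).trans (by simp at hi; omega)

lemma reP_eval (M : ℂ[X]) (w : ℂ) : aeval w (reP M) = M.eval w + conj (M.eval (conj w)) := by
  rw [eval_eq_sum_range, eval_eq_sum_range, map_sum, reP, map_sum, ← Finset.sum_add_distrib]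
  apply Finset.sum_congr rfl
  intro i _
  simp only [aeval_monomial, map_mul, map_pow, conj_conj, coe_algebraMap]
  rw [← add_mul, Complex.add_conj]; push_cast; ring

end Pool.Agent.H5.Stub
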