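import Pool.Agent.H5.Stub4

namespace Pool.Agent.H5.Stub
open Polynomial Complex ComplexConjugate Filter

noncomputable def AA (c : ℝ) (l : List ℂ) (w : ℂ) : ℂ := c * (l.map fun z => w - z).prod
noncomputable def Ab (c : ℝ) (l : List ℂ) (w : ℂ) : ℂ := c * (l.map fun z => w - conj z).prod

lemma aeval_fac (c : ℝ) (l : List ℂ) (w : ℂ) :
    aeval w (C (c ^ 2) * (l.map quad).prod) = AA c l w * Ab c l w := by
  have : aeval w (l.map quad).prod =
      (l.map fun z => w - z).prod * (l.map fun z => w - conj z).prod := by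
    induction l with
    | nil => simp
    | cons a l ih => simp only [List.map_cons, List.prod_cons, map_mul, ih, aeval_quad]; ring
  rw [map_mul, this, AA, Ab]; simp; ring

lemma Ab_le (c : ℝ) (l : List ℂ) (hl : ∀ z ∈ l, z.im ≤ 0) (w : ℂ) (hw : 0 < w.im) :
    ‖Ab c l w‖ ≤ ‖AA c l w‖ := by
  rw [AA, Ab, norm_mul, norm_mul]
  apply mul_le_mul_of_nonneg_left _ (norm_nonneg _)
  induction l with
  | nil => simp
  | cons a l ih =>
    simp only [List.map_cons, List.prod_cons, norm_mul]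
    refine mul_le_mul (norm_le_of _ _ ?_) (ih fun z hz => hl z (List.mem_cons_of_mem _ hz))
      (norm_nonneg _) (norm_nonneg _)
    have := hl a List.mem_cons_self
    simp; nlinarith

lemma AA_ne (c : ℝ) (hc : c ≠ 0) (l : List ℂ) (hl : ∀ z ∈ l, z.im ≤ 0) (w : ℂ) (hw : 0 < w.im) :
    AA c l w ≠ 0 := by
  refine mul_ne_zero (by exact_mod_cast hc) (List.prod_ne_zero ?_)
  simp only [List.mem_map, not_exists, not_and]
  intro z hz h0
  have := congrArg Complex.im h0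
  have := hl z hz
  simp at *; linarith

lemma Ab_real (c : ℝ) (l : List ℂ) (t : ℝ) : Ab c l t = conj (AA c l t) := by
  rw [AA, Ab, map_mul, conj_ofReal]
  congr 1
  induction l with
  | nil => simp
  | cons a l ih => simp only [List.map_cons, List.prod_cons, map_mul, ih]; simp

noncomputable def Lc (c : ℝ) (l : List ℂ) : ℂ[X] := C (c : ℂ) * (l.map fun z => X - C z).prod

lemma Lc_eval (c : ℝ) (l : List ℂ) (w : ℂ) : (Lc c l).eval w = AA c l w := by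
  rw [Lc, AA, eval_mul, eval_C]
  congr 1
  induction l with
  | nil => simp
  | cons a l ih => simp only [List.map_cons, List.prod_cons, eval_mul, ih]; simp

lemma Lc_deg (c : ℝ) (l : List ℂ) : (Lc c l).natDegree ≤ l.length := by
  refine (natDegree_C_mul_le _ _).trans ?_
  induction l with
  | nil => simp
  | cons a l ih =>
    simp only [List.map_cons, List.prod_cons, List.length_cons]
    exact natDegree_mul_le.trans (by rw [natDegree_X_sub_C]; omega)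

lemma real_eval (g : ℝ[X]) (t : ℝ) : aeval (t : ℂ) g = ((g.eval t : ℝ) : ℂ) := by
  have h2 : aeval (algebraMap ℝ ℂ t) g = algebraMap ℝ ℂ (g.eval t) := by
    rw [aeval_algebraMap_apply]; simp
  simpa using h2

lemma u_lt (A B β w ζ : ℂ) (hA : A ≠ 0) (hB : ‖B‖ ≤ ‖A‖) (hw : 0 < w.im) (hζ : ζ.im < 0)
    (h : β ^ 2 = A * B * ((w - ζ) * (w - conj ζ))) : ‖β / (A * (w - ζ))‖ < 1 := by
  have h1 : ‖w - conj ζ‖ < ‖w - ζ‖ := norm_lt_of _ _ (by simp; nlinarith)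
  have h2 : 0 < ‖w - ζ‖ := lt_of_le_of_lt (norm_nonneg _) h1
  have h3 : 0 < ‖A‖ := norm_pos_iff.2 hA
  rw [norm_div, div_lt_one (by rw [norm_mul]; positivity), ← sq_lt_sq₀ (norm_nonneg _)
    (norm_nonneg _), ← norm_pow, h]
  simp only [norm_mul]
  have a1 : ‖B‖ * ‖w - conj ζ‖ ≤ ‖A‖ * ‖w - conj ζ‖ :=
    mul_le_mul_of_nonneg_right hB (norm_nonneg _)
  have a2 : ‖A‖ * ‖w - conj ζ‖ < ‖A‖ * ‖w - ζ‖ := mul_lt_mul_of_pos_left h1 h3
  have a3 : ‖A‖ * ‖w - ζ‖ * (‖B‖ * ‖w - conj ζ‖) < ‖A‖ * ‖w - ζ‖ * (‖A‖ * ‖w - ζ‖) :=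
    mul_lt_mul_of_pos_left (lt_of_le_of_lt a1 a2) (by positivity)
  nlinarith

lemma tend (u K : ℂ) (hu : ‖u‖ < 1) :
    Tendsto (fun k : ℕ => ‖u ^ (2 * k + 5) * K‖) atTop (nhds 0) := by
  have h1 : Tendsto (fun k : ℕ => (‖u‖ ^ 2) ^ k) atTop (nhds 0) :=
    tendsto_pow_atTop_nhds_zero_of_lt_one (by positivity) (by nlinarith [norm_nonneg u])
  have h2 := h1.mul_const (‖u‖ ^ 5 * ‖K‖)
  rw [zero_mul] at h2
  refine h2.congr fun k => ?_
  rw [norm_mul, norm_pow, ← pow_mul]; ring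

lemma val_lem (A β d n D : ℂ) (k : ℕ) (hA : A ≠ 0) (hd : d ≠ 0) (hn : n ≠ 0) (hD : D ≠ 0) :
    A ^ (2 * k + 5) * d ^ (2 * k) * n * ((β / (A * d)) ^ (2 * k + 5) * (d ^ 5 / (n * D)) * D) =
      β ^ (2 * k + 5) := by
  rw [div_pow, mul_pow, pow_add d]
  field_simp

lemma near (ζ a : ℂ) (hζ : ζ.im < 0) (ha : ‖a‖ ≤ 2) (t : ℝ) :
    ‖t - a‖ ≤ (1 + (‖ζ‖ + 2) / (-ζ.im)) * ‖t - ζ‖ := by
  have h1 : -ζ.im ≤ ‖t - ζ‖ := by
    have := Complex.abs_im_le_norm (t - ζ)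
    simp at this
    linarith [neg_abs_le ζ.im, neg_le_abs ζ.im]
  have h2 : ‖t - a‖ ≤ ‖t - ζ‖ + (‖ζ‖ + 2) := by
    have : (t : ℂ) - a = (t - ζ) + (ζ - a) := by ring
    rw [this]
    refine (norm_add_le _ _).trans ?_
    linarith [norm_sub_le ζ a]
  have h3 : ‖ζ‖ + 2 ≤ (‖ζ‖ + 2) / (-ζ.im) * ‖t - ζ‖ := by
    rw [div_mul_eq_mul_div, le_div_iff₀ (by linarith)]
    exact mul_le_mul_of_nonneg_left h1 (by positivity)
  linarith

lemma caseCx (f : ℝ[X]) (c : ℝ) (l : List ℂ) (ζ : ℂ) (hc : c ≠ 0) (hl : ∀ z ∈ l, z.im ≤ 0)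
    (hζ : ζ.im < 0) (hlen : l.length + 1 ≤ 8) (h : f = C (c ^ 2) * (l.map quad).prod * quad ζ)
    (b1 b2 b3 : ℂ) (h1 : b1 ^ 2 = aeval I f) (h2 : b2 ^ 2 = aeval P0 f)
    (h3 : b3 ^ 2 = aeval Q0 f) :
    ∃ (k : ℕ) (g : ℝ[X]), g.natDegree ≤ 8 * (2 * k + 5) ∧ aeval I g = b1 ^ (2 * k + 5) ∧
      aeval P0 g = b2 ^ (2 * k + 5) ∧ aeval Q0 g = b3 ^ (2 * k + 5) ∧
      ∀ t, g.eval t ^ 2 ≤ f.eval t ^ (2 * k + 5) := by
  have hf : ∀ w, aeval w f = AA c l w * Ab c l w * ((w - ζ) * (w - conj ζ)) := fun w => by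
    rw [h, map_mul, aeval_fac, aeval_quad]
  have iI : 0 < I.im := by simp
  have iP : 0 < P0.im := by simp [P0]
  have iQ : 0 < Q0.im := by simp [Q0]
  have u1 := u_lt _ _ b1 I ζ (AA_ne c hc l hl I iI) (Ab_le c l hl I iI) iI hζ (by rw [h1, hf])
  have u2 := u_lt _ _ b2 P0 ζ (AA_ne c hc l hl P0 iP) (Ab_le c l hl P0 iP) iP hζ (by rw [h2, hf])
  have u3 := u_lt _ _ b3 Q0 ζ (AA_ne c hc l hl Q0 iQ) (Ab_le c l hl Q0 iQ) iQ hζ (by rw [h3, hf])
  set nn : ℂ → ℂ := fun w => (w + I) * (w + P0) * (w + Q0) with hnn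
  set Cz : ℝ := 1 + (‖ζ‖ + 2) / (-ζ.im) with hCz
  have hCz0 : 0 < Cz := by
    have : 0 < -ζ.im := by linarith
    rw [hCz]; positivity
  have t1 := tend _ ((I - ζ) ^ 5 / (nn I * ((I - P0) * (I - Q0)))) u1
  have t2 := tend _ ((P0 - ζ) ^ 5 / (nn P0 * ((P0 - I) * (P0 - Q0)))) u2
  have t3 := tend _ ((Q0 - ζ) ^ 5 / (nn Q0 * ((Q0 - I) * (Q0 - P0)))) u3
  have t4 := (t1.add t2).add t3
  simp only [add_zero] at t4
  obtain ⟨k, hk⟩ := (t4.eventually (eventually_lt_nhds (show (0 : ℝ) < 1 / (2 * Cz ^ 5) by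
    positivity))).exists
  set e1 := (b1 / (AA c l I * (I - ζ))) ^ (2 * k + 5) *
    ((I - ζ) ^ 5 / (nn I * ((I - P0) * (I - Q0)))) with he1
  set e2 := (b2 / (AA c l P0 * (P0 - ζ))) ^ (2 * k + 5) *
    ((P0 - ζ) ^ 5 / (nn P0 * ((P0 - I) * (P0 - Q0)))) with he2
  set e3 := (b3 / (AA c l Q0 * (Q0 - ζ))) ^ (2 * k + 5) *
    ((Q0 - ζ) ^ 5 / (nn Q0 * ((Q0 - I) * (Q0 - P0)))) with he3
  set M : ℂ[X] := Lc c l ^ (2 * k + 5) * (X - C ζ) ^ (2 * k) *
    ((X + C I) * (X + C P0) * (X + C Q0)) *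
    (C e1 * ((X - C P0) * (X - C Q0)) + C e2 * ((X - C I) * (X - C Q0)) +
      C e3 * ((X - C I) * (X - C P0))) with hM
  have Mev : ∀ w, M.eval w = AA c l w ^ (2 * k + 5) * (w - ζ) ^ (2 * k) * nn w *
      (e1 * ((w - P0) * (w - Q0)) + e2 * ((w - I) * (w - Q0)) + e3 * ((w - I) * (w - P0))) := by
    intro w
    simp only [hM, eval_mul, eval_pow, eval_add, eval_sub, eval_X, eval_C, Lc_eval, hnn]
  have ne : ∀ a b : ℂ, a.im ≠ b.im → a - b ≠ 0 := fun a b hab h0 => hab (by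
    rw [sub_eq_zero.1 h0])
  have nz : ∀ w : ℂ, 0 < w.im → nn w ≠ 0 := by
    intro w hw
    have : ∀ a : ℂ, 0 < a.im → w + a ≠ 0 := fun a ha h0 => by
      have := congrArg Complex.im h0
      simp at this; linarith
    exact mul_ne_zero (mul_ne_zero (this _ iI) (this _ iP)) (this _ iQ)
  have pim : P0.im = 8 / 7 := by simp [P0]
  have qim : Q0.im = 7 / 8 := by simp [Q0]
  have cI : conj I = -I := conj_I
  have cP : conj P0 = -P0 := by
    rw [P0, map_mul, conj_I, map_div₀, map_ofNat, map_ofNat]; ring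
  have cQ : conj Q0 = -Q0 := by
    rw [Q0, map_mul, conj_I, map_div₀, map_ofNat, map_ofNat]; ring
  refine ⟨k, reP M, (reP_deg M).trans ?_, ?_, ?_, ?_, fun t => ?_⟩
  · have d1 : (Lc c l ^ (2 * k + 5)).natDegree ≤ (2 * k + 5) * 7 :=
      natDegree_pow_le.trans (Nat.mul_le_mul_left _ ((Lc_deg c l).trans (by omega)))
    have d2 : ((X - C ζ) ^ (2 * k)).natDegree ≤ 2 * k :=
      natDegree_pow_le.trans (by rw [natDegree_X_sub_C]; omega)
    have d3 : ((X + C I) * (X + C P0) * (X + C Q0)).natDegree ≤ 3 := by compute_degree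
    have d4 : (C e1 * ((X - C P0) * (X - C Q0)) + C e2 * ((X - C I) * (X - C Q0)) +
      C e3 * ((X - C I) * (X - C P0))).natDegree ≤ 2 := by compute_degree
    rw [hM]
    refine natDegree_mul_le.trans ?_
    have d5 := (natDegree_mul_le (p := Lc c l ^ (2 * k + 5) * (X - C ζ) ^ (2 * k))
      (q := (X + C I) * (X + C P0) * (X + C Q0)))
    have d6 := (natDegree_mul_le (p := Lc c l ^ (2 * k + 5)) (q := (X - C ζ) ^ (2 * k)))
    omega
  · rw [reP_eval, Mev, Mev, cI]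
    have : nn (-I) = 0 := by simp [hnn]
    rw [this]
    simp only [sub_self, zero_mul, mul_zero, add_zero, map_zero]
    exact val_lem _ _ _ _ _ k (AA_ne c hc l hl I iI) (ne _ _ (by linarith)) (nz _ iI)
      (mul_ne_zero (ne _ _ (by rw [pim]; simp; norm_num)) (ne _ _ (by rw [qim]; simp; norm_num)))
  · rw [reP_eval, Mev, Mev, cP]
    have : nn (-P0) = 0 := by simp [hnn]
    rw [this]
    simp only [sub_self, zero_mul, mul_zero, add_zero, zero_add, map_zero]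
    exact val_lem _ _ _ _ _ k (AA_ne c hc l hl P0 iP) (ne _ _ (by linarith)) (nz _ iP)
      (mul_ne_zero (ne _ _ (by rw [pim]; simp; norm_num)) (ne _ _ (by rw [qim, pim]; norm_num)))
  · rw [reP_eval, Mev, Mev, cQ]
    have : nn (-Q0) = 0 := by simp [hnn]
    rw [this]
    simp only [sub_self, zero_mul, mul_zero, add_zero, zero_add, map_zero]
    exact val_lem _ _ _ _ _ k (AA_ne c hc l hl Q0 iQ) (ne _ _ (by linarith)) (nz _ iQ)
      (mul_ne_zero (ne _ _ (by rw [qim]; simp; norm_num)) (ne _ _ (by rw [qim, pim]; norm_num)))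
  · have nI : ‖I‖ ≤ 2 := by simp
    have nP : ‖P0‖ ≤ 2 := by simp [P0]; norm_num
    have nQ : ‖Q0‖ ≤ 2 := by simp [Q0]; norm_num
    set y := Cz * ‖t - ζ‖ with hy
    have y0 : 0 ≤ y := by positivity
    have a1 : ‖t - I‖ ≤ y := near ζ I hζ nI t
    have a2 : ‖t - P0‖ ≤ y := near ζ P0 hζ nP t
    have a3 : ‖t - Q0‖ ≤ y := near ζ Q0 hζ nQ t
    have a4 : ‖t + I‖ ≤ y := by simpa using near ζ (-I) hζ (by simp) t
    have a5 : ‖t + P0‖ ≤ y := by simpa using near ζ (-P0) hζ (by simpa using nP) t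
    have a6 : ‖t + Q0‖ ≤ y := by simpa using near ζ (-Q0) hζ (by simpa using nQ) t
    have b1 : ‖nn t‖ ≤ y * y * y := by
      simp only [hnn, norm_mul]; gcongr
    have b2 : ‖e1 * ((t - P0) * (t - Q0)) + e2 * ((t - I) * (t - Q0)) +
        e3 * ((t - I) * (t - P0))‖ ≤ (‖e1‖ + ‖e2‖ + ‖e3‖) * (y * y) := by
      refine (norm_add₃_le).trans ?_
      simp only [norm_mul]
      rw [add_mul, add_mul]
      gcongr
    have b3 : ‖nn t‖ * ‖e1 * ((t - P0) * (t - Q0)) + e2 * ((t - I) * (t - Q0)) +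
        e3 * ((t - I) * (t - P0))‖ ≤ ‖t - ζ‖ ^ 5 / 2 := by
      calc _ ≤ (y * y * y) * ((‖e1‖ + ‖e2‖ + ‖e3‖) * (y * y)) := by gcongr
        _ ≤ (y * y * y) * (1 / (2 * Cz ^ 5) * (y * y)) := by gcongr
        _ = _ := by rw [hy]; field_simp
    have b4 : ‖M.eval (t : ℂ)‖ ≤ (‖AA c l t‖ * ‖t - ζ‖) ^ (2 * k + 5) / 2 := by
      rw [Mev, mul_assoc, norm_mul, norm_mul, norm_mul, norm_pow, norm_pow]
      calc _ ≤ ‖AA c l t‖ ^ (2 * k + 5) * ‖t - ζ‖ ^ (2 * k) * (‖t - ζ‖ ^ 5 / 2) := by gcongr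
        _ = _ := by rw [mul_pow]; ring
    have b5 : |(reP M).eval t| ≤ (‖AA c l t‖ * ‖t - ζ‖) ^ (2 * k + 5) := by
      have e := reP_eval M t
      rw [real_eval, conj_ofReal] at e
      rw [← Real.norm_eq_abs, ← Complex.norm_real, e]
      refine (norm_add_le _ _).trans ?_
      rw [Complex.norm_conj]; linarith
    have b6 : f.eval t = (‖AA c l t‖ * ‖t - ζ‖) ^ 2 := by
      have e := hf t
      have e' : (t : ℂ) - conj ζ = conj (t - ζ) := by simp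
      rw [real_eval, Ab_real, e', mul_conj', mul_conj'] at e
      rw [mul_pow]; exact_mod_cast e
    rw [b6, ← pow_mul, mul_comm 2, pow_mul, ← sq_abs]
    exact pow_le_pow_left₀ (abs_nonneg _) b5 2

end Pool.Agent.H5.Stub
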