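import Pool.Agent.H5.Stub5

namespace Pool.Agent.H5.Stub
open Polynomial Complex

noncomputable def F0 : MP :=
  MvPolynomial.X 2 ^ 2 - MvPolynomial.C 9833200 * MvPolynomial.X 0 ^ 2 -
    MvPolynomial.C 40760200 * MvPolynomial.X 1 ^ 2

lemma hom_CX2 (c : ℝ) (i : Fin (2 + 1)) :
    (MvPolynomial.C c * MvPolynomial.X i ^ 2 : MP).IsHomogeneous 2 := by
  simpa using (MvPolynomial.isHomogeneous_C _ c).mul
    ((MvPolynomial.isHomogeneous_X ℝ i).pow 2)

lemma hom_X2 (i : Fin (2 + 1)) : (MvPolynomial.X i ^ 2 : MP).IsHomogeneous 2 := by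
  simpa using ((MvPolynomial.isHomogeneous_X ℝ i).pow 2)

lemma Q_hom : Q.IsHomogeneous 4 :=
  (((hom_CX2 _ _).add (hom_CX2 _ _)).pow 2).sub (((hom_X2 _).add (hom_CX2 _ _)).mul (hom_X2 _))

lemma F0_hom : F0.IsHomogeneous (2 * 1) :=
  ((hom_X2 _).sub (hom_CX2 _ _)).sub (hom_CX2 _ _)

lemma F0_nonneg (p : Fin (2 + 1) → ℝ) (hp : p ∈ realCone {Q}) : 0 ≤ MvPolynomial.eval p F0 := by
  have hq := hp.2 Q rfl
  simp [Q] at hq
  simp only [F0, map_sub, map_mul, map_pow, MvPolynomial.eval_X, MvPolynomial.eval_C]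
  by_cases h : p 0 ^ 2 + 4 * p 1 ^ 2 = 0
  · have h0 : p 0 ^ 2 = 0 := by nlinarith [sq_nonneg (p 0), sq_nonneg (p 1)]
    have h1 : p 1 ^ 2 = 0 := by nlinarith [sq_nonneg (p 0), sq_nonneg (p 1)]
    rw [h0, h1]; nlinarith [sq_nonneg (p 2)]
  · have hpos : 0 < p 0 ^ 2 + 4 * p 1 ^ 2 := lt_of_le_of_ne (by positivity) (Ne.symm h)
    have e : (p 0 ^ 2 + 4 * p 1 ^ 2) * (p 2 ^ 2 - 9833200 * p 0 ^ 2 - 40760200 * p 1 ^ 2) =
        (36 * p 0 ^ 2 - 81 * p 1 ^ 2) ^ 2 := by linear_combination -hq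
    exact (mul_nonneg_iff_of_pos_left hpos).1 (by rw [e]; positivity)

noncomputable def pr : ℝ[X] := (X - C 2) * (X - C (-2)) * (X - C (1 / 2)) * (X - C (-1 / 2))

lemma pull_F0 : pull F0 = C 1296 * pr ^ 2 := by
  apply poly_eq
  intro t
  rw [evR]
  simp [F0, ptR, pr]; ring

lemma pr_pow (m : ℕ) : ∃ L : List ℝ, (L.map fun a => X - C a).prod = pr ^ m := by
  induction m with
  | zero => exact ⟨[], by simp⟩
  | succ m ih =>
    obtain ⟨L, hL⟩ := ih
    refine ⟨2 :: (-2) :: (1 / 2) :: (-1 / 2) :: L, ?_⟩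
    simp only [List.map_cons, List.prod_cons, hL, pr]; ring

lemma pr_val (w : ℂ) : aeval w pr = (w ^ 2) ^ 2 - 17 / 4 * w ^ 2 + 1 := by
  simp [pr]; ring

lemma F0_stub : Stubborn {Q} 1 F0 := by
  refine ⟨F0_hom, F0_nonneg, ?_⟩
  rintro ⟨m, hm, r, G, hG, hI⟩
  have h1 := pull_of_inI _ hI
  rw [map_sub, map_pow, map_sum, pull_F0, sub_eq_zero] at h1
  simp only [map_pow] at h1
  obtain ⟨L, hL⟩ := pr_pow m
  have h2 : ∑ i, pull (G i) ^ 2 = C (1296 ^ m) * ((L.map fun a => X - C a).prod) ^ 2 := by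
    rw [← h1, hL, mul_pow, C_pow]; ring
  have p2 : P0 ^ 2 = -(64 / 49) := by rw [P0, mul_pow, I_sq]; norm_num
  have q2 : Q0 ^ 2 = -(49 / 64) := by rw [Q0, mul_pow, I_sq]; norm_num
  have hP : aeval P0 pr ≠ 0 := by rw [pr_val, p2]; norm_num
  have hQ : aeval Q0 pr = (κ : ℂ) * aeval P0 pr := by
    rw [pr_val, pr_val, p2, q2, κ]; push_cast; norm_num
  have hκ : (κ : ℂ) ≠ 0 := by rw [κ]; push_cast; norm_num
  have h3 : ∀ i, pull (G i) = 0 := by
    intro i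
    obtain ⟨a, ha⟩ := sos_roots L (fun i => pull (G i)) _ h2 i
    have hi : Im (1 * m) (pull (G i)) := ⟨G i, hG i, rfl⟩
    have h4 := hi.glue
    rw [ha, hL, one_mul, hm.neg_pow] at h4
    simp only [map_mul, map_pow, aeval_C, hQ, mul_pow, coe_algebraMap] at h4
    have h5 : (a : ℂ) * ((κ : ℂ) ^ m * aeval P0 pr ^ m) = 0 := by linear_combination (1 / 2) * h4
    have h6 : a = 0 := by
      exact_mod_cast (mul_eq_zero.1 h5).resolve_right
        (mul_ne_zero (pow_ne_zero _ hκ) (pow_ne_zero _ hP))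
    rw [ha, h6]; simp
  have h7 := congrArg (aeval P0) h1
  simp only [h3, map_pow, map_mul, aeval_C, map_sum, map_zero] at h7
  simp at h7
  exact hP h7.1

lemma sos_of (F : MP) (hF : F.IsHomogeneous (2 * 2)) (m r : ℕ) (g : Fin r → ℝ[X])
    (hg : ∀ i, Im (2 * m) (g i)) (h : pull F ^ m = ∑ i, g i ^ 2) : IsSOS {Q} (2 * m) (F ^ m) := by
  choose G hG hG' using hg
  refine ⟨r, G, hG, inI_of_pull _ (2 * 2 * m) ((hF.pow m).sub ?_) ?_⟩
  · apply MvPolynomial.IsHomogeneous.sum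
    intro i _
    have := (hG i).pow 2
    rwa [show 2 * m * 2 = 2 * 2 * m by ring] at this
  · rw [map_sub, map_pow, map_sum, h]
    simp [hG']

lemma no_quartic (F : MP) (hF : F.IsHomogeneous (2 * 2))
    (hn : ∀ p ∈ realCone {Q}, 0 ≤ MvPolynomial.eval p F) :
    ∃ m : ℕ, Odd m ∧ IsSOS {Q} (2 * m) (F ^ m) := by
  set f := pull F with hf
  have hIm : Im 4 f := ⟨F, hF, rfl⟩
  have f0 : ∀ t, 0 ≤ f.eval t := fun t => by rw [hf, evR]; exact hn _ (ptR_mem t)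
  have hmem : (![0, 0, 1] : Fin (2 + 1) → ℝ) ∈ realCone {Q} := by
    refine ⟨fun h => ?_, ?_⟩
    · have := congrFun h 2
      simp at this
    · intro P hP
      rw [Set.mem_singleton_iff.1 hP]
      simp [Q]
  obtain ⟨s, hs, hI⟩ : ∃ s : ℝ, 0 ≤ s ∧ aeval I f = s := by
    refine ⟨(-225) ^ 4 * MvPolynomial.eval ![0, 0, 1] F, mul_nonneg (by norm_num) (hn _ hmem), ?_⟩
    rw [hf, ev, pt_I, homog_smul F 4 hF]
    have e : (![0, 0, 1] : Fin (2 + 1) → ℂ) = algebraMap ℝ ℂ ∘ (![0, 0, 1] : Fin (2 + 1) → ℝ) := by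
      funext i; fin_cases i <;> simp
    rw [e, MvPolynomial.aeval_algebraMap_apply]
    simp [MvPolynomial.aeval_eq_eval]
  obtain ⟨c, l, hl, h⟩ := fac f f0
  by_cases hc : c = 0
  · refine ⟨1, odd_one, sos_of F hF 1 0 (fun i => 0) (fun i => Im.zero _) ?_⟩
    rw [← hf, h, hc]; simp
  by_cases hr : ∀ z ∈ l, z.im = 0
  · obtain ⟨g, hg, e⟩ := caseReal f hIm s hs hI c l hc hr h
    refine ⟨1, odd_one, sos_of F hF 1 1 (fun _ => g) (fun _ => hg) ?_⟩
    rw [← hf, e]; simp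
  push Not at hr
  obtain ⟨ζ, hζl, hζ⟩ := hr
  have hζ' : ζ.im < 0 := lt_of_le_of_ne (hl ζ hζl) hζ
  obtain ⟨l1, l2, rfl⟩ := List.append_of_mem hζl
  have hlen : (l1 ++ l2).length + 1 ≤ 8 := by
    have := hIm.deg
    rw [h, fac_len hc] at this
    simp only [List.length_append, List.length_cons] at this ⊢
    omega
  obtain ⟨b2, hb2⟩ := IsAlgClosed.exists_pow_nat_eq (aeval P0 f) two_pos
  have hb1 : ((Real.sqrt s : ℝ) : ℂ) ^ 2 = aeval I f := by
    rw [hI, ← ofReal_pow, Real.sq_sqrt hs]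
  have hb3 : ((κ : ℂ) ^ 2 * b2) ^ 2 = aeval Q0 f := by
    rw [hIm.glue, ← hb2]; ring
  obtain ⟨k, g, gd, g1, g2, g3, gle⟩ := caseCx f c (l1 ++ l2) ζ hc
    (fun z hz => hl z (by
      rcases List.mem_append.1 hz with h | h
      · exact List.mem_append_left _ h
      · exact List.mem_append_right _ (List.mem_cons_of_mem _ h)))
    hζ' hlen (by rw [h]; simp only [List.map_append, List.prod_append, List.map_cons,
      List.prod_cons]; ring) _ _ _ hb1 hb2 hb3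
  have gIm : Im (4 * k + 8 + 2) g := by
    apply im_of_W _ _ (by omega)
    · rw [g1, ← ofReal_pow, ofReal_im]
    · rw [g3, g2, show 4 * k + 8 + 2 = 2 * (2 * k + 5) by ring, pow_mul, mul_pow, neg_sq]
  have uIm : Im (4 * (2 * k + 5)) (f ^ (2 * k + 5)) := hIm.pow _
  set u := f ^ (2 * k + 5) with hu
  obtain ⟨R, hR⟩ := NN_dvd (u - g ^ 2)
    (by rw [map_sub, hu, map_pow, map_pow, g1, ← hb1]; ring)
    (by rw [map_sub, hu, map_pow, map_pow, g2, ← hb2]; ring)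
    (by rw [map_sub, hu, map_pow, map_pow, g3, ← hb3]; ring)
  have g2d : (g ^ 2).natDegree ≤ 32 * k + 80 := natDegree_pow_le.trans (by omega)
  have ed : (u - g ^ 2).natDegree ≤ 32 * k + 80 :=
    (natDegree_sub_le _ _).trans (max_le (uIm.deg.trans (by omega)) g2d)
  have Rd : R.natDegree ≤ 32 * k + 74 := deg_quot _ _ (by rw [← hR]; omega)
  have e0 : ∀ t, 0 ≤ (u - g ^ 2).eval t := fun t => by
    rw [eval_sub, hu, eval_pow, eval_pow]; linarith [gle t]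
  obtain ⟨a, b, hab, ad, bd⟩ := sos2 (R ^ 2 * (C (3 / 4) * g ^ 2 + (u - g ^ 2)))
    (fun t => by
      have := e0 t
      rw [eval_mul, eval_add, eval_mul, eval_C, eval_pow, eval_pow]; positivity)
    (4 * (12 * k + 28) + 2) (by
      refine natDegree_mul_le.trans ?_
      have d1 : (R ^ 2).natDegree ≤ 2 * (32 * k + 74) :=
        natDegree_pow_le.trans (by omega)
      have d2 : (C (3 / 4 : ℝ) * g ^ 2 + (u - g ^ 2)).natDegree ≤ 32 * k + 80 :=
        (natDegree_add_le _ _).trans (max_le ((natDegree_C_mul_le _ _).trans g2d) ed)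
      omega)
  have i1 : Im (2 * (3 * (2 * k + 5))) (g * (C (3 / 2) * u + C (-1 / 2) * g ^ 2)) :=
    (gIm.mul ((uIm.smul (3 / 2)).add (((gIm.pow 2).smul (-1 / 2)).cast (by ring)))).cast (by ring)
  have i2 : Im (2 * (3 * (2 * k + 5))) (NN * a) := (imN _ a ad).cast (by ring)
  have i3 : Im (2 * (3 * (2 * k + 5))) (NN * b) := (imN _ b bd).cast (by ring)
  refine ⟨3 * (2 * k + 5), ⟨3 * k + 7, by ring⟩, sos_of F hF _ 3
    ![g * (C (3 / 2) * u + C (-1 / 2) * g ^ 2), NN * a, NN * b]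
    (fun i => by fin_cases i; exacts [i1, i2, i3]) ?_⟩
  rw [← hf, mul_comm 3, pow_mul, ← hu, Fin.sum_univ_three]
  apply poly_eq
  intro t
  have e1 := congrArg (eval t) hab
  have e2 := congrArg (eval t) hR
  simp only [Matrix.cons_val, eval_add, eval_mul, eval_pow, eval_sub, eval_C] at e1 e2 ⊢
  have e3 : u.eval t = g.eval t ^ 2 + NN.eval t * R.eval t := by linarith
  rw [e3] at e1 ⊢
  linear_combination NN.eval t ^ 2 * e1

end Pool.Agent.H5.Stub
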