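import Mathlib

namespace Pool.Agent.H5.Stub
open MvPolynomial

/-- Nonzero complex vectors over the points of `X(ℂ)`, where `X ⊆ ℙⁿ` is cut out by the real forms in `S`. -/
def cone {n : ℕ} (S : Set (MvPolynomial (Fin (n + 1)) ℝ)) : Set (Fin (n + 1) → ℂ) :=
  {p | p ≠ 0 ∧ ∀ P ∈ S, aeval p P = 0}

/-- Nonzero real vectors over the points of `X(ℝ)`. -/
def realCone {n : ℕ} (S : Set (MvPolynomial (Fin (n + 1)) ℝ)) : Set (Fin (n + 1) → ℝ) :=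
  {p | p ≠ 0 ∧ ∀ P ∈ S, eval p P = 0}

/-- `G` vanishes on `X(ℂ)`; for a form `G` this is `G ∈ I(X)`. -/
def InI {n : ℕ} (S : Set (MvPolynomial (Fin (n + 1)) ℝ)) (G : MvPolynomial (Fin (n + 1)) ℝ) : Prop :=
  ∀ p ∈ cone S, aeval p G = 0

/-- `X(ℝ)` is Zariski dense in `X(ℂ)`: a complex form vanishing on `X(ℝ)` vanishes on `X(ℂ)`. -/
def TotallyReal {n : ℕ} (S : Set (MvPolynomial (Fin (n + 1)) ℝ)) : Prop :=
  ∀ (G : MvPolynomial (Fin (n + 1)) ℂ) (e : ℕ), G.IsHomogeneous e →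
    (∀ p ∈ realCone S, eval (fun i => (p i : ℂ)) G = 0) → ∀ p ∈ cone S, eval p G = 0

/-- `F` is a sum of squares of forms of degree `k` in `ℝ[X]`. -/
def IsSOS {n : ℕ} (S : Set (MvPolynomial (Fin (n + 1)) ℝ)) (k : ℕ)
    (F : MvPolynomial (Fin (n + 1)) ℝ) : Prop :=
  ∃ (r : ℕ) (G : Fin r → MvPolynomial (Fin (n + 1)) ℝ),
    (∀ i, (G i).IsHomogeneous k) ∧ InI S (F - ∑ i, G i ^ 2)

/-- `F` is a form of degree `2k`, nonnegative on `X(ℝ)`, and no odd power of it is a sum of squares in `ℝ[X]`. -/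
def Stubborn {n : ℕ} (S : Set (MvPolynomial (Fin (n + 1)) ℝ)) (k : ℕ)
    (F : MvPolynomial (Fin (n + 1)) ℝ) : Prop :=
  F.IsHomogeneous (2 * k) ∧ (∀ p ∈ realCone S, 0 ≤ eval p F) ∧
    ¬ ∃ m : ℕ, Odd m ∧ IsSOS S (k * m) (F ^ m)

/-- `2k` is a stubborn degree of `X`. -/
def StubbornDeg {n : ℕ} (S : Set (MvPolynomial (Fin (n + 1)) ℝ)) (k : ℕ) : Prop :=
  ∃ F, Stubborn S k F

/-- The plane quartic `(3136 x² + 12769 y²)² = (x² + 4 y²) z²`. -/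
noncomputable def Q : MvPolynomial (Fin (2 + 1)) ℝ :=
  (C 3136 * X 0 ^ 2 + C 12769 * X 1 ^ 2) ^ 2 - (X 0 ^ 2 + C 4 * X 1 ^ 2) * X 2 ^ 2

end Pool.Agent.H5.Stub
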