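import Mathlib
import Pool.Agent.H5.Touch1

namespace Pool.Agent.H5.Touch

open Finset

/-- integer weights -/
def wZ (j : ℕ) : ℤ := (wN j : ℤ) - 8

/-- integer pair weights -/
def yZ (l j : ℕ) : ℤ := (yN l j : ℤ) - 512

theorem gain_eq (p : ℕ) (l : List ℕ) :
    (gain p l : ℤ) - 8 - 512 * l.length = wZ p + (l.map (yZ p)).sum := by
  induction l with
  | nil => simp [gain, wZ]
  | cons q r ih =>
    have : gain p (q :: r) = yN p q + gain p r := rfl
    rw [this, List.map_cons, List.sum_cons, List.length_cons]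
    push_cast
    simp only [yZ] at ih ⊢
    linarith

/-- value added by the chosen indices below `i` -/
def FF (x : ℕ → Bool) : ℕ → List ℕ → ℤ
  | 0, _ => 0
  | i + 1, ch => if x i then wZ i + (ch.map (yZ i)).sum + FF x i (i :: ch) else FF x i ch

theorem FF_zero (x : ℕ → Bool) (i : ℕ) (h : ∀ j < i, x j = false) (ch : List ℕ) : FF x i ch = 0 := by
  induction i with
  | zero => rfl
  | succ i ih => simp [FF, h i (by omega), ih (fun j hj => h j (by omega))]

theorem go_sound (x : ℕ → Bool) (n : ℕ)
    (hx : ∀ j < n, ∀ l < j, x j = true → x l = true → (nadj j).testBit l = true) :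
    ∀ i ≤ n, ∀ (m : ℕ) (ch : List ℕ) (cur bud : ℕ), go i m ch cur bud = true →
      (∀ j < i, x j = true → m.testBit j = true) → (cur : ℤ) + FF x i ch ≤ bud := by
  intro i
  induction i with
  | zero =>
    intro _ m ch cur bud h _
    have : cur ≤ bud := Nat.le_of_ble_eq_true h
    simp [FF, this]
  | succ i ih =>
    intro hi m ch cur bud h hm
    have e : go (i + 1) m ch cur bud = bif Nat.testBit m i then
        go i m ch cur bud && force (m &&& nadj i) fun m' => force (cur + gain i ch) fun c' =>
          force (bud + 8 + 512 * ch.length) fun b' =>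
            bif Nat.beq m' 0 then Nat.ble c' b' else go i m' (i :: ch) c' b'
      else go i m ch cur bud := rfl
    rw [e] at h
    simp only [force_eq] at h
    have hm' : ∀ j < i, x j = true → m.testBit j = true := fun j hj => hm j (by omega)
    by_cases hxi : x i = true
    · rw [hm i (by omega) hxi, cond_true, Bool.and_eq_true] at h
      have hm2 : ∀ j < i, x j = true → (m &&& nadj i).testBit j = true := by
        intro j hj hxj
        rw [Nat.testBit_and, hm' j hj hxj, hx i (by omega) j hj hxi hxj]; rfl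
      have g := gain_eq i ch
      have key : ((cur + gain i ch : ℕ) : ℤ) + FF x i (i :: ch)
          ≤ ((bud + 8 + 512 * ch.length : ℕ) : ℤ) := by
        by_cases h0 : m &&& nadj i = 0
        · have h2 := h.2
          rw [h0] at h2 hm2
          have : cur + gain i ch ≤ bud + 8 + 512 * ch.length := Nat.le_of_ble_eq_true h2
          rw [FF_zero x i (fun j hj => by
            by_contra hc
            simpa using hm2 j hj (by simpa using hc))]
          omega
        · have h2 := h.2
          have hb : Nat.beq (m &&& nadj i) 0 = false := by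
            cases hb : Nat.beq (m &&& nadj i) 0
            · rfl
            · exact absurd (Nat.eq_of_beq_eq_true hb) h0
          rw [hb] at h2
          exact ih (by omega) _ _ _ _ h2 hm2
      simp only [FF, hxi, if_true]
      push_cast at key
      linarith
    · have h1 : go i m ch cur bud = true := by
        cases hb : Nat.testBit m i
        · simpa [hb] using h
        · rw [hb, cond_true, Bool.and_eq_true] at h; exact h.1
      simp only [FF, hxi]
      exact ih (by omega) _ _ _ _ h1 hm'

/-- indicator -/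
def ind (b : Bool) : ℤ := if b then 1 else 0

theorem FF_eq (x : ℕ → Bool) (i : ℕ) (ch : List ℕ) :
    FF x i ch = ∑ j ∈ range i, ind (x j) * (wZ j + (ch.map (yZ j)).sum)
      + ∑ j ∈ range i, ∑ l ∈ range j, ind (x j && x l) * yZ l j := by
  induction i generalizing ch with
  | zero => simp [FF]
  | succ i ih =>
    rw [sum_range_succ, sum_range_succ]
    by_cases h : x i = true
    · simp only [FF, h, if_true, ih, List.map_cons, List.sum_cons, Bool.true_and, mul_add,
        sum_add_distrib]
      simp only [ind, if_true]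
      ring
    · have h' : x i = false := by simpa using h
      simp [FF, h', ih, ind]

theorem local_bound (x : ℕ → Bool)
    (hx : ∀ j < 33, ∀ l < j, x j = true → x l = true → (nadj j).testBit l = true) :
    ∑ j ∈ range 33, ind (x j) * wZ j
      + ∑ j ∈ range 33, ∑ l ∈ range j, ind (x j && x l) * yZ l j ≤ 2488 := by
  have := go_sound x 33 hx 33 le_rfl _ _ _ _ go_ok (fun j hj _ => by
    have : (8589934591 : ℕ) = 2 ^ 33 - 1 := by norm_num
    rw [this, Nat.testBit_two_pow_sub_one]; simpa using hj)
  rw [FF_eq] at this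
  simpa using this

/-- boundary of the octagon -/
def Sd (a b : ℤ) : Prop :=
  |a| ≤ 4 ∧ |b| ≤ 4 ∧ |a + b| ≤ 6 ∧ |a - b| ≤ 6 ∧ (|a| = 4 ∨ |b| = 4 ∨ |a + b| = 6 ∨ |a - b| = 6)

instance (a b : ℤ) : Decidable (Sd a b) := by unfold Sd; infer_instance

theorem adj_ok : ∀ j < 33, ∀ l < j, (nadj j).testBit l = true ∨
    Sd ((px j : ℤ) - px l) ((py j : ℤ) - py l) := by decide +kernel

theorem p_le : ∀ j < 33, px j ≤ 8 ∧ py j ≤ 8 := by decide +kernel

/-- code of a difference -/
def cd (j l : ℕ) : ℕ := 17 * (px j + 8 - px l) + (py j + 8 - py l)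

theorem w_sum : ∑ j ∈ range 33, wZ j = 10002 := by decide +kernel

theorem y_ok : ∀ e < 289, 0 ≤ ∑ j ∈ range 33, ∑ l ∈ range j, if cd j l = e then yZ l j else 0 := by
  decide +kernel

theorem density (L : ℕ) (I : Finset (ℤ × ℤ))
    (hI : ∀ u ∈ I, 0 ≤ u.1 ∧ u.1 < L ∧ 0 ≤ u.2 ∧ u.2 < L)
    (hind : ∀ u ∈ I, ∀ v ∈ I, ¬ Sd (u.1 - v.1) (u.2 - v.2)) :
    10002 * I.card ≤ 2488 * (L + 8) ^ 2 := by
  classical
  let P : ℕ → ℤ × ℤ := fun j => ((px j : ℤ), (py j : ℤ))
  let B : Finset (ℤ × ℤ) := Ico (-8 : ℤ) L ×ˢ Ico (-8 : ℤ) L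
  have cB : B.card = (L + 8) ^ 2 := by
    have : ((L : ℤ) - -8).toNat = L + 8 := by omega
    simp only [B, card_product, Int.card_Ico, this, sq]
  have mB : ∀ j < 33, ∀ u ∈ I, u - P j ∈ B := by
    intro j hj u hu
    have := hI u hu
    have := p_le j hj
    simp only [B, P, mem_product, mem_Ico, Prod.fst_sub, Prod.snd_sub]
    omega
  let N : ℕ → ℕ := fun e => (I.filter fun u => u + (((e / 17 : ℕ) : ℤ) - 8, ((e % 17 : ℕ) : ℤ) - 8) ∈ I).card
  have s1 : ∀ j < 33, ∑ t ∈ B, ind (decide (t + P j ∈ I)) = I.card := by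
    intro j hj
    simp only [ind, decide_eq_true_eq, sum_boole, Nat.cast_inj]
    refine card_bij (fun t _ => t + P j) ?_ ?_ ?_
    · intro t ht; exact (mem_filter.mp ht).2
    · intro a _ b _ h; exact add_right_cancel h
    · intro u hu
      exact ⟨u - P j, mem_filter.mpr ⟨mB j hj u hu, by simpa using hu⟩, by simp⟩
  have s2 : ∀ j < 33, ∀ l < j, ∑ t ∈ B, ind (decide (t + P j ∈ I) && decide (t + P l ∈ I))
      = N (cd j l) := by
    intro j hj l hl
    have e : ((((cd j l) / 17 : ℕ) : ℤ) - 8, (((cd j l) % 17 : ℕ) : ℤ) - 8) = P j - P l := by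
      have := p_le j hj
      have := p_le l (by omega)
      simp only [P, cd, Prod.mk_sub_mk, Prod.mk.injEq]
      omega
    simp only [ind, Bool.and_eq_true, decide_eq_true_eq, sum_boole, Nat.cast_inj, N, e]
    refine card_bij (fun t _ => t + P l) ?_ ?_ ?_
    · intro t ht
      have := (mem_filter.mp ht).2
      refine mem_filter.mpr ⟨this.2, ?_⟩
      have e2 : t + P l + (P j - P l) = t + P j := by abel
      rw [e2]; exact this.1
    · intro a _ b _ h; exact add_right_cancel h
    · intro u hu
      have hu' := mem_filter.mp hu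
      refine ⟨u - P l, mem_filter.mpr ⟨mB l (by omega) u hu'.1, ?_, by simpa using hu'.1⟩, by simp⟩
      have e2 : u - P l + P j = u + (P j - P l) := by abel
      rw [e2]; exact hu'.2
  have loc : ∀ t ∈ B, ∑ j ∈ range 33, ind (decide (t + P j ∈ I)) * wZ j
      + ∑ j ∈ range 33, ∑ l ∈ range j, ind (decide (t + P j ∈ I) && decide (t + P l ∈ I)) * yZ l j
        ≤ 2488 := by
    intro t _
    refine local_bound (fun j => decide (t + P j ∈ I)) ?_
    intro j hj l hl h1 h2
    refine (adj_ok j hj l hl).resolve_right fun hS => ?_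
    have := hind _ (of_decide_eq_true h1) _ (of_decide_eq_true h2)
    apply this
    simpa [P] using hS
  have tot := sum_le_card_nsmul B _ _ loc
  rw [sum_add_distrib, sum_comm, cB] at tot
  have a1 : ∑ j ∈ range 33, ∑ t ∈ B, ind (decide (t + P j ∈ I)) * wZ j = I.card * 10002 := by
    rw [← w_sum, mul_sum]
    refine sum_congr rfl fun j hj => ?_
    rw [← sum_mul, s1 j (mem_range.mp hj)]
  have a2 : ∑ t ∈ B, ∑ j ∈ range 33, ∑ l ∈ range j,
      ind (decide (t + P j ∈ I) && decide (t + P l ∈ I)) * yZ l j
      = ∑ e ∈ range 289, (N e : ℤ) *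
        ∑ j ∈ range 33, ∑ l ∈ range j, if cd j l = e then yZ l j else 0 := by
    rw [sum_comm]
    simp only [mul_sum]
    rw [sum_comm (s := range 289)]
    refine sum_congr rfl fun j hj => ?_
    rw [sum_comm, sum_comm (s := range 289)]
    refine sum_congr rfl fun l hl => ?_
    rw [← sum_mul, s2 j (mem_range.mp hj) l (mem_range.mp hl)]
    have hc : cd j l ∈ range 289 := by
      have := p_le j (mem_range.mp hj)
      simp only [cd, mem_range]
      omega
    simp only [mul_ite, mul_zero]
    rw [sum_ite_eq, if_pos hc]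
  have a3 : 0 ≤ ∑ e ∈ range 289, (N e : ℤ) *
      ∑ j ∈ range 33, ∑ l ∈ range j, if cd j l = e then yZ l j else 0 :=
    sum_nonneg fun e he => mul_nonneg (Int.natCast_nonneg _) (y_ok e (mem_range.mp he))
  rw [a1, a2] at tot
  simp only [nsmul_eq_mul] at tot
  have : (10002 : ℤ) * I.card ≤ 2488 * ((L + 8) ^ 2 : ℕ) := by linarith
  exact_mod_cast this

end Pool.Agent.H5.Touch
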