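import Mathlib
import Pool.Agent.H5.Touch2

namespace Pool.Agent.H5.Touch

open Finset

/-- the plane -/
abbrev E2 : Type := EuclideanSpace ℝ (Fin 2)

/-- the octagon -/
def Oct : Set E2 := {p | |p 0| ≤ 4 ∧ |p 1| ≤ 4 ∧ |p 0 + p 1| ≤ 6 ∧ |p 0 - p 1| ≤ 6}

theorem oct_convex : Convex ℝ Oct := by
  intro x hx y hy a b ha hb hab
  simp only [Oct, Set.mem_ofPred_eq, abs_le, PiLp.add_apply, PiLp.smul_apply, smul_eq_mul] at *
  obtain ⟨⟨h1, h2⟩, ⟨h3, h4⟩, ⟨h5, h6⟩, h7, h8⟩ := hx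
  obtain ⟨⟨g1, g2⟩, ⟨g3, g4⟩, ⟨g5, g6⟩, g7, g8⟩ := hy
  refine ⟨⟨?_, ?_⟩, ⟨?_, ?_⟩, ⟨?_, ?_⟩, ?_, ?_⟩ <;> nlinarith

theorem oct_compact : IsCompact Oct := by
  refine Metric.isCompact_of_isClosed_isBounded ?_ ?_
  · have : Oct = {p : E2 | |p 0| ≤ 4} ∩ ({p : E2 | |p 1| ≤ 4} ∩ ({p : E2 | |p 0 + p 1| ≤ 6} ∩
        {p : E2 | |p 0 - p 1| ≤ 6})) := rfl
    rw [this]
    refine IsClosed.inter ?_ (IsClosed.inter ?_ (IsClosed.inter ?_ ?_)) <;>
      exact isClosed_le (by fun_prop) (by fun_prop)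
  · refine (Metric.isBounded_closedBall (x := (0 : E2)) (r := 6)).subset ?_
    intro p hp
    simp only [Oct, Set.mem_ofPred_eq, abs_le] at hp
    rw [mem_closedBall_zero_iff, EuclideanSpace.norm_eq, Real.sqrt_le_left (by norm_num)]
    simp only [Fin.sum_univ_two, Real.norm_eq_abs, sq_abs]
    nlinarith [hp.1.1, hp.1.2, hp.2.1.1, hp.2.1.2]

theorem oct_int : (interior Oct).Nonempty := by
  refine ⟨0, mem_interior_iff_mem_nhds.mpr (Filter.mem_of_superset (Metric.ball_mem_nhds _ one_pos) ?_)⟩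
  intro p hp
  rw [mem_ball_zero_iff] at hp
  have h0 := (PiLp.norm_apply_le p 0).trans hp.le
  have h1 := (PiLp.norm_apply_le p 1).trans hp.le
  rw [Real.norm_eq_abs, abs_le] at h0 h1
  simp only [Oct, Set.mem_ofPred_eq, abs_le]
  refine ⟨⟨?_, ?_⟩, ⟨?_, ?_⟩, ⟨?_, ?_⟩, ?_, ?_⟩ <;> linarith [h0.1, h0.2, h1.1, h1.2]

theorem int_lt (A : Set E2) (α β c : ℝ) (hab : 0 < α ^ 2 + β ^ 2)
    (hA : ∀ q ∈ A, α * q 0 + β * q 1 ≤ c) (p : E2) (hp : p ∈ interior A) :
    α * p 0 + β * p 1 < c := by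
  have hc : Continuous fun τ : ℝ => p + τ • (!₂[α, β] : E2) := by fun_prop
  have h1 : ∀ᶠ τ in nhds (0 : ℝ), p + τ • (!₂[α, β] : E2) ∈ A := by
    apply hc.continuousAt.eventually_mem
    simpa using mem_interior_iff_mem_nhds.mp hp
  have h2 : ∀ᶠ τ in nhdsWithin (0 : ℝ) (Set.Ioi 0), p + τ • (!₂[α, β] : E2) ∈ A ∧ τ ∈ Set.Ioi 0 :=
    (eventually_nhdsWithin_of_eventually_nhds h1).and self_mem_nhdsWithin
  obtain ⟨τ, h3, h4⟩ := h2.exists
  have := hA _ h3
  simp only [PiLp.add_apply, PiLp.smul_apply, smul_eq_mul, Matrix.cons_val_zero,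
    Matrix.cons_val_one, Matrix.cons_val_fin_one] at this
  have h5 : 0 < τ * (α ^ 2 + β ^ 2) := mul_pos h4 hab
  nlinarith

/-- doubled lattice points -/
noncomputable def emb (u : ℤ × ℤ) : E2 := !₂[2 * (u.1 : ℝ), 2 * (u.2 : ℝ)]

theorem emb_inj : Function.Injective emb := by
  intro u v h
  have h0 := congrArg (fun p : E2 => p 0) h
  have h1 := congrArg (fun p : E2 => p 1) h
  simp only [emb, Matrix.cons_val_zero, Matrix.cons_val_one, Matrix.cons_val_fin_one] at h0 h1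
  refine Prod.ext ?_ ?_
  · exact_mod_cast (show (u.1 : ℝ) = v.1 by linarith)
  · exact_mod_cast (show (u.2 : ℝ) = v.2 by linarith)

theorem sep (x y : E2) (α β c : ℝ) (hab : 0 < α ^ 2 + β ^ 2)
    (hK : ∀ k ∈ Oct, |α * k 0 + β * k 1| ≤ c)
    (hxy : |α * (x 0 - y 0) + β * (x 1 - y 1)| = 2 * c) :
    interior ((fun z => x + z) '' Oct) ∩ interior ((fun z => y + z) '' Oct) = ∅ := by
  rw [Set.eq_empty_iff_forall_notMem]
  rintro p ⟨hx, hy⟩
  have up : ∀ z : E2, p ∈ interior ((fun w => z + w) '' Oct) →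
      α * p 0 + β * p 1 < α * z 0 + β * z 1 + c ∧
        (-α) * p 0 + (-β) * p 1 < - (α * z 0 + β * z 1) + c := by
    intro z hz
    constructor
    · refine int_lt _ α β _ hab ?_ p hz
      rintro _ ⟨k, hk, rfl⟩
      have := abs_le.mp (hK k hk)
      simp only [PiLp.add_apply]
      linarith [this.2]
    · refine int_lt _ (-α) (-β) _ (by simpa using hab) ?_ p hz
      rintro _ ⟨k, hk, rfl⟩
      have := abs_le.mp (hK k hk)
      simp only [PiLp.add_apply]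
      linarith [this.1]
  have h1 := up x hx
  have h2 := up y hy
  have : |α * (x 0 - y 0) + β * (x 1 - y 1)| < 2 * c := by
    rw [abs_lt]; constructor <;> linarith [h1.1, h1.2, h2.1, h2.2]
  linarith

theorem touch (u v : ℤ × ℤ) (h : Sd (u.1 - v.1) (u.2 - v.2)) :
    emb u ≠ emb v ∧
    ((fun z => emb u + z) '' Oct ∩ (fun z => emb v + z) '' Oct).Nonempty ∧
    interior ((fun z => emb u + z) '' Oct) ∩ interior ((fun z => emb v + z) '' Oct) = ∅ := by
  obtain ⟨h1, h2, h3, h4, h5⟩ := h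
  have e0 : emb u 0 - emb v 0 = 2 * ((u.1 - v.1 : ℤ) : ℝ) := by simp [emb]; ring
  have e1 : emb u 1 - emb v 1 = 2 * ((u.2 - v.2 : ℤ) : ℝ) := by simp [emb]; ring
  have hne : emb u ≠ emb v := by
    intro he
    obtain rfl := emb_inj he
    simp at h5
  generalize u.1 - v.1 = a at *
  generalize u.2 - v.2 = b at *
  have r1 : |(a : ℝ)| ≤ 4 := by exact_mod_cast h1
  have r2 : |(b : ℝ)| ≤ 4 := by exact_mod_cast h2
  have r3 : |(a : ℝ) + b| ≤ 6 := by exact_mod_cast h3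
  have r4 : |(a : ℝ) - b| ≤ 6 := by exact_mod_cast h4
  refine ⟨hne, ⟨emb v + !₂[(a : ℝ), (b : ℝ)], ⟨!₂[-(a : ℝ), -(b : ℝ)], ?_, ?_⟩,
    ⟨!₂[(a : ℝ), (b : ℝ)], ?_, rfl⟩⟩, ?_⟩
  · simp only [Oct, Set.mem_ofPred_eq, Matrix.cons_val_zero, Matrix.cons_val_one,
      Matrix.cons_val_fin_one, abs_neg]
    refine ⟨r1, r2, ?_, ?_⟩
    · rw [← neg_add, abs_neg]; exact r3
    · rw [← neg_sub', abs_neg]; exact r4
  · ext i
    fin_cases i
    · simp; linarith
    · simp; linarith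
  · exact ⟨r1, r2, r3, r4⟩
  · rcases h5 with h | h | h | h
    · refine sep _ _ 1 0 4 (by norm_num) (fun k hk => by simpa using hk.1) ?_
      have : |(a : ℝ)| = 4 := by exact_mod_cast h
      rw [e0, e1]; simp [abs_mul, this]
    · refine sep _ _ 0 1 4 (by norm_num) (fun k hk => by simpa using hk.2.1) ?_
      have : |(b : ℝ)| = 4 := by exact_mod_cast h
      rw [e0, e1]; simp [abs_mul, this]
    · refine sep _ _ 1 1 6 (by norm_num) (fun k hk => by simpa using hk.2.2.1) ?_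
      have : |(a : ℝ) + b| = 6 := by exact_mod_cast h
      rw [e0, e1, one_mul, one_mul, ← mul_add, abs_mul, this]; simp
    · refine sep _ _ 1 (-1) 6 (by norm_num)
        (fun k hk => by simpa [← sub_eq_add_neg] using hk.2.2.2) ?_
      have : |(a : ℝ) - b| = 6 := by exact_mod_cast h
      rw [e0, e1, one_mul, neg_one_mul, ← sub_eq_add_neg, ← mul_sub, abs_mul, this]; simp

theorem big (L m : ℕ) (hm : 2488 * (L + 8) ^ 2 < 10002 * m) : ∃ T : Finset E2, T.card = L ^ 2 ∧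
    ∀ S ⊆ T, S.card = m → ∃ x ∈ S, ∃ y ∈ S, x ≠ y ∧
      ((fun z => x + z) '' Oct ∩ (fun z => y + z) '' Oct).Nonempty ∧
      interior ((fun z => x + z) '' Oct) ∩ interior ((fun z => y + z) '' Oct) = ∅ := by
  classical
  refine ⟨(Ico (0 : ℤ) L ×ˢ Ico (0 : ℤ) L).image emb, ?_, ?_⟩
  · rw [card_image_of_injective _ emb_inj, card_product, Int.card_Ico]; simp [sq]
  · intro S hS hc
    obtain ⟨I, hI, rfl⟩ := subset_image_iff.mp hS
    rw [card_image_of_injective _ emb_inj] at hc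
    by_contra hcon
    have := density L I (fun u hu => by
      have := hI hu
      simp only [mem_product, mem_Ico] at this
      exact ⟨this.1.1, this.1.2, this.2.1, this.2.2⟩)
      (fun u hu v hv h => hcon ⟨emb u, mem_image_of_mem _ hu, emb v, mem_image_of_mem _ hv,
        touch u v h⟩)
    rw [hc] at this
    omega

end Pool.Agent.H5.Touch
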