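import Mathlib

set_option autoImplicit false

namespace Pool.Agent.H5.TourDefs

variable {n : ℕ}

/-- A tournament on `Fin n`, given by its set of arcs. -/
def IsTournament (A : Finset (Fin n × Fin n)) : Prop :=
  (∀ u, (u, u) ∉ A) ∧ ∀ u v, u ≠ v → ((u, v) ∈ A ↔ (v, u) ∉ A)

def Strong (A : Finset (Fin n × Fin n)) : Prop :=
  ∀ u v, Relation.ReflTransGen (fun a b => (a, b) ∈ A) u v

/-- `C` is the arc set of a 4-circuit of `A`. -/
def IsCircuit4 (A C : Finset (Fin n × Fin n)) : Prop :=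
  ∃ a b c d : Fin n, [a, b, c, d].Nodup ∧ C = {(a, b), (b, c), (c, d), (d, a)} ∧ C ⊆ A

def IsoOrConverse (A B : Finset (Fin n × Fin n)) : Prop :=
  ∃ e : Equiv.Perm (Fin n), (∀ u v, (u, v) ∈ A ↔ (e u, e v) ∈ B) ∨
    ∀ u v, (u, v) ∈ A ↔ (e v, e u) ∈ B

end Pool.Agent.H5.TourDefs
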