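import Mathlib

set_option autoImplicit false

namespace Pool.Agent.H5.TreeCol

open SimpleGraph

def col : Fin 6 → Fin 6 → Fin 3 :=
  ![![0, 0, 1, 0, 1, 2], ![0, 0, 1, 2, 0, 2], ![1, 1, 0, 2, 2, 0], ![0, 2, 2, 0, 1, 0],
    ![1, 0, 2, 1, 0, 1], ![2, 2, 0, 0, 1, 0]]

def T (i : Fin 3) : SimpleGraph (Fin 6) where
  Adj u v := u ≠ v ∧ col u v = i
  symm := ⟨by revert i; decide⟩
  loopless := ⟨fun _ h => h.1 rfl⟩

instance (i : Fin 3) : DecidableRel (T i).Adj := fun u v =>
  inferInstanceAs (Decidable (u ≠ v ∧ col u v = i))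

lemma tree (i : Fin 3) : (T i).IsTree := by
  rw [isTree_iff_connected_and_card]
  refine ⟨by revert i; decide +kernel, ?_⟩
  rw [Nat.card_eq_fintype_card, Nat.card_eq_fintype_card, ← edgeFinset_card]
  revert i
  decide +kernel

lemma disj (i j : Fin 3) (h : i ≠ j) : Disjoint (T i) (T j) := by
  rw [disjoint_iff]
  ext u v
  simp only [inf_adj, bot_adj, iff_false]
  rintro ⟨⟨-, h1⟩, ⟨-, h2⟩⟩
  exact h (h1.symm.trans h2)

lemma sup : (⊤ : SimpleGraph (Fin 6)) = ⨆ i, T i := by
  ext u v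
  simp only [top_adj, iSup_adj]
  exact ⟨fun h => ⟨_, h, rfl⟩, fun ⟨_, h⟩ => h.1⟩

theorem no_placement (p : Fin 6 → Fin 3 → ℝ)
    (h : ∀ (i : Fin 3) (u v : Fin 6), (⊤ : SimpleGraph (Fin 6)).Adj u v →
      ((T i).Adj u v ↔ ∀ j : Fin 3, j ≠ i → |p u j - p v j| < |p u i - p v i|)) : False := by
  have h1 : ∀ i u v, (T i).Adj u v → ∀ j, j ≠ i → |p u j - p v j| < |p u i - p v i| :=
    fun i u v a => (h i u v a.1).1 a
  have alt : ∀ i u v w, (T i).Adj u v → (T i).Adj v w → u ≠ w → ¬ (T i).Adj u w →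
      (p u i < p v i ↔ p w i < p v i) := by
    have key : ∀ i u v w, (T i).Adj u v → (T i).Adj v w → u ≠ w → ¬ (T i).Adj u w →
        p u i < p v i → p w i < p v i := by
      intro i u v w a b c d e
      by_contra f
      apply d
      rw [h i u w c]
      intro j hj
      have a1 := h1 i u v a j hj
      have b1 := h1 i v w b j hj
      rw [abs_of_nonpos (by linarith : p u i - p v i ≤ 0)] at a1
      rw [abs_of_nonpos (by linarith : p v i - p w i ≤ 0)] at b1
      rw [abs_of_nonpos (by linarith : p u i - p w i ≤ 0)]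
      have := abs_sub_le (p u j) (p v j) (p w j)
      linarith
    intro i u v w a b c d
    exact ⟨key i u v w a b c d, key i w v u b.symm a.symm c.symm (fun e => d e.symm)⟩
  have ne : ∀ i u v, (T i).Adj u v → (p u i < p v i ↔ ¬ p v i < p u i) := by
    intro i u v a
    obtain ⟨j, hj⟩ := exists_ne i
    have := h1 i u v a j hj
    have h2 : p u i ≠ p v i := by
      intro e
      rw [e, sub_self, abs_zero] at this
      exact absurd this (not_lt.2 (abs_nonneg _))
    exact ⟨fun e => not_lt.2 e.le, fun e => lt_of_le_of_ne (not_lt.1 e) h2⟩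
  have x1 := alt 0 2 5 3 (by decide) (by decide) (by decide) (by decide)
  have x2 := alt 0 5 3 0 (by decide) (by decide) (by decide) (by decide)
  have x3 := alt 0 3 0 1 (by decide) (by decide) (by decide) (by decide)
  have x4 := alt 0 0 1 4 (by decide) (by decide) (by decide) (by decide)
  have y1 := ne 0 3 5 (by decide)
  have y2 := ne 0 0 3 (by decide)
  have y3 := ne 0 1 0 (by decide)
  have y4 := ne 0 4 1 (by decide)
  have z1 := alt 2 5 1 3 (by decide) (by decide) (by decide) (by decide)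
  have z2 := alt 2 1 3 2 (by decide) (by decide) (by decide) (by decide)
  have z3 := alt 2 3 2 4 (by decide) (by decide) (by decide) (by decide)
  have w1 := ne 2 3 1 (by decide)
  have w2 := ne 2 2 3 (by decide)
  have X : p 2 0 < p 5 0 ↔ p 1 0 < p 4 0 := by
    rw [x1, y1, x2, y2, x3, y3, x4, y4, not_not, not_not]
  have Z : p 5 2 < p 1 2 ↔ p 4 2 < p 2 2 := by
    rw [z1, w1, z2, w2, z3, not_not]
  have e1 := h1 0 2 5 (by decide) 2 (by decide)
  have e2 := h1 0 1 4 (by decide) 2 (by decide)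
  have e3 := h1 2 5 1 (by decide) 0 (by decide)
  have e4 := h1 2 4 2 (by decide) 0 (by decide)
  rw [abs_lt] at e1 e2 e3 e4
  by_cases c1 : p 2 0 < p 5 0 <;> by_cases c2 : p 5 2 < p 1 2
  · have d1 := X.1 c1
    have d2 := Z.1 c2
    rw [abs_of_nonpos (by linarith)] at e1 e2 e3 e4
    linarith [e1.1, e1.2, e2.1, e2.2, e3.1, e3.2, e4.1, e4.2]
  · have d1 := X.1 c1
    have d2 := mt Z.2 c2
    rw [abs_of_nonpos (by linarith)] at e1 e2
    rw [abs_of_nonneg (by linarith)] at e3 e4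
    linarith [e1.1, e1.2, e2.1, e2.2, e3.1, e3.2, e4.1, e4.2]
  · have d1 := mt X.2 c1
    have d2 := Z.1 c2
    rw [abs_of_nonneg (by linarith)] at e1 e2
    rw [abs_of_nonpos (by linarith)] at e3 e4
    linarith [e1.1, e1.2, e2.1, e2.2, e3.1, e3.2, e4.1, e4.2]
  · have d1 := mt X.2 c1
    have d2 := mt Z.2 c2
    rw [abs_of_nonneg (by linarith)] at e1 e2 e3 e4
    linarith [e1.1, e1.2, e2.1, e2.2, e3.1, e3.2, e4.1, e4.2]

end Pool.Agent.H5.TreeCol
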