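import Pool.Agent.H5.TribesDefs

set_option autoImplicit false

namespace Pool.Agent.H5.Tribes

open Finset Pool.Agent.H5.TribesDefs

lemma mean {α : Type} [DecidableEq α] {s : ℕ} (B : Finset α) (g : α → ℝ) (m : ℝ)
    (h : ∑ y ∈ B, g y = B.card * m) :
    ∑ x ∈ Fintype.piFinset (fun _ : Fin s => B), ∑ i, g (x i) = B.card ^ s * (s * m) := by
  have h1 : ∀ i : Fin s, ∑ x ∈ Fintype.piFinset (fun _ : Fin s => B), (g (x i) - m) = 0 := by
    intro i
    have := prod_univ_sum (fun _ : Fin s => B) fun j y => if j = i then g y - m else 1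
    simp only [prod_ite_eq', mem_univ, if_true] at this
    rw [← this]
    exact prod_eq_zero (mem_univ i) (by simp [h])
  rw [sum_comm]
  simp only [sum_sub_distrib, sub_eq_zero] at h1
  simp [h1]
  ring

def z (b : Bool) : ℝ := if b then 0 else 1

lemma sw_spec {w : ℕ} (hw : 2 ≤ w) :
    1 - (1 - 1 / 2 ^ w : ℝ) ^ sw w ≤ 1 / 2 ∧ (2 : ℝ) ^ w ≤ 4 * sw w := by
  have h4 : (4 : ℝ) ≤ 2 ^ w := by
    have := pow_le_pow_right₀ (show (1 : ℝ) ≤ 2 by norm_num) hw
    linarith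
  have p0 : (0 : ℝ) < 1 / 2 ^ w := by positivity
  have p1 : (1 / 2 ^ w : ℝ) ≤ 1 / 4 := one_div_le_one_div_of_le (by norm_num) h4
  have hb : BddAbove {s : ℕ | 1 - (1 - 1 / 2 ^ w : ℝ) ^ s ≤ 1 / 2} := by
    obtain ⟨k, hk⟩ := exists_pow_lt_of_lt_one (show (0 : ℝ) < 1 / 2 by norm_num)
      (show (1 - 1 / 2 ^ w : ℝ) < 1 by linarith)
    refine ⟨k, fun s hs => not_lt.1 fun h => ?_⟩
    have := pow_le_pow_of_le_one (show (0 : ℝ) ≤ 1 - 1 / 2 ^ w by linarith) (by linarith) h.le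
    have hs : 1 - (1 - 1 / 2 ^ w : ℝ) ^ s ≤ 1 / 2 := hs
    linarith
  refine ⟨Nat.sSup_mem ⟨0, by simp⟩ hb, ?_⟩
  have h1 : ¬ 1 - (1 - 1 / 2 ^ w : ℝ) ^ (sw w + 1) ≤ 1 / 2 := fun h =>
    absurd (le_csSup hb h) (Nat.not_succ_le_self _)
  have h2 := one_add_mul_le_pow (show (-2 : ℝ) ≤ -(1 / 2 ^ w) by linarith) (sw w + 1)
  rw [← sub_eq_add_neg] at h2
  push_cast at h2
  have h3 : (1 / 4 : ℝ) ≤ sw w * (1 / 2 ^ w) := by linarith
  rw [mul_one_div, le_div_iff₀ (by positivity)] at h3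
  linarith

lemma fin {a c n D F0 F1 : ℝ} (ha : 0 < a) (hc : a ≤ c) (hD : 0 ≤ D) (h0 : F0 = c * (n + D))
    (h1 : F0 + F1 = (a + c) * n) : 2 * D ≤ F0 / c - F1 / a := by
  have e : F1 = a * n - c * D := by linarith
  have : D ≤ c * D / a := by rw [le_div_iff₀ ha]; nlinarith
  rw [h0, e, mul_div_cancel_left₀ _ (by linarith), sub_div, mul_div_cancel_left₀ _ ha.ne']
  linarith

theorem main (w : ℕ) (hw : 2 ≤ w) :
    (w : ℝ) / 4 ≤ W1 (unif (ones (sw w) w)ᶜ) (unif (ones (sw w) w)) := by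
  obtain ⟨h1, h2⟩ := sw_spec hw
  generalize sw w = s at h1 h2 ⊢
  have h4 : (4 : ℝ) ≤ 2 ^ w := by
    have := pow_le_pow_right₀ (show (1 : ℝ) ≤ 2 by norm_num) hw
    linarith
  have hs : 0 < s := by exact_mod_cast (show (0 : ℝ) < s by linarith)
  let g : (Fin w → Bool) → ℝ := fun y => ∑ j, z (y j)
  let f : Cube s w → ℝ := fun x => ∑ i, g (x i)
  let B : Finset (Fin w → Bool) := univ.erase fun _ => true
  have hB : (B.card : ℝ) = 2 ^ w - 1 := by
    rw [card_erase_of_mem (mem_univ _), Nat.cast_sub (card_pos.2 univ_nonempty)]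
    simp
  have g1 : ∑ y, g y = 2 ^ w * (w * (1 / 2)) := by
    have := mean (s := w) univ z (1 / 2) (by simp [z])
    rw [Fintype.piFinset_univ] at this
    simpa using this
  have g2 : ∑ y ∈ B, g y = B.card * (w / 2 + w / (2 * (2 ^ w - 1))) := by
    rw [sum_erase _ (by simp [g, z]), g1, hB]
    have : (2 : ℝ) ^ w - 1 ≠ 0 := by linarith
    field_simp
    ring
  have hZ : (ones s w)ᶜ = Fintype.piFinset fun _ => B := by
    ext x
    simp [ones, B, funext_iff]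
  have cZ : (((ones s w)ᶜ).card : ℝ) = (2 ^ w - 1) ^ s := by
    rw [hZ, ← hB]; simp
  have cA : ((ones s w).card : ℝ) + ((ones s w)ᶜ).card = (2 ^ w) ^ s := by
    rw [← Nat.cast_add, card_add_card_compl]; simp
  have F0 : ∑ x ∈ (ones s w)ᶜ, f x =
      ((ones s w)ᶜ).card * (s * (w / 2) + s * (w / (2 * (2 ^ w - 1)))) := by
    rw [cZ, hZ, mean B g _ g2, hB, mul_add (s : ℝ)]
  have F1 : ∑ x ∈ (ones s w)ᶜ, f x + ∑ x ∈ ones s w, f x =
      (((ones s w).card : ℝ) + ((ones s w)ᶜ).card) * (s * (w / 2)) := by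
    have := mean (s := s) univ g (w / 2) (by rw [g1]; simp; ring)
    rw [add_comm, sum_add_sum_compl, cA]
    simpa using this
  have a0 : (0 : ℝ) < (ones s w).card := by
    exact_mod_cast card_pos.2 ⟨fun _ _ => true, by simpa [ones] using ⟨⟨0, hs⟩⟩⟩
  have ac : ((ones s w).card : ℝ) ≤ ((ones s w)ᶜ).card := by
    have e : (1 - 1 / 2 ^ w : ℝ) = (2 ^ w - 1) / 2 ^ w := by field_simp
    rw [e, div_pow, ← cZ, ← cA, sub_le_comm, le_div_iff₀ (by positivity)] at h1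
    linarith
  have hD : (0 : ℝ) < 2 ^ w - 1 := by linarith
  have key := fin a0 ac (by positivity) F0 F1
  have k2 : (w : ℝ) / 4 ≤ 2 * (s * (w / (2 * (2 ^ w - 1)))) := by
    rw [show 2 * ((s : ℝ) * (w / (2 * (2 ^ w - 1)))) = s * w / (2 ^ w - 1) by field_simp,
      le_div_iff₀ hD]
    have : (0 : ℝ) ≤ w := w.cast_nonneg
    nlinarith
  have tot : ∀ (A : Finset (Cube s w)) (u : Cube s w → ℝ),
      ∑ x, unif A x * u x = (∑ x ∈ A, u x) / A.card := by
    intro A u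
    simp only [unif, ite_mul, zero_mul, sum_ite_mem, univ_inter, sum_div]
    exact sum_congr rfl fun x _ => by ring
  have one : ∀ A : Finset (Cube s w), (0 : ℝ) < A.card → ∑ x, unif A x = 1 := fun A h => by
    simpa [h.ne'] using tot A fun _ => 1
  have nn : ∀ (A : Finset (Cube s w)) x, 0 ≤ unif A x := fun A x => by
    unfold unif; positivity
  refine le_csInf ⟨_, fun x y => unif (ones s w)ᶜ x * unif (ones s w) y, ⟨fun x y =>
    mul_nonneg (nn _ _) (nn _ _), fun x => ?_, fun y => ?_⟩, rfl⟩ ?_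
  · rw [← mul_sum, one _ a0, mul_one]
  · rw [← sum_mul, one _ (a0.trans_le ac), one_mul]
  rintro _ ⟨q, ⟨q0, q1, q2⟩, rfl⟩
  refine k2.trans (key.trans ?_)
  rw [← tot, ← tot]
  simp only [← q1, ← q2, sum_mul]
  rw [sum_comm (f := fun y x => q x y * f y), ← sum_sub_distrib]
  refine sum_le_sum fun x _ => ?_
  rw [← sum_sub_distrib]
  refine sum_le_sum fun y _ => ?_
  rw [← mul_sub, mul_comm]
  refine mul_le_mul_of_nonneg_right ?_ (q0 x y)
  rw [ham, card_filter, Nat.cast_sum, Fintype.sum_prod_type]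
  simp only [f, g, ← sum_sub_distrib]
  refine sum_le_sum fun i _ => sum_le_sum fun j _ => ?_
  cases x i j <;> cases y i j <;> simp [z]

end Pool.Agent.H5.Tribes
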