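import Mathlib

set_option autoImplicit false

namespace Pool.Agent.H5.TribesDefs

open Finset

/-- The cube `{0,1}^(s w)`; `x i j` is coordinate `j` of block `i`. -/
abbrev Cube (s w : ℕ) := Fin s → Fin w → Bool

/-- Hamming distance. -/
def ham {s w : ℕ} (x y : Cube s w) : ℕ :=
  (univ.filter fun p : Fin s × Fin w => x p.1 p.2 ≠ y p.1 p.2).card

/-- The uniform probability measure on a finite set, as a mass function. -/
noncomputable def unif {s w : ℕ} (A : Finset (Cube s w)) (x : Cube s w) : ℝ :=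
  if x ∈ A then 1 / A.card else 0

def IsCoupling {s w : ℕ} (μ ν : Cube s w → ℝ) (q : Cube s w → Cube s w → ℝ) : Prop :=
  (∀ x y, 0 ≤ q x y) ∧ (∀ x, ∑ y, q x y = μ x) ∧ ∀ y, ∑ x, q x y = ν y

/-- Earth mover's distance. -/
noncomputable def W1 {s w : ℕ} (μ ν : Cube s w → ℝ) : ℝ :=
  sInf {c | ∃ q, IsCoupling μ ν q ∧ c = ∑ x, ∑ y, (ham x y : ℝ) * q x y}

/-- The set where the tribes function equals 1. -/
def ones (s w : ℕ) : Finset (Cube s w) := univ.filter fun x => ∃ i, ∀ j, x i j = true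

/-- The largest `s` with `1 - (1 - 2^(-w))^s ≤ 1/2`. -/
noncomputable def sw (w : ℕ) : ℕ := sSup {s : ℕ | 1 - (1 - 1 / 2 ^ w : ℝ) ^ s ≤ 1 / 2}

end Pool.Agent.H5.TribesDefs
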