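import Mathlib

set_option autoImplicit false
open Filter

attribute [local instance] Ultrafilter.mul Ultrafilter.semigroup

namespace Pool.Agent.H5.Twist

/-- pairs (vector part, scalar part) acting by z ↦ x * z ^ s -/
@[ext] structure G where
  x : ℕ
  s : ℕ

instance : Mul G := ⟨fun g h => ⟨g.x * h.x ^ g.s, g.s * h.s⟩⟩

theorem mul_x (g h : G) : (g * h).x = g.x * h.x ^ g.s := rfl
theorem mul_s (g h : G) : (g * h).s = g.s * h.s := rfl

instance : Semigroup G where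
  mul_assoc a b c := by
    ext
    · simp only [mul_x, mul_s, mul_pow, ← pow_mul]; ring
    · simp only [mul_s]; ring

def ph (j : ℕ) (g : G) : G := ⟨1, g.s * g.x ^ j⟩

theorem ph_mul (j : ℕ) (g h : G) : ph j (g * h) = ph j g * ph (j * g.s) h := by
  ext
  · simp [ph, mul_x]
  · simp only [ph, mul_x, mul_s, mul_pow, ← pow_mul]; ring

theorem ph_ph (j k : ℕ) (g : G) : ph j (ph k g) = ph k g := by
  ext <;> simp [ph]

theorem map_mul' (U1 U2 V2 : Ultrafilter G) (h : ∀ j, U2.map (ph j) = V2) (j : ℕ) :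
    (U1 * U2).map (ph j) = U1.map (ph j) * V2 := by
  ext A
  have e1 : A ∈ (U1 * U2).map (ph j) ↔ ∀ᶠ g in ↑(U1 * U2), ph j g ∈ A := Iff.rfl
  have e2 : A ∈ U1.map (ph j) * V2 ↔ ∀ᶠ g in ↑(U1.map (ph j) * V2), g ∈ A := Iff.rfl
  rw [e1, e2, Ultrafilter.eventually_mul, Ultrafilter.eventually_mul, Ultrafilter.coe_map,
    eventually_map]
  refine eventually_congr (Eventually.of_forall fun g => ?_)
  rw [← h (j * g.s), Ultrafilter.coe_map, eventually_map]
  simp only [ph_mul]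

def Big (U : Ultrafilter G) : Prop := ∀ N, ∀ᶠ g : G in U, N < g.x ∧ 0 < g.s

def Pos (U : Ultrafilter G) : Prop := ∀ᶠ g : G in U, 0 < g.x ∧ 0 < g.s

theorem Big.pos {U : Ultrafilter G} (h : Big U) : Pos U := h 0

theorem pos_mul_big {U V : Ultrafilter G} (h : Pos U) (h' : Big V) : Big (U * V) := by
  intro N
  rw [Ultrafilter.eventually_mul]
  refine h.mono fun g hg => (h' N).mono fun k hk => ⟨?_, Nat.mul_pos hg.2 hk.2⟩
  rw [mul_x]
  calc N < k.x := hk.1
    _ ≤ k.x ^ g.s := Nat.le_self_pow hg.2.ne' _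
    _ ≤ _ := Nat.le_mul_of_pos_left _ hg.1

theorem big_mul_pos {U V : Ultrafilter G} (h : Big U) (h' : Pos V) : Big (U * V) := by
  intro N
  rw [Ultrafilter.eventually_mul]
  refine (h N).mono fun g hg => h'.mono fun k hk => ⟨?_, Nat.mul_pos hg.2 hk.2⟩
  rw [mul_x]
  exact lt_of_lt_of_le hg.1 (Nat.le_mul_of_pos_right _ (pow_pos hk.1 _))

theorem pos_map {U : Ultrafilter G} (h : Pos U) (j : ℕ) : Pos (U.map (ph j)) := by
  unfold Pos
  rw [Ultrafilter.coe_map, eventually_map]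
  exact h.mono fun g hg => ⟨Nat.one_pos, Nat.mul_pos hg.2 (pow_pos hg.1 _)⟩

def Q : Set (Ultrafilter G) := {U | Big U ∧ ∀ j, U.map (ph j) = U.map (ph 0)}

theorem cont_map (f : G → G) : Continuous (Ultrafilter.map f) :=
  ultrafilterBasis_is_basis.continuous_iff.2 <| Set.forall_mem_range.mpr fun s =>
    ultrafilter_isOpen_basic (f ⁻¹' s)

theorem Q_closed : IsClosed Q := by
  have : Q = (⋂ N, {U : Ultrafilter G | {g : G | N < g.x ∧ 0 < g.s} ∈ U}) ∩
      ⋂ j, {U : Ultrafilter G | U.map (ph j) = U.map (ph 0)} := by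
    ext U; simp only [Q, Big, Set.mem_ofPred_eq, Set.mem_inter_iff, Set.mem_iInter]; rfl
  rw [this]
  exact (isClosed_iInter fun N => ultrafilter_isClosed_basic _).inter
    (isClosed_iInter fun j => isClosed_eq (cont_map _) (cont_map _))

theorem Q_mul {U V : Ultrafilter G} (hU : U ∈ Q) (hV : V ∈ Q) : U * V ∈ Q :=
  ⟨pos_mul_big hU.1.pos hV.1, fun j => by
    rw [map_mul' U V _ hV.2, map_mul' U V _ hV.2, hU.2 j]⟩

theorem Q_ne : Q.Nonempty := by
  classical
  let E : Set G × ℕ × ℕ → Set G := fun p =>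
    {g | (ph p.2.1 g ∈ p.1 ↔ ph 0 g ∈ p.1) ∧ p.2.2 < g.x ∧ 0 < g.s}
  have fip : ∀ T : Finset (Set G × ℕ × ℕ), ∃ g, ∀ p ∈ T, g ∈ E p := by
    intro T
    let b := T.sup (fun p => p.2.2) + 2
    obtain ⟨a, ha, o, cc, hc⟩ := Combinatorics.exists_mono_homothetic_copy
      (insert 0 (T.image fun p => p.2.1)) (fun k : ℕ => fun p : T => ((⟨1, b ^ k⟩ : G) ∈ p.1.1))
    refine ⟨⟨b ^ a, b ^ o⟩, fun p hp => ⟨?_, ?_, by positivity⟩⟩
    · have h1 := congrFun (hc p.2.1 (Finset.mem_insert_of_mem (Finset.mem_image_of_mem _ hp))) ⟨p, hp⟩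
      have h0 := congrFun (hc 0 (by simp)) ⟨p, hp⟩
      simp only [smul_eq_mul, mul_zero, zero_add] at h1 h0
      have e1 : ph p.2.1 ⟨b ^ a, b ^ o⟩ = ⟨1, b ^ (a * p.2.1 + o)⟩ := by
        ext
        · rfl
        · simp only [ph, ← pow_mul, ← pow_add]; ring_nf
      have e0 : ph 0 ⟨b ^ a, b ^ o⟩ = ⟨1, b ^ o⟩ := by simp [ph]
      rw [e1, e0, h1, h0]
    · have : p.2.2 ≤ T.sup (fun p => p.2.2) := Finset.le_sup (f := fun p => p.2.2) hp
      calc p.2.2 < b := by omega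
        _ ≤ b ^ a := Nat.le_self_pow ha.ne' _
  obtain ⟨U, hU⟩ := Ultrafilter.exists_ultrafilter_of_finite_inter_nonempty (Set.range E) (by
    intro T hT
    have : ∀ t ∈ T, ∃ p, E p = t := fun t ht => hT ht
    choose f hf using this
    obtain ⟨g, hg⟩ := fip (T.attach.image fun t : {t // t ∈ T} => f t.1 t.2)
    refine ⟨g, fun t ht => ?_⟩
    rw [← hf t ht]
    exact hg _ (Finset.mem_image.mpr ⟨⟨t, ht⟩, Finset.mem_attach _ _, rfl⟩))
  refine ⟨U, fun N => ?_, fun j => ?_⟩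
  · exact mem_of_superset (hU ⟨(∅, 0, N), rfl⟩) fun g hg => hg.2
  · ext A
    have h := hU ⟨(A, j, 0), rfl⟩
    simp only [Ultrafilter.mem_map]
    constructor
    · intro h'; exact mem_of_superset (inter_mem h h') fun g hg => hg.1.1.mp hg.2
    · intro h'; exact mem_of_superset (inter_mem h h') fun g hg => hg.1.1.mpr hg.2

theorem exists_U : ∃ U : Ultrafilter G, Big U ∧ U * U = U ∧ ∀ j, U.map (ph j) * U = U := by
  obtain ⟨e0, he0, hee0⟩ := exists_idempotent_in_compact_subsemigroup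
    Ultrafilter.continuous_mul_left Q Q_ne Q_closed.isCompact fun x hx y hy => Q_mul hx hy
  set V := e0.map (ph 0) with hV
  have hVV : V * V = V := by rw [← map_mul' e0 e0 V he0.2 0, hee0]
  have hVj : ∀ j, V.map (ph j) = V := fun j => by
    rw [hV, Ultrafilter.map_map]
    congr 1
    funext g
    exact ph_ph _ _ _
  have hVp : Pos V := pos_map he0.1.pos 0
  let K : Set (Ultrafilter G) := Q ∩ ({U | U.map (ph 0) = V} ∩ {U | U * V = U})
  have hK : IsClosed K := Q_closed.inter ((isClosed_eq (cont_map _) continuous_const).inter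
    (isClosed_eq (Ultrafilter.continuous_mul_left V) continuous_id))
  have hne : K.Nonempty := by
    have h1 : ∀ j, (e0 * V).map (ph j) = V := fun j => by
      rw [map_mul' e0 V V hVj, he0.2 j, hVV]
    refine ⟨e0 * V, ⟨big_mul_pos he0.1 hVp, fun j => by rw [h1, h1]⟩, h1 0, ?_⟩
    show e0 * V * V = e0 * V
    rw [mul_assoc, hVV]
  obtain ⟨e, he, hee⟩ := exists_idempotent_in_compact_subsemigroup
    Ultrafilter.continuous_mul_left K hne hK.isCompact (by
      rintro x ⟨hx, hx1, hx2⟩ y ⟨hy, hy1, hy2⟩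
      refine ⟨Q_mul hx hy, ?_, ?_⟩
      · show (x * y).map (ph 0) = V
        rw [map_mul' x y _ hy.2, hx1, hy1, hVV]
      · show x * y * V = x * y
        rw [mul_assoc, hy2])
  obtain ⟨hQ, h1, h2⟩ := he
  have h1' : ∀ j, e.map (ph j) = V := fun j => (hQ.2 j).trans h1
  have h2' : e * V = e := h2
  refine ⟨V * e, pos_mul_big hVp hQ.1, ?_, fun j => ?_⟩
  · rw [mul_assoc, ← mul_assoc e, h2', hee]
  · rw [map_mul' V e V h1', hVj, hVV, ← mul_assoc, hVV]

theorem main (k : ℕ) (c : ℕ → Fin k) : ∃ a : ℕ → ℕ, StrictMono a ∧ 0 < a 0 ∧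
    ∃ i : Fin k, (∀ n, c (a n) = i) ∧
      ∀ n m : ℕ, n < m → c (a n * a m) = i ∧ c (a m ^ a n) = i := by
  classical
  obtain ⟨U, hB, hUU, hVU⟩ := exists_U
  obtain ⟨i, hi⟩ : ∃ i, ∀ᶠ g : G in U, c g.x = i := by
    have : ∀ᶠ g : G in U, ∃ i ∈ (Set.univ : Set (Fin k)), c g.x = i :=
      Eventually.of_forall fun g => ⟨_, trivial, rfl⟩
    obtain ⟨i, -, h⟩ := (Ultrafilter.eventually_exists_mem_iff Set.finite_univ).mp this
    exact ⟨i, h⟩
  let Good : G → Prop := fun h => ∀ᶠ g : G in U, c (h * g).x = i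
  have step : ∀ (H : Finset G) (σ N : ℕ), (∀ h ∈ H, Good h) → ∃ g : G, N < g.x ∧ 0 < g.s ∧
      ∀ h ∈ H, c (h * g).x = i ∧ Good (h * ph 0 g) ∧ Good (h * g) ∧ Good (h * ph σ g) := by
    intro H σ N hH
    have a1 : ∀ h, Good h → ∀ j, ∀ᶠ g : G in U, Good (h * ph j g) := by
      intro h hh j
      have : ∀ᶠ g : G in ↑(U.map (ph j) * U), c (h * g).x = i := by rw [hVU j]; exact hh
      rw [Ultrafilter.eventually_mul, Ultrafilter.coe_map, eventually_map] at this
      exact this.mono fun g hg => hg.mono fun g' hg' => by rw [mul_assoc]; exact hg'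
    have a2 : ∀ h, Good h → ∀ᶠ g : G in U, Good (h * g) := by
      intro h hh
      have : ∀ᶠ g : G in ↑(U * U), c (h * g).x = i := by rw [hUU]; exact hh
      rw [Ultrafilter.eventually_mul] at this
      exact this.mono fun g hg => hg.mono fun g' hg' => by rw [mul_assoc]; exact hg'
    have : ∀ᶠ g : G in U, ∀ h ∈ H,
        c (h * g).x = i ∧ Good (h * ph 0 g) ∧ Good (h * g) ∧ Good (h * ph σ g) :=
      (eventually_all_finset H).mpr fun h hh =>
        (hH h hh).and ((a1 h (hH h hh) 0).and ((a2 h (hH h hh)).and (a1 h (hH h hh) σ)))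
    obtain ⟨g, hg1, hg2⟩ := ((hB N).and this).exists
    exact ⟨g, hg1.1, hg1.2, hg2⟩
  choose nx hx hs hn using step
  let T := {p : Finset G × ℕ × ℕ // ∀ h ∈ p.1, Good h}
  let g : T → G := fun p => nx p.1.1 p.1.2.1 p.1.2.2 p.2
  let F : T → T := fun p => ⟨(p.1.1.biUnion fun h => {h * ph 0 (g p), h * g p, h * ph p.1.2.1 (g p)},
      p.1.2.1 * (g p).s, (g p).x ^ p.1.2.1), by
    intro h hh
    obtain ⟨h0, hh0, hm⟩ := Finset.mem_biUnion.mp hh
    obtain ⟨-, b1, b2, b3⟩ := hn p.1.1 p.1.2.1 p.1.2.2 p.2 h0 hh0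
    simp only [Finset.mem_insert, Finset.mem_singleton] at hm
    rcases hm with rfl | rfl | rfl
    exacts [b1, b2, b3]⟩
  let t0 : T := ⟨({⟨1, 1⟩}, 1, 0), by
    intro h hh
    rw [Finset.mem_singleton.mp hh]
    exact hi.mono fun g hg => by simpa [mul_x] using hg⟩
  let t : ℕ → T := fun n => F^[n] t0
  have tS : ∀ n, t (n + 1) = F (t n) := fun n => Function.iterate_succ_apply' F n t0
  let σ : ℕ → ℕ := fun n => (t n).1.2.1
  let a : ℕ → ℕ := fun n => (g (t n)).x ^ σ n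
  have σS : ∀ n, σ (n + 1) = σ n * (g (t n)).s := fun n => by simp only [σ, tS, F]
  have aS : ∀ n, (t (n + 1)).1.2.2 = a n := fun n => by simp only [a, σ, tS, F]
  have mem : ∀ n h, h ∈ (t n).1.1 → h * ph 0 (g (t n)) ∈ (t (n + 1)).1.1 ∧
      h * g (t n) ∈ (t (n + 1)).1.1 ∧ h * ph (σ n) (g (t n)) ∈ (t (n + 1)).1.1 := by
    intro n h hh
    rw [tS]
    refine ⟨?_, ?_, ?_⟩ <;> exact Finset.mem_biUnion.mpr ⟨h, hh, by simp [σ]⟩
  have σpos : ∀ n, 0 < σ n := by
    intro n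
    induction n with
    | zero => exact Nat.one_pos
    | succ n ih => rw [σS]; exact Nat.mul_pos ih (hs _ _ _ _)
  have carry : ∀ n u v, (⟨u, σ n * v⟩ : G) ∈ (t n).1.1 → (⟨u, σ (n + 1) * v⟩ : G) ∈ (t (n + 1)).1.1 := by
    intro n u v h
    have := (mem n _ h).1
    have e : (⟨u, σ n * v⟩ : G) * ph 0 (g (t n)) = ⟨u, σ (n + 1) * v⟩ := by
      ext
      · simp [mul_x, ph]
      · simp only [mul_s, ph, σS]; ring
    rwa [e] at this
  have b0 : ∀ n, (⟨1, σ n * 1⟩ : G) ∈ (t n).1.1 := by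
    intro n
    induction n with
    | zero => exact Finset.mem_singleton.mpr rfl
    | succ n ih => exact carry n _ _ ih
  have b1 : ∀ n m, n + 1 ≤ m → (⟨a n, σ m * 1⟩ : G) ∈ (t m).1.1 ∧ (⟨1, σ m * a n⟩ : G) ∈ (t m).1.1 := by
    intro n m h
    induction m, h using Nat.le_induction with
    | base =>
      obtain ⟨-, c1, c2⟩ := mem n _ (b0 n)
      have e1 : (⟨1, σ n * 1⟩ : G) * g (t n) = ⟨a n, σ (n + 1) * 1⟩ := by
        ext
        · simp [mul_x, a]
        · simp only [mul_s, σS]; ring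
      have e2 : (⟨1, σ n * 1⟩ : G) * ph (σ n) (g (t n)) = ⟨1, σ (n + 1) * a n⟩ := by
        ext
        · simp [mul_x, ph]
        · simp only [mul_s, ph, σS, a]; ring
      exact ⟨e1 ▸ c1, e2 ▸ c2⟩
    | succ m _ ih => exact ⟨carry m _ _ ih.1, carry m _ _ ih.2⟩
  have col : ∀ n h, h ∈ (t n).1.1 → c (h * g (t n)).x = i := fun n h hh =>
    (hn _ _ _ (t n).2 h hh).1
  have big : ∀ n, (t n).1.2.2 < a n := fun n =>
    lt_of_lt_of_le (hx _ _ _ (t n).2) (Nat.le_self_pow (σpos n).ne' _)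
  refine ⟨a, strictMono_nat_of_lt_succ fun n => aS n ▸ big (n + 1), big 0, i, fun n => ?_,
    fun n m h => ⟨?_, ?_⟩⟩
  · simpa [mul_x] using col n _ (b0 n)
  · simpa [mul_x] using col m _ (b1 n m h).1
  · have := col m _ (b1 n m h).2
    simp only [mul_x, one_mul, pow_mul] at this
    exact this

end Pool.Agent.H5.Twist
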