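import Mathlib
import Pool.Agent.H5.LinSp

set_option linter.unusedSectionVars false

namespace Pool.Agent.H5.Unital

open Finset Polynomial Pool.Agent.H5.LinSp

section Alg

variable {F : Type} [Field F]

/-- determinant of three vectors -/
def det3 (u v w : F × F × F) : F :=
  u.1 * (v.2.1 * w.2.2 - v.2.2 * w.2.1) - u.2.1 * (v.1 * w.2.2 - v.2.2 * w.1)
    + u.2.2 * (v.1 * w.2.1 - v.2.1 * w.1)

/-- the sesquilinear form -/
def hf (σ : F →+* F) (u v : F × F × F) : F :=
  u.1 * σ v.1 - u.2.1 * σ v.2.2 - u.2.2 * σ v.2.1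

theorem hf_comb (σ : F →+* F) (u v s : F × F × F) (D a b : F) (h : D • s = a • u + b • v)
    (hu : hf σ u u = 0) (hv : hf σ v v = 0) (hs : hf σ s s = 0) :
    a * σ b * hf σ u v + b * σ a * hf σ v u = 0 := by
  have h1 : hf σ (D • s) (D • s) = D * σ D * hf σ s s := by
    simp only [hf, Prod.smul_fst, Prod.smul_snd, smul_eq_mul, map_mul]; ring
  have h2 : hf σ (a • u + b • v) (a • u + b • v) = a * σ a * hf σ u u + b * σ b * hf σ v v
      + (a * σ b * hf σ u v + b * σ a * hf σ v u) := by
    simp only [hf, Prod.smul_fst, Prod.smul_snd, Prod.fst_add, Prod.snd_add, smul_eq_mul, map_mul,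
      map_add]; ring
  rw [h, h2, hu, hv, hs] at h1
  simpa using h1

theorem cramer (u v w s : F × F × F) :
    det3 u v w • s = det3 s v w • u + det3 u s w • v + det3 u v s • w := by
  ext <;> simp only [det3, Prod.smul_fst, Prod.smul_snd, Prod.fst_add, Prod.snd_add, smul_eq_mul] <;>
    ring

theorem gram (σ : F →+* F) (u v w : F × F × F)
    (hu : hf σ u u = 0) (hv : hf σ v v = 0) (hw : hf σ w w = 0) :
    hf σ u v * hf σ v w * hf σ w u + hf σ u w * hf σ v u * hf σ w v
      = - (det3 u v w * σ (det3 u v w)) := by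
  have : hf σ u u * hf σ v v * hf σ w w + hf σ u v * hf σ v w * hf σ w u
      + hf σ u w * hf σ v u * hf σ w v - hf σ u w * hf σ v v * hf σ w u
      - hf σ u v * hf σ v u * hf σ w w - hf σ u u * hf σ v w * hf σ w v
      = - (det3 u v w * σ (det3 u v w)) := by
    simp only [hf, det3, map_mul, map_add, map_sub]; ring
  rw [hu, hv, hw] at this
  rw [← this]; ring

theorem onan_core (σ : F →+* F) (u v w s t r : F × F × F)
    (hu : hf σ u u = 0) (hv : hf σ v v = 0) (hw : hf σ w w = 0)
    (hs : hf σ s s = 0) (ht : hf σ t t = 0) (hr : hf σ r r = 0)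
    (d1 : det3 u v s = 0) (d2 : det3 u w t = 0) (d3 : det3 v w r = 0) (d4 : det3 s t r = 0)
    (n1 : ∀ D a : F, D • s = a • u → D = 0) (n2 : ∀ D a : F, D • t = a • w → D = 0)
    (n3 : ∀ D a : F, D • r = a • v → D = 0) : det3 u v w = 0 := by
  by_contra hD
  have c1 := cramer u v w s
  have c2 := cramer u v w t
  have c3 := cramer u v w r
  have z2 : det3 u t w = 0 := by rw [← neg_eq_zero, ← d2]; simp only [det3]; ring
  have z3 : det3 r v w = 0 := by rw [← d3]; simp only [det3]; ring
  rw [d1, zero_smul, add_zero] at c1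
  rw [z2, zero_smul, add_zero] at c2
  rw [z3, zero_smul, zero_add] at c3
  generalize det3 s v w = a at c1
  generalize det3 u s w = b at c1
  generalize det3 t v w = c at c2
  generalize det3 u v t = d at c2
  generalize det3 u r w = e at c3
  generalize det3 u v r = f at c3
  have hb : b ≠ 0 := by
    rintro rfl; rw [zero_smul, add_zero] at c1; exact hD (n1 _ _ c1)
  have hc : c ≠ 0 := by
    rintro rfl; rw [zero_smul, zero_add] at c2; exact hD (n2 _ _ c2)
  have hf0 : f ≠ 0 := by
    rintro rfl; rw [zero_smul, add_zero] at c3; exact hD (n3 _ _ c3)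
  have e1 := hf_comb σ u v s _ _ _ c1 hu hv hs
  have e2 := hf_comb σ u w t _ _ _ c2 hu hw ht
  have e3 := hf_comb σ v w r _ _ _ c3 hv hw hr
  have g := gram σ u v w hu hv hw
  have e4 : a * d * e + b * c * f = 0 := by
    have h1 : det3 (det3 u v w • s) (det3 u v w • t) (det3 u v w • r)
        = det3 u v w ^ 3 * det3 s t r := by
      generalize det3 u v w = D
      simp only [det3, Prod.smul_fst, Prod.smul_snd, smul_eq_mul]; ring
    have h2 : det3 (a • u + b • v) (c • u + d • w) (e • v + f • w)
        = - (a * d * e + b * c * f) * det3 u v w := by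
      simp only [det3, Prod.smul_fst, Prod.smul_snd, Prod.fst_add, Prod.snd_add, smul_eq_mul]; ring
    rw [c1, c2, c3, h2, d4, mul_zero] at h1
    rcases mul_eq_zero.mp h1 with h | h
    · exact neg_eq_zero.mp h
    · exact absurd h hD
  have e5 : σ a * σ d * σ e + σ b * σ c * σ f = 0 := by
    have := congrArg σ e4
    simpa [map_add, map_mul] using this
  generalize hf σ u v = x at *
  generalize hf σ v u = x' at *
  generalize hf σ u w = y at *
  generalize hf σ w u = y' at *
  generalize hf σ v w = z at *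
  generalize hf σ w v = z' at *
  have key : (b * c * f) * (σ b * σ c * σ f) * (x * z * y' + y * x' * z') = 0 := by
    have p1 : a * σ b * x = - (b * σ a * x') := by linear_combination e1
    have p2 : d * σ c * y' = - (c * σ d * y) := by linear_combination e2
    have p3 : e * σ f * z = - (f * σ e * z') := by linear_combination e3
    have p4 : (a * σ b * x) * (d * σ c * y') * (e * σ f * z)
        = - (b * σ a * x') * - (c * σ d * y) * - (f * σ e * z') := by rw [p1, p2, p3]
    linear_combination (-1 : F) * p4 + (σ b * σ c * σ f * x * z * y') * e4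
      + (b * c * f * x' * y * z') * e5
  rw [g] at key
  have hσ : ∀ z : F, z ≠ 0 → σ z ≠ 0 := fun z hz => (map_ne_zero σ).mpr hz
  exact mul_ne_zero (mul_ne_zero (mul_ne_zero (mul_ne_zero hb hc) hf0)
    (mul_ne_zero (mul_ne_zero (hσ _ hb) (hσ _ hc)) (hσ _ hf0)))
    (neg_ne_zero.mpr (mul_ne_zero hD (hσ _ hD))) key

/-- two lines through two independent common points agree -/
theorem line_transfer (p q r s w : F × F × F)
    (hpq : ∃ z, det3 p q z ≠ 0) (h1 : det3 p q r = 0) (h2 : det3 p q s = 0)
    (h3 : det3 p q w = 0) : det3 r s w = 0 := by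
  obtain ⟨z, hz⟩ := hpq
  have c1 := cramer p q z r
  have c2 := cramer p q z s
  have c3 := cramer p q z w
  rw [h1, zero_smul, add_zero] at c1
  rw [h2, zero_smul, add_zero] at c2
  rw [h3, zero_smul, add_zero] at c3
  have e1 : det3 (det3 p q z • r) (det3 p q z • s) (det3 p q z • w)
      = det3 p q z ^ 3 * det3 r s w := by
    generalize det3 p q z = D
    simp only [det3, Prod.smul_fst, Prod.smul_snd, smul_eq_mul]; ring
  have e2 : ∀ a b c d e f : F, det3 (a • p + b • q) (c • p + d • q) (e • p + f • q) = 0 := by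
    intro a b c d e f
    simp only [det3, Prod.smul_fst, Prod.smul_snd, Prod.fst_add, Prod.snd_add, smul_eq_mul]; ring
  rw [c1, c2, c3, e2] at e1
  exact (mul_eq_zero.mp e1.symm).resolve_left (pow_ne_zero _ hz)

theorem line_transfer' (p q r s w : F × F × F)
    (hrs : ∃ z, det3 r s z ≠ 0) (h1 : det3 p q r = 0) (h2 : det3 p q s = 0)
    (h3 : det3 r s w = 0) : det3 p q w = 0 := by
  obtain ⟨z, hz⟩ := hrs
  have c3 := cramer r s z w
  rw [h3, zero_smul, add_zero] at c3
  have e1 : det3 p q (det3 r s z • w) = det3 r s z * det3 p q w := by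
    generalize det3 r s z = D
    simp only [det3, Prod.smul_fst, Prod.smul_snd, smul_eq_mul]; ring
  have e2 : ∀ a b : F, det3 p q (a • r + b • s) = a * det3 p q r + b * det3 p q s := by
    intro a b
    simp only [det3, Prod.smul_fst, Prod.smul_snd, Prod.fst_add, Prod.snd_add, smul_eq_mul]; ring
  rw [c3, e2, h1, h2] at e1
  simp only [mul_zero, add_zero] at e1
  exact (mul_eq_zero.mp e1.symm).resolve_left hz

end Alg

section Count

variable {F : Type} [Field F] [Fintype F] [DecidableEq F]

theorem roots_le (p : F[X]) (hp : p ≠ 0) (d : ℕ) (hd : p.natDegree ≤ d) (S : Finset F)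
    (hS : ∀ x ∈ S, p.eval x = 0) : S.card ≤ d := by
  refine le_trans (card_le_degree_of_subset_roots (p := p) (Z := S) ?_) hd
  intro x hx
  exact (mem_roots hp).mpr (hS x hx)

theorem all_eq {α : Type} (S : Finset α) (f : α → ℕ) (M : ℕ) (hf : ∀ c ∈ S, f c ≤ M)
    (h : S.card * M ≤ ∑ c ∈ S, f c) : ∀ c ∈ S, f c = M := by
  intro c hc
  by_contra hne
  have : ∑ c ∈ S, f c < ∑ c ∈ S, M :=
    sum_lt_sum hf ⟨c, hc, lt_of_le_of_ne (hf c hc) hne⟩
  simp at this
  omega

variable (σ : F →+* F) (q : ℕ) (hσ : ∀ x, σ x = x ^ q) (hc : Fintype.card F = q ^ 2) (hq : 2 ≤ q)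

include hσ hc in
theorem invol (x : F) : σ (σ x) = x := by
  rw [hσ, hσ, ← pow_mul, ← sq, ← hc, FiniteField.pow_card]

include hσ hq in
theorem K_le : (univ.filter fun c : F => σ c = c).card ≤ q := by
  refine roots_le (X ^ q - X) ?_ q ?_ _ ?_
  · exact FiniteField.X_pow_card_sub_X_ne_zero F (by omega)
  · exact le_of_eq (FiniteField.X_pow_card_sub_X_natDegree_eq F (by omega))
  · intro x hx
    simp only [mem_filter, mem_univ, true_and] at hx
    simp [← hσ, hx]

include hσ hq in
theorem T_le (c : F) : (univ.filter fun y : F => y + σ y = c).card ≤ q := by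
  have hm : (X ^ q + (X - C c) : F[X]).Monic := by
    refine Monic.add_of_left (monic_X_pow q) ?_
    rw [degree_X_sub_C, degree_X_pow]
    exact_mod_cast (show 1 < q by omega)
  refine roots_le (X ^ q + (X - C c)) hm.ne_zero q ?_ _ ?_
  · refine (natDegree_add_le _ _).trans ?_
    simp only [natDegree_X_pow, natDegree_X_sub_C]
    omega
  · intro x hx
    simp only [mem_filter, mem_univ, true_and] at hx
    simp only [eval_add, eval_pow, eval_X, eval_sub, eval_C, ← hσ]
    linear_combination hx

include hσ in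
theorem N_le (c : F) : (univ.filter fun y : F => y * σ y = c).card ≤ q + 1 := by
  refine roots_le (X ^ (q + 1) - C c) (monic_X_pow_sub_C c (by omega)).ne_zero (q + 1) ?_ _ ?_
  · rw [natDegree_X_pow_sub_C]
  · intro x hx
    simp only [mem_filter, mem_univ, true_and] at hx
    rw [eval_sub, eval_pow, eval_X, eval_C, pow_succ, ← hσ]
    linear_combination hx

include hσ hc hq in
theorem T_sum : ∑ c ∈ univ.filter (fun c : F => σ c = c),
    (univ.filter fun y : F => y + σ y = c).card = q ^ 2 := by
  rw [← hc, ← card_univ]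
  symm
  refine card_eq_sum_card_fiberwise (f := fun y : F => y + σ y) ?_
  intro y _
  simp only [coe_filter, mem_univ, true_and, Set.mem_ofPred_eq, map_add, invol σ q hσ hc]
  ring

include hσ hc hq in
theorem T_eq (c : F) (h : σ c = c) : (univ.filter fun y : F => y + σ y = c).card = q := by
  refine all_eq (univ.filter (fun c : F => σ c = c)) _ q (fun c _ => T_le σ q hσ hq c) ?_ c
    (by simp [h])
  rw [T_sum σ q hσ hc hq, sq]
  exact Nat.mul_le_mul_right _ (K_le σ q hσ hq)

include hσ hc hq in
theorem N_eq (c : F) (h : σ c = c) (h0 : c ≠ 0) :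
    (univ.filter fun y : F => y * σ y = c).card = q + 1 := by
  have hs : ∑ c ∈ (univ.filter (fun c : F => σ c = c)).erase 0,
      ((univ.erase (0 : F)).filter fun y : F => y * σ y = c).card = (univ.erase (0 : F)).card := by
    symm
    refine card_eq_sum_card_fiberwise (f := fun y : F => y * σ y) ?_
    intro y hy
    simp only [coe_erase, coe_univ, Set.mem_sdiff, Set.mem_univ, Set.mem_singleton_iff,
      true_and] at hy
    simp only [coe_erase, coe_filter, mem_univ, true_and, Set.mem_sdiff, Set.mem_ofPred_eq, map_mul,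
      invol σ q hσ hc, Set.mem_singleton_iff]
    exact ⟨mul_comm _ _, mul_ne_zero hy ((map_ne_zero σ).mpr hy)⟩
  have hle : ∀ c, ((univ.erase (0 : F)).filter fun y : F => y * σ y = c).card ≤ q + 1 :=
    fun c => le_trans (card_le_card (filter_subset_filter _ (subset_univ _))) (N_le σ q hσ c)
  have := all_eq _ _ (q + 1) (fun c _ => hle c) (by
    rw [hs, card_erase_of_mem (by simp), card_erase_of_mem (by simp), card_univ, hc]
    have := K_le σ q hσ hq
    obtain ⟨m, rfl⟩ : ∃ m, q = m + 1 := ⟨q - 1, by omega⟩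
    calc _ ≤ m * (m + 1 + 1) := Nat.mul_le_mul_right _ (by omega)
      _ = (m + 1) ^ 2 - 1 := by
        have : (m + 1) ^ 2 = m * (m + 1 + 1) + 1 := by ring
        omega) c (by simp [h, h0])
  refine le_antisymm (N_le σ q hσ c) ?_
  rw [← this]
  exact card_le_card (filter_subset_filter _ (subset_univ _))

/-- affine points -/
abbrev Aff (σ : F →+* F) : Type := {p : F × F // p.2 + σ p.2 = p.1 * σ p.1}

/-- homogeneous coordinates -/
def vec (σ : F →+* F) : Option (Aff σ) → F × F × F
  | none => (0, 1, 0)
  | some p => (p.1.1, p.1.2, 1)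

theorem card_sub (P : F × F → Prop) [DecidablePred P] :
    (univ.filter fun p : Aff σ => P p.1).card
      = (univ.filter fun p : F × F => p.2 + σ p.2 = p.1 * σ p.1 ∧ P p).card := by
  refine card_bij (fun p _ => p.1) ?_ ?_ ?_
  · intro p hp
    simp only [mem_filter, mem_univ, true_and] at hp ⊢
    exact ⟨p.2, hp⟩
  · intro a _ b _ h; exact Subtype.ext h
  · intro b hb
    simp only [mem_filter, mem_univ, true_and] at hb
    exact ⟨⟨b, hb.1⟩, by simpa using hb.2, rfl⟩

theorem card_opt {α : Type} [Fintype α] (P : Option α → Prop) [DecidablePred P] :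
    (univ.filter P).card = (if P none then 1 else 0) + (univ.filter fun a => P (some a)).card := by
  rw [card_filter, card_filter, Fintype.sum_option]

include hσ hc hq in
theorem card_vert (x : F) : (univ.filter fun p : Aff σ => p.1.1 = x).card = q := by
  rw [card_sub σ (fun p => p.1 = x), ← T_eq σ q hσ hc hq (x * σ x)
    (by rw [map_mul, invol σ q hσ hc, mul_comm])]
  refine card_bij (fun p _ => p.2) ?_ ?_ ?_
  · intro p hp
    simp only [mem_filter, mem_univ, true_and] at hp ⊢
    rw [hp.1, hp.2]
  · intro a ha b hb h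
    simp only [mem_filter, mem_univ, true_and] at ha hb
    exact Prod.ext (ha.2.trans hb.2.symm) h
  · intro b hb
    simp only [mem_filter, mem_univ, true_and] at hb
    exact ⟨(x, b), by simpa using hb, rfl⟩

include hσ hc hq in
theorem card_pts : Fintype.card (Option (Aff σ)) = q ^ 3 + 1 := by
  rw [Fintype.card_option, ← card_univ,
    card_eq_sum_card_fiberwise (f := fun p : Aff σ => p.1.1) (t := univ) (by intro _ _; simp),
    sum_congr rfl (fun x _ => card_vert σ q hσ hc hq x)]
  simp [hc]; ring

include hσ hc hq in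
theorem card_slant (a b : F) (p p' : Aff σ) (hp : p.1.2 = a * p.1.1 + b)
    (hp' : p'.1.2 = a * p'.1.1 + b) (hne : p.1.1 ≠ p'.1.1) :
    (univ.filter fun r : Aff σ => r.1.2 = a * r.1.1 + b).card = q + 1 := by
  have inv := invol σ q hσ hc
  have key : ∀ x : F, (a * x + b) + σ (a * x + b) = x * σ x ↔
      (x - σ a) * σ (x - σ a) = a * σ a + (b + σ b) := by
    intro x
    simp only [map_add, map_mul, map_sub, inv]
    constructor <;> intro h <;> linear_combination -h
  have hk : a * σ a + (b + σ b) ≠ 0 := by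
    intro h0
    have z : ∀ r : Aff σ, r.1.2 = a * r.1.1 + b → r.1.1 = σ a := by
      intro r hr
      have h1 := r.2
      rw [hr, key, h0] at h1
      rcases mul_eq_zero.mp h1 with h | h
      · exact sub_eq_zero.mp h
      · exact sub_eq_zero.mp ((map_eq_zero σ).mp h)
    exact hne ((z p hp).trans (z p' hp').symm)
  rw [card_sub σ (fun r => r.2 = a * r.1 + b), ← N_eq σ q hσ hc hq _
    (by simp only [map_add, map_mul, inv]; ring) hk]
  refine card_bij (fun p _ => p.1 - σ a) ?_ ?_ ?_
  · intro r hr
    simp only [mem_filter, mem_univ, true_and] at hr ⊢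
    rw [← key, ← hr.2]; exact hr.1
  · intro r hr s hs h
    simp only [mem_filter, mem_univ, true_and] at hr hs
    have : r.1 = s.1 := sub_left_injective h
    exact Prod.ext this (by rw [hr.2, hs.2, this])
  · intro y hy
    simp only [mem_filter, mem_univ, true_and] at hy
    refine ⟨(y + σ a, a * (y + σ a) + b), ?_, by simp⟩
    simp only [mem_filter, mem_univ, true_and, and_true]
    rw [key]; simpa using hy

omit [Fintype F] [DecidableEq F] in
theorem vec_iso (p : Option (Aff σ)) : hf σ (vec σ p) (vec σ p) = 0 := by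
  rcases p with _ | p
  · simp [hf, vec]
  · simp only [hf, vec, map_one]
    linear_combination -p.2

omit [Fintype F] [DecidableEq F] in
theorem vec_indep (p r : Option (Aff σ)) (h : p ≠ r) (D a : F) (e : D • vec σ p = a • vec σ r) :
    D = 0 := by
  rcases p with _ | p <;> rcases r with _ | r
  · exact absurd rfl h
  · simp only [vec, Prod.smul_mk, smul_eq_mul, Prod.mk.injEq] at e
    obtain ⟨_, e2, e3⟩ := e
    have : a = 0 := by simpa using e3.symm
    simpa [this] using e2
  · simp only [vec, Prod.smul_mk, smul_eq_mul, Prod.mk.injEq] at e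
    simpa using e.2.2
  · simp only [vec, Prod.smul_mk, smul_eq_mul, Prod.mk.injEq, mul_one] at e
    obtain ⟨e1, e2, rfl⟩ := e
    by_contra hD
    exact h (congrArg some (Subtype.ext (Prod.ext (mul_left_cancel₀ hD e1)
      (mul_left_cancel₀ hD e2))))

omit [Fintype F] [DecidableEq F] in
theorem vec_span (p r : Option (Aff σ)) (h : p ≠ r) : ∃ z, det3 (vec σ p) (vec σ r) z ≠ 0 := by
  rcases p with _ | p <;> rcases r with _ | r
  · exact absurd rfl h
  · exact ⟨(1, 0, 0), by simp [vec, det3]⟩
  · exact ⟨(1, 0, 0), by simp [vec, det3]⟩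
  · by_contra hcon
    push Not at hcon
    have e1 := hcon (1, 0, 0)
    have e2 := hcon (0, 1, 0)
    simp only [vec, det3] at e1 e2
    exact h (congrArg some (Subtype.ext (Prod.ext (by linear_combination -e2)
      (by linear_combination e1))))

include hσ hc hq in
theorem card_line (p r : Option (Aff σ)) (h : p ≠ r) :
    (univ.filter fun z => det3 (vec σ p) (vec σ r) (vec σ z) = 0).card = q + 1 := by
  have vert : ∀ (x c : F), c ≠ 0 → ∀ P : Option (Aff σ) → F,
      (∀ z, P z = c * ((vec σ z).1 - x * (vec σ z).2.2)) →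
      (univ.filter fun z => P z = 0).card = q + 1 := by
    intro x c hc0 P hP
    rw [card_opt, if_pos (by simp [hP, vec]), add_comm, ← card_vert σ q hσ hc hq x]
    congr 2
    ext z
    simp [hP, vec, hc0, sub_eq_zero]
  rcases p with _ | p <;> rcases r with _ | r
  · exact absurd rfl h
  · exact vert r.1.1 1 one_ne_zero _ (fun z => by simp only [vec, det3]; ring)
  · exact vert p.1.1 (-1) (by simp) _ (fun z => by simp only [vec, det3]; ring)
  · by_cases hx : p.1.1 = r.1.1
    · have hy : p.1.2 - r.1.2 ≠ 0 := by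
        intro hy
        exact h (congrArg some (Subtype.ext (Prod.ext hx (sub_eq_zero.mp hy))))
      exact vert p.1.1 _ hy _ (fun z => by simp only [vec, det3, ← hx]; ring)
    · have hd : p.1.1 - r.1.1 ≠ 0 := sub_ne_zero.mpr hx
      rw [card_opt, if_neg (by
        simp only [vec, det3]; intro h0; apply hd; linear_combination -h0), zero_add,
        ← card_slant σ q hσ hc hq ((p.1.2 - r.1.2) / (p.1.1 - r.1.1))
          ((p.1.1 * r.1.2 - p.1.2 * r.1.1) / (p.1.1 - r.1.1)) p r
          (by field_simp; ring) (by field_simp; ring) hx]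
      congr 1
      ext z
      rw [mem_filter_univ, mem_filter_univ]
      simp only [vec, det3]
      constructor
      · intro h0; field_simp; linear_combination -h0
      · intro h0; field_simp at h0; linear_combination -h0

include hσ hc hq in
theorem unital : Nonempty (LS (Option (Aff σ)) (q + 1)) := by
  refine ⟨{ B := fun p r => univ.filter fun z => det3 (vec σ p) (vec σ r) (vec σ z) = 0
            left := ?_, right := ?_, size := card_line σ q hσ hc hq, uniq := ?_, onan := ?_ }⟩
  · intro x y _
    rw [mem_filter_univ]; simp only [det3]; ring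
  · intro x y _
    rw [mem_filter_univ]; simp only [det3]; ring
  · intro x y h u hu v hv huv
    simp only [mem_filter, mem_univ, true_and] at hu hv
    ext z
    simp only [mem_filter, mem_univ, true_and]
    exact ⟨line_transfer' _ _ _ _ _ (vec_span σ u v huv) hu hv,
      line_transfer _ _ _ _ _ (vec_span σ x y h) hu hv⟩
  · intro u v w s t r _ _ _ _ hsu htw hrv hs ht hr hr'
    simp only [mem_filter, mem_univ, true_and] at hs ht hr hr' ⊢
    exact onan_core σ _ _ _ _ _ _ (vec_iso σ u) (vec_iso σ v) (vec_iso σ w) (vec_iso σ s)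
      (vec_iso σ t) (vec_iso σ r) hs ht hr hr' (vec_indep σ s u hsu) (vec_indep σ t w htw)
      (vec_indep σ r v hrv)

end Count

theorem step (m : ℕ) (hm : 1 ≤ m) : Nonempty (LS (Fin ((2 ^ m) ^ 3 + 1)) (2 ^ m + 1)) := by
  classical
  have : Fact (Nat.Prime 2) := ⟨Nat.prime_two⟩
  let : Fintype (GaloisField 2 (2 * m)) := Fintype.ofFinite _
  have hc : Fintype.card (GaloisField 2 (2 * m)) = (2 ^ m) ^ 2 := by
    rw [← Nat.card_eq_fintype_card, GaloisField.card 2 (2 * m) (by omega), ← pow_mul, mul_comm]
  have hq : 2 ≤ 2 ^ m := by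
    calc 2 = 2 ^ 1 := rfl
      _ ≤ 2 ^ m := Nat.pow_le_pow_right (by norm_num) hm
  let σ := iterateFrobenius (GaloisField 2 (2 * m)) 2 m
  have hσ : ∀ x, σ x = x ^ (2 ^ m) := fun x => iterateFrobenius_def _ _ _
  obtain ⟨P⟩ := unital σ (2 ^ m) hσ hc hq
  exact transport (Fintype.equivFinOfCardEq (card_pts σ (2 ^ m) hσ hc hq)) P

theorem tower (j : ℕ) : Nonempty (LS (Fin (2 ^ (2 * 3 ^ j) + 1)) 5) := by
  induction j with
  | zero => exact triv 5
  | succ j ih =>
    obtain ⟨Q⟩ := ih
    obtain ⟨P⟩ := step (2 * 3 ^ j) (by have := Nat.one_le_pow j 3 (by norm_num); omega)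
    have e : (2 ^ (2 * 3 ^ j)) ^ 3 = 2 ^ (2 * 3 ^ (j + 1)) := by rw [← pow_mul]; congr 1; ring
    rw [← e]
    exact comp (by simp) P Q

end Pool.Agent.H5.Unital
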