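import Pool.Agent.H5.UpwordDefs

set_option autoImplicit false

namespace Pool.Agent.H5.Upword

open Pool.Agent.H5.UpwordDefs

def M (o : Option Bool) (b : Bool) : Prop := ∀ a, o = some a → b = a

def C (W : ℕ → Option Bool) (m i : ℕ) (v : ℕ → Bool) : Prop := ∀ j < m, M (W (i + j)) (v j)

section
variable {W : ℕ → Option Bool} {m K : ℕ}

lemma M_both {o : Option Bool} (h1 : M o true) (h2 : M o false) : o = none := by
  rcases o with _ | a
  · rfl
  · have := (h1 a rfl).trans (h2 a rfl).symm
    simp at this

lemma M_get (o : Option Bool) : M o (o.getD false) := by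
  rintro a rfl
  rfl

lemma right (hU : ∀ u, ∃! i, i < K + 1 ∧ C W (m + 1) i u) (v : ℕ → Bool) (b : Bool) :
    ∃! i, i < K + 1 ∧ C W m i v ∧ M (W (i + m)) b := by
  refine (existsUnique_congr fun i => and_congr_right fun _ => ?_).1
    (hU fun j => if j < m then v j else b)
  constructor
  · intro h
    exact ⟨fun j hj => by simpa [hj] using h j (by omega), by simpa using h m (by omega)⟩
  · rintro ⟨h1, h2⟩ j hj
    by_cases e : j < m
    · simpa [e] using h1 j e
    · obtain rfl : j = m := by omega
      simpa using h2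

lemma left (hU : ∀ u, ∃! i, i < K + 1 ∧ C W (m + 1) i u) (v : ℕ → Bool) (b : Bool) :
    ∃! i, i < K + 1 ∧ C W m (i + 1) v ∧ M (W i) b := by
  refine (existsUnique_congr fun i => and_congr_right fun _ => ?_).1
    (hU fun j => if j = 0 then b else v (j - 1))
  constructor
  · intro h
    refine ⟨fun j hj => ?_, by simpa using h 0 (by omega)⟩
    have := h (j + 1) (by omega)
    rw [show i + (j + 1) = i + 1 + j by omega] at this
    simpa using this
  · rintro ⟨h1, h2⟩ j hj
    rcases j with _ | j
    · simpa using h2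
    · rw [show i + (j + 1) = i + 1 + j by omega]
      simpa using h1 j (by omega)

open Classical in
lemma cnt {P : ℕ → Prop} {o : ℕ → Option Bool}
    (h : ∀ b, ∃! i, i < K + 1 ∧ P i ∧ M (o i) b) :
    ∑ i ∈ Finset.range (K + 1), (if P i then (if o i = none then 2 else 1) else 0) = 2 := by
  have e : ∀ i, (if P i then (if o i = none then 2 else 1) else 0 : ℕ) =
      ∑ b : Bool, if P i ∧ M (o i) b then 1 else 0 := by
    intro i
    by_cases hp : P i
    · rcases ho : o i with _ | _ | _ <;> simp [hp, M]
    · simp [hp]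
  simp only [e]
  rw [Finset.sum_comm]
  have e2 : ∀ b, ∑ i ∈ Finset.range (K + 1), (if P i ∧ M (o i) b then 1 else 0 : ℕ) = 1 := by
    intro b
    obtain ⟨i, ⟨h1, h2⟩, h3⟩ := h b
    rw [Finset.sum_eq_single i, if_pos h2]
    · intro j hj hji
      exact if_neg fun hh => hji (h3 j ⟨Finset.mem_range.1 hj, hh⟩)
    · intro hi
      exact absurd (Finset.mem_range.2 h1) hi
  simp [e2]

lemma blk {p q : ℕ} (h : ∀ v, C W m p v → C W m q v) {j : ℕ} (hj : j < m) {a : Bool}
    (ha : W (q + j) = some a) : W (p + j) = some a := by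
  by_contra hc
  have := h (fun t => if t = j then !a else (W (p + t)).getD false) (by
    intro t ht
    by_cases e : t = j
    · subst e
      intro a' ha'
      rw [ha'] at hc
      cases a <;> cases a' <;> simp_all
    · simpa [e] using M_get _) j hj a ha
  simp at this

lemma wd_pc (hU : ∀ u, ∃! i, i < K + 1 ∧ C W (m + 1) i u)
    (hD : ∀ i < K, (W i = none ↔ W (i + 1 + m) = none)) : ∀ j < m, W j = W (K + 1 + j) := by
  classical
  have hC : ∀ v, C W m 0 v ↔ C W m (K + 1) v := by
    intro v
    have h1 := cnt (right hU v)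
    have h2 := cnt (left hU v)
    rw [Finset.sum_range_succ'] at h1
    rw [Finset.sum_range_succ] at h2
    rw [Finset.sum_congr rfl (g := fun i => if C W m (i + 1) v then
      (if W i = none then 2 else 1) else 0)
      (fun i hi => by simp only [hD i (Finset.mem_range.1 hi)])] at h1
    have h3 := Nat.add_left_cancel (h1.trans h2.symm)
    by_cases a : C W m 0 v <;> by_cases b : C W m (K + 1) v
    · exact iff_of_true a b
    · rw [if_pos a, if_neg b] at h3
      split_ifs at h3 <;> omega
    · rw [if_neg a, if_pos b] at h3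
      split_ifs at h3 <;> omega
    · exact iff_of_false a b
  intro j hj
  rcases h1 : W (K + 1 + j) with _ | a
  · rcases h2 : W j with _ | a
    · rfl
    · have := blk (fun v => (hC v).2) hj (a := a) (by simpa using h2)
      rw [h1] at this
      exact this.symm
  · simpa using blk (fun v => (hC v).1) hj h1

lemma pc_wd (hU : ∀ u, ∃! i, i < K + 1 ∧ C W (m + 1) i u)
    (hP : ∀ j < m, W j = W (K + 1 + j)) : ∀ i < K, (W i = none ↔ W (i + 1 + m) = none) := by
  intro i hi
  have hC : ∀ v, C W m 0 v ↔ C W m (K + 1) v := fun v =>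
    forall₂_congr fun j hj => by rw [← hP j hj, Nat.zero_add]
  let v : ℕ → Bool := fun j => (W (i + 1 + j)).getD false
  have hv : C W m (i + 1) v := fun j _ => M_get _
  constructor
  · intro h
    have u : ∀ t < K + 1, C W m (t + 1) v → t = i := fun t ht hc =>
      (left hU v _).unique ⟨ht, hc, M_get _⟩ ⟨by omega, hv, by simp [h, M]⟩
    have w : ∀ b, M (W (i + 1 + m)) b := fun b => by
      obtain ⟨t, ⟨h1, h2, h3⟩, -⟩ := right hU v b
      rcases t with _ | t
      · have := u K (by omega) ((hC v).1 h2)
        omega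
      · rwa [u t (by omega) h2] at h3
    exact M_both (w _) (w _)
  · intro h
    have u : ∀ t < K + 1, C W m t v → t = i + 1 := fun t ht hc =>
      (right hU v _).unique ⟨ht, hc, M_get _⟩ ⟨by omega, hv, by simp [h, M]⟩
    have w : ∀ b, M (W i) b := fun b => by
      obtain ⟨t, ⟨h1, h2, h3⟩, -⟩ := left hU v b
      by_cases e : t = K
      · subst e
        have := u 0 (by omega) ((hC v).2 h2)
        omega
      · have := u (t + 1) (by omega) h2
        rwa [show t = i by omega] at h3
    exact M_both (w _) (w _)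

lemma overlap (hU : ∀ u, ∃! i, i < K + 1 ∧ C W (m + 1) i u)
    (hP : ∀ j < m, W j = W (K + 1 + j)) (h : K + 1 < m) :
    K = 0 ∧ ∀ t < K + 1 + m, W t = none := by
  have per : ∀ t < K + 1 + m, ∃ r < K + 1, W t = W r := by
    intro t
    induction t using Nat.strong_induction_on with
    | _ t ih =>
      intro ht
      by_cases e : t < K + 1
      · exact ⟨t, e, rfl⟩
      · obtain ⟨r, h1, h2⟩ := ih (t - (K + 1)) (by omega) (by omega)
        refine ⟨r, h1, ?_⟩
        rw [← h2, hP (t - (K + 1)) (by omega)]
        congr 1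
        omega
  have all : ∀ b, ∀ t < K + 1 + m, M (W t) b := by
    intro b t ht
    obtain ⟨i, ⟨h1, h2⟩, -⟩ := hU fun _ => b
    obtain ⟨r, h3, h4⟩ := per t ht
    rw [h4]
    by_cases e : i ≤ r
    · have := h2 (r - i) (by omega)
      rwa [show i + (r - i) = r by omega] at this
    · have := h2 (K + 1 + r - i) (by omega)
      rwa [show i + (K + 1 + r - i) = K + 1 + r by omega, ← hP r (by omega)] at this
  refine ⟨?_, fun t ht => M_both (all _ t ht) (all _ t ht)⟩
  exact (hU fun _ => true).unique (y₁ := K) (y₂ := 0)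
    ⟨by omega, fun j hj => all _ _ (by omega)⟩ ⟨by omega, fun j hj => all _ _ (by omega)⟩

end

lemma step (w : PWord) (m i : ℕ) (h : i + 1 + (m + 1) ≤ w.length) :
    ((w.drop i).take (m + 1)).count none = ((w.drop (i + 1)).take (m + 1)).count none ↔
      (w.getD i none = none ↔ w.getD (i + 1 + m) none = none) := by
  have e1 : (w.drop i).take (m + 1) = w[i] :: (w.drop (i + 1)).take m := by
    rw [List.drop_eq_getElem_cons (by omega), List.take_succ_cons]
  have e2 : (w.drop (i + 1)).take (m + 1) = (w.drop (i + 1)).take m ++ [w[i + 1 + m]] := by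
    rw [List.take_succ_eq_append_getElem (by simp; omega)]
    simp
  rw [e1, e2, List.getD_eq_getElem _ _ (by omega : i < w.length),
    List.getD_eq_getElem _ _ (by omega : i + 1 + m < w.length), List.count_cons,
    List.count_append, List.count_singleton]
  generalize w[i] = a
  generalize w[i + 1 + m] = b
  cases a <;> cases b <;> simp

theorem main (n : ℕ) (hn : 1 ≤ n) (w : PWord) (hU : Universal n w) (hT : ¬ IsTrivial n w) :
    (WellDefined n w ↔ Pseudocyclic n w) ∧ (Pseudocyclic n w ↔ Cyclic n w) := by
  obtain ⟨m, rfl⟩ : ∃ m, n = m + 1 := ⟨n - 1, by omega⟩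
  obtain ⟨K, hK⟩ : ∃ K, w.length = K + 1 + m := by
    obtain ⟨i, ⟨h, -⟩, -⟩ := hU fun _ => true
    exact ⟨w.length - 1 - m, by omega⟩
  let W : ℕ → Option Bool := fun t => w.getD t none
  have hW : ∀ t (ht : t < w.length), W t = w[t] := fun t ht => List.getD_eq_getElem _ _ ht
  have hU' : ∀ u, ∃! i, i < K + 1 ∧ C W (m + 1) i u := by
    intro u
    refine (existsUnique_congr fun i => ?_).1 (hU fun j => u j)
    constructor
    · rintro ⟨h1, h2⟩
      refine ⟨by omega, fun j hj a ha => h2 ⟨j, hj⟩ a ?_⟩
      rw [List.getElem?_eq_getElem (by simp only; omega), ← hW, ha]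
    · rintro ⟨h1, h2⟩
      refine ⟨by omega, fun j a ha => h2 j j.2 a ?_⟩
      have := j.2
      rw [List.getElem?_eq_getElem (by omega), ← hW] at ha
      exact Option.some.inj ha
  have hP : Pseudocyclic (m + 1) w ↔ ∀ j < m, W j = W (K + 1 + j) := by
    unfold Pseudocyclic
    rw [Nat.add_sub_cancel, show w.length - m = K + 1 by omega]
    constructor
    · intro h j hj
      have := congrArg (fun l => l[j]?) h
      simp only [List.getElem?_take, hj, if_true, List.getElem?_drop] at this
      simp only [W, List.getD_eq_getElem?_getD, this]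
    · intro h
      refine List.ext_getElem (by simp; omega) fun j h1 h2 => ?_
      have hj : j < m := by simp at h1; omega
      simp only [List.getElem_take, List.getElem_drop]
      rw [← hW, ← hW, h j hj]
  have hD : WellDefined (m + 1) w ↔ ∀ i < K, (W i = none ↔ W (i + 1 + m) = none) := by
    constructor
    · rintro ⟨d, h⟩ i hi
      exact (step w m i (by omega)).1 (by rw [h i (by omega), h (i + 1) (by omega)])
    · intro h
      refine ⟨_, fun i => Nat.rec (fun _ => rfl) (fun i ih hi => ?_) i⟩
      rw [← ih (by omega)]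
      exact ((step w m i (by omega)).2 (h i (by omega))).symm
  refine ⟨by rw [hP, hD]; exact ⟨wd_pc hU', pc_wd hU'⟩, fun h => ⟨h, ?_⟩, fun h => h.1⟩
  by_contra hc
  obtain ⟨rfl, h2⟩ := overlap hU' (hP.1 h) (by omega)
  refine hT (Or.inl (List.eq_replicate_iff.2 ⟨by omega, fun b hb => ?_⟩))
  obtain ⟨t, ht, rfl⟩ := List.getElem_of_mem hb
  rw [← hW, h2 t (by omega)]

end Pool.Agent.H5.Upword
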