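import Mathlib

set_option autoImplicit false

namespace Pool.Agent.H5.UpwordDefs

/-- Binary words with wild cards: `none` is the wild-card symbol. -/
abbrev PWord := List (Option Bool)

/-- `u` is covered by `w` at position `i`. -/
def Covers (w : PWord) {n : ℕ} (u : Fin n → Bool) (i : ℕ) : Prop :=
  i + n ≤ w.length ∧ ∀ (j : Fin n) (a : Bool), w[i + j]? = some (some a) → u j = a

/-- Every binary word of length `n` is covered at exactly one position. -/
def Universal (n : ℕ) (w : PWord) : Prop := ∀ u : Fin n → Bool, ∃! i, Covers w u i

def IsTrivial (n : ℕ) (w : PWord) : Prop := w = List.replicate n none ∨ none ∉ w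

/-- All windows contain the same number of wild cards. -/
def WellDefined (n : ℕ) (w : PWord) : Prop :=
  ∃ d, ∀ i, i + n ≤ w.length → ((w.drop i).take n).count none = d

/-- The first and the last `n - 1` characters agree. -/
def Pseudocyclic (n : ℕ) (w : PWord) : Prop := w.take (n - 1) = w.drop (w.length - (n - 1))

/-- Moreover these two blocks do not overlap. -/
def Cyclic (n : ℕ) (w : PWord) : Prop := Pseudocyclic n w ∧ 2 * (n - 1) ≤ w.length

end Pool.Agent.H5.UpwordDefs
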