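import Pool.Agent.H5.WangShiDefs

set_option autoImplicit false

namespace Pool.Agent.H5.WangShi

open Pool.Agent.H5.WangShiDefs

lemma gap {α : Type} (S : Finset α) (ψ : α → ℤ) (lo hi : ℤ) (hl : lo ≤ hi + 3)
    (h1 : ∀ a ∈ S, lo ≤ ψ a ∧ ψ a ≤ hi)
    (h2 : ∀ a ∈ S, ∀ b ∈ S, a ≠ b → ψ a + 3 ≤ ψ b ∨ ψ b + 3 ≤ ψ a) :
    3 * (S.card : ℤ) ≤ hi - lo + 3 := by
  have h := Finset.card_le_card_of_injOn (s := S) (t := Finset.Icc 0 ((hi - lo) / 3))
    (fun a => (ψ a - lo) / 3)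
    (fun a ha => by
      have := h1 a ha
      simp only [Finset.coe_Icc, Set.mem_Icc]
      omega)
    (fun a ha b hb e => by
      by_contra hne
      have := h2 a ha b hb hne
      simp only at e
      omega)
  rw [Int.card_Icc] at h
  omega

open Classical in
noncomputable def S (d : ℕ) (x y : ℝ) : Finset (ℕ × ℕ) :=
  (Finset.Icc 1 d ×ˢ Finset.Icc 1 d).filter (fun p => x * p.2 + y * p.1 = p.1 * p.2)

noncomputable def S' (d : ℕ) (x y : ℝ) : Finset (ℕ × ℕ) := (S d x y).filter (fun p => p.2 < d)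

lemma mem_S {d : ℕ} {x y : ℝ} {p : ℕ × ℕ} : p ∈ S d x y ↔
    ((1 ≤ p.1 ∧ p.1 ≤ d) ∧ (1 ≤ p.2 ∧ p.2 ≤ d)) ∧ x * p.2 + y * p.1 = p.1 * p.2 := by
  simp [S]

lemma conv {K u w u' w' : ℝ} (hu : 0 < u) (h : u * w = K) (h' : u' * w' = K) (hK : 0 < K)
    (hlt : u < u') : w' < w ∧ (u' ^ 2 ≤ K → u' - u < w - w') ∧ (K < u ^ 2 → w - w' < u' - u) := by
  have hw : 0 < w := by by_contra hc; nlinarith
  have hw' : 0 < w' := by by_contra hc; nlinarith
  have h1 : w' < w := by by_contra hc; nlinarith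
  refine ⟨h1, fun h2 => ?_, fun h2 => ?_⟩
  · have h3 : u' ≤ w' := by by_contra hc; nlinarith
    by_contra hc
    nlinarith
  · have h3 : w < u := by by_contra hc; nlinarith
    by_contra hc
    nlinarith

lemma bound (d : ℕ) {x y z : ℝ} (hx : 0 < x) (hy : 0 < y) (hz : 0 < z) (hs : x + y + z = d) :
    3 * ((S' d x y).card : ℤ) + 3 * (⌊x * d / (x + z)⌋ - ⌈x * d / (x + z)⌉ + 1) ≤
      4 + (d + ⌊y * d / (y + z)⌋ - ⌈y * d / (y + z)⌉ - ⌈x * d / (x + z)⌉) +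
        (d + ⌊x * d / (x + z)⌋ - ⌈x * d / (x + z)⌉ - ⌈y * d / (y + z)⌉) := by
  classical
  set a := x * d / (x + z) with ha
  set b := y * d / (y + z) with hb
  have hd : (0 : ℝ) < d := by linarith
  have ea : a * (x + z) = x * d := div_mul_cancel₀ _ (by positivity)
  have eb : b * (y + z) = y * d := div_mul_cancel₀ _ (by positivity)
  have a0 : 0 < a := by positivity
  have b0 : 0 < b := by positivity
  have ad : a < d := by rw [ha, div_lt_iff₀ (by positivity)]; nlinarith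
  have bd : b < d := by rw [hb, div_lt_iff₀ (by positivity)]; nlinarith
  have ca : ⌈a⌉ ≤ d := Int.ceil_le.2 (by exact_mod_cast ad.le)
  have cb : ⌈b⌉ ≤ d := Int.ceil_le.2 (by exact_mod_cast bd.le)
  have fa := Int.ceil_le_floor_add_one a
  have fb := Int.ceil_le_floor_add_one b
  have ga := Int.floor_le_ceil a
  have gb := Int.floor_le_ceil b
  have h1 : ((S' d x y).card : ℤ) + (⌊a⌋ - ⌈a⌉ + 1) ≤ (S d x y).card := by
    by_cases h : ⌊a⌋ = ⌈a⌉
    · have h2 : (⌈a⌉ : ℝ) = a := le_antisymm (by rw [← h]; exact Int.floor_le a) (Int.le_ceil a)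
      have h3 : 0 < ⌈a⌉ := Int.ceil_pos.2 a0
      have h4 : ((⌈a⌉.toNat : ℕ) : ℝ) = a := by
        have h5 : ((⌈a⌉.toNat : ℕ) : ℝ) = (⌈a⌉ : ℝ) := by
          exact_mod_cast Int.toNat_of_nonneg h3.le
        rw [h5, h2]
      have hd1 : 1 ≤ d := by exact_mod_cast (show (0 : ℝ) < d from hd)
      have : (S' d x y).card < (S d x y).card := Finset.card_lt_card
        (Finset.filter_ssubset.2 ⟨(⌈a⌉.toNat, d), mem_S.2 ⟨⟨⟨by omega, by omega⟩, hd1, le_rfl⟩,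
          by simp only [h4]; linear_combination a * hs - ea⟩, by simp⟩)
      omega
    · have := Finset.card_filter_le (S d x y) (fun p => p.2 < d)
      unfold S'
      omega
  have key : ∀ p ∈ S d x y, x < p.1 ∧ y < p.2 ∧ ((p.1 : ℝ) - x) * (p.2 - y) = x * y := by
    intro p hp
    obtain ⟨⟨⟨p1, -⟩, p2, -⟩, e⟩ := mem_S.1 hp
    have q1 : (1 : ℝ) ≤ p.1 := by exact_mod_cast p1
    have q2 : (1 : ℝ) ≤ p.2 := by exact_mod_cast p2
    refine ⟨?_, ?_, by linarith⟩ <;> by_contra hc <;> nlinarith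
  have h2 := gap (S d x y) (fun p => (p.1 : ℤ) - p.2 + if ((p.1 : ℝ) - x) ^ 2 ≤ x * y then 0 else 1)
    (⌈a⌉ - (d + ⌊a⌋ - ⌈a⌉)) (d + ⌊b⌋ - ⌈b⌉ - ⌈b⌉ + 1) (by omega) ?_ ?_
  · omega
  · intro p hp
    obtain ⟨⟨⟨p1, p1'⟩, p2, p2'⟩, e⟩ := mem_S.1 hp
    obtain ⟨k1, k2, -⟩ := key p hp
    have q1 : (p.1 : ℝ) ≤ d := by exact_mod_cast p1'
    have q2 : (p.2 : ℝ) ≤ d := by exact_mod_cast p2'
    have l1 : ⌈a⌉ ≤ p.1 := Int.ceil_le.2 (by
      rw [ha, div_le_iff₀ (by positivity)]; push_cast; nlinarith)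
    have l2 : ⌈b⌉ ≤ p.2 := Int.ceil_le.2 (by
      rw [hb, div_le_iff₀ (by positivity)]; push_cast; nlinarith)
    have l3 : p.2 = d → (p.1 : ℤ) ≤ ⌊a⌋ := fun h => Int.le_floor.2 (by
      rw [ha, le_div_iff₀ (by positivity)]; rw [h] at e; push_cast; nlinarith)
    have l4 : p.1 = d → (p.2 : ℤ) ≤ ⌊b⌋ := fun h => Int.le_floor.2 (by
      rw [hb, le_div_iff₀ (by positivity)]; rw [h] at e; push_cast; nlinarith)
    split_ifs <;> omega
  · have main : ∀ p ∈ S d x y, ∀ q ∈ S d x y, p.1 < q.1 →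
        ((p.1 : ℤ) - p.2 + if ((p.1 : ℝ) - x) ^ 2 ≤ x * y then 0 else 1) + 3 ≤
        ((q.1 : ℤ) - q.2 + if ((q.1 : ℝ) - x) ^ 2 ≤ x * y then 0 else 1) := by
      intro p hp q hq hlt
      obtain ⟨k1, -, k3⟩ := key p hp
      obtain ⟨-, -, k3'⟩ := key q hq
      have hlt' : (p.1 : ℝ) < q.1 := by exact_mod_cast hlt
      obtain ⟨c1, c2, c3⟩ := conv (sub_pos.2 k1) k3 k3' (mul_pos hx hy) (by linarith)
      have d1 : q.2 < p.2 := by exact_mod_cast (show (q.2 : ℝ) < p.2 by linarith)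
      split_ifs with i1 i2 i2
      · have : (q.1 : ℤ) - p.1 < p.2 - q.2 := by
          exact_mod_cast (show (q.1 : ℝ) - p.1 < p.2 - q.2 by linarith [c2 i2])
        omega
      · omega
      · exfalso
        nlinarith
      · have : (p.2 : ℤ) - q.2 < q.1 - p.1 := by
          exact_mod_cast (show (p.2 : ℝ) - q.2 < q.1 - p.1 by linarith [c3 (not_le.1 i1)])
        omega
    intro p hp q hq hne
    rcases lt_trichotomy p.1 q.1 with h | h | h
    · exact Or.inl (main p hp q hq h)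
    · exfalso
      obtain ⟨k1, -, k3⟩ := key p hp
      obtain ⟨-, -, k3'⟩ := key q hq
      rw [← h, ← k3] at k3'
      have : (q.2 : ℝ) = p.2 := by linarith [mul_left_cancel₀ (sub_pos.2 k1).ne' k3']
      exact hne (Prod.ext h (by exact_mod_cast this.symm))
    · exact Or.inr (main q hq p hp h)

lemma total (d : ℕ) {x y z : ℝ} (hx : 0 < x) (hy : 0 < y) (hz : 0 < z) (hs : x + y + z = d) :
    (S' d x y).card + (S' d y z).card + (S' d z x).card ≤ d + 1 := by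
  have b1 := bound d hx hy hz hs
  have b2 := bound d hy hz hx (by linarith)
  have b3 := bound d hz hx hy (by linarith)
  have c : ∀ {u v : ℝ}, 0 < u → 0 < v → ⌈u * d / (u + v)⌉ = d - ⌊v * d / (v + u)⌋ ∧
      ⌊u * d / (u + v)⌋ = d - ⌈v * d / (v + u)⌉ := by
    intro u v hu hv
    have : u * d / (u + v) = -(v * d / (v + u)) + d := by field_simp; ring
    rw [this, Int.ceil_add_natCast, Int.floor_add_natCast, Int.ceil_neg, Int.floor_neg]
    omega
  have c1 := c hx hz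
  have c2 := c hy hx
  have c3 := c hz hy
  omega

theorem main (d : ℕ) (p : ℝ × ℝ) (hx : 0 < p.1) (hy : 0 < p.2) (hz : p.1 + p.2 < d) :
    {L ∈ lines d | p ∈ L}.ncard ≤ d + 1 := by
  classical
  obtain ⟨x, y⟩ := p
  simp only at hx hy hz
  let f1 : ℕ × ℕ → AffineSubspace ℝ (ℝ × ℝ) := fun q => affineSpan ℝ {((q.1 : ℝ), 0), (0, (q.2 : ℝ))}
  let f2 : ℕ × ℕ → AffineSubspace ℝ (ℝ × ℝ) := fun q =>
    affineSpan ℝ {((d : ℝ) - q.1, (q.1 : ℝ)), ((d : ℝ) - q.2, 0)}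
  let f3 : ℕ × ℕ → AffineSubspace ℝ (ℝ × ℝ) := fun q =>
    affineSpan ℝ {(0, (d : ℝ) - q.1), ((q.2 : ℝ), (d : ℝ) - q.2)}
  let U := (S' d x y).image f1 ∪ (S' d y (d - x - y)).image f2 ∪ (S' d (d - x - y) x).image f3
  have hU : U.card ≤ d + 1 := by
    refine le_trans ?_ (total d hx hy (show 0 < d - x - y by linarith) (by ring))
    refine (Finset.card_union_le _ _).trans (Nat.add_le_add ((Finset.card_union_le _ _).trans
      (Nat.add_le_add Finset.card_image_le Finset.card_image_le)) Finset.card_image_le)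
  refine le_trans (Set.ncard_le_ncard (t := (U : Set _)) ?_ U.finite_toSet)
    (by rwa [Set.ncard_coe_finset])
  have col : ∀ P Q : ℝ × ℝ, (x, y) ∈ affineSpan ℝ {P, Q} →
      (x - P.1) * (Q.2 - P.2) = (y - P.2) * (Q.1 - P.1) := by
    intro P Q h
    obtain ⟨r, hr⟩ := mem_affineSpan_pair_iff_exists_lineMap_eq.1 h
    have e1 := congrArg Prod.fst hr
    have e2 := congrArg Prod.snd hr
    simp [AffineMap.lineMap_apply] at e1 e2
    rw [← e1, ← e2]
    ring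
  have m1 : ∀ i j : ℕ, 1 ≤ i → i ≤ d → 1 ≤ j → j < d → (x, y) ∈ f1 (i, j) → f1 (i, j) ∈ U := by
    intro i j a b c e h
    refine Finset.mem_union_left _ (Finset.mem_union_left _ (Finset.mem_image_of_mem _
      (Finset.mem_filter.2 ⟨mem_S.2 ⟨⟨⟨a, b⟩, c, e.le⟩, ?_⟩, e⟩)))
    have := col _ _ h
    simp only at this ⊢
    linarith
  have m2 : ∀ i j : ℕ, 1 ≤ i → i ≤ d → 1 ≤ j → j < d → (x, y) ∈ f2 (i, j) → f2 (i, j) ∈ U := by
    intro i j a b c e h
    refine Finset.mem_union_left _ (Finset.mem_union_right _ (Finset.mem_image_of_mem _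
      (Finset.mem_filter.2 ⟨mem_S.2 ⟨⟨⟨a, b⟩, c, e.le⟩, ?_⟩, e⟩)))
    have := col _ _ h
    simp only at this ⊢
    linarith
  have m3 : ∀ i j : ℕ, 1 ≤ i → i ≤ d → 1 ≤ j → j < d → (x, y) ∈ f3 (i, j) → f3 (i, j) ∈ U := by
    intro i j a b c e h
    refine Finset.mem_union_right _ (Finset.mem_image_of_mem _
      (Finset.mem_filter.2 ⟨mem_S.2 ⟨⟨⟨a, b⟩, c, e.le⟩, ?_⟩, e⟩))
    have := col _ _ h
    simp only at this ⊢
    linarith
  have n1 : ∀ i j : ℕ, i ≤ d → j ≤ d → ¬ CommonSide d ((i : ℝ), 0) (0, (j : ℝ)) →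
      (x, y) ∈ affineSpan ℝ {((i : ℝ), (0 : ℝ)), (0, (j : ℝ))} →
      affineSpan ℝ {((i : ℝ), (0 : ℝ)), (0, (j : ℝ))} ∈ U := by
    intro i j hi hj hc h
    simp [CommonSide] at hc
    by_cases e : j = d
    · subst e
      have : affineSpan ℝ {((i : ℝ), (0 : ℝ)), (0, (j : ℝ))} = f2 (j, j - i) := by
        simp [f2, Nat.cast_sub hi, Set.pair_comm]
      rw [this] at h ⊢
      exact m2 _ _ (by omega) le_rfl (by omega) (by omega) h
    · exact m1 i j (by omega) hi (by omega) (by omega) h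
  have n2 : ∀ i j : ℕ, i ≤ d → j ≤ d → ¬ CommonSide d ((i : ℝ), (d : ℝ) - i) ((j : ℝ), 0) →
      (x, y) ∈ affineSpan ℝ {((i : ℝ), (d : ℝ) - i), ((j : ℝ), (0 : ℝ))} →
      affineSpan ℝ {((i : ℝ), (d : ℝ) - i), ((j : ℝ), (0 : ℝ))} ∈ U := by
    intro i j hi hj hc h
    simp [CommonSide, sub_eq_zero] at hc
    by_cases e : j = 0
    · subst e
      have : affineSpan ℝ {((i : ℝ), (d : ℝ) - i), (((0 : ℕ) : ℝ), (0 : ℝ))} = f3 (d, i) := by
        simp [f3, Set.pair_comm]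
      rw [this] at h ⊢
      exact m3 _ _ (by omega) le_rfl (by omega) (by omega) h
    · have : affineSpan ℝ {((i : ℝ), (d : ℝ) - i), ((j : ℝ), (0 : ℝ))} = f2 (d - i, d - j) := by
        simp [f2, Nat.cast_sub hi, Nat.cast_sub hj]
      rw [this] at h ⊢
      exact m2 _ _ (by omega) (by omega) (by omega) (by omega) h
  have n3 : ∀ i j : ℕ, i ≤ d → j ≤ d → ¬ CommonSide d (0, (i : ℝ)) ((j : ℝ), (d : ℝ) - j) →
      (x, y) ∈ affineSpan ℝ {((0 : ℝ), (i : ℝ)), ((j : ℝ), (d : ℝ) - j)} →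
      affineSpan ℝ {((0 : ℝ), (i : ℝ)), ((j : ℝ), (d : ℝ) - j)} ∈ U := by
    intro i j hi hj hc h
    simp [CommonSide, sub_eq_zero] at hc
    by_cases e : j = d
    · subst e
      have : affineSpan ℝ {((0 : ℝ), (i : ℝ)), ((j : ℝ), (j : ℝ) - j)} = f1 (j, i) := by
        simp [f1, Set.pair_comm]
      rw [this] at h ⊢
      exact m1 _ _ (by omega) le_rfl (by omega) (by omega) h
    · have : affineSpan ℝ {((0 : ℝ), (i : ℝ)), ((j : ℝ), (d : ℝ) - j)} = f3 (d - i, j) := by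
        simp [f3, Nat.cast_sub hi]
      rw [this] at h ⊢
      exact m3 _ _ (by omega) (by omega) (by omega) (by omega) h
  have sy : ∀ P Q, ¬ CommonSide d P Q → ¬ CommonSide d Q P := fun P Q h h' =>
    h (h'.imp And.symm (Or.imp And.symm And.symm))
  rintro L ⟨⟨P, Q, ⟨i, hi, rfl | rfl | rfl⟩, ⟨j, hj, rfl | rfl | rfl⟩, hc, rfl⟩, h⟩
  · exact absurd (Or.inl ⟨rfl, rfl⟩) hc
  · exact n1 i j hi hj hc h
  · rw [Set.pair_comm] at h ⊢
    exact n2 j i hj hi (sy _ _ hc) h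
  · rw [Set.pair_comm] at h ⊢
    exact n1 j i hj hi (sy _ _ hc) h
  · exact absurd (Or.inr (Or.inl ⟨rfl, rfl⟩)) hc
  · exact n3 i j hi hj hc h
  · exact n2 i j hi hj hc h
  · rw [Set.pair_comm] at h ⊢
    exact n3 j i hj hi (sy _ _ hc) h
  · exact absurd (Or.inr (Or.inr ⟨by simp, by simp⟩)) hc

end Pool.Agent.H5.WangShi
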