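import Mathlib

set_option autoImplicit false

namespace Pool.Agent.H5.WangShiDefs

/-- The `3d` division points on the boundary of the triangle with vertices
`(0,0)`, `(d,0)`, `(0,d)`. -/
def IsDiv (d : ℕ) (P : ℝ × ℝ) : Prop :=
  ∃ i : ℕ, i ≤ d ∧ (P = ((i : ℝ), 0) ∨ P = (0, (i : ℝ)) ∨ P = ((i : ℝ), (d : ℝ) - i))

/-- `P` and `Q` lie on a common side line of that triangle. -/
def CommonSide (d : ℕ) (P Q : ℝ × ℝ) : Prop :=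
  (P.2 = 0 ∧ Q.2 = 0) ∨ (P.1 = 0 ∧ Q.1 = 0) ∨ (P.1 + P.2 = d ∧ Q.1 + Q.2 = d)

/-- The lines of the Wang-Shi split `WS_d`. -/
def lines (d : ℕ) : Set (AffineSubspace ℝ (ℝ × ℝ)) :=
  {L | ∃ P Q, IsDiv d P ∧ IsDiv d Q ∧ ¬ CommonSide d P Q ∧ L = affineSpan ℝ {P, Q}}

end Pool.Agent.H5.WangShiDefs
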