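import Pool.Agent.H5.WsatDefs

set_option autoImplicit false

namespace Pool.Agent.H5.Wsat

open SimpleGraph Pool.Agent.H5.WsatDefs

def G (n t : ℕ) : SimpleGraph (Fin n) where
  Adj u v := u.val ≠ v.val ∧ ((u.val < t + 2 ∧ v.val < t + 2) ∨ u.val < 2 ∨ v.val < 2)
  symm := ⟨fun _ _ h => by omega⟩
  loopless := ⟨fun _ h => h.1 rfl⟩

lemma adj {n t : ℕ} {u v : Fin n} : (G n t).Adj u v ↔
    u.val ≠ v.val ∧ ((u.val < t + 2 ∧ v.val < t + 2) ∨ u.val < 2 ∨ v.val < 2) := Iff.rfl

lemma free {n t : ℕ} (ht : 3 ≤ t) : (completeBipartiteGraph (Fin 3) (Fin t)).Free (G n t) := by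
  rintro ⟨f⟩
  have three : ∀ x a b c, a ≠ b → a ≠ c → b ≠ c →
      (completeBipartiteGraph (Fin 3) (Fin t)).Adj x a →
      (completeBipartiteGraph (Fin 3) (Fin t)).Adj x b →
      (completeBipartiteGraph (Fin 3) (Fin t)).Adj x c → (f x).val < t + 2 := by
    intro x a b c ab ac bc ha hb hc
    have h1 := adj.1 (f.toHom.map_adj ha)
    have h2 := adj.1 (f.toHom.map_adj hb)
    have h3 := adj.1 (f.toHom.map_adj hc)
    have e1 : (f a).val ≠ (f b).val := fun h => ab (f.injective (Fin.ext h))
    have e2 : (f a).val ≠ (f c).val := fun h => ac (f.injective (Fin.ext h))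
    have e3 : (f b).val ≠ (f c).val := fun h => bc (f.injective (Fin.ext h))
    simp only [Copy.toHom_apply] at h1 h2 h3
    omega
  have lt : ∀ x, (f x).val < t + 2 := by
    rintro (x | x)
    · exact three _ (.inr ⟨0, by omega⟩) (.inr ⟨1, by omega⟩) (.inr ⟨2, by omega⟩)
        (by simp) (by simp) (by simp) (by simp) (by simp) (by simp)
    · exact three _ (.inl 0) (.inl 1) (.inl 2)
        (by simp) (by simp) (by simp) (by simp) (by simp) (by simp)
  have := Fintype.card_le_of_injective (fun x => (⟨_, lt x⟩ : Fin (t + 2)))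
    fun x y h => f.injective (Fin.ext (by simpa using h))
  simp at this
  omega

lemma sat {n t : ℕ} (ht : 3 ≤ t) (hn : t + 2 ≤ n) :
    WeaklySat (completeBipartiteGraph (Fin 3) (Fin t)) (G n t) := by
  classical
  obtain ⟨N, ⟨enc⟩⟩ := Finite.exists_equiv_fin (Sym2 (Fin n))
  let ord : Sym2 (Fin n) → ℕ := fun e => (if ∀ x ∈ e, t + 2 ≤ x.val then N else 0) + (enc e).val
  refine ⟨free ht, ord, fun e _ g _ h => enc.injective (Fin.ext ?_), ?_⟩
  · have := (enc e).2
    have := (enc g).2
    simp only [ord] at h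
    split_ifs at h <;> omega
  have key : ∀ u v : Fin n, u.val ≠ v.val → 2 ≤ u.val → t + 2 ≤ v.val →
      ∃ (f : (completeBipartiteGraph (Fin 3) (Fin t)).Copy
        (G n t ⊔ fromEdgeSet {g | g ∈ (G n t)ᶜ.edgeSet ∧ ord g ≤ ord s(u, v)})) (a b : _),
        (completeBipartiteGraph (Fin 3) (Fin t)).Adj a b ∧ s(u, v) = s(f a, f b) := by
    intro u v uv hu hv
    obtain ⟨w, w1, w2, w3⟩ : ∃ w, 2 ≤ w ∧ w < t + 2 ∧ (u.val < t + 2 → w = u) :=
      if h : u.val < t + 2 then ⟨u, hu, h, fun _ => rfl⟩ else ⟨2, le_rfl, by omega, by omega⟩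
    let p : Fin 3 → Fin n := fun i => if i.val < 2 then ⟨i, by omega⟩ else u
    let q : Fin t → Fin n := fun i => if i.val + 2 = w then v else ⟨i + 2, by omega⟩
    have hp : ∀ i, (p i).val = if i.val < 2 then i.val else u.val := fun i => by
      simp only [p]; split_ifs <;> rfl
    have hq : ∀ i, (q i).val = if i.val + 2 = w then v.val else i.val + 2 := fun i => by
      simp only [q]; split_ifs <;> rfl
    have ne : ∀ x y : Fin n, x.val ≠ y.val → 2 ≤ x.val → 2 ≤ y.val →
        t + 2 ≤ x.val ∨ t + 2 ≤ y.val → s(x, y) ∈ (G n t)ᶜ.edgeSet := fun x y a b c d =>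
      ⟨fun h => a (congrArg _ h), fun h => by have := (adj (u := x) (v := y)).1 h; omega⟩
    have A : ∀ i j, (G n t ⊔ fromEdgeSet {g | g ∈ (G n t)ᶜ.edgeSet ∧ ord g ≤ ord s(u, v)}).Adj
        (p i) (q j) := by
      intro i j
      have a := hp i
      have b := hq j
      have := j.2
      by_cases c1 : i.val < 2
      · left
        rw [adj, a, b]
        split_ifs <;> omega
      rw [show p i = u from if_neg c1]
      by_cases c2 : j.val + 2 = w
      · rw [show q j = v from if_pos c2]
        exact Or.inr ((fromEdgeSet_adj _).2 ⟨⟨ne u v uv hu (by omega) (Or.inr hv), le_rfl⟩,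
          fun h => uv (congrArg _ h)⟩)
      rw [if_neg c2] at b
      by_cases c3 : u.val < t + 2
      · left
        rw [adj, b]
        omega
      · refine Or.inr ((fromEdgeSet_adj _).2 ⟨⟨ne u _ (by omega) hu (by omega) (by omega), ?_⟩,
          fun h => by have := congrArg Fin.val h; omega⟩)
        have := (enc s(u, q j)).2
        simp only [ord]
        rw [if_neg (fun h => by have := h (q j) (by simp); omega), if_pos (by simp; omega)]
        omega
    refine ⟨⟨⟨Sum.elim p q, ?_⟩, ?_⟩, .inl 2, .inr ⟨w - 2, by omega⟩, by simp, ?_⟩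
    · rintro (i | i) (j | j) h
      · simp at h
      · exact A i j
      · exact (A j i).symm
      · simp at h
    · rintro (i | i) (j | j) h
      · have := congrArg Fin.val h
        have := i.2
        have := j.2
        refine congrArg _ (Fin.ext ?_)
        simp only [RelHom.coeFn_mk, Sum.elim_inl, hp] at *
        split_ifs at * <;> omega
      · exact absurd h (A i j).ne
      · exact absurd h (A j i).ne'
      · have := congrArg Fin.val h
        have := i.2
        have := j.2
        refine congrArg _ (Fin.ext ?_)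
        simp only [RelHom.coeFn_mk, Sum.elim_inr, hq] at *
        split_ifs at * <;> omega
    · change s(u, v) = s(p 2, q _)
      rw [show p 2 = u from if_neg (by simp), show q ⟨w - 2, _⟩ = v from if_pos (by simp; omega)]
  intro e he
  induction e using Sym2.ind with
  | h u v =>
    obtain ⟨h1, h2⟩ := he
    have h3 : u.val ≠ v.val := fun h => h1 (Fin.ext h)
    have h2 := mt (adj (u := u) (v := v)).2 h2
    by_cases c : t + 2 ≤ v.val
    · exact key u v h3 (by omega) c
    · rw [Sym2.eq_swap]
      exact key v u h3.symm (by omega) (by omega)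

lemma card (n t : ℕ) : 2 * (G n t).edgeSet.ncard ≤ 2 * n + (t + 2) * (t + 2) + n * 2 := by
  classical
  rw [← coe_edgeFinset, Set.ncard_coe_finset, ← sum_degrees_eq_twice_card_edges]
  have c : ∀ k, (Finset.univ.filter fun v : Fin n => v.val < k).card ≤ k := fun k => by
    rw [Fin.card_filter_val_lt]; omega
  have d : ∀ v : Fin n, (G n t).degree v ≤
      (if v.val < 2 then n else 0) + (if v.val < t + 2 then t + 2 else 0) + 2 := by
    intro v
    have s : ∀ k, (∀ u, (G n t).Adj v u → u.val < k) → (G n t).degree v ≤ k := fun k h =>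
      le_trans (Finset.card_le_card fun u hu => by simpa using h u (by simpa using hu)) (c k)
    split_ifs
    · exact (s n fun u _ => u.2).trans (by omega)
    · omega
    · exact (s (t + 2) fun u h => by have := adj.1 h; omega).trans (by omega)
    · exact (s 2 fun u h => by have := adj.1 h; omega).trans (by omega)
  refine (Finset.sum_le_sum fun v _ => d v).trans ?_
  simp only [Finset.sum_add_distrib, ← Finset.sum_filter, Finset.sum_const, smul_eq_mul,
    Finset.card_univ, Fintype.card_fin]
  rw [← mul_add]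
  exact Nat.add_le_add_right (Nat.add_le_add (Nat.mul_le_mul_right _ (c 2))
    (Nat.mul_le_mul_right _ (c _))) _

theorem main (C : ℝ) : ∃ s t j : ℕ, 2 < s ∧ s ≤ t ∧ 2 ≤ j ∧ j + 3 ≤ t ∧
    C * j < |(wsat (s + t + j) (completeBipartiteGraph (Fin s) (Fin t)) : ℝ) - M s t j| := by
  obtain ⟨k, hk⟩ := exists_nat_ge C
  refine ⟨3, 2 * k + 23, 2 * k + 20, by omega, by omega, by omega, by omega, ?_⟩
  have h1 : wsat (3 + (2 * k + 23) + (2 * k + 20)) (completeBipartiteGraph (Fin 3) (Fin _)) ≤ _ :=
    Nat.sInf_le ⟨_, sat (t := 2 * k + 23) (by omega) (by omega), rfl⟩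
  have h2 := (Nat.mul_le_mul_left 2 h1).trans (card _ _)
  generalize wsat _ _ = x at h2 ⊢
  have h3 : (2 * x : ℝ) ≤ 2 * (3 + (2 * k + 23) + (2 * k + 20)) +
      (2 * k + 23 + 2) * (2 * k + 23 + 2) + (3 + (2 * k + 23) + (2 * k + 20)) * 2 := by
    exact_mod_cast h2
  have h0 : (0 : ℝ) ≤ k := k.cast_nonneg
  refine lt_abs.2 (Or.inr ?_)
  simp only [M]
  push_cast
  rw [Nat.cast_choose_two]
  push_cast
  nlinarith

end Pool.Agent.H5.Wsat
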