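import Mathlib

set_option autoImplicit false

namespace Pool.Agent.H5.WsatDefs

open SimpleGraph

/-- `G` is `F`-free and the non-edges of `G` can be ordered (by the injective `ord`) so that
each of them lies in a copy of `F` in `G` together with the non-edges up to it. -/
def WeaklySat {W V : Type} (F : SimpleGraph W) (G : SimpleGraph V) : Prop :=
  F.Free G ∧ ∃ ord : Sym2 V → ℕ, Set.InjOn ord Gᶜ.edgeSet ∧ ∀ e ∈ Gᶜ.edgeSet,
    ∃ (f : F.Copy (G ⊔ fromEdgeSet {g | g ∈ Gᶜ.edgeSet ∧ ord g ≤ ord e})) (a b : W),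
      F.Adj a b ∧ e = s(f a, f b)

/-- The weak saturation number. -/
noncomputable def wsat {W : Type} (n : ℕ) (F : SimpleGraph W) : ℕ :=
  sInf {m | ∃ G : SimpleGraph (Fin n), WeaklySat F G ∧ G.edgeSet.ncard = m}

def M (s t j : ℕ) : ℤ := ((s + t + j).choose 2 : ℤ) - j * (s + t) - 2 * t

end Pool.Agent.H5.WsatDefs
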