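import Mathlib

set_option autoImplicit false

namespace Pool.Agent.H5.Zim1
open Finset

/-- initial sums of a weight along a word -/
def S {α A : Type} [AddCommMonoid A] (y : ℕ → α) (g : α → A) (c : ℕ) : A :=
  ∑ t ∈ range c, g (y t)

/-- generalised Rudin-Shapiro coordinate -/
def av (q : ℕ) (c : ℕ) : ZMod q :=
  if h : c = 0 ∨ q ≤ 1 then 0 else av q (c / q) + ((c / q : ℕ) : ZMod q) * (c : ZMod q)
termination_by c
decreasing_by
  push Not at h
  exact Nat.div_lt_self (Nat.pos_of_ne_zero h.1) h.2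

def W (q : ℕ) (c : ℕ) : ZMod q × ZMod q := ((c : ZMod q), av q c)

theorem av_eq (q : ℕ) (hq : 1 < q) (c : ℕ) :
    av q c = av q (c / q) + ((c / q : ℕ) : ZMod q) * (c : ZMod q) := by
  by_cases h : c = 0
  · subst h; simp
  · rw [av]; rw [dif_neg]; omega

theorem W_eq (q : ℕ) (hq : 1 < q) (c j : ℕ) (hj : j < q) :
    W q (q * c + j) = ((j : ZMod q), av q c + (c : ZMod q) * (j : ZMod q)) := by
  have h1 : (q * c + j) / q = c := by
    rw [Nat.mul_add_div (by omega), Nat.div_eq_of_lt hj]; simp
  unfold W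
  rw [av_eq q hq (q * c + j), h1]
  simp

/-- the weight seen one level up -/
def sg {A : Type} [AddCommMonoid A] (q : ℕ) (g : ZMod q × ZMod q → A) (s : ZMod q × ZMod q) : A :=
  ∑ j ∈ range q, g ((j : ZMod q), s.2 + s.1 * (j : ZMod q))

theorem S_add {A : Type} [AddCommMonoid A] (q : ℕ) (hq : 1 < q) (g : ZMod q × ZMod q → A)
    (c o : ℕ) (ho : o ≤ q) :
    S (W q) g (q * c + o) = S (W q) g (q * c) +
      ∑ j ∈ range o, g ((j : ZMod q), av q c + (c : ZMod q) * (j : ZMod q)) := by
  unfold S
  rw [Finset.sum_range_add]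
  congr 1
  apply Finset.sum_congr rfl
  intro j hj
  rw [W_eq q hq c j (by have := mem_range.1 hj; omega)]

theorem S_mul {A : Type} [AddCommMonoid A] (q : ℕ) (hq : 1 < q) (g : ZMod q × ZMod q → A)
    (c : ℕ) : S (W q) g (q * c) = S (W q) (sg q g) c := by
  induction c with
  | zero => simp [S]
  | succ c ih =>
    rw [Nat.mul_succ, S_add q hq g c q le_rfl, ih]
    simp [S, Finset.sum_range_succ, sg, W]

def up (q h c : ℕ) : ℕ := if c % q ≤ h then c / q else c / q + 1

def eta (q h c j : ℕ) : ℤ :=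
  if c % q ≤ h then (if j < c % q then 1 else 0) else (if c % q ≤ j then -1 else 0)

def be (q c j : ℕ) : ZMod q := av q (c / q) + ((c / q : ℕ) : ZMod q) * (j : ZMod q)

theorem S_rem {A : Type} [CommRing A] (q h : ℕ) (hq : 1 < q) (g : ZMod q × ZMod q → A) (c : ℕ) :
    S (W q) g c = S (W q) (sg q g) (up q h c) +
      ∑ j ∈ range q, (eta q h c j : A) * g ((j : ZMod q), be q c j) := by
  have hc : c = q * (c / q) + c % q := (Nat.div_add_mod c q).symm
  have hlt : c % q < q := Nat.mod_lt _ (by omega)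
  have e1 := S_add q hq g (c / q) (c % q) hlt.le
  rw [← hc] at e1
  have e2 := S_add q hq g (c / q) q le_rfl
  have hs := Finset.sum_range_add_sum_Ico
    (fun j : ℕ => g ((j : ZMod q), av q (c / q) + ((c / q : ℕ) : ZMod q) * (j : ZMod q))) hlt.le
  rw [← S_mul q hq]
  unfold up eta be
  by_cases ho : c % q ≤ h
  · simp only [ho, if_true]
    rw [e1]
    congr 1
    rw [← Finset.sum_range_add_sum_Ico _ hlt.le]
    rw [Finset.sum_eq_zero (s := Ico (c % q) q), add_zero]
    · apply Finset.sum_congr rfl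
      intro j hj
      simp [mem_range.1 hj]
    · intro j hj
      have := (mem_Ico.1 hj).1
      simp [not_lt.2 this]
  · simp only [ho, if_false]
    rw [Nat.mul_succ, e2, e1, ← hs, add_assoc]
    congr 1
    rw [← Finset.sum_range_add_sum_Ico (fun j : ℕ => _ * _) hlt.le]
    rw [Finset.sum_eq_zero (s := range (c % q)) (f := fun j : ℕ => _ * _), zero_add, add_assoc,
      ← Finset.sum_add_distrib, Finset.sum_eq_zero (s := Ico (c % q) q), add_zero]
    · intro j hj
      have := (mem_Ico.1 hj).1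
      simp [this]
    · intro j hj
      have := mem_range.1 hj
      simp [not_le.2 this]

theorem eta_abs (q h c j : ℕ) : |eta q h c j| ≤ 1 := by
  unfold eta; split_ifs <;> simp

theorem eta_gap (q h c j : ℕ) (hg : c % q ≤ h ∨ h + 4 ≤ c % q) (h1 : h ≤ j) (h2 : j < h + 4) :
    eta q h c j = 0 := by
  unfold eta; split_ifs <;> first | rfl | omega

/-- four signed points killing all cubics cancel -/
theorem four (q : ℕ) [Fact q.Prime] (hq : 4 < q) (β : Fin 4 → ZMod q) (ε : Fin 4 → ℤ)
    (hε : ∀ k, |ε k| ≤ 1)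
    (h : ∀ P : Polynomial (ZMod q), P.natDegree ≤ 3 → ∑ k, (ε k : ZMod q) * P.eval (β k) = 0)
    (G : ZMod q → ℤ) : ∑ k, ε k * G (β k) = 0 := by
  classical
  have key : ∀ b : ZMod q, ∑ k ∈ univ.filter (fun k => β k = b), ε k = 0 := by
    intro b
    by_cases hb : b ∈ univ.image β
    · set T := (univ.image β).erase b with hT
      have hc : T.card ≤ 3 := by
        rw [hT, card_erase_of_mem hb]
        have : (univ.image β).card ≤ 4 := card_image_le.trans (by simp)
        omega
      have hP := h (∏ r ∈ T, (Polynomial.X - Polynomial.C r))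
        (by rw [Polynomial.natDegree_finset_prod_X_sub_C_eq_card]; exact hc)
      have hne : ∏ r ∈ T, (b - r) ≠ 0 := by
        apply Finset.prod_ne_zero_iff.2
        intro r hr
        exact sub_ne_zero.2 (ne_of_mem_erase hr).symm
      have : ∑ k, (ε k : ZMod q) * (∏ r ∈ T, (Polynomial.X - Polynomial.C r)).eval (β k) =
          ((∑ k ∈ univ.filter (fun k => β k = b), ε k : ℤ) : ZMod q) * ∏ r ∈ T, (b - r) := by
        push_cast
        rw [Finset.sum_mul, Finset.sum_filter]
        apply Finset.sum_congr rfl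
        intro k _
        rw [Polynomial.eval_prod]
        simp only [Polynomial.eval_sub, Polynomial.eval_X, Polynomial.eval_C]
        split_ifs with hk
        · rw [hk]
        · rw [Finset.prod_eq_zero (i := β k) (by simp [hT, hk]) (by simp), mul_zero]
      rw [this] at hP
      have h0 := (mul_eq_zero.1 hP).resolve_right hne
      rw [ZMod.intCast_zmod_eq_zero_iff_dvd] at h0
      apply Int.eq_zero_of_abs_lt_dvd h0
      calc |∑ k ∈ univ.filter (fun k => β k = b), ε k|
          ≤ ∑ k ∈ univ.filter (fun k => β k = b), |ε k| := Finset.abs_sum_le_sum_abs _ _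
        _ ≤ ∑ k : Fin 4, |ε k| :=
          Finset.sum_le_sum_of_subset_of_nonneg (filter_subset _ _) (fun _ _ _ => abs_nonneg _)
        _ ≤ ∑ k : Fin 4, (1 : ℤ) := Finset.sum_le_sum (fun k _ => hε k)
        _ < q := by simp; exact_mod_cast hq
    · apply Finset.sum_eq_zero
      intro k hk
      exact absurd (mem_image.2 ⟨k, mem_univ _, (mem_filter.1 hk).2⟩) hb
  rw [← Finset.sum_fiberwise (s := univ) (g := β)]
  apply Finset.sum_eq_zero
  intro b _
  have : ∑ k ∈ univ.filter (fun k => β k = b), ε k * G (β k) =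
      (∑ k ∈ univ.filter (fun k => β k = b), ε k) * G b := by
    rw [Finset.sum_mul]
    exact Finset.sum_congr rfl (fun k hk => by rw [(mem_filter.1 hk).2])
  rw [this, key, zero_mul]

def sgn : Fin 4 → ℤ := ![1, -1, -1, 1]

theorem cast_inj (q : ℕ) (i j : ℕ) (hi : i < q) (hj : j < q) :
    (i : ZMod q) = (j : ZMod q) ↔ i = j := by
  rw [ZMod.natCast_eq_natCast_iff', Nat.mod_eq_of_lt hi, Nat.mod_eq_of_lt hj]

theorem count_bound (q : ℕ) (hq : 1 < q) (i : ZMod q) (c : ℕ) :
    |(q : ℤ) * S (W q) (fun s => if s.1 = i then (1 : ℤ) else 0) c - c| ≤ q := by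
  haveI : NeZero q := ⟨by omega⟩
  have hc : c = q * (c / q) + c % q := (Nat.div_add_mod c q).symm
  have hlt : c % q < q := Nat.mod_lt _ (by omega)
  have hone : ∀ o ≤ q, ∑ j ∈ range o, (if (j : ZMod q) = i then (1 : ℤ) else 0) =
      if i.val < o then 1 else 0 := by
    intro o ho
    have : ∀ j ∈ range o, (if (j : ZMod q) = i then (1 : ℤ) else 0) = if j = i.val then 1 else 0 := by
      intro j hj
      have := cast_inj q j i.val (by have := mem_range.1 hj; omega) (ZMod.val_lt i)
      rw [ZMod.natCast_zmod_val] at this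
      simp [this]
    rw [Finset.sum_congr rfl this]
    simp
  have e1 := S_add q hq (fun s => if s.1 = i then (1 : ℤ) else 0) (c / q) (c % q) hlt.le
  rw [← hc, S_mul q hq] at e1
  have e2 : S (W q) (sg q (fun s => if s.1 = i then (1 : ℤ) else 0)) (c / q) = (c / q : ℕ) := by
    unfold S sg
    simp only [hone q le_rfl, ZMod.val_lt, if_true]
    simp
  rw [e1, e2]
  simp only [hone _ hlt.le]
  have hc' : (c : ℤ) = q * (c / q : ℕ) + (c % q : ℕ) := by exact_mod_cast hc
  have : ((c % q : ℕ) : ℤ) < q := by exact_mod_cast hlt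
  have h0 : (0 : ℤ) ≤ (c % q : ℕ) := by positivity
  rw [abs_le]
  split_ifs <;> constructor <;> nlinarith

end Pool.Agent.H5.Zim1
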