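import Pool.Agent.H5.Zim1

set_option autoImplicit false

namespace Pool.Agent.H5.Zim2
open Finset Pool.Agent.H5.Zim1

def R (q h : ℕ) (g : ZMod q × ZMod q → ℤ) (c : ℕ) : ℤ :=
  ∑ j ∈ range q, eta q h c j * g ((j : ZMod q), be q c j)

theorem S_R (q h : ℕ) (hq : 1 < q) (g : ZMod q × ZMod q → ℤ) (c : ℕ) :
    S (W q) g c = S (W q) (sg q g) (up q h c) + R q h g c := by
  rw [S_rem q h hq g c]; simp [R]

theorem sum_col {A : Type} [CommRing A] (q j0 : ℕ) (hj : j0 < q) (F : ℕ → A) :
    ∑ j ∈ range q, (if (j : ZMod q) = (j0 : ZMod q) then F j else 0) = F j0 := by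
  rw [Finset.sum_eq_single j0]
  · simp
  · intro j hj' hne
    rw [if_neg]
    rw [cast_inj q j j0 (mem_range.1 hj') hj]; exact hne
  · intro h; exact absurd (mem_range.2 hj) h

theorem cubic {F : Type} [CommRing F] (P : Polynomial F) (hP : P.natDegree ≤ 3) (a i x y : F) :
    6 * P.eval (a + i * (x + y)) =
      -((y - 1) * (y - 2) * (y - 3)) * P.eval (a + i * x) +
      3 * y * (y - 2) * (y - 3) * P.eval (a + i * (x + 1)) +
      -(3 * y * (y - 1) * (y - 3)) * P.eval (a + i * (x + 2)) +
      y * (y - 1) * (y - 2) * P.eval (a + i * (x + 3)) := by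
  have h4 : P.natDegree < 4 := by omega
  simp only [Polynomial.eval_eq_sum_range' h4, Finset.sum_range_succ, Finset.range_zero,
    Finset.sum_empty]
  ring

theorem key (q : ℕ) [Fact q.Prime] (hq : 4 < q) (h : ℕ) (hh : h + 4 ≤ q) (c : Fin 4 → ℕ)
    (hg : ∀ k, c k % q ≤ h ∨ h + 4 ≤ c k % q)
    (H : ∀ g : ZMod q × ZMod q → ℤ, ∑ k, sgn k * S (W q) g (c k) = 0) :
    (∀ g, ∑ k, sgn k * R q h g (c k) = 0) ∧
    (∀ g : ZMod q × ZMod q → ℤ, ∑ k, sgn k * S (W q) g (up q h (c k)) = 0) := by
  classical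
  have hq1 : 1 < q := by omega
  have HF : ∀ G : ZMod q × ZMod q → ZMod q, ∑ k, (sgn k : ZMod q) * S (W q) G (c k) = 0 := by
    intro G
    have := congrArg (Int.cast : ℤ → ZMod q) (H (fun s => ((G s).val : ℤ)))
    simpa [S] using this
  -- column equations
  have col : ∀ (P : Polynomial (ZMod q)) (j0 : ℕ), j0 < q →
      ∑ k, (sgn k : ZMod q) * S (W q) (fun s => P.eval (s.2 + s.1 * (j0 : ZMod q))) (up q h (c k)) +
      ∑ k, ((sgn k * eta q h (c k) j0 : ℤ) : ZMod q) * P.eval (be q (c k) j0) = 0 := by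
    intro P j0 hj0
    rw [← Finset.sum_add_distrib, ← HF (fun s => if s.1 = (j0 : ZMod q) then P.eval s.2 else 0)]
    apply Finset.sum_congr rfl
    intro k _
    rw [S_rem q h hq1 _ (c k), mul_add]
    congr 1
    · congr 2
      funext s
      unfold sg
      exact (sum_col q j0 hj0 (fun j => P.eval (s.2 + s.1 * (j : ZMod q)))).symm
    · simp only [mul_ite, mul_zero]
      rw [sum_col q j0 hj0 (fun j => (eta q h (c k) j : ZMod q) * P.eval (be q (c k) j))]
      push_cast; ring
  have gap : ∀ (P : Polynomial (ZMod q)) (u : ℕ), u < 4 →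
      ∑ k, (sgn k : ZMod q) * S (W q) (fun s => P.eval (s.2 + s.1 * ((h : ZMod q) + (u : ZMod q))))
        (up q h (c k)) = 0 := by
    intro P u hu
    have := col P (h + u) (by omega)
    simp only [fun k => eta_gap q h (c k) (h + u) (hg k) (by omega) (by omega)] at this
    simpa using this
  have h6 : (6 : ZMod q) ≠ 0 := by
    intro h0
    have : ((6 : ℕ) : ZMod q) = 0 := by exact_mod_cast h0
    rw [ZMod.natCast_eq_zero_iff] at this
    have hp : q.Prime := Fact.out
    have h23 : q ∣ 2 * 3 := this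
    rcases (Nat.Prime.dvd_mul hp).1 h23 with h | h <;> have := Nat.le_of_dvd (by norm_num) h <;> omega
  have colz : ∀ (j0 : ℕ), j0 < q → ∀ (P : Polynomial (ZMod q)), P.natDegree ≤ 3 →
      ∑ k, ((sgn k * eta q h (c k) j0 : ℤ) : ZMod q) * P.eval (be q (c k) j0) = 0 := by
    intro j0 hj0 P hP
    have e := col P j0 hj0
    suffices hz : ∑ k, (sgn k : ZMod q) *
        S (W q) (fun s => P.eval (s.2 + s.1 * (j0 : ZMod q))) (up q h (c k)) = 0 by
      rwa [hz, zero_add] at e
    apply mul_left_cancel₀ h6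
    set y : ZMod q := (j0 : ZMod q) - h with hy
    have hj : (j0 : ZMod q) = h + y := by rw [hy]; ring
    have g0 := gap P 0 (by norm_num)
    have g1 := gap P 1 (by norm_num)
    have g2 := gap P 2 (by norm_num)
    have g3 := gap P 3 (by norm_num)
    simp only [Nat.cast_zero, add_zero, Nat.cast_one, Nat.cast_ofNat] at g0 g1 g2 g3
    have hS : ∀ n, 6 * S (W q) (fun s => P.eval (s.2 + s.1 * (j0 : ZMod q))) n =
        -((y - 1) * (y - 2) * (y - 3)) * S (W q) (fun s => P.eval (s.2 + s.1 * h)) n +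
        3 * y * (y - 2) * (y - 3) * S (W q) (fun s => P.eval (s.2 + s.1 * (h + 1))) n +
        -(3 * y * (y - 1) * (y - 3)) * S (W q) (fun s => P.eval (s.2 + s.1 * (h + 2))) n +
        y * (y - 1) * (y - 2) * S (W q) (fun s => P.eval (s.2 + s.1 * (h + 3))) n := by
      intro n
      unfold S
      simp only [Finset.mul_sum, ← Finset.sum_add_distrib]
      apply Finset.sum_congr rfl
      intro t _
      rw [hj]; exact cubic P hP _ _ _ _
    simp only [Fin.sum_univ_four] at g0 g1 g2 g3 ⊢
    linear_combination (sgn 0 : ZMod q) * hS (up q h (c 0)) + (sgn 1 : ZMod q) * hS (up q h (c 1)) +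
      (sgn 2 : ZMod q) * hS (up q h (c 2)) + (sgn 3 : ZMod q) * hS (up q h (c 3)) -
      ((y - 1) * (y - 2) * (y - 3)) * g0 + 3 * y * (y - 2) * (y - 3) * g1 -
      (3 * y * (y - 1) * (y - 3)) * g2 + y * (y - 1) * (y - 2) * g3
  have hR : ∀ g, ∑ k, sgn k * R q h g (c k) = 0 := by
    intro g
    unfold R
    simp only [Finset.mul_sum]
    rw [Finset.sum_comm]
    apply Finset.sum_eq_zero
    intro j hj
    have := four q hq (fun k => be q (c k) j) (fun k => sgn k * eta q h (c k) j)
      (by
        intro k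
        have h1 : |sgn k| = 1 := by fin_cases k <;> simp [sgn]
        rw [abs_mul, h1, one_mul]; exact eta_abs _ _ _ _)
      (colz j (mem_range.1 hj)) (fun b => g ((j : ZMod q), b))
    rw [← this]
    exact Finset.sum_congr rfl (fun k _ => by ring)
  refine ⟨hR, ?_⟩
  have hU : ∀ g : ZMod q × ZMod q → ℤ, ∑ k, sgn k * S (W q) (sg q g) (up q h (c k)) = 0 := by
    intro g
    have e := H g
    simp only [S_R q h hq1 g, mul_add, Finset.sum_add_distrib, hR g, add_zero] at e
    exact e
  have hlen : ∑ k, sgn k * (up q h (c k) : ℤ) = 0 := by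
    have := hU (fun s => if s.1 = ((0 : ℕ) : ZMod q) then 1 else 0)
    rw [← this]
    apply Finset.sum_congr rfl
    intro k _
    congr 1
    unfold S sg
    simp only [sum_col q 0 (by omega) (fun _ => (1 : ℤ))]
    simp
  have hdel : ∀ s0 : ZMod q × ZMod q,
      ∑ k, sgn k * S (W q) (fun s => if s = s0 then (1 : ℤ) else 0) (up q h (c k)) = 0 := by
    rintro ⟨i0, a0⟩
    have e := hU (fun s => if s.2 = a0 + i0 * s.1 then 1 else 0)
    have hsg : sg q (fun s => if s.2 = a0 + i0 * s.1 then (1 : ℤ) else 0) = fun s =>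
        (1 : ℤ) - (if s.1 = i0 then 1 else 0) + q * (if s = (i0, a0) then 1 else 0) := by
      funext ⟨i, a⟩
      unfold sg
      by_cases hi : i = i0
      · subst hi
        by_cases ha : a = a0
        · simp [ha]
        · simp [ha]
      · have hne : i - i0 ≠ 0 := sub_ne_zero.2 hi
        have : ∀ j : ℕ, (a + i * (j : ZMod q) = a0 + i0 * (j : ZMod q)) ↔
            (j : ZMod q) = ((((a0 - a) / (i - i0)).val : ℕ) : ZMod q) := by
          intro j
          rw [ZMod.natCast_zmod_val, eq_div_iff hne]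
          constructor <;> intro h' <;> linear_combination h'
        simp only [this]
        rw [sum_col q _ (ZMod.val_lt _) (fun _ => (1 : ℤ))]
        simp [hi]
    rw [hsg] at e
    have hS : ∀ n, S (W q) (fun s => (1 : ℤ) - (if s.1 = i0 then 1 else 0) +
        q * (if s = (i0, a0) then 1 else 0)) n =
        n - S (W q) (fun s => if s.1 = i0 then (1 : ℤ) else 0) n +
        q * S (W q) (fun s => if s = (i0, a0) then (1 : ℤ) else 0) n := by
      intro n
      unfold S
      rw [Finset.sum_add_distrib, Finset.sum_sub_distrib, Finset.mul_sum]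
      simp
    simp only [hS] at e
    have b0 := abs_le.1 (count_bound q hq1 i0 (up q h (c 0)))
    have b1 := abs_le.1 (count_bound q hq1 i0 (up q h (c 1)))
    have b2 := abs_le.1 (count_bound q hq1 i0 (up q h (c 2)))
    have b3 := abs_le.1 (count_bound q hq1 i0 (up q h (c 3)))
    simp only [Fin.sum_univ_four, sgn, Matrix.cons_val_zero, Matrix.cons_val_one,
      Matrix.cons_val] at e hlen ⊢
    set x0 := S (W q) (fun s => if s = (i0, a0) then (1 : ℤ) else 0) (up q h (c 0))
    set x1 := S (W q) (fun s => if s = (i0, a0) then (1 : ℤ) else 0) (up q h (c 1))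
    set x2 := S (W q) (fun s => if s = (i0, a0) then (1 : ℤ) else 0) (up q h (c 2))
    set x3 := S (W q) (fun s => if s = (i0, a0) then (1 : ℤ) else 0) (up q h (c 3))
    set z0 := S (W q) (fun s => if s.1 = i0 then (1 : ℤ) else 0) (up q h (c 0))
    set z1 := S (W q) (fun s => if s.1 = i0 then (1 : ℤ) else 0) (up q h (c 1))
    set z2 := S (W q) (fun s => if s.1 = i0 then (1 : ℤ) else 0) (up q h (c 2))
    set z3 := S (W q) (fun s => if s.1 = i0 then (1 : ℤ) else 0) (up q h (c 3))
    have hq' : (4 : ℤ) < q := by exact_mod_cast hq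
    have ez : z0 - z1 - z2 + z3 = q * (x0 - x1 - x2 + x3) := by linear_combination hlen - e
    have u1 : (q : ℤ) * (z0 - z1 - z2 + z3) ≤ q * 4 := by linarith [b0.2, b1.1, b2.1, b3.2]
    have u2 : (q : ℤ) * (-4) ≤ q * (z0 - z1 - z2 + z3) := by linarith [b0.1, b1.2, b2.2, b3.1]
    have v1 := le_of_mul_le_mul_left u1 (by omega)
    have v2 := le_of_mul_le_mul_left u2 (by omega)
    have : x0 - x1 - x2 + x3 = 0 := by
      by_contra hne
      rcases lt_or_gt_of_ne hne with hl | hl <;> nlinarith
    linarith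
  intro g
  have hS : ∀ n, S (W q) g n = ∑ s0, g s0 * S (W q) (fun s => if s = s0 then (1 : ℤ) else 0) n := by
    intro n
    unfold S
    simp only [Finset.mul_sum]
    rw [Finset.sum_comm]
    simp
  simp only [hS, Finset.mul_sum]
  rw [Finset.sum_comm]
  apply Finset.sum_eq_zero
  intro s0 _
  have := congrArg (fun x => g s0 * x) (hdel s0)
  simp only [mul_zero, Finset.mul_sum] at this
  exact (Finset.sum_congr rfl (fun k _ => by ring)).trans this

end Pool.Agent.H5.Zim2
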