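import Pool.Agent.H5.Zim2

set_option autoImplicit false

namespace Pool.Agent.H5.Zim3
open Finset Pool.Agent.H5.Zim1 Pool.Agent.H5.Zim2

/-- the infinite Zimin word -/
def zl (t : ℕ) : ℕ := if h : t % 2 = 0 then 1 else zl (t / 2) + 1
termination_by t
decreasing_by omega

theorem zl_even (t : ℕ) : zl (2 * t) = 1 := by rw [zl]; simp
theorem zl_odd (t : ℕ) : zl (2 * t + 1) = zl t + 1 := by
  rw [zl, dif_neg (by omega)]; congr 2; omega

theorem Sz (g : ℕ → ℤ) (d : ℕ) : S zl g (2 * d) = d * g 1 + S zl (fun a => g (a + 1)) d := by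
  induction d with
  | zero => simp [S]
  | succ d ih =>
    unfold S at ih ⊢
    rw [show 2 * (d + 1) = 2 * d + 1 + 1 by ring, sum_range_succ, sum_range_succ, ih, sum_range_succ,
      zl_even, zl_odd]
    push_cast; ring

theorem Sz' (g : ℕ → ℤ) (d e : ℕ) (he : e ≤ 1) :
    S zl g (2 * d + e) = d * g 1 + S zl (fun a => g (a + 1)) d + e * g 1 := by
  rcases Nat.le_one_iff_eq_zero_or_eq_one.1 he with rfl | rfl
  · simp [Sz]
  · rw [← Sz]; unfold S; rw [sum_range_succ, zl_even]; simp

def Con {α : Type} (y : ℕ → α) (p : ℕ → ℕ) (L : ℕ) (c : ℕ → ℕ) : Prop :=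
  ∀ j < L, ∀ j' < L, p j = p j' → ∀ g : α → ℤ,
    S y g (c (j + 1)) - S y g (c j) = S y g (c (j' + 1)) - S y g (c j')

def NE (p : ℕ → ℕ) (L : ℕ) (d : ℕ → ℕ) : Finset ℕ :=
  ((range L).filter (fun j => d j < d (j + 1))).image p

structure Inv (p : ℕ → ℕ) (L : ℕ) (c' c : ℕ → ℕ) (N : ℕ) (d : ℕ → ℕ) : Prop where
  card : N ≤ (NE p L d).card
  bd : ∀ j, d j < 2 ^ N
  con : Con zl p L d
  mono : ∀ j < L, d j ≤ d (j + 1)
  lo : ∀ j < L, c' j < c' (j + 1) → d j < d (j + 1)
  hi : ∀ j < L, d j < d (j + 1) → c j < c (j + 1)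

def Lev (p : ℕ → ℕ) (L : ℕ) (c' c : ℕ → ℕ) (j : ℕ) (ψ : ℕ → ℕ) : Prop :=
  (∀ i, ψ i ≤ 1) ∧ (∀ i < L, ∀ i' < L, p i = p i' →
    (ψ (i + 1) : ℤ) - ψ i = (ψ (i' + 1) : ℤ) - ψ i') ∧ ψ j < ψ (j + 1) ∧
    ∀ i < L, ¬ c' i < c' (i + 1) → ψ i ≤ ψ (i + 1) ∧ (ψ i < ψ (i + 1) → c i < c (i + 1))

theorem step (p : ℕ → ℕ) (L : ℕ) (c' c : ℕ → ℕ) (N : ℕ) (d : ℕ → ℕ) (I : Inv p L c' c N d)
    (j : ℕ) (hj : j < L) (hd : ¬ d j < d (j + 1)) (ψ : ℕ → ℕ) (hψ : Lev p L c' c j ψ) :
    Inv p L c' c (N + 1) (fun i => 2 * d i + ψ i) := by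
  obtain ⟨h1, h2, h3, h4⟩ := hψ
  have hm : ∀ i < L, ¬ d i < d (i + 1) → ψ i ≤ ψ (i + 1) ∧ (ψ i < ψ (i + 1) → c i < c (i + 1)) :=
    fun i hi hn => h4 i hi (fun hc => hn (I.lo i hi hc))
  refine ⟨?_, ?_, ?_, ?_, ?_, ?_⟩
  · have hn : p j ∉ NE p L d := by
      intro hm
      obtain ⟨i, hi, hp⟩ := mem_image.1 hm
      obtain ⟨hi1, hi2⟩ := mem_filter.1 hi
      have := I.con i (mem_range.1 hi1) j hj hp (fun _ => 1)
      simp [S] at this
      have := I.mono j hj
      omega
    have hs : insert (p j) (NE p L d) ⊆ NE p L (fun i => 2 * d i + ψ i) := by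
      intro x hx
      rcases mem_insert.1 hx with rfl | hx
      · refine mem_image.2 ⟨j, mem_filter.2 ⟨mem_range.2 hj, ?_⟩, rfl⟩
        have := I.mono j hj
        show 2 * d j + ψ j < 2 * d (j + 1) + ψ (j + 1)
        omega
      · obtain ⟨i, hi, hp⟩ := mem_image.1 hx
        obtain ⟨hi1, hi2⟩ := mem_filter.1 hi
        refine mem_image.2 ⟨i, mem_filter.2 ⟨hi1, ?_⟩, hp⟩
        have := h1 i
        show 2 * d i + ψ i < 2 * d (i + 1) + ψ (i + 1)
        omega
    have := card_le_card hs
    rw [card_insert_of_notMem hn] at this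
    have := I.card
    omega
  · intro i
    have := I.bd i
    have := h1 i
    show 2 * d i + ψ i < 2 ^ (N + 1)
    rw [pow_succ]; omega
  · intro i hi i' hi' hp g
    have e1 := I.con i hi i' hi' hp (fun _ => 1)
    have e2 := I.con i hi i' hi' hp (fun a => g (a + 1))
    have e3 := h2 i hi i' hi' hp
    simp only [S, sum_const, card_range, nsmul_eq_mul, mul_one] at e1
    simp only [Sz' g _ _ (h1 _)]
    linear_combination g 1 * e1 + e2 + g 1 * e3
  · intro i hi
    show 2 * d i + ψ i ≤ 2 * d (i + 1) + ψ (i + 1)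
    have := I.mono i hi
    have := h1 i
    by_cases hd : d i < d (i + 1)
    · omega
    · have := (hm i hi hd).1; omega
  · intro i hi hc
    have := I.lo i hi hc
    have := h1 i
    show 2 * d i + ψ i < 2 * d (i + 1) + ψ (i + 1)
    omega
  · intro i hi hlt
    by_cases hd : d i < d (i + 1)
    · exact I.hi i hi hd
    · apply (hm i hi hd).2
      have := I.mono i hi
      have hlt' : 2 * d i + ψ i < 2 * d (i + 1) + ψ (i + 1) := hlt
      omega

theorem NE_le (p : ℕ → ℕ) (L : ℕ) (d : ℕ → ℕ) : (NE p L d).card ≤ ((range L).image p).card :=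
  card_le_card (image_subset_image (filter_subset _ _))

theorem inner (p : ℕ → ℕ) (L : ℕ) (c' c : ℕ → ℕ)
    (H : ∀ j < L, ¬ c' j < c' (j + 1) → c j < c (j + 1) → ∃ ψ, Lev p L c' c j ψ) (k : ℕ) :
    ∀ N d, Inv p L c' c N d → ((range L).image p).card ≤ N + k → ∃ N d, Inv p L c c N d := by
  induction k with
  | zero =>
    intro N d I hk
    by_cases hd : ∀ j < L, c j < c (j + 1) → d j < d (j + 1)
    · exact ⟨N, d, I.card, I.bd, I.con, I.mono, hd, I.hi⟩
    · push Not at hd
      obtain ⟨j, hj, hc, hd⟩ := hd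
      obtain ⟨ψ, hψ⟩ := H j hj (fun h => by have := I.lo j hj h; omega) hc
      have := (step p L c' c N d I j hj (by omega) ψ hψ).card
      have := NE_le p L (fun i => 2 * d i + ψ i)
      omega
  | succ k ih =>
    intro N d I hk
    by_cases hd : ∀ j < L, c j < c (j + 1) → d j < d (j + 1)
    · exact ⟨N, d, I.card, I.bd, I.con, I.mono, hd, I.hi⟩
    · push Not at hd
      obtain ⟨j, hj, hc, hd⟩ := hd
      obtain ⟨ψ, hψ⟩ := H j hj (fun h => by have := I.lo j hj h; omega) hc
      exact ih _ _ (step p L c' c N d I j hj (by omega) ψ hψ) (by omega)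

theorem exists_gap (q L : ℕ) (c : ℕ → ℕ) :
    ∃ h, 1 ≤ h ∧ h ≤ 3 * L + 4 ∧ ∀ j ≤ L, c j % q ≤ h ∨ h + 4 ≤ c j % q := by
  have : ∃ s ∈ range (L + 2), s ∉ (range (L + 1)).image (fun j => (c j % q - 2) / 3) := by
    apply exists_mem_notMem_of_card_lt_card
    have : ((range (L + 1)).image (fun j => (c j % q - 2) / 3)).card ≤ L + 1 :=
      card_image_le.trans (by simp)
    simp; omega
  obtain ⟨s, hs, hn⟩ := this
  refine ⟨3 * s + 1, by omega, by have := mem_range.1 hs; omega, ?_⟩
  intro j hj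
  by_contra hc
  apply hn
  refine mem_image.2 ⟨j, mem_range.2 (by omega), ?_⟩
  omega

theorem up_mono (q h : ℕ) (hq : 0 < q) (a b : ℕ) (hab : a ≤ b) : up q h a ≤ up q h b := by
  have h1 : a / q ≤ b / q := Nat.div_le_div_right hab
  have ha := Nat.div_add_mod a q
  have hb := Nat.div_add_mod b q
  unfold up
  split_ifs with x y y <;> try omega
  rcases h1.eq_or_lt with e | e
  · rw [e] at ha; omega
  · omega

theorem up_lt (q h : ℕ) (hq : 4 < q) (h1 : 1 ≤ h) (a : ℕ) (ha : 0 < a) : up q h a < a := by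
  have e := Nat.div_add_mod a q
  have : 4 * (a / q) ≤ q * (a / q) := Nat.mul_le_mul_right _ hq.le
  unfold up
  split_ifs <;> omega

theorem S_diff {α : Type} (y : ℕ → α) (g : α → ℤ) (a b : ℕ) (hab : a ≤ b) :
    S y g b - S y g a = ∑ t ∈ Ico a b, g (y t) := by
  unfold S; rw [Finset.sum_Ico_eq_sub _ hab]

theorem main (q : ℕ) [Fact q.Prime] (p : ℕ → ℕ) (L : ℕ) (hq : 3 * L + 8 ≤ q) (n : ℕ) :
    ∀ c : ℕ → ℕ, (∀ j ≤ L, c j ≤ n) → (∀ j < L, c j ≤ c (j + 1)) → Con (W q) p L c →
      ∃ N d, Inv p L c c N d := by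
  classical
  induction n with
  | zero =>
    intro c hb hm _
    refine ⟨0, fun _ => 0, by simp, by simp, by intro _ _ _ _ _ _; rfl, by simp, ?_, by simp⟩
    intro j hj h
    have := hb (j + 1) (by omega)
    omega
  | succ n ih =>
    intro c hb hm hc
    obtain ⟨h, h1, h2, hg⟩ := exists_gap q L c
    have hq4 : 4 < q := by omega
    have hq1 : 1 < q := by omega
    have K : ∀ j < L, ∀ j' < L, p j = p j' →
        (∀ g, R q h g (c (j + 1)) - R q h g (c j) = R q h g (c (j' + 1)) - R q h g (c j')) ∧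
        (∀ g : ZMod q × ZMod q → ℤ,
          S (W q) g (up q h (c (j + 1))) - S (W q) g (up q h (c j)) =
          S (W q) g (up q h (c (j' + 1))) - S (W q) g (up q h (c j'))) := by
      intro j hj j' hj' hp
      have := key q hq4 h (by omega) ![c (j + 1), c j, c (j' + 1), c j']
        (by intro k; fin_cases k <;> simp <;> apply hg <;> omega)
        (by
          intro g
          have := hc j hj j' hj' hp g
          simp [Fin.sum_univ_four, sgn]
          linarith)
      obtain ⟨a, b⟩ := this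
      constructor
      · intro g
        have := a g
        simp [Fin.sum_univ_four, sgn] at this
        linarith
      · intro g
        have := b g
        simp [Fin.sum_univ_four, sgn] at this
        linarith
    obtain ⟨N, d, I⟩ := ih (fun j => up q h (c j))
      (by
        intro j hj
        have := hb j hj
        rcases Nat.eq_zero_or_pos (c j) with e | e
        · simp [e, up]
        · have := up_lt q h hq4 h1 _ e
          show up q h (c j) ≤ n
          omega)
      (fun j hj => up_mono q h (by omega) _ _ (hm j hj))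
      (fun j hj j' hj' hp g => (K j hj j' hj' hp).2 g)
    refine inner p L (fun j => up q h (c j)) c ?_ _ N d
      ⟨I.card, I.bd, I.con, I.mono, I.lo, ?_⟩ (Nat.le_add_left _ _)
    · intro j hj hn hlt
      set s0 := W q (c j) with hs0
      set g : ZMod q × ZMod q → ℤ := fun s => if s = s0 then 1 else 0 with hgdef
      set j0 := c j % q with hj0
      have hj0q : j0 < q := Nat.mod_lt _ (by omega)
      have hs1 : s0.1 = (j0 : ZMod q) := by simp [hs0, W, hj0]
      have hR : ∀ x, R q h g x = eta q h x j0 * (if be q x j0 = s0.2 then 1 else 0) := by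
        intro x
        unfold R
        rw [← sum_col q j0 hj0q (fun i => eta q h x i * (if be q x i = s0.2 then 1 else 0))]
        apply Finset.sum_congr rfl
        intro i _
        simp only [hgdef, Prod.ext_iff, hs1]
        by_cases a : (i : ZMod q) = (j0 : ZMod q) <;> simp [a]
      set sh : ℤ := if j0 ≤ h then 0 else 1 with hsh
      have hb01 : ∀ x, 0 ≤ R q h g x + sh ∧ R q h g x + sh ≤ 1 := by
        intro x
        rw [hR, hsh]
        unfold eta
        split_ifs <;> first | omega | simp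
      have hcast : ∀ x, ((R q h g x + sh).toNat : ℤ) = R q h g x + sh :=
        fun x => Int.toNat_of_nonneg (hb01 x).1
      have hdiff : ∀ i < L, ¬ up q h (c i) < up q h (c (i + 1)) →
          R q h g (c (i + 1)) - R q h g (c i) = ∑ t ∈ Ico (c i) (c (i + 1)), g (W q t) := by
        intro i hi hn
        have e : up q h (c i) = up q h (c (i + 1)) :=
          le_antisymm (up_mono q h (by omega) _ _ (hm i hi)) (not_lt.1 hn)
        rw [← S_diff _ _ _ _ (hm i hi), S_R q h hq1 g, S_R q h hq1 g (c i), e]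
        ring
      have hg0 : ∀ s, 0 ≤ g s := by intro s; simp only [hgdef]; split_ifs <;> simp
      refine ⟨fun i => (R q h g (c i) + sh).toNat, ?_, ?_, ?_, ?_⟩
      · intro i
        have := hb01 (c i)
        have := hcast (c i)
        show (R q h g (c i) + sh).toNat ≤ 1
        omega
      · intro i hi i' hi' hp
        simp only [hcast]
        linear_combination (K i hi i' hi' hp).1 g
      · have e := hdiff j hj hn
        have : g (W q (c j)) ≤ ∑ t ∈ Ico (c j) (c (j + 1)), g (W q t) :=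
          Finset.single_le_sum (f := fun t => g (W q t)) (fun _ _ => hg0 _)
            (mem_Ico.2 ⟨le_rfl, hlt⟩)
        have e1 : g (W q (c j)) = 1 := by simp [hgdef, hs0]
        have := hcast (c j)
        have := hcast (c (j + 1))
        show (R q h g (c j) + sh).toNat < (R q h g (c (j + 1)) + sh).toNat
        omega
      · intro i hi hn
        have e := hdiff i hi hn
        have : 0 ≤ ∑ t ∈ Ico (c i) (c (i + 1)), g (W q t) := Finset.sum_nonneg (fun _ _ => hg0 _)
        have a1 := hcast (c i)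
        have a2 := hcast (c (i + 1))
        refine ⟨by show (R q h g (c i) + sh).toNat ≤ (R q h g (c (i + 1)) + sh).toNat; omega, ?_⟩
        intro hlt
        have hlt' : (R q h g (c i) + sh).toNat < (R q h g (c (i + 1)) + sh).toNat := hlt
        by_contra hcc
        have e2 : c i = c (i + 1) := le_antisymm (hm i hi) (not_lt.1 hcc)
        rw [e2] at hlt'
        omega
    · intro j hj hd
      have hlt : up q h (c j) < up q h (c (j + 1)) := I.hi j hj hd
      by_contra hcc
      have e2 : c j = c (j + 1) := le_antisymm (hm j hj) (not_lt.1 hcc)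
      rw [e2] at hlt
      omega

end Pool.Agent.H5.Zim3
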