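import Pool.Agent.H5.Zim3

set_option autoImplicit false

namespace Pool.Agent.H5.Zim4
open Finset Pool.Agent.H5.Zim1 Pool.Agent.H5.Zim3

def Z (n : ℕ) : List ℕ := Nat.rec (motive := fun _ => List ℕ) [] (fun j z => z ++ [j + 1] ++ z) n

theorem Z_succ (n : ℕ) : Z (n + 1) = Z n ++ [n + 1] ++ Z n := rfl

theorem zl_pow (n : ℕ) : zl (2 ^ n - 1) = n + 1 ∧ ∀ t, t + 1 < 2 ^ n → zl (2 ^ n + t) = zl t := by
  induction n with
  | zero => exact ⟨zl_even 0, by simp⟩
  | succ n ih =>
    have hp : 0 < 2 ^ n := by positivity
    constructor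
    · rw [show 2 ^ (n + 1) - 1 = 2 * (2 ^ n - 1) + 1 by rw [pow_succ]; omega, zl_odd, ih.1]
    · intro t ht
      rw [pow_succ] at ht ⊢
      rcases Nat.even_or_odd' t with ⟨u, rfl | rfl⟩
      · rw [show 2 ^ n * 2 + 2 * u = 2 * (2 ^ n + u) by ring, zl_even, zl_even]
      · rw [show 2 ^ n * 2 + (2 * u + 1) = 2 * (2 ^ n + u) + 1 by ring, zl_odd, zl_odd,
          ih.2 u (by omega)]

theorem Z_eq (n : ℕ) : Z n = (List.range (2 ^ n - 1)).map zl := by
  induction n with
  | zero => rfl
  | succ n ih =>
    have hp : 0 < 2 ^ n := by positivity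
    rw [Z_succ, show 2 ^ (n + 1) - 1 = (2 ^ n - 1 + 1) + (2 ^ n - 1) by rw [pow_succ]; omega,
      List.range_add, List.range_succ, List.map_append, List.map_append, ← ih]
    simp only [List.map_cons, List.map_nil, (zl_pow n).1, List.map_map]
    congr 1
    rw [ih]
    apply List.map_congr_left
    intro t ht
    have := List.mem_range.1 ht
    simp only [Function.comp]
    rw [show 2 ^ n - 1 + 1 = 2 ^ n by omega, (zl_pow n).2 t (by omega)]

theorem Z_le (n : ℕ) : ∀ a ∈ Z n, a ≤ n := by
  induction n with
  | zero => simp [Z]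
  | succ n ih =>
    intro a ha
    rw [Z_succ] at ha
    simp only [List.mem_append, List.mem_singleton] at ha
    rcases ha with (h | h) | h
    · exact (ih a h).trans (by omega)
    · omega
    · exact (ih a h).trans (by omega)

/-- Zimin words are unavoidable -/
theorem unav (α : Type) [Fintype α] [Inhabited α] (n : ℕ) : ∃ M : ℕ, ∀ (x : ℕ → α) (i : ℕ),
    ∃ h : ℕ → List α, (∀ t, h t ≠ []) ∧ (Z n).flatMap h <:+: (List.range' i M).map x := by
  classical
  induction n with
  | zero => exact ⟨0, fun x i => ⟨fun _ => [default], by simp, by simp [Z]⟩⟩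
  | succ n ih =>
    obtain ⟨M, hM⟩ := ih
    set K := Fintype.card (Fin M → α) with hK
    refine ⟨(K + 1) * (M + 1), fun x i => ?_⟩
    obtain ⟨a, b, hab, he⟩ := Fintype.exists_ne_map_eq_of_card_lt
      (fun (j : Fin (K + 1)) (t : Fin M) => x (i + j * (M + 1) + t)) (by simp [hK])
    wlog hlt : a < b generalizing a b
    · exact this b a hab.symm he.symm (lt_of_le_of_ne (not_lt.1 hlt) hab.symm)
    have hlt' : (a : ℕ) + 1 ≤ b := hlt
    have hb : (b : ℕ) + 1 ≤ K + 1 := b.2
    have hB : (List.range' (i + a * (M + 1)) M).map x = (List.range' (i + b * (M + 1)) M).map x := by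
      apply List.ext_getElem (by simp)
      intro t h1 h2
      simp only [List.length_map, List.length_range'] at h1
      simpa using congrFun he ⟨t, h1⟩
    obtain ⟨h, hne, s, t, hst⟩ := hM x (i + a * (M + 1))
    obtain ⟨G, hG⟩ : ∃ G, (b : ℕ) * (M + 1) = a * (M + 1) + M + (G + 1) :=
      ⟨b * (M + 1) - (a + 1) * (M + 1), by
        have := Nat.mul_le_mul_right (M + 1) hlt'
        rw [Nat.add_mul] at this ⊢; omega⟩
    obtain ⟨C, hC⟩ : ∃ C, (K + 1) * (M + 1) = b * (M + 1) + M + C :=
      ⟨(K + 1) * (M + 1) - (b * (M + 1) + M), by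
        have := Nat.mul_le_mul_right (M + 1) hb
        rw [Nat.add_mul] at this; omega⟩
    set g := (List.range' (i + a * (M + 1) + M) (G + 1)).map x with hg
    refine ⟨Function.update h (n + 1) (t ++ g ++ s), ?_, ?_⟩
    · intro u
      by_cases hu : u = n + 1
      · subst hu; simp [hg]
      · rw [Function.update_of_ne hu]; exact hne u
    · have e1 : (Z n).flatMap (Function.update h (n + 1) (t ++ g ++ s)) = (Z n).flatMap h := by
        apply List.flatMap_congr
        intro u hu
        have := Z_le n u hu
        rw [Function.update_of_ne (by omega)]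
      rw [Z_succ, List.flatMap_append, List.flatMap_append, e1]
      simp only [List.flatMap_cons, List.flatMap_nil, Function.update_self, List.append_nil]
      refine ⟨(List.range' i (a * (M + 1))).map x ++ s,
        t ++ (List.range' (i + b * (M + 1) + M) C).map x, ?_⟩
      have e2 : List.range' i ((K + 1) * (M + 1)) =
          List.range' i (a * (M + 1)) ++ List.range' (i + a * (M + 1)) M ++
          List.range' (i + a * (M + 1) + M) (G + 1) ++ List.range' (i + b * (M + 1)) M ++
          List.range' (i + b * (M + 1) + M) C := by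
        rw [hC, hG]
        simp only [← List.range'_append_1, Nat.add_assoc, List.append_assoc]
      rw [e2]
      simp only [List.map_append, ← hB, ← hst, ← hg, List.append_assoc]

theorem infix_range {α : Type} (x : ℕ → α) (M : ℕ) (u : List α)
    (h : u <:+: (List.range' 0 M).map x) :
    ∃ i m, u = (List.range m).map (fun t => x (i + t)) := by
  obtain ⟨s, t, hst⟩ := h
  refine ⟨s.length, u.length, ?_⟩
  apply List.ext_getElem (by simp)
  intro k h1 h2
  have hl := congrArg List.length hst
  simp only [List.length_append, List.length_map, List.length_range'] at hl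
  have : (s ++ u ++ t)[s.length + k]'(by simp; omega) = u[k] := by
    simp [List.getElem_append_left, List.getElem_append_right, h1]
  rw [← this]
  simp only [hst]
  simp

theorem flat_cuts {α : Type} (y : ℕ → α) (L : ℕ) : ∀ (d : ℕ → ℕ), (∀ j < L, d j ≤ d (j + 1)) →
    d 0 ≤ d L ∧ (List.ofFn (fun t : Fin L => (List.range' (d t) (d (t + 1) - d t)).map y)).flatten =
      (List.range' (d 0) (d L - d 0)).map y := by
  induction L with
  | zero => simp
  | succ L ih =>
    intro d hd
    obtain ⟨h1, h2⟩ := ih (fun j => d (j + 1)) (fun j hj => hd (j + 1) (by omega))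
    have h0 := hd 0 (by omega)
    simp only [zero_add] at h1 h2 h0
    refine ⟨by omega, ?_⟩
    rw [List.ofFn_succ, List.flatten_cons]
    simp only [Fin.val_succ, Fin.val_zero, zero_add]
    rw [h2, ← List.map_append, show d (L + 1) - d 0 = (d 1 - d 0) + (d (L + 1) - d 1) by omega,
      ← List.range'_append_1, show d 0 + (d 1 - d 0) = d 1 by omega]

theorem cuts_of_flat {α : Type} (y : ℕ → α) (Ls : List (List α)) : ∀ (i m : ℕ),
    Ls.flatten = (List.range' i m).map y → ∃ c : ℕ → ℕ, c 0 = i ∧ (∀ j, c j ≤ i + m) ∧
      ∀ j (hj : j < Ls.length), c (j + 1) = c j + Ls[j].length ∧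
        Ls[j] = (List.range' (c j) Ls[j].length).map y := by
  induction Ls with
  | nil => intro i m _; exact ⟨fun _ => i, rfl, by simp, by simp⟩
  | cons A Ls ih =>
    intro i m h
    rw [List.flatten_cons] at h
    have hl := congrArg List.length h
    simp only [List.length_append, List.length_map, List.length_range'] at hl
    rw [← hl, ← List.range'_append_1, List.map_append] at h
    obtain ⟨h1, h2⟩ := List.append_inj h (by simp)
    obtain ⟨c, c0, cb, hc⟩ := ih _ _ h2
    refine ⟨fun j => Nat.casesOn j i c, rfl, ?_, ?_⟩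
    · intro j
      cases j with
      | zero => simp
      | succ j => have := cb j; simp only; omega
    · intro j hj
      cases j with
      | zero => exact ⟨c0, h1⟩
      | succ j => exact hc j (by simpa using hj)

theorem sum_range' {α : Type} (y : ℕ → α) (g : α → ℤ) (a l : ℕ) :
    (((List.range' a l).map y).map g).sum = S y g (a + l) - S y g a := by
  induction l with
  | zero => simp
  | succ l ih =>
    rw [List.range'_concat, List.map_append, List.map_append, List.sum_append, ih, ← add_assoc]
    simp [S, Finset.sum_range_succ]; ring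

theorem count_sum {α : Type} [DecidableEq α] (l : List α) (a : α) :
    (l.count a : ℤ) = (l.map (fun b => if b = a then (1 : ℤ) else 0)).sum := by
  induction l with
  | nil => simp
  | cons b l ih =>
    rw [List.count_cons, List.map_cons, List.sum_cons, ← ih]
    by_cases h : b = a <;> simp [h, add_comm]

end Pool.Agent.H5.Zim4
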