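import Pool.Agent.H5.Zim4

set_option autoImplicit false

namespace Pool.Agent.H5.Zim5
open Pool.Agent.H5.Zim1 Pool.Agent.H5.Zim3

theorem avoid (p : List ℕ)
    (hZ : ∀ N d c, Inv (fun j => p.getD j 0) p.length c c N d →
      (∀ j < p.length, d j < d (j + 1)) → N ≤ p.toFinset.card → False) :
    ∃ k : ℕ, ∃ x : ℕ → Fin k, ∀ i m : ℕ,
      ¬ ∃ f : Fin p.length → List (Fin k),
          (∀ t, f t ≠ []) ∧
          (List.ofFn f).flatten = (List.range m).map (fun t => x (i + t)) ∧
          ∀ a b : Fin p.length, p.get a = p.get b → (f a).Perm (f b) := by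
  classical
  obtain ⟨q, hq, hp⟩ := Nat.exists_infinite_primes (3 * p.length + 8)
  have : Fact q.Prime := ⟨hp⟩
  set e := Fintype.equivFin (ZMod q × ZMod q)
  refine ⟨_, fun t => e (W q t), ?_⟩
  rintro i m ⟨f, hne, hfl, hperm⟩
  have hfl' : (List.ofFn f).flatten = (List.range' i m).map (fun t => e (W q t)) := by
    rw [hfl, List.range'_eq_map_range, List.map_map]; rfl
  obtain ⟨c, -, cb, hc⟩ := H5.Zim4.cuts_of_flat _ _ i m hfl'
  have hc' : ∀ j (hj : j < p.length), c (j + 1) = c j + (f ⟨j, hj⟩).length ∧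
      f ⟨j, hj⟩ = (List.range' (c j) (f ⟨j, hj⟩).length).map (fun t => e (W q t)) := by
    intro j hj
    have := hc j (by simpa using hj)
    rw [List.getElem_ofFn] at this
    exact this
  have hlt : ∀ j < p.length, c j < c (j + 1) := by
    intro j hj
    have := List.length_pos_iff.2 (hne ⟨j, hj⟩)
    have := (hc' j hj).1
    omega
  have hpf : ∀ j (hj : j < p.length), p.getD j 0 = p.get ⟨j, hj⟩ := by
    intro j hj; simp [hj]
  obtain ⟨N, d, I⟩ := main q (fun j => p.getD j 0) p.length hq (i + m) c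
    (fun j _ => cb j) (fun j hj => (hlt j hj).le) (by
      intro j hj j' hj' hpp g
      have hs : ∀ j (hj : j < p.length), S (W q) g (c (j + 1)) -
          S (W q) g (c j) = ((f ⟨j, hj⟩).map (fun s => g (e.symm s))).sum := by
        intro j hj
        rw [(hc' j hj).2, H5.Zim4.sum_range', ← (hc' j hj).1]
        simp [S]
      rw [hs j hj, hs j' hj']
      apply List.Perm.sum_eq
      apply List.Perm.map
      apply hperm
      rw [← hpf, ← hpf]; exact hpp)
  refine hZ N d c I (fun j hj => I.lo j hj (hlt j hj)) ?_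
  refine I.card.trans ((NE_le _ _ _).trans (Finset.card_le_card ?_))
  intro x hx
  obtain ⟨j, hj, rfl⟩ := Finset.mem_image.1 hx
  rw [hpf j (Finset.mem_range.1 hj)]
  exact List.mem_toFinset.2 (List.get_mem _ _)

def tab : List ℤ := [0, 1, 17, 18, 274, 275, 291, 292, 4388, 4389, 4405, 4406, 4662, 4663, 4679, 4680]

theorem tab_eq : ∀ t < 16, S zl (fun a => (16 : ℤ) ^ (a - 1)) t = tab.getD t 0 := by
  have h := H5.Zim4.Z_eq 4
  have h2 : ∀ t < 15, zl t = (H5.Zim4.Z 4).getD t 0 := by
    intro t ht
    rw [h]; simp [ht]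
  intro t ht
  unfold S
  rw [Finset.sum_congr rfl (fun s hs => by
    rw [h2 s (by have := Finset.mem_range.1 hs; omega)])]
  revert t
  decide +kernel

def search : List ℕ → ℕ → List (ℕ × ℤ) → Bool
  | [], _, _ => true
  | x :: r, a, env => (List.range 16).any fun e => decide (a < e) &&
      env.all (fun y => y.1 != x || y.2 == tab.getD e 0 - tab.getD a 0) &&
      search r e ((x, tab.getD e 0 - tab.getD a 0) :: env)

theorem search_of (φ : ℕ → ℤ) (r : List ℕ) : ∀ (d : ℕ → ℕ) (env : List (ℕ × ℤ)),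
    (∀ j, d j < 16) → (∀ y ∈ env, y.2 = φ y.1) →
    (∀ j < r.length, d j < d (j + 1) ∧
      tab.getD (d (j + 1)) 0 - tab.getD (d j) 0 = φ (r.getD j 0)) →
    search r (d 0) env = true := by
  induction r with
  | nil => intros; rfl
  | cons x r ih =>
    intro d env hb he hd
    obtain ⟨h1, h2⟩ := hd 0 (by simp)
    simp only [zero_add, List.getD_cons_zero] at h1 h2
    rw [search, List.any_eq_true]
    refine ⟨d 1, List.mem_range.2 (hb 1), ?_⟩
    rw [Bool.and_eq_true, Bool.and_eq_true]
    refine ⟨⟨by simpa using h1, ?_⟩, ?_⟩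
    · rw [List.all_eq_true]
      intro y hy
      by_cases hx : y.1 = x
      · rw [h2, he y hy, hx]; simp
      · simp [hx]
    · apply ih (fun j => d (j + 1)) _ (fun j => hb _)
      · intro y hy
        rcases List.mem_cons.1 hy with rfl | hy
        · exact h2
        · exact he y hy
      · intro j hj
        simpa using hd (j + 1) (by simpa using hj)

theorem avoid4 (p : List ℕ) (h4 : p.toFinset.card ≤ 4)
    (hs : ∀ a < 16, search p a [] = false) :
    ∃ k : ℕ, ∃ x : ℕ → Fin k, ∀ i m : ℕ,
      ¬ ∃ f : Fin p.length → List (Fin k),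
          (∀ t, f t ≠ []) ∧
          (List.ofFn f).flatten = (List.range m).map (fun t => x (i + t)) ∧
          ∀ a b : Fin p.length, p.get a = p.get b → (f a).Perm (f b) := by
  classical
  apply avoid
  intro N d c I hlt hN
  have hb : ∀ j, d j < 16 := fun j =>
    (I.bd j).trans_le (Nat.pow_le_pow_right (by norm_num) (hN.trans h4))
  have := search_of (fun x => if h : ∃ j < p.length, p.getD j 0 = x then
    tab.getD (d (h.choose + 1)) 0 - tab.getD (d h.choose) 0 else 0) p d [] hb (by simp) (by
      intro j hj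
      refine ⟨hlt j hj, ?_⟩
      have h : ∃ j' < p.length, p.getD j' 0 = p.getD j 0 := ⟨j, hj, rfl⟩
      simp only [dif_pos h]
      have := I.con j hj h.choose h.choose_spec.1 h.choose_spec.2.symm (fun a => (16 : ℤ) ^ (a - 1))
      simpa only [tab_eq _ (hb _)] using this)
  rw [hs _ (hb 0)] at this
  exact Bool.false_ne_true this

end Pool.Agent.H5.Zim5
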